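import Pool.Agent.Work.MP_8c7e5b_q2.Interface

/-!
# MP_8c7e5b_an, Q2: block ABS (absorption of finite matrices)
-/

open MeasureTheory Complex Filter Topology
open scoped ComplexOrder InnerProductSpace ComplexConjugate BoundedContinuousFunction

set_option autoImplicit false

namespace Pool.Q2

open Pool.Bes

namespace ABSAux

section Blocks

variable {E K : Type} [NormedAddCommGroup E] [InnerProductSpace ℂ E] [CompleteSpace E]
  [NormedAddCommGroup K] [InnerProductSpace ℂ K] [CompleteSpace K]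

/-- `P A Q^*` -/
noncomputable def bl (P : E →L[ℂ] K) (A : E →L[ℂ] E) (Q : E →L[ℂ] K) : K →L[ℂ] K :=
  P ∘L A ∘L (ContinuousLinearMap.adjoint Q)

theorem bl_apply (P : E →L[ℂ] K) (A : E →L[ℂ] E) (Q : E →L[ℂ] K) (z : K) :
    bl P A Q z = P (A (ContinuousLinearMap.adjoint Q z)) := rfl

theorem bl_mul_same (P Q R : E →L[ℂ] K) (A B : E →L[ℂ] E)
    (h : (ContinuousLinearMap.adjoint Q) ∘L Q = ContinuousLinearMap.id ℂ E) :
    bl P A Q * bl Q B R = bl P (A * B) R := by
  ext z
  have h' : ∀ w, ContinuousLinearMap.adjoint Q (Q w) = w := fun w => DFunLike.congr_fun h w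
  change P (A (ContinuousLinearMap.adjoint Q (Q (B (ContinuousLinearMap.adjoint R z))))) =
    P (A (B (ContinuousLinearMap.adjoint R z)))
  rw [h']

theorem bl_mul_zero (P Q Q' R : E →L[ℂ] K) (A B : E →L[ℂ] E)
    (h : (ContinuousLinearMap.adjoint Q) ∘L Q' = 0) :
    bl P A Q * bl Q' B R = 0 := by
  ext z
  have h' : ∀ w, ContinuousLinearMap.adjoint Q (Q' w) = 0 := fun w => DFunLike.congr_fun h w
  change P (A (ContinuousLinearMap.adjoint Q (Q' (B (ContinuousLinearMap.adjoint R z))))) = 0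
  rw [h', map_zero, map_zero]

theorem star_bl (P Q : E →L[ℂ] K) (A : E →L[ℂ] E) : star (bl P A Q) = bl Q (star A) P := by
  simp only [bl, ContinuousLinearMap.star_eq_adjoint, ContinuousLinearMap.adjoint_comp,
    ContinuousLinearMap.adjoint_adjoint, ContinuousLinearMap.comp_assoc]

theorem bl_add (P Q : E →L[ℂ] K) (A B : E →L[ℂ] E) : bl P (A + B) Q = bl P A Q + bl P B Q := by
  ext z; simp only [bl_apply, _root_.add_apply, map_add]

theorem bl_sub (P Q : E →L[ℂ] K) (A B : E →L[ℂ] E) : bl P (A - B) Q = bl P A Q - bl P B Q := by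
  ext z; simp only [bl_apply, _root_.sub_apply, map_sub]

theorem bl_smul (P Q : E →L[ℂ] K) (c : ℂ) (A : E →L[ℂ] E) : bl P (c • A) Q = c • bl P A Q := by
  ext z; simp only [bl_apply, _root_.smul_apply, map_smul]

theorem dt_bl (P : E →L[ℂ] K) (e : ℂ) (A : E →L[ℂ] E) : dt e (bl P A P) = bl P (dt e A) P := by
  unfold dt
  rw [star_bl, bl_smul, bl_add, bl_smul, bl_smul]

theorem dt_add (e : ℂ) (A B : K →L[ℂ] K) : dt e (A + B) = dt e A + dt e B := by
  unfold dt
  rw [star_add]
  module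

theorem star_dt (e : ℂ) (A : K →L[ℂ] K) : star (dt e A) = dt e A := by
  unfold dt
  have h1 : star (1 / 2 : ℂ) = 1 / 2 := by norm_num
  have h2 : star (conj e) = e := star_star e
  have h3 : star e = conj e := rfl
  rw [star_smul, star_add, star_smul, star_smul, star_star, h1, h2, h3, add_comm]

theorem cor_eq (P : E →L[ℂ] K) (A : E →L[ℂ] E) : cor P A = bl P A P := rfl

end Blocks

section DS

variable {E K : Type} [NormedAddCommGroup E] [InnerProductSpace ℂ E] [CompleteSpace E]
  [NormedAddCommGroup K] [InnerProductSpace ℂ K] [CompleteSpace K]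
  {i j : E →L[ℂ] K}

theorem hji (h : IsDS i j) : (ContinuousLinearMap.adjoint j) ∘L i = 0 := by
  have := congrArg ContinuousLinearMap.adjoint h.hij
  rw [ContinuousLinearMap.adjoint_comp, ContinuousLinearMap.adjoint_adjoint, map_zero] at this
  exact this

/-- the unitary `[[C, -S], [S, C]]` -/
noncomputable def rot (i j : E →L[ℂ] K) (C S : E →L[ℂ] E) : K →L[ℂ] K :=
  bl i C i - bl i S j + (bl j S i + bl j C j)

theorem uni_rot (h : IsDS i j) (C S : E →L[ℂ] E) (hC : star C = C) (hS : star S = S)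
    (hCS : C * S = S * C) (h1 : C * C + S * S = 1) : Uni (rot i j C S) := by
  have hi := h.hi
  have hj := h.hj
  have hij := h.hij
  have hji' := hji h
  have hone : bl i (1 : E →L[ℂ] E) i + bl j (1 : E →L[ℂ] E) j = 1 := h.hs
  have hst : star (rot i j C S) = bl i C i - bl j S i + (bl i S j + bl j C j) := by
    unfold rot
    rw [star_add, star_sub, star_add, star_bl, star_bl, star_bl, star_bl, hC, hS]
  have hz : ∀ P Q : E →L[ℂ] K, bl P (C * S) Q - bl P (S * C) Q = 0 := fun P Q => by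
    rw [hCS, sub_self]
  constructor
  · rw [hst, rot]
    simp only [add_mul, sub_mul, mul_add, mul_sub]
    rw [bl_mul_same i i i C C hi, bl_mul_same i i j C S hi, bl_mul_zero i i j i C S hij,
      bl_mul_zero i i j j C C hij, bl_mul_same j i i S C hi, bl_mul_same j i j S S hi,
      bl_mul_zero j i j i S S hij, bl_mul_zero j i j j S C hij,
      bl_mul_zero i j i i S C hji', bl_mul_zero i j i j S S hji', bl_mul_same i j i S S hj,
      bl_mul_same i j j S C hj, bl_mul_zero j j i i C C hji', bl_mul_zero j j i j C S hji',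
      bl_mul_same j j i C S hj, bl_mul_same j j j C C hj]
    rw [← hone, ← h1, bl_add, bl_add, hCS]
    abel
  · rw [hst, rot]
    simp only [add_mul, sub_mul, mul_add, mul_sub]
    rw [bl_mul_same i i i C C hi, bl_mul_zero i i j i C S hij, bl_mul_same i i j C S hi,
      bl_mul_zero i i j j C C hij, bl_mul_zero i j i i S C hji', bl_mul_same i j i S S hj,
      bl_mul_zero i j i j S S hji', bl_mul_same i j j S C hj, bl_mul_same j i i S C hi,
      bl_mul_zero j i j i S S hij, bl_mul_same j i j S S hi, bl_mul_zero j i j j S C hij,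
      bl_mul_zero j j i i C C hji', bl_mul_same j j i C S hj, bl_mul_zero j j i j C S hji',
      bl_mul_same j j j C C hj]
    rw [← hone, ← h1, bl_add, bl_add, hCS]
    abel

theorem rot_error (h : IsDS i j) (C S A A' P Q : E →L[ℂ] E) :
    rot i j C S * (bl i A i + bl j A' j) - (bl i P i + bl j Q j) * rot i j C S =
      bl i (C * A - P * C) i - bl i (S * A' - P * S) j +
        (bl j (S * A - Q * S) i + bl j (C * A' - Q * C) j) := by
  have hi := h.hi
  have hj := h.hj
  have hij := h.hij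
  have hji' := hji h
  rw [rot]
  simp only [add_mul, sub_mul, mul_add, mul_sub]
  rw [bl_mul_same i i i C A hi, bl_mul_zero i j i i S A hji', bl_mul_same j i i S A hi,
    bl_mul_zero j j i i C A hji', bl_mul_zero i i j j C A' hij, bl_mul_same i j j S A' hj,
    bl_mul_zero j i j j S A' hij, bl_mul_same j j j C A' hj,
    bl_mul_same i i i P C hi, bl_mul_same i i j P S hi, bl_mul_zero i i j i P S hij,
    bl_mul_zero i i j j P C hij, bl_mul_zero j j i i Q C hji', bl_mul_zero j j i j Q S hji',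
    bl_mul_same j j i Q S hj, bl_mul_same j j j Q C hj]
  simp only [bl_sub]
  abel

theorem norm_apply_of_iso {P : E →L[ℂ] K}
    (h : (ContinuousLinearMap.adjoint P) ∘L P = ContinuousLinearMap.id ℂ E) (x : E) :
    ‖P x‖ = ‖x‖ := by
  have h' : ∀ w, ContinuousLinearMap.adjoint P (P w) = w := fun w => DFunLike.congr_fun h w
  have h2 : ⟪P x, P x⟫_ℂ = ⟪x, x⟫_ℂ := by
    rw [← ContinuousLinearMap.adjoint_inner_right, h']
  rw [inner_self_eq_norm_sq_to_K, inner_self_eq_norm_sq_to_K] at h2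
  have h3 : ‖P x‖ ^ 2 = ‖x‖ ^ 2 := by exact_mod_cast h2
  exact (pow_left_inj₀ (norm_nonneg _) (norm_nonneg _) two_ne_zero).1 h3

theorem star_normal_bl (h : IsDS i j) (A B : E →L[ℂ] E) (hA : IsStarNormal A)
    (hB : IsStarNormal B) : IsStarNormal (bl i A i + bl j B j) := by
  have hi := h.hi
  have hj := h.hj
  have hij := h.hij
  have hji' := hji h
  constructor
  have hA' : star A * A = A * star A := hA.star_comm_self
  have hB' : star B * B = B * star B := hB.star_comm_self
  change star (bl i A i + bl j B j) * (bl i A i + bl j B j) =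
    (bl i A i + bl j B j) * star (bl i A i + bl j B j)
  rw [star_add, star_bl, star_bl]
  simp only [add_mul, mul_add]
  rw [bl_mul_same i i i _ _ hi, bl_mul_zero j j i i _ _ hji', bl_mul_zero i i j j _ _ hij,
    bl_mul_same j j j _ _ hj, bl_mul_same i i i _ _ hi, bl_mul_zero j j i i _ _ hji',
    bl_mul_zero i i j j _ _ hij, bl_mul_same j j j _ _ hj, hA', hB']

end DS

section Mat

variable {r : ℕ}

/-- the operator of a matrix -/
noncomputable abbrev mx (T : Matrix (Fin r) (Fin r) ℂ) : Ef r →L[ℂ] Ef r :=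
  Matrix.toEuclideanCLM (n := Fin r) (𝕜 := ℂ) T

/-- the standard basis -/
noncomputable abbrev bs (l : Fin r) : Ef r := EuclideanSpace.single l (1 : ℂ)

theorem mx_apply (T : Matrix (Fin r) (Fin r) ℂ) (l k : Fin r) : mx T (bs l) k = T k l := by
  have h : (mx T (bs l)) k = (T.mulVec (WithLp.ofLp (bs l))) k := rfl
  rw [h]
  have h2 : (WithLp.ofLp (bs l) : Fin r → ℂ) = Pi.single l 1 := by
    simp [bs]
  rw [h2, Matrix.mulVec_single_one]
  rfl

theorem norm_mx_sq (T : Matrix (Fin r) (Fin r) ℂ) (l : Fin r) :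
    ‖mx T (bs l)‖ ^ 2 = ∑ k, ‖T k l‖ ^ 2 := by
  rw [EuclideanSpace.norm_sq_eq]
  simp only [mx_apply]

theorem norm_mx_le (T Z : Matrix (Fin r) (Fin r) ℂ) (c : ℝ) (hc : 0 ≤ c)
    (h : ∀ k l, ‖T k l‖ ≤ c * ‖Z k l‖) (l : Fin r) :
    ‖mx T (bs l)‖ ≤ c * ‖mx Z (bs l)‖ := by
  refine abs_le_of_sq_le_sq' ?_ (by positivity) |>.2
  rw [mul_pow, norm_mx_sq, norm_mx_sq, Finset.mul_sum]
  refine Finset.sum_le_sum fun k _ => ?_
  rw [← mul_pow]
  exact pow_le_pow_left₀ (norm_nonneg _) (h k l) 2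

theorem norm_mx_diag_le (f : Fin r → ℂ) (c : ℝ) (h : ∀ k, ‖f k‖ ≤ c) (l : Fin r) :
    ‖mx (Matrix.diagonal f) (bs l)‖ ≤ c := by
  have hc : 0 ≤ c := (norm_nonneg _).trans (h l)
  refine abs_le_of_sq_le_sq' ?_ hc |>.2
  rw [norm_mx_sq, Finset.sum_eq_single l]
  · rw [Matrix.diagonal_apply_eq]
    exact pow_le_pow_left₀ (norm_nonneg _) (h l) 2
  · intro k _ hk
    rw [Matrix.diagonal_apply_ne _ hk, norm_zero]
    norm_num
  · intro hl; exact absurd (Finset.mem_univ l) hl

theorem bl_eq_sum {K : Type} [NormedAddCommGroup K] [InnerProductSpace ℂ K] [CompleteSpace K]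
    (P Q : Ef r →L[ℂ] K) (T : Ef r →L[ℂ] Ef r) :
    bl P T Q = ∑ l, r1 (P (T (bs l))) (Q (bs l)) := by
  ext z
  rw [_root_.sum_apply]
  simp only [r1_apply]
  have h := (EuclideanSpace.basisFun (Fin r) ℂ).sum_repr' (ContinuousLinearMap.adjoint Q z)
  have h2 : ∀ l, ⟪(EuclideanSpace.basisFun (Fin r) ℂ) l, ContinuousLinearMap.adjoint Q z⟫_ℂ =
      ⟪Q (bs l), z⟫_ℂ := by
    intro l
    rw [ContinuousLinearMap.adjoint_inner_right, EuclideanSpace.basisFun_apply]
  rw [bl_apply, ← h, map_sum, map_sum]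
  refine Finset.sum_congr rfl fun l _ => ?_
  rw [h2, map_smul, map_smul, EuclideanSpace.basisFun_apply]

theorem n1_bl_le {K : Type} [NormedAddCommGroup K] [InnerProductSpace ℂ K] [CompleteSpace K]
    (P Q : Ef r →L[ℂ] K) (T : Ef r →L[ℂ] Ef r)
    (hP : (ContinuousLinearMap.adjoint P) ∘L P = ContinuousLinearMap.id ℂ (Ef r))
    (hQ : (ContinuousLinearMap.adjoint Q) ∘L Q = ContinuousLinearMap.id ℂ (Ef r))
    (c : ℝ) (h : ∀ l, ‖T (bs l)‖ ≤ c) : IsT (bl P T Q) ∧ n1 (bl P T Q) ≤ c * r := by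
  rw [bl_eq_sum]
  refine ⟨IsT.sum _ _ fun l _ => isT_r1 _ _, ?_⟩
  refine (n1_sum_le _ _ fun l _ => isT_r1 _ _).trans ?_
  calc ∑ l, n1 (r1 (P (T (bs l))) (Q (bs l))) ≤ ∑ _l : Fin r, c := by
        refine Finset.sum_le_sum fun l _ => ?_
        refine (n1_r1_le _ _).trans ?_
        rw [norm_apply_of_iso hP, norm_apply_of_iso hQ]
        have : ‖(bs l : Ef r)‖ = 1 := by simp [bs]
        rw [this, mul_one]
        exact h l
    _ = c * r := by
        rw [Finset.sum_const, Finset.card_univ, Fintype.card_fin, nsmul_eq_mul, mul_comm]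

end Mat

section Incl

/-- the first inclusion -/
noncomputable def iA (r : ℕ) : Ef r →L[ℂ] Ef (r + r) :=
  LinearMap.toContinuousLinearMap
    { toFun := fun x => WithLp.toLp 2 (Fin.append (fun k => x k) (fun _ : Fin r => (0 : ℂ)))
      map_add' := by
        intro x y
        ext k
        change Fin.append (fun k => x k + y k) (fun _ : Fin r => (0 : ℂ)) k =
          Fin.append (fun k => x k) (fun _ : Fin r => (0 : ℂ)) k +
            Fin.append (fun k => y k) (fun _ : Fin r => (0 : ℂ)) k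
        refine Fin.addCases (fun k => ?_) (fun k => ?_) k
        · rw [Fin.append_left, Fin.append_left, Fin.append_left]
        · rw [Fin.append_right, Fin.append_right, Fin.append_right, add_zero]
      map_smul' := by
        intro c x
        ext k
        change Fin.append (fun k => c * x k) (fun _ : Fin r => (0 : ℂ)) k =
          c * Fin.append (fun k => x k) (fun _ : Fin r => (0 : ℂ)) k
        refine Fin.addCases (fun k => ?_) (fun k => ?_) k
        · rw [Fin.append_left, Fin.append_left]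
        · rw [Fin.append_right, Fin.append_right, mul_zero] }

/-- the second inclusion -/
noncomputable def jA (r : ℕ) : Ef r →L[ℂ] Ef (r + r) :=
  LinearMap.toContinuousLinearMap
    { toFun := fun x => WithLp.toLp 2 (Fin.append (fun _ : Fin r => (0 : ℂ)) (fun k => x k))
      map_add' := by
        intro x y
        ext k
        change Fin.append (fun _ : Fin r => (0 : ℂ)) (fun k => x k + y k) k =
          Fin.append (fun _ : Fin r => (0 : ℂ)) (fun k => x k) k +
            Fin.append (fun _ : Fin r => (0 : ℂ)) (fun k => y k) k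
        refine Fin.addCases (fun k => ?_) (fun k => ?_) k
        · rw [Fin.append_left, Fin.append_left, Fin.append_left, add_zero]
        · rw [Fin.append_right, Fin.append_right, Fin.append_right]
      map_smul' := by
        intro c x
        ext k
        change Fin.append (fun _ : Fin r => (0 : ℂ)) (fun k => c * x k) k =
          c * Fin.append (fun _ : Fin r => (0 : ℂ)) (fun k => x k) k
        refine Fin.addCases (fun k => ?_) (fun k => ?_) k
        · rw [Fin.append_left, Fin.append_left, mul_zero]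
        · rw [Fin.append_right, Fin.append_right] }

/-- the first projection -/
noncomputable def pA (r : ℕ) : Ef (r + r) →L[ℂ] Ef r :=
  LinearMap.toContinuousLinearMap
    { toFun := fun x => WithLp.toLp 2 (fun k : Fin r => x (Fin.castAdd r k))
      map_add' := by intro x y; ext k; simp
      map_smul' := by intro c x; ext k; simp }

/-- the second projection -/
noncomputable def qA (r : ℕ) : Ef (r + r) →L[ℂ] Ef r :=
  LinearMap.toContinuousLinearMap
    { toFun := fun x => WithLp.toLp 2 (fun k : Fin r => x (Fin.natAdd r k))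
      map_add' := by intro x y; ext k; simp
      map_smul' := by intro c x; ext k; simp }

theorem iA_left (r : ℕ) (x : Ef r) (k : Fin r) : iA r x (Fin.castAdd r k) = x k := by
  change Fin.append (fun k => x k) (fun _ : Fin r => (0 : ℂ)) (Fin.castAdd r k) = x k
  rw [Fin.append_left]

theorem iA_right (r : ℕ) (x : Ef r) (k : Fin r) : iA r x (Fin.natAdd r k) = 0 := by
  change Fin.append (fun k => x k) (fun _ : Fin r => (0 : ℂ)) (Fin.natAdd r k) = 0
  rw [Fin.append_right]

theorem jA_left (r : ℕ) (x : Ef r) (k : Fin r) : jA r x (Fin.castAdd r k) = 0 := by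
  change Fin.append (fun _ : Fin r => (0 : ℂ)) (fun k => x k) (Fin.castAdd r k) = 0
  rw [Fin.append_left]

theorem jA_right (r : ℕ) (x : Ef r) (k : Fin r) : jA r x (Fin.natAdd r k) = x k := by
  change Fin.append (fun _ : Fin r => (0 : ℂ)) (fun k => x k) (Fin.natAdd r k) = x k
  rw [Fin.append_right]

theorem pA_apply (r : ℕ) (z : Ef (r + r)) (k : Fin r) : pA r z k = z (Fin.castAdd r k) := rfl

theorem qA_apply (r : ℕ) (z : Ef (r + r)) (k : Fin r) : qA r z k = z (Fin.natAdd r k) := rfl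

theorem adj_iA (r : ℕ) : ContinuousLinearMap.adjoint (iA r) = pA r := by
  symm
  rw [ContinuousLinearMap.eq_adjoint_iff]
  intro z x
  rw [PiLp.inner_apply, PiLp.inner_apply, Fin.sum_univ_add]
  simp only [iA_left, iA_right, pA_apply, inner_zero_right, Finset.sum_const_zero, add_zero]

theorem adj_jA (r : ℕ) : ContinuousLinearMap.adjoint (jA r) = qA r := by
  symm
  rw [ContinuousLinearMap.eq_adjoint_iff]
  intro z x
  rw [PiLp.inner_apply, PiLp.inner_apply, Fin.sum_univ_add]
  simp only [jA_left, jA_right, qA_apply, inner_zero_right, Finset.sum_const_zero, zero_add]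

theorem ds_A (r : ℕ) : IsDS (iA r) (jA r) := by
  constructor
  · rw [adj_iA]
    ext x k
    change pA r (iA r x) k = x k
    rw [pA_apply, iA_left]
  · rw [adj_jA]
    ext x k
    change qA r (jA r x) k = x k
    rw [qA_apply, jA_right]
  · rw [adj_iA]
    ext x k
    change pA r (jA r x) k = 0
    rw [pA_apply, jA_left]
  · rw [adj_iA, adj_jA]
    ext x k
    change iA r (pA r x) k + jA r (qA r x) k = x k
    refine Fin.addCases (fun k => ?_) (fun k => ?_) k
    · rw [iA_left, jA_left, pA_apply, add_zero]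
    · rw [iA_right, jA_right, qA_apply, zero_add]

end Incl

section Labels

/-- the cell of `t` -/
noncomputable def Fl (δ t : ℝ) : ℤ := ⌊t / δ⌋

/-- the even block of `t` -/
noncomputable def El (δ t : ℝ) : ℤ := (Fl δ t + 1) / 2

/-- the odd block of `t` -/
noncomputable def Ol (δ t : ℝ) : ℤ := Fl δ t / 2

theorem Fl_le (δ t : ℝ) (hδ : 0 < δ) : (Fl δ t : ℝ) * δ ≤ t := by
  have h := Int.floor_le (t / δ)
  rw [le_div_iff₀ hδ] at h
  exact h

theorem lt_Fl (δ t : ℝ) (hδ : 0 < δ) : t < ((Fl δ t : ℝ) + 1) * δ := by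
  have h := Int.lt_floor_add_one (t / δ)
  rw [div_lt_iff₀ hδ] at h
  exact h

/-- `cos (π t / (2 δ))` -/
noncomputable def fc (δ t : ℝ) : ℝ := Real.cos (Real.pi / (2 * δ) * t)

/-- `sin (π t / (2 δ))` -/
noncomputable def fs (δ t : ℝ) : ℝ := Real.sin (Real.pi / (2 * δ) * t)

theorem fc_lip (δ a b : ℝ) (hδ : 0 < δ) :
    |fc δ a - fc δ b| ≤ Real.pi / (2 * δ) * |a - b| := by
  have h := Real.lipschitzWith_cos.dist_le_mul (Real.pi / (2 * δ) * a) (Real.pi / (2 * δ) * b)
  rw [Real.dist_eq, Real.dist_eq, ← mul_sub, abs_mul,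
    abs_of_pos (by positivity : 0 < Real.pi / (2 * δ))] at h
  simpa [fc] using h

theorem fs_lip (δ a b : ℝ) (hδ : 0 < δ) :
    |fs δ a - fs δ b| ≤ Real.pi / (2 * δ) * |a - b| := by
  have h := Real.lipschitzWith_sin.dist_le_mul (Real.pi / (2 * δ) * a) (Real.pi / (2 * δ) * b)
  rw [Real.dist_eq, Real.dist_eq, ← mul_sub, abs_mul,
    abs_of_pos (by positivity : 0 < Real.pi / (2 * δ))] at h
  simpa [fs] using h

theorem fc_odd (δ : ℝ) (m : ℤ) (hδ : 0 < δ) : fc δ (((2 * m + 1 : ℤ) : ℝ) * δ) = 0 := by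
  unfold fc
  rw [Real.cos_eq_zero_iff]
  refine ⟨m, ?_⟩
  push_cast
  field_simp

theorem fs_even (δ : ℝ) (m : ℤ) (hδ : 0 < δ) : fs δ (((2 * m : ℤ) : ℝ) * δ) = 0 := by
  unfold fs
  rw [Real.sin_eq_zero_iff]
  refine ⟨m, ?_⟩
  push_cast
  field_simp

theorem fc_le_one (δ t : ℝ) : |fc δ t| ≤ 1 := Real.abs_cos_le_one _

theorem fs_le_one (δ t : ℝ) : |fs δ t| ≤ 1 := Real.abs_sin_le_one _

/-- a zero between two points -/
theorem sep (f : ℝ → ℝ) (κ a b p : ℝ) (hf : ∀ a b, |f a - f b| ≤ κ * |a - b|) (hκ : 0 ≤ κ)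
    (hp : f p = 0) (h : a ≤ p ∧ p ≤ b) :
    |f a| ≤ κ * |a - b| ∧ |f b| ≤ κ * |a - b| := by
  have h1 := hf a p
  have h2 := hf b p
  rw [hp, sub_zero] at h1 h2
  have e1 : |a - b| = b - a := by rw [abs_sub_comm]; exact abs_of_nonneg (by linarith)
  have e2 : |a - p| = p - a := by rw [abs_sub_comm]; exact abs_of_nonneg (by linarith)
  have e3 : |b - p| = b - p := abs_of_nonneg (by linarith)
  rw [e1]
  rw [e2] at h1
  rw [e3] at h2
  constructor
  · refine h1.trans (mul_le_mul_of_nonneg_left (by linarith) hκ)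
  · refine h2.trans (mul_le_mul_of_nonneg_left (by linarith) hκ)

theorem between (δ a b : ℝ) (n : ℤ) (hδ : 0 < δ) (h1 : Fl δ a < n) (h2 : n ≤ Fl δ b) :
    a ≤ (n : ℝ) * δ ∧ (n : ℝ) * δ ≤ b := by
  constructor
  · refine (lt_Fl δ a hδ).le.trans ?_
    have : ((Fl δ a : ℝ) + 1) ≤ n := by exact_mod_cast h1
    gcongr
  · refine le_trans ?_ (Fl_le δ b hδ)
    have : (n : ℝ) ≤ (Fl δ b : ℝ) := by exact_mod_cast h2
    gcongr

/-- the property of the labels `g₁, g₂` needed for the function `f` -/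
def Good (δ : ℝ) (f : ℝ → ℝ) (g₁ g₂ : ℝ → ℤ) : Prop :=
  ∀ a b : ℝ, ((g₁ a = g₁ b ∧ g₂ a ≠ g₂ b) ∨ (g₁ a ≠ g₁ b ∧ g₂ a = g₂ b)) →
    |f a| ≤ Real.pi / (2 * δ) * |a - b| ∧ |f b| ≤ Real.pi / (2 * δ) * |a - b|

theorem good_of_lt (δ : ℝ) (f : ℝ → ℝ) (g₁ g₂ : ℝ → ℤ)
    (h : ∀ a b : ℝ, ((g₁ a = g₁ b ∧ g₂ a ≠ g₂ b) ∨ (g₁ a ≠ g₁ b ∧ g₂ a = g₂ b)) →
      Fl δ a ≤ Fl δ b →
      |f a| ≤ Real.pi / (2 * δ) * |a - b| ∧ |f b| ≤ Real.pi / (2 * δ) * |a - b|) :
    Good δ f g₁ g₂ := by
  intro a b hab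
  rcases le_total (Fl δ a) (Fl δ b) with h1 | h1
  · exact h a b hab h1
  · have h2 := h b a (by
      rcases hab with ⟨x, y⟩ | ⟨x, y⟩
      · exact Or.inl ⟨x.symm, fun z => y z.symm⟩
      · exact Or.inr ⟨fun z => x z.symm, y.symm⟩) h1
    rw [abs_sub_comm b a] at h2
    exact ⟨h2.2, h2.1⟩

theorem good_c_E (δ : ℝ) (hδ : 0 < δ) : Good δ (fc δ) (fun _ => 0) (El δ) := by
  refine good_of_lt _ _ _ _ fun a b hab hle => ?_
  have hne : El δ a ≠ El δ b := by
    rcases hab with ⟨_, y⟩ | ⟨x, _⟩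
    · exact y
    · exact absurd rfl x
  have hm : Fl δ a < 2 * (El δ b - 1) + 1 ∧ 2 * (El δ b - 1) + 1 ≤ Fl δ b := by
    unfold El at hne ⊢; omega
  exact sep _ _ a b _ (fun a b => fc_lip δ a b hδ) (by positivity) (fc_odd δ _ hδ)
    (between δ a b _ hδ hm.1 hm.2)

theorem good_s_O (δ : ℝ) (hδ : 0 < δ) : Good δ (fs δ) (fun _ => 0) (Ol δ) := by
  refine good_of_lt _ _ _ _ fun a b hab hle => ?_
  have hne : Ol δ a ≠ Ol δ b := by
    rcases hab with ⟨_, y⟩ | ⟨x, _⟩
    · exact y
    · exact absurd rfl x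
  have hm : Fl δ a < 2 * Ol δ b ∧ 2 * Ol δ b ≤ Fl δ b := by
    unfold Ol at hne ⊢; omega
  exact sep _ _ a b _ (fun a b => fs_lip δ a b hδ) (by positivity) (fs_even δ _ hδ)
    (between δ a b _ hδ hm.1 hm.2)

theorem good_s_E (δ : ℝ) (hδ : 0 < δ) : Good δ (fs δ) (Fl δ) (El δ) := by
  refine good_of_lt _ _ _ _ fun a b hab hle => ?_
  have hm : Fl δ a < 2 * El δ b ∧ 2 * El δ b ≤ Fl δ b := by
    unfold El at hab ⊢; omega
  exact sep _ _ a b _ (fun a b => fs_lip δ a b hδ) (by positivity) (fs_even δ _ hδ)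
    (between δ a b _ hδ hm.1 hm.2)

theorem good_c_O (δ : ℝ) (hδ : 0 < δ) : Good δ (fc δ) (Fl δ) (Ol δ) := by
  refine good_of_lt _ _ _ _ fun a b hab hle => ?_
  have hm : Fl δ a < 2 * Ol δ b + 1 ∧ 2 * Ol δ b + 1 ≤ Fl δ b := by
    unfold Ol at hab ⊢; omega
  exact sep _ _ a b _ (fun a b => fc_lip δ a b hδ) (by positivity) (fc_odd δ _ hδ)
    (between δ a b _ hδ hm.1 hm.2)

end Labels

section Entries

variable {r : ℕ}

/-- the block matrix of the labels `g` -/
noncomputable def tm (x : Fin r → ℝ) (y : Matrix (Fin r) (Fin r) ℂ) (g : ℝ → ℤ) :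
    Matrix (Fin r) (Fin r) ℂ := fun k l => if g (x k) = g (x l) then y k l else 0

/-- real diagonal matrices -/
noncomputable def dg (x : Fin r → ℝ) (f : ℝ → ℝ) : Matrix (Fin r) (Fin r) ℂ :=
  Matrix.diagonal fun k => (f (x k) : ℂ)

theorem entry_bound (δ : ℝ) (hδ : 0 < δ) (x : Fin r → ℝ) (y : Matrix (Fin r) (Fin r) ℂ)
    (f : ℝ → ℝ) (g₁ g₂ : ℝ → ℤ)
    (hf : ∀ a b, |f a - f b| ≤ Real.pi / (2 * δ) * |a - b|) (hg : Good δ f g₁ g₂)
    (k l : Fin r) :
    ‖(dg x f * tm x y g₁ - tm x y g₂ * dg x f) k l‖ ≤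
      Real.pi / (2 * δ) * ‖(dg x id * y - y * dg x id) k l‖ := by
  unfold dg
  rw [Matrix.sub_apply, Matrix.sub_apply, Matrix.diagonal_mul, Matrix.mul_diagonal,
    Matrix.diagonal_mul, Matrix.mul_diagonal]
  have e1 : ((id (x k) : ℝ) : ℂ) * y k l - y k l * ((id (x l) : ℝ) : ℂ) =
      ((x k - x l : ℝ) : ℂ) * y k l := by
    simp only [id]; push_cast; ring
  rw [e1, norm_mul, Complex.norm_real, Real.norm_eq_abs]
  unfold tm
  by_cases h1 : g₁ (x k) = g₁ (x l)
  · by_cases h2 : g₂ (x k) = g₂ (x l)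
    · rw [if_pos h1, if_pos h2]
      have e2 : (f (x k) : ℂ) * y k l - y k l * (f (x l) : ℂ) =
          ((f (x k) - f (x l) : ℝ) : ℂ) * y k l := by push_cast; ring
      rw [e2, norm_mul, Complex.norm_real, Real.norm_eq_abs, ← mul_assoc]
      exact mul_le_mul_of_nonneg_right (hf _ _) (norm_nonneg _)
    · rw [if_pos h1, if_neg h2, zero_mul, sub_zero, norm_mul, Complex.norm_real,
        Real.norm_eq_abs, ← mul_assoc]
      exact mul_le_mul_of_nonneg_right (hg _ _ (Or.inl ⟨h1, h2⟩)).1 (norm_nonneg _)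
  · by_cases h2 : g₂ (x k) = g₂ (x l)
    · rw [if_neg h1, if_pos h2, mul_zero, zero_sub, norm_neg, norm_mul, Complex.norm_real,
        Real.norm_eq_abs, mul_comm ‖y k l‖, ← mul_assoc]
      exact mul_le_mul_of_nonneg_right (hg _ _ (Or.inr ⟨h1, h2⟩)).2 (norm_nonneg _)
    · rw [if_neg h1, if_neg h2, mul_zero, zero_mul, sub_zero, norm_zero]
      positivity

theorem tm_const (x : Fin r → ℝ) (y : Matrix (Fin r) (Fin r) ℂ) : tm x y (fun _ => 0) = y := by
  ext k l
  simp [tm]

/-- the error in the imaginary part -/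
theorem im_bound (δ : ℝ) (hδ : 0 < δ) (x : Fin r → ℝ) (y : Matrix (Fin r) (Fin r) ℂ)
    (hy : ∀ l, ‖mx (dg x id * y - y * dg x id) (bs l)‖ ≤ δ ^ 2)
    (f : ℝ → ℝ) (g₁ g₂ : ℝ → ℤ)
    (hf : ∀ a b, |f a - f b| ≤ Real.pi / (2 * δ) * |a - b|) (hg : Good δ f g₁ g₂) (l : Fin r) :
    ‖(mx (dg x f) * mx (tm x y g₁) - mx (tm x y g₂) * mx (dg x f)) (bs l)‖ ≤ 2 * δ := by
  have e : mx (dg x f) * mx (tm x y g₁) - mx (tm x y g₂) * mx (dg x f) =
      mx (dg x f * tm x y g₁ - tm x y g₂ * dg x f) := by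
    simp only [mx, map_sub, map_mul]
  rw [e]
  refine (norm_mx_le _ _ (Real.pi / (2 * δ)) (by positivity)
    (entry_bound δ hδ x y f g₁ g₂ hf hg) l).trans ?_
  calc Real.pi / (2 * δ) * ‖mx (dg x id * y - y * dg x id) (bs l)‖
      ≤ Real.pi / (2 * δ) * δ ^ 2 := by gcongr; exact hy l
    _ = Real.pi / 2 * δ := by field_simp
    _ ≤ 2 * δ := by
        have := Real.pi_le_four
        gcongr
        linarith

/-- the error in the real part -/
theorem re_bound (δ : ℝ) (x : Fin r → ℝ) (f a b : ℝ → ℝ) (hf : ∀ t, |f t| ≤ 1)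
    (hab : ∀ t, |a t - b t| ≤ 2 * δ) (l : Fin r) :
    ‖(mx (dg x f) * mx (dg x a) - mx (dg x b) * mx (dg x f)) (bs l)‖ ≤ 2 * δ := by
  have e : mx (dg x f) * mx (dg x a) - mx (dg x b) * mx (dg x f) =
      mx (Matrix.diagonal fun k => ((f (x k) * (a (x k) - b (x k)) : ℝ) : ℂ)) := by
    have e1 : (Matrix.diagonal fun k => ((f (x k) * (a (x k) - b (x k)) : ℝ) : ℂ)) =
        dg x f * dg x a - dg x b * dg x f := by
      unfold dg
      rw [Matrix.diagonal_mul_diagonal, Matrix.diagonal_mul_diagonal, Matrix.diagonal_sub]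
      congr 1
      funext k
      push_cast
      ring
    rw [e1]
    simp only [mx, map_sub, map_mul]
  rw [e]
  refine norm_mx_diag_le _ _ (fun k => ?_) l
  rw [Complex.norm_real, Real.norm_eq_abs, abs_mul]
  calc |f (x k)| * |a (x k) - b (x k)| ≤ 1 * (2 * δ) := by
        gcongr
        · exact hf _
        · exact hab _
    _ = 2 * δ := one_mul _

theorem star_mx (T : Matrix (Fin r) (Fin r) ℂ) : star (mx T) = mx (star T) :=
  (map_star (Matrix.toEuclideanCLM (n := Fin r) (𝕜 := ℂ)) T).symm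

theorem star_dg (x : Fin r → ℝ) (f : ℝ → ℝ) : star (mx (dg x f)) = mx (dg x f) := by
  rw [star_mx]
  congr 1
  unfold dg
  rw [Matrix.star_eq_conjTranspose, Matrix.diagonal_conjTranspose]
  congr 1
  funext k
  simp

theorem star_tm (x : Fin r → ℝ) (y : Matrix (Fin r) (Fin r) ℂ) (hy : star y = y) (g : ℝ → ℤ) :
    star (mx (tm x y g)) = mx (tm x y g) := by
  rw [star_mx]
  congr 1
  ext k l
  rw [Matrix.star_apply]
  unfold tm
  by_cases h : g (x k) = g (x l)
  · rw [if_pos h, if_pos h.symm]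
    have := congrFun (congrFun hy k) l
    rw [Matrix.star_apply] at this
    exact this
  · rw [if_neg h, if_neg (fun h' => h h'.symm), star_zero]

theorem comm_dg_tm (x : Fin r → ℝ) (y : Matrix (Fin r) (Fin r) ℂ) (g : ℝ → ℤ) (d : ℤ → ℝ) :
    mx (dg x fun t => d (g t)) * mx (tm x y g) = mx (tm x y g) * mx (dg x fun t => d (g t)) := by
  have e : dg x (fun t => d (g t)) * tm x y g = tm x y g * dg x fun t => d (g t) := by
    ext k l
    unfold dg
    rw [Matrix.diagonal_mul, Matrix.mul_diagonal]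
    change ((d (g (x k)) : ℝ) : ℂ) * (if g (x k) = g (x l) then y k l else 0) =
      (if g (x k) = g (x l) then y k l else 0) * ((d (g (x l)) : ℝ) : ℂ)
    by_cases h : g (x k) = g (x l)
    · rw [if_pos h, h, mul_comm]
    · rw [if_neg h, mul_zero, zero_mul]
  simp only [mx, ← map_mul, e]

/-- the normal operator with real part `a` and imaginary part `b` -/
noncomputable def nm {H : Type} [NormedAddCommGroup H] [InnerProductSpace ℂ H] [CompleteSpace H]
    (a b : H →L[ℂ] H) : H →L[ℂ] H := a + Complex.I • b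

theorem dt_nm {H : Type} [NormedAddCommGroup H] [InnerProductSpace ℂ H] [CompleteSpace H]
    (a b : H →L[ℂ] H) (ha : star a = a) (hb : star b = b) :
    dt 1 (nm a b) = a ∧ dt Complex.I (nm a b) = b := by
  have hs : star (nm a b) = a - Complex.I • b := by
    unfold nm
    rw [star_add, star_smul, ha, hb]
    have : star Complex.I = -Complex.I := Complex.conj_I
    rw [this, neg_smul, sub_eq_add_neg]
  constructor
  · unfold dt
    rw [hs, map_one, one_smul, one_smul]
    unfold nm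
    have : a + Complex.I • b + (a - Complex.I • b) = (2 : ℂ) • a := by
      rw [two_smul]; abel
    rw [this, smul_smul]
    norm_num
  · unfold dt
    rw [hs, Complex.conj_I]
    unfold nm
    have : -Complex.I • (a + Complex.I • b) + Complex.I • (a - Complex.I • b) = (2 : ℂ) • b := by
      rw [smul_add, smul_sub, smul_smul, smul_smul]
      have h1 : -Complex.I * Complex.I = 1 := by rw [neg_mul, Complex.I_mul_I, neg_neg]
      rw [h1, Complex.I_mul_I, neg_smul, neg_smul, one_smul, two_smul]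
      abel
    rw [this, smul_smul]
    norm_num

theorem normal_nm {H : Type} [NormedAddCommGroup H] [InnerProductSpace ℂ H] [CompleteSpace H]
    (a b : H →L[ℂ] H) (ha : star a = a) (hb : star b = b) (hab : a * b = b * a) :
    IsStarNormal (nm a b) := by
  have hs : star (nm a b) = a - Complex.I • b := by
    unfold nm
    rw [star_add, star_smul, ha, hb]
    have : star Complex.I = -Complex.I := Complex.conj_I
    rw [this, neg_smul, sub_eq_add_neg]
  constructor
  change star (nm a b) * nm a b = nm a b * star (nm a b)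
  rw [hs]
  unfold nm
  simp only [sub_mul, mul_add, add_mul, mul_sub, smul_mul_assoc, mul_smul_comm, hab]
  module

end Entries

end ABSAux

open ABSAux

theorem blk_ABS : Stmt_ABS := by
  refine ⟨8, by norm_num, ?_⟩
  intro r B₀ δ hδ hB
  -- diagonalisation of the real part
  set X : Ef r →L[ℂ] Ef r := dt 1 B₀ with hX
  set Y : Ef r →L[ℂ] Ef r := dt Complex.I B₀ with hY
  have hXs : star X = X := star_dt 1 B₀
  have hYs : star Y = Y := star_dt Complex.I B₀
  set A₀ : Matrix (Fin r) (Fin r) ℂ :=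
    (Matrix.toEuclideanCLM (n := Fin r) (𝕜 := ℂ)).symm X with hA₀
  have hmA : mx A₀ = X := StarAlgEquiv.apply_symm_apply _ _
  have hA : A₀.IsHermitian := by
    have h1 : star A₀ = A₀ := by
      apply (Matrix.toEuclideanCLM (n := Fin r) (𝕜 := ℂ)).injective
      change mx (star A₀) = mx A₀
      rw [← star_mx, hmA, hXs]
    exact h1
  set Um : Matrix (Fin r) (Fin r) ℂ := (hA.eigenvectorUnitary : Matrix (Fin r) (Fin r) ℂ) with hUm
  set U : Ef r →L[ℂ] Ef r := mx Um with hU
  have hUU : star U * U = 1 := by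
    rw [hU, star_mx]
    simp only [mx, ← map_mul]
    have : star Um * Um = 1 := Unitary.coe_star_mul_self _
    rw [this, map_one]
  have hUU' : U * star U = 1 := by
    rw [hU, star_mx]
    simp only [mx, ← map_mul]
    have : Um * star Um = 1 := Unitary.coe_mul_star_self _
    rw [this, map_one]
  have hdiag : star U * X * U = mx (dg hA.eigenvalues id) := by
    have h1 := hA.conjStarAlgAut_star_eigenvectorUnitary
    rw [Unitary.conjStarAlgAut_star_apply] at h1
    rw [hU, star_mx, ← hmA]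
    simp only [mx, ← map_mul]
    congr 1
  set x : Fin r → ℝ := hA.eigenvalues with hx
  set y : Matrix (Fin r) (Fin r) ℂ :=
    (Matrix.toEuclideanCLM (n := Fin r) (𝕜 := ℂ)).symm (star U * Y * U) with hy
  have hmy : mx y = star U * Y * U := StarAlgEquiv.apply_symm_apply _ _
  have hys : star y = y := by
    apply (Matrix.toEuclideanCLM (n := Fin r) (𝕜 := ℂ)).injective
    change mx (star y) = mx y
    rw [← star_mx, hmy, star_mul, star_mul, star_star, hYs, mul_assoc]
  -- norms of the unitary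
  have hUn : ‖U‖ ≤ 1 := by
    refine ContinuousLinearMap.opNorm_le_bound _ zero_le_one fun z => ?_
    rw [norm_apply_of_iso (P := U) hUU z, one_mul]
  have hUn' : ‖star U‖ ≤ 1 := by
    refine ContinuousLinearMap.opNorm_le_bound _ zero_le_one fun z => ?_
    rw [norm_apply_of_iso (P := star U)
      (by rw [← ContinuousLinearMap.star_eq_adjoint, star_star]; exact hUU') z, one_mul]
  have hcomm : mx (dg x id * y - y * dg x id) = star U * br X Y * U := by
    have h1 : mx (dg x id * y - y * dg x id) =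
        mx (dg x id) * mx y - mx y * mx (dg x id) := by
      simp only [mx, map_sub, map_mul]
    rw [h1, ← hdiag, hmy]
    have h2 : star U * X * U * (star U * Y * U) = star U * (X * Y) * U := by
      calc star U * X * U * (star U * Y * U) = star U * X * (U * star U) * Y * U := by
            simp only [mul_assoc]
        _ = _ := by rw [hUU', mul_one]; simp only [mul_assoc]
    have h3 : star U * Y * U * (star U * X * U) = star U * (Y * X) * U := by
      calc star U * Y * U * (star U * X * U) = star U * Y * (U * star U) * X * U := by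
            simp only [mul_assoc]
        _ = _ := by rw [hUU', mul_one]; simp only [mul_assoc]
    rw [h2, h3, br]
    simp only [mul_sub, sub_mul]
  have hyb : ∀ l, ‖mx (dg x id * y - y * dg x id) (bs l)‖ ≤ δ ^ 2 := by
    intro l
    rw [hcomm]
    refine (ContinuousLinearMap.le_opNorm _ _).trans ?_
    have h1 : ‖(bs l : Ef r)‖ = 1 := by simp [bs]
    rw [h1, mul_one]
    calc ‖star U * br X Y * U‖ ≤ ‖star U‖ * ‖br X Y‖ * ‖U‖ :=
          (norm_mul_le _ _).trans (mul_le_mul_of_nonneg_right (norm_mul_le _ _) (norm_nonneg _))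
      _ ≤ 1 * δ ^ 2 * 1 := by gcongr
      _ = δ ^ 2 := by ring
  -- the operators
  set Cc := mx (dg x (fc δ)) with hCc
  set Sc := mx (dg x (fs δ)) with hSc
  have hCs : star Cc = Cc := star_dg _ _
  have hSs : star Sc = Sc := star_dg _ _
  have hCS : Cc * Sc = Sc * Cc := by
    rw [hCc, hSc]
    simp only [mx, ← map_mul]
    unfold dg
    rw [Matrix.diagonal_mul_diagonal, Matrix.diagonal_mul_diagonal]
    congr 2
    funext k
    rw [mul_comm]
  have hC1 : Cc * Cc + Sc * Sc = 1 := by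
    rw [hCc, hSc]
    simp only [mx, ← map_mul, ← map_add]
    unfold dg
    rw [Matrix.diagonal_mul_diagonal, Matrix.diagonal_mul_diagonal, Matrix.diagonal_add]
    have : (Matrix.diagonal fun k => (fc δ (x k) : ℂ) * (fc δ (x k) : ℂ) +
        (fs δ (x k) : ℂ) * (fs δ (x k) : ℂ)) = (1 : Matrix (Fin r) (Fin r) ℂ) := by
      rw [← Matrix.diagonal_one]
      congr 1
      funext k
      have h1 : fc δ (x k) * fc δ (x k) + fs δ (x k) * fs δ (x k) = 1 := by
        unfold fc fs
        have := Real.cos_sq_add_sin_sq (Real.pi / (2 * δ) * x k)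
        nlinarith
      exact_mod_cast h1
    rw [this, map_one]
  set Na := mx (dg x fun t => (fun n : ℤ => (n : ℝ) * δ) (Fl δ t)) with hNa
  set Nb := mx (tm x y (Fl δ)) with hNb
  set Ea := mx (dg x fun t => (fun n : ℤ => (2 * n : ℝ) * δ) (El δ t)) with hEa
  set Eb := mx (tm x y (El δ)) with hEb
  set Oa := mx (dg x fun t => (fun n : ℤ => (2 * n + 1 : ℝ) * δ) (Ol δ t)) with hOa
  set Ob := mx (tm x y (Ol δ)) with hOb
  have hDS := ds_A r
  set i₁ : Ef r →L[ℂ] Ef (r + r) := iA r ∘L star U with hi₁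
  have hi₁a : ContinuousLinearMap.adjoint i₁ = U ∘L ContinuousLinearMap.adjoint (iA r) := by
    rw [hi₁, ContinuousLinearMap.adjoint_comp, ← ContinuousLinearMap.star_eq_adjoint (star U),
      star_star]
  have hDS₁ : IsDS i₁ (jA r) := by
    constructor
    · rw [hi₁a, hi₁]
      ext1 z
      have h1 : ∀ w, ContinuousLinearMap.adjoint (iA r) (iA r w) = w :=
        fun w => DFunLike.congr_fun hDS.hi w
      change U (ContinuousLinearMap.adjoint (iA r) (iA r (star U z))) = z
      rw [h1]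
      exact DFunLike.congr_fun hUU' z
    · exact hDS.hj
    · rw [hi₁a]
      ext1 z
      have h1 : ∀ w, ContinuousLinearMap.adjoint (iA r) (jA r w) = 0 :=
        fun w => DFunLike.congr_fun hDS.hij w
      change U (ContinuousLinearMap.adjoint (iA r) (jA r z)) = 0
      rw [h1, map_zero]
    · rw [hi₁a, hi₁]
      ext1 z
      have h1 : ∀ w, iA r (ContinuousLinearMap.adjoint (iA r) w) +
          jA r (ContinuousLinearMap.adjoint (jA r) w) = w :=
        fun w => DFunLike.congr_fun hDS.hs w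
      have h2 : ∀ w, star U (U w) = w := fun w => DFunLike.congr_fun hUU w
      change iA r (star U (U (ContinuousLinearMap.adjoint (iA r) z))) +
        jA r (ContinuousLinearMap.adjoint (jA r) z) = z
      rw [h2]
      exact h1 z
  -- real and imaginary parts in the new basis
  have hcor : ∀ e : ℂ, dt e (cor i₁ B₀ + cor (jA r) (nm Na Nb)) =
      bl (iA r) (star U * dt e B₀ * U) (iA r) + bl (jA r) (dt e (nm Na Nb)) (jA r) := by
    intro e
    rw [dt_add, cor_eq, cor_eq, dt_bl, dt_bl]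
    congr 1
    ext1 z
    rw [bl_apply, bl_apply, hi₁a, hi₁]
    rfl
  refine ⟨nm Na Nb, bl (iA r) (nm Ea Eb) (iA r) + bl (jA r) (nm Oa Ob) (jA r),
    rot (iA r) (jA r) Cc Sc, i₁, jA r, hDS₁, ?_, ?_, ?_, ?_⟩
  · exact normal_nm _ _ (star_dg _ _) (star_tm _ _ hys _)
      (comm_dg_tm x y (Fl δ) (fun n : ℤ => (n : ℝ) * δ))
  · refine star_normal_bl hDS _ _ ?_ ?_
    · exact normal_nm _ _ (star_dg _ _) (star_tm _ _ hys _)
        (comm_dg_tm x y (El δ) (fun n : ℤ => (2 * n : ℝ) * δ))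
    · exact normal_nm _ _ (star_dg _ _) (star_tm _ _ hys _)
        (comm_dg_tm x y (Ol δ) (fun n : ℤ => (2 * n + 1 : ℝ) * δ))
  · exact uni_rot hDS Cc Sc hCs hSs hCS hC1
  · -- general estimate
    have key : ∀ A A' P Q : Ef r →L[ℂ] Ef r,
        (∀ l, ‖(Cc * A - P * Cc) (bs l)‖ ≤ 2 * δ) → (∀ l, ‖(Sc * A' - P * Sc) (bs l)‖ ≤ 2 * δ) →
        (∀ l, ‖(Sc * A - Q * Sc) (bs l)‖ ≤ 2 * δ) → (∀ l, ‖(Cc * A' - Q * Cc) (bs l)‖ ≤ 2 * δ) →
        n1 (rot (iA r) (jA r) Cc Sc * (bl (iA r) A (iA r) + bl (jA r) A' (jA r)) -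
          (bl (iA r) P (iA r) + bl (jA r) Q (jA r)) * rot (iA r) (jA r) Cc Sc) ≤ 8 * δ * r := by
      intro A A' P Q h1 h2 h3 h4
      rw [rot_error hDS]
      obtain ⟨t1, b1⟩ := n1_bl_le (iA r) (iA r) _ hDS.hi hDS.hi _ h1
      obtain ⟨t2, b2⟩ := n1_bl_le (iA r) (jA r) _ hDS.hi hDS.hj _ h2
      obtain ⟨t3, b3⟩ := n1_bl_le (jA r) (iA r) _ hDS.hj hDS.hi _ h3
      obtain ⟨t4, b4⟩ := n1_bl_le (jA r) (jA r) _ hDS.hj hDS.hj _ h4
      have c1 := n1_add_le (t1.sub t2) (t3.add t4)
      have c2 := n1_sub_le t1 t2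
      have c3 := n1_add_le t3 t4
      linarith
    have hN := dt_nm Na Nb (star_dg _ _) (star_tm _ _ hys _)
    have hE := dt_nm Ea Eb (star_dg _ _) (star_tm _ _ hys _)
    have hO := dt_nm Oa Ob (star_dg _ _) (star_tm _ _ hys _)
    rintro e (rfl | rfl)
    · rw [hcor, dt_add, dt_bl, dt_bl, hN.1, hE.1, hO.1, ← hX, hdiag]
      refine key _ _ _ _ (fun l => ?_) (fun l => ?_) (fun l => ?_) (fun l => ?_)
      · refine re_bound δ x (fc δ) _ _ (fc_le_one δ) (fun t => ?_) l
        have h1 := Fl_le δ t hδ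
        have h2 := lt_Fl δ t hδ
        have h3 : 2 * El δ t ≤ Fl δ t + 1 ∧ Fl δ t ≤ 2 * El δ t := by unfold El; omega
        have h4 : (2 * El δ t : ℝ) ≤ Fl δ t + 1 := by exact_mod_cast h3.1
        have h5 : (Fl δ t : ℝ) ≤ 2 * El δ t := by exact_mod_cast h3.2
        have h6 := mul_le_mul_of_nonneg_right h4 hδ.le
        have h7 := mul_le_mul_of_nonneg_right h5 hδ.le
        rw [abs_le]
        simp only [id]
        constructor <;> linarith
      · refine re_bound δ x (fs δ) _ _ (fs_le_one δ) (fun t => ?_) l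
        have h3 : 2 * El δ t ≤ Fl δ t + 1 ∧ Fl δ t ≤ 2 * El δ t := by unfold El; omega
        have h4 : (2 * El δ t : ℝ) ≤ Fl δ t + 1 := by exact_mod_cast h3.1
        have h5 : (Fl δ t : ℝ) ≤ 2 * El δ t := by exact_mod_cast h3.2
        have h6 := mul_le_mul_of_nonneg_right h4 hδ.le
        have h7 := mul_le_mul_of_nonneg_right h5 hδ.le
        rw [abs_le]
        constructor <;> linarith
      · refine re_bound δ x (fs δ) _ _ (fs_le_one δ) (fun t => ?_) l
        have h1 := Fl_le δ t hδ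
        have h2 := lt_Fl δ t hδ
        have h3 : 2 * Ol δ t ≤ Fl δ t ∧ Fl δ t ≤ 2 * Ol δ t + 1 := by unfold Ol; omega
        have h4 : (2 * Ol δ t : ℝ) ≤ Fl δ t := by exact_mod_cast h3.1
        have h5 : (Fl δ t : ℝ) ≤ 2 * Ol δ t + 1 := by exact_mod_cast h3.2
        have h6 := mul_le_mul_of_nonneg_right h4 hδ.le
        have h7 := mul_le_mul_of_nonneg_right h5 hδ.le
        rw [abs_le]
        simp only [id]
        constructor <;> linarith
      · refine re_bound δ x (fc δ) _ _ (fc_le_one δ) (fun t => ?_) l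
        have h3 : 2 * Ol δ t ≤ Fl δ t ∧ Fl δ t ≤ 2 * Ol δ t + 1 := by unfold Ol; omega
        have h4 : (2 * Ol δ t : ℝ) ≤ Fl δ t := by exact_mod_cast h3.1
        have h5 : (Fl δ t : ℝ) ≤ 2 * Ol δ t + 1 := by exact_mod_cast h3.2
        have h6 := mul_le_mul_of_nonneg_right h4 hδ.le
        have h7 := mul_le_mul_of_nonneg_right h5 hδ.le
        rw [abs_le]
        constructor <;> linarith
    · rw [hcor, dt_add, dt_bl, dt_bl, hN.2, hE.2, hO.2, ← hY, ← hmy]
      refine key _ _ _ _ (fun l => ?_) (fun l => ?_) (fun l => ?_) (fun l => ?_)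
      · have h := im_bound δ hδ x y hyb (fc δ) (fun _ => 0) (El δ) (fun a b => fc_lip δ a b hδ)
          (good_c_E δ hδ) l
        rwa [tm_const] at h
      · exact im_bound δ hδ x y hyb (fs δ) (Fl δ) (El δ) (fun a b => fs_lip δ a b hδ)
          (good_s_E δ hδ) l
      · have h := im_bound δ hδ x y hyb (fs δ) (fun _ => 0) (Ol δ) (fun a b => fs_lip δ a b hδ)
          (good_s_O δ hδ) l
        rwa [tm_const] at h
      · exact im_bound δ hδ x y hyb (fc δ) (Fl δ) (Ol δ) (fun a b => fc_lip δ a b hδ)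
          (good_c_O δ hδ) l

end Pool.Q2
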