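import Pool.Agent.Work.MP_8c7e5b_q2.Interface2

/-!
# MP_8c7e5b_an, Q2: block AFF (affine changes of variables)
-/

open MeasureTheory Complex Filter Topology
open scoped ComplexOrder InnerProductSpace ComplexConjugate BoundedContinuousFunction

set_option autoImplicit false
set_option linter.unusedSectionVars false

universe v

namespace Pool.Q2

open Pool.Bes

namespace AFFAux

variable {H : Type v} [NormedAddCommGroup H] [InnerProductSpace ℂ H] [CompleteSpace H]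

/-- `w + t N` is the function `z ↦ w + t z` of `N`. -/
theorem aff_eq_cfc (N : H →L[ℂ] H) (w : ℂ) (t : ℝ) (hN : IsStarNormal N) :
    w • (1 : H →L[ℂ] H) + (t : ℂ) • N = cfc (fun z : ℂ => w + (t : ℂ) * z) N := by
  have h1 : cfc (fun z : ℂ => w + (t : ℂ) * z) N =
      cfc (fun _ : ℂ => w) N + cfc (fun z : ℂ => (t : ℂ) * z) N :=
    cfc_add N (fun _ : ℂ => w) (fun z : ℂ => (t : ℂ) * z) (by fun_prop) (by fun_prop)
  rw [h1, cfc_const w N hN, cfc_const_mul_id (t : ℂ) N hN, Algebra.algebraMap_eq_smul_one]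

theorem aff_normal (N : H →L[ℂ] H) (w : ℂ) (t : ℝ) (hN : IsStarNormal N) :
    IsStarNormal (w • (1 : H →L[ℂ] H) + (t : ℂ) • N) := by
  rw [aff_eq_cfc N w t hN]
  exact cfc_predicate _ _

theorem cfc_aff (N : H →L[ℂ] H) (w : ℂ) (t : ℝ) (hN : IsStarNormal N) (F : ℂ → ℂ)
    (hF : Continuous F) : cfc F (w • (1 : H →L[ℂ] H) + (t : ℂ) • N) =
      cfc (fun z : ℂ => F (w + (t : ℂ) * z)) N := by
  rw [aff_eq_cfc N w t hN]
  exact (cfc_comp' F (fun z : ℂ => w + (t : ℂ) * z) N hF.continuousOn (by fun_prop) hN).symm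

theorem norm_le_of_spec (N : H →L[ℂ] H) {z : ℂ} (hz : z ∈ spectrum ℂ N) : ‖z‖ ≤ ‖N‖ := by
  have h := spectrum.norm_le_norm_mul_of_mem hz
  have h5 : ‖(1 : H →L[ℂ] H)‖ ≤ 1 := ContinuousLinearMap.norm_id_le
  calc ‖z‖ ≤ ‖N‖ * ‖(1 : H →L[ℂ] H)‖ := h
    _ ≤ ‖N‖ * 1 := mul_le_mul_of_nonneg_left h5 (norm_nonneg _)
    _ = ‖N‖ := mul_one _

theorem cfc_aff_one (N : H →L[ℂ] H) (w : ℂ) (r t : ℝ) (hN : IsStarNormal N) (ht : 0 < t)
    (hr : t * ‖N‖ ≤ r) (F f : ℂ → ℂ) (hF : Continuous F) (hf : Continuous f)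
    (h : ∀ z, ‖z - w‖ ≤ r → F z = f ((z - w) / t) - f 0) :
    cfc F (w • (1 : H →L[ℂ] H) + (t : ℂ) • N) = cfc f N - f 0 • (1 : H →L[ℂ] H) := by
  have ht0 : (t : ℂ) ≠ 0 := by
    exact_mod_cast ht.ne'
  rw [cfc_aff N w t hN F hF]
  have h1 : cfc (fun z : ℂ => F (w + (t : ℂ) * z)) N = cfc (fun z : ℂ => f z - f 0) N := by
    refine cfc_congr fun z hz => ?_
    have hz1 : ‖w + (t : ℂ) * z - w‖ ≤ r := by
      rw [add_sub_cancel_left, norm_mul, Complex.norm_real, Real.norm_of_nonneg ht.le]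
      exact (mul_le_mul_of_nonneg_left (norm_le_of_spec N hz) ht.le).trans hr
    show F (w + (t : ℂ) * z) = f z - f 0
    rw [h _ hz1, add_sub_cancel_left, mul_div_cancel_left₀ z ht0]
  rw [h1, cfc_sub f (fun _ : ℂ => f 0) N hf.continuousOn continuousOn_const,
    cfc_const (f 0) N hN, Algebra.algebraMap_eq_smul_one]

theorem cfc_aff_zero (N : H →L[ℂ] H) (w : ℂ) (r t : ℝ) (hN : IsStarNormal N) (ht : 0 < t)
    (hr : t * ‖N‖ ≤ r) (F : ℂ → ℂ) (hF : Continuous F)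
    (h : ∀ z, ‖z - w‖ ≤ r → F z = 0) :
    cfc F (w • (1 : H →L[ℂ] H) + (t : ℂ) • N) = 0 := by
  have h1 := cfc_aff_one N w r t hN ht hr F (fun _ => 0) hF continuous_const
    (fun z hz => by rw [h z hz, sub_zero])
  rw [h1, zero_smul, sub_zero]
  exact cfc_const_zero ℂ N

end AFFAux

open AFFAux

theorem blk_AFF (_hTFN : Stmt_TFN.{v}) : Stmt_AFF.{v} := by
  intro H _ _ _ N₁ N₂ w r t hN₁ hN₂ hT ht h₁ h₂
  have hd : (w • (1 : H →L[ℂ] H) + (t : ℂ) • N₂) - (w • (1 : H →L[ℂ] H) + (t : ℂ) • N₁) =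
      (t : ℂ) • (N₂ - N₁) := by
    rw [add_sub_add_left_eq_sub, smul_sub]
  refine ⟨aff_normal N₁ w t hN₁, ?_, ?_, ?_⟩
  · rw [hd]
    exact hT.smul _
  · rw [hd, n1_smul _ hT, Complex.norm_real, Real.norm_of_nonneg ht.le]
  · intro F f hF hf
    refine ⟨fun h => ?_, fun h => ?_⟩
    · unfold Tf
      rw [cfc_aff_one N₂ w r t hN₂ ht h₂ F f hF.1.continuous hf.1.continuous h,
        cfc_aff_one N₁ w r t hN₁ ht h₁ F f hF.1.continuous hf.1.continuous h,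
        sub_sub_sub_cancel_right]
    · unfold Tf
      rw [cfc_aff_zero N₂ w r t hN₂ ht h₂ F hF.1.continuous h,
        cfc_aff_zero N₁ w r t hN₁ ht h₁ F hF.1.continuous h, sub_zero, trO_zero]

end Pool.Q2
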