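import Pool.Agent.Work.MP_8c7e5b_q2.Interface

/-!
# MP_8c7e5b_an, Q2: block ASM (assembly of the absorption step)
-/

open MeasureTheory Complex Filter Topology
open scoped ComplexOrder InnerProductSpace ComplexConjugate BoundedContinuousFunction

set_option autoImplicit false
set_option linter.unusedSectionVars false

universe v

namespace Pool.Q2

open Pool.Bes

namespace ASMAux

section cor

variable {G : Type*} [NormedAddCommGroup G] [InnerProductSpace ℂ G] [CompleteSpace G]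
variable {L : Type*} [NormedAddCommGroup L] [InnerProductSpace ℂ L] [CompleteSpace L]
variable {F : Type*} [NormedAddCommGroup F] [InnerProductSpace ℂ F] [CompleteSpace F]

theorem cor_apply (i : G →L[ℂ] L) (T : G →L[ℂ] G) (x : L) :
    cor i T x = i (T ((ContinuousLinearMap.adjoint i) x)) := rfl

theorem star_cor (i : G →L[ℂ] L) (T : G →L[ℂ] G) : star (cor i T) = cor i (star T) := by
  unfold cor
  rw [ContinuousLinearMap.star_eq_adjoint, ContinuousLinearMap.star_eq_adjoint,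
    ContinuousLinearMap.adjoint_comp, ContinuousLinearMap.adjoint_comp,
    ContinuousLinearMap.adjoint_adjoint, ContinuousLinearMap.comp_assoc]

theorem cor_add (i : G →L[ℂ] L) (S T : G →L[ℂ] G) : cor i (S + T) = cor i S + cor i T := by
  ext x
  simp only [cor_apply, _root_.add_apply, map_add]

theorem cor_sub (i : G →L[ℂ] L) (S T : G →L[ℂ] G) : cor i (S - T) = cor i S - cor i T := by
  ext x
  simp only [cor_apply, _root_.sub_apply, map_sub]

theorem cor_smul (i : G →L[ℂ] L) (c : ℂ) (T : G →L[ℂ] G) : cor i (c • T) = c • cor i T := by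
  ext x
  simp only [cor_apply, _root_.smul_apply, map_smul]

theorem cor_zero (i : G →L[ℂ] L) : cor i (0 : G →L[ℂ] G) = 0 := by
  ext x
  simp only [cor_apply, _root_.zero_apply, map_zero]

theorem cor_one (i : G →L[ℂ] L) : cor i (1 : G →L[ℂ] G) = i ∘L (ContinuousLinearMap.adjoint i) := by
  ext x
  rfl

theorem cor_mul {i : G →L[ℂ] L} (hi : (ContinuousLinearMap.adjoint i) ∘L i =
    ContinuousLinearMap.id ℂ G) (S T : G →L[ℂ] G) : cor i S * cor i T = cor i (S * T) := by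
  ext x
  have h1 : ∀ y, (ContinuousLinearMap.adjoint i) (i y) = y := fun y => by
    have := congrArg (fun f : G →L[ℂ] G => f y) hi
    exact this
  show i (S ((ContinuousLinearMap.adjoint i) (i (T ((ContinuousLinearMap.adjoint i) x))))) = _
  rw [h1]
  rfl

theorem cor_mul_zero {i : G →L[ℂ] L} {j : F →L[ℂ] L}
    (hij : (ContinuousLinearMap.adjoint i) ∘L j = 0) (S : G →L[ℂ] G) (T : F →L[ℂ] F) :
    cor i S * cor j T = 0 := by
  ext x
  have h1 : ∀ y, (ContinuousLinearMap.adjoint i) (j y) = 0 := fun y => by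
    have := congrArg (fun f : F →L[ℂ] G => f y) hij
    exact this
  show i (S ((ContinuousLinearMap.adjoint i) (j (T ((ContinuousLinearMap.adjoint j) x))))) = 0
  rw [h1, map_zero, map_zero]

theorem adj_flip {i : G →L[ℂ] L} {j : F →L[ℂ] L}
    (hij : (ContinuousLinearMap.adjoint i) ∘L j = 0) : (ContinuousLinearMap.adjoint j) ∘L i = 0 := by
  have h1 := congrArg ContinuousLinearMap.adjoint hij
  rw [ContinuousLinearMap.adjoint_comp, ContinuousLinearMap.adjoint_adjoint, map_zero] at h1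
  exact h1

theorem cor_cor (i : G →L[ℂ] L) (j : F →L[ℂ] G) (T : F →L[ℂ] F) :
    cor i (cor j T) = cor (i ∘L j) T := by
  unfold cor
  rw [ContinuousLinearMap.adjoint_comp]
  rfl

theorem dt_cor (e : ℂ) (i : G →L[ℂ] L) (T : G →L[ℂ] G) : dt e (cor i T) = cor i (dt e T) := by
  unfold dt
  rw [cor_smul, cor_add, cor_smul, cor_smul, star_cor]

theorem dt_add (e : ℂ) (S T : L →L[ℂ] L) : dt e (S + T) = dt e S + dt e T := by
  unfold dt
  rw [star_add]
  module

theorem re_im (T : L →L[ℂ] L) : dt 1 T + Complex.I • dt Complex.I T = T := by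
  unfold dt
  rw [map_one, Complex.conj_I, smul_smul, smul_add, smul_add, smul_smul, smul_smul, smul_smul,
    smul_smul]
  have h1 : Complex.I * (1 / 2) * -Complex.I = 1 / 2 := by
    have := Complex.I_mul_I
    linear_combination (-(1 : ℂ) / 2) * this
  have h2 : Complex.I * (1 / 2) * Complex.I = -(1 / 2) := by
    have := Complex.I_mul_I
    linear_combination ((1 : ℂ) / 2) * this
  rw [h1, h2]
  module

theorem norm_adj_le {i : G →L[ℂ] L} (hi : (ContinuousLinearMap.adjoint i) ∘L i =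
    ContinuousLinearMap.id ℂ G) : ‖i‖ ≤ 1 ∧ ‖ContinuousLinearMap.adjoint i‖ ≤ 1 := by
  have h1 : ‖i‖ ≤ 1 := by
    refine ContinuousLinearMap.opNorm_le_bound _ zero_le_one fun x => ?_
    have h2 : ((‖i x‖ ^ 2 : ℝ) : ℂ) = ((‖x‖ ^ 2 : ℝ) : ℂ) := by
      have e1 : ⟪i x, i x⟫_ℂ = ⟪x, x⟫_ℂ := by
        rw [← ContinuousLinearMap.adjoint_inner_right]
        have := congrArg (fun f : G →L[ℂ] G => f x) hi
        have h3 : (ContinuousLinearMap.adjoint i) (i x) = x := this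
        rw [h3]
      rw [inner_self_eq_norm_sq_to_K, inner_self_eq_norm_sq_to_K] at e1
      exact_mod_cast e1
    have h4 : ‖i x‖ ^ 2 = ‖x‖ ^ 2 := by exact_mod_cast h2
    rw [one_mul]
    exact (pow_le_pow_iff_left₀ (norm_nonneg _) (norm_nonneg _) two_ne_zero).1 h4.le
  refine ⟨h1, ?_⟩
  rwa [LinearIsometryEquiv.norm_map]

end cor

section ds

variable {G : Type*} [NormedAddCommGroup G] [InnerProductSpace ℂ G] [CompleteSpace G]
variable {L : Type*} [NormedAddCommGroup L] [InnerProductSpace ℂ L] [CompleteSpace L]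

/-- the relations of `IsDS` for arbitrary spaces -/
structure DS {F : Type*} [NormedAddCommGroup F] [InnerProductSpace ℂ F] [CompleteSpace F]
    (i : G →L[ℂ] L) (j : F →L[ℂ] L) : Prop where
  hi : (ContinuousLinearMap.adjoint i) ∘L i = ContinuousLinearMap.id ℂ G
  hj : (ContinuousLinearMap.adjoint j) ∘L j = ContinuousLinearMap.id ℂ F
  hij : (ContinuousLinearMap.adjoint i) ∘L j = 0
  hs : i ∘L (ContinuousLinearMap.adjoint i) + j ∘L (ContinuousLinearMap.adjoint j) =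
    ContinuousLinearMap.id ℂ L

variable {F : Type*} [NormedAddCommGroup F] [InnerProductSpace ℂ F] [CompleteSpace F]
variable {i : G →L[ℂ] L} {j : F →L[ℂ] L}

theorem DS.mul (h : DS i j) (A A' : G →L[ℂ] G) (B B' : F →L[ℂ] F) :
    (cor i A + cor j B) * (cor i A' + cor j B') = cor i (A * A') + cor j (B * B') := by
  rw [add_mul, mul_add, mul_add, cor_mul h.hi, cor_mul h.hj, cor_mul_zero h.hij,
    cor_mul_zero (adj_flip h.hij), add_zero, zero_add]

theorem DS.one (h : DS i j) : cor i (1 : G →L[ℂ] G) + cor j (1 : F →L[ℂ] F) = 1 := by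
  rw [cor_one, cor_one, h.hs]
  rfl

theorem DS.star (A : G →L[ℂ] G) (B : F →L[ℂ] F) :
    star (cor i A + cor j B) = cor i (star A) + cor j (star B) := by
  rw [star_add, star_cor, star_cor]

theorem DS.uni (h : DS i j) {A : G →L[ℂ] G} {B : F →L[ℂ] F} (hA : Uni A) (hB : Uni B) :
    Uni (cor i A + cor j B) := by
  refine ⟨?_, ?_⟩
  · rw [DS.star, h.mul, hA.1, hB.1, h.one]
  · rw [DS.star, h.mul, hA.2, hB.2, h.one]

theorem DS.normal (h : DS i j) {A : G →L[ℂ] G} {B : F →L[ℂ] F} (hA : IsStarNormal A)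
    (hB : IsStarNormal B) : IsStarNormal (cor i A + cor j B) := by
  refine ⟨?_⟩
  show _ = _
  rw [DS.star, h.mul, h.mul, hA.star_comm_self.eq, hB.star_comm_self.eq]

theorem uni_one : Uni (1 : G →L[ℂ] G) := by
  refine ⟨?_, ?_⟩ <;> simp

theorem uni_star {A : G →L[ℂ] G} (hA : Uni A) : Uni (Star.star A) := by
  refine ⟨?_, ?_⟩
  · rw [star_star]; exact hA.2
  · rw [star_star]; exact hA.1

theorem uni_mul {A B : G →L[ℂ] G} (hA : Uni A) (hB : Uni B) : Uni (A * B) := by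
  refine ⟨?_, ?_⟩
  · rw [star_mul, mul_assoc, ← mul_assoc (Star.star A), hA.1, one_mul, hB.1]
  · rw [star_mul, mul_assoc, ← mul_assoc B, hB.2, one_mul, hA.2]

theorem normal_conj {W A : G →L[ℂ] G} (hW : Uni W) (hA : IsStarNormal A) :
    IsStarNormal (W * A * Star.star W) := by
  refine ⟨?_⟩
  show _ = _
  have h1 := hA.star_comm_self.eq
  have h2 : Star.star (W * A * Star.star W) = W * Star.star A * Star.star W := by
    rw [star_mul, star_mul, star_star, mul_assoc]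
  have h3 : ∀ X Y : G →L[ℂ] G, W * X * Star.star W * (W * Y * Star.star W) =
      W * (X * Y) * Star.star W := by
    intro X Y
    calc W * X * Star.star W * (W * Y * Star.star W)
        = W * X * (Star.star W * W) * Y * Star.star W := by simp only [mul_assoc]
      _ = _ := by rw [hW.1, mul_one]; simp only [mul_assoc]
  rw [h2, h3, h3, h1]

theorem uni_norm {A : G →L[ℂ] G} (hA : Uni A) : ‖A‖ ≤ 1 ∧ ‖Star.star A‖ ≤ 1 := by
  have h1 : ‖A‖ ≤ 1 := (norm_adj_le (i := A) hA.1).1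
  refine ⟨h1, ?_⟩
  rwa [norm_star]

end ds

section fin

variable {G : Type*} [NormedAddCommGroup G] [InnerProductSpace ℂ G] [CompleteSpace G]
variable {L : Type*} [NormedAddCommGroup L] [InnerProductSpace ℂ L] [CompleteSpace L]

theorem toS_fin {m : ℕ} (x y : Fin m → G) :
    toS (∑ k, r1 (x k) (y k)) = ∑ k, TnBlock.vS (x k) (y k) := by
  refine toS_eq ?_
  rw [map_sum]
  exact Finset.sum_congr rfl fun k _ => TnBlock.op_vS _ _

theorem pr_fin {m : ℕ} (x y : Fin m → G) (Y : G →L[ℂ] G) :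
    pr (toS (∑ k, r1 (x k) (y k))) Y = ∑ k, ⟪y k, Y (x k)⟫_ℂ := by
  rw [toS_fin]
  unfold pr
  rw [map_sum, _root_.sum_apply]
  rfl

theorem n1_le_of_pr {T : G →L[ℂ] G} {M : ℝ} (hM : 0 ≤ M)
    (h : ∀ Y : G →L[ℂ] G, ‖pr (toS T) Y‖ ≤ M * ‖Y‖) : n1 T ≤ M := by
  unfold n1
  rw [← S1.norm_toDual]
  exact ContinuousLinearMap.opNorm_le_bound _ hM h

theorem comp_fin (A : G →L[ℂ] L) (B : L →L[ℂ] G) {m : ℕ} (x y : Fin m → G) :
    A ∘L (∑ k, r1 (x k) (y k)) ∘L B = ∑ k, r1 (A (x k)) ((ContinuousLinearMap.adjoint B) (y k)) := by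
  ext z
  rw [ContinuousLinearMap.comp_apply, ContinuousLinearMap.comp_apply,
    _root_.sum_apply, _root_.sum_apply, map_sum]
  refine Finset.sum_congr rfl fun k _ => ?_
  rw [r1_apply, r1_apply, map_smul, ContinuousLinearMap.adjoint_inner_left]

theorem fin_transport (A : G →L[ℂ] L) (B : L →L[ℂ] G) {m : ℕ} (x y : Fin m → G) :
    IsT (A ∘L (∑ k, r1 (x k) (y k)) ∘L B) ∧
      n1 (A ∘L (∑ k, r1 (x k) (y k)) ∘L B) ≤ ‖A‖ * ‖B‖ * n1 (∑ k, r1 (x k) (y k)) := by
  rw [comp_fin]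
  refine ⟨IsT.sum _ _ fun k _ => isT_r1 _ _, ?_⟩
  refine n1_le_of_pr (by have := n1_nonneg (∑ k, r1 (x k) (y k)); positivity) fun Y => ?_
  rw [pr_fin]
  have h1 : ∑ k, ⟪(ContinuousLinearMap.adjoint B) (y k), Y (A (x k))⟫_ℂ =
      pr (toS (∑ k, r1 (x k) (y k))) (B ∘L Y ∘L A) := by
    rw [pr_fin]
    refine Finset.sum_congr rfl fun k _ => ?_
    rw [ContinuousLinearMap.adjoint_inner_left]
    rfl
  rw [h1]
  have h2 := ALGAux.norm_pr_le (toS (∑ k, r1 (x k) (y k))) (B ∘L Y ∘L A)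
  refine h2.trans ?_
  have h3 : ‖B ∘L Y ∘L A‖ ≤ ‖B‖ * (‖Y‖ * ‖A‖) :=
    (ContinuousLinearMap.opNorm_comp_le _ _).trans
      (mul_le_mul_of_nonneg_left (ContinuousLinearMap.opNorm_comp_le _ _) (norm_nonneg _))
  have h4 : ‖toS (∑ k, r1 (x k) (y k))‖ = n1 (∑ k, r1 (x k) (y k)) := rfl
  rw [h4]
  calc n1 (∑ k, r1 (x k) (y k)) * ‖B ∘L Y ∘L A‖
      ≤ n1 (∑ k, r1 (x k) (y k)) * (‖B‖ * (‖Y‖ * ‖A‖)) :=
        mul_le_mul_of_nonneg_left h3 (n1_nonneg _)
    _ = ‖A‖ * ‖B‖ * n1 (∑ k, r1 (x k) (y k)) * ‖Y‖ := by ring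

theorem ef_rep {m : ℕ} (T : Ef m →L[ℂ] Ef m) :
    T = ∑ k, r1 (T (EuclideanSpace.basisFun (Fin m) ℂ k)) (EuclideanSpace.basisFun (Fin m) ℂ k) := by
  ext1 z
  rw [_root_.sum_apply]
  conv_lhs => rw [← (EuclideanSpace.basisFun (Fin m) ℂ).sum_repr' z, map_sum]
  refine Finset.sum_congr rfl fun k _ => ?_
  rw [map_smul, r1_apply]

theorem isT_ef {m : ℕ} (T : Ef m →L[ℂ] Ef m) : IsT T := by
  rw [ef_rep T]
  exact IsT.sum _ _ fun k _ => isT_r1 _ _

theorem ef_transport {m : ℕ} (A : Ef m →L[ℂ] L) (B : L →L[ℂ] Ef m) (T : Ef m →L[ℂ] Ef m) :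
    IsT (A ∘L T ∘L B) ∧ n1 (A ∘L T ∘L B) ≤ ‖A‖ * ‖B‖ * n1 T := by
  have h := fin_transport A B (fun k => T (EuclideanSpace.basisFun (Fin m) ℂ k))
    (fun k => EuclideanSpace.basisFun (Fin m) ℂ k)
  rw [← ef_rep T] at h
  exact h

theorem n1_triv {T S : G →L[ℂ] G} (hT : IsT T) (hS : IsT S) :
    n1 (T + Complex.I • S) ≤ n1 T + n1 S := by
  refine (n1_add_le hT (hS.smul _)).trans ?_
  rw [n1_smul _ hS, Complex.norm_I, one_mul]

end fin

theorem ofIsDS {G : Type v} [NormedAddCommGroup G] [InnerProductSpace ℂ G] [CompleteSpace G]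
    {L : Type v} [NormedAddCommGroup L] [InnerProductSpace ℂ L] [CompleteSpace L]
    {F : Type*} [NormedAddCommGroup F] [InnerProductSpace ℂ F] [CompleteSpace F]
    {i : G →L[ℂ] L} {j : F →L[ℂ] L} (h : IsDS i j) : DS i j := ⟨h.hi, h.hj, h.hij, h.hs⟩

end ASMAux

open ASMAux

set_option maxHeartbeats 4000000 in
theorem blk_ASM : Stmt_DSX.{v} → Stmt_ABS → Stmt_SPF → Stmt_FCD.{v} → Stmt_TFN.{v} →
    Stmt_TRI.{v} → Stmt_TRN.{v} → Stmt_CMM.{v} → Stmt_ASM.{v} := by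
  intro hDSX hABS hSPF _ hTFN hTRI hTRN _
  obtain ⟨CA, hCA, hA⟩ := hABS
  refine ⟨4 * CA, by linarith, ?_⟩
  intro C₀ hC₀ hUB H _ _ _ _ K _ _ _ _ N Ω r i j B B₀ W₀ κ δ hδ hN hB hΩ hA1 hij hW₀ hWT hbr hκ
  obtain ⟨N', M, u, i₁, j₁, hij₁, hN', hM, hu, hn⟩ := hA r B₀ (2 * δ) (by linarith)
    (hbr.trans (by nlinarith))
  obtain ⟨K₂, _, _, _, _, i₂, j₂, hij₂⟩ := hDSX K r
  obtain ⟨hTr1, -, -⟩ := hTRN
  have d := ofIsDS hij
  have d₁ := ofIsDS hij₁
  have d₂ := ofIsDS hij₂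
  set k : H →L[ℂ] K₂ := i₂ ∘L i with hk
  set l : Ef (r + r) →L[ℂ] K₂ := i₂ ∘L j ∘L (ContinuousLinearMap.adjoint i₁) +
    j₂ ∘L (ContinuousLinearMap.adjoint j₁) with hl
  have li : ∀ x, (ContinuousLinearMap.adjoint i) (i x) = x := fun x =>
    congrArg (fun f : H →L[ℂ] H => f x) d.hi
  have lj : ∀ x, (ContinuousLinearMap.adjoint j) (j x) = x := fun x =>
    congrArg (fun f : Ef r →L[ℂ] Ef r => f x) d.hj
  have lij : ∀ x, (ContinuousLinearMap.adjoint i) (j x) = 0 := fun x =>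
    congrArg (fun f : Ef r →L[ℂ] H => f x) d.hij
  have li₁ : ∀ x, (ContinuousLinearMap.adjoint i₁) (i₁ x) = x := fun x =>
    congrArg (fun f : Ef r →L[ℂ] Ef r => f x) d₁.hi
  have lj₁ : ∀ x, (ContinuousLinearMap.adjoint j₁) (j₁ x) = x := fun x =>
    congrArg (fun f : Ef r →L[ℂ] Ef r => f x) d₁.hj
  have lij₁ : ∀ x, (ContinuousLinearMap.adjoint i₁) (j₁ x) = 0 := fun x =>
    congrArg (fun f : Ef r →L[ℂ] Ef r => f x) d₁.hij
  have lji₁ : ∀ x, (ContinuousLinearMap.adjoint j₁) (i₁ x) = 0 := fun x =>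
    congrArg (fun f : Ef r →L[ℂ] Ef r => f x) (adj_flip d₁.hij)
  have li₂ : ∀ x, (ContinuousLinearMap.adjoint i₂) (i₂ x) = x := fun x =>
    congrArg (fun f : K →L[ℂ] K => f x) d₂.hi
  have lj₂ : ∀ x, (ContinuousLinearMap.adjoint j₂) (j₂ x) = x := fun x =>
    congrArg (fun f : Ef r →L[ℂ] Ef r => f x) d₂.hj
  have lij₂ : ∀ x, (ContinuousLinearMap.adjoint i₂) (j₂ x) = 0 := fun x =>
    congrArg (fun f : Ef r →L[ℂ] K => f x) d₂.hij
  have lji₂ : ∀ x, (ContinuousLinearMap.adjoint j₂) (i₂ x) = 0 := fun x =>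
    congrArg (fun f : K →L[ℂ] Ef r => f x) (adj_flip d₂.hij)
  have ls : ∀ x, i ((ContinuousLinearMap.adjoint i) x) + j ((ContinuousLinearMap.adjoint j) x) = x :=
    fun x => congrArg (fun f : K →L[ℂ] K => f x) d.hs
  have ls₁ : ∀ x, i₁ ((ContinuousLinearMap.adjoint i₁) x) +
      j₁ ((ContinuousLinearMap.adjoint j₁) x) = x :=
    fun x => congrArg (fun f : Ef (r + r) →L[ℂ] Ef (r + r) => f x) d₁.hs
  have ls₂ : ∀ x, i₂ ((ContinuousLinearMap.adjoint i₂) x) +
      j₂ ((ContinuousLinearMap.adjoint j₂) x) = x :=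
    fun x => congrArg (fun f : K₂ →L[ℂ] K₂ => f x) d₂.hs
  have ak : ∀ x, (ContinuousLinearMap.adjoint k) x =
      (ContinuousLinearMap.adjoint i) ((ContinuousLinearMap.adjoint i₂) x) := fun x => by
    rw [hk, ContinuousLinearMap.adjoint_comp]
    rfl
  have al : ∀ x, (ContinuousLinearMap.adjoint l) x =
      i₁ ((ContinuousLinearMap.adjoint j) ((ContinuousLinearMap.adjoint i₂) x)) +
      j₁ ((ContinuousLinearMap.adjoint j₂) x) := fun x => by
    rw [hl, map_add, ContinuousLinearMap.adjoint_comp, ContinuousLinearMap.adjoint_comp,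
      ContinuousLinearMap.adjoint_comp, ContinuousLinearMap.adjoint_adjoint,
      ContinuousLinearMap.adjoint_adjoint]
    rfl
  have ek : ∀ x, k x = i₂ (i x) := fun x => rfl
  have el : ∀ x, l x = i₂ (j ((ContinuousLinearMap.adjoint i₁) x)) +
      j₂ ((ContinuousLinearMap.adjoint j₁) x) := fun x => rfl
  have hkl : IsDS k l := by
    refine ⟨?_, ?_, ?_, ?_⟩
    · ext1 x
      rw [ContinuousLinearMap.comp_apply, ak, ek, li₂, li]
      rfl
    · ext1 x
      rw [ContinuousLinearMap.comp_apply, al, el]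
      simp only [map_add, li₂, lij₂, lji₂, lj₂, add_zero, zero_add, lj, ls₁]
      rfl
    · ext1 x
      rw [ContinuousLinearMap.comp_apply, ak, el, map_add, li₂, lij₂, add_zero, lij]
      rfl
    · ext1 x
      show k ((ContinuousLinearMap.adjoint k) x) + l ((ContinuousLinearMap.adjoint l) x) = x
      rw [ak, al, ek, el]
      simp only [map_add, li₁, lij₁, lji₁, lj₁, add_zero, zero_add]
      rw [← add_assoc, ← map_add, ls, ls₂]
  have d' := ofIsDS hkl
  have hli : l ∘L i₁ = i₂ ∘L j := by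
    ext1 x
    rw [ContinuousLinearMap.comp_apply, el, li₁, lji₁, map_zero, add_zero]
    rfl
  have hlj : l ∘L j₁ = j₂ := by
    ext1 x
    rw [ContinuousLinearMap.comp_apply, el, lij₁, lj₁, map_zero, map_zero, zero_add]
  have key : ∀ (X : H →L[ℂ] H) (Y Z : Ef r →L[ℂ] Ef r),
      cor i₂ (cor i X + cor j Y) + cor j₂ Z = cor k X + cor l (cor i₁ Y + cor j₁ Z) := by
    intro X Y Z
    rw [cor_add, cor_cor, cor_cor, cor_add, cor_cor, cor_cor, hli, hlj, ← hk, add_assoc]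
  have nk := norm_adj_le d₂.hi
  have nl := norm_adj_le d'.hj
  -- the operators
  set BA : Ef (r + r) →L[ℂ] Ef (r + r) := cor i₁ B + cor j₁ N' with hBA
  set B0 : Ef (r + r) →L[ℂ] Ef (r + r) := cor i₁ B₀ + cor j₁ N' with hB0
  set W1 : K₂ →L[ℂ] K₂ := cor i₂ W₀ + cor j₂ 1 with hW1
  set U1 : K₂ →L[ℂ] K₂ := cor k 1 + cor l (star u) with hU1
  set NA : K₂ →L[ℂ] K₂ := cor k N + cor l BA with hNA
  set NB : K₂ →L[ℂ] K₂ := cor k N + cor l M with hNB
  set N0 : K₂ →L[ℂ] K₂ := cor k N + cor l B0 with hN0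
  have hBAn : IsStarNormal BA := d₁.normal hB hN'
  have hNAn : IsStarNormal NA := d'.normal hN hBAn
  have hNBn : IsStarNormal NB := d'.normal hN hM
  have uW1 : Uni W1 := d₂.uni hW₀ uni_one
  have uU1 : Uni U1 := d'.uni uni_one (uni_star hu)
  have uW : Uni (W1 * U1) := uni_mul uW1 uU1
  -- transport
  have t1 : ∀ T : K →L[ℂ] K, IsT T → IsT (cor i₂ T) ∧ n1 (cor i₂ T) ≤ n1 T := by
    intro T hT
    obtain ⟨a1, a2, -⟩ := hTr1 K K₂ i₂ (ContinuousLinearMap.adjoint i₂) T hT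
    refine ⟨a1, a2.trans ?_⟩
    have h1 : ‖i₂‖ * ‖ContinuousLinearMap.adjoint i₂‖ ≤ 1 * 1 :=
      mul_le_mul nk.1 nk.2 (norm_nonneg _) zero_le_one
    have := mul_le_mul_of_nonneg_right h1 (n1_nonneg T)
    linarith
  have t2 : ∀ T : Ef (r + r) →L[ℂ] Ef (r + r), IsT (cor l T) ∧ n1 (cor l T) ≤ n1 T := by
    intro T
    obtain ⟨a1, a2⟩ := ef_transport l (ContinuousLinearMap.adjoint l) T
    refine ⟨a1, a2.trans ?_⟩
    have h1 : ‖l‖ * ‖ContinuousLinearMap.adjoint l‖ ≤ 1 * 1 :=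
      mul_le_mul nl.1 nl.2 (norm_nonneg _) zero_le_one
    have := mul_le_mul_of_nonneg_right h1 (n1_nonneg T)
    linarith
  -- the first error
  set E1 : K →L[ℂ] K := (cor i N + cor j B) * W₀ - W₀ * (cor i N + cor j B₀) with hE1
  have hE1T : IsT E1 ∧ n1 E1 ≤ 2 * κ := by
    obtain ⟨a1, a2⟩ := hκ 1 (Or.inl rfl)
    obtain ⟨b1, b2⟩ := hκ Complex.I (Or.inr rfl)
    have e1 : E1 = (dt 1 (cor i N + cor j B) * W₀ - W₀ * dt 1 (cor i N + cor j B₀)) +
        Complex.I • (dt Complex.I (cor i N + cor j B) * W₀ -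
          W₀ * dt Complex.I (cor i N + cor j B₀)) := by
      rw [hE1]
      conv_lhs => rw [← re_im (cor i N + cor j B), ← re_im (cor i N + cor j B₀)]
      rw [add_mul, mul_add, mul_smul_comm, smul_mul_assoc, smul_sub]
      abel
    rw [e1]
    exact ⟨a1.add (b1.smul _), (n1_triv a1 b1).trans (by linarith)⟩
  -- the second error
  set E2 : Ef (r + r) →L[ℂ] Ef (r + r) := B0 * star u - star u * M with hE2
  have hE2T : n1 E2 ≤ 4 * CA * δ * r := by
    have e1 : E2 = star u * (u * B0 - M * u) * star u := by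
      rw [hE2, mul_sub, sub_mul, ← mul_assoc (star u) u, hu.1, one_mul, ← mul_assoc (star u) M u,
        mul_assoc (star u * M), hu.2, mul_one]
    have e2 : u * B0 - M * u = (u * dt 1 B0 - dt 1 M * u) +
        Complex.I • (u * dt Complex.I B0 - dt Complex.I M * u) := by
      conv_lhs => rw [← re_im B0, ← re_im M]
      rw [add_mul, mul_add, mul_smul_comm, smul_mul_assoc, smul_sub]
      abel
    have a1 := hn 1 (Or.inl rfl)
    have a2 := hn Complex.I (Or.inr rfl)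
    have h1 : n1 (u * B0 - M * u) ≤ 4 * CA * δ * r := by
      rw [e2]
      refine (n1_triv (isT_ef _) (isT_ef _)).trans ?_
      linarith
    rw [e1]
    have nu := uni_norm hu
    have h2 := n1_mul_right_le (star u) (isT_ef (star u * (u * B0 - M * u)))
    have h3 := n1_mul_left_le (star u) (isT_ef (u * B0 - M * u))
    have h4 := n1_nonneg (star u * (u * B0 - M * u))
    have h5 := n1_nonneg (u * B0 - M * u)
    have h6 : ‖star u‖ * n1 (star u * (u * B0 - M * u)) ≤ 1 * n1 (star u * (u * B0 - M * u)) :=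
      mul_le_mul_of_nonneg_right nu.2 h4
    have h7 : ‖star u‖ * n1 (u * B0 - M * u) ≤ 1 * n1 (u * B0 - M * u) :=
      mul_le_mul_of_nonneg_right nu.2 h5
    linarith
  -- the total error
  have hc1 : NA * W1 - W1 * N0 = cor i₂ E1 := by
    rw [hNA, hN0, hBA, hB0, ← key, ← key, hW1, d₂.mul, d₂.mul, mul_one, one_mul, hE1, cor_sub]
    abel
  have hc2 : N0 * U1 - U1 * NB = cor l E2 := by
    rw [hN0, hU1, hNB, d'.mul, d'.mul, mul_one, one_mul, hE2, cor_sub]
    abel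
  have hc : NA * (W1 * U1) - (W1 * U1) * NB = cor i₂ E1 * U1 + W1 * cor l E2 := by
    rw [← hc1, ← hc2, sub_mul, mul_sub]
    simp only [mul_assoc]
    abel
  obtain ⟨p1, p2⟩ := t1 E1 hE1T.1
  obtain ⟨q1, q2⟩ := t2 E2
  have hT : IsT (NA * (W1 * U1) - (W1 * U1) * NB) := by
    rw [hc]
    exact (p1.mul_right _).add (q1.mul_left _)
  have hn1 : n1 (NA * (W1 * U1) - (W1 * U1) * NB) ≤ 2 * κ + 4 * CA * δ * r := by
    rw [hc]
    refine (n1_add_le (p1.mul_right _) (q1.mul_left _)).trans ?_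
    have h2 := n1_mul_right_le U1 p1
    have h3 := n1_mul_left_le W1 q1
    have h4 : ‖U1‖ * n1 (cor i₂ E1) ≤ 1 * n1 (cor i₂ E1) :=
      mul_le_mul_of_nonneg_right (uni_norm uU1).1 (n1_nonneg _)
    have h5 : ‖W1‖ * n1 (cor l E2) ≤ 1 * n1 (cor l E2) :=
      mul_le_mul_of_nonneg_right (uni_norm uW1).1 (n1_nonneg _)
    linarith [hE1T.2]
  -- the unitary is a trace class perturbation
  have hWT' : IsT (W1 * U1 - (cor k Ω + l ∘L (ContinuousLinearMap.adjoint l))) := by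
    have e1 : W1 * U1 - (cor k Ω + l ∘L (ContinuousLinearMap.adjoint l)) =
        W1 * cor l (star u - 1) +
          cor i₂ (W₀ - (cor i Ω + j ∘L (ContinuousLinearMap.adjoint j))) := by
      have e2 : cor k Ω + l ∘L (ContinuousLinearMap.adjoint l) =
          cor i₂ (cor i Ω + cor j 1) + cor j₂ 1 := by
        rw [key, d₁.one, cor_one]
      have e3 : U1 = 1 + cor l (star u - 1) := by
        rw [hU1, cor_sub, ← d'.one]
        abel
      rw [e2, e3, mul_add, mul_one, hW1, ← cor_one, cor_sub, cor_sub]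
      abel
    rw [e1]
    exact ((t2 _).1.mul_left _).add (t1 _ hWT).1
  obtain ⟨r1', r2'⟩ := hTRI H K₂ (r + r) k l N Ω BA M (W1 * U1) hkl hN hBAn hM hΩ hA1 uW hWT' hT
  have hWN : IsStarNormal ((W1 * U1) * NB * star (W1 * U1)) := normal_conj uW hNBn
  have hn2 : n1 ((W1 * U1) * NB * star (W1 * U1) - NA) ≤ 2 * κ + 4 * CA * δ * r := by
    have e1 : (W1 * U1) * NB * star (W1 * U1) - NA =
        -((NA * (W1 * U1) - (W1 * U1) * NB) * star (W1 * U1)) := by
      rw [sub_mul, mul_assoc NA, uW.2, mul_one]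
      abel
    rw [e1, n1_neg (hT.mul_right _)]
    refine (n1_mul_right_le _ hT).trans ?_
    have h4 : ‖star (W1 * U1)‖ * n1 (NA * (W1 * U1) - (W1 * U1) * NB) ≤
        1 * n1 (NA * (W1 * U1) - (W1 * U1) * NB) :=
      mul_le_mul_of_nonneg_right (uni_norm uW).2 (n1_nonneg _)
    linarith
  have hBd := hUB K₂ NA ((W1 * U1) * NB * star (W1 * U1)) hNAn hWN r1'
  obtain ⟨lam, hlam⟩ := hSPF (r + r) M hM
  obtain ⟨mu, hmu⟩ := hSPF (r + r) BA hBAn
  obtain ⟨-, hT2⟩ := hTFN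
  obtain ⟨-, -, -, -, -, -, hTs, -, -⟩ := hT2 H N Ω hN hΩ hA1
  refine ⟨(r + r) + (r + r), Fin.append lam mu, Fin.append (fun _ => 1) (fun _ => -1), ?_⟩
  intro f hf Lc hLc
  have hfc : Continuous f := hf.1.continuous
  have h1 := r2' f hf
  rw [hTs f hf, hlam f hfc, hmu f hfc] at h1
  have h2 : TU N Ω f - ∑ k : Fin ((r + r) + (r + r)),
      (Fin.append (fun _ => (1 : ℂ)) (fun _ => -1) : Fin ((r + r) + (r + r)) → ℂ) k *
        f ((Fin.append lam mu : Fin ((r + r) + (r + r)) → ℂ) k) =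
      -Tf NA ((W1 * U1) * NB * star (W1 * U1)) f := by
    rw [h1, Fin.sum_univ_add]
    simp only [Fin.append_left, Fin.append_right, one_mul, neg_mul, Finset.sum_neg_distrib]
    ring
  show ‖TU N Ω f - _‖ ≤ _
  rw [h2, norm_neg]
  have hL0 : 0 ≤ Lc := (norm_nonneg _).trans (hLc 0)
  refine (hBd f hf Lc hLc).trans ?_
  have h3 : C₀ * n1 ((W1 * U1) * NB * star (W1 * U1) - NA) ≤
      C₀ * (2 * κ + 4 * CA * δ * r) := mul_le_mul_of_nonneg_left hn2 hC₀
  exact mul_le_mul_of_nonneg_right h3 hL0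

end Pool.Q2
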