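import Pool.Agent.Work.MP_8c7e5b_q2.Interface2

/-!
# Block BND: the theorem for bounded normal operators
-/

open MeasureTheory Complex Filter Topology
open scoped ComplexOrder InnerProductSpace ComplexConjugate BoundedContinuousFunction

set_option autoImplicit false
set_option linter.unusedSectionVars false

universe v

namespace Pool.Q2

open Pool.Bes

namespace BNDAux

theorem bdL_congr {T T' : (ℂ → ℂ) → ℂ} {K : ℝ} (h : ∀ f, Tst f → T f = T' f) (hT : BdL T K) :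
    BdL T' K := fun f hf L hL => by
  rw [← h f hf]
  exact hT f hf L hL

theorem apx_congr {T T' : (ℂ → ℂ) → ℂ} (h : ∀ f, Tst f → T f = T' f) (hT : Apx T) : Apx T' := by
  intro ε hε
  obtain ⟨n, a, c, hb⟩ := hT ε hε
  exact ⟨n, a, c, bdL_congr (fun f hf => by rw [h f hf]) hb⟩

end BNDAux

open BNDAux in
theorem blk_BND (hGH : Stmt_GH.{v}) (hSHF : Stmt_SHF.{v}) (hRED : Stmt_RED.{v}) (hFA : Stmt_FA)
    (hFF : Stmt_FF) (hTFN : Stmt_TFN.{v}) : Stmt_BND.{v} := by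
  intro hLB H _ _ _ _ N₁ N₂ h₁ h₂ hD
  obtain ⟨C₀, hC₀, hUB⟩ := hGH hLB
  obtain ⟨K, _, _, _, _, N, Ω, hN, hΩ, hA, hT⟩ := hSHF H N₁ N₂ h₁ h₂ hD
  have h1 : Apx (TU N Ω) := hRED C₀ hC₀ hUB K N Ω hN hΩ hA
  have h2 : Apx (Tf N₁ N₂) := apx_congr hT h1
  obtain ⟨C, hC⟩ := hLB H N₁ N₂ h₁ h₂ hD
  exact hFF (Tf N₁ N₂) C (hTFN.1 H N₁ N₂ h₁ h₂ hD).2 hC (hFA _ h2)

end Pool.Q2
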