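import Pool.Agent.Work.MP_8c7e5b_q2.Interface

/-!
# Block CELA (helper94): partition into cells
-/

open MeasureTheory Complex Filter Topology
open scoped ComplexOrder InnerProductSpace ComplexConjugate BoundedContinuousFunction

set_option autoImplicit false
set_option linter.unusedSectionVars false

universe v

namespace Pool.Q2

open Pool.Bes

namespace CELAAux

/-- the tent function -/
noncomputable def tn (x : ℝ) : ℝ := max 0 (1 - |x|)

/-- the square root of the tent -/
noncomputable def ph (x : ℝ) : ℝ := √(tn x)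

theorem tn_nonneg (x : ℝ) : 0 ≤ tn x := le_max_left _ _

theorem tn_le (x : ℝ) : tn x ≤ 1 := max_le zero_le_one (by linarith [abs_nonneg x])

theorem tn_cont : Continuous tn := by unfold tn; fun_prop

theorem ph_cont : Continuous ph := Real.continuous_sqrt.comp tn_cont

theorem ph_nonneg (x : ℝ) : 0 ≤ ph x := Real.sqrt_nonneg _

theorem ph_le (x : ℝ) : ph x ≤ 1 := by
  unfold ph
  exact Real.sqrt_le_one.2 (tn_le x)

theorem ph_sq (x : ℝ) : ph x * ph x = tn x := Real.mul_self_sqrt (tn_nonneg x)

theorem ph_ne {x : ℝ} (h : ph x ≠ 0) : |x| < 1 := by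
  by_contra hc
  push Not at hc
  apply h
  unfold ph tn
  rw [max_eq_left (by linarith), Real.sqrt_zero]

/-- the partition of unity -/
theorem tn_sum (M : ℕ) (x : ℝ) (hx : |x| ≤ M) : ∑ i ∈ Finset.Icc (-(M : ℤ)) M, tn (x - i) = 1 := by
  have hx' := abs_le.1 hx
  set k := ⌊x⌋ with hk
  have h1 : (k : ℝ) ≤ x := Int.floor_le x
  have h2 : x < k + 1 := Int.lt_floor_add_one x
  have hkM : -(M : ℤ) ≤ k := by
    rw [hk, Int.le_floor]
    push_cast
    exact hx'.1
  have hkM' : k ≤ M := by
    have : (k : ℝ) ≤ (M : ℤ) := by push_cast; linarith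
    exact_mod_cast this
  have hz : ∀ i : ℤ, i ≠ k → i ≠ k + 1 → tn (x - i) = 0 := by
    intro i hi hi'
    unfold tn
    apply max_eq_left
    rcases lt_or_gt_of_ne hi with h | h
    · have h3 : (i : ℝ) + 1 ≤ k := by exact_mod_cast h
      rw [abs_of_nonneg (by linarith)]
      linarith
    · have h3 : k + 2 ≤ i := by omega
      have h4 : (k : ℝ) + 2 ≤ i := by exact_mod_cast h3
      rw [abs_of_nonpos (by linarith)]
      linarith
  have e1 : tn (x - k) = 1 - (x - k) := by
    unfold tn
    rw [abs_of_nonneg (by linarith), max_eq_right (by linarith)]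
  have e2 : tn (x - (k + 1 : ℤ)) = x - k := by
    unfold tn
    push_cast
    rw [abs_of_nonpos (by linarith), max_eq_right (by linarith)]
    ring
  rcases hkM'.lt_or_eq with h | h
  · rw [← Finset.sum_subset (s₁ := {k, k + 1}) (by
      intro i hi
      simp only [Finset.mem_insert, Finset.mem_singleton] at hi
      rw [Finset.mem_Icc]
      omega) (by
      intro i _ hi
      simp only [Finset.mem_insert, Finset.mem_singleton, not_or] at hi
      exact hz i hi.1 hi.2), Finset.sum_pair (by omega), e1, e2]
    ring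
  · rw [Finset.sum_eq_single k (by
      intro i hi hik
      rw [Finset.mem_Icc] at hi
      exact hz i hik (by omega)) (by
      intro hi
      exact absurd (Finset.mem_Icc.2 ⟨hkM, hkM'⟩) hi), e1]
    have h3 : (k : ℝ) = M := by exact_mod_cast h
    linarith

end CELAAux

open CELAAux in
theorem blk_CELA (hCMM : Stmt_CMM.{v}) : Stmt_CELA.{v} := by
  intro H _ _ _ N h hN hh
  obtain ⟨-, hcm, -⟩ := hCMM H N hN
  obtain ⟨M, hM⟩ := exists_nat_gt (‖N‖ / h)
  have hMN : ‖N‖ ≤ M * h := by
    rw [div_lt_iff₀ hh] at hM
    exact hM.le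
  -- the functions
  set F : ℤ × ℤ → ℂ → ℂ := fun Q z => ((ph (z.re / h - Q.1) * ph (z.im / h - Q.2) : ℝ) : ℂ) with hF
  have hFc : ∀ Q, Continuous (F Q) := by
    intro Q
    have h1 := ph_cont
    have h2 : Continuous fun z : ℂ => ph (z.re / h - Q.1) :=
      h1.comp (by fun_prop)
    have h3 : Continuous fun z : ℂ => ph (z.im / h - Q.2) :=
      h1.comp (by fun_prop)
    exact Complex.continuous_ofReal.comp (h2.mul h3)
  have hspec : ∀ z ∈ spectrum ℂ N, ‖z‖ ≤ M * h := fun z hz => by
    have h1 := spectrum.norm_le_norm_mul_of_mem hz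
    have h2 : ‖(1 : H →L[ℂ] H)‖ ≤ 1 := ContinuousLinearMap.norm_id_le
    have h3 := mul_le_mul_of_nonneg_left h2 (norm_nonneg N)
    linarith
  refine ⟨Finset.Icc (-(M : ℤ)) M ×ˢ Finset.Icc (-(M : ℤ)) M, fun Q => cfc (F Q) N, ?_, ?_, ?_⟩
  · intro Q
    refine ⟨?_, ?_, hcm _⟩
    · rw [isSelfAdjoint_iff, ← cfc_star]
      congr 1
      funext z
      exact Complex.conj_ofReal _
    · refine norm_cfc_le zero_le_one fun z _ => ?_
      rw [hF]
      simp only
      rw [Complex.norm_real, Real.norm_eq_abs, abs_of_nonneg (mul_nonneg (ph_nonneg _) (ph_nonneg _))]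
      exact mul_le_one₀ (ph_le _) (ph_nonneg _) (ph_le _)
  · have h1 : ∀ Q, cfc (F Q) N * cfc (F Q) N = cfc (fun z => F Q z * F Q z) N := by
      intro Q
      rw [← cfc_mul (F Q) (F Q) N (hFc Q).continuousOn (hFc Q).continuousOn]
    rw [Finset.sum_congr rfl fun Q _ => h1 Q]
    rw [← cfc_sum (fun Q z => F Q z * F Q z) N _ (fun Q _ => ((hFc Q).mul (hFc Q)).continuousOn)]
    rw [← cfc_const_one ℂ N]
    refine cfc_congr ?_
    intro z hz
    have hz' := hspec z hz
    have hre : |z.re / h| ≤ M := by
      rw [abs_div, abs_of_pos hh, div_le_iff₀ hh]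
      exact (Complex.abs_re_le_norm z).trans hz'
    have him : |z.im / h| ≤ M := by
      rw [abs_div, abs_of_pos hh, div_le_iff₀ hh]
      exact (Complex.abs_im_le_norm z).trans hz'
    have h2 : ∀ Q : ℤ × ℤ, F Q z * F Q z =
        ((tn (z.re / h - Q.1) * tn (z.im / h - Q.2) : ℝ) : ℂ) := by
      intro Q
      rw [hF]
      simp only
      rw [← Complex.ofReal_mul, ← ph_sq, ← ph_sq]
      congr 1
      ring
    rw [Finset.sum_apply] at *
    simp only [h2]
    rw [← Complex.ofReal_sum, Finset.sum_product]
    simp only [← Finset.mul_sum]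
    rw [tn_sum M _ him]
    simp only [mul_one]
    rw [tn_sum M _ hre]
    simp
  · intro Q e he
    set c : ℝ := ip e ((h * Q.1 : ℝ) + (h * Q.2 : ℝ) * Complex.I) with hc
    set g : ℂ → ℂ := fun z => ((max (-h) (min h (ip e z - c)) : ℝ) : ℂ) with hg
    have hipc : Continuous fun z : ℂ => ip e z := by unfold ip; fun_prop
    have hgc : Continuous g := by
      refine Complex.continuous_ofReal.comp ?_
      exact continuous_const.max (continuous_const.min (hipc.sub continuous_const))
    refine ⟨cfc g N, ?_, ?_, hcm _, ?_⟩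
    · refine norm_cfc_le hh.le fun z _ => ?_
      rw [hg]
      simp only
      rw [Complex.norm_real, Real.norm_eq_abs, abs_le]
      exact ⟨le_max_left _ _, max_le (by linarith) (min_le_left _ _)⟩
    · rw [isSelfAdjoint_iff, ← cfc_star]
      congr 1
      funext z
      exact Complex.conj_ofReal _
    · have h1 : dt e N - ((c : ℝ) : ℂ) • (1 : H →L[ℂ] H) =
          cfc (fun z : ℂ => (ip e z : ℂ) - (c : ℂ)) N := by
        rw [cfc_sub (fun z : ℂ => (ip e z : ℂ)) (fun _ => (c : ℂ)) N
          (Complex.continuous_ofReal.comp hipc).continuousOn continuousOn_const,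
          cfc_const (c : ℂ) N, ← EXB.dt_eq_cfc N hN]
        rw [Algebra.algebraMap_eq_smul_one]
      show _ * cfc (F Q) N = cfc g N * cfc (F Q) N
      rw [h1, ← cfc_mul (fun z : ℂ => (ip e z : ℂ) - (c : ℂ)) (F Q) N
        ((Complex.continuous_ofReal.comp hipc).sub continuous_const).continuousOn
        (hFc Q).continuousOn, ← cfc_mul g (F Q) N hgc.continuousOn (hFc Q).continuousOn]
      congr 1
      funext z
      by_cases hz : F Q z = 0
      · rw [hz, mul_zero, mul_zero]
      · congr 1
        have h2 : ph (z.re / h - Q.1) ≠ 0 ∧ ph (z.im / h - Q.2) ≠ 0 := by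
          rw [← mul_ne_zero_iff]
          intro h0
          apply hz
          rw [hF]
          simp only
          rw [h0, Complex.ofReal_zero]
        have h3 := ph_ne h2.1
        have h4 := ph_ne h2.2
        have h5 : |z.re - h * Q.1| < h := by
          have : z.re / h - Q.1 = (z.re - h * Q.1) / h := by field_simp
          rw [this, abs_div, abs_of_pos hh, div_lt_one hh] at h3
          exact h3
        have h6 : |z.im - h * Q.2| < h := by
          have : z.im / h - Q.2 = (z.im - h * Q.2) / h := by field_simp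
          rw [this, abs_div, abs_of_pos hh, div_lt_one hh] at h4
          exact h4
        have h7 : |ip e z - c| < h := by
          rcases he with rfl | rfl
          · have : ip 1 z - c = z.re - h * Q.1 := by
              rw [hc]; unfold ip; simp
            rw [this]; exact h5
          · have : ip Complex.I z - c = z.im - h * Q.2 := by
              rw [hc]; unfold ip; simp
            rw [this]; exact h6
        have h8 := abs_lt.1 h7
        rw [hg]
        simp only
        rw [min_eq_right h8.2.le, max_eq_right h8.1.le, Complex.ofReal_sub]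

end Pool.Q2
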