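import Pool.Agent.Work.MP_8c7e5b_q2.Interface
import Mathlib.NumberTheory.ModularForms.EisensteinSeries.Summable

/-!
# MP_8c7e5b_an, Q2: block CELL (cells)
-/

open MeasureTheory Complex Filter Topology

set_option autoImplicit false
set_option linter.unusedSectionVars false

namespace Pool.Q2.CELLAux

/-- the difference of two cells -/
def dd (Q Q' : ℤ × ℤ) : Fin 2 → ℤ := ![Q.1 - Q'.1, Q.2 - Q'.2]

theorem norm_dd (Q Q' : ℤ × ℤ) :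
    ‖dd Q Q'‖ = max |((Q.1 - Q'.1 : ℤ) : ℝ)| |((Q.2 - Q'.2 : ℤ) : ℝ)| := by
  rw [EisensteinSeries.norm_eq_max_natAbs]
  simp [dd, Nat.cast_natAbs]

theorem dd_comm (Q Q' : ℤ × ℤ) : ‖dd Q Q'‖ = ‖dd Q' Q‖ := by
  rw [norm_dd, norm_dd]
  have h1 : ((Q.1 - Q'.1 : ℤ) : ℝ) = -((Q'.1 - Q.1 : ℤ) : ℝ) := by push_cast; ring
  have h2 : ((Q.2 - Q'.2 : ℤ) : ℝ) = -((Q'.2 - Q.2 : ℤ) : ℝ) := by push_cast; ring
  rw [h1, h2, abs_neg, abs_neg]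

/-- the absolute constants -/
theorem exists_R : ∃ R : ℕ, 3 ≤ R ∧ ∀ (S : Finset (ℤ × ℤ)) (Q : ℤ × ℤ),
    ∑ Q' ∈ S.filter (fun Q' => (R : ℝ) < ‖dd Q Q'‖), 216 / ‖dd Q Q'‖ ^ 3 ≤ 1 / 4 := by
  have h1 : Summable fun x : Fin 2 → ℤ => 216 * ‖x‖ ^ (-3 : ℝ) :=
    (EisensteinSeries.summable_one_div_norm_rpow (k := 3) (by norm_num)).mul_left 216
  rw [summable_iff_vanishing_norm] at h1
  obtain ⟨s, hs⟩ := h1 (1 / 4) (by norm_num)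
  obtain ⟨R, hR⟩ : ∃ R : ℕ, ∀ x ∈ s, ‖x‖ ≤ R := by
    obtain ⟨R, hR⟩ := (s.finite_toSet.image (fun x => ‖x‖)).bddAbove
    obtain ⟨n, hn⟩ := exists_nat_ge R
    exact ⟨n, fun x hx => (hR ⟨x, hx, rfl⟩).trans hn⟩
  refine ⟨R + 3, by omega, fun S Q => ?_⟩
  set T := S.filter (fun Q' => ((R + 3 : ℕ) : ℝ) < ‖dd Q Q'‖) with hT
  have hinj : Set.InjOn (dd Q) (T : Set (ℤ × ℤ)) := by
    intro a _ b _ hab
    have e1 := congrFun hab 0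
    have e2 := congrFun hab 1
    simp only [dd, Matrix.cons_val_zero, Matrix.cons_val_one] at e1 e2
    exact Prod.ext (by omega) (by omega)
  have h2 := hs (T.image (dd Q)) (by
    rw [Finset.disjoint_left]
    intro x hx hxs
    rw [Finset.mem_image] at hx
    obtain ⟨Q', hQ', rfl⟩ := hx
    rw [hT, Finset.mem_filter] at hQ'
    have h3 := hR _ hxs
    have h4 := hQ'.2
    push_cast at h4
    linarith)
  rw [Finset.sum_image hinj] at h2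
  have h3 : ∑ Q' ∈ T, 216 / ‖dd Q Q'‖ ^ 3 = ∑ Q' ∈ T, 216 * ‖dd Q Q'‖ ^ (-3 : ℝ) := by
    refine Finset.sum_congr rfl fun Q' _ => ?_
    rw [Real.rpow_neg (norm_nonneg _), div_eq_mul_inv]
    norm_cast
  rw [h3]
  exact (le_abs_self _).trans (h2.le)

theorem card_near (R : ℕ) (S : Finset (ℤ × ℤ)) (Q : ℤ × ℤ) :
    (S.filter (fun Q' => ‖dd Q Q'‖ ≤ R)).card ≤ (2 * R + 1) ^ 2 := by
  have h1 : S.filter (fun Q' => ‖dd Q Q'‖ ≤ R) ⊆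
      Finset.Icc (Q.1 - R) (Q.1 + R) ×ˢ Finset.Icc (Q.2 - R) (Q.2 + R) := by
    intro Q' hQ'
    rw [Finset.mem_filter, norm_dd, max_le_iff] at hQ'
    obtain ⟨_, h2, h3⟩ := hQ'
    have h2' : |Q.1 - Q'.1| ≤ (R : ℤ) := by exact_mod_cast h2
    have h3' : |Q.2 - Q'.2| ≤ (R : ℤ) := by exact_mod_cast h3
    rw [abs_le] at h2' h3'
    rw [Finset.mem_product, Finset.mem_Icc, Finset.mem_Icc]
    constructor <;> constructor <;> omega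
  refine (Finset.card_le_card h1).trans ?_
  rw [Finset.card_product, Int.card_Icc, Int.card_Icc]
  have e1 : (Q.1 + R + 1 - (Q.1 - R)).toNat = 2 * R + 1 := by omega
  have e2 : (Q.2 + R + 1 - (Q.2 - R)).toNat = 2 * R + 1 := by omega
  rw [e1, e2, sq]

/-- symmetric sums -/
theorem sym_sum {ι : Type*} (S : Finset ι) (k : ι → ι → ℝ) (f : ι → ℝ) (m : ℝ)
    (hk : ∀ a b, k a b = k b a) (hf : ∀ a, 0 ≤ f a) (hm : ∀ a ∈ S, ∑ b ∈ S, k a b ≤ m) :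
    ∑ a ∈ S, ∑ b ∈ S, k a b * ((f a + f b) / 2) ≤ m * ∑ a ∈ S, f a := by
  have h1 : ∑ a ∈ S, ∑ b ∈ S, k a b * ((f a + f b) / 2) =
      (∑ a ∈ S, ∑ b ∈ S, k a b * f a) / 2 + (∑ a ∈ S, ∑ b ∈ S, k a b * f b) / 2 := by
    rw [Finset.sum_div, Finset.sum_div, ← Finset.sum_add_distrib]
    refine Finset.sum_congr rfl fun a _ => ?_
    rw [Finset.sum_div, Finset.sum_div, ← Finset.sum_add_distrib]
    exact Finset.sum_congr rfl fun b _ => by ring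
  have h2 : ∑ a ∈ S, ∑ b ∈ S, k a b * f b = ∑ a ∈ S, ∑ b ∈ S, k a b * f a := by
    rw [Finset.sum_comm]
    exact Finset.sum_congr rfl fun a _ => Finset.sum_congr rfl fun b _ => by rw [hk]
  rw [h1, h2, add_halves, Finset.mul_sum]
  refine Finset.sum_le_sum fun a ha => ?_
  rw [← Finset.sum_mul]
  exact mul_le_mul_of_nonneg_right (hm a ha) (hf a)


section Ops

open Pool.Bes Pool.Bes.ALGAux
open scoped ComplexOrder InnerProductSpace ComplexConjugate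

universe v

variable {H : Type v} [NormedAddCommGroup H] [InnerProductSpace ℂ H] [CompleteSpace H]

theorem inner_pos {A : H →L[ℂ] H} (hA : 0 ≤ A) (x : H) : 0 ≤ (⟪x, A x⟫_ℂ).re := by
  have h1 := (ContinuousLinearMap.nonneg_iff_isPositive A).1 hA
  exact h1.re_inner_nonneg_right x

theorem inner_symm {A : H →L[ℂ] H} (hA : 0 ≤ A) (x y : H) : (⟪x, A y⟫_ℂ).re = (⟪y, A x⟫_ℂ).re := by
  have h1 : star A = A := (IsSelfAdjoint.of_nonneg hA).star_eq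
  have h2 : ⟪x, A y⟫_ℂ = ⟪A x, y⟫_ℂ := by
    rw [← ContinuousLinearMap.adjoint_inner_left, ← ContinuousLinearMap.star_eq_adjoint, h1]
  rw [h2, ← inner_conj_symm, Complex.conj_re]

/-- `re ⟪a, A b⟫ ≤ (⟪a, A a⟫ + ⟪b, A b⟫) / 2` -/
theorem cs_half {A : H →L[ℂ] H} (hA : 0 ≤ A) (a b : H) :
    (⟪a, A b⟫_ℂ).re ≤ ((⟪a, A a⟫_ℂ).re + (⟪b, A b⟫_ℂ).re) / 2 := by
  have h1 := inner_pos hA (a - b)
  rw [map_sub, inner_sub_left, inner_sub_right, inner_sub_right, Complex.sub_re, Complex.sub_re,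
    Complex.sub_re, inner_symm hA b a] at h1
  linarith

theorem two_fold {A : H →L[ℂ] H} (hA : 0 ≤ A) (a b : H) :
    (⟪a + b, A (a + b)⟫_ℂ).re ≤ 2 * (⟪a, A a⟫_ℂ).re + 2 * (⟪b, A b⟫_ℂ).re := by
  have h1 := cs_half hA a b
  rw [map_add, inner_add_left, inner_add_right, inner_add_right, Complex.add_re, Complex.add_re,
    Complex.add_re, inner_symm hA b a]
  linarith

/-- one cell -/
theorem one_cell (hGRD : Stmt_GRD.{v}) {A : H →L[ℂ] H} (hA : 0 ≤ A) (hA1 : ‖A‖ ≤ 1) (hT : IsT A)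
    {c : ℝ} (hc : 0 < c) : ∃ (n : ℕ) (u : Fin n → H), Orthonormal ℂ u ∧ n * c ≤ n1 A ∧
      ∀ y : H, (⟪y, A y⟫_ℂ).re ≤ 2 * ∑ k, ‖⟪u k, y⟫_ℂ‖ ^ 2 + 2 * c * ‖y‖ ^ 2 := by
  obtain ⟨n, u, hu, hn, hy⟩ := hGRD H A c hA hT hc
  refine ⟨n, u, hu, hn, fun y => ?_⟩
  set p : H := ∑ k, ⟪u k, y⟫_ℂ • u k with hp
  have hpn : ‖p‖ ^ 2 = ∑ k, ‖⟪u k, y⟫_ℂ‖ ^ 2 := by
    have h2 := hu.inner_sum (fun k => ⟪u k, y⟫_ℂ) (fun k => ⟪u k, y⟫_ℂ) Finset.univ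
    have h3 : ((‖p‖ ^ 2 : ℝ) : ℂ) = ((∑ k, ‖⟪u k, y⟫_ℂ‖ ^ 2 : ℝ) : ℂ) := by
      have h4 := inner_self_eq_norm_sq_to_K (𝕜 := ℂ) p
      rw [hp, h2] at h4
      rw [Complex.ofReal_pow, Complex.ofReal_sum]
      refine h4.symm.trans (Finset.sum_congr rfl fun k _ => ?_)
      rw [Complex.ofReal_pow]
      exact Complex.conj_mul' _
    exact_mod_cast h3
  have huz : ∀ k, ⟪u k, y - p⟫_ℂ = 0 := by
    intro k
    rw [inner_sub_right, hp, hu.inner_right_fintype, sub_self]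
  have hpz : ⟪p, y - p⟫_ℂ = 0 := by
    have h5 : ⟪p, y - p⟫_ℂ = ∑ k, conj ⟪u k, y⟫_ℂ * ⟪u k, y - p⟫_ℂ := by
      conv_lhs => rw [hp]
      rw [sum_inner]
      exact Finset.sum_congr rfl fun k _ => inner_smul_left _ _ _
    rw [h5]
    exact Finset.sum_eq_zero fun k _ => by rw [huz k, mul_zero]
  have hz : ‖y - p‖ ^ 2 ≤ ‖y‖ ^ 2 := by
    have h6 := norm_add_sq_eq_norm_sq_add_norm_sq_of_inner_eq_zero p (y - p) hpz
    rw [add_sub_cancel] at h6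
    nlinarith [norm_nonneg p]
  have h1 := two_fold hA p (y - p)
  rw [add_sub_cancel] at h1
  have h2 := hy (y - p) huz
  have h3 : (⟪p, A p⟫_ℂ).re ≤ ‖p‖ ^ 2 := by
    calc (⟪p, A p⟫_ℂ).re ≤ ‖⟪p, A p⟫_ℂ‖ := Complex.re_le_norm _
      _ ≤ ‖p‖ * ‖A p‖ := norm_inner_le_norm _ _
      _ ≤ ‖p‖ * (1 * ‖p‖) := by
          refine mul_le_mul_of_nonneg_left ?_ (norm_nonneg _)
          exact (A.le_opNorm p).trans (mul_le_mul_of_nonneg_right hA1 (norm_nonneg _))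
      _ = ‖p‖ ^ 2 := by ring
  rw [hpn] at h3
  have h4 : c * ‖y - p‖ ^ 2 ≤ c * ‖y‖ ^ 2 := mul_le_mul_of_nonneg_left hz hc.le
  linarith

/-- the far pairs of cells -/
theorem far_cell (hFAR : Stmt_FAR.{v}) (hCMM : Stmt_CMM.{v}) {N q : H →L[ℂ] H} {h : ℝ}
    (hN : IsStarNormal N) (hh : 0 < h) {χ : ℤ × ℤ → H →L[ℂ] H}
    (hχ : ∀ Q, IsSelfAdjoint (χ Q) ∧ ‖χ Q‖ ≤ 1 ∧ Cm N (χ Q))
    (hG : ∀ (Q : ℤ × ℤ) (e : ℂ), e = 1 ∨ e = Complex.I → ∃ G : H →L[ℂ] H, ‖G‖ ≤ h ∧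
        IsSelfAdjoint G ∧ Cm N G ∧
        (dt e N - ((ip e ((h * Q.1 : ℝ) + (h * Q.2 : ℝ) * Complex.I) : ℝ) : ℂ) • 1) * χ Q =
          G * χ Q)
    (hq : ∀ e : ℂ, e = 1 ∨ e = Complex.I →
      ‖br (dt e N) (br (dt e N) (br (dt e N) q))‖ ≤ (2 * h) ^ 3) {Q Q' : ℤ × ℤ}
    (hQ : 3 ≤ ‖dd Q Q'‖) : ‖χ Q' * q * χ Q‖ ≤ 216 / ‖dd Q Q'‖ ^ 3 := by
  -- one direction realises the distance
  obtain ⟨e, he, hv⟩ : ∃ e : ℂ, (e = 1 ∨ e = Complex.I) ∧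
      ‖dd Q Q'‖ * h = |ip e ((h * Q.1 : ℝ) + (h * Q.2 : ℝ) * Complex.I) -
        ip e ((h * Q'.1 : ℝ) + (h * Q'.2 : ℝ) * Complex.I)| := by
    rw [norm_dd]
    rcases le_total |((Q.2 - Q'.2 : ℤ) : ℝ)| |((Q.1 - Q'.1 : ℤ) : ℝ)| with h1 | h1
    · refine ⟨1, Or.inl rfl, ?_⟩
      rw [max_eq_left h1]
      have h2 : ip 1 ((h * Q.1 : ℝ) + (h * Q.2 : ℝ) * Complex.I) -
        ip 1 ((h * Q'.1 : ℝ) + (h * Q'.2 : ℝ) * Complex.I) = ((Q.1 - Q'.1 : ℤ) : ℝ) * h := by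
        unfold ip
        simp
        ring
      rw [h2, abs_mul, abs_of_pos hh]
    · refine ⟨Complex.I, Or.inr rfl, ?_⟩
      rw [max_eq_right h1]
      have h2 : ip Complex.I ((h * Q.1 : ℝ) + (h * Q.2 : ℝ) * Complex.I) -
        ip Complex.I ((h * Q'.1 : ℝ) + (h * Q'.2 : ℝ) * Complex.I) =
          ((Q.2 - Q'.2 : ℤ) : ℝ) * h := by
        unfold ip
        simp
        ring
      rw [h2, abs_mul, abs_of_pos hh]
  obtain ⟨G, hG1, hG2, hG3, hG4⟩ := hG Q e he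
  obtain ⟨G', hG1', hG2', hG3', hG4'⟩ := hG Q' e he
  set z : ℝ := ip e ((h * Q.1 : ℝ) + (h * Q.2 : ℝ) * Complex.I) with hz
  set z' : ℝ := ip e ((h * Q'.1 : ℝ) + (h * Q'.2 : ℝ) * Complex.I) with hz'
  have hc := hCMM H N hN
  have hs : star (dt e N) = dt e N := (hc.2.2.2.2.2.2.1 e).star_eq
  have hG5 : χ Q * (dt e N - (z : ℂ) • 1) = χ Q * G := by
    have h2 := congrArg star hG4
    rw [star_mul, star_mul, star_sub, star_smul, star_one, hs, hG2.star_eq, (hχ Q).1.star_eq] at h2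
    rw [RCLike.star_def, Complex.conj_ofReal] at h2
    exact h2
  have hgap : 2 * h < |z - z'| := by
    rw [← hv]
    nlinarith
  have h1 := hFAR H (dt e N) q (χ Q) (χ Q') G G' z z' h ((2 * h) ^ 3)
    ((hc.1 _ (hχ Q).2.2).1 e) ((hc.1 _ (hχ Q').2.2).1 e) hG5 hG4' hG1 hG1' (hχ Q).2.1 (hχ Q').2.1
    hh.le (hq e he) hgap
  refine h1.trans ?_
  rw [← hv]
  set v : ℝ := ‖dd Q Q'‖ with hvd
  have h2 : (2 * h) ^ 3 / (v * h - 2 * h) ^ 3 = 8 / (v - 2) ^ 3 := by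
    have h3 : v - 2 ≠ 0 := by linarith
    have h4 : v * h - 2 * h = (v - 2) * h := by ring
    rw [h4, mul_pow, mul_pow]
    field_simp
    norm_num
  rw [h2, div_le_div_iff₀ (by have : 0 < v - 2 := by linarith
                              positivity) (by positivity)]
  have h5 : v ≤ 3 * (v - 2) := by linarith
  have h6 : v ^ 3 ≤ (3 * (v - 2)) ^ 3 := pow_le_pow_left₀ (norm_nonneg _) h5 3
  nlinarith

end Ops


section Main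

open Pool.Bes Pool.Bes.ALGAux
open scoped ComplexOrder InnerProductSpace ComplexConjugate

universe v

variable {H : Type v} [NormedAddCommGroup H] [InnerProductSpace ℂ H] [CompleteSpace H]

theorem inner_sa {S : H →L[ℂ] H} (hS : IsSelfAdjoint S) (x y : H) : ⟪S x, y⟫_ℂ = ⟪x, S y⟫_ℂ := by
  rw [← ContinuousLinearMap.adjoint_inner_right, ← ContinuousLinearMap.star_eq_adjoint, hS.star_eq]

theorem sum_sq {S : Finset (ℤ × ℤ)} {χ : ℤ × ℤ → H →L[ℂ] H} (hχ : ∀ Q, IsSelfAdjoint (χ Q))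
    (h1 : ∑ Q ∈ S, χ Q * χ Q = 1) (x : H) : ∑ Q ∈ S, ‖χ Q x‖ ^ 2 = ‖x‖ ^ 2 := by
  have h2 : ((∑ Q ∈ S, ‖χ Q x‖ ^ 2 : ℝ) : ℂ) = ((‖x‖ ^ 2 : ℝ) : ℂ) := by
    have h3 : ⟪x, (∑ Q ∈ S, χ Q * χ Q) x⟫_ℂ = ∑ Q ∈ S, ⟪χ Q x, χ Q x⟫_ℂ := by
      rw [sum_apply, inner_sum]
      refine Finset.sum_congr rfl fun Q _ => ?_
      rw [inner_sa (hχ Q)]
      rfl
    have h4 : (1 : H →L[ℂ] H) x = x := rfl
    rw [h1, h4, inner_self_eq_norm_sq_to_K] at h3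
    push_cast
    rw [show ((‖x‖ : ℂ)) ^ 2 = ∑ Q ∈ S, ⟪χ Q x, χ Q x⟫_ℂ from h3]
    exact Finset.sum_congr rfl fun Q _ => (inner_self_eq_norm_sq_to_K (𝕜 := ℂ) (χ Q x)).symm
  exact_mod_cast h2

/-- the quadratic form in cells -/
theorem form_cells {S : Finset (ℤ × ℤ)} {χ : ℤ × ℤ → H →L[ℂ] H} (hχ : ∀ Q, IsSelfAdjoint (χ Q))
    (h1 : ∑ Q ∈ S, χ Q * χ Q = 1) (q : H →L[ℂ] H) (x : H) :
    ⟪x, q x⟫_ℂ = ∑ Q ∈ S, ∑ Q' ∈ S, ⟪χ Q' x, (χ Q' * q * χ Q) (χ Q x)⟫_ℂ := by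
  have h2 : x = ∑ Q ∈ S, χ Q (χ Q x) := by
    have h5 : (∑ Q ∈ S, χ Q * χ Q) x = x := by
      rw [h1]
      rfl
    rw [sum_apply] at h5
    exact h5.symm
  have h3 : ∀ w : H, ⟪x, w⟫_ℂ = ∑ Q' ∈ S, ⟪χ Q' x, χ Q' w⟫_ℂ := by
    intro w
    conv_lhs => rw [h2]
    rw [sum_inner]
    exact Finset.sum_congr rfl fun Q _ => inner_sa (hχ Q) _ _
  have h4 : q x = ∑ Q ∈ S, q (χ Q (χ Q x)) := by
    conv_lhs => rw [h2]
    rw [map_sum]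
  rw [h4, inner_sum]
  refine Finset.sum_congr rfl fun Q _ => ?_
  rw [h3]
  rfl

/-- the sum of the trace norms of the diagonal blocks -/
theorem sum_n1 {S : Finset (ℤ × ℤ)} {χ : ℤ × ℤ → H →L[ℂ] H} (hχ : ∀ Q, IsSelfAdjoint (χ Q))
    (h1 : ∑ Q ∈ S, χ Q * χ Q = 1) {q : H →L[ℂ] H} (hq : 0 ≤ q) (hT : IsT q) :
    ∑ Q ∈ S, n1 (χ Q * q * χ Q) = n1 q := by
  have hpos : ∀ Q, 0 ≤ χ Q * q * χ Q := by
    intro Q
    have h2 := star_left_conjugate_nonneg hq (χ Q)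
    rwa [(hχ Q).star_eq] at h2
  have hTQ : ∀ Q, IsT (χ Q * q * χ Q) := fun Q => (hT.mul_left _).mul_right _
  have h2 : ((∑ Q ∈ S, n1 (χ Q * q * χ Q) : ℝ) : ℂ) = ((n1 q : ℝ) : ℂ) := by
    rw [← trO_of_nonneg hT hq]
    push_cast
    have h3 : ∀ Q, ((n1 (χ Q * q * χ Q) : ℝ) : ℂ) = trO (q * (χ Q * χ Q)) := by
      intro Q
      rw [← trO_of_nonneg (hTQ Q) (hpos Q), mul_assoc, trO_mul_comm _ (hT.mul_right _), mul_assoc]
    rw [Finset.sum_congr rfl fun Q _ => h3 Q, ← trO_sum S _ fun Q _ => hT.mul_right _,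
      ← Finset.mul_sum, h1, mul_one]
  exact_mod_cast h2

end Main

end Pool.Q2.CELLAux

namespace Pool.Q2

open Pool.Bes Pool.Bes.ALGAux CELLAux
open scoped ComplexOrder InnerProductSpace ComplexConjugate

universe v

theorem blk_CELL (hCELA : Stmt_CELA.{v}) (hFAR : Stmt_FAR.{v}) (hGRD : Stmt_GRD.{v})
    (hCMM : Stmt_CMM.{v}) : Stmt_CELL.{v} := by
  classical
  obtain ⟨R, hR3, hR⟩ := exists_R
  set m : ℝ := (2 * R + 1) ^ 2 with hm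
  have hm1 : 1 ≤ m := by
    have : (0 : ℝ) ≤ R := Nat.cast_nonneg R
    nlinarith
  refine ⟨8 * m, by linarith, ?_⟩
  intro H _ _ _ N q h hN hq hq1 hqT hh hbr
  obtain ⟨S, χ, hχ, hsum, hG⟩ := hCELA H N h hN hh
  have hχs : ∀ Q, IsSelfAdjoint (χ Q) := fun Q => (hχ Q).1
  have hpos : ∀ Q, 0 ≤ χ Q * q * χ Q := by
    intro Q
    have h2 := star_left_conjugate_nonneg hq (χ Q)
    rwa [(hχs Q).star_eq] at h2
  have hTQ : ∀ Q, IsT (χ Q * q * χ Q) := fun Q => (hqT.mul_left _).mul_right _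
  have hnQ : ∀ Q, ‖χ Q * q * χ Q‖ ≤ 1 := by
    intro Q
    calc ‖χ Q * q * χ Q‖ ≤ ‖χ Q * q‖ * ‖χ Q‖ := norm_mul_le _ _
      _ ≤ (‖χ Q‖ * ‖q‖) * ‖χ Q‖ := mul_le_mul_of_nonneg_right (norm_mul_le _ _) (norm_nonneg _)
      _ ≤ (1 * 1) * 1 := by
          refine mul_le_mul ?_ (hχ Q).2.1 (norm_nonneg _) (by norm_num)
          exact mul_le_mul (hχ Q).2.1 hq1 (norm_nonneg _) zero_le_one
      _ = 1 := by norm_num
  have hc1 : (0 : ℝ) < 1 / (8 * m) := by positivity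
  choose n u hu hn hy using fun Q => one_cell hGRD (hpos Q) (hnQ Q) (hTQ Q) hc1
  -- the quadratic form
  have hmain : ∀ x : H, (⟪x, q x⟫_ℂ).re ≤ 1 / 2 * ‖x‖ ^ 2 +
      8 * m * ∑ Q ∈ S, ∑ k, ‖⟪χ Q (u Q k), x⟫_ℂ‖ ^ 2 := by
    intro x
    set f : ℤ × ℤ → ℝ := fun Q => (⟪χ Q x, (χ Q * q * χ Q) (χ Q x)⟫_ℂ).re with hf
    have hf0 : ∀ Q, 0 ≤ f Q := fun Q => inner_pos (hpos Q) _
    set kn : ℤ × ℤ → ℤ × ℤ → ℝ := fun Q Q' => if ‖dd Q Q'‖ ≤ R then 1 else 0 with hkn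
    set kf : ℤ × ℤ → ℤ × ℤ → ℝ := fun Q Q' =>
      if (R : ℝ) < ‖dd Q Q'‖ then 216 / ‖dd Q Q'‖ ^ 3 else 0 with hkf
    have hterm : ∀ Q Q', (⟪χ Q' x, (χ Q' * q * χ Q) (χ Q x)⟫_ℂ).re ≤
        kn Q Q' * ((f Q + f Q') / 2) + kf Q Q' * ((‖χ Q x‖ ^ 2 + ‖χ Q' x‖ ^ 2) / 2) := by
      intro Q Q'
      by_cases hd : ‖dd Q Q'‖ ≤ R
      · have e1 : kn Q Q' = 1 := if_pos hd
        have e2 : kf Q Q' = 0 := if_neg (not_lt.2 hd)
        rw [e1, e2, zero_mul, add_zero, one_mul]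
        have h3 := cs_half hq (χ Q' (χ Q' x)) (χ Q (χ Q x))
        have h4 : ∀ A B : ℤ × ℤ, ⟪χ B x, (χ B * q * χ A) (χ A x)⟫_ℂ =
            ⟪χ B (χ B x), q (χ A (χ A x))⟫_ℂ := by
          intro A B
          exact (inner_sa (hχs B) (χ B x) _).symm
        rw [hf]
        simp only [h4]
        linarith
      · have e1 : kn Q Q' = 0 := if_neg hd
        have e2 : kf Q Q' = 216 / ‖dd Q Q'‖ ^ 3 := if_pos (not_le.1 hd)
        rw [e1, e2, zero_mul, zero_add]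
        have h3 : (3 : ℝ) ≤ ‖dd Q Q'‖ := by
          have h5 : (3 : ℝ) ≤ R := by exact_mod_cast hR3
          exact h5.trans (not_le.1 hd).le
        have h4 := far_cell hFAR hCMM hN hh hχ hG hbr h3
        calc (⟪χ Q' x, (χ Q' * q * χ Q) (χ Q x)⟫_ℂ).re
            ≤ ‖⟪χ Q' x, (χ Q' * q * χ Q) (χ Q x)⟫_ℂ‖ := Complex.re_le_norm _
          _ ≤ ‖χ Q' x‖ * ‖(χ Q' * q * χ Q) (χ Q x)‖ := norm_inner_le_norm _ _
          _ ≤ ‖χ Q' x‖ * ((216 / ‖dd Q Q'‖ ^ 3) * ‖χ Q x‖) := by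
              refine mul_le_mul_of_nonneg_left ?_ (norm_nonneg _)
              exact (ContinuousLinearMap.le_opNorm _ _).trans
                (mul_le_mul_of_nonneg_right h4 (norm_nonneg _))
          _ = (216 / ‖dd Q Q'‖ ^ 3) * (‖χ Q' x‖ * ‖χ Q x‖) := by ring
          _ ≤ (216 / ‖dd Q Q'‖ ^ 3) * ((‖χ Q x‖ ^ 2 + ‖χ Q' x‖ ^ 2) / 2) := by
              refine mul_le_mul_of_nonneg_left ?_ (by positivity)
              nlinarith [sq_nonneg (‖χ Q x‖ - ‖χ Q' x‖)]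
    have hs1 : ∑ Q ∈ S, ∑ Q' ∈ S, kn Q Q' * ((f Q + f Q') / 2) ≤ m * ∑ Q ∈ S, f Q := by
      refine sym_sum S kn f m (fun a b => ?_) hf0 (fun a _ => ?_)
      · rw [hkn]
        simp only
        rw [dd_comm]
      · rw [hkn]
        simp only
        rw [← Finset.sum_filter, Finset.sum_const, nsmul_eq_mul, mul_one, hm]
        exact_mod_cast card_near R S a
    have hs2 : ∑ Q ∈ S, ∑ Q' ∈ S, kf Q Q' * ((‖χ Q x‖ ^ 2 + ‖χ Q' x‖ ^ 2) / 2) ≤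
        1 / 4 * ∑ Q ∈ S, ‖χ Q x‖ ^ 2 := by
      refine sym_sum S kf (fun Q => ‖χ Q x‖ ^ 2) (1 / 4) (fun a b => ?_)
        (fun a => sq_nonneg _) (fun a _ => ?_)
      · rw [hkf]
        simp only
        rw [dd_comm]
      · rw [hkf]
        simp only
        rw [← Finset.sum_filter]
        exact hR S a
    have hs3 : ∑ Q ∈ S, f Q ≤ 2 * ∑ Q ∈ S, ∑ k, ‖⟪χ Q (u Q k), x⟫_ℂ‖ ^ 2 +
        2 * (1 / (8 * m)) * ∑ Q ∈ S, ‖χ Q x‖ ^ 2 := by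
      rw [Finset.mul_sum, Finset.mul_sum, ← Finset.sum_add_distrib]
      refine Finset.sum_le_sum fun Q _ => ?_
      have h3 := hy Q (χ Q x)
      have h4 : ∀ k, ⟪χ Q (u Q k), x⟫_ℂ = ⟪u Q k, χ Q x⟫_ℂ := fun k => inner_sa (hχs Q) _ _
      simp only [h4]
      exact h3
    rw [sum_sq hχs hsum] at hs2 hs3
    have hform : (⟪x, q x⟫_ℂ).re ≤ m * ∑ Q ∈ S, f Q + 1 / 4 * ‖x‖ ^ 2 := by
      rw [form_cells hχs hsum q x, Complex.re_sum]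
      have h5 : ∑ Q ∈ S, (∑ Q' ∈ S, ⟪χ Q' x, (χ Q' * q * χ Q) (χ Q x)⟫_ℂ).re ≤
          ∑ Q ∈ S, ∑ Q' ∈ S, (kn Q Q' * ((f Q + f Q') / 2) +
            kf Q Q' * ((‖χ Q x‖ ^ 2 + ‖χ Q' x‖ ^ 2) / 2)) := by
        refine Finset.sum_le_sum fun Q _ => ?_
        rw [Complex.re_sum]
        exact Finset.sum_le_sum fun Q' _ => hterm Q Q'
      refine h5.trans ?_
      simp only [Finset.sum_add_distrib]
      linarith
    have h6 : m * ∑ Q ∈ S, f Q ≤ 2 * m * ∑ Q ∈ S, ∑ k, ‖⟪χ Q (u Q k), x⟫_ℂ‖ ^ 2 +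
        1 / 4 * ‖x‖ ^ 2 := by
      have h7 := mul_le_mul_of_nonneg_left hs3 (by linarith : (0 : ℝ) ≤ m)
      refine h7.trans (le_of_eq ?_)
      have : m ≠ 0 := by positivity
      field_simp
      ring
    have h8 : 0 ≤ ∑ Q ∈ S, ∑ k, ‖⟪χ Q (u Q k), x⟫_ℂ‖ ^ 2 :=
      Finset.sum_nonneg fun Q _ => Finset.sum_nonneg fun k _ => sq_nonneg _
    nlinarith
  -- the index set
  let ι := Σ Q : S, Fin (n Q.1)
  let eqv : ι ≃ Fin (Fintype.card ι) := Fintype.equivFin ι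
  let wf : ι → H := fun s => χ s.1.1 (u s.1.1 s.2)
  let cf : ι → ℂ := fun s => (h * s.1.1.1 : ℝ) + (h * s.1.1.2 : ℝ) * Complex.I
  have htr : ∀ F : ι → ℝ, ∑ k : Fin (Fintype.card ι), F (eqv.symm k) =
      ∑ Q : S, ∑ k : Fin (n Q.1), F ⟨Q, k⟩ := by
    intro F
    rw [eqv.symm.sum_comp F, Fintype.sum_sigma]
  have hat : ∀ F : ℤ × ℤ → ℝ, ∑ Q : S, F Q.1 = ∑ Q ∈ S, F Q := by
    intro F
    exact Finset.sum_coe_sort S F
  refine ⟨Fintype.card ι, fun k => wf (eqv.symm k), fun k => cf (eqv.symm k), ?_, ?_, ?_, ?_⟩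
  · have h1 : (Fintype.card ι : ℝ) = ∑ Q ∈ S, (n Q : ℝ) := by
      rw [Fintype.card_sigma]
      push_cast
      rw [← hat fun Q => (n Q : ℝ)]
      exact Finset.sum_congr rfl fun Q _ => by rw [Fintype.card_fin]
    rw [h1, ← sum_n1 hχs hsum hq hqT, Finset.mul_sum]
    refine Finset.sum_le_sum fun Q _ => ?_
    have h2 := hn Q
    rw [mul_one_div, div_le_iff₀ (by positivity)] at h2
    linarith
  · intro x
    rw [htr fun s => ‖⟪wf s, x⟫_ℂ‖ ^ 2, ← sum_sq hχs hsum x,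
      hat fun Q => ∑ k : Fin (n Q), ‖⟪χ Q (u Q k), x⟫_ℂ‖ ^ 2]
    refine Finset.sum_le_sum fun Q _ => ?_
    have h4 : ∀ k, ⟪χ Q (u Q k), x⟫_ℂ = ⟪u Q k, χ Q x⟫_ℂ := fun k => inner_sa (hχs Q) _ _
    simp only [h4]
    exact (hu Q).sum_inner_products_le (s := Finset.univ) (χ Q x)
  · intro e he x
    rw [htr fun s => ‖⟪dt e N (wf s) - ((ip e (cf s) : ℝ) : ℂ) • wf s, x⟫_ℂ‖ ^ 2,
      ← sum_sq hχs hsum x, Finset.mul_sum,
      hat fun Q => ∑ k : Fin (n Q), ‖⟪dt e N (χ Q (u Q k)) -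
        ((ip e ((h * Q.1 : ℝ) + (h * Q.2 : ℝ) * Complex.I) : ℝ) : ℂ) • χ Q (u Q k), x⟫_ℂ‖ ^ 2]
    refine Finset.sum_le_sum fun Q _ => ?_
    obtain ⟨G, hG1, hG2, hG3, hG4⟩ := hG Q e he
    have hc := hCMM H N hN
    have hs : star (dt e N) = dt e N := (hc.2.2.2.2.2.2.1 e).star_eq
    have hcomm : G * χ Q = χ Q * G := by
      have h2 := congrArg star hG4
      rw [star_mul, star_mul, star_sub, star_smul, star_one, hs, hG2.star_eq, (hχs Q).star_eq,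
        RCLike.star_def, Complex.conj_ofReal] at h2
      rw [← hG4, ← h2, sub_mul, mul_sub, (hc.1 _ (hχ Q).2.2).1 e, smul_mul_assoc, mul_smul_comm,
        one_mul, mul_one]
    have h4 : ∀ k, ⟪dt e N (χ Q (u Q k)) -
        ((ip e ((h * Q.1 : ℝ) + (h * Q.2 : ℝ) * Complex.I) : ℝ) : ℂ) • χ Q (u Q k), x⟫_ℂ =
        ⟪u Q k, G (χ Q x)⟫_ℂ := by
      intro k
      have h5 := congrArg (fun T : H →L[ℂ] H => T (u Q k)) hG4
      have h6 : dt e N (χ Q (u Q k)) -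
        ((ip e ((h * Q.1 : ℝ) + (h * Q.2 : ℝ) * Complex.I) : ℝ) : ℂ) • χ Q (u Q k) =
          G (χ Q (u Q k)) := h5
      have h7 : G (χ Q (u Q k)) = χ Q (G (u Q k)) :=
        congrArg (fun T : H →L[ℂ] H => T (u Q k)) hcomm
      rw [h6, h7, inner_sa (hχs Q), inner_sa hG2]
    simp only [h4]
    calc ∑ k, ‖⟪u Q k, G (χ Q x)⟫_ℂ‖ ^ 2 ≤ ‖G (χ Q x)‖ ^ 2 :=
          (hu Q).sum_inner_products_le (s := Finset.univ) (G (χ Q x))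
      _ ≤ (h * ‖χ Q x‖) ^ 2 := by
          refine pow_le_pow_left₀ (norm_nonneg _) ?_ 2
          exact (G.le_opNorm _).trans (mul_le_mul_of_nonneg_right hG1 (norm_nonneg _))
      _ = h ^ 2 * ‖χ Q x‖ ^ 2 := by ring
  · intro x
    rw [htr fun s => ‖⟪wf s, x⟫_ℂ‖ ^ 2, hat fun Q => ∑ k : Fin (n Q), ‖⟪χ Q (u Q k), x⟫_ℂ‖ ^ 2]
    exact hmain x

end Pool.Q2
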