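import Pool.Agent.Work.MP_8c7e5b_q2.Interface2

/-!
# MP_8c7e5b_an, Q2: block CLC

The comment of the block averages over `s`; a single translation is enough:
`V = T₀ B cj N (-τ e) d` with `τ → ∞`.
-/

open MeasureTheory Complex Filter Topology
open scoped ComplexOrder InnerProductSpace ComplexConjugate BoundedContinuousFunction

set_option autoImplicit false
set_option linter.unusedSectionVars false

universe v

namespace Pool.Q2

open Pool.Bes Pool.Bes.ALGAux Pool.Bes.AVAux

namespace CLCAux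

variable {H : Type v} [NormedAddCommGroup H] [InnerProductSpace ℂ H] [CompleteSpace H]

theorem dt_neg (s : ℂ) (N : H →L[ℂ] H) : dt (-s) N = -dt s N := by
  simp only [dt, map_neg]
  module

/-- `cj N s d - d` is trace class -/
theorem isT_cj_sub {N : H →L[ℂ] H} (hN : IsStarNormal N) (s : ℂ) (d : H →L[ℂ] H)
    (hd : IsT (br (dt s N) d)) : IsT (cj N s d - d) := by
  obtain ⟨h0, _, _, _, hc, hcom, _, hder⟩ := sEx H N hN
  have hX : op (toS (br (dt s N) d)) = br (dt s N) d := op_toS hd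
  let g : ℝ → S1 H := fun c => sw (ex N (c * s)) (ex N (c * -s)) (toS (br (dt s N) d))
  have hg : Continuous g :=
    continuous_sw (hc.comp (continuous_ofReal.mul continuous_const))
      (hc.comp (continuous_ofReal.mul continuous_const)) continuous_const
  have hopg : ∀ c, op (g c) = ex N (c * s) * br (dt s N) d * ex N (c * -s) := by
    intro c
    rw [op_sw, hX]
  have hF : ∀ c : ℝ, HasDerivAt (fun c : ℝ => ex N (c * s) * d * ex N (c * -s))
      (Complex.I • op (g c)) c := by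
    intro c
    have h1 := (hder s c).fun_mul (hasDerivAt_const c d)
    have h2 := h1.fun_mul (hder (-s) c)
    refine h2.congr_deriv ?_
    rw [hopg, dt_neg, (hcom (c * s) s).eq]
    unfold br
    simp only [mul_zero, add_zero, mul_sub, sub_mul, smul_sub, neg_mul, mul_neg, smul_neg,
      smul_mul_assoc, mul_smul_comm, mul_assoc]
    abel
  have hint : ∫ c in (0 : ℝ)..1, Complex.I • op (g c) = cj N s d - d := by
    rw [intervalIntegral.integral_eq_sub_of_hasDerivAt (fun c _ => hF c)]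
    · simp only [ofReal_one, one_mul, ofReal_zero, zero_mul, h0, mul_one]
      rfl
    · exact (((op (H := H)).continuous.comp hg).fun_const_smul Complex.I).intervalIntegrable _ _
  refine ⟨Complex.I • ∫ c in (0 : ℝ)..1, g c, ?_⟩
  rw [map_smul, ← hint, intervalIntegral.integral_smul,
    ← ContinuousLinearMap.intervalIntegral_comp_comm _ (hg.intervalIntegrable _ _)]

theorem norm_cj_le {N : H →L[ℂ] H} (hN : IsStarNormal N) (s : ℂ) (b : H →L[ℂ] H) :
    ‖cj N s b‖ ≤ ‖b‖ := by
  obtain ⟨_, _, _, hn, _⟩ := sEx H N hN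
  unfold cj
  have h1 := norm_mul_le (ex N s * b) (ex N (-s))
  have h2 := norm_mul_le (ex N s) b
  have h3 := hn s
  have h4 := hn (-s)
  have h5 : ‖ex N s * b‖ ≤ ‖b‖ := by
    refine h2.trans ?_
    have := mul_le_mul_of_nonneg_right h3 (norm_nonneg b)
    rwa [one_mul] at this
  refine h1.trans ?_
  have h6 := mul_le_mul h5 h4 (norm_nonneg _) (norm_nonneg _)
  rwa [mul_one] at h6

/-- a bounded family which tends to `0` strongly, applied to a trace class operator -/
theorem tendsto_n1 {K : H →L[ℂ] H} (hK : IsT K) {A : ℝ → H →L[ℂ] H} {M : ℝ}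
    (hA : ∀ t, ‖A t‖ ≤ M) (h : ∀ ψ : H, Tendsto (fun t : ℝ => A t ψ) atTop (𝓝 0)) :
    Tendsto (fun t : ℝ => n1 (A t * K)) atTop (𝓝 0) := by
  have hM : 0 ≤ M := (norm_nonneg _).trans (hA 0)
  rw [Metric.tendsto_atTop]
  intro ε hε
  obtain ⟨n, x, y, hxy⟩ := exists_fin_near hK (ε / (2 * (M + 1))) (by positivity)
  have h1 : Tendsto (fun t : ℝ => ∑ i, ‖A t (x i)‖ * ‖y i‖) atTop (𝓝 0) := by
    have h2 : Tendsto (fun t : ℝ => ∑ i, ‖A t (x i)‖ * ‖y i‖) atTop
        (𝓝 (∑ i : Fin n, ‖(0 : H)‖ * ‖y i‖)) :=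
      tendsto_finsetSum _ fun i _ => (h (x i)).norm.mul_const _
    simpa using h2
  rw [Metric.tendsto_atTop] at h1
  obtain ⟨T, hT⟩ := h1 (ε / 2) (by positivity)
  refine ⟨T, fun t ht => ?_⟩
  have h2 := hT t ht
  rw [Real.dist_eq, sub_zero] at h2 ⊢
  rw [abs_of_nonneg (n1_nonneg _)]
  rw [abs_of_nonneg (Finset.sum_nonneg fun i _ => by positivity)] at h2
  have hf : IsT (∑ i, r1 (x i) (y i)) := IsT.sum _ _ fun i _ => isT_r1 _ _
  have h3 : A t * K = A t * (K - ∑ i, r1 (x i) (y i)) + ∑ i, r1 (A t (x i)) (y i) := by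
    rw [mul_sub]
    have h4 : A t * ∑ i, r1 (x i) (y i) = ∑ i, r1 (A t (x i)) (y i) := by
      rw [Finset.mul_sum]
      refine Finset.sum_congr rfl fun i _ => ?_
      refine ContinuousLinearMap.ext fun z => ?_
      change A t (⟪y i, z⟫_ℂ • x i) = ⟪y i, z⟫_ℂ • A t (x i)
      rw [map_smul]
    rw [h4]
    abel
  have hf' : IsT (∑ i, r1 (A t (x i)) (y i)) := IsT.sum _ _ fun i _ => isT_r1 _ _
  rw [h3]
  refine (n1_add_le ((hK.sub hf).mul_left _) hf').trans_lt ?_
  have h5 : n1 (A t * (K - ∑ i, r1 (x i) (y i))) ≤ M * (ε / (2 * (M + 1))) := by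
    refine (n1_mul_left_le _ (hK.sub hf)).trans ?_
    exact mul_le_mul (hA t) hxy.le (n1_nonneg _) hM
  have h6 : n1 (∑ i, r1 (A t (x i)) (y i)) ≤ ∑ i, ‖A t (x i)‖ * ‖y i‖ := by
    refine (n1_sum_le _ _ fun i _ => isT_r1 _ _).trans ?_
    exact Finset.sum_le_sum fun i _ => n1_r1_le _ _
  have h7 : M * (ε / (2 * (M + 1))) ≤ ε / 2 := by
    rw [mul_div_assoc', div_le_div_iff₀ (by positivity) (by positivity)]
    nlinarith
  linarith

end CLCAux

open CLCAux in
theorem blk_CLC (hCMM : Stmt_CMM.{v}) (hKMB : Stmt_KMB.{v}) : Stmt_CLC.{v} := by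
  intro H _ _ _ N B d T₀ e e' hN hB hd hT hTc hlim
  obtain ⟨_, _, _, _, _, _, _, _, _, _, hA1, _⟩ := hCMM H N hN
  obtain ⟨hK1, _⟩ := hKMB H N hN
  obtain ⟨h0, hadd, hst, hn, hc, hcom, _, hder⟩ := sEx H N hN
  have hZB : IsT (br (dt e' N) B) := ((hA1 B hB).1 e').1
  have hZd : IsT (br (dt e' N) d) := ((hA1 d hd).1 e').1
  have hlim2 := tendsto_n1 hZd (A := fun t : ℝ => cj N (t * e) B) (M := ‖B‖)
    (fun t => norm_cj_le hN _ _) hlim
  have hlim3 : Tendsto (fun t : ℝ => n1 (T₀ * br (dt e' N) B) * ‖d‖ +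
      n1 (cj N (t * e) B * br (dt e' N) d)) atTop (𝓝 (n1 (T₀ * br (dt e' N) B) * ‖d‖)) := by
    have h1 := hlim2.const_add (n1 (T₀ * br (dt e' N) B) * ‖d‖)
    rwa [add_zero] at h1
  refine ge_of_tendsto' hlim3 fun t => ?_
  -- the comparison operator
  have hexc : ∀ s : ℂ, dt e' N * ex N s = ex N s * dt e' N := fun s => (hcom s e').eq
  have hneg : ∀ s : ℂ, ex N (-s) * ex N s = 1 := fun s => by
    rw [← hadd, neg_add_cancel, h0]
  have hDt : IsT (cj N (-(t * e)) d - d) := isT_cj_sub hN _ d ((hA1 d hd).1 _).1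
  have hVb : IsT (T₀ * B * cj N (-(t * e)) d - T₀ * B * d) := by
    rw [← mul_sub]
    exact hDt.mul_left _
  have hbrD : br (dt e' N) (cj N (-(t * e)) d) = cj N (-(t * e)) (br (dt e' N) d) := by
    unfold br cj
    have h1 : dt e' N * (ex N (-(t * e)) * d * ex N (- -(t * e))) =
        ex N (-(t * e)) * (dt e' N * d) * ex N (- -(t * e)) := by
      rw [← mul_assoc, ← mul_assoc, hexc]
      simp only [mul_assoc]
    have h2 : ex N (-(t * e)) * d * ex N (- -(t * e)) * dt e' N =
        ex N (-(t * e)) * (d * dt e' N) * ex N (- -(t * e)) := by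
      rw [mul_assoc, ← hexc]
      simp only [mul_assoc]
    rw [h1, h2, ← sub_mul, ← mul_sub]
  have hbr : br (dt e' N) (T₀ * B * cj N (-(t * e)) d) =
      T₀ * br (dt e' N) B * cj N (-(t * e)) d +
        T₀ * (B * cj N (-(t * e)) (br (dt e' N) d)) := by
    rw [← hbrD]
    unfold br
    have h1 : dt e' N * (T₀ * B * cj N (-(t * e)) d) =
        T₀ * (dt e' N * B) * cj N (-(t * e)) d := by
      rw [← mul_assoc, ← mul_assoc, hTc]
      simp only [mul_assoc]
    rw [h1]
    simp only [mul_sub, sub_mul, mul_assoc]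
    abel
  -- the second term
  have hKt : IsT (cj N (-(t * e)) (br (dt e' N) d)) := (hZd.mul_left _).mul_right _
  have hsec : B * cj N (-(t * e)) (br (dt e' N) d) =
      ex N (-(t * e)) * (cj N (t * e) B * br (dt e' N) d) * ex N (t * e) := by
    unfold cj
    rw [neg_neg]
    calc B * (ex N (-(t * e)) * br (dt e' N) d * ex N (t * e))
        = 1 * B * ex N (-(t * e)) * br (dt e' N) d * ex N (t * e) := by
          rw [one_mul]; simp only [mul_assoc]
      _ = _ := by
          rw [← hneg (t * e)]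
          simp only [mul_assoc]
  have hI1 : IsT (T₀ * br (dt e' N) B) := hZB.mul_left _
  have hI2 : IsT (cj N (t * e) B * br (dt e' N) d) := hZd.mul_left _
  have hI3 : IsT (B * cj N (-(t * e)) (br (dt e' N) d)) := hKt.mul_left _
  have hb1 : n1 (T₀ * br (dt e' N) B * cj N (-(t * e)) d) ≤ n1 (T₀ * br (dt e' N) B) * ‖d‖ := by
    refine (n1_mul_right_le _ hI1).trans ?_
    rw [mul_comm]
    exact mul_le_mul_of_nonneg_left (norm_cj_le hN _ _) (n1_nonneg _)
  have hb2 : n1 (T₀ * (B * cj N (-(t * e)) (br (dt e' N) d))) ≤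
      n1 (cj N (t * e) B * br (dt e' N) d) := by
    refine (n1_mul_left_le _ hI3).trans ?_
    have h1 : n1 (B * cj N (-(t * e)) (br (dt e' N) d)) ≤
        n1 (cj N (t * e) B * br (dt e' N) d) := by
      rw [hsec]
      refine (n1_mul_right_le _ (hI2.mul_left _)).trans ?_
      have h2 := n1_mul_left_le (ex N (-(t * e))) hI2
      have h3 := hn (t * e)
      have h4 := hn (-(t * e))
      have h5 : ‖ex N (-(t * e))‖ * n1 (cj N (t * e) B * br (dt e' N) d) ≤
          n1 (cj N (t * e) B * br (dt e' N) d) := by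
        have := mul_le_mul_of_nonneg_right h4 (n1_nonneg (cj N (t * e) B * br (dt e' N) d))
        rwa [one_mul] at this
      have h6 := mul_le_mul_of_nonneg_right h3
        (n1_nonneg (ex N (-(t * e)) * (cj N (t * e) B * br (dt e' N) d)))
      rw [one_mul] at h6
      linarith
    have h7 := mul_le_mul_of_nonneg_right hT
      (n1_nonneg (B * cj N (-(t * e)) (br (dt e' N) d)))
    rw [one_mul] at h7
    linarith
  have hIV : IsT (br (dt e' N) (T₀ * B * cj N (-(t * e)) d)) := by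
    rw [hbr]
    exact (hI1.mul_right _).add (hI3.mul_left _)
  refine ((hK1 e' (T₀ * B * d) _ hVb hIV).2).trans ?_
  rw [hbr]
  exact (n1_add_le (hI1.mul_right _) (hI3.mul_left _)).trans (add_le_add hb1 hb2)

end Pool.Q2
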