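import Pool.Agent.Work.MP_8c7e5b_q2.Interface2

/-!
# MP_8c7e5b_an, Q2: block CLE (the cyclic part has small essential trace norm)
-/

open MeasureTheory Complex Filter Topology
open scoped ComplexOrder InnerProductSpace ComplexConjugate BoundedContinuousFunction

set_option autoImplicit false
set_option linter.unusedSectionVars false

universe v

namespace Pool.Q2

open Pool.Bes Pool.Bes.ALGAux Pool.Bes.AVAux

namespace CLEAux

/-! ### Tent functions -/

/-- the clamp `max 0 (min 1 (t + 1))` -/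
noncomputable def cc (t : ℝ) : ℝ := max 0 (min 1 (t + 1))

/-- the tent function -/
noncomputable def tent (t : ℝ) : ℝ := cc t - cc (t - 1)

theorem continuous_cc : Continuous cc := by unfold cc; fun_prop

theorem continuous_tent : Continuous tent := by
  unfold tent
  exact continuous_cc.sub (continuous_cc.comp (continuous_id.sub continuous_const))

theorem cc_mono {s t : ℝ} (h : s ≤ t) : cc s ≤ cc t :=
  max_le_max le_rfl (min_le_min le_rfl (by linarith))

theorem cc_one {t : ℝ} (h : 0 ≤ t) : cc t = 1 := by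
  unfold cc
  rw [min_eq_left (by linarith), max_eq_right zero_le_one]

theorem cc_zero {t : ℝ} (h : t ≤ -1) : cc t = 0 := by
  unfold cc
  exact max_eq_left ((min_le_right _ _).trans (by linarith))

theorem tent_nonneg (t : ℝ) : 0 ≤ tent t := sub_nonneg.2 (cc_mono (by linarith))

theorem tent_zero {t : ℝ} (h : 1 ≤ |t|) : tent t = 0 := by
  unfold tent
  rcases le_abs'.1 h with h1 | h1
  · rw [cc_zero h1, cc_zero (by linarith), sub_zero]
  · rw [cc_one (by linarith), cc_one (by linarith), sub_self]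

theorem sum_tent (t : ℝ) (m : ℕ) :
    ∑ j ∈ Finset.range m, tent (t - j) = cc t - cc (t - m) := by
  have h := Finset.sum_range_sub' (fun j : ℕ => cc (t - j)) m
  simp only [Nat.cast_zero, sub_zero] at h
  rw [← h]
  refine Finset.sum_congr rfl fun j _ => ?_
  unfold tent
  congr 2
  push_cast
  ring

theorem sum_tent_one {t : ℝ} {m : ℕ} (h0 : 0 ≤ t) (h1 : t - m ≤ -1) :
    ∑ j ∈ Finset.range m, tent (t - j) = 1 := by
  rw [sum_tent, cc_one h0, cc_zero h1, sub_zero]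

theorem norm_exp_sub_le (a b : ℝ) :
    ‖Complex.exp (Complex.I * a) - Complex.exp (Complex.I * b)‖ ≤ |a - b| := by
  have h := EXB.norm_ch_sub_le (a : ℂ) (b : ℂ) 1
  simp only [ch, ip, Complex.ofReal_re, Complex.ofReal_im, Complex.one_re, Complex.one_im,
    mul_one, mul_zero, add_zero, norm_one] at h
  refine h.trans (le_of_eq ?_)
  rw [← Complex.ofReal_sub, Complex.norm_real, Real.norm_eq_abs]

section

variable {H : Type v} [NormedAddCommGroup H] [InnerProductSpace ℂ H] [CompleteSpace H]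

/-! ### The calculus -/

theorem fe_zero (hF : Stmt_FEX.{v}) (N : H →L[ℂ] H) (e : ℂ) (hN : IsStarNormal N) :
    fe e (fun _ => 0) N = 0 := by
  obtain ⟨-, -, -, -, -, -, f7, -⟩ := hF H N e hN
  have h := f7 (fun _ => 0) 0 continuous_const le_rfl (fun x _ => by simp)
  exact norm_le_zero_iff.1 h

theorem fe_sum (hF : Stmt_FEX.{v}) (N : H →L[ℂ] H) (e : ℂ) (hN : IsStarNormal N) {ι : Type*}
    (s : Finset ι) (f : ι → ℝ → ℂ) (hf : ∀ i, Continuous (f i)) :
    fe e (fun x => ∑ i ∈ s, f i x) N = ∑ i ∈ s, fe e (f i) N := by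
  classical
  obtain ⟨f1, -⟩ := hF H N e hN
  induction s using Finset.induction_on with
  | empty => simp only [Finset.sum_empty]; exact fe_zero hF N e hN
  | insert a s ha ih =>
    simp only [Finset.sum_insert ha]
    rw [← ih]
    exact (f1 (f a) (fun x => ∑ i ∈ s, f i x) (hf a)
      (continuous_finsetSum _ fun i _ => hf i)).1

theorem fe_congr (hF : Stmt_FEX.{v}) (N : H →L[ℂ] H) (e : ℂ) (hN : IsStarNormal N)
    {g k : ℝ → ℂ} (hg : Continuous g) (hk : Continuous k)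
    (h : ∀ x ∈ Set.Icc (-(‖e‖ * ‖N‖)) (‖e‖ * ‖N‖), g x = k x) : fe e g N = fe e k N := by
  obtain ⟨f1, f2, -, -, -, -, f7, -⟩ := hF H N e hN
  have h1 := f7 (fun x => g x + (-1) * k x) 0 (hg.add (continuous_const.mul hk)) le_rfl
    (fun x hx => by rw [h x hx]; simp)
  have h2 := norm_le_zero_iff.1 h1
  rw [(f1 g (fun x => (-1) * k x) hg (continuous_const.mul hk)).1, f2 (-1) k hk] at h2
  have h3 : fe e g N + (-1 : ℂ) • fe e k N = fe e g N - fe e k N := by module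
  rw [h3] at h2
  exact sub_eq_zero.1 h2

/-! ### Projections of finite rank -/

theorem mul_r1 (A : H →L[ℂ] H) (x y : H) : A * r1 x y = r1 (A x) y := by
  ext z
  show A (r1 x y z) = r1 (A x) y z
  rw [r1_apply, r1_apply, map_smul]

theorem n1_sum_r1_le {ι : Type*} (s : Finset ι) (x y : ι → H) :
    IsT (∑ k ∈ s, r1 (x k) (y k)) ∧ n1 (∑ k ∈ s, r1 (x k) (y k)) ≤ ∑ k ∈ s, ‖x k‖ * ‖y k‖ :=
  ⟨IsT.sum _ _ fun _ _ => isT_r1 _ _, (n1_sum_le _ _ fun _ _ => isT_r1 _ _).trans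
    (Finset.sum_le_sum fun _ _ => n1_r1_le _ _)⟩

theorem exists_prj {ι : Type} [Fintype ι] (w : ι → H) :
    ∃ P : H →L[ℂ] H, ‖1 - P‖ ≤ 1 ∧ (∀ p, P (w p) = w p) ∧
      ∀ D : H →L[ℂ] H, IsT (P * D) ∧ n1 (P * D) ≤ Fintype.card ι * ‖D‖ := by
  classical
  set L : Submodule ℂ H := Submodule.span ℂ (Set.range w) with hL
  have : FiniteDimensional ℂ L := FiniteDimensional.span_of_finite ℂ (Set.finite_range w)
  have hfr : Module.finrank ℂ L ≤ Fintype.card ι := finrank_range_le_card w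
  refine ⟨L.starProjection, ?_, ?_, ?_⟩
  · have h1 : (1 : H →L[ℂ] H) - L.starProjection = Lᗮ.starProjection := by
      rw [Submodule.starProjection_orthogonal]
      rfl
    rw [h1]
    exact Submodule.starProjection_norm_le _
  · intro p
    exact Submodule.starProjection_eq_self_iff.2 (Submodule.subset_span ⟨p, rfl⟩)
  · intro D
    rw [proj_mul]
    obtain ⟨h1, h2⟩ := n1_sum_r1_le Finset.univ (fun i => (stdOrthonormalBasis ℂ L i : H))
      (fun i => star D (stdOrthonormalBasis ℂ L i : H))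
    refine ⟨h1, h2.trans ?_⟩
    have h3 : ∀ i ∈ (Finset.univ : Finset (Fin (Module.finrank ℂ L))),
        ‖(stdOrthonormalBasis ℂ L i : H)‖ * ‖star D (stdOrthonormalBasis ℂ L i : H)‖ ≤ ‖D‖ := by
      intro i _
      have h4 : ‖(stdOrthonormalBasis ℂ L i : H)‖ = 1 := by
        exact (stdOrthonormalBasis ℂ L).orthonormal.1 i
      have h5 := (star D).le_opNorm (stdOrthonormalBasis ℂ L i : H)
      rw [h4, mul_one, norm_star] at h5
      rw [h4, one_mul]
      exact h5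
    refine (Finset.sum_le_sum h3).trans ?_
    rw [Finset.sum_const, Finset.card_univ, Fintype.card_fin, nsmul_eq_mul]
    exact mul_le_mul_of_nonneg_right (by exact_mod_cast hfr) (norm_nonneg _)

/-! ### The averaged conjugation -/

/-- `∫₀¹ φ(s) cj N (s ξ) K ds` -/
noncomputable def DD (N : H →L[ℂ] H) (ξ : ℂ) (φ : ℝ → ℝ) (K : H →L[ℂ] H) : H →L[ℂ] H :=
  ∫ s in (0 : ℝ)..1, φ s • cj N (s * ξ) K

theorem continuous_cj (N : H →L[ℂ] H) (ξ : ℂ) (K : H →L[ℂ] H) :
    Continuous fun s : ℝ => cj N (s * ξ) K := by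
  unfold cj
  have h := EXB.continuous_ex N
  refine ((h.comp ?_).mul continuous_const).mul (h.comp ?_)
  · exact continuous_ofReal.mul continuous_const
  · exact (continuous_ofReal.mul continuous_const).neg

theorem continuous_int (N : H →L[ℂ] H) (ξ : ℂ) (K : H →L[ℂ] H) {φ : ℝ → ℝ}
    (hφ : Continuous φ) : Continuous fun s : ℝ => φ s • cj N (s * ξ) K :=
  hφ.smul (continuous_cj N ξ K)

theorem continuous_sw' (N : H →L[ℂ] H) (ξ : ℂ) (X : S1 H) :
    Continuous fun s : ℝ => sw (ex N (s * ξ)) (ex N (-(s * ξ))) X := by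
  have h := EXB.continuous_ex N
  refine continuous_sw (h.comp ?_) (h.comp ?_) continuous_const
  · exact continuous_ofReal.mul continuous_const
  · exact (continuous_ofReal.mul continuous_const).neg

theorem DD_op (N : H →L[ℂ] H) (ξ : ℂ) {φ : ℝ → ℝ} (hφ : Continuous φ) (X : S1 H) :
    DD N ξ φ (op X) = op (∫ s in (0 : ℝ)..1, φ s • sw (ex N (s * ξ)) (ex N (-(s * ξ))) X) := by
  have h1 : IntervalIntegrable
      (fun s : ℝ => φ s • sw (ex N (s * ξ)) (ex N (-(s * ξ))) X) volume 0 1 :=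
    (hφ.smul (continuous_sw' N ξ X)).intervalIntegrable _ _
  have h2 := ContinuousLinearMap.intervalIntegral_comp_comm (op (H := H)) h1
  rw [← h2]
  unfold DD
  refine intervalIntegral.integral_congr fun s _ => ?_
  show φ s • cj N (s * ξ) (op X) = op (φ s • sw (ex N (s * ξ)) (ex N (-(s * ξ))) X)
  have h3 : op (φ s • sw (ex N (s * ξ)) (ex N (-(s * ξ))) X) =
      op (((φ s : ℝ) : ℂ) • sw (ex N (s * ξ)) (ex N (-(s * ξ))) X) := rfl
  rw [h3, map_smul, op_sw]
  rfl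

theorem isT_DD (N : H →L[ℂ] H) (ξ : ℂ) {φ : ℝ → ℝ} (hφ : Continuous φ) {K : H →L[ℂ] H}
    (hK : IsT K) : IsT (DD N ξ φ K) := by
  rw [← op_toS hK, DD_op N ξ hφ]
  exact isT_op _

/-- trace norm bound for the averages -/
theorem n1_DD_le (N : H →L[ℂ] H) (ξ : ℂ) {K : H →L[ℂ] H} (hK : IsT K) (Q : H →L[ℂ] H) {C : ℝ}
    (hC : ∀ s : ℝ, 0 ≤ s → s ≤ 1 → n1 (Q * cj N (s * ξ) K) ≤ C) :
    n1 (Q * DD N ξ (fun _ => 1) K) ≤ C := by
  have h0 : DD N ξ (fun _ => 1) K =
      op (∫ s in (0 : ℝ)..1, sw (ex N (s * ξ)) (ex N (-(s * ξ))) (toS K)) := by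
    conv_lhs => rw [← op_toS hK]
    rw [DD_op N ξ continuous_const]
    simp only [one_smul]
  rw [h0, ← op_lm, n1_op]
  have h1 : IntervalIntegrable
      (fun s : ℝ => sw (ex N (s * ξ)) (ex N (-(s * ξ))) (toS K)) volume 0 1 :=
    (continuous_sw' N ξ _).intervalIntegrable _ _
  rw [← ContinuousLinearMap.intervalIntegral_comp_comm (lm Q) h1]
  have h2 : ∀ s ∈ Set.uIoc (0 : ℝ) 1,
      ‖lm Q (sw (ex N (s * ξ)) (ex N (-(s * ξ))) (toS K))‖ ≤ C := by
    intro s hs
    rw [Set.uIoc_of_le zero_le_one] at hs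
    have h3 := hC s hs.1.le hs.2
    have h4 : Q * cj N (s * ξ) K = op (lm Q (sw (ex N (s * ξ)) (ex N (-(s * ξ))) (toS K))) := by
      rw [op_lm, op_sw, op_toS hK]
      rfl
    rw [h4, n1_op] at h3
    exact h3
  have h5 := intervalIntegral.norm_integral_le_of_norm_le_const h2
  simpa using h5

theorem DD_add (N : H →L[ℂ] H) (ξ : ℂ) (K K' : H →L[ℂ] H) :
    DD N ξ (fun _ => 1) (K + K') = DD N ξ (fun _ => 1) K + DD N ξ (fun _ => 1) K' := by
  unfold DD
  rw [← intervalIntegral.integral_add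
    ((continuous_int N ξ K continuous_const).intervalIntegrable _ _)
    ((continuous_int N ξ K' continuous_const).intervalIntegrable _ _)]
  refine intervalIntegral.integral_congr fun s _ => ?_
  show (1 : ℝ) • cj N (s * ξ) (K + K') = (1 : ℝ) • cj N (s * ξ) K + (1 : ℝ) • cj N (s * ξ) K'
  unfold cj
  simp only [one_smul, mul_add, add_mul]

theorem hasDerivAt_cj (N : H →L[ℂ] H) (hN : IsStarNormal N) (ξ : ℂ) (b : H →L[ℂ] H) (s : ℝ) :
    HasDerivAt (fun s : ℝ => cj N (s * ξ) b) (Complex.I • cj N (s * ξ) (br (dt ξ N) b)) s := by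
  have h1 := EXB.hasDerivAt_ex N hN ξ s
  have h2 : HasDerivAt (fun c : ℝ => ex N (-((c : ℂ) * ξ)))
      ((-1 : ℝ) • (Complex.I • (dt ξ N * ex N (-((s : ℂ) * ξ))))) s := by
    have h3 := EXB.hasDerivAt_ex N hN ξ (-s)
    have h4 : HasDerivAt (fun c : ℝ => -c) (-1) s := (hasDerivAt_id s).neg
    have h5 : HasDerivAt (fun c : ℝ => ex N (((-c : ℝ) : ℂ) * ξ))
      ((-1 : ℝ) • (Complex.I • (dt ξ N * ex N (((-s : ℝ) : ℂ) * ξ)))) s :=
      HasDerivAt.scomp s h3 h4
    have e : ∀ c : ℝ, (((-c : ℝ) : ℂ) * ξ) = -((c : ℂ) * ξ) := by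
      intro c; push_cast; ring
    simp only [e] at h5
    exact h5
  have h6 := (h1.fun_mul (hasDerivAt_const s b)).fun_mul h2
  refine h6.congr_deriv ?_
  have c1 := (EXB.commute_dt_ex N hN (s * ξ) ξ).eq
  unfold cj br
  rw [c1]
  simp only [mul_zero, add_zero, neg_smul, one_smul, mul_sub, sub_mul, smul_sub, mul_neg,
    smul_mul_assoc, mul_smul_comm, mul_assoc]
  abel

theorem norm_cj_le (N : H →L[ℂ] H) (s : ℂ) (b : H →L[ℂ] H) : ‖cj N s b‖ ≤ ‖b‖ := by
  unfold cj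
  have h1 := EXB.norm_ex_le N s
  have h2 := EXB.norm_ex_le N (-s)
  calc ‖ex N s * b * ex N (-s)‖ ≤ ‖ex N s * b‖ * ‖ex N (-s)‖ := norm_mul_le _ _
    _ ≤ (‖ex N s‖ * ‖b‖) * ‖ex N (-s)‖ := by gcongr; exact norm_mul_le _ _
    _ ≤ (1 * ‖b‖) * 1 := by gcongr
    _ = ‖b‖ := by ring

theorem cj_zero (N : H →L[ℂ] H) (hN : IsStarNormal N) (b : H →L[ℂ] H) : cj N 0 b = b := by
  unfold cj
  rw [neg_zero, EXB.ex_zero N hN, one_mul, mul_one]

/-- the commutator with the average -/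
theorem br_DD (N : H →L[ℂ] H) (hN : IsStarNormal N) (ξ e : ℂ) (b : H →L[ℂ] H) :
    br (dt e N) (DD N ξ (fun _ => 1) b) = DD N ξ (fun _ => 1) (br (dt e N) b) := by
  set L : (H →L[ℂ] H) →L[ℂ] (H →L[ℂ] H) := ContinuousLinearMap.mul ℂ (H →L[ℂ] H) (dt e N) -
    (ContinuousLinearMap.mul ℂ (H →L[ℂ] H)).flip (dt e N) with hL
  have h1 : ∀ x, L x = br (dt e N) x := fun x => rfl
  rw [← h1]
  unfold DD
  rw [← ContinuousLinearMap.intervalIntegral_comp_comm L
    ((continuous_int N ξ b continuous_const).intervalIntegrable _ _)]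
  refine intervalIntegral.integral_congr fun s _ => ?_
  show L ((1 : ℝ) • cj N (s * ξ) b) = (1 : ℝ) • cj N (s * ξ) (br (dt e N) b)
  rw [one_smul, one_smul, h1]
  have c1 := (EXB.commute_dt_ex N hN (s * ξ) e).eq
  have c2 := (EXB.commute_dt_ex N hN (-(s * ξ)) e).eq
  unfold cj br
  rw [mul_sub, sub_mul, ← mul_assoc, ← mul_assoc, c1]
  congr 1
  simp only [mul_assoc]
  rw [c2]

/-- fundamental theorem: the commutator is small in norm -/
theorem br_DD_norm (N : H →L[ℂ] H) (hN : IsStarNormal N) (ξ : ℂ) (b : H →L[ℂ] H) :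
    ‖DD N ξ (fun _ => 1) (br (dt ξ N) b)‖ ≤ 2 * ‖b‖ := by
  have h1 : ∫ s in (0 : ℝ)..1, Complex.I • cj N (s * ξ) (br (dt ξ N) b) =
      cj N ((1 : ℝ) * ξ) b - cj N ((0 : ℝ) * ξ) b :=
    intervalIntegral.integral_eq_sub_of_hasDerivAt (fun s _ => hasDerivAt_cj N hN ξ b s)
      ((continuous_cj N ξ _).const_smul Complex.I |>.intervalIntegrable _ _)
  have h2 : ∫ s in (0 : ℝ)..1, Complex.I • cj N (s * ξ) (br (dt ξ N) b) =
      Complex.I • DD N ξ (fun _ => 1) (br (dt ξ N) b) := by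
    unfold DD
    rw [← intervalIntegral.integral_smul]
    simp only [one_smul]
  have h3 : ‖Complex.I • DD N ξ (fun _ => 1) (br (dt ξ N) b)‖ ≤ 2 * ‖b‖ := by
    rw [← h2, h1]
    refine (norm_sub_le _ _).trans ?_
    have := norm_cj_le N ((1 : ℝ) * ξ) b
    have := norm_cj_le N ((0 : ℝ) * ξ) b
    linarith
  rwa [norm_smul, Complex.norm_I, one_mul] at h3

/-- the average differs from `b` by a trace class operator -/
theorem isT_DD_sub (N : H →L[ℂ] H) (hN : IsStarNormal N) (ξ : ℂ) (b : H →L[ℂ] H)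
    (hb : IsT (br (dt ξ N) b)) : IsT (DD N ξ (fun _ => 1) b - b) := by
  have hd : ∀ s : ℝ, HasDerivAt (fun s : ℝ => (1 - s) • cj N (s * ξ) b)
      ((1 - s) • (Complex.I • cj N (s * ξ) (br (dt ξ N) b)) + (-1 : ℝ) • cj N (s * ξ) b) s := by
    intro s
    have h4 : HasDerivAt (fun c : ℝ => 1 - c) (-1) s := by
      simpa using (hasDerivAt_id s).const_sub 1
    exact h4.smul (hasDerivAt_cj N hN ξ b s)
  have hc1 : Continuous fun s : ℝ => (1 - s) • (Complex.I • cj N (s * ξ) (br (dt ξ N) b)) :=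
    (continuous_const.sub continuous_id).smul ((continuous_cj N ξ _).const_smul Complex.I)
  have hc2 : Continuous fun s : ℝ => (-1 : ℝ) • cj N (s * ξ) b :=
    (continuous_cj N ξ b).const_smul (-1 : ℝ)
  have h1 := intervalIntegral.integral_eq_sub_of_hasDerivAt (fun s _ => hd s)
    ((hc1.add hc2).intervalIntegrable 0 1)
  rw [intervalIntegral.integral_add (hc1.intervalIntegrable 0 1)
    (hc2.intervalIntegrable 0 1)] at h1
  have h2 : ∫ s in (0 : ℝ)..1, (1 - s) • (Complex.I • cj N (s * ξ) (br (dt ξ N) b)) =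
      Complex.I • DD N ξ (fun s => 1 - s) (br (dt ξ N) b) := by
    unfold DD
    rw [← intervalIntegral.integral_smul]
    refine intervalIntegral.integral_congr fun s _ => ?_
    exact smul_comm _ _ _
  have h3 : ∫ s in (0 : ℝ)..1, (-1 : ℝ) • cj N (s * ξ) b = -DD N ξ (fun _ => 1) b := by
    unfold DD
    rw [← intervalIntegral.integral_neg]
    refine intervalIntegral.integral_congr fun s _ => ?_
    show (-1 : ℝ) • cj N (s * ξ) b = -((1 : ℝ) • cj N (s * ξ) b)
    module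
  rw [h2, h3] at h1
  have h4 : DD N ξ (fun _ => 1) b - b = Complex.I • DD N ξ (fun s => 1 - s) (br (dt ξ N) b) := by
    have h5 : (1 - (0 : ℝ)) • cj N (((0 : ℝ) : ℂ) * ξ) b = b := by
      rw [Complex.ofReal_zero, zero_mul, cj_zero N hN, sub_zero, one_smul]
    rw [h5, sub_self, zero_smul, zero_sub] at h1
    have h6 : Complex.I • DD N ξ (fun s => 1 - s) (br (dt ξ N) b) =
        DD N ξ (fun _ => 1) b - b := by
      have := congrArg (fun T => T + DD N ξ (fun _ => 1) b) h1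
      simp only at this
      rw [neg_add_cancel_right] at this
      rw [this]
      abel
    exact h6.symm
  rw [h4]
  exact (isT_DD N ξ (continuous_const.sub continuous_id) hb).smul _

/-! ### The partition -/

/-- the grid points -/
noncomputable def zz (T : ℝ) (J j : ℕ) : ℝ := ((j : ℝ) - J) / T

/-- the tents, `T = n τ` -/
noncomputable def chi (T : ℝ) (J j : ℕ) (x : ℝ) : ℂ := ((tent (x * T + J - j) : ℝ) : ℂ)

theorem continuous_chi (T : ℝ) (J j : ℕ) : Continuous (chi T J j) := by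
  unfold chi
  exact continuous_ofReal.comp (continuous_tent.comp (by fun_prop))

theorem sum_chi {T : ℝ} (hT : 0 < T) {J : ℕ} {R x : ℝ} (hJ : R * T ≤ J)
    (hx : x ∈ Set.Icc (-R) R) : ∑ j ∈ Finset.range (2 * J + 1), chi T J j x = 1 := by
  unfold chi
  rw [← Complex.ofReal_sum]
  have h1 : -(R * T) ≤ x * T := by nlinarith [hx.1]
  have h2 : x * T ≤ R * T := mul_le_mul_of_nonneg_right hx.2 hT.le
  have h3 := sum_tent_one (t := x * T + J) (m := 2 * J + 1) (by linarith)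
    (by push_cast; linarith)
  rw [h3, Complex.ofReal_one]

theorem chi_near {T : ℝ} (hT : 0 < T) {J j : ℕ} {x : ℝ} (h : chi T J j x ≠ 0) :
    |x - zz T J j| ≤ 1 / T := by
  have h1 : tent (x * T + J - j) ≠ 0 := by
    intro h0
    exact h (by unfold chi; rw [h0, Complex.ofReal_zero])
  have h2 : |x * T + J - j| < 1 := by
    by_contra hno
    exact h1 (tent_zero (not_lt.1 hno))
  have h3 : x - zz T J j = (x * T + J - j) / T := by
    unfold zz
    field_simp
    ring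
  rw [h3, abs_div, abs_of_pos hT]
  exact div_le_div_of_nonneg_right h2.le hT.le

theorem norm_chi (T : ℝ) (J j : ℕ) (x : ℝ) : (‖chi T J j x‖ : ℂ) = chi T J j x := by
  unfold chi
  rw [Complex.norm_real, Real.norm_of_nonneg (tent_nonneg _)]

/-- a weighted sum over the partition -/
theorem sum_chi_le {T : ℝ} (hT : 0 < T) {J : ℕ} {R x : ℝ} (hJ : R * T ≤ J)
    (hx : x ∈ Set.Icc (-R) R) (a : ℕ → ℂ) {C : ℝ}
    (ha : ∀ j, |x - zz T J j| ≤ 1 / T → ‖a j‖ ≤ C) :
    ‖∑ j ∈ Finset.range (2 * J + 1), a j * chi T J j x‖ ≤ C := by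
  have h1 : ∀ j ∈ Finset.range (2 * J + 1), ‖a j * chi T J j x‖ ≤ C * ‖chi T J j x‖ := by
    intro j _
    rw [norm_mul]
    by_cases h : chi T J j x = 0
    · rw [h, norm_zero, mul_zero, mul_zero]
    · exact mul_le_mul_of_nonneg_right (ha j (chi_near hT h)) (norm_nonneg _)
  refine (norm_sum_le_of_le _ h1).trans ?_
  rw [← Finset.mul_sum]
  have h2 : ∑ j ∈ Finset.range (2 * J + 1), ‖chi T J j x‖ = 1 := by
    have h3 := sum_chi hT hJ hx
    have h4 : ((∑ j ∈ Finset.range (2 * J + 1), ‖chi T J j x‖ : ℝ) : ℂ) = 1 := by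
      rw [← h3, Complex.ofReal_sum]
      exact Finset.sum_congr rfl fun j _ => norm_chi T J j x
    exact_mod_cast h4
  rw [h2, mul_one]

/-- the oscillating function -/
noncomputable def osc (c : ℝ) (x : ℝ) : ℂ := Complex.exp (Complex.I * c * x)

theorem continuous_osc (c : ℝ) : Continuous (osc c) := by
  unfold osc
  exact Complex.continuous_exp.comp (continuous_const.mul continuous_ofReal)

theorem norm_osc (c x : ℝ) : ‖osc c x‖ = 1 := by
  unfold osc
  have h : Complex.I * c * x = ((c * x : ℝ) : ℂ) * Complex.I := by push_cast; ring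
  rw [h, Complex.norm_exp_ofReal_mul_I]

theorem norm_osc_sub (c x y : ℝ) : ‖osc c x - osc c y‖ ≤ |c| * |x - y| := by
  have h := norm_exp_sub_le (c * x) (c * y)
  have e : ∀ x : ℝ, osc c x = Complex.exp (Complex.I * ((c * x : ℝ) : ℂ)) := by
    intro x
    unfold osc
    congr 1
    push_cast
    ring
  rw [e, e]
  refine h.trans (le_of_eq ?_)
  rw [← mul_sub, abs_mul]

/-- the main part -/
noncomputable def MM (c T : ℝ) (J : ℕ) (x : ℝ) : ℂ :=
  ∑ j ∈ Finset.range (2 * J + 1), (osc c x - osc c (zz T J j)) * chi T J j x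

/-- the remainder -/
noncomputable def RR (c T : ℝ) (J : ℕ) (g : ℝ → ℂ) (x : ℝ) : ℂ :=
  ∑ j ∈ Finset.range (2 * J + 1), (osc c (zz T J j) * (g x - g (zz T J j))) * chi T J j x

theorem continuous_MM (c T : ℝ) (J : ℕ) : Continuous (MM c T J) := by
  unfold MM
  exact continuous_finsetSum _ fun j _ =>
    ((continuous_osc c).sub continuous_const).mul (continuous_chi T J j)

theorem continuous_RR (c T : ℝ) (J : ℕ) {g : ℝ → ℂ} (hg : Continuous g) :
    Continuous (RR c T J g) := by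
  unfold RR
  exact continuous_finsetSum _ fun j _ =>
    (continuous_const.mul (hg.sub continuous_const)).mul (continuous_chi T J j)

theorem split (c : ℝ) {T : ℝ} (hT : 0 < T) {J : ℕ} {R x : ℝ} (hJ : R * T ≤ J)
    (hx : x ∈ Set.Icc (-R) R) (g : ℝ → ℂ) :
    osc c x * g x = MM c T J x * g x + (RR c T J g x +
      ∑ j ∈ Finset.range (2 * J + 1), (osc c (zz T J j) * g (zz T J j)) * chi T J j x) := by
  unfold MM RR
  rw [Finset.sum_mul, ← Finset.sum_add_distrib, ← Finset.sum_add_distrib]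
  have h1 := sum_chi hT hJ hx
  calc osc c x * g x = (osc c x * g x) * ∑ j ∈ Finset.range (2 * J + 1), chi T J j x := by
        rw [h1, mul_one]
    _ = _ := by
        rw [Finset.mul_sum]
        refine Finset.sum_congr rfl fun j _ => ?_
        ring

/-- the operator form of the splitting -/
theorem split_op (hF : Stmt_FEX.{v}) (N : H →L[ℂ] H) (e : ℂ) (hN : IsStarNormal N) (c : ℝ)
    {T : ℝ} (hT : 0 < T) {J : ℕ} (hJ : (‖e‖ * ‖N‖) * T ≤ J) {g : ℝ → ℂ} (hg : Continuous g) :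
    fe e (osc c) N * fe e g N = fe e (MM c T J) N * fe e g N + (fe e (RR c T J g) N +
      ∑ j ∈ Finset.range (2 * J + 1), (osc c (zz T J j) * g (zz T J j)) • fe e (chi T J j) N) := by
  obtain ⟨f1, f2, -⟩ := hF H N e hN
  have c1 : Continuous fun x => MM c T J x * g x := (continuous_MM c T J).mul hg
  have c2 : ∀ j : ℕ, Continuous fun x =>
      (osc c (zz T J j) * g (zz T J j)) * chi T J j x := fun j =>
    continuous_const.mul (continuous_chi T J j)
  have c3 : Continuous fun x => ∑ j ∈ Finset.range (2 * J + 1),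
      (osc c (zz T J j) * g (zz T J j)) * chi T J j x := continuous_finsetSum _ fun j _ => c2 j
  have c4 : Continuous fun x => RR c T J g x + ∑ j ∈ Finset.range (2 * J + 1),
      (osc c (zz T J j) * g (zz T J j)) * chi T J j x := (continuous_RR c T J hg).add c3
  have c5 : Continuous fun x => MM c T J x * g x + (RR c T J g x +
      ∑ j ∈ Finset.range (2 * J + 1), (osc c (zz T J j) * g (zz T J j)) * chi T J j x) :=
    c1.add c4
  have c6 : Continuous fun x => osc c x * g x := (continuous_osc c).mul hg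
  rw [← (f1 (osc c) g (continuous_osc c) hg).2]
  rw [fe_congr hF N e hN c6 c5 (fun x hx => split c hT hJ hx g)]
  have e1 := (f1 (fun x => MM c T J x * g x) (fun x => RR c T J g x +
    ∑ j ∈ Finset.range (2 * J + 1), (osc c (zz T J j) * g (zz T J j)) * chi T J j x) c1 c4).1
  have e2 := (f1 (RR c T J g) (fun x => ∑ j ∈ Finset.range (2 * J + 1),
    (osc c (zz T J j) * g (zz T J j)) * chi T J j x) (continuous_RR c T J hg) c3).1
  rw [e1, (f1 (MM c T J) g (continuous_MM c T J) hg).2, e2,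
    fe_sum hF N e hN (Finset.range (2 * J + 1))
      (fun j x => (osc c (zz T J j) * g (zz T J j)) * chi T J j x) c2]
  congr 2
  exact Finset.sum_congr rfl fun j _ => f2 _ _ (continuous_chi T J j)

theorem norm_MM (hF : Stmt_FEX.{v}) (N : H →L[ℂ] H) (e : ℂ) (hN : IsStarNormal N) (c : ℝ)
    {T : ℝ} (hT : 0 < T) {J : ℕ} (hJ : (‖e‖ * ‖N‖) * T ≤ J) :
    ‖fe e (MM c T J) N‖ ≤ |c| / T := by
  obtain ⟨-, -, -, -, -, -, f7, -⟩ := hF H N e hN
  refine f7 _ _ (continuous_MM c T J) (by positivity) fun x hx => ?_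
  refine sum_chi_le hT hJ hx _ fun j hj => ?_
  refine (norm_osc_sub c x _).trans ?_
  calc |c| * |x - zz T J j| ≤ |c| * (1 / T) := mul_le_mul_of_nonneg_left hj (abs_nonneg _)
    _ = |c| / T := by ring

theorem norm_RR (hF : Stmt_FEX.{v}) (N : H →L[ℂ] H) (e : ℂ) (hN : IsStarNormal N) (c : ℝ)
    {T : ℝ} (hT : 0 < T) {J : ℕ} (hJ : (‖e‖ * ‖N‖) * T ≤ J) {g : ℝ → ℂ} (hg : Continuous g)
    {η : ℝ} (hη : 0 ≤ η) (hgη : ∀ x z : ℝ, x ∈ Set.Icc (-(‖e‖ * ‖N‖)) (‖e‖ * ‖N‖) →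
      |x - z| ≤ 1 / T → ‖g x - g z‖ ≤ η) : ‖fe e (RR c T J g) N‖ ≤ η := by
  obtain ⟨-, -, -, -, -, -, f7, -⟩ := hF H N e hN
  refine f7 _ _ (continuous_RR c T J hg) hη fun x hx => ?_
  refine sum_chi_le hT hJ hx _ fun j hj => ?_
  rw [norm_mul, norm_osc, one_mul]
  exact hgη x _ hx hj

/-- the key estimate -/
theorem key (hF : Stmt_FEX.{v}) (N : H →L[ℂ] H) (e : ℂ) (hN : IsStarNormal N) {r : ℕ}
    (v : Fin r → H) {T : ℝ} (hT : 0 < T) {J : ℕ} (hJ : (‖e‖ * ‖N‖) * T ≤ J) {n' : ℕ}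
    (g : Fin n' → Fin r → ℝ → ℂ) (hg : ∀ i k, Continuous (g i k)) (y : Fin n' → H)
    {η : ℝ} (hη : 0 ≤ η) (hgη : ∀ i k, ∀ x z : ℝ, x ∈ Set.Icc (-(‖e‖ * ‖N‖)) (‖e‖ * ‖N‖) →
      |x - z| ≤ 1 / T → ‖g i k x - g i k z‖ ≤ η) {τ : ℝ} (hτ : 0 ≤ τ) :
    ∃ P : H →L[ℂ] H, ‖1 - P‖ ≤ 1 ∧
      (∀ D : H →L[ℂ] H, IsT (P * D) ∧ n1 (P * D) ≤ ((2 * J + 1 : ℕ) * r : ℝ) * ‖D‖) ∧
      ∀ s : ℝ, 0 ≤ s → s ≤ 1 →
        n1 ((1 - P) * cj N (s * (τ * e)) (∑ i, r1 (∑ k, fe e (g i k) N (v k)) (y i))) ≤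
          τ / T * n1 (∑ i, r1 (∑ k, fe e (g i k) N (v k)) (y i)) +
            η * ∑ i, ∑ k, ‖v k‖ * ‖y i‖ := by
  obtain ⟨P, hP1, hP2, hP3⟩ := exists_prj (fun p : Fin (2 * J + 1) × Fin r =>
    fe e (chi T J p.1) N (v p.2))
  refine ⟨P, hP1, ?_, ?_⟩
  · intro D
    obtain ⟨a1, a2⟩ := hP3 D
    refine ⟨a1, a2.trans (le_of_eq ?_)⟩
    rw [Fintype.card_prod, Fintype.card_fin, Fintype.card_fin]
    push_cast
    ring
  · intro s hs0 hs1
    set u : Fin n' → H := fun i => ∑ k, fe e (g i k) N (v k) with hu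
    set K₀ : H →L[ℂ] H := ∑ i, r1 (u i) (y i) with hK₀
    have hK₀T : IsT K₀ := IsT.sum _ _ fun _ _ => isT_r1 _ _
    obtain ⟨-, -, -, -, -, f6, -⟩ := hF H N e hN
    have hE : ex N (s * (τ * e)) = fe e (osc (s * τ)) N := by
      have h1 := f6 (s * τ)
      have h2 : (((s * τ : ℝ) : ℂ) * e) = s * (τ * e) := by push_cast; ring
      rw [h2] at h1
      exact h1.symm
    -- remove the right factor
    have h1 : (1 - P) * cj N (s * (τ * e)) K₀ =
        ((1 - P) * (ex N (s * (τ * e)) * K₀)) * ex N (-(s * (τ * e))) := by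
      unfold cj
      simp only [mul_assoc]
    have hT1 : IsT ((1 - P) * (ex N (s * (τ * e)) * K₀)) := (hK₀T.mul_left _).mul_left _
    have h2 : n1 ((1 - P) * cj N (s * (τ * e)) K₀) ≤
        n1 ((1 - P) * (ex N (s * (τ * e)) * K₀)) := by
      rw [h1]
      refine (n1_mul_right_le _ hT1).trans ?_
      have := mul_le_mul_of_nonneg_right (EXB.norm_ex_le N (-(s * (τ * e))))
        (n1_nonneg ((1 - P) * (ex N (s * (τ * e)) * K₀)))
      linarith
    refine h2.trans ?_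
    -- the vectors
    have h3 : ∀ i, (1 - P) (ex N (s * (τ * e)) (u i)) = (1 - P) (fe e (MM (s * τ) T J) N (u i)) +
        (1 - P) (∑ k, fe e (RR (s * τ) T J (g i k)) N (v k)) := by
      intro i
      have h4 : ∀ k, (1 - P) (ex N (s * (τ * e)) (fe e (g i k) N (v k))) =
          (1 - P) (fe e (MM (s * τ) T J) N (fe e (g i k) N (v k)) +
            fe e (RR (s * τ) T J (g i k)) N (v k)) := by
        intro k
        have h5 := congrArg (fun A : H →L[ℂ] H => A (v k))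
          (split_op hF N e hN (s * τ) hT hJ (hg i k))
        have h6 : ex N (s * (τ * e)) (fe e (g i k) N (v k)) =
            fe e (MM (s * τ) T J) N (fe e (g i k) N (v k)) +
              (fe e (RR (s * τ) T J (g i k)) N (v k) +
              ∑ j ∈ Finset.range (2 * J + 1), (osc (s * τ) (zz T J j) * g i k (zz T J j)) •
                fe e (chi T J j) N (v k)) := by
          rw [hE]
          refine h5.trans ?_
          show _ + (_ + (∑ j ∈ Finset.range (2 * J + 1),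
            (osc (s * τ) (zz T J j) * g i k (zz T J j)) • fe e (chi T J j) N) (v k)) = _
          rw [_root_.sum_apply]
          rfl
        rw [h6, ← add_assoc, map_add (1 - P)]
        have h7 : (1 - P) (∑ j ∈ Finset.range (2 * J + 1),
            (osc (s * τ) (zz T J j) * g i k (zz T J j)) • fe e (chi T J j) N (v k)) = 0 := by
          rw [map_sum]
          refine Finset.sum_eq_zero fun j hj => ?_
          rw [map_smul]
          have h8 := hP2 (⟨j, Finset.mem_range.1 hj⟩, k)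
          have h9 : (1 - P) (fe e (chi T J j) N (v k)) = 0 := by
            show fe e (chi T J j) N (v k) - P (fe e (chi T J j) N (v k)) = 0
            rw [h8, sub_self]
          rw [h9, smul_zero]
        rw [h7, add_zero]
      show (1 - P) (ex N (s * (τ * e)) (∑ k, fe e (g i k) N (v k))) =
        (1 - P) (fe e (MM (s * τ) T J) N (∑ k, fe e (g i k) N (v k))) +
          (1 - P) (∑ k, fe e (RR (s * τ) T J (g i k)) N (v k))
      simp only [map_sum]
      rw [← Finset.sum_add_distrib]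
      refine Finset.sum_congr rfl fun k _ => ?_
      rw [h4 k, map_add]
    have h4 : (1 - P) * (ex N (s * (τ * e)) * K₀) = (1 - P) * (fe e (MM (s * τ) T J) N * K₀) +
        ∑ i, r1 ((1 - P) (∑ k, fe e (RR (s * τ) T J (g i k)) N (v k))) (y i) := by
      have hA : ∀ A : H →L[ℂ] H, A * K₀ = ∑ i, r1 (A (u i)) (y i) := by
        intro A
        rw [hK₀, Finset.mul_sum]
        exact Finset.sum_congr rfl fun i _ => mul_r1 _ _ _
      rw [← mul_assoc (1 - P), ← mul_assoc (1 - P), hA, hA, ← Finset.sum_add_distrib]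
      refine Finset.sum_congr rfl fun i _ => ?_
      have h5 : ((1 - P) * ex N (s * (τ * e))) (u i) =
          ((1 - P) * fe e (MM (s * τ) T J) N) (u i) +
            (1 - P) (∑ k, fe e (RR (s * τ) T J (g i k)) N (v k)) := h3 i
      rw [h5]
      ext z
      show r1 _ (y i) z = r1 _ (y i) z + r1 _ (y i) z
      rw [r1_apply, r1_apply, r1_apply, smul_add]
    obtain ⟨b1, b2⟩ := n1_sum_r1_le Finset.univ
      (fun i => (1 - P) (∑ k, fe e (RR (s * τ) T J (g i k)) N (v k))) y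
    have hT2 : IsT (fe e (MM (s * τ) T J) N * K₀) := hK₀T.mul_left _
    rw [h4]
    refine (n1_add_le (hT2.mul_left _) b1).trans (add_le_add ?_ (b2.trans ?_))
    · have a1 := n1_mul_left_le (1 - P) hT2
      have a2 := n1_mul_left_le (fe e (MM (s * τ) T J) N) hK₀T
      have a3 := norm_MM hF N e hN (s * τ) hT hJ
      have a4 : |s * τ| / T ≤ τ / T := by
        rw [abs_of_nonneg (mul_nonneg hs0 hτ)]
        refine div_le_div_of_nonneg_right ?_ hT.le
        nlinarith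
      have a5 := mul_le_mul_of_nonneg_right hP1 (n1_nonneg (fe e (MM (s * τ) T J) N * K₀))
      have a6 := mul_le_mul_of_nonneg_right (a3.trans a4) (n1_nonneg K₀)
      linarith
    · rw [Finset.mul_sum]
      refine Finset.sum_le_sum fun i _ => ?_
      have a1 : ‖(1 - P) (∑ k, fe e (RR (s * τ) T J (g i k)) N (v k))‖ ≤ η * ∑ k, ‖v k‖ := by
        refine ((1 - P).le_opNorm _).trans ?_
        have a2 : ‖∑ k, fe e (RR (s * τ) T J (g i k)) N (v k)‖ ≤ ∑ k, η * ‖v k‖ := by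
          refine norm_sum_le_of_le _ fun k _ => ?_
          refine (ContinuousLinearMap.le_opNorm _ _).trans ?_
          exact mul_le_mul_of_nonneg_right
            (norm_RR hF N e hN (s * τ) hT hJ (hg i k) hη (hgη i k)) (norm_nonneg _)
        have a2' : ‖∑ k, fe e (RR (s * τ) T J (g i k)) N (v k)‖ ≤ η * ∑ k, ‖v k‖ := by
          rw [Finset.mul_sum]
          exact a2
        have a3 := mul_le_mul hP1 a2' (norm_nonneg _) zero_le_one
        linarith
      calc ‖(1 - P) (∑ k, fe e (RR (s * τ) T J (g i k)) N (v k))‖ * ‖y i‖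
          ≤ (η * ∑ k, ‖v k‖) * ‖y i‖ := mul_le_mul_of_nonneg_right a1 (norm_nonneg _)
        _ = η * ∑ k, ‖v k‖ * ‖y i‖ := by rw [mul_assoc, Finset.sum_mul]

theorem n1_cj_le (N : H →L[ℂ] H) (s : ℂ) {K : H →L[ℂ] H} (hK : IsT K) :
    IsT (cj N s K) ∧ n1 (cj N s K) ≤ n1 K := by
  unfold cj
  refine ⟨(hK.mul_left _).mul_right _, ?_⟩
  have h1 := n1_mul_right_le (ex N (-s)) (hK.mul_left (ex N s))
  have h2 := n1_mul_left_le (ex N s) hK
  have h3 := mul_le_mul_of_nonneg_right (EXB.norm_ex_le N (-s)) (n1_nonneg (ex N s * K))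
  have h4 := mul_le_mul_of_nonneg_right (EXB.norm_ex_le N s) (n1_nonneg K)
  linarith

theorem dt_real_mul (τ : ℝ) (e : ℂ) (N : H →L[ℂ] H) : dt (τ * e) N = (τ : ℂ) • dt e N := by
  unfold dt
  rw [map_mul, Complex.conj_ofReal]
  module

theorem br_smul (c : ℂ) (Z b : H →L[ℂ] H) : br (c • Z) b = c • br Z b := by
  unfold br
  rw [smul_mul_assoc, mul_smul_comm, smul_sub]

theorem DD_smul (N : H →L[ℂ] H) (ξ c : ℂ) (K : H →L[ℂ] H) :
    DD N ξ (fun _ => 1) (c • K) = c • DD N ξ (fun _ => 1) K := by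
  unfold DD
  rw [← intervalIntegral.integral_smul]
  refine intervalIntegral.integral_congr fun s _ => ?_
  show (1 : ℝ) • cj N (s * ξ) (c • K) = c • ((1 : ℝ) • cj N (s * ξ) K)
  unfold cj
  simp only [one_smul, mul_smul_comm, smul_mul_assoc]

/-- uniform continuity of a finite family -/
theorem unif {n' r : ℕ} (g : Fin n' → Fin r → ℝ → ℂ) (hg : ∀ i k, Continuous (g i k)) (R : ℝ)
    {η : ℝ} (hη : 0 < η) : ∃ δ : ℝ, 0 < δ ∧ ∀ i k, ∀ x z : ℝ, x ∈ Set.Icc (-R) R →
      |x - z| ≤ δ → ‖g i k x - g i k z‖ ≤ η := by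
  have hG : Continuous fun x : ℝ => fun (i : Fin n') (k : Fin r) => g i k x :=
    continuous_pi fun i => continuous_pi fun k => hg i k
  have hu := (isCompact_Icc (a := -(R + 1)) (b := R + 1)).uniformContinuousOn_of_continuous
    hG.continuousOn
  rw [Metric.uniformContinuousOn_iff] at hu
  obtain ⟨δ, hδ, h⟩ := hu η hη
  refine ⟨min (δ / 2) 1, lt_min (by linarith) one_pos, fun i k x z hx hz => ?_⟩
  have h1 : |x - z| ≤ δ / 2 := hz.trans (min_le_left _ _)
  have h2 : |x - z| ≤ 1 := hz.trans (min_le_right _ _)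
  rw [abs_le] at h2
  have h3 := h x ⟨by linarith [hx.1], by linarith [hx.2]⟩ z
    ⟨by linarith [hx.1, h2.2], by linarith [hx.2, h2.1]⟩ (by rw [Real.dist_eq]; linarith)
  have h4 := (dist_le_pi_dist (fun (k : Fin r) => g i k x) (fun k => g i k z) k).trans
    (dist_le_pi_dist (fun (i : Fin n') (k : Fin r) => g i k x) (fun i k => g i k z) i)
  rw [← dist_eq_norm]
  exact (h4.trans_lt h3).le

end

end CLEAux

open CLEAux

theorem blk_CLE : Stmt_CMM.{v} → Stmt_KMB.{v} → Stmt_FEX.{v} → Stmt_CLE.{v} := by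
  intro _ hKMB hFEX H _ _ _ N e hN r v R hR hRc hRd hApp b hb n hn
  obtain ⟨k1, -⟩ := hKMB H N hN
  have hn0 : (0 : ℝ) < n := by exact_mod_cast hn
  have hn1 : (1 : ℝ) ≤ n := by exact_mod_cast hn
  obtain ⟨R₀, hR₀⟩ : ∃ R₀ : ℝ, R₀ = ‖e‖ * ‖N‖ := ⟨_, rfl⟩
  have hR₀0 : 0 ≤ R₀ := by rw [hR₀]; positivity
  have hK' : br (dt e N) (R * b) = R * br (dt e N) b := by
    unfold br
    rw [mul_sub, ← mul_assoc, hRd, mul_assoc, mul_assoc]
  have hK'T : IsT (br (dt e N) (R * b)) := by rw [hK']; exact hb.mul_left _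
  have hK'n : n1 (br (dt e N) (R * b)) ≤ n1 (br (dt e N) b) := by
    rw [hK']
    have h1 := n1_mul_left_le R hb
    have h2 := mul_le_mul_of_nonneg_right hR (n1_nonneg (br (dt e N) b))
    linarith
  have hRb : ‖R * b‖ ≤ ‖b‖ := by
    refine (norm_mul_le _ _).trans ?_
    have := mul_le_mul_of_nonneg_right hR (norm_nonneg b)
    linarith
  refine le_of_forall_pos_le_add fun ε₀ hε₀ => ?_
  obtain ⟨ε, hε, hε4⟩ : ∃ ε : ℝ, 0 < ε ∧ 4 * ε = ε₀ := ⟨ε₀ / 4, by positivity, by ring⟩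
  obtain ⟨n', g, y, hgc, hga⟩ := hApp (br (dt e N) b) hb ε hε
  obtain ⟨K₀, hK₀⟩ : ∃ K₀ : H →L[ℂ] H, K₀ = ∑ i, r1 (∑ k, fe e (g i k) N (v k)) (y i) :=
    ⟨_, rfl⟩
  have hK₀T : IsT K₀ := by
    rw [hK₀]
    exact IsT.sum _ _ fun _ _ => isT_r1 _ _
  rw [← hK₀, ← hK'] at hga
  obtain ⟨S, hS⟩ : ∃ S : ℝ, S = ∑ i : Fin n', ∑ k : Fin r, ‖v k‖ * ‖y i‖ := ⟨_, rfl⟩
  have hS0 : 0 ≤ S := by
    rw [hS]
    exact Finset.sum_nonneg fun i _ => Finset.sum_nonneg fun k _ => by positivity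
  have hη : 0 < ε / (S + 1) := by positivity
  obtain ⟨δ, hδ, hgδ⟩ := unif g hgc R₀ hη
  -- the scale
  obtain ⟨τ, hτ⟩ : ∃ τ : ℝ, τ = 1 + 6 * r * ‖b‖ / ε + 1 / δ := ⟨_, rfl⟩
  have p1 : 0 ≤ 6 * r * ‖b‖ / ε := by positivity
  have p2 : 0 < 1 / δ := by positivity
  have hτ0 : 0 < τ := by rw [hτ]; linarith
  have hτ1 : 6 * r * ‖b‖ / τ ≤ ε := by
    rw [div_le_iff₀ hτ0]
    have h1 : 6 * r * ‖b‖ / ε ≤ τ := by rw [hτ]; linarith
    rw [div_le_iff₀ hε] at h1
    linarith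
  have hτ2 : 1 / τ ≤ δ := by
    rw [div_le_iff₀ hτ0]
    have h1 : 1 / δ ≤ τ := by rw [hτ]; linarith
    rw [div_le_iff₀ hδ] at h1
    linarith
  obtain ⟨T, hT⟩ : ∃ T : ℝ, T = n * τ := ⟨_, rfl⟩
  have hT0 : 0 < T := by rw [hT]; positivity
  have hT1 : 1 / T ≤ δ := by
    refine le_trans ?_ hτ2
    refine one_div_le_one_div_of_le hτ0 ?_
    rw [hT]
    nlinarith
  have hJ : R₀ * T ≤ (⌈R₀ * T⌉₊ : ℝ) := Nat.le_ceil _
  have hJ' : ((⌈R₀ * T⌉₊ : ℕ) : ℝ) < R₀ * T + 1 := Nat.ceil_lt_add_one (by positivity)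
  obtain ⟨J, hJe⟩ : ∃ J : ℕ, J = ⌈R₀ * T⌉₊ := ⟨_, rfl⟩
  rw [← hJe] at hJ hJ'
  rw [hR₀] at hJ
  obtain ⟨P, hP1, hP2, hP3⟩ := key hFEX N e hN v hT0 hJ g hgc y hη.le
    (fun i k x z hx hz => hgδ i k x z (by rw [hR₀]; exact hx) (hz.trans hT1)) hτ0.le
  rw [← hK₀, ← hS] at hP3
  -- the operators
  obtain ⟨D, hD⟩ : ∃ D : H →L[ℂ] H, D = DD N (τ * e) (fun _ => 1) (br (dt e N) (R * b)) :=
    ⟨_, rfl⟩
  have hDV : br (dt e N) (DD N (τ * e) (fun _ => 1) (R * b)) = D := by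
    rw [br_DD N hN, hD]
  have hDT : IsT D := by rw [hD]; exact isT_DD N _ continuous_const hK'T
  have hdt : br (dt (τ * e) N) (R * b) = (τ : ℂ) • br (dt e N) (R * b) := by
    rw [dt_real_mul, br_smul]
  have hVT : IsT (DD N (τ * e) (fun _ => 1) (R * b) - R * b) := by
    refine isT_DD_sub N hN _ _ ?_
    rw [hdt]
    exact hK'T.smul _
  have hDn : ‖D‖ ≤ 2 * ‖b‖ / τ := by
    have h1 := br_DD_norm N hN (τ * e) (R * b)
    rw [hdt, DD_smul, ← hD, norm_smul, Complex.norm_real, Real.norm_of_nonneg hτ0.le] at h1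
    rw [le_div_iff₀ hτ0]
    linarith
  obtain ⟨-, hkp⟩ := k1 e (R * b) _ hVT (by rw [hDV]; exact hDT)
  rw [hDV] at hkp
  refine hkp.trans ?_
  -- splitting
  obtain ⟨E, hE⟩ : ∃ E : H →L[ℂ] H, E = br (dt e N) (R * b) - K₀ := ⟨_, rfl⟩
  have hET : IsT E := by rw [hE]; exact hK'T.sub hK₀T
  rw [← hE] at hga
  have hK₀n : n1 K₀ ≤ n1 (br (dt e N) b) + ε := by
    have h1 : K₀ = br (dt e N) (R * b) - E := by rw [hE]; abel
    rw [h1]
    refine (n1_sub_le hK'T hET).trans ?_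
    linarith
  have hD2 : D = DD N (τ * e) (fun _ => 1) K₀ + DD N (τ * e) (fun _ => 1) E := by
    rw [← DD_add, hD]
    congr 1
    rw [hE]
    abel
  have hsplit : D = P * D + ((1 - P) * DD N (τ * e) (fun _ => 1) K₀ +
      (1 - P) * DD N (τ * e) (fun _ => 1) E) := by
    rw [← mul_add, ← hD2, sub_mul, one_mul]
    abel
  obtain ⟨q1, q2⟩ := hP2 D
  have q3 : IsT ((1 - P) * DD N (τ * e) (fun _ => 1) K₀) :=
    (isT_DD N _ continuous_const hK₀T).mul_left _
  have q4 : IsT ((1 - P) * DD N (τ * e) (fun _ => 1) E) :=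
    (isT_DD N _ continuous_const hET).mul_left _
  have q5 : n1 ((1 - P) * DD N (τ * e) (fun _ => 1) K₀) ≤
      τ / T * n1 K₀ + ε / (S + 1) * S := n1_DD_le N _ hK₀T _ hP3
  have q6 : n1 ((1 - P) * DD N (τ * e) (fun _ => 1) E) ≤ ε := by
    refine n1_DD_le N _ hET _ fun s _ _ => ?_
    obtain ⟨c1, c2⟩ := n1_cj_le N (s * (τ * e)) hET
    have c3 := n1_mul_left_le (1 - P) c1
    have c4 := mul_le_mul_of_nonneg_right hP1 (n1_nonneg (cj N (s * (τ * e)) E))
    linarith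
  have q7 : n1 D ≤ n1 (P * D) + (n1 ((1 - P) * DD N (τ * e) (fun _ => 1) K₀) +
      n1 ((1 - P) * DD N (τ * e) (fun _ => 1) E)) := by
    conv_lhs => rw [hsplit]
    exact (n1_add_le q1 (q3.add q4)).trans (add_le_add le_rfl (n1_add_le q3 q4))
  -- the numbers
  have r1' : τ / T = 1 / n := by
    rw [hT]
    field_simp
  have r2 : ε / (S + 1) * S ≤ ε := by
    rw [div_mul_eq_mul_div, div_le_iff₀ (by linarith)]
    nlinarith
  have r3 : ((2 * J + 1 : ℕ) * r : ℝ) * ‖D‖ ≤ 4 * n * r * R₀ * ‖b‖ + ε := by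
    have h1 : ((2 * J + 1 : ℕ) : ℝ) ≤ 2 * (R₀ * T) + 3 := by
      push_cast
      linarith
    have h2 : ((2 * J + 1 : ℕ) * r : ℝ) * ‖D‖ ≤
        ((2 * (R₀ * T) + 3) * r) * (2 * ‖b‖ / τ) := by
      refine mul_le_mul (mul_le_mul_of_nonneg_right h1 (Nat.cast_nonneg r)) hDn
        (norm_nonneg _) (by positivity)
    have h3 : ((2 * (R₀ * T) + 3) * r) * (2 * ‖b‖ / τ) =
        4 * n * r * R₀ * ‖b‖ + 6 * r * ‖b‖ / τ := by
      rw [hT]
      field_simp
      ring
    linarith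
  have r4 : 1 / (n : ℝ) * n1 K₀ ≤ n1 (br (dt e N) b) / n + ε := by
    have h1 : 1 / (n : ℝ) * n1 K₀ ≤ 1 / (n : ℝ) * (n1 (br (dt e N) b) + ε) :=
      mul_le_mul_of_nonneg_left hK₀n (by positivity)
    have h2 : 1 / (n : ℝ) * ε ≤ 1 * ε := by
      refine mul_le_mul_of_nonneg_right ?_ hε.le
      rw [div_le_one hn0]
      exact hn1
    have h3 : 1 / (n : ℝ) * (n1 (br (dt e N) b) + ε) =
        n1 (br (dt e N) b) / n + 1 / (n : ℝ) * ε := by ring
    linarith
  rw [r1'] at q5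
  have r5 : 4 * n * r * (‖e‖ * ‖N‖) * ‖b‖ = 4 * n * r * R₀ * ‖b‖ := by rw [hR₀]
  rw [r5]
  linarith

end Pool.Q2
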