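import Pool.Agent.Work.MP_8c7e5b_q2.Interface2

/-!
# MP_8c7e5b_an, Q2, block CLS: the singular part does not contribute in its own direction
-/

open MeasureTheory Complex Filter Topology
open scoped ComplexOrder InnerProductSpace ComplexConjugate

set_option autoImplicit false
set_option linter.unusedSectionVars false

universe v

namespace Pool.Q2

open Pool.Bes

namespace CLSAux

variable {H : Type v} [NormedAddCommGroup H] [InnerProductSpace ℂ H] [CompleteSpace H]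

/-- An orthonormal basis of the span of `n` vectors. -/
theorem proj_fin (n : ℕ) (w : Fin n → H) : ∃ (d : ℕ) (f : Fin d → H), d ≤ n ∧
    Orthonormal ℂ f ∧ (∀ k, f k ∈ Submodule.span ℂ (Set.range w)) ∧
    (∀ x ∈ Submodule.span ℂ (Set.range w), ∑ k, ⟪f k, x⟫_ℂ • f k = x) := by
  set L : Submodule ℂ H := Submodule.span ℂ (Set.range w) with hL
  have : FiniteDimensional ℂ L := FiniteDimensional.span_of_finite ℂ (Set.finite_range w)
  have B := stdOrthonormalBasis ℂ L
  refine ⟨Module.finrank ℂ L, fun k => (B k : H), ?_, ?_, fun k => (B k).2, ?_⟩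
  · have h := finrank_range_le_card (R := ℂ) w
    rwa [Fintype.card_fin] at h
  · exact B.orthonormal.comp_linearIsometry L.subtypeₗᵢ
  · intro x hx
    have h := B.sum_repr' ⟨x, hx⟩
    have h2 := congrArg (fun z : L => (z : H)) h
    simpa using h2

theorem r1_mul (x y : H) (S : H →L[ℂ] H) : r1 x y * S = r1 x (star S y) := by
  refine ContinuousLinearMap.ext fun z => ?_
  change ⟪y, S z⟫_ℂ • x = ⟪star S y, z⟫_ℂ • x
  rw [ContinuousLinearMap.star_eq_adjoint, ContinuousLinearMap.adjoint_inner_left]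

theorem mul_r1 (x y : H) (S : H →L[ℂ] H) : S * r1 x y = r1 (S x) y := by
  refine ContinuousLinearMap.ext fun z => ?_
  change S (⟪y, z⟫_ℂ • x) = ⟪y, z⟫_ℂ • S x
  rw [map_smul]

theorem r1_sub_left (x x' y : H) : r1 (x - x') y = r1 x y - r1 x' y := by
  refine ContinuousLinearMap.ext fun z => ?_
  rw [_root_.sub_apply, r1_apply, r1_apply, r1_apply, smul_sub]

theorem r1_sub_right (x y y' : H) : r1 x (y - y') = r1 x y - r1 x y' := by
  refine ContinuousLinearMap.ext fun z => ?_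
  rw [_root_.sub_apply, r1_apply, r1_apply, r1_apply, inner_sub_left, sub_smul]

theorem r1_smul_real (x : H) (c : ℝ) : r1 ((c : ℂ) • x) x = r1 x ((c : ℂ) • x) := by
  refine ContinuousLinearMap.ext fun z => ?_
  rw [r1_apply, r1_apply, inner_smul_left, Complex.conj_ofReal, smul_smul, mul_comm]

/-- The commutator with a rank one projection. -/
theorem br_r1 (X : H →L[ℂ] H) (hX : IsSelfAdjoint X) (x : H) (c : ℝ) :
    br X (r1 x x) = r1 (X x - (c : ℂ) • x) x - r1 x (X x - (c : ℂ) • x) := by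
  have h1 : star X = X := hX
  rw [br, mul_r1, r1_mul, h1, r1_sub_left, r1_sub_right, r1_smul_real]
  abel

/-- The projection onto the span of an orthonormal family. -/
theorem proj_on {ι : Type} [Fintype ι] (F : ι → H) (hF : Orthonormal ℂ F) :
    IsSelfAdjoint (∑ p, r1 (F p) (F p)) ∧
    (∑ p, r1 (F p) (F p)) * (∑ p, r1 (F p) (F p)) = ∑ p, r1 (F p) (F p) ∧
    IsT (∑ p, r1 (F p) (F p)) ∧ ∀ p, (∑ p, r1 (F p) (F p)) (F p) = F p := by
  classical
  have h4 : ∀ p, (∑ p, r1 (F p) (F p)) (F p) = F p := by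
    intro p
    rw [_root_.sum_apply]
    rw [Finset.sum_eq_single p]
    · rw [r1_apply, inner_self_eq_norm_sq_to_K, hF.1 p]
      simp
    · intro q _ hq
      rw [r1_apply, hF.2 hq, zero_smul]
    · intro h
      exact absurd (Finset.mem_univ _) h
  refine ⟨?_, ?_, IsT.sum _ _ fun i _ => isT_r1 _ _, h4⟩
  · rw [IsSelfAdjoint, star_sum]
    exact Finset.sum_congr rfl fun p _ => star_r1 _ _
  · rw [Finset.mul_sum]
    refine Finset.sum_congr rfl fun p _ => ?_
    rw [mul_r1, h4]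

theorem norm_one_sub_le (R : H →L[ℂ] H) (h1 : IsSelfAdjoint R) (h2 : R * R = R) (x : H) :
    ‖(1 - R) x‖ ≤ ‖x‖ := by
  have h3 : star (1 - R) * (1 - R) = 1 - R := by
    have h4 : star R = R := h1
    rw [star_sub, star_one, h4, sub_mul, one_mul, mul_sub, mul_one, h2, sub_self, sub_zero]
  have h5 : ‖(1 - R) x‖ ^ 2 ≤ ‖x‖ * ‖(1 - R) x‖ := by
    have h6 : ((‖(1 - R) x‖ ^ 2 : ℝ) : ℂ) = ⟪x, (1 - R) x⟫_ℂ := by
      have h7 : ⟪(1 - R) x, (1 - R) x⟫_ℂ = ⟪x, (star (1 - R) * (1 - R)) x⟫_ℂ := by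
        rw [ContinuousLinearMap.star_eq_adjoint]
        exact (ContinuousLinearMap.adjoint_inner_right (1 - R) x ((1 - R) x)).symm
      rw [h3, inner_self_eq_norm_sq_to_K] at h7
      rw [← h7]
      norm_cast
    have h8 : ‖((‖(1 - R) x‖ ^ 2 : ℝ) : ℂ)‖ ≤ ‖x‖ * ‖(1 - R) x‖ := by
      rw [h6]
      exact norm_inner_le_norm _ _
    rwa [Complex.norm_real, Real.norm_of_nonneg (by positivity)] at h8
  by_contra h
  push Not at h
  have h9 : 0 < ‖(1 - R) x‖ := lt_of_le_of_lt (norm_nonneg _) h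
  nlinarith

/-- The projection onto the pieces of the vectors. -/
theorem exists_proj (X : H →L[ℂ] H) (hX : IsSelfAdjoint X) (m n : ℕ) (T : Fin m → H →L[ℂ] H)
    (c δ : Fin m → ℝ) (hδ : ∀ j, 0 ≤ δ j) (hsa : ∀ j, IsSelfAdjoint (T j))
    (horth : ∀ j j', j ≠ j' → T j * T j' = 0)
    (hloc : ∀ j (w : H), ‖X (T j w) - (c j : ℂ) • T j w‖ ≤ δ j * ‖T j w‖)
    (v : Fin n → H) :
    ∃ R : H →L[ℂ] H, IsSelfAdjoint R ∧ R * R = R ∧ IsT R ∧ (∀ j k, R (T j (v k)) = T j (v k)) ∧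
      IsT (br X R) ∧ n1 (br X R) ≤ 2 * n * ∑ j, δ j := by
  classical
  have hP := fun j : Fin m => proj_fin n (fun k => T j (v k))
  choose d f hd hf hmem hsum using hP
  -- elements of the span are values of T j
  have hval : ∀ j, ∀ x ∈ Submodule.span ℂ (Set.range fun k => T j (v k)), ∃ w, x = T j w := by
    intro j x hx
    have h1 : Submodule.span ℂ (Set.range fun k => T j (v k)) ≤
        LinearMap.range (T j).toLinearMap := by
      rw [Submodule.span_le]
      rintro _ ⟨k, rfl⟩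
      exact ⟨v k, rfl⟩
    obtain ⟨w, hw⟩ := h1 hx
    exact ⟨w, hw.symm⟩
  have hval2 : ∀ j k, ∃ w, f j k = T j w := fun j k => hval j _ (hmem j k)
  have horth2 : ∀ j j', j ≠ j' → ∀ w w' : H, ⟪T j w, T j' w'⟫_ℂ = 0 := by
    intro j j' hjj w w'
    have h1 : ⟪T j w, T j' w'⟫_ℂ = ⟪w, (T j * T j') w'⟫_ℂ := by
      have h2 := ContinuousLinearMap.adjoint_inner_right (T j) w (T j' w')
      rw [← ContinuousLinearMap.star_eq_adjoint, (hsa j : star (T j) = T j)] at h2
      exact h2.symm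
    rw [h1, horth j j' hjj, _root_.zero_apply, inner_zero_right]
  let F : (Σ j : Fin m, Fin (d j)) → H := fun p => f p.1 p.2
  have hF : Orthonormal ℂ F := by
    refine ⟨fun p => (hf p.1).1 p.2, ?_⟩
    rintro ⟨j, k⟩ ⟨j', k'⟩ hne
    by_cases hj : j = j'
    · subst hj
      have hk : k ≠ k' := by
        rintro rfl
        exact hne rfl
      exact (hf j).2 hk
    · obtain ⟨w, hw⟩ := hval2 j k
      obtain ⟨w', hw'⟩ := hval2 j' k'
      change ⟪f j k, f j' k'⟫_ℂ = 0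
      rw [hw, hw']
      exact horth2 j j' hj w w'
  obtain ⟨h1, h2, h3, h4⟩ := proj_on F hF
  have hbr : br X (∑ p, r1 (F p) (F p)) = ∑ p : (Σ j : Fin m, Fin (d j)),
      (r1 (X (F p) - (c p.1 : ℂ) • F p) (F p) - r1 (F p) (X (F p) - (c p.1 : ℂ) • F p)) := by
    rw [br, Finset.mul_sum, Finset.sum_mul, ← Finset.sum_sub_distrib]
    refine Finset.sum_congr rfl fun p _ => ?_
    exact br_r1 X hX (F p) (c p.1)
  have hT : ∀ p : (Σ j : Fin m, Fin (d j)),
      IsT (r1 (X (F p) - (c p.1 : ℂ) • F p) (F p) - r1 (F p) (X (F p) - (c p.1 : ℂ) • F p)) :=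
    fun p => (isT_r1 _ _).sub (isT_r1 _ _)
  refine ⟨∑ p, r1 (F p) (F p), h1, h2, h3, ?_, ?_, ?_⟩
  · intro j k
    have h5 := hsum j (T j (v k)) (Submodule.subset_span ⟨k, rfl⟩)
    have h6 : (∑ p, r1 (F p) (F p)) (∑ i, ⟪f j i, T j (v k)⟫_ℂ • f j i) =
        ∑ i, ⟪f j i, T j (v k)⟫_ℂ • f j i := by
      rw [map_sum]
      refine Finset.sum_congr rfl fun i _ => ?_
      rw [map_smul]
      congr 1
      exact h4 ⟨j, i⟩
    rwa [h5] at h6
  · rw [hbr]
    exact IsT.sum _ _ fun p _ => hT p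
  · rw [hbr]
    refine (n1_sum_le _ _ fun p _ => hT p).trans ?_
    have h7 : ∀ p : (Σ j : Fin m, Fin (d j)),
        n1 (r1 (X (F p) - (c p.1 : ℂ) • F p) (F p) - r1 (F p) (X (F p) - (c p.1 : ℂ) • F p)) ≤
          2 * δ p.1 := by
      rintro ⟨j, k⟩
      obtain ⟨w, hw⟩ := hval2 j k
      have h8 : ‖X (F ⟨j, k⟩) - (c j : ℂ) • F ⟨j, k⟩‖ ≤ δ j := by
        have h9 := hloc j w
        have h10 : F ⟨j, k⟩ = T j w := hw
        have h11 : ‖T j w‖ = 1 := by rw [← hw]; exact (hf j).1 k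
        rw [h10]
        rwa [h11, mul_one] at h9
      have h12 : ‖F ⟨j, k⟩‖ = 1 := (hf j).1 k
      refine (n1_sub_le (isT_r1 _ _) (isT_r1 _ _)).trans ?_
      have h13 := n1_r1_le (X (F ⟨j, k⟩) - (c j : ℂ) • F ⟨j, k⟩) (F ⟨j, k⟩)
      have h14 := n1_r1_le (F ⟨j, k⟩) (X (F ⟨j, k⟩) - (c j : ℂ) • F ⟨j, k⟩)
      rw [h12, mul_one] at h13
      rw [h12, one_mul] at h14
      change n1 (r1 (X (F ⟨j, k⟩) - (c j : ℂ) • F ⟨j, k⟩) (F ⟨j, k⟩)) +
        n1 (r1 (F ⟨j, k⟩) (X (F ⟨j, k⟩) - (c j : ℂ) • F ⟨j, k⟩)) ≤ 2 * δ j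
      linarith
    refine (Finset.sum_le_sum fun p _ => h7 p).trans ?_
    rw [Fintype.sum_sigma, Finset.mul_sum]
    refine Finset.sum_le_sum fun j _ => ?_
    change ∑ _y : Fin (d j), 2 * δ j ≤ _
    rw [Finset.sum_const, Finset.card_univ, Fintype.card_fin, nsmul_eq_mul]
    have h15 : (d j : ℝ) ≤ n := by exact_mod_cast hd j
    have h16 := hδ j
    nlinarith

end CLSAux

open CLSAux in
theorem blk_CLS (sCMM : Stmt_CMM.{v}) (sKMB : Stmt_KMB.{v}) (sPAC : Stmt_PAC.{v})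
    (sFEX : Stmt_FEX.{v}) (sSNG : Stmt_SNG.{v}) (_sTRN : Stmt_TRN.{v}) : Stmt_CLS.{v} := by
  intro H _ _ _ N b e hN hb
  obtain ⟨hC1, hC2, hC3, hC4, hC5, hC6, hC7, hC8, hC9, hC10, hC11, hC12, hC13, hC14⟩ := sCMM H N hN
  obtain ⟨hK1, hK2, hK3, hK4, hK5, hK6, hK7, hK8, hK9⟩ := sKMB H N hN
  obtain ⟨hP1, hP2, hP3, hP4, hP5, hP6, hP7, hP8, hP9, hP10, hP11, hP12, hP13, hP14, hP15, -, -, -⟩ :=
    sPAC H N e hN
  obtain ⟨hF1, hF2, hF3, hF4, hF5, hF6, hF7, hF8, hF9, hF10⟩ := sFEX H N e hN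
  set X := dt e N with hXdef
  set P := Psg N e with hPdef
  have hXsa : IsSelfAdjoint X := hC7 e
  have hXP : X * P = P * X := (hC1 P hP12).1 e
  have hKT : IsT (br X b) := ((hC11 b hb).1 e).1
  have hPb : IsT (br X (P * b)) := by
    have h1 : br X (P * b) = P * br X b := by
      rw [br, br, mul_sub, ← mul_assoc, hXP, mul_assoc, mul_assoc]
    rw [h1]
    exact hKT.mul_left P
  have h0 : 0 ≤ kp N e (P * b) := (hK5 e (P * b) hPb).1
  refine le_antisymm ?_ h0
  refine le_of_forall_pos_le_add fun η hη => ?_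
  rw [zero_add]
  obtain ⟨n, x, y, hxy⟩ := exists_fin_near hKT η hη
  refine le_of_forall_pos_le_add fun ε' hε' => ?_
  -- choice of ε
  set Q : ℝ := 2 * n * ‖b‖ + ∑ k, ‖y k‖ + 1 with hQ
  have hQpos : 0 < Q := by positivity
  obtain ⟨ε, hε, hεQ⟩ : ∃ ε : ℝ, 0 < ε ∧ ε * Q ≤ ε' :=
    ⟨ε' / Q, by positivity, by rw [div_mul_cancel₀ _ hQpos.ne']⟩
  have hv : ∀ k, P (x k) ∈ (Hac N e)ᗮ := fun k => hP15 (x k)
  obtain ⟨m, l, u, θ, hlu, hdisj, hsum, hθc, hθ01, hθ0, hθv⟩ := sSNG H N e hN n _ hv ε hε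
  let T : Fin m → H →L[ℂ] H := fun j => fe e (fun x => (θ j x : ℂ)) N
  have hθcc : ∀ j, Continuous fun x => (θ j x : ℂ) :=
    fun j => Complex.continuous_ofReal.comp (hθc j)
  have hzero : fe e (fun _ => (0 : ℂ)) N = 0 := by
    have h := hF2 0 (fun _ => 0) continuous_const
    simpa using h
  have hTsum : ∀ s : Finset (Fin m), fe e (fun x => ((∑ j ∈ s, θ j x : ℝ) : ℂ)) N = ∑ j ∈ s, T j := by
    intro s
    induction s using Finset.induction_on with
    | empty =>
      simp only [Finset.sum_empty, Complex.ofReal_zero]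
      exact hzero
    | insert a s ha ih =>
      rw [Finset.sum_insert ha, ← ih]
      have h1 : (fun x => ((∑ j ∈ insert a s, θ j x : ℝ) : ℂ)) =
          fun x => (θ a x : ℂ) + ((∑ j ∈ s, θ j x : ℝ) : ℂ) := by
        funext x
        rw [Finset.sum_insert ha, Complex.ofReal_add]
      rw [h1]
      exact (hF1 _ _ (hθcc a) (Complex.continuous_ofReal.comp
        (continuous_finsetSum _ fun j _ => hθc j))).1
  have hsa : ∀ j, IsSelfAdjoint (T j) := by
    intro j
    have h := hF3 _ (hθcc j)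
    rw [IsSelfAdjoint]
    change star (fe e (fun x => (θ j x : ℂ)) N) = fe e (fun x => (θ j x : ℂ)) N
    rw [h]
    congr 1
    funext x
    exact Complex.conj_ofReal _
  have horth : ∀ j j', j ≠ j' → T j * T j' = 0 := by
    intro j j' hjj
    have h := (hF1 _ _ (hθcc j) (hθcc j')).2
    change fe e (fun x => (θ j x : ℂ)) N * fe e (fun x => (θ j' x : ℂ)) N = 0
    rw [← h, ← hzero]
    congr 1
    funext x
    by_cases hx : x ∈ Set.Ioo (l j) (u j)
    · have hx' : x ∉ Set.Ioo (l j') (u j') := fun hx' =>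
        Set.disjoint_left.1 (hdisj j j' hjj) hx hx'
      rw [hθ0 j' x hx', Complex.ofReal_zero, mul_zero]
    · rw [hθ0 j x hx, Complex.ofReal_zero, zero_mul]
  have hloc : ∀ j (w : H), ‖X (T j w) - (((l j + u j) / 2 : ℝ) : ℂ) • T j w‖ ≤
      (u j - l j) * ‖T j w‖ := by
    intro j w
    set c : ℝ := (l j + u j) / 2 with hc
    have hlu' := hlu j
    let g : ℝ → ℂ := fun x => ((max (-(u j - l j)) (min (x - c) (u j - l j)) : ℝ) : ℂ)
    have hgc : Continuous g := Complex.continuous_ofReal.comp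
      (continuous_const.max ((continuous_id.sub continuous_const).min continuous_const))
    have hgn : ‖fe e g N‖ ≤ u j - l j := by
      refine hF7 g (u j - l j) hgc (by linarith) fun x _ => ?_
      change ‖((max (-(u j - l j)) (min (x - c) (u j - l j)) : ℝ) : ℂ)‖ ≤ u j - l j
      rw [Complex.norm_real, Real.norm_eq_abs, abs_le]
      refine ⟨le_max_left _ _, max_le (by linarith) (min_le_right _ _)⟩
    have hid : Continuous fun x : ℝ => (x : ℂ) := Complex.continuous_ofReal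
    have h1 : X * T j = fe e (fun x => (x : ℂ) * (θ j x : ℂ)) N := by
      rw [(hF1 _ _ hid (hθcc j)).2, hF5]
    have h2 : fe e g N * T j = fe e (fun x => g x * (θ j x : ℂ)) N :=
      ((hF1 _ _ hgc (hθcc j)).2).symm
    have h3 : fe e (fun x => (x : ℂ) * (θ j x : ℂ)) N =
        fe e (fun x => g x * (θ j x : ℂ)) N + (c : ℂ) • T j := by
      have h4 : (c : ℂ) • T j = fe e (fun x => (c : ℂ) * (θ j x : ℂ)) N :=
        (hF2 (c : ℂ) _ (hθcc j)).symm
      have hc1 : Continuous fun x => g x * (θ j x : ℂ) := hgc.mul (hθcc j)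
      have hc2 : Continuous fun x : ℝ => (c : ℂ) * (θ j x : ℂ) := continuous_const.mul (hθcc j)
      rw [h4, ← (hF1 _ _ hc1 hc2).1]
      congr 1
      funext x
      by_cases hx : x ∈ Set.Ioo (l j) (u j)
      · have h5 : g x = ((x - c : ℝ) : ℂ) := by
          change ((max (-(u j - l j)) (min (x - c) (u j - l j)) : ℝ) : ℂ) = _
          congr 1
          rw [min_eq_left, max_eq_right]
          · rw [hc]; linarith [hx.1]
          · rw [hc]; linarith [hx.2]
        rw [h5, Complex.ofReal_sub]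
        ring
      · rw [hθ0 j x hx, Complex.ofReal_zero, mul_zero, mul_zero, mul_zero, add_zero]
    have h6 : X (T j w) - (c : ℂ) • T j w = fe e g N (T j w) := by
      have h7 : (X * T j) w = (fe e g N * T j + (c : ℂ) • T j) w := by
        rw [h1, h3, h2]
      have h8 : X (T j w) = fe e g N (T j w) + (c : ℂ) • T j w := h7
      rw [h8, add_sub_cancel_right]
    rw [h6]
    exact (ContinuousLinearMap.le_opNorm _ _).trans
      (mul_le_mul_of_nonneg_right hgn (norm_nonneg _))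
  obtain ⟨R, hR1, hR2, hR3, hR4, hR5, hR6⟩ := exists_proj X hXsa m n T
    (fun j => (l j + u j) / 2) (fun j => u j - l j) (fun j => by linarith [hlu j]) hsa horth hloc
    (fun k => P (x k))
  have hR7 : n1 (br X R) ≤ 2 * n * ε := by
    refine hR6.trans ?_
    have : (0 : ℝ) ≤ 2 * n := by positivity
    exact mul_le_mul_of_nonneg_left hsum this
  have hR8 : ∀ k, ‖(1 - R) (P (x k))‖ ≤ ε := by
    intro k
    have h1 := hθv k
    have h2 : fe e (fun x => ((∑ j, θ j x : ℝ) : ℂ)) N (P (x k)) = ∑ j, T j (P (x k)) := by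
      rw [hTsum Finset.univ, _root_.sum_apply]
    rw [h2] at h1
    have h3 : (1 - R) (∑ j, T j (P (x k))) = 0 := by
      rw [_root_.sub_apply, map_sum R]
      have h4 : ∑ j, R (T j (P (x k))) = ∑ j, T j (P (x k)) :=
        Finset.sum_congr rfl fun j _ => hR4 j k
      rw [h4]
      exact sub_self _
    have h5 : (1 - R) (P (x k)) = (1 - R) (P (x k) - ∑ j, T j (P (x k))) := by
      rw [map_sub, h3, sub_zero]
    rw [h5]
    exact (norm_one_sub_le R hR1 hR2 _).trans h1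
  have hn1R : ‖(1 - R)‖ ≤ 1 := ContinuousLinearMap.opNorm_le_bound _ zero_le_one fun z => by
    rw [one_mul]
    exact norm_one_sub_le R hR1 hR2 z
  -- the operator V
  have hV1 : IsT ((1 - R) * P * b - P * b) := by
    have h1 : (1 - R) * P * b - P * b = -(R * (P * b)) := by noncomm_ring
    rw [h1]
    exact (hR3.mul_right (P * b)).neg
  have hV2 : br X ((1 - R) * P * b) = -(br X R * (P * b)) + (1 - R) * P * br X b := by
    have h1 : br X ((1 - R) * P * b) = -(br X R * (P * b)) + (1 - R) * (X * P) * b -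
        (1 - R) * P * b * X := by
      rw [br, br]
      noncomm_ring
    rw [h1, hXP]
    simp only [br]
    noncomm_ring
  have hA : IsT (-(br X R * (P * b))) := (hR5.mul_right (P * b)).neg
  have hB : IsT ((1 - R) * P * br X b) := hKT.mul_left ((1 - R) * P)
  have hV3 : IsT (br X ((1 - R) * P * b)) := by
    rw [hV2]
    exact hA.add hB
  have hmain := (hK1 e (P * b) ((1 - R) * P * b) hV1 hV3).2
  refine hmain.trans ?_
  change n1 (br X ((1 - R) * P * b)) ≤ η + ε'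
  rw [hV2]
  refine (n1_add_le hA hB).trans ?_
  have hA2 : n1 (-(br X R * (P * b))) ≤ 2 * n * ε * ‖b‖ := by
    rw [n1_neg (hR5.mul_right (P * b))]
    refine (n1_mul_right_le (P * b) hR5).trans ?_
    have h1 : ‖P * b‖ ≤ ‖b‖ := by
      refine (norm_mul_le _ _).trans ?_
      calc ‖P‖ * ‖b‖ ≤ 1 * ‖b‖ := mul_le_mul_of_nonneg_right hP9 (norm_nonneg _)
        _ = ‖b‖ := one_mul _
    calc ‖P * b‖ * n1 (br X R) ≤ ‖b‖ * (2 * n * ε) :=
          mul_le_mul h1 hR7 (n1_nonneg _) (norm_nonneg _)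
      _ = 2 * n * ε * ‖b‖ := by ring
  have hB2 : n1 ((1 - R) * P * br X b) ≤ η + ε * ∑ k, ‖y k‖ := by
    have hS : IsT (∑ k, r1 (x k) (y k)) := IsT.sum _ _ fun i _ => isT_r1 _ _
    have h1 : (1 - R) * P * br X b = (1 - R) * P * (br X b - ∑ k, r1 (x k) (y k)) +
        ∑ k, r1 ((1 - R) (P (x k))) (y k) := by
      have h2 : (1 - R) * P * ∑ k, r1 (x k) (y k) = ∑ k, r1 ((1 - R) (P (x k))) (y k) := by
        rw [Finset.mul_sum]
        exact Finset.sum_congr rfl fun k _ => mul_r1 _ _ _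
      rw [← h2]
      noncomm_ring
    rw [h1]
    have hS1 : IsT (br X b - ∑ k, r1 (x k) (y k)) := hKT.sub hS
    refine (n1_add_le (hS1.mul_left _) (IsT.sum _ _ fun i _ => isT_r1 _ _)).trans ?_
    have h3 : n1 ((1 - R) * P * (br X b - ∑ k, r1 (x k) (y k))) ≤ η := by
      refine (n1_mul_left_le _ hS1).trans ?_
      have h4 : ‖(1 - R) * P‖ ≤ 1 := by
        refine (norm_mul_le _ _).trans ?_
        calc ‖(1 - R)‖ * ‖P‖ ≤ 1 * 1 := mul_le_mul hn1R hP9 (norm_nonneg _) zero_le_one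
          _ = 1 := one_mul _
      calc ‖(1 - R) * P‖ * n1 (br X b - ∑ k, r1 (x k) (y k)) ≤ 1 * η :=
            mul_le_mul h4 hxy.le (n1_nonneg _) zero_le_one
        _ = η := one_mul _
    have h5 : n1 (∑ k, r1 ((1 - R) (P (x k))) (y k)) ≤ ε * ∑ k, ‖y k‖ := by
      refine (n1_sum_le _ _ fun i _ => isT_r1 _ _).trans ?_
      rw [Finset.mul_sum]
      refine Finset.sum_le_sum fun k _ => ?_
      exact (n1_r1_le _ _).trans (mul_le_mul_of_nonneg_right (hR8 k) (norm_nonneg _))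
    linarith
  have h9 : 2 * n * ε * ‖b‖ + ε * ∑ k, ‖y k‖ ≤ ε' := by
    have h10 : 2 * n * ε * ‖b‖ + ε * ∑ k, ‖y k‖ ≤ ε * Q := by
      rw [hQ]
      have : 0 ≤ ε := hε.le
      nlinarith
    exact h10.trans hεQ
  linarith

end Pool.Q2
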