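import Pool.Agent.Work.MP_8c7e5b_q2.Interface

/-!
# MP_8c7e5b_an, Q2: block CMM
-/

open MeasureTheory Complex Filter Topology
open scoped ComplexOrder InnerProductSpace ComplexConjugate BoundedContinuousFunction

set_option autoImplicit false
set_option linter.unusedSectionVars false

universe v

namespace Pool.Q2

open Pool.Bes

namespace CMMAux

variable {H : Type v} [NormedAddCommGroup H] [InnerProductSpace ℂ H] [CompleteSpace H]

theorem cm_cfc_comm {N S : H →L[ℂ] H} (h : Cm N S) (f : ℂ → ℂ) : cfc f N * S = S * cfc f N :=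
  (Commute.cfc (a := N) (b := S) h.1 h.2 f).eq

theorem cm_cfc {N : H →L[ℂ] H} (hN : IsStarNormal N) (f : ℂ → ℂ) : Cm N (cfc f N) := by
  constructor
  · have h := (cfc_commute_cfc (fun z : ℂ => z) f N).eq
    rwa [cfc_id' ℂ N] at h
  · have h := (cfc_commute_cfc (fun z : ℂ => star z) f N).eq
    rwa [cfc_star_id (R := ℂ) N] at h

theorem cm_star {N S : H →L[ℂ] H} (h : Cm N S) : Cm N (star S) := by
  constructor
  · have h1 := congrArg star h.2
    rw [star_mul, star_mul, star_star] at h1
    exact h1.symm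
  · have h1 := congrArg star h.1
    rw [star_mul, star_mul] at h1
    exact h1.symm

theorem cm_mul {N S S' : H →L[ℂ] H} (h : Cm N S) (h' : Cm N S') : Cm N (S * S') := by
  constructor
  · rw [← mul_assoc, h.1, mul_assoc, h'.1, mul_assoc]
  · rw [← mul_assoc, h.2, mul_assoc, h'.2, mul_assoc]

theorem cm_add {N S S' : H →L[ℂ] H} (h : Cm N S) (h' : Cm N S') : Cm N (S + S') := by
  constructor
  · rw [mul_add, add_mul, h.1, h'.1]
  · rw [mul_add, add_mul, h.2, h'.2]

theorem cm_sub {N S S' : H →L[ℂ] H} (h : Cm N S) (h' : Cm N S') : Cm N (S - S') := by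
  constructor
  · rw [mul_sub, sub_mul, h.1, h'.1]
  · rw [mul_sub, sub_mul, h.2, h'.2]

theorem cm_one (N : H →L[ℂ] H) : Cm N (1 : H →L[ℂ] H) :=
  ⟨by rw [one_mul, mul_one], by rw [one_mul, mul_one]⟩

theorem dt_comm {N S : H →L[ℂ] H} (h : Cm N S) (e : ℂ) : dt e N * S = S * dt e N := by
  simp only [dt, smul_mul_assoc, mul_smul_comm, add_mul, mul_add, h.1, h.2]

theorem isSelfAdjoint_dt (N : H →L[ℂ] H) (e : ℂ) : IsSelfAdjoint (dt e N) := by
  rw [IsSelfAdjoint]
  have h : star (1 / 2 : ℂ) = 1 / 2 := by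
    rw [Complex.star_def]
    apply Complex.ext <;> simp
  simp only [dt, star_smul, star_add, star_star, h, Complex.star_def, Complex.conj_conj]
  rw [add_comm]

theorem dt_lin (N : H →L[ℂ] H) (e e' : ℂ) (a b : ℝ) : dt ((a : ℂ) * e + (b : ℂ) * e') N =
    (a : ℂ) • dt e N + (b : ℂ) • dt e' N := by
  simp only [dt, map_add, map_mul, Complex.conj_ofReal]
  module

theorem eq_dt (N : H →L[ℂ] H) : N = dt 1 N + Complex.I • dt Complex.I N := by
  simp only [dt, map_one, Complex.conj_I, smul_add, smul_smul]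
  have h : ∀ x : ℂ, Complex.I * (x * Complex.I) = -x := by
    intro x
    linear_combination x * Complex.I_mul_I
  have h' : Complex.I * (1 / 2 * -Complex.I) = 1 / 2 := by
    linear_combination (-1 / 2 : ℂ) * Complex.I_mul_I
  rw [h', h, mul_one]
  module

theorem br_dt (N b : H →L[ℂ] H) (e : ℂ) : br (dt e N) b =
    (e.re : ℂ) • br (dt 1 N) b + (e.im : ℂ) • br (dt Complex.I N) b := by
  rw [DUAux.dt_eq e N]
  simp only [br, add_mul, mul_add, smul_mul_assoc, mul_smul_comm, smul_sub]
  abel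

theorem br_star {N b : H →L[ℂ] H} (e : ℂ) : br (dt e N) (star b) = -star (br (dt e N) b) := by
  simp only [br, star_sub, star_mul, (isSelfAdjoint_dt N e).star_eq]
  abel

theorem br_mul (Z b c : H →L[ℂ] H) : br Z (b * c) = br Z b * c + b * br Z c := by
  simp only [br, sub_mul, mul_sub, mul_assoc]
  abel

theorem br_add (Z b c : H →L[ℂ] H) : br Z (b + c) = br Z b + br Z c := by
  simp only [br, add_mul, mul_add]
  abel

theorem br_sub (Z b c : H →L[ℂ] H) : br Z (b - c) = br Z b - br Z c := by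
  simp only [br, sub_mul, mul_sub]
  abel

end CMMAux

open CMMAux in
/-- Block CMM. -/
theorem blk_CMM : Stmt_CMM.{v} := by
  intro H _ _ _ N hN
  refine ⟨?_, fun f => cm_cfc hN f, ?_, fun s => cm_cfc hN (ch s), ?_, cm_one N,
    isSelfAdjoint_dt N, fun e => DUAux.norm_dt_le e N, dt_lin N, eq_dt N, ?_, ?_, ?_, ?_⟩
  · intro S h
    exact ⟨dt_comm h, fun s => cm_cfc_comm h (ch s), cm_cfc_comm h, cm_star h⟩
  · intro e
    rw [EXB.dt_eq_cfc N hN]
    exact cm_cfc hN _
  · intro S S' h h'
    exact ⟨cm_mul h h', cm_add h h', cm_sub h h'⟩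
  · intro b hb
    refine ⟨fun e => ?_, ?_⟩
    · rw [br_dt]
      have h1 := hb.1.smul (e.re : ℂ)
      have h2 := hb.2.smul (e.im : ℂ)
      refine ⟨h1.add h2, (n1_add_le h1 h2).trans ?_⟩
      rw [n1_smul _ hb.1, n1_smul _ hb.2, Complex.norm_real, Complex.norm_real, Real.norm_eq_abs,
        Real.norm_eq_abs, mul_add]
      have h3 := Complex.abs_re_le_norm e
      have h4 := Complex.abs_im_le_norm e
      have h5 := n1_nonneg (br (dt 1 N) b)
      have h6 := n1_nonneg (br (dt Complex.I N) b)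
      gcongr
    · constructor
      · rw [br_star]
        exact hb.1.star.neg
      · rw [br_star]
        exact hb.2.star.neg
  · intro b c hb hc
    refine ⟨⟨?_, ?_⟩, ⟨?_, ?_⟩, ⟨?_, ?_⟩⟩
    · rw [br_mul]
      exact (hb.1.mul_right _).add (hc.1.mul_left _)
    · rw [br_mul]
      exact (hb.2.mul_right _).add (hc.2.mul_left _)
    · rw [br_add]
      exact hb.1.add hc.1
    · rw [br_add]
      exact hb.2.add hc.2
    · rw [br_sub]
      exact hb.1.sub hc.1
    · rw [br_sub]
      exact hb.2.sub hc.2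
  · intro S h
    constructor
    · rw [br, dt_comm h, sub_self]
      exact isT_zero
    · rw [br, dt_comm h, sub_self]
      exact isT_zero
  · intro b hb
    exact ⟨(hb.mul_left _).sub (hb.mul_right _), (hb.mul_left _).sub (hb.mul_right _)⟩

end Pool.Q2
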