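import Pool.Agent.Work.MP_8c7e5b_q2.Interface2

/-!
# MP_8c7e5b_an, Q2: block DEC
-/

open MeasureTheory Complex Filter Topology
open scoped ComplexOrder InnerProductSpace ComplexConjugate BoundedContinuousFunction

set_option autoImplicit false
set_option linter.unusedSectionVars false

universe v

namespace Pool.Q2

open Pool.Bes

namespace DECAux

variable {H : Type v} [NormedAddCommGroup H] [InnerProductSpace ℂ H] [CompleteSpace H]

/-- `Cm N (dt e N)` -/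
theorem cm_dt (N : H →L[ℂ] H) (hN : IsStarNormal N) (e : ℂ) : Cm N (dt e N) := by
  have h1 : star N * N = N * star N := hN.star_comm_self
  constructor
  · rw [dt, mul_smul_comm, smul_mul_assoc, mul_add, add_mul]
    congr 1
    rw [mul_smul_comm, mul_smul_comm, smul_mul_assoc, smul_mul_assoc, h1]
  · rw [dt, mul_smul_comm, smul_mul_assoc, mul_add, add_mul]
    congr 1
    rw [mul_smul_comm, mul_smul_comm, smul_mul_assoc, smul_mul_assoc, h1]

theorem integrable_sq {c : ℝ → ℂ} (hc : Continuous c)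
    (h : Integrable (fun t : ℝ => ‖c t‖ ^ 2)) : Integrable (fun t : ℝ => c t ^ 2) := by
  refine h.mono (hc.pow 2).aestronglyMeasurable ?_
  refine Filter.Eventually.of_forall fun t => ?_
  rw [norm_pow, Real.norm_of_nonneg (by positivity)]

theorem integrable_mul {c d : ℝ → ℂ} (hc : Continuous c) (hd : Continuous d)
    (h : Integrable (fun t : ℝ => ‖c t‖ ^ 2)) (h' : Integrable (fun t : ℝ => ‖d t‖ ^ 2)) :
    Integrable (fun t : ℝ => 2 * c t * d t) := by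
  refine (h.add h').mono ((continuous_const.mul hc).mul hd).aestronglyMeasurable ?_
  refine Filter.Eventually.of_forall fun t => ?_
  have h1 : ‖2 * c t * d t‖ = 2 * ‖c t‖ * ‖d t‖ := by
    rw [norm_mul, norm_mul]; simp
  rw [h1, Pi.add_apply, Real.norm_of_nonneg (by positivity)]
  nlinarith [sq_nonneg (‖c t‖ - ‖d t‖)]

theorem tendsto_of_sq {l : Filter ℝ} {c : ℝ → ℂ} (h : Tendsto (fun t => c t ^ 2) l (𝓝 0)) :
    Tendsto c l (𝓝 0) := by
  rw [tendsto_zero_iff_norm_tendsto_zero] at h ⊢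
  have h2 : Tendsto (fun t => Real.sqrt ‖c t ^ 2‖) l (𝓝 (Real.sqrt 0)) :=
    (Real.continuous_sqrt.tendsto 0).comp h
  rw [Real.sqrt_zero] at h2
  refine h2.congr fun t => ?_
  rw [norm_pow, Real.sqrt_sq (norm_nonneg _)]

theorem main {l : Filter ℝ} (N : H →L[ℂ] H) (e : ℂ)
    (hd : ∀ ψ ∈ Hac N e, ∀ ε : ℝ, 0 < ε → ∃ (m : ℝ) (φ : H), 0 ≤ m ∧ φ ∈ Dn N e m ∧ ‖ψ - φ‖ < ε)
    (h0 : ∀ (m : ℝ) (φ u : H), 0 ≤ m → φ ∈ Dn N e m →
      Tendsto (fun t : ℝ => ⟪u, ex N (t * e) φ⟫_ℂ) l (𝓝 0))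
    (K : H →L[ℂ] H) (hK : IsT K) (ψ : H) (hψ : ψ ∈ Hac N e) :
    Tendsto (fun t : ℝ => K (ex N (t * e) ψ)) l (𝓝 0) := by
  -- for `φ` in `Dn`
  have h1 : ∀ (m : ℝ) (φ : H), 0 ≤ m → φ ∈ Dn N e m →
      Tendsto (fun t : ℝ => K (ex N (t * e) φ)) l (𝓝 0) := by
    intro m φ hm hφ
    rw [Metric.tendsto_nhds]
    intro ε hε
    obtain ⟨n, x, y, hxy⟩ := exists_fin_near hK (ε / (2 * (‖φ‖ + 1))) (by positivity)
    set F : H →L[ℂ] H := ∑ i, r1 (x i) (y i) with hF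
    have hFT : Tendsto (fun t : ℝ => F (ex N (t * e) φ)) l (𝓝 0) := by
      have h2 : Tendsto (fun t : ℝ => ∑ i, ⟪y i, ex N (t * e) φ⟫_ℂ • x i) l
          (𝓝 (∑ i : Fin n, (0 : ℂ) • x i)) := by
        refine tendsto_finsetSum _ fun i _ => ?_
        exact (h0 m φ (y i) hm hφ).smul_const (x i)
      simp only [zero_smul, Finset.sum_const_zero] at h2
      refine h2.congr fun t => ?_
      rw [hF, _root_.sum_apply]
      rfl
    rw [Metric.tendsto_nhds] at hFT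
    filter_upwards [hFT (ε / 2) (by positivity)] with t ht
    rw [dist_zero_right] at ht ⊢
    have h3 : K (ex N (t * e) φ) = F (ex N (t * e) φ) + (K - F) (ex N (t * e) φ) := by
      rw [_root_.sub_apply]; abel
    have h4 : ‖(K - F) (ex N (t * e) φ)‖ ≤ ‖K - F‖ * ‖φ‖ := by
      refine (ContinuousLinearMap.le_opNorm _ _).trans ?_
      refine mul_le_mul_of_nonneg_left ?_ (norm_nonneg _)
      calc ‖ex N (t * e) φ‖ ≤ ‖ex N (t * e)‖ * ‖φ‖ := ContinuousLinearMap.le_opNorm _ _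
        _ ≤ 1 * ‖φ‖ := mul_le_mul_of_nonneg_right (EXB.norm_ex_le _ _) (norm_nonneg _)
        _ = ‖φ‖ := one_mul _
    have hFT' : IsT F := IsT.sum _ _ fun i _ => isT_r1 _ _
    have h5 : ‖K - F‖ < ε / (2 * (‖φ‖ + 1)) := (norm_le_n1 (hK.sub hFT')).trans_lt hxy
    have h6 : ‖K - F‖ * ‖φ‖ ≤ ε / 2 := by
      have : ‖K - F‖ * ‖φ‖ ≤ ε / (2 * (‖φ‖ + 1)) * (‖φ‖ + 1) := by
        refine mul_le_mul h5.le (by linarith) (norm_nonneg _) (by positivity)
      refine this.trans (le_of_eq ?_)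
      field_simp
    rw [h3]
    calc ‖F (ex N (t * e) φ) + (K - F) (ex N (t * e) φ)‖
        ≤ ‖F (ex N (t * e) φ)‖ + ‖(K - F) (ex N (t * e) φ)‖ := norm_add_le _ _
      _ < ε / 2 + ε / 2 := add_lt_add_of_lt_of_le ht (h4.trans h6)
      _ = ε := by ring
  rw [Metric.tendsto_nhds]
  intro ε hε
  obtain ⟨m, φ, hm, hφ, hψφ⟩ := hd ψ hψ (ε / (2 * (‖K‖ + 1))) (by positivity)
  have h2 := h1 m φ hm hφ
  rw [Metric.tendsto_nhds] at h2
  filter_upwards [h2 (ε / 2) (by positivity)] with t ht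
  rw [dist_zero_right] at ht ⊢
  have h3 : K (ex N (t * e) ψ) = K (ex N (t * e) φ) + K (ex N (t * e) (ψ - φ)) := by
    rw [← map_add, ← map_add]
    congr 2
    abel
  have h4 : ‖K (ex N (t * e) (ψ - φ))‖ ≤ ‖K‖ * ‖ψ - φ‖ := by
    refine (ContinuousLinearMap.le_opNorm _ _).trans ?_
    refine mul_le_mul_of_nonneg_left ?_ (norm_nonneg _)
    calc ‖ex N (t * e) (ψ - φ)‖ ≤ ‖ex N (t * e)‖ * ‖ψ - φ‖ := ContinuousLinearMap.le_opNorm _ _
      _ ≤ 1 * ‖ψ - φ‖ := mul_le_mul_of_nonneg_right (EXB.norm_ex_le _ _) (norm_nonneg _)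
      _ = ‖ψ - φ‖ := one_mul _
  have h6 : ‖K‖ * ‖ψ - φ‖ ≤ ε / 2 := by
    have : ‖K‖ * ‖ψ - φ‖ ≤ (‖K‖ + 1) * (ε / (2 * (‖K‖ + 1))) := by
      refine mul_le_mul (by linarith) hψφ.le (norm_nonneg _) (by positivity)
    refine this.trans (le_of_eq ?_)
    field_simp
  rw [h3]
  calc ‖K (ex N (t * e) φ) + K (ex N (t * e) (ψ - φ))‖
      ≤ ‖K (ex N (t * e) φ)‖ + ‖K (ex N (t * e) (ψ - φ))‖ := norm_add_le _ _
    _ < ε / 2 + ε / 2 := add_lt_add_of_lt_of_le ht (h4.trans h6)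
    _ = ε := by ring

end DECAux

open DECAux in
theorem blk_DEC (hPAC : Stmt_PAC.{v}) (hL2T : Stmt_L2T.{v}) : Stmt_DEC.{v} := by
  intro H _ _ _ N e hN K ψ hK hψ
  have hP := hPAC H N e hN
  obtain ⟨-, -, -, -, -, -, -, -, -, -, -, -, -, -, -, hd, -, hS⟩ := hP
  have hL := hL2T H N e hN
  have hcont : ∀ (φ u : H), Continuous fun t : ℝ => ⟪u, ex N (t * e) φ⟫_ℂ := by
    intro φ u
    have h1 : Continuous fun t : ℝ => ex N (t * e) φ := by
      have h2 : Continuous fun t : ℝ => ex N ((t : ℂ) * e) :=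
        (EXB.continuous_ex N).comp (Complex.continuous_ofReal.mul continuous_const)
      exact h2.clm_apply continuous_const
    exact continuous_const.inner h1
  have hder : ∀ (φ u : H) (t : ℝ), HasDerivAt (fun t : ℝ => ⟪u, ex N (t * e) φ⟫_ℂ)
      ⟪u, ex N (t * e) (Complex.I • dt e N φ)⟫_ℂ t := by
    intro φ u t
    have h1 := EXB.hasDerivAt_ex N hN e t
    have h2 : HasDerivAt (fun t : ℝ => ex N (t * e) φ)
        ((Complex.I • (dt e N * ex N (t * e))) φ) t := by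
      exact ((ContinuousLinearMap.apply ℂ H φ).restrictScalars ℝ).hasFDerivAt.comp_hasDerivAt t h1
    have h3 : (Complex.I • (dt e N * ex N (t * e))) φ = ex N (t * e) (Complex.I • dt e N φ) := by
      have h4 : dt e N * ex N (t * e) = ex N (t * e) * dt e N :=
        (EXB.commute_dt_ex N hN (t * e) e).eq
      rw [h4, map_smul]
      rfl
    rw [h3] at h2
    have h5 := (hasDerivAt_const t u).inner ℂ h2
    simpa using h5
  have hsq : ∀ (m : ℝ) (φ u : H), 0 ≤ m → φ ∈ Dn N e m →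
      Integrable (fun t : ℝ => ⟪u, ex N (t * e) φ⟫_ℂ ^ 2) ∧
      Integrable (fun t : ℝ => 2 * ⟪u, ex N (t * e) φ⟫_ℂ *
        ⟪u, ex N (t * e) (Complex.I • dt e N φ)⟫_ℂ) := by
    intro m φ u hm hφ
    have h1 := (hL m φ u hm hφ).1
    have h2 : dt e N φ ∈ Dn N e (‖dt e N‖ * m) := hS m (dt e N) φ hm (cm_dt N hN e) hφ
    have h3 := (hL (‖dt e N‖ * m) (dt e N φ) u (by positivity) h2).1
    have h4 : Integrable (fun t : ℝ => ‖⟪u, ex N (t * e) (Complex.I • dt e N φ)⟫_ℂ‖ ^ 2) := by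
      refine h3.congr (Filter.Eventually.of_forall fun t => ?_)
      simp only
      rw [map_smul, inner_smul_right, norm_mul, Complex.norm_I, one_mul]
    exact ⟨integrable_sq (hcont φ u) h1, integrable_mul (hcont φ u) (hcont _ u) h1 h4⟩
  have hder2 : ∀ (φ u : H) (t : ℝ), HasDerivAt (fun t : ℝ => ⟪u, ex N (t * e) φ⟫_ℂ ^ 2)
      (2 * ⟪u, ex N (t * e) φ⟫_ℂ * ⟪u, ex N (t * e) (Complex.I • dt e N φ)⟫_ℂ) t := by
    intro φ u t
    refine ((hder φ u t).fun_pow 2).congr_deriv ?_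
    simp
  refine ⟨main N e hd ?_ K hK ψ hψ, main N e hd ?_ K hK ψ hψ⟩
  · intro m φ u hm hφ
    refine tendsto_of_sq ?_
    exact tendsto_zero_of_hasDerivAt_of_integrableOn_Ioi (a := 0) (fun x _ => hder2 φ u x)
      (hsq m φ u hm hφ).2.integrableOn (hsq m φ u hm hφ).1.integrableOn
  · intro m φ u hm hφ
    refine tendsto_of_sq ?_
    exact tendsto_zero_of_hasDerivAt_of_integrableOn_Iic (a := 0) (fun x _ => hder2 φ u x)
      (hsq m φ u hm hφ).2.integrableOn (hsq m φ u hm hφ).1.integrableOn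

end Pool.Q2
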