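import Pool.Agent.Work.MP_8c7e5b_q2.Interface4

/-!
# MP_8c7e5b_an, Q2, block DIL: dilation of a normal operator with its calculus
-/

open MeasureTheory Complex Filter Topology
open scoped ComplexOrder InnerProductSpace ComplexConjugate BoundedContinuousFunction ZeroAtInfty

set_option autoImplicit false
set_option linter.unusedSectionVars false

universe v

namespace Pool.Q2

open Pool.Bes

namespace DILBlock

/-- multiplication by a nonzero complex number, as a cocompact map -/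
noncomputable def sc (c : ℂ) (hc : c ≠ 0) : CocompactMap ℂ ℂ :=
  (Homeomorph.mulLeft₀ c hc).toCocompactMap

theorem sc_apply (c : ℂ) (hc : c ≠ 0) (z : ℂ) : sc c hc z = c * z := rfl

theorem comp_apply (c : ℂ) (hc : c ≠ 0) (f : C₀(ℂ, ℂ)) (z : ℂ) :
    (f.comp (sc c hc)) z = f (c * z) := rfl

/-- composition with `sc c` as a star homomorphism of `C₀(ℂ)` -/
noncomputable def scHom (c : ℂ) (hc : c ≠ 0) : C₀(ℂ, ℂ) →⋆ₙₐ[ℂ] C₀(ℂ, ℂ) :=
  { ZeroAtInftyContinuousMap.compNonUnitalAlgHom (R := ℂ) (sc c hc) with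
    map_star' := fun f => by
      ext z
      rfl }

theorem scHom_apply (c : ℂ) (hc : c ≠ 0) (f : C₀(ℂ, ℂ)) (z : ℂ) :
    (scHom c hc f) z = f (c * z) := rfl

end DILBlock

open DILBlock in
theorem blk_DIL : Stmt_DIL.{v} := by
  intro H _ _ _ N π δ hN hδ
  have hc : (δ : ℂ) ≠ 0 := by exact_mod_cast hδ.ne'
  have hci : (δ : ℂ)⁻¹ ≠ 0 := inv_ne_zero hc
  obtain ⟨hnd, hgr⟩ := hN
  have hgraph : ∀ x y : H, (x, y) ∈ N.graph ↔ (x, (δ : ℂ) • y) ∈ ((δ : ℂ) • N).graph := by
    intro x y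
    rw [LinearPMap.smul_graph, Submodule.mem_map]
    constructor
    · intro h
      exact ⟨(x, y), h, rfl⟩
    · rintro ⟨⟨x', y'⟩, h, he⟩
      simp only [LinearMap.prodMap_apply, LinearMap.id_coe, id, LinearMap.smul_apply,
        Prod.mk.injEq] at he
      obtain ⟨rfl, he⟩ := he
      have : y' = y := smul_right_injective H hc he
      rw [← this]
      exact h
  have hπ' : ∀ f g : C₀(ℂ, ℂ), (∀ z : ℂ, g z = f (δ * z)) →
      (π.comp (scHom (δ : ℂ) hc)) f = π g := by
    intro f g h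
    have : scHom (δ : ℂ) hc f = g := by
      ext z
      rw [scHom_apply, h z]
    rw [NonUnitalStarAlgHom.comp_apply, this]
  refine ⟨(δ : ℂ) • N, π.comp (scHom (δ : ℂ) hc), ⟨?_, ?_⟩, hπ', hgraph⟩
  · intro x hx
    apply hnd x
    intro f
    have h1 := hx (scHom (δ : ℂ)⁻¹ hci f)
    rwa [hπ' (scHom (δ : ℂ)⁻¹ hci f) f (fun z => by
      rw [scHom_apply, inv_mul_cancel_left₀ hc])] at h1
  · intro x w
    have hw : w = (δ : ℂ) • ((δ : ℂ)⁻¹ • w) := by
      rw [smul_smul, mul_inv_cancel₀ hc, one_smul]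
    have e1 : (x, w) ∈ ((δ : ℂ) • N).graph ↔ (x, (δ : ℂ)⁻¹ • w) ∈ N.graph := by
      rw [hgraph x ((δ : ℂ)⁻¹ • w), ← hw]
    rw [e1, hgr]
    constructor
    · intro h f g hfg
      have h1 := h (scHom (δ : ℂ) hc f) ((δ : ℂ)⁻¹ • scHom (δ : ℂ) hc g) (fun z => by
        rw [ZeroAtInftyContinuousMap.smul_apply, scHom_apply, scHom_apply, hfg, smul_eq_mul]
        field_simp)
      rw [map_smul, _root_.smul_apply, ContinuousLinearMap.map_smul] at h1
      exact smul_right_injective H hci h1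
    · intro h f g hfg
      have h1 := h (scHom (δ : ℂ)⁻¹ hci f) ((δ : ℂ) • scHom (δ : ℂ)⁻¹ hci g) (fun z => by
        rw [ZeroAtInftyContinuousMap.smul_apply, scHom_apply, scHom_apply, hfg, smul_eq_mul]
        field_simp)
      rw [map_smul, _root_.smul_apply,
        hπ' (scHom (δ : ℂ)⁻¹ hci g) g (fun z => by rw [scHom_apply, inv_mul_cancel_left₀ hc]),
        hπ' (scHom (δ : ℂ)⁻¹ hci f) f (fun z => by
          rw [scHom_apply, inv_mul_cancel_left₀ hc])] at h1
      rw [ContinuousLinearMap.map_smul, ← h1, smul_smul, inv_mul_cancel₀ hc, one_smul]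

end Pool.Q2
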