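import Pool.Agent.Work.MP_8c7e5b_q2.Interface

/-!
# MP_8c7e5b_an, Q2: block DIM (the defect space of the partial isometry)
-/

open MeasureTheory Complex Filter Topology
open scoped ComplexOrder InnerProductSpace ComplexConjugate

set_option autoImplicit false
set_option linter.unusedSectionVars false

universe v

namespace Pool.Q2

open Pool.Bes

namespace DIMAux

variable {H : Type v} [NormedAddCommGroup H] [InnerProductSpace ℂ H] [CompleteSpace H]
variable {K : Type v} [NormedAddCommGroup K] [InnerProductSpace ℂ K] [CompleteSpace K]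

/-- the isometry of `ℂ^r` given by an orthonormal family -/
noncomputable def wm {r : ℕ} (e : Fin r → K) : Ef r →L[ℂ] K :=
  LinearMap.toContinuousLinearMap
    { toFun := fun x => ∑ k, x k • e k
      map_add' := fun x y => by
        simp only [PiLp.add_apply, add_smul, Finset.sum_add_distrib]
      map_smul' := fun c x => by
        simp only [PiLp.smul_apply, smul_eq_mul, mul_smul, Finset.smul_sum, RingHom.id_apply] }

theorem wm_apply {r : ℕ} (e : Fin r → K) (x : Ef r) : wm e x = ∑ k, x k • e k := rfl

theorem adj_wm {r : ℕ} (e : Fin r → K) (y : K) (k : Fin r) :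
    (ContinuousLinearMap.adjoint (wm e) y) k = ⟪e k, y⟫_ℂ := by
  classical
  have h1 : ⟪EuclideanSpace.single k (1 : ℂ), ContinuousLinearMap.adjoint (wm e) y⟫_ℂ =
      ⟪e k, y⟫_ℂ := by
    rw [ContinuousLinearMap.adjoint_inner_right, wm_apply, Finset.sum_eq_single k]
    · simp
    · intro l _ hl
      simp [hl]
    · intro h
      exact absurd (Finset.mem_univ _) h
  rw [← h1, EuclideanSpace.inner_single_left]
  simp

theorem wm_iso {r : ℕ} {e : Fin r → K} (he : Orthonormal ℂ e) :
    (ContinuousLinearMap.adjoint (wm e)) ∘L (wm e) = ContinuousLinearMap.id ℂ (Ef r) := by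
  classical
  refine ContinuousLinearMap.ext fun x => ?_
  ext k
  rw [ContinuousLinearMap.comp_apply, adj_wm, wm_apply, inner_sum, Finset.sum_eq_single k]
  · rw [inner_smul_right, orthonormal_iff_ite.1 he, if_pos rfl, mul_one]
    rfl
  · intro l _ hl
    rw [inner_smul_right, orthonormal_iff_ite.1 he, if_neg (Ne.symm hl), mul_zero]
  · intro h
    exact absurd (Finset.mem_univ _) h

theorem wm_range {r : ℕ} (e : Fin r → K) :
    (wm e) ∘L (ContinuousLinearMap.adjoint (wm e)) = ∑ k, r1 (e k) (e k) := by
  refine ContinuousLinearMap.ext fun y => ?_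
  rw [ContinuousLinearMap.comp_apply, wm_apply, _root_.sum_apply]
  refine Finset.sum_congr rfl fun k _ => ?_
  rw [adj_wm, r1_apply]

/-- `a^* a` a projection: `a a^* a = a` -/
theorem partial_iso {a : K →L[ℂ] K} (h : star a * a * (star a * a) = star a * a) :
    a * (star a * a) = a := by
  have h1 : star (a * (star a * a) - a) * (a * (star a * a) - a) = 0 := by
    have h2 : star (a * (star a * a) - a) = star a * a * star a - star a := by
      simp only [star_sub, star_mul, star_star]
    rw [h2]
    have h3 : (star a * a * star a - star a) * (a * (star a * a) - a) =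
        star a * a * (star a * a) * (star a * a) - star a * a * (star a * a)
          - (star a * a * (star a * a) - star a * a) := by noncomm_ring
    rw [h3, h, h]
    abel
  have h4 : ‖a * (star a * a) - a‖ * ‖a * (star a * a) - a‖ = 0 := by
    rw [← CStarRing.norm_star_mul_self, h1, norm_zero]
  have h5 := mul_self_eq_zero.1 h4
  exact sub_eq_zero.1 (norm_eq_zero.1 h5)

end DIMAux

open DIMAux in
theorem blk_DIM (hPRJ : Stmt_PRJ.{v}) (hTRN : Stmt_TRN.{v}) : Stmt_DIM.{v} := by
  intro H _ _ _ K _ _ _ Ω r i j a hΩ hds haa hab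
  set P : K →L[ℂ] K := i ∘L (ContinuousLinearMap.adjoint i) with hP
  set Q : K →L[ℂ] K := j ∘L (ContinuousLinearMap.adjoint j) with hQ
  set b : K →L[ℂ] K := cor i Ω with hb
  have hPQ : P + Q = 1 := hds.hs
  have hPP : P * P = P := by
    rw [hP]
    refine ContinuousLinearMap.ext fun x => ?_
    have h := congrArg (fun T : H →L[ℂ] H => i (T (ContinuousLinearMap.adjoint i x))) hds.hi
    exact h
  have hsq : star a * a * (star a * a) = star a * a := by rw [haa, hPP]
  have hpi := partial_iso hsq
  have hadj : ∀ x, ContinuousLinearMap.adjoint i (i x) = x := fun x => by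
    have h := congrArg (fun T : H →L[ℂ] H => T x) hds.hi
    exact h
  have hbs : star b = i ∘L (star Ω) ∘L (ContinuousLinearMap.adjoint i) := by
    rw [hb]
    unfold cor
    change ContinuousLinearMap.adjoint (i ∘L Ω ∘L (ContinuousLinearMap.adjoint i)) = _
    rw [ContinuousLinearMap.adjoint_comp, ContinuousLinearMap.adjoint_comp,
      ContinuousLinearMap.adjoint_adjoint]
    rfl
  have hbb : b * star b = P := by
    rw [hbs]
    refine ContinuousLinearMap.ext fun x => ?_
    change i (Ω (ContinuousLinearMap.adjoint i (i (star Ω (ContinuousLinearMap.adjoint i x))))) =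
      i (ContinuousLinearMap.adjoint i x)
    rw [hadj]
    have h := congrArg (fun T : H →L[ℂ] H => T (ContinuousLinearMap.adjoint i x)) hΩ.2
    exact congrArg i h
  have hbb' : star b * b = P := by
    rw [hbs]
    refine ContinuousLinearMap.ext fun x => ?_
    change i (star Ω (ContinuousLinearMap.adjoint i (i (Ω (ContinuousLinearMap.adjoint i x))))) =
      i (ContinuousLinearMap.adjoint i x)
    rw [hadj]
    have h := congrArg (fun T : H →L[ℂ] H => T (ContinuousLinearMap.adjoint i x)) hΩ.1
    exact congrArg i h
  -- the projection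
  have hpsa : IsSelfAdjoint (1 - a * star a) := by
    rw [IsSelfAdjoint, star_sub, star_one, star_mul, star_star]
  have hpp : (1 - a * star a) * (1 - a * star a) = 1 - a * star a := by
    have h1 : a * star a * (a * star a) = a * star a := by
      calc a * star a * (a * star a) = (a * (star a * a)) * star a := by noncomm_ring
        _ = a * star a := by rw [hpi]
    rw [sub_mul, one_mul, mul_sub, mul_one, h1]
    abel
  have hTQ : IsT Q := ((hTRN.2.1) r K j (ContinuousLinearMap.adjoint j)).1
  have htQ : trO Q = (r : ℂ) := by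
    rw [hQ, ((hTRN.2.1) r K j (ContinuousLinearMap.adjoint j)).2.2, hds.hj]
    change LinearMap.trace ℂ (Ef r) LinearMap.id = _
    rw [LinearMap.trace_id]
    simp
  have hT1 : IsT (a * star (a - b)) := hab.star.mul_left a
  have hT2 : IsT ((a - b) * star b) := hab.mul_right (star b)
  have hdec : 1 - a * star a = Q - (a * star (a - b) + (a - b) * star b) := by
    rw [star_sub, mul_sub, sub_mul, hbb, ← hPQ]
    abel
  have hTp : IsT (1 - a * star a) := by
    rw [hdec]
    exact hTQ.sub (hT1.add hT2)
  have htr0 : trO (a * star (a - b) + (a - b) * star b) = 0 := by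
    rw [trO_add hT1 hT2, trO_mul_comm a hab.star, ← trO_mul_comm (star b) hab,
      ← trO_add (hab.star.mul_right a) (hab.mul_left (star b))]
    have h1 : star (a - b) * a + star b * (a - b) = 0 := by
      rw [star_sub, sub_mul, mul_sub, haa, hbb']
      abel
    rw [h1, trO_zero]
  have htr : trO (1 - a * star a) = (r : ℂ) := by
    rw [hdec, trO_sub hTQ (hT1.add hT2), htr0, htQ, sub_zero]
  obtain ⟨e, he, hpe⟩ := hPRJ K (1 - a * star a) r hpsa hpp hTp htr
  refine ⟨wm e, wm_iso he, ?_⟩
  rw [wm_range, hpe]

end Pool.Q2
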