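import Pool.Agent.Work.MP_8c7e5b_q2.Interface

/-!
# MP_8c7e5b_an, Q2: block DSX
-/

open MeasureTheory Complex Filter Topology
open scoped ComplexOrder InnerProductSpace ComplexConjugate BoundedContinuousFunction

set_option autoImplicit false
set_option linter.unusedSectionVars false

universe v

namespace Pool.Q2

open Pool.Bes

namespace DSXAux

variable (H : Type v) [NormedAddCommGroup H] [InnerProductSpace ℂ H] [CompleteSpace H]
  (E : Type) [NormedAddCommGroup E] [InnerProductSpace ℂ E] [CompleteSpace E]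

/-- the first inclusion -/
noncomputable def ii : H →L[ℂ] WithLp 2 (H × E) :=
  ((WithLp.prodContinuousLinearEquiv 2 ℂ H E).symm : (H × E) →L[ℂ] WithLp 2 (H × E)) ∘L
    ContinuousLinearMap.inl ℂ H E

/-- the second inclusion -/
noncomputable def jj : E →L[ℂ] WithLp 2 (H × E) :=
  ((WithLp.prodContinuousLinearEquiv 2 ℂ H E).symm : (H × E) →L[ℂ] WithLp 2 (H × E)) ∘L
    ContinuousLinearMap.inr ℂ H E

/-- the first projection -/
noncomputable def pp : WithLp 2 (H × E) →L[ℂ] H :=
  ContinuousLinearMap.fst ℂ H E ∘L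
    ((WithLp.prodContinuousLinearEquiv 2 ℂ H E) : WithLp 2 (H × E) →L[ℂ] (H × E))

/-- the second projection -/
noncomputable def qq : WithLp 2 (H × E) →L[ℂ] E :=
  ContinuousLinearMap.snd ℂ H E ∘L
    ((WithLp.prodContinuousLinearEquiv 2 ℂ H E) : WithLp 2 (H × E) →L[ℂ] (H × E))

theorem adj_ii : ContinuousLinearMap.adjoint (ii H E) = pp H E := by
  symm
  rw [ContinuousLinearMap.eq_adjoint_iff]
  intro x y
  rw [WithLp.prod_inner_apply]
  simp [ii, pp]

theorem adj_jj : ContinuousLinearMap.adjoint (jj H E) = qq H E := by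
  symm
  rw [ContinuousLinearMap.eq_adjoint_iff]
  intro x y
  rw [WithLp.prod_inner_apply]
  simp [jj, qq]

theorem isDS : IsDS (ii H E) (jj H E) where
  hi := by
    rw [adj_ii]
    ext x
    simp [ii, pp]
  hj := by
    rw [adj_jj]
    ext x
    simp [jj, qq]
  hij := by
    rw [adj_ii]
    ext x
    simp [jj, pp]
  hs := by
    rw [adj_ii, adj_jj]
    ext x
    obtain ⟨x, y⟩ := x
    simp only [ii, jj, pp, qq, _root_.add_apply, ContinuousLinearMap.comp_apply,
      ContinuousLinearEquiv.coe_coe, ContinuousLinearMap.id_apply]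
    rw [← map_add]
    simp

end DSXAux

theorem blk_DSX : Stmt_DSX.{v} := by
  intro H _ _ _ _ r
  have : TopologicalSpace.SeparableSpace (WithLp 2 (H × Ef r)) :=
    (WithLp.prodContinuousLinearEquiv 2 ℂ H (Ef r)).symm.surjective.denseRange.separableSpace
      (WithLp.prodContinuousLinearEquiv 2 ℂ H (Ef r)).symm.continuous
  exact ⟨WithLp 2 (H × Ef r), inferInstance, inferInstance, inferInstance, inferInstance,
    DSXAux.ii H (Ef r), DSXAux.jj H (Ef r), DSXAux.isDS H (Ef r)⟩

end Pool.Q2
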