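import Pool.Agent.Work.MP_8c7e5b_q2.Interface2

/-!
# MP_8c7e5b_an, Q2: block FA
-/

open MeasureTheory Complex Filter Topology
open scoped ComplexOrder InnerProductSpace ComplexConjugate BoundedContinuousFunction

set_option autoImplicit false

namespace Pool.Q2

namespace FAAux

theorem diffble {f : ℂ → ℂ} (hf : Tst f) : Differentiable ℝ f :=
  hf.1.differentiable (by simp)

theorem lip_nonneg {f : ℂ → ℂ} {L : ℝ} (h : LipB f L) : 0 ≤ L :=
  le_trans (norm_nonneg _) (h 0)

theorem tst_shift {f : ℂ → ℂ} (hf : Tst f) (z : ℂ) : Tst (fun w => f (w + z)) := by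
  refine ⟨hf.1.comp (contDiff_id.add contDiff_const), ?_⟩
  exact hf.2.comp_homeomorph (Homeomorph.addRight z)

theorem lip_shift {f : ℂ → ℂ} {L : ℝ} (h : LipB f L) (z : ℂ) : LipB (fun w => f (w + z)) L := by
  intro w
  rw [fderiv_comp_add_right]
  exact h _

theorem lip_bound {f : ℂ → ℂ} (hf : Tst f) {L : ℝ} (h : LipB f L) (x y : ℂ) :
    ‖f x - f y‖ ≤ L * ‖x - y‖ := by
  have := Convex.norm_image_sub_le_of_norm_fderiv_le (𝕜 := ℝ) (f := f) (s := Set.univ)
    (x := y) (y := x) (C := L) (fun w _ => (diffble hf) w) (fun w _ => h w) convex_univ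
    (Set.mem_univ _) (Set.mem_univ _)
  simpa using this

end FAAux

open FAAux in
theorem blk_FA : Stmt_FA := by
  intro T hT ε hε
  obtain ⟨n, a, c, h⟩ := hT (ε / 3) (by positivity)
  set S : ℝ := ∑ k, ‖c k‖ with hS
  have hS0 : 0 ≤ S := Finset.sum_nonneg fun _ _ => norm_nonneg _
  refine ⟨(ε / 3) / (S + 1), by positivity, ?_⟩
  intro z hz f hf L hL
  have hL0 := lip_nonneg hL
  have h1 := h f hf L hL
  have h2 := h _ (tst_shift hf z) L (lip_shift hL z)
  have h3 : ‖∑ k, c k * f (a k) - ∑ k, c k * f (a k + z)‖ ≤ ε / 3 * L := by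
    rw [← Finset.sum_sub_distrib]
    refine le_trans (norm_sum_le _ _) ?_
    have h4 : ∀ k ∈ (Finset.univ : Finset (Fin n)), ‖c k * f (a k) - c k * f (a k + z)‖ ≤
        ‖c k‖ * (L * ‖z‖) := by
      intro k _
      rw [← mul_sub, norm_mul]
      refine mul_le_mul_of_nonneg_left ?_ (norm_nonneg _)
      have := lip_bound hf hL (a k) (a k + z)
      simpa using this
    refine le_trans (Finset.sum_le_sum h4) ?_
    rw [← Finset.sum_mul, ← hS]
    have h5 : S * ‖z‖ ≤ ε / 3 := by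
      calc S * ‖z‖ ≤ (S + 1) * ((ε / 3) / (S + 1)) := by
            apply mul_le_mul (by linarith) hz (norm_nonneg _) (by linarith)
        _ = ε / 3 := by field_simp
    calc S * (L * ‖z‖) = (S * ‖z‖) * L := by ring
      _ ≤ ε / 3 * L := mul_le_mul_of_nonneg_right h5 hL0
  have e : T f - T (fun w => f (w + z)) =
      (T f - ∑ k, c k * f (a k)) - (T (fun w => f (w + z)) - ∑ k, c k * f (a k + z)) +
        (∑ k, c k * f (a k) - ∑ k, c k * f (a k + z)) := by ring
  show ‖T f - T (fun w => f (w + z))‖ ≤ ε * L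
  rw [e]
  refine le_trans (norm_add_le _ _) ?_
  refine le_trans (add_le_add (norm_sub_le _ _) le_rfl) ?_
  have h1' : ‖T f - ∑ k, c k * f (a k)‖ ≤ ε / 3 * L := h1
  have h2' : ‖T (fun w => f (w + z)) - ∑ k, c k * f (a k + z)‖ ≤ ε / 3 * L := h2
  linarith

end Pool.Q2
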