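import Pool.Agent.Work.MP_8c7e5b_q2.Interface

/-!
# Block FAR: off-diagonal decay
-/

open MeasureTheory Complex Filter Topology
open scoped ComplexOrder InnerProductSpace ComplexConjugate BoundedContinuousFunction

set_option autoImplicit false
set_option linter.unusedSectionVars false

universe v

namespace Pool.Q2

open Pool.Bes

namespace FARAux

variable {H : Type v} [NormedAddCommGroup H] [InnerProductSpace ℂ H] [CompleteSpace H]

theorem step (Z q P P' G G' : H →L[ℂ] H) (z z' h : ℝ)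
    (h1 : Z * P = P * Z) (h2 : Z * P' = P' * Z) (h3 : P * (Z - (z : ℂ) • 1) = P * G)
    (h4 : (Z - (z' : ℂ) • 1) * P' = G' * P') (hG : ‖G‖ ≤ h) (hG' : ‖G'‖ ≤ h) :
    (|z - z'| - 2 * h) * ‖P' * q * P‖ ≤ ‖P' * br Z q * P‖ := by
  have e1 : P * Z = (z : ℂ) • P + P * G := by
    rw [mul_sub, mul_smul_comm, mul_one] at h3
    rw [← h3]
    abel
  have e2 : P' * Z = (z' : ℂ) • P' + G' * P' := by
    rw [sub_mul, smul_mul_assoc, one_mul] at h4
    rw [← h4, ← h2]
    abel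
  have key : P' * br Z q * P = ((z' - z : ℝ) : ℂ) • (P' * q * P) + (G' * (P' * q * P) -
      (P' * q * P) * G) := by
    have e3 : P' * br Z q * P = P' * Z * q * P - P' * q * (P * Z) := by
      rw [br, ← h1]
      noncomm_ring
    rw [e3, e1, e2]
    push_cast
    rw [sub_smul, add_mul, add_mul, mul_add, smul_mul_assoc, smul_mul_assoc, mul_smul_comm]
    noncomm_ring
  have n0 : ‖((z' - z : ℝ) : ℂ) • (P' * q * P)‖ = |z - z'| * ‖P' * q * P‖ := by
    rw [norm_smul, Complex.norm_real, Real.norm_eq_abs, abs_sub_comm]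
  have n1' : ‖G' * (P' * q * P) - (P' * q * P) * G‖ ≤ 2 * h * ‖P' * q * P‖ := by
    refine (norm_sub_le _ _).trans ?_
    have a1 : ‖G' * (P' * q * P)‖ ≤ h * ‖P' * q * P‖ :=
      (norm_mul_le _ _).trans (mul_le_mul_of_nonneg_right hG' (norm_nonneg _))
    have a2 : ‖(P' * q * P) * G‖ ≤ h * ‖P' * q * P‖ := by
      refine (norm_mul_le _ _).trans ?_
      rw [mul_comm]
      exact mul_le_mul_of_nonneg_right hG (norm_nonneg _)
    linarith
  have n2 : ‖((z' - z : ℝ) : ℂ) • (P' * q * P)‖ ≤ ‖P' * br Z q * P‖ +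
      ‖G' * (P' * q * P) - (P' * q * P) * G‖ := by
    have : ((z' - z : ℝ) : ℂ) • (P' * q * P) = P' * br Z q * P -
        (G' * (P' * q * P) - (P' * q * P) * G) := by
      rw [key]
      abel
    conv_lhs => rw [this]
    exact norm_sub_le _ _
  rw [n0] at n2
  linarith

end FARAux

theorem blk_FAR : Stmt_FAR.{v} := by
  intro H _ _ _ Z q P P' G G' z z' h M h1 h2 h3 h4 hG hG' hP hP' hh hM hlt
  have hd : 0 < |z - z'| - 2 * h := by linarith
  set d := |z - z'| - 2 * h with hdef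
  have s0 := FARAux.step Z q P P' G G' z z' h h1 h2 h3 h4 hG hG'
  have s1 := FARAux.step Z (br Z q) P P' G G' z z' h h1 h2 h3 h4 hG hG'
  have s2 := FARAux.step Z (br Z (br Z q)) P P' G G' z z' h h1 h2 h3 h4 hG hG'
  rw [← hdef] at s0 s1 s2
  have hM0 : 0 ≤ M := (norm_nonneg _).trans hM
  have hA : ‖P' * br Z (br Z (br Z q)) * P‖ ≤ M := by
    calc ‖P' * br Z (br Z (br Z q)) * P‖ ≤ ‖P' * br Z (br Z (br Z q))‖ * ‖P‖ := norm_mul_le _ _
      _ ≤ ‖P'‖ * ‖br Z (br Z (br Z q))‖ * ‖P‖ := by gcongr; exact norm_mul_le _ _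
      _ ≤ 1 * M * 1 := by gcongr
      _ = M := by ring
  rw [le_div_iff₀ (by positivity)]
  have t1 : d * (d * (d * ‖P' * q * P‖)) ≤ M := by
    calc d * (d * (d * ‖P' * q * P‖)) ≤ d * (d * ‖P' * br Z q * P‖) := by gcongr
      _ ≤ d * ‖P' * br Z (br Z q) * P‖ := by gcongr
      _ ≤ ‖P' * br Z (br Z (br Z q)) * P‖ := s2
      _ ≤ M := hA
  calc ‖P' * q * P‖ * d ^ 3 = d * (d * (d * ‖P' * q * P‖)) := by ring
    _ ≤ M := t1

end Pool.Q2
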