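import Pool.Agent.Work.MP_8c7e5b_q2.Interface2

/-!
# MP_8c7e5b_an, Q2: block FB
-/

open MeasureTheory Complex Filter Topology
open scoped ComplexOrder InnerProductSpace ComplexConjugate BoundedContinuousFunction

set_option autoImplicit false

namespace Pool.Q2

namespace FBAux

theorem diffble {f : ℂ → ℂ} (hf : Tst f) : Differentiable ℝ f :=
  hf.1.differentiable (by simp)

theorem tst_add {f g : ℂ → ℂ} (hf : Tst f) (hg : Tst g) : Tst (fun z => f z + g z) :=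
  ⟨hf.1.add hg.1, hf.2.add hg.2⟩

theorem tst_smul {f : ℂ → ℂ} (c : ℂ) (hf : Tst f) : Tst (fun z => c * f z) :=
  ⟨contDiff_const.mul hf.1, hf.2.mul_left⟩

theorem tst_zero : Tst (fun _ : ℂ => (0 : ℂ)) :=
  ⟨contDiff_const, HasCompactSupport.zero⟩

theorem fd_add {f g : ℂ → ℂ} (hf : Tst f) (hg : Tst g) (z w : ℂ) :
    fderiv ℝ (fun z => f z + g z) z w = fderiv ℝ f z w + fderiv ℝ g z w := by
  rw [fderiv_fun_add (diffble hf z) (diffble hg z)]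
  rfl

theorem fd_smul {f : ℂ → ℂ} (c : ℂ) (hf : Tst f) (z w : ℂ) :
    fderiv ℝ (fun z => c * f z) z w = c * fderiv ℝ f z w := by
  rw [fderiv_const_mul (diffble hf z)]
  rfl

/-- the pairs of partial derivatives -/
def Rel (f : ℂ → ℂ) (p : (ℂ →ᵇ ℂ) × (ℂ →ᵇ ℂ)) : Prop :=
  Tst f ∧ (∀ z, p.1 z = fderiv ℝ f z 1) ∧ (∀ z, p.2 z = fderiv ℝ f z Complex.I)

theorem rel_add {f g : ℂ → ℂ} {p q : (ℂ →ᵇ ℂ) × (ℂ →ᵇ ℂ)} (h : Rel f p) (h' : Rel g q) :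
    Rel (fun z => f z + g z) (p + q) := by
  refine ⟨tst_add h.1 h'.1, fun z => ?_, fun z => ?_⟩
  · rw [fd_add h.1 h'.1, ← h.2.1, ← h'.2.1]; rfl
  · rw [fd_add h.1 h'.1, ← h.2.2, ← h'.2.2]; rfl

theorem rel_smul {f : ℂ → ℂ} {p : (ℂ →ᵇ ℂ) × (ℂ →ᵇ ℂ)} (c : ℂ) (h : Rel f p) :
    Rel (fun z => c * f z) (c • p) := by
  refine ⟨tst_smul c h.1, fun z => ?_, fun z => ?_⟩
  · rw [fd_smul c h.1, ← h.2.1]; rfl
  · rw [fd_smul c h.1, ← h.2.2]; rfl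

theorem rel_zero : Rel (fun _ : ℂ => (0 : ℂ)) 0 := by
  refine ⟨tst_zero, fun z => ?_, fun z => ?_⟩ <;> simp

/-- the subspace of the pairs of partial derivatives of test functions -/
def W : Submodule ℂ ((ℂ →ᵇ ℂ) × (ℂ →ᵇ ℂ)) where
  carrier := {p | ∃ f, Rel f p}
  add_mem' := by
    rintro p q ⟨f, hf⟩ ⟨g, hg⟩
    exact ⟨_, rel_add hf hg⟩
  zero_mem' := ⟨_, rel_zero⟩
  smul_mem' := by
    rintro c p ⟨f, hf⟩
    exact ⟨_, rel_smul c hf⟩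

theorem bound {f : ℂ → ℂ} {p : (ℂ →ᵇ ℂ) × (ℂ →ᵇ ℂ)} (h : Rel f p) : LipB f (2 * ‖p‖) := by
  intro z
  refine ContinuousLinearMap.opNorm_le_bound _ (by positivity) fun w => ?_
  have e : fderiv ℝ f z w = (w.re : ℂ) * p.1 z + (w.im : ℂ) * p.2 z := by
    rw [h.2.1, h.2.2]
    have : w = w.re • (1 : ℂ) + w.im • Complex.I := by
      apply Complex.ext <;> simp
    conv_lhs => rw [this]
    rw [map_add, map_smul, map_smul]
    simp
  rw [e]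
  have h1 : ‖p.1 z‖ ≤ ‖p‖ := le_trans (p.1.norm_coe_le_norm z) (norm_fst_le p)
  have h2 : ‖p.2 z‖ ≤ ‖p‖ := le_trans (p.2.norm_coe_le_norm z) (norm_snd_le p)
  have h3 : ‖(w.re : ℂ)‖ ≤ ‖w‖ := by
    rw [Complex.norm_real]; exact Complex.abs_re_le_norm w
  have h4 : ‖(w.im : ℂ)‖ ≤ ‖w‖ := by
    rw [Complex.norm_real]; exact Complex.abs_im_le_norm w
  refine le_trans (norm_add_le _ _) ?_
  rw [norm_mul, norm_mul]
  have h5 := mul_le_mul h3 h1 (norm_nonneg _) (norm_nonneg _)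
  have h6 := mul_le_mul h4 h2 (norm_nonneg _) (norm_nonneg _)
  linarith

section

variable {T : (ℂ → ℂ) → ℂ} {K : ℝ}

theorem T_bound (hB : BdL T K) {f : ℂ → ℂ} {p : (ℂ →ᵇ ℂ) × (ℂ →ᵇ ℂ)} (h : Rel f p) :
    ‖T f‖ ≤ 2 * K * ‖p‖ := by
  have := hB f h.1 _ (bound h)
  linarith

theorem T_uniq (hT : IsLF T) (hB : BdL T K) {f g : ℂ → ℂ} {p : (ℂ →ᵇ ℂ) × (ℂ →ᵇ ℂ)}
    (h : Rel f p) (h' : Rel g p) : T f = T g := by
  have h1 : Rel (fun z => f z + (-1) * g z) (p + (-1 : ℂ) • p) := rel_add h (rel_smul (-1) h')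
  have h2 := T_bound hB h1
  have h3 : p + (-1 : ℂ) • p = 0 := by simp
  rw [h3, norm_zero, mul_zero] at h2
  have h4 : T (fun z => f z + (-1) * g z) = 0 := norm_le_zero_iff.mp h2
  rw [hT.1 f (fun z => (-1) * g z) h.1 (tst_smul (-1) h'.1), hT.2 (-1) g h'.1] at h4
  linear_combination h4

/-- the functional on the subspace -/
noncomputable def Fl (hT : IsLF T) (hB : BdL T K) : W →ₗ[ℂ] ℂ where
  toFun p := T (Classical.choose p.2)
  map_add' p q := by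
    have h1 := Classical.choose_spec p.2
    have h2 := Classical.choose_spec q.2
    have h3 := Classical.choose_spec (p + q).2
    rw [T_uniq hT hB h3 (rel_add h1 h2), hT.1 _ _ h1.1 h2.1]
  map_smul' c p := by
    have h1 := Classical.choose_spec p.2
    have h3 := Classical.choose_spec (c • p).2
    rw [T_uniq hT hB h3 (rel_smul c h1), hT.2 _ _ h1.1]
    rfl

theorem Fl_eq (hT : IsLF T) (hB : BdL T K) {f : ℂ → ℂ} {p : (ℂ →ᵇ ℂ) × (ℂ →ᵇ ℂ)}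
    (h : Rel f p) : Fl hT hB ⟨p, ⟨f, h⟩⟩ = T f := by
  have h3 := Classical.choose_spec (show p ∈ W from ⟨f, h⟩)
  exact T_uniq hT hB h3 h

theorem Fl_bound (hT : IsLF T) (hB : BdL T K) (p : W) : ‖Fl hT hB p‖ ≤ 2 * K * ‖p‖ := by
  have h3 := Classical.choose_spec p.2
  exact T_bound hB h3

end

end FBAux

open FBAux in
theorem blk_FB : Stmt_FB := by
  intro T K hK hT hB
  let φ : W →L[ℂ] ℂ := (Fl hT hB).mkContinuous (2 * K) (Fl_bound hT hB)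
  obtain ⟨g, hg, hgn⟩ := exists_extension_norm_eq W φ
  have hn : ‖g‖ ≤ 2 * K := by
    rw [hgn]
    exact (Fl hT hB).mkContinuous_norm_le (by positivity) (Fl_bound hT hB)
  refine ⟨g.comp (ContinuousLinearMap.inl ℂ (ℂ →ᵇ ℂ) (ℂ →ᵇ ℂ)),
    g.comp (ContinuousLinearMap.inr ℂ (ℂ →ᵇ ℂ) (ℂ →ᵇ ℂ)), ?_, ?_, ?_⟩
  · refine ContinuousLinearMap.opNorm_le_bound _ (by positivity) fun u => ?_
    have h1 := g.le_opNorm ((u, 0) : (ℂ →ᵇ ℂ) × (ℂ →ᵇ ℂ))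
    have h2 : ‖((u, 0) : (ℂ →ᵇ ℂ) × (ℂ →ᵇ ℂ))‖ = ‖u‖ := by
      simp [Prod.norm_def]
    rw [h2] at h1
    exact le_trans h1 (mul_le_mul_of_nonneg_right hn (norm_nonneg _))
  · refine ContinuousLinearMap.opNorm_le_bound _ (by positivity) fun u => ?_
    have h1 := g.le_opNorm ((0, u) : (ℂ →ᵇ ℂ) × (ℂ →ᵇ ℂ))
    have h2 : ‖((0, u) : (ℂ →ᵇ ℂ) × (ℂ →ᵇ ℂ))‖ = ‖u‖ := by
      simp [Prod.norm_def]
    rw [h2] at h1
    exact le_trans h1 (mul_le_mul_of_nonneg_right hn (norm_nonneg _))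
  · intro f hf u v hu hv
    have hr : Rel f (u, v) := ⟨hf, hu, hv⟩
    have h1 := hg ⟨(u, v), ⟨f, hr⟩⟩
    have h2 : φ ⟨(u, v), ⟨f, hr⟩⟩ = T f := Fl_eq hT hB hr
    rw [h2] at h1
    rw [← h1]
    show g (u, v) = g (u, 0) + g (0, v)
    rw [← map_add]
    simp

end Pool.Q2
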