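import Pool.Agent.Work.MP_8c7e5b_q2.Interface2

/-!
# MP_8c7e5b_an, Q2: block FC (mollification of functionals)
-/

open MeasureTheory Complex Filter Topology
open scoped ComplexOrder InnerProductSpace ComplexConjugate BoundedContinuousFunction

set_option autoImplicit false

namespace Pool.Q2

namespace FCAux

/-- the translate `w ↦ F (w - z)` of a continuous function with compact support -/
noncomputable def trl (F : ℂ → ℂ) (hF : Continuous F) (hs : HasCompactSupport F) (z : ℂ) :
    ℂ →ᵇ ℂ :=
  BoundedContinuousFunction.ofNormedAddCommGroup (fun w => F (w - z))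
    (hF.comp (continuous_id.sub continuous_const))
    (Classical.choose (hF.bounded_above_of_compact_support hs))
    (fun w => Classical.choose_spec (hF.bounded_above_of_compact_support hs) (w - z))

theorem trl_apply (F : ℂ → ℂ) (hF : Continuous F) (hs : HasCompactSupport F) (z w : ℂ) :
    trl F hF hs z w = F (w - z) := rfl

theorem continuous_trl (F : ℂ → ℂ) (hF : Continuous F) (hs : HasCompactSupport F) :
    Continuous (trl F hF hs) := by
  have hu : UniformContinuous F := hs.uniformContinuous_of_continuous hF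
  rw [Metric.continuous_iff]
  intro z ε hε
  obtain ⟨δ, hδ, h⟩ := Metric.uniformContinuous_iff.mp hu (ε / 2) (half_pos hε)
  refine ⟨δ, hδ, fun z' hz' => ?_⟩
  refine lt_of_le_of_lt ((BoundedContinuousFunction.dist_le (half_pos hε).le).mpr fun w => ?_)
    (half_lt_self hε)
  rw [trl_apply, trl_apply]
  refine (h ?_).le
  rw [dist_sub_left]
  exact hz'

theorem integrable_trl (ψ : ℂ → ℂ) (hψ : Continuous ψ) (hψs : HasCompactSupport ψ)
    (F : ℂ → ℂ) (hF : Continuous F) (hs : HasCompactSupport F) :
    Integrable (fun z => ψ z • trl F hF hs z) :=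
  (hψ.smul (continuous_trl F hF hs)).integrable_of_hasCompactSupport hψs.smul_right

theorem int_trl_apply (ψ : ℂ → ℂ) (hψ : Continuous ψ) (hψs : HasCompactSupport ψ)
    (F : ℂ → ℂ) (hF : Continuous F) (hs : HasCompactSupport F) (w : ℂ) :
    (∫ z, ψ z • trl F hF hs z) w = ∫ z, ψ z * F (w - z) := by
  have h1 := (BoundedContinuousFunction.evalCLM ℂ w : (ℂ →ᵇ ℂ) →L[ℂ] ℂ).integral_comp_comm
    (integrable_trl ψ hψ hψs F hF hs)
  rw [BoundedContinuousFunction.evalCLM_apply] at h1
  rw [← h1]
  rfl

theorem map_int_trl (Λ : (ℂ →ᵇ ℂ) →L[ℂ] ℂ) (ψ : ℂ → ℂ) (hψ : Continuous ψ)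
    (hψs : HasCompactSupport ψ)
    (F : ℂ → ℂ) (hF : Continuous F) (hs : HasCompactSupport F) :
    Λ (∫ z, ψ z • trl F hF hs z) = ∫ z, ψ z * Λ (trl F hF hs z) := by
  rw [← Λ.integral_comp_comm (integrable_trl ψ hψ hψs F hF hs)]
  refine integral_congr_ae (Eventually.of_forall fun z => ?_)
  simp only [map_smul, smul_eq_mul]

/-- a cut-off -/
noncomputable def cut (n : ℕ) (z : ℂ) : ℝ := max 0 (min 1 (n + 1 - ‖z‖))

theorem continuous_cut (n : ℕ) : Continuous (cut n) := by
  unfold cut
  fun_prop

theorem cut_nonneg (n : ℕ) (z : ℂ) : 0 ≤ cut n z := le_max_left _ _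

theorem cut_le_one (n : ℕ) (z : ℂ) : cut n z ≤ 1 := max_le zero_le_one (min_le_left _ _)

theorem cut_one (n : ℕ) (z : ℂ) (h : ‖z‖ ≤ n) : cut n z = 1 := by
  unfold cut
  rw [min_eq_left (by linarith), max_eq_right zero_le_one]

theorem support_cut (n : ℕ) : HasCompactSupport (cut n) := by
  refine HasCompactSupport.intro (isCompact_closedBall (0 : ℂ) (n + 1)) fun z hz => ?_
  rw [Metric.mem_closedBall, dist_zero_right, not_le] at hz
  unfold cut
  exact max_eq_left ((min_le_right _ _).trans (by linarith))

end FCAux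

open FCAux in
/-- Mollification -/
theorem blk_FC : Stmt_FC := by
  intro Λ φ hφ hφs hφ0
  set F : ℂ → ℂ := fun z => (φ z : ℂ) with hFdef
  have hF : Continuous F := Complex.continuous_ofReal.comp hφ.continuous
  have hs : HasCompactSupport F := hφs.comp_left Complex.ofReal_zero
  set g : ℂ → ℂ := fun z => Λ (trl F hF hs z) with hg
  have hgc : Continuous g := Λ.continuous.comp (continuous_trl F hF hs)
  set M : ℝ := ‖Λ‖ * ∫ z, φ z with hM
  have hφi : Integrable φ := hφ.continuous.integrable_of_hasCompactSupport hφs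
  have hI0 : 0 ≤ ∫ z, φ z := integral_nonneg hφ0
  have hM0 : 0 ≤ M := mul_nonneg (norm_nonneg _) hI0
  -- the dual bound
  have hdual : ∀ u : ℂ → ℂ, Continuous u → HasCompactSupport u → (∀ z, ‖u z‖ ≤ 1) →
      ‖∫ z, u z * g z‖ ≤ M := by
    intro u hu hus hu1
    rw [hg, ← map_int_trl Λ u hu hus F hF hs]
    refine (Λ.le_opNorm _).trans (mul_le_mul_of_nonneg_left ?_ (norm_nonneg _))
    rw [BoundedContinuousFunction.norm_le hI0]
    intro w
    rw [int_trl_apply u hu hus F hF hs w]
    have h1 : ∫ z, φ (w - z) = ∫ z, φ z := integral_sub_left_eq_self φ volume w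
    rw [← h1]
    refine norm_integral_le_of_norm_le ?_ (Eventually.of_forall fun z => ?_)
    · exact hφi.comp_sub_left w
    · rw [norm_mul, hFdef]
      simp only [Complex.norm_real, Real.norm_eq_abs, abs_of_nonneg (hφ0 _)]
      exact mul_le_of_le_one_left (hφ0 _) (hu1 z)
  -- the bound for the truncated integrals
  have hcut : ∀ n : ℕ, ∫ z, cut n z * ‖g z‖ ≤ M := by
    intro n
    have hci : Integrable (cut n) := (continuous_cut n).integrable_of_hasCompactSupport
      (support_cut n)
    have hgi : Integrable (fun z => cut n z * ‖g z‖) :=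
      ((continuous_cut n).mul hgc.norm).integrable_of_hasCompactSupport
        (support_cut n).mul_right
    have key : ∀ δ : ℝ, 0 < δ → ∫ z, cut n z * ‖g z‖ ≤ M + δ * ∫ z, cut n z := by
      intro δ hδ
      set u : ℂ → ℂ := fun z => (cut n z : ℂ) * (conj (g z) / ((‖g z‖ + δ : ℝ) : ℂ)) with hu
      have hpos : ∀ z, 0 < ‖g z‖ + δ := fun z => add_pos_of_nonneg_of_pos (norm_nonneg _) hδ
      have huc : Continuous u := by
        refine (Complex.continuous_ofReal.comp (continuous_cut n)).mul
          ((Complex.continuous_conj.comp hgc).div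
          (Complex.continuous_ofReal.comp (hgc.norm.add continuous_const)) fun z => ?_)
        exact_mod_cast (hpos z).ne'
      have hus : HasCompactSupport u :=
        HasCompactSupport.mul_right ((support_cut n).comp_left Complex.ofReal_zero)
      have hu1 : ∀ z, ‖u z‖ ≤ 1 := by
        intro z
        rw [hu]
        simp only [norm_mul, norm_div, Complex.norm_real, Real.norm_eq_abs,
          abs_of_nonneg (cut_nonneg n z), abs_of_pos (hpos z), RCLike.norm_conj]
        refine mul_le_one₀ (cut_le_one n z) (by positivity) ?_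
        rw [div_le_one (hpos z)]
        linarith
      have h1 := hdual u huc hus hu1
      have h2 : ∀ z, u z * g z = ((cut n z * (‖g z‖ ^ 2 / (‖g z‖ + δ)) : ℝ) : ℂ) := by
        intro z
        rw [hu]
        have h3 : conj (g z) * g z = ((‖g z‖ ^ 2 : ℝ) : ℂ) := by
          rw [mul_comm, Complex.mul_conj, Complex.normSq_eq_norm_sq]
        simp only
        rw [mul_assoc, div_mul_eq_mul_div, h3]
        push_cast
        rfl
      have h4 : ∫ z, u z * g z =
          ((∫ z, cut n z * (‖g z‖ ^ 2 / (‖g z‖ + δ)) : ℝ) : ℂ) := by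
        exact (integral_congr_ae (Eventually.of_forall h2)).trans integral_complex_ofReal
      rw [h4, Complex.norm_real, Real.norm_eq_abs] at h1
      have h5 := (le_abs_self _).trans h1
      have h6 : ∫ z, (cut n z * ‖g z‖ - δ * cut n z) ≤
          ∫ z, cut n z * (‖g z‖ ^ 2 / (‖g z‖ + δ)) := by
        refine integral_mono (hgi.sub (hci.const_mul δ)) ?_ fun z => ?_
        · refine Continuous.integrable_of_hasCompactSupport ?_ (support_cut n).mul_right
          refine (continuous_cut n).mul ((hgc.norm.pow 2).div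
            (hgc.norm.add continuous_const) fun z => (hpos z).ne')
        · have h7 : ‖g z‖ - δ ≤ ‖g z‖ ^ 2 / (‖g z‖ + δ) := by
            rw [le_div_iff₀ (hpos z)]
            nlinarith [sq_nonneg δ]
          have h8 := mul_le_mul_of_nonneg_left h7 (cut_nonneg n z)
          simp only
          linarith
      rw [integral_sub hgi (hci.const_mul δ), integral_const_mul] at h6
      linarith
    refine le_of_forall_pos_le_add fun ε hε => ?_
    have hc0 : 0 ≤ ∫ z, cut n z := integral_nonneg (cut_nonneg n)
    have h9 := key (ε / (1 + ∫ z, cut n z)) (by positivity)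
    refine h9.trans ?_
    have h10 : ε / (1 + ∫ z, cut n z) * ∫ z, cut n z ≤ ε := by
      rw [div_mul_eq_mul_div, div_le_iff₀ (by positivity)]
      nlinarith
    linarith
  -- integrability
  have hball : ∀ n : ℕ, ∫ z in Metric.closedBall (0 : ℂ) n, ‖g z‖ ≤ M := by
    intro n
    have hgi : Integrable (fun z => cut n z * ‖g z‖) :=
      ((continuous_cut n).mul hgc.norm).integrable_of_hasCompactSupport
        (support_cut n).mul_right
    refine le_trans ?_ (hcut n)
    have h1 : ∫ z in Metric.closedBall (0 : ℂ) n, ‖g z‖ =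
        ∫ z in Metric.closedBall (0 : ℂ) n, cut n z * ‖g z‖ := by
      refine setIntegral_congr_fun Metric.isClosed_closedBall.measurableSet fun z hz => ?_
      rw [Metric.mem_closedBall, dist_zero_right] at hz
      simp only [cut_one n z hz, one_mul]
    rw [h1]
    exact setIntegral_le_integral hgi
      (Eventually.of_forall fun z => mul_nonneg (cut_nonneg n z) (norm_nonneg _))
  have hcov : AECover volume atTop (fun n : ℕ => Metric.closedBall (0 : ℂ) n) :=
    aecover_closedBall tendsto_natCast_atTop_atTop
  have hgi : Integrable g := by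
    refine hcov.integrable_of_integral_norm_bounded M (fun n => ?_) (Eventually.of_forall hball)
    exact hgc.continuousOn.integrableOn_compact (isCompact_closedBall _ _)
  have hgM : ∫ z, ‖g z‖ ≤ M :=
    le_of_tendsto (hcov.integral_tendsto_of_countably_generated hgi.norm)
      (Eventually.of_forall hball)
  refine ⟨g, hgc, hgi, hgM, fun u U hu hus hU => ?_⟩
  have hU' : U = ∫ z, u z • trl F hF hs z := by
    ext w
    rw [hU w, int_trl_apply u hu hus F hF hs w]
  rw [hU', map_int_trl Λ u hu hus F hF hs]

end Pool.Q2
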