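import Pool.Agent.Work.MP_8c7e5b_q2.Interface

/-!
# Block FCD (helper44): the functional calculus of a direct sum

`(A, B) ↦ cor i A + cor j B` is a continuous unital star homomorphism on the product algebra.
-/

open MeasureTheory Complex Filter Topology
open scoped ComplexOrder InnerProductSpace ComplexConjugate BoundedContinuousFunction

set_option autoImplicit false

universe v

namespace Pool.Q2

open Pool.Bes

namespace FCDAux

section general

variable {H K E : Type*} [NormedAddCommGroup H] [InnerProductSpace ℂ H] [CompleteSpace H]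
  [NormedAddCommGroup K] [InnerProductSpace ℂ K] [CompleteSpace K]
  [NormedAddCommGroup E] [InnerProductSpace ℂ E] [CompleteSpace E]

lemma star_cor (i : H →L[ℂ] K) (T : H →L[ℂ] H) : star (cor i T) = cor i (star T) := by
  unfold cor
  rw [ContinuousLinearMap.star_eq_adjoint, ContinuousLinearMap.star_eq_adjoint,
    ContinuousLinearMap.adjoint_comp, ContinuousLinearMap.adjoint_comp,
    ContinuousLinearMap.adjoint_adjoint, ContinuousLinearMap.comp_assoc]

lemma cor_mul {i : H →L[ℂ] K}
    (hi : (ContinuousLinearMap.adjoint i) ∘L i = ContinuousLinearMap.id ℂ H)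
    (S T : H →L[ℂ] H) : cor i (S * T) = cor i S * cor i T := by
  ext x
  have h1 : ∀ y, (ContinuousLinearMap.adjoint i) (i y) = y := fun y =>
    congrArg (fun A : H →L[ℂ] H => A y) hi
  simp [cor, h1]

lemma cor_mul_cor {i : H →L[ℂ] K} {j : E →L[ℂ] K}
    (hij : (ContinuousLinearMap.adjoint i) ∘L j = 0)
    (S : H →L[ℂ] H) (T : E →L[ℂ] E) : cor i S * cor j T = 0 := by
  ext x
  have h1 : ∀ y, (ContinuousLinearMap.adjoint i) (j y) = 0 := fun y =>
    congrArg (fun A : E →L[ℂ] H => A y) hij
  simp [cor, h1]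

lemma hji {i : H →L[ℂ] K} {j : E →L[ℂ] K} (hij : (ContinuousLinearMap.adjoint i) ∘L j = 0) :
    (ContinuousLinearMap.adjoint j) ∘L i = 0 := by
  have h1 := congrArg (fun A => ContinuousLinearMap.adjoint A) hij
  simpa [ContinuousLinearMap.adjoint_comp] using h1

lemma continuous_cor (i : H →L[ℂ] K) : Continuous (fun A : H →L[ℂ] H => cor i A) := by
  unfold cor
  fun_prop

end general

variable {H K : Type v} {E : Type*} [NormedAddCommGroup H] [InnerProductSpace ℂ H]
  [CompleteSpace H] [NormedAddCommGroup K] [InnerProductSpace ℂ K] [CompleteSpace K]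
  [NormedAddCommGroup E] [InnerProductSpace ℂ E] [CompleteSpace E]

/-- the star homomorphism of a direct sum -/
noncomputable def dsHom (i : H →L[ℂ] K) (j : E →L[ℂ] K) (h : IsDS i j) :
    (H →L[ℂ] H) × (E →L[ℂ] E) →⋆ₐ[ℂ] (K →L[ℂ] K) where
  toFun x := cor i x.1 + cor j x.2
  map_one' := by
    have h1 := h.hs
    ext x
    have h2 := congrArg (fun A : K →L[ℂ] K => A x) h1
    simpa [cor] using h2
  map_mul' := by
    rintro ⟨A, B⟩ ⟨C, D⟩
    show cor i (A * C) + cor j (B * D) = (cor i A + cor j B) * (cor i C + cor j D)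
    rw [mul_add, add_mul, add_mul, cor_mul_cor h.hij, cor_mul_cor (hji h.hij), ← cor_mul h.hi,
      ← cor_mul h.hj, add_zero, zero_add]
  map_zero' := by
    ext x
    simp [cor]
  map_add' := by
    rintro ⟨A, B⟩ ⟨C, D⟩
    ext x
    show i ((A + C) (ContinuousLinearMap.adjoint i x)) + j ((B + D) (ContinuousLinearMap.adjoint j x))
      = (i (A (ContinuousLinearMap.adjoint i x)) + j (B (ContinuousLinearMap.adjoint j x)))
        + (i (C (ContinuousLinearMap.adjoint i x)) + j (D (ContinuousLinearMap.adjoint j x)))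
    have e1 : (A + C) (ContinuousLinearMap.adjoint i x)
      = A (ContinuousLinearMap.adjoint i x) + C (ContinuousLinearMap.adjoint i x) := rfl
    have e2 : (B + D) (ContinuousLinearMap.adjoint j x)
      = B (ContinuousLinearMap.adjoint j x) + D (ContinuousLinearMap.adjoint j x) := rfl
    rw [e1, e2, map_add, map_add]
    abel
  commutes' := by
    intro r
    ext x
    have h2 := congrArg (fun A : K →L[ℂ] K => A x) h.hs
    have h3 : i (ContinuousLinearMap.adjoint i x) + j (ContinuousLinearMap.adjoint j x) = x := h2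
    show i (r • ContinuousLinearMap.adjoint i x) + j (r • ContinuousLinearMap.adjoint j x) = r • x
    rw [map_smul, map_smul, ← smul_add, h3]
  map_star' := by
    rintro ⟨A, B⟩
    show cor i (star A) + cor j (star B) = star (cor i A + cor j B)
    rw [star_add, star_cor, star_cor]

lemma dsHom_apply (i : H →L[ℂ] K) (j : E →L[ℂ] K) (h : IsDS i j) (A : H →L[ℂ] H)
    (B : E →L[ℂ] E) : dsHom i j h (A, B) = cor i A + cor j B := rfl

lemma continuous_dsHom (i : H →L[ℂ] K) (j : E →L[ℂ] K) (h : IsDS i j) :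
    Continuous (dsHom i j h) := by
  show Continuous (fun x : (H →L[ℂ] H) × (E →L[ℂ] E) => cor i x.1 + cor j x.2)
  have h1 : Continuous (fun x : (H →L[ℂ] H) × (E →L[ℂ] E) => cor i x.1) :=
    (continuous_cor i).comp continuous_fst
  have h3 : Continuous (fun B : E →L[ℂ] E => cor j B) := continuous_cor j
  have h2 : Continuous (fun x : (H →L[ℂ] H) × (E →L[ℂ] E) => cor j x.2) :=
    h3.comp continuous_snd
  exact h1.add h2

end FCDAux

open FCDAux in
theorem blk_FCD : Stmt_FCD.{v} := by
  intro H _ _ _ K _ _ _ r i j N B h hN hB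
  have hNB : IsStarNormal ((N, B) : (H →L[ℂ] H) × (Ef r →L[ℂ] Ef r)) := by
    refine ⟨?_⟩
    show star ((N, B) : (H →L[ℂ] H) × (Ef r →L[ℂ] Ef r)) * (N, B) = (N, B) * star (N, B)
    ext1
    · exact hN.star_comm_self
    · exact hB.star_comm_self
  have hT : IsStarNormal (cor i N + cor j B) := by
    rw [← dsHom_apply i j h]
    refine ⟨?_⟩
    show star (dsHom i j h (N, B)) * dsHom i j h (N, B) = dsHom i j h (N, B) * star (dsHom i j h (N, B))
    rw [← map_star, ← map_mul, ← map_mul]
    exact congrArg _ hNB.star_comm_self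
  refine ⟨hT, ?_⟩
  intro f hf
  rw [← dsHom_apply i j h, ← dsHom_apply i j h]
  have h1 : cfc f ((N, B) : (H →L[ℂ] H) × (Ef r →L[ℂ] Ef r)) = (cfc f N, cfc f B) :=
    cfc_map_prod (S := ℂ) f N B (hf.continuousOn) hNB hN hB
  rw [← h1]
  exact ((dsHom i j h).map_cfc f (N, B) hf.continuousOn (continuous_dsHom i j h) hNB
    (by rw [dsHom_apply]; exact hT)).symm

end Pool.Q2
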