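import Pool.Agent.Work.MP_8c7e5b_q2.Interface2

/-!
# MP_8c7e5b_an, Q2: block FD
-/

open MeasureTheory Complex Filter Topology
open scoped BoundedContinuousFunction

set_option autoImplicit false

namespace Pool.Q2
namespace FDAux

theorem trans_l1 (g : ℂ → ℂ) (hg : Integrable g) (ε : ℝ) (hε : 0 < ε) :
    ∃ δ : ℝ, 0 < δ ∧ ∀ w : ℂ, ‖w‖ ≤ δ → ∫ z, ‖g z - g (z - w)‖ ≤ ε := by
  have hmp : ∀ w : ℂ, MeasurePreserving (fun z : ℂ => z - w) volume volume :=
    fun w => measurePreserving_sub_right volume w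
  let K : C(ℂ × ℂ, ℂ) := ⟨fun p => p.2 - p.1, by fun_prop⟩
  let G : ℂ → C(ℂ, ℂ) := fun w => K.curry w
  have hG : Continuous G := K.curry.continuous
  let F : Lp ℂ 1 (volume : Measure ℂ) := hg.toL1 g
  have hc : Continuous (fun w => Lp.compMeasurePreserving (G w) (hmp w) F) :=
    continuous_const.compMeasurePreservingLp hG hmp ENNReal.one_ne_top
  have h0 := hc.tendsto 0
  obtain ⟨δ, hδ, h⟩ := Metric.tendsto_nhds_nhds.1 h0 ε hε
  refine ⟨δ / 2, by positivity, fun w hw => ?_⟩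
  have h1 := h (x := w) (by rw [dist_zero_right]; linarith)
  rw [dist_comm, dist_eq_norm, L1.norm_eq_integral_norm] at h1
  have hF : F =ᵐ[volume] g := hg.coeFn_toL1
  have hcomp : ∀ w : ℂ, (Lp.compMeasurePreserving (G w) (hmp w) F : ℂ → ℂ) =ᵐ[volume]
      fun z => g (z - w) := by
    intro w
    have e1 := Lp.coeFn_compMeasurePreserving F (hmp w)
    have e2 := (hmp w).quasiMeasurePreserving.ae_eq_comp hF
    exact e1.trans e2
  have e3 : (fun z => ‖(Lp.compMeasurePreserving (G 0) (hmp 0) F -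
      Lp.compMeasurePreserving (G w) (hmp w) F : Lp ℂ 1 (volume : Measure ℂ)) z‖) =ᵐ[volume]
      fun z => ‖g z - g (z - w)‖ := by
    filter_upwards [Lp.coeFn_sub (Lp.compMeasurePreserving (G 0) (hmp 0) F)
      (Lp.compMeasurePreserving (G w) (hmp w) F), hcomp 0, hcomp w] with z a b c
    rw [a, Pi.sub_apply, b, c, sub_zero]
  rw [integral_congr_ae e3] at h1
  exact h1.le

theorem fd_cont {f : ℂ → ℂ} (hf : Tst f) (v : ℂ) : Continuous (fun z => fderiv ℝ f z v) := by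
  have h1 : Continuous (fderiv ℝ f) := hf.1.continuous_fderiv (by simp)
  exact h1.clm_apply continuous_const

theorem fd_bdd {f : ℂ → ℂ} (hf : Tst f) (v : ℂ) : ∃ C : ℝ, ∀ z, ‖fderiv ℝ f z v‖ ≤ C := by
  have h1 : HasCompactSupport (fun z => fderiv ℝ f z v) := hf.2.fderiv_apply (𝕜 := ℝ) v
  obtain ⟨C, hC⟩ := h1.exists_bound_of_continuous (fd_cont hf v)
  exact ⟨C, hC⟩

theorem fd_int {f : ℂ → ℂ} (hf : Tst f) (v : ℂ) {g : ℂ → ℂ} (hg : Integrable g) :
    Integrable (fun z => fderiv ℝ f z v * g z) := by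
  obtain ⟨C, hC⟩ := fd_bdd hf v
  exact hg.bdd_mul (fd_cont hf v).aestronglyMeasurable (Eventually.of_forall hC)

theorem fd_diff {f : ℂ → ℂ} (hf : Tst f) (z : ℂ) : DifferentiableAt ℝ f z :=
  (hf.1.differentiable (by simp)) z

theorem lip_nonneg {f : ℂ → ℂ} {L : ℝ} (h : LipB f L) : 0 ≤ L :=
  (norm_nonneg _).trans (h 0)

theorem fd_le {f : ℂ → ℂ} {L : ℝ} (h : LipB f L) (z : ℂ) {v : ℂ} (hv : ‖v‖ ≤ 1) :
    ‖fderiv ℝ f z v‖ ≤ L := by
  have h1 := (fderiv ℝ f z).le_opNorm v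
  have h2 : ‖fderiv ℝ f z‖ * ‖v‖ ≤ L * 1 :=
    mul_le_mul (h z) hv (norm_nonneg _) (lip_nonneg h)
  linarith

theorem int_le {f : ℂ → ℂ} (hf : Tst f) {L : ℝ} (h : LipB f L) {v : ℂ} (hv : ‖v‖ ≤ 1)
    {g : ℂ → ℂ} (hg : Integrable g) :
    ‖∫ z, fderiv ℝ f z v * g z‖ ≤ L * ∫ z, ‖g z‖ := by
  calc ‖∫ z, fderiv ℝ f z v * g z‖ ≤ ∫ z, ‖fderiv ℝ f z v * g z‖ := norm_integral_le_integral_norm _
    _ ≤ ∫ z, L * ‖g z‖ := by
        refine integral_mono (fd_int hf v hg).norm (hg.norm.const_mul L) fun z => ?_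
        show ‖fderiv ℝ f z v * g z‖ ≤ L * ‖g z‖
        rw [norm_mul]
        exact mul_le_mul_of_nonneg_right (fd_le h z hv) (norm_nonneg _)
    _ = L * ∫ z, ‖g z‖ := integral_const_mul _ _

theorem tst_trans {f : ℂ → ℂ} (hf : Tst f) (w : ℂ) : Tst (fun z => f (z + w)) := by
  refine ⟨hf.1.comp (contDiff_id.add contDiff_const), ?_⟩
  exact hf.2.comp_homeomorph (Homeomorph.addRight w)

theorem fd_trans (f : ℂ → ℂ) (w z : ℂ) : fderiv ℝ (fun u => f (u + w)) z = fderiv ℝ f (z + w) :=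
  fderiv_comp_add_right w

/-- the difference with a translate -/
theorem int_trans {f : ℂ → ℂ} (hf : Tst f) (v w : ℂ) {g : ℂ → ℂ} (hg : Integrable g) :
    (∫ z, fderiv ℝ f z v * g z) - (∫ z, fderiv ℝ (fun u => f (u + w)) z v * g z) =
      ∫ z, fderiv ℝ f z v * (g z - g (z - w)) := by
  have h1 : (∫ z, fderiv ℝ (fun u => f (u + w)) z v * g z) =
      ∫ z, fderiv ℝ f z v * g (z - w) := by
    have h2 := integral_sub_right_eq_self (μ := (volume : Measure ℂ))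
      (fun z => fderiv ℝ (fun u => f (u + w)) z v * g z) w
    rw [← h2]
    congr 1
    ext z
    rw [fd_trans, sub_add_cancel]
  rw [h1, ← integral_sub (fd_int hf v hg) (fd_int hf v (hg.comp_sub_right w))]
  congr 1
  ext z
  ring

theorem norm_I_le : ‖(Complex.I : ℂ)‖ ≤ 1 := by simp

theorem norm_one_le' : ‖(1 : ℂ)‖ ≤ 1 := by simp

end FDAux

open FDAux

theorem blk_FD : Stmt_FD := by
  intro g₁ g₂ h₁ h₂
  refine ⟨⟨?_, ?_⟩, ?_, ?_⟩
  · intro f g hf hg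
    have e : ∀ z v, fderiv ℝ (fun z => f z + g z) z v = fderiv ℝ f z v + fderiv ℝ g z v := by
      intro z v
      rw [fderiv_fun_add (fd_diff hf z) (fd_diff hg z)]
      rfl
    have e2 : ∀ (v : ℂ) (k : ℂ → ℂ), Integrable k →
        ∫ z, fderiv ℝ (fun z => f z + g z) z v * k z =
          (∫ z, fderiv ℝ f z v * k z) + ∫ z, fderiv ℝ g z v * k z := by
      intro v k hk
      rw [← integral_add (fd_int hf v hk) (fd_int hg v hk)]
      congr 1
      ext z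
      rw [e]
      ring
    simp only [Dg]
    rw [e2 1 g₁ h₁, e2 Complex.I g₂ h₂]
    ring
  · intro c f hf
    have e : ∀ z v, fderiv ℝ (fun z => c * f z) z v = c * fderiv ℝ f z v := by
      intro z v
      rw [fderiv_const_mul (fd_diff hf z)]
      rfl
    have e2 : ∀ (v : ℂ) (k : ℂ → ℂ),
        ∫ z, fderiv ℝ (fun z => c * f z) z v * k z = c * ∫ z, fderiv ℝ f z v * k z := by
      intro v k
      rw [← integral_const_mul]
      congr 1
      ext z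
      rw [e]
      ring
    simp only [Dg]
    rw [e2 1 g₁, e2 Complex.I g₂]
    ring
  · intro ε hε
    obtain ⟨d1, hd1, H1⟩ := trans_l1 g₁ h₁ (ε / 2) (by positivity)
    obtain ⟨d2, hd2, H2⟩ := trans_l1 g₂ h₂ (ε / 2) (by positivity)
    refine ⟨min d1 d2, lt_min hd1 hd2, fun w hw f hf L hL => ?_⟩
    have hL0 := lip_nonneg hL
    have k1 := int_le hf hL norm_one_le' (h₁.sub (h₁.comp_sub_right w))
    have k2 := int_le hf hL norm_I_le (h₂.sub (h₂.comp_sub_right w))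
    have m1 := H1 w (hw.trans (min_le_left _ _))
    have m2 := H2 w (hw.trans (min_le_right _ _))
    have t1 := int_trans hf 1 w h₁
    have t2 := int_trans hf Complex.I w h₂
    have e : Dg g₁ g₂ f - Dg g₁ g₂ (fun z => f (z + w)) =
        (∫ z, fderiv ℝ f z 1 * (g₁ z - g₁ (z - w))) +
          ∫ z, fderiv ℝ f z Complex.I * (g₂ z - g₂ (z - w)) := by
      rw [← t1, ← t2]
      simp only [Dg]
      ring
    show ‖Dg g₁ g₂ f - Dg g₁ g₂ (fun z => f (z + w))‖ ≤ ε * L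
    rw [e]
    have n1 : L * (∫ z, ‖g₁ z - g₁ (z - w)‖) ≤ L * (ε / 2) := mul_le_mul_of_nonneg_left m1 hL0
    have n2 : L * (∫ z, ‖g₂ z - g₂ (z - w)‖) ≤ L * (ε / 2) := mul_le_mul_of_nonneg_left m2 hL0
    have k1' : ‖∫ z, fderiv ℝ f z 1 * (g₁ z - g₁ (z - w))‖ ≤ L * ∫ z, ‖g₁ z - g₁ (z - w)‖ := k1
    have k2' : ‖∫ z, fderiv ℝ f z Complex.I * (g₂ z - g₂ (z - w))‖ ≤
        L * ∫ z, ‖g₂ z - g₂ (z - w)‖ := k2
    have := norm_add_le (∫ z, fderiv ℝ f z 1 * (g₁ z - g₁ (z - w)))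
      (∫ z, fderiv ℝ f z Complex.I * (g₂ z - g₂ (z - w)))
    linarith
  · intro f hf L hL
    have k1 := int_le hf hL norm_one_le' h₁
    have k2 := int_le hf hL norm_I_le h₂
    have := norm_add_le (∫ z, fderiv ℝ f z 1 * g₁ z) (∫ z, fderiv ℝ f z Complex.I * g₂ z)
    show ‖(∫ z : ℂ, fderiv ℝ f z 1 * g₁ z) + ∫ z : ℂ, fderiv ℝ f z Complex.I * g₂ z‖ ≤ _
    linarith

end Pool.Q2
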