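import Pool.Agent.Work.MP_8c7e5b_q2.FC

/-!
# MP_8c7e5b_an, Q2: block FE (one step of the construction of densities)
-/

open MeasureTheory Complex Filter Topology
open scoped ComplexOrder InnerProductSpace ComplexConjugate BoundedContinuousFunction

set_option autoImplicit false

namespace Pool.Q2

namespace FEAux

open FCAux

theorem tst_sub {f : ℂ → ℂ} (hf : Tst f) (z : ℂ) : Tst (fun w => f (w - z)) :=
  ⟨hf.1.comp (contDiff_id.sub contDiff_const), hf.2.comp_homeomorph (Homeomorph.subRight z)⟩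

theorem cont_deriv {f : ℂ → ℂ} (hf : Tst f) (v : ℂ) : Continuous (fun z => fderiv ℝ f z v) :=
  (hf.1.continuous_fderiv (by simp)).clm_apply continuous_const

theorem supp_deriv {f : ℂ → ℂ} (hf : Tst f) (v : ℂ) :
    HasCompactSupport (fun z => fderiv ℝ f z v) :=
  hf.2.fderiv_apply ℝ v

theorem swap (φ : ℂ → ℝ) (u : ℂ → ℂ) (w : ℂ) :
    ∫ z, (φ z : ℂ) * u (w - z) = ∫ z, u z * (φ (w - z) : ℂ) := by
  rw [← integral_sub_left_eq_self (fun z => (φ z : ℂ) * u (w - z)) volume w]
  refine integral_congr_ae (Eventually.of_forall fun z => ?_)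
  simp only [sub_sub_cancel]
  rw [mul_comm]

end FEAux

open FCAux FEAux in
/-- One step -/
theorem blk_FE (hFB : Stmt_FB) (hFC : Stmt_FC) (_hFD : Stmt_FD) : Stmt_FE := by
  intro T K hK hIs hBd hTr
  obtain ⟨Λ₁, Λ₂, hΛ₁, hΛ₂, hT⟩ := hFB T K hK.le hIs hBd
  obtain ⟨δ, hδ, hδT⟩ := hTr (K / 2) (half_pos hK)
  set b : ContDiffBump (0 : ℂ) := ⟨δ / 2, δ, half_pos hδ, half_lt_self hδ⟩ with hb
  set φ : ℂ → ℝ := b.normed volume with hφ
  have hφc : ContDiff ℝ (⊤ : ℕ∞) φ := b.contDiff_normed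
  have hφs : HasCompactSupport φ := b.hasCompactSupport_normed
  have hφ0 : ∀ z, 0 ≤ φ z := fun z => b.nonneg_normed z
  have hφ1 : ∫ z, φ z = 1 := b.integral_normed
  have hφi : Integrable φ := b.integrable_normed
  have hsup : ∀ z, φ z ≠ 0 → ‖z‖ ≤ δ := by
    intro z hz
    have h1 : z ∈ Function.support φ := hz
    rw [hφ, b.support_normed_eq, Metric.mem_ball, dist_zero_right] at h1
    exact h1.le
  obtain ⟨g₁, g₁c, g₁i, g₁M, g₁u⟩ := hFC Λ₁ φ hφc hφs hφ0
  obtain ⟨g₂, g₂c, g₂i, g₂M, g₂u⟩ := hFC Λ₂ φ hφc hφs hφ0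
  rw [hφ1, mul_one] at g₁M g₂M
  refine ⟨g₁, g₂, g₁i, g₂i, by linarith, ?_⟩
  intro f hf L hL
  set F : ℂ → ℂ := fun z => (φ z : ℂ) with hFdef
  have hF : Continuous F := Complex.continuous_ofReal.comp hφc.continuous
  have hFs : HasCompactSupport F := hφs.comp_left Complex.ofReal_zero
  have hF1 : ∫ z, F z = 1 := by
    have h1 : ∫ z, F z = ((∫ z, φ z : ℝ) : ℂ) := integral_complex_ofReal
    rw [h1, hφ1, Complex.ofReal_one]
  have hx := cont_deriv hf 1
  have hxs := supp_deriv hf 1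
  have hy := cont_deriv hf Complex.I
  have hys := supp_deriv hf Complex.I
  have e1 : ∫ z, fderiv ℝ f z 1 * g₁ z = ∫ z, F z * Λ₁ (trl _ hx hxs z) := by
    rw [← map_int_trl Λ₁ F hF hFs _ hx hxs]
    refine (g₁u _ _ hx hxs fun w => ?_).symm
    rw [int_trl_apply F hF hFs _ hx hxs w]
    exact swap φ (fun z => fderiv ℝ f z 1) w
  have e2 : ∫ z, fderiv ℝ f z Complex.I * g₂ z = ∫ z, F z * Λ₂ (trl _ hy hys z) := by
    rw [← map_int_trl Λ₂ F hF hFs _ hy hys]
    refine (g₂u _ _ hy hys fun w => ?_).symm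
    rw [int_trl_apply F hF hFs _ hy hys w]
    exact swap φ (fun z => fderiv ℝ f z Complex.I) w
  have e3 : ∀ z, Λ₁ (trl _ hx hxs z) + Λ₂ (trl _ hy hys z) = T (fun w => f (w - z)) := by
    intro z
    refine (hT _ (tst_sub hf z) (trl _ hx hxs z) (trl _ hy hys z) (fun w => ?_)
      fun w => ?_).symm
    · rw [trl_apply, fderiv_comp_sub]
    · rw [trl_apply, fderiv_comp_sub]
  have i1 : Integrable (fun z => F z * Λ₁ (trl _ hx hxs z)) :=
    (hF.mul (Λ₁.continuous.comp (continuous_trl _ hx hxs))).integrable_of_hasCompactSupport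
      hFs.mul_right
  have i2 : Integrable (fun z => F z * Λ₂ (trl _ hy hys z)) :=
    (hF.mul (Λ₂.continuous.comp (continuous_trl _ hy hys))).integrable_of_hasCompactSupport
      hFs.mul_right
  have i3 : Integrable (fun z => F z * T (fun w => f (w - z))) := by
    refine (i1.add i2).congr (Eventually.of_forall fun z => ?_)
    simp only [Pi.add_apply]
    rw [← mul_add, e3]
  have i4 : Integrable (fun z => F z * T f) :=
    (hF.integrable_of_hasCompactSupport hFs).mul_const _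
  have e4 : Dg g₁ g₂ f = ∫ z, F z * T (fun w => f (w - z)) := by
    unfold Dg
    rw [e1, e2, ← integral_add i1 i2]
    refine integral_congr_ae (Eventually.of_forall fun z => ?_)
    simp only
    rw [← mul_add, e3]
  have e5 : T f = ∫ z, F z * T f := by
    rw [integral_mul_const, hF1, one_mul]
  have e6 : T f - Dg g₁ g₂ f = ∫ z, F z * (T f - T (fun w => f (w - z))) := by
    rw [e4]
    conv_lhs => rw [e5]
    rw [← integral_sub i4 i3]
    refine integral_congr_ae (Eventually.of_forall fun z => ?_)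
    simp only
    rw [mul_sub]
  show ‖T f - Dg g₁ g₂ f‖ ≤ K / 2 * L
  rw [e6]
  have e7 : ∫ z, φ z * (K / 2 * L) = K / 2 * L := by
    rw [integral_mul_const, hφ1, one_mul]
  rw [← e7]
  refine norm_integral_le_of_norm_le (hφi.mul_const _) (Eventually.of_forall fun z => ?_)
  rw [norm_mul, hFdef]
  simp only [Complex.norm_real, Real.norm_eq_abs, abs_of_nonneg (hφ0 z)]
  by_cases hz : φ z = 0
  · rw [hz, zero_mul, zero_mul]
  · refine mul_le_mul_of_nonneg_left ?_ (hφ0 z)
    have h1 := hδT (-z) (by rw [norm_neg]; exact hsup z hz) f hf L hL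
    simpa only [sub_eq_add_neg] using h1

end Pool.Q2
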