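import Pool.Agent.Work.MP_8c7e5b_q2.FD

/-!
# MP_8c7e5b_an, Q2: block FF
-/

open MeasureTheory Complex Filter Topology
open scoped BoundedContinuousFunction

set_option autoImplicit false

namespace Pool.Q2
namespace FFAux

open FDAux

/-- a functional with its bound -/
structure St where
  T : (ℂ → ℂ) → ℂ
  K : ℝ
  hK : 0 < K
  lf : IsLF T
  bd : BdL T K
  tr : TrC T

theorem lf_sub {T S : (ℂ → ℂ) → ℂ} (hT : IsLF T) (hS : IsLF S) : IsLF (fun f => T f - S f) := by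
  refine ⟨fun f g hf hg => ?_, fun c f hf => ?_⟩
  · show T (fun z => f z + g z) - S (fun z => f z + g z) = (T f - S f) + (T g - S g)
    rw [hT.1 f g hf hg, hS.1 f g hf hg]
    ring
  · show T (fun z => c * f z) - S (fun z => c * f z) = c * (T f - S f)
    rw [hT.2 c f hf, hS.2 c f hf]
    ring

theorem tr_sub {T S : (ℂ → ℂ) → ℂ} (hT : TrC T) (hS : TrC S) : TrC (fun f => T f - S f) := by
  intro ε hε
  obtain ⟨d1, hd1, H1⟩ := hT (ε / 2) (by positivity)
  obtain ⟨d2, hd2, H2⟩ := hS (ε / 2) (by positivity)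
  refine ⟨min d1 d2, lt_min hd1 hd2, fun w hw f hf L hL => ?_⟩
  have k1 : ‖T f - T (fun z => f (z + w))‖ ≤ ε / 2 * L := H1 w (hw.trans (min_le_left _ _)) f hf L hL
  have k2 : ‖S f - S (fun z => f (z + w))‖ ≤ ε / 2 * L := H2 w (hw.trans (min_le_right _ _)) f hf L hL
  show ‖(T f - S f) - (T (fun z => f (z + w)) - S (fun z => f (z + w)))‖ ≤ ε * L
  have e : (T f - S f) - (T (fun z => f (z + w)) - S (fun z => f (z + w))) =
      (T f - T (fun z => f (z + w))) - (S f - S (fun z => f (z + w))) := by ring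
  rw [e]
  have := norm_sub_le (T f - T (fun z => f (z + w))) (S f - S (fun z => f (z + w)))
  linarith

theorem bd_mono {T : (ℂ → ℂ) → ℂ} {K K' : ℝ} (h : BdL T K) (hK : K ≤ K') : BdL T K' := by
  intro f hf L hL
  have := h f hf L hL
  have := mul_le_mul_of_nonneg_right hK (lip_nonneg hL)
  linarith

theorem exists_step (hFD : Stmt_FD) (hFE : Stmt_FE) (s : St) :
    ∃ (g₁ g₂ : ℂ → ℂ) (s' : St), Integrable g₁ ∧ Integrable g₂ ∧
      (∫ z, ‖g₁ z‖) + (∫ z, ‖g₂ z‖) ≤ 4 * s.K ∧ s'.K = s.K / 2 ∧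
      ∀ f, s'.T f = s.T f - Dg g₁ g₂ f := by
  obtain ⟨g₁, g₂, h1, h2, h3, h4⟩ := hFE s.T s.K s.hK s.lf s.bd s.tr
  obtain ⟨a, b, c⟩ := hFD g₁ g₂ h1 h2
  exact ⟨g₁, g₂, ⟨fun f => s.T f - Dg g₁ g₂ f, s.K / 2, by have := s.hK; positivity,
    lf_sub s.lf a, h4, tr_sub s.tr b⟩, h1, h2, h3, rfl, fun f => rfl⟩

/-- pairing with a derivative of a test function as a homomorphism -/
noncomputable def IL {f : ℂ → ℂ} (hf : Tst f) (v : ℂ) : Lp ℂ 1 (volume : Measure ℂ) →+ ℂ where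
  toFun F := ∫ z, fderiv ℝ f z v * F z
  map_zero' := by
    have h : (fun z => fderiv ℝ f z v * (0 : Lp ℂ 1 (volume : Measure ℂ)) z) =ᵐ[volume]
        fun _ => (0 : ℂ) := by
      filter_upwards [Lp.coeFn_zero ℂ 1 (volume : Measure ℂ)] with z hz
      rw [hz]
      simp
    rw [integral_congr_ae h]
    simp
  map_add' F G := by
    have h : (fun z => fderiv ℝ f z v * (F + G : Lp ℂ 1 (volume : Measure ℂ)) z) =ᵐ[volume]
        fun z => fderiv ℝ f z v * F z + fderiv ℝ f z v * G z := by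
      filter_upwards [Lp.coeFn_add F G] with z hz
      rw [hz, Pi.add_apply]
      ring
    rw [integral_congr_ae h]
    exact integral_add (fd_int hf v (L1.integrable_coeFn F)) (fd_int hf v (L1.integrable_coeFn G))

theorem IL_bound {f : ℂ → ℂ} (hf : Tst f) {L : ℝ} (hL : LipB f L) {v : ℂ} (hv : ‖v‖ ≤ 1)
    (F : Lp ℂ 1 (volume : Measure ℂ)) : ‖IL hf v F‖ ≤ L * ‖F‖ := by
  rw [L1.norm_eq_integral_norm]
  exact int_le hf hL hv (L1.integrable_coeFn F)

theorem IL_toL1 {f : ℂ → ℂ} (hf : Tst f) (v : ℂ) {g : ℂ → ℂ} (hg : Integrable g) :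
    IL hf v (hg.toL1 g) = ∫ z, fderiv ℝ f z v * g z := by
  show ∫ z, fderiv ℝ f z v * (hg.toL1 g) z = _
  refine integral_congr_ae ?_
  filter_upwards [hg.coeFn_toL1] with z hz
  rw [hz]

theorem exists_lip {f : ℂ → ℂ} (hf : Tst f) : ∃ L : ℝ, LipB f L := by
  have h1 : Continuous (fderiv ℝ f) := hf.1.continuous_fderiv (by simp)
  have h2 : HasCompactSupport (fderiv ℝ f) := hf.2.fderiv (𝕜 := ℝ)
  obtain ⟨C, hC⟩ := h2.exists_bound_of_continuous h1
  exact ⟨C, hC⟩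

theorem hasSum_IL {f : ℂ → ℂ} (hf : Tst f) {v : ℂ} (hv : ‖v‖ ≤ 1)
    {F : ℕ → Lp ℂ 1 (volume : Measure ℂ)} (hF : Summable F) :
    HasSum (fun n => IL hf v (F n)) (IL hf v (∑' n, F n)) := by
  obtain ⟨L, hL⟩ := exists_lip hf
  exact hF.hasSum.map (IL hf v)
    (AddMonoidHomClass.continuous_of_bound (IL hf v) L (IL_bound hf hL hv))

theorem iterate (hFD : Stmt_FD) (hFE : Stmt_FE) (s₀ : St) :
    ∃ (g₁ g₂ : ℕ → ℂ → ℂ) (s : ℕ → St), s 0 = s₀ ∧ ∀ n, Integrable (g₁ n) ∧ Integrable (g₂ n) ∧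
      (∫ z, ‖g₁ n z‖) + (∫ z, ‖g₂ n z‖) ≤ 4 * (s n).K ∧ (s (n + 1)).K = (s n).K / 2 ∧
      ∀ f, (s (n + 1)).T f = (s n).T f - Dg (g₁ n) (g₂ n) f := by
  choose G1 G2 S h1 h2 h3 h4 h5 using exists_step hFD hFE
  refine ⟨fun n => G1 (S^[n] s₀), fun n => G2 (S^[n] s₀), fun n => S^[n] s₀, rfl, fun n => ?_⟩
  refine ⟨h1 _, h2 _, h3 _, ?_, ?_⟩
  · show (S^[n + 1] s₀).K = _
    rw [Function.iterate_succ_apply']
    exact h4 _
  · intro f
    show (S^[n + 1] s₀).T f = _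
    rw [Function.iterate_succ_apply']
    exact h5 _ f

end FFAux

open FDAux FFAux

theorem blk_FF (hFD : Stmt_FD) (hFE : Stmt_FE) : Stmt_FF := by
  intro T K hlf hbd htr
  have hbd' : BdL T (|K| + 1) := bd_mono hbd (by linarith [le_abs_self K])
  obtain ⟨g₁, g₂, s, hs0, hs⟩ := iterate hFD hFE
    ⟨T, |K| + 1, by positivity, hlf, hbd', htr⟩
  have hK : ∀ n, (s n).K = (|K| + 1) * (1 / 2) ^ n := by
    intro n
    induction n with
    | zero => rw [hs0]; simp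
    | succ n ih => rw [(hs n).2.2.2.1, ih]; ring
  have i1 : ∀ n, Integrable (g₁ n) := fun n => (hs n).1
  have i2 : ∀ n, Integrable (g₂ n) := fun n => (hs n).2.1
  have hb : ∀ n, (∫ z, ‖g₁ n z‖) + (∫ z, ‖g₂ n z‖) ≤ 4 * (|K| + 1) * (1 / 2) ^ n := by
    intro n
    have := (hs n).2.2.1
    rw [hK n] at this
    linarith
  have p1 : ∀ n, 0 ≤ ∫ z, ‖g₁ n z‖ := fun n => integral_nonneg fun z => norm_nonneg _
  have p2 : ∀ n, 0 ≤ ∫ z, ‖g₂ n z‖ := fun n => integral_nonneg fun z => norm_nonneg _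
  have hgeo : Summable (fun n : ℕ => 4 * (|K| + 1) * (1 / 2 : ℝ) ^ n) :=
    (summable_geometric_of_lt_one (by norm_num) (by norm_num)).mul_left _
  have s1 : Summable (fun n => (i1 n).toL1 (g₁ n)) := by
    refine Summable.of_norm_bounded hgeo fun n => ?_
    rw [L1.norm_of_fun_eq_integral_norm]
    linarith [hb n, p2 n]
  have s2 : Summable (fun n => (i2 n).toL1 (g₂ n)) := by
    refine Summable.of_norm_bounded hgeo fun n => ?_
    rw [L1.norm_of_fun_eq_integral_norm]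
    linarith [hb n, p1 n]
  refine ⟨(∑' n, (i1 n).toL1 (g₁ n) : Lp ℂ 1 (volume : Measure ℂ)),
    (∑' n, (i2 n).toL1 (g₂ n) : Lp ℂ 1 (volume : Measure ℂ)), L1.integrable_coeFn _,
    L1.integrable_coeFn _, fun f hf => ?_⟩
  have c1 := hasSum_IL hf norm_one_le' s1
  have c2 := hasSum_IL hf norm_I_le s2
  have c := c1.add c2
  have e : (fun n => IL hf 1 ((i1 n).toL1 (g₁ n)) + IL hf Complex.I ((i2 n).toL1 (g₂ n))) =
      fun n => Dg (g₁ n) (g₂ n) f := by
    funext n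
    rw [IL_toL1, IL_toL1]
    rfl
  rw [e] at c
  have t1 := c.tendsto_sum_nat
  have tel : ∀ n, ∑ k ∈ Finset.range n, Dg (g₁ k) (g₂ k) f = T f - (s n).T f := by
    intro n
    induction n with
    | zero => rw [hs0]; simp
    | succ n ih =>
      rw [Finset.sum_range_succ, ih, (hs n).2.2.2.2 f]
      ring
  obtain ⟨L, hL⟩ := exists_lip hf
  have t2 : Tendsto (fun n => (s n).T f) atTop (𝓝 0) := by
    refine squeeze_zero_norm (a := fun n => (|K| + 1) * (1 / 2 : ℝ) ^ n * L) (fun n => ?_) ?_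
    · have := (s n).bd f hf L hL
      rw [hK n] at this
      exact this
    · have h1 : Tendsto (fun n : ℕ => (1 / 2 : ℝ) ^ n) atTop (𝓝 0) :=
        tendsto_pow_atTop_nhds_zero_of_lt_one (by norm_num) (by norm_num)
      have h2 := (h1.const_mul (|K| + 1)).mul_const L
      simpa using h2
  have t3 : Tendsto (fun n => ∑ k ∈ Finset.range n, Dg (g₁ k) (g₂ k) f) atTop (𝓝 (T f)) := by
    have h1 : Tendsto (fun n => T f - (s n).T f) atTop (𝓝 (T f - 0)) := tendsto_const_nhds.sub t2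
    rw [sub_zero] at h1
    refine h1.congr fun n => (tel n).symm
  exact tendsto_nhds_unique t3 t1

end Pool.Q2
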