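import Pool.Agent.Work.MP_8c7e5b_q2.FF

/-!
# MP_8c7e5b_an, Q2: block FFn (block FF of helper11 with the norm bound)
-/

open MeasureTheory Complex Filter Topology
open scoped BoundedContinuousFunction

set_option autoImplicit false

namespace Pool.Q2

open FDAux FFAux

/-- BLOCK FFn: FF with the bound `∫ ‖g₁‖ + ∫ ‖g₂‖ ≤ 8 K`. -/
def Stmt_FFn : Prop := ∀ (T : (ℂ → ℂ) → ℂ) (K : ℝ), 0 ≤ K → IsLF T → BdL T K → TrC T →
    ∃ g₁ g₂ : ℂ → ℂ, Integrable g₁ ∧ Integrable g₂ ∧ (∫ z, ‖g₁ z‖) + (∫ z, ‖g₂ z‖) ≤ 8 * K ∧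
      ∀ f, Tst f → T f = Dg g₁ g₂ f

theorem blk_FFn (hFD : Stmt_FD) (hFE : Stmt_FE) : Stmt_FFn := by
  intro T K hK0 hlf hbd htr
  rcases hK0.eq_or_lt with h0 | h0
  · refine ⟨0, 0, integrable_zero _ _ _, integrable_zero _ _ _, by simp [← h0], fun f hf => ?_⟩
    obtain ⟨L, hL⟩ := exists_lip hf
    have h1 := hbd f hf L hL
    rw [← h0, zero_mul] at h1
    rw [norm_le_zero_iff.1 h1]
    simp [Dg]
  obtain ⟨g₁, g₂, s, hs0, hs⟩ := iterate hFD hFE ⟨T, K, h0, hlf, hbd, htr⟩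
  have hK : ∀ n, (s n).K = K * (1 / 2) ^ n := by
    intro n
    induction n with
    | zero => rw [hs0]; simp
    | succ n ih => rw [(hs n).2.2.2.1, ih]; ring
  have i1 : ∀ n, Integrable (g₁ n) := fun n => (hs n).1
  have i2 : ∀ n, Integrable (g₂ n) := fun n => (hs n).2.1
  have hb : ∀ n, (∫ z, ‖g₁ n z‖) + (∫ z, ‖g₂ n z‖) ≤ 4 * K * (1 / 2) ^ n := by
    intro n
    have := (hs n).2.2.1
    rw [hK n] at this
    linarith
  have p1 : ∀ n, 0 ≤ ∫ z, ‖g₁ n z‖ := fun n => integral_nonneg fun z => norm_nonneg _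
  have p2 : ∀ n, 0 ≤ ∫ z, ‖g₂ n z‖ := fun n => integral_nonneg fun z => norm_nonneg _
  have hgeo : Summable (fun n : ℕ => 4 * K * (1 / 2 : ℝ) ^ n) :=
    (summable_geometric_of_lt_one (by norm_num) (by norm_num)).mul_left _
  have s1 : Summable (fun n => (i1 n).toL1 (g₁ n)) := by
    refine Summable.of_norm_bounded hgeo fun n => ?_
    rw [L1.norm_of_fun_eq_integral_norm]
    linarith [hb n, p2 n]
  have s2 : Summable (fun n => (i2 n).toL1 (g₂ n)) := by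
    refine Summable.of_norm_bounded hgeo fun n => ?_
    rw [L1.norm_of_fun_eq_integral_norm]
    linarith [hb n, p1 n]
  have hn : (∫ z, ‖(∑' n, (i1 n).toL1 (g₁ n) : Lp ℂ 1 (volume : Measure ℂ)) z‖) +
      (∫ z, ‖(∑' n, (i2 n).toL1 (g₂ n) : Lp ℂ 1 (volume : Measure ℂ)) z‖) ≤ 8 * K := by
    rw [← L1.norm_eq_integral_norm, ← L1.norm_eq_integral_norm]
    have e1 : ∀ n, ‖(i1 n).toL1 (g₁ n)‖ = ∫ z, ‖g₁ n z‖ := fun n =>
      L1.norm_of_fun_eq_integral_norm _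
    have e2 : ∀ n, ‖(i2 n).toL1 (g₂ n)‖ = ∫ z, ‖g₂ n z‖ := fun n =>
      L1.norm_of_fun_eq_integral_norm _
    have q1 : Summable (fun n => ‖(i1 n).toL1 (g₁ n)‖) := by
      refine Summable.of_nonneg_of_le (fun n => norm_nonneg _) (fun n => ?_) hgeo
      rw [e1]
      linarith [hb n, p2 n]
    have q2 : Summable (fun n => ‖(i2 n).toL1 (g₂ n)‖) := by
      refine Summable.of_nonneg_of_le (fun n => norm_nonneg _) (fun n => ?_) hgeo
      rw [e2]
      linarith [hb n, p1 n]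
    have r1 := norm_tsum_le_tsum_norm q1
    have r2 := norm_tsum_le_tsum_norm q2
    have r3 : (∑' n, ‖(i1 n).toL1 (g₁ n)‖) + (∑' n, ‖(i2 n).toL1 (g₂ n)‖) ≤
        ∑' n : ℕ, 4 * K * (1 / 2 : ℝ) ^ n := by
      rw [← q1.tsum_add q2]
      refine (q1.add q2).tsum_le_tsum (fun n => ?_) hgeo
      show ‖(i1 n).toL1 (g₁ n)‖ + ‖(i2 n).toL1 (g₂ n)‖ ≤ _
      rw [e1, e2]
      exact hb n
    have r4 : ∑' n : ℕ, 4 * K * (1 / 2 : ℝ) ^ n = 8 * K := by
      rw [tsum_mul_left, tsum_geometric_two]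
      ring
    linarith
  refine ⟨(∑' n, (i1 n).toL1 (g₁ n) : Lp ℂ 1 (volume : Measure ℂ)),
    (∑' n, (i2 n).toL1 (g₂ n) : Lp ℂ 1 (volume : Measure ℂ)), L1.integrable_coeFn _,
    L1.integrable_coeFn _, hn, fun f hf => ?_⟩
  have c1 := hasSum_IL hf norm_one_le' s1
  have c2 := hasSum_IL hf norm_I_le s2
  have c := c1.add c2
  have e : (fun n => IL hf 1 ((i1 n).toL1 (g₁ n)) + IL hf Complex.I ((i2 n).toL1 (g₂ n))) =
      fun n => Dg (g₁ n) (g₂ n) f := by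
    funext n
    rw [IL_toL1, IL_toL1]
    rfl
  rw [e] at c
  have t1 := c.tendsto_sum_nat
  have tel : ∀ n, ∑ k ∈ Finset.range n, Dg (g₁ k) (g₂ k) f = T f - (s n).T f := by
    intro n
    induction n with
    | zero => rw [hs0]; simp
    | succ n ih =>
      rw [Finset.sum_range_succ, ih, (hs n).2.2.2.2 f]
      ring
  obtain ⟨L, hL⟩ := exists_lip hf
  have t2 : Tendsto (fun n => (s n).T f) atTop (𝓝 0) := by
    refine squeeze_zero_norm (a := fun n => K * (1 / 2 : ℝ) ^ n * L) (fun n => ?_) ?_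
    · have := (s n).bd f hf L hL
      rw [hK n] at this
      exact this
    · have h1 : Tendsto (fun n : ℕ => (1 / 2 : ℝ) ^ n) atTop (𝓝 0) :=
        tendsto_pow_atTop_nhds_zero_of_lt_one (by norm_num) (by norm_num)
      have h2 := (h1.const_mul K).mul_const L
      simpa using h2
  have t3 : Tendsto (fun n => ∑ k ∈ Finset.range n, Dg (g₁ k) (g₂ k) f) atTop (𝓝 (T f)) := by
    have h1 : Tendsto (fun n => T f - (s n).T f) atTop (𝓝 (T f - 0)) := tendsto_const_nhds.sub t2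
    rw [sub_zero] at h1
    refine h1.congr fun n => (tel n).symm
  exact tendsto_nhds_unique t3 t1

end Pool.Q2
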