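import Pool.Agent.Work.MP_8c7e5b_q2.Interface4

/-!
# Blocks QLB, FIN: the strong form
-/

open MeasureTheory Complex Filter Topology
open scoped ComplexOrder InnerProductSpace ComplexConjugate BoundedContinuousFunction ZeroAtInfty

set_option autoImplicit false
set_option linter.unusedSectionVars false

universe v

namespace Pool.Q2

open Pool.Bes

namespace FINAux

/-- a test function as an element of `C₀` -/
noncomputable def mkC0 (f : ℂ → ℂ) (hf : Tst f) : C₀(ℂ, ℂ) where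
  toFun := f
  continuous_toFun := hf.1.continuous
  zero_at_infty' := hf.2.is_zero_at_infty

theorem tst_add {f g : ℂ → ℂ} (hf : Tst f) (hg : Tst g) : Tst fun z => f z + g z :=
  ⟨hf.1.add hg.1, hf.2.add hg.2⟩

theorem tst_mul {f : ℂ → ℂ} (c : ℂ) (hf : Tst f) : Tst fun z => c * f z :=
  ⟨contDiff_const.mul hf.1, hf.2.mul_left⟩

theorem norm_int_le {f : ℂ → ℂ} {L : ℝ} (hL : LipB f L) {μ : Measure ℂ} {g : ℂ → ℂ}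
    (hg : Integrable g μ) {d : ℂ} (hd : ‖d‖ ≤ 1) :
    ‖∫ z : ℂ, fderiv ℝ f z d * g z ∂μ‖ ≤ L * ∫ z, ‖g z‖ ∂μ := by
  have h0 : 0 ≤ L := (norm_nonneg _).trans (hL 0)
  rw [← integral_const_mul]
  refine norm_integral_le_of_norm_le (hg.norm.const_mul L) (Eventually.of_forall fun z => ?_)
  rw [norm_mul]
  refine mul_le_mul_of_nonneg_right ?_ (norm_nonneg _)
  calc ‖fderiv ℝ f z d‖ ≤ ‖fderiv ℝ f z‖ * ‖d‖ := (fderiv ℝ f z).le_opNorm d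
    _ ≤ L * 1 := by
      gcongr
      exact hL z
    _ = L := mul_one L

theorem isLF_Tp {H : Type v} [NormedAddCommGroup H] [InnerProductSpace ℂ H] [CompleteSpace H]
    (π₁ π₂ : C₀(ℂ, ℂ) →⋆ₙₐ[ℂ] (H →L[ℂ] H))
    (h : ∀ f : C₀(ℂ, ℂ), Tst f → IsT (π₂ f - π₁ f) ∧ Tp π₁ π₂ f = trO (π₂ f - π₁ f)) :
    IsLF (Tp π₁ π₂) := by
  refine ⟨fun f g hf hg => ?_, fun c f hf => ?_⟩
  · obtain ⟨a1, a2⟩ := h (mkC0 f hf) hf
    obtain ⟨b1, b2⟩ := h (mkC0 g hg) hg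
    obtain ⟨c1, c2⟩ := h (mkC0 _ (tst_add hf hg)) (tst_add hf hg)
    have e : mkC0 _ (tst_add hf hg) = mkC0 f hf + mkC0 g hg := by
      ext z
      rfl
    have c3 : Tp π₁ π₂ (fun z => f z + g z) =
        trO (π₂ (mkC0 _ (tst_add hf hg)) - π₁ (mkC0 _ (tst_add hf hg))) := c2
    have a3 : Tp π₁ π₂ f = trO (π₂ (mkC0 f hf) - π₁ (mkC0 f hf)) := a2
    have b3 : Tp π₁ π₂ g = trO (π₂ (mkC0 g hg) - π₁ (mkC0 g hg)) := b2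
    rw [c3, a3, b3, e, map_add, map_add, ← trO_add a1 b1]
    congr 1
    abel
  · obtain ⟨a1, a2⟩ := h (mkC0 f hf) hf
    obtain ⟨c1, c2⟩ := h (mkC0 _ (tst_mul c hf)) (tst_mul c hf)
    have e : mkC0 _ (tst_mul c hf) = c • mkC0 f hf := by
      ext z
      rfl
    have c3 : Tp π₁ π₂ (fun z => c * f z) =
        trO (π₂ (mkC0 _ (tst_mul c hf)) - π₁ (mkC0 _ (tst_mul c hf))) := c2
    have a3 : Tp π₁ π₂ f = trO (π₂ (mkC0 f hf) - π₁ (mkC0 f hf)) := a2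
    rw [c3, a3, e, map_smul, map_smul, ← smul_sub, trO_smul _ a1]

end FINAux

open FINAux

theorem blk_QLB (hUTR : Stmt_UTR.{v}) (hTFN : Stmt_TFN.{v}) : Stmt_QLB.{v} := by
  intro hQ H _ _ _ _ N₁ N₂ h₁ h₂ hD
  obtain ⟨t1, t2, t3, t4⟩ := hUTR H
  obtain ⟨μ, g₁, g₂, hμ, i1, i2, hf⟩ := hQ H N₁ N₂ h₁ h₂ _ (t4 _ hD)
  refine ⟨(∫ z, ‖g₁ z‖ ∂μ) + ∫ z, ‖g₂ z‖ ∂μ, fun f hft L hL => ?_⟩
  have a1 := (hTFN.1 H N₁ N₂ h₁ h₂ hD).1 f hft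
  have a2 := t1 _ _ _ (t2 _ a1) (hf f hft.1 hft.2)
  have a3 : Tf N₁ N₂ f = trO (cfc f N₂ - cfc f N₁) := rfl
  rw [a3, a2]
  have b1 := norm_int_le hL i1 (d := 1) (by simp)
  have b2 := norm_int_le hL i2 (d := Complex.I) (by simp)
  refine (norm_add_le _ _).trans ?_
  linarith

theorem blk_FIN (hQLB : Stmt_QLB.{v}) (hGH : Stmt_GH.{v}) (hU8 : Stmt_U8.{v}) (hU9 : Stmt_U9.{v})
    (hU7b : Stmt_U7b) (hFB : Stmt_FB) (hFFn : Stmt_FFn) (hUTR : Stmt_UTR.{v}) : Stmt_FIN.{v} := by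
  intro hQ
  have hLB := hQLB hQ
  obtain ⟨C₀, hC₀, hUB⟩ := hGH hLB
  refine ⟨8 * (2 * C₀), fun H _ _ _ _ N₁ N₂ π₁ π₂ h₁ h₂ D M hD hdiff => ?_⟩
  obtain ⟨t1, t2, t3, t4⟩ := hUTR H
  obtain ⟨hDT, hDM⟩ := t3 D M hD
  obtain ⟨e1, k₁, k₂, l1, l2, e2⟩ := hU8 hLB H N₁ N₂ π₁ π₂ D h₁ h₂ hDT hdiff
  have hlf : IsLF (Tp π₁ π₂) := isLF_Tp π₁ π₂ e1
  have hbd := hU9 C₀ hC₀ hUB H N₁ N₂ π₁ π₂ D h₁ h₂ hDT hdiff
  have htr := hU7b hFB (Tp π₁ π₂) _ k₁ k₂ hlf hbd l1 l2 e2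
  have hK0 : 0 ≤ 2 * C₀ * n1 D := by
    have := n1_nonneg D
    positivity
  obtain ⟨p₁, p₂, j1, j2, jn, hp⟩ := hFFn (Tp π₁ π₂) _ hK0 hlf hbd htr
  refine ⟨p₁, p₂, j1, j2, ?_, fun f hf hfc => ?_⟩
  · refine jn.trans ?_
    have h1 : 2 * C₀ * n1 D ≤ 2 * C₀ * M := mul_le_mul_of_nonneg_left hDM (by positivity)
    linarith
  · obtain ⟨a1, a2⟩ := e1 f ⟨hf, hfc⟩
    have a3 := t2 _ a1
    rw [← a2, hp f ⟨hf, hfc⟩] at a3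
    exact a3

end Pool.Q2
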