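import Pool.Agent.Work.MP_8c7e5b_q2.Interface2

/-!
# MP_8c7e5b_an, Q2: block GH (gliding hump)
-/

open MeasureTheory Complex Filter Topology
open scoped ComplexOrder InnerProductSpace ComplexConjugate BoundedContinuousFunction

set_option autoImplicit false
set_option linter.unusedSectionVars false

universe v

namespace Pool.Q2
namespace GHAux

open Pool.Bes

/-- a pair and a test function violating the bound with constant `c` -/
structure Dat (c : ℝ) where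
  H : Type v
  [i1 : NormedAddCommGroup H]
  [i2 : InnerProductSpace ℂ H]
  [i3 : CompleteSpace H]
  [i4 : TopologicalSpace.SeparableSpace H]
  N₁ : H →L[ℂ] H
  N₂ : H →L[ℂ] H
  n₁ : IsStarNormal N₁
  n₂ : IsStarNormal N₂
  hT : IsT (N₂ - N₁)
  f : ℂ → ℂ
  L : ℝ
  hf : Tst f
  hL : LipB f L
  hlt : c * n1 (N₂ - N₁) * L < ‖Tf N₁ N₂ f‖

attribute [instance] Dat.i1 Dat.i2 Dat.i3 Dat.i4

theorem exists_dat {c : ℝ} (h : ¬ UB.{v} c) : Nonempty (Dat.{v} c) := by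
  unfold UB at h
  push Not at h
  obtain ⟨H, i1, i2, i3, i4, N₁, N₂, n₁, n₂, hT, h⟩ := h
  unfold BdL at h
  push Not at h
  obtain ⟨f, hf, L, hL, hlt⟩ := h
  exact ⟨⟨H, N₁, N₂, n₁, n₂, hT, f, L, hf, hL, hlt⟩⟩

theorem Dat.L_nonneg {c : ℝ} (d : Dat.{v} c) : 0 ≤ d.L := (norm_nonneg _).trans (d.hL 0)

theorem Dat.M_pos {c : ℝ} (d : Dat.{v} c) : 0 < n1 (d.N₂ - d.N₁) := by
  refine lt_of_le_of_ne (n1_nonneg _) fun h => ?_
  have h1 := n1_eq_zero d.hT h.symm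
  have h2 : d.N₂ = d.N₁ := sub_eq_zero.1 h1
  have h3 := d.hlt
  rw [← h, mul_zero, zero_mul, Tf, h2, sub_self, trO_zero, norm_zero] at h3
  exact lt_irrefl _ h3

theorem Dat.L_pos {c : ℝ} (hLB : LB.{v}) (d : Dat.{v} c) : 0 < d.L := by
  refine lt_of_le_of_ne d.L_nonneg fun h => ?_
  obtain ⟨C, hC⟩ := hLB d.H d.N₁ d.N₂ d.n₁ d.n₂ d.hT
  have h1 := hC d.f d.hf d.L d.hL
  have h3 := d.hlt
  rw [← h, mul_zero] at h1 h3
  linarith

/-- the parameters -/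
theorem exists_par {A B M r s : ℝ} (hA : 0 ≤ A) (hB : 0 ≤ B) (hM : 0 < M) (hr : 0 < r)
    (hs : 0 < s) : ∃ (t : ℝ) (m : ℕ), 0 < t ∧ t * A ≤ r ∧ t * B ≤ r ∧ s / 2 ≤ m * (t * M) ∧
      m * (t * M) ≤ s := by
  have h0 : 0 < A + B + 1 := by linarith
  refine ⟨min (r / (A + B + 1)) (s / (2 * M)), ⌊s / (min (r / (A + B + 1)) (s / (2 * M)) * M)⌋₊,
    ?_, ?_, ?_, ?_, ?_⟩
  · positivity
  · have h1 : min (r / (A + B + 1)) (s / (2 * M)) ≤ r / (A + B + 1) := min_le_left _ _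
    calc _ ≤ r / (A + B + 1) * A := mul_le_mul_of_nonneg_right h1 hA
      _ = r * (A / (A + B + 1)) := by ring
      _ ≤ r * 1 := mul_le_mul_of_nonneg_left (by rw [div_le_one h0]; linarith) hr.le
      _ = r := mul_one r
  · have h1 : min (r / (A + B + 1)) (s / (2 * M)) ≤ r / (A + B + 1) := min_le_left _ _
    calc _ ≤ r / (A + B + 1) * B := mul_le_mul_of_nonneg_right h1 hB
      _ = r * (B / (A + B + 1)) := by ring
      _ ≤ r * 1 := mul_le_mul_of_nonneg_left (by rw [div_le_one h0]; linarith) hr.le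
      _ = r := mul_one r
  · set t := min (r / (A + B + 1)) (s / (2 * M)) with ht
    have ht0 : 0 < t := by positivity
    have htM : 0 < t * M := by positivity
    have h1 : t * M ≤ s / 2 := by
      calc t * M ≤ s / (2 * M) * M := mul_le_mul_of_nonneg_right (min_le_right _ _) hM.le
        _ = s / 2 := by field_simp
    have h2 := Nat.lt_floor_add_one (s / (t * M))
    have h3 : s < (⌊s / (t * M)⌋₊ + 1) * (t * M) := by
      rwa [div_lt_iff₀ htM] at h2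
    nlinarith
  · set t := min (r / (A + B + 1)) (s / (2 * M)) with ht
    have ht0 : 0 < t := by positivity
    have htM : 0 < t * M := by positivity
    have h2 := Nat.floor_le (a := s / (t * M)) (by positivity)
    rwa [le_div_iff₀ htM] at h2

section spec

variable {H : Type v} [NormedAddCommGroup H] [InnerProductSpace ℂ H] [CompleteSpace H]

/-- the spectrum of `w + t N` -/
theorem spec_ball {N : H →L[ℂ] H} {w : ℂ} {t r : ℝ} (ht : 0 < t) (h : t * ‖N‖ ≤ r) {z : ℂ}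
    (hz : z ∈ spectrum ℂ (w • (1 : H →L[ℂ] H) + (t : ℂ) • N)) : ‖z - w‖ ≤ r := by
  by_cases hnt : Nontrivial H
  · have h1 : z - w ∈ spectrum ℂ ((t : ℂ) • N) := by
      rw [spectrum.mem_iff] at hz ⊢
      intro hu
      apply hz
      have : algebraMap ℂ (H →L[ℂ] H) z - (w • (1 : H →L[ℂ] H) + (t : ℂ) • N) =
          algebraMap ℂ (H →L[ℂ] H) (z - w) - (t : ℂ) • N := by
        rw [map_sub, Algebra.algebraMap_eq_smul_one, Algebra.algebraMap_eq_smul_one]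
        abel
      rwa [this]
    have h2 := spectrum.norm_le_norm_of_mem h1
    refine h2.trans ?_
    rw [norm_smul, Complex.norm_real, Real.norm_of_nonneg ht.le]
    exact h
  · rw [not_nontrivial_iff_subsingleton] at hnt
    exfalso
    rw [spectrum.mem_iff] at hz
    apply hz
    have : Subsingleton (H →L[ℂ] H) := ⟨fun a b => by ext x; exact Subsingleton.elim _ _⟩
    exact isUnit_of_subsingleton _

theorem cfc_eq_zero {N : H →L[ℂ] H} {w : ℂ} {t r : ℝ} (ht : 0 < t) (h : t * ‖N‖ ≤ r)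
    {F : ℂ → ℂ} (hF : ∀ z, ‖z - w‖ ≤ r → F z = 0) :
    cfc F (w • (1 : H →L[ℂ] H) + (t : ℂ) • N) = 0 := by
  have h1 : cfc F (w • (1 : H →L[ℂ] H) + (t : ℂ) • N) =
      cfc (fun _ : ℂ => (0 : ℂ)) (w • (1 : H →L[ℂ] H) + (t : ℂ) • N) :=
    cfc_congr fun z hz => hF z (spec_ball ht h hz)
  rw [h1]
  exact cfc_const_zero ℂ _

end spec

/-- disjoint balls -/
theorem balls {j k : ℕ} (hjk : j ≠ k) {z : ℂ}
    (hz : ‖z - (((1 / 2 : ℝ) ^ j : ℝ) : ℂ)‖ ≤ (1 / 2 : ℝ) ^ j / 10) :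
    2 * ((1 / 2 : ℝ) ^ k / 10) ≤ ‖z - (((1 / 2 : ℝ) ^ k : ℝ) : ℂ)‖ := by
  have h1 : |(1 / 2 : ℝ) ^ j - (1 / 2 : ℝ) ^ k| =
      ‖(((1 / 2 : ℝ) ^ j : ℝ) : ℂ) - (((1 / 2 : ℝ) ^ k : ℝ) : ℂ)‖ := by
    rw [← Complex.ofReal_sub, Complex.norm_real, Real.norm_eq_abs]
  have h2 : ‖(((1 / 2 : ℝ) ^ j : ℝ) : ℂ) - (((1 / 2 : ℝ) ^ k : ℝ) : ℂ)‖ ≤
      ‖z - (((1 / 2 : ℝ) ^ k : ℝ) : ℂ)‖ + ‖z - (((1 / 2 : ℝ) ^ j : ℝ) : ℂ)‖ := by
    have : (((1 / 2 : ℝ) ^ j : ℝ) : ℂ) - (((1 / 2 : ℝ) ^ k : ℝ) : ℂ) =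
        (z - (((1 / 2 : ℝ) ^ k : ℝ) : ℂ)) - (z - (((1 / 2 : ℝ) ^ j : ℝ) : ℂ)) := by ring
    rw [this]
    exact norm_sub_le _ _
  rw [← h1] at h2
  have hp : ∀ n : ℕ, 0 < (1 / 2 : ℝ) ^ n := fun n => by positivity
  rcases lt_or_gt_of_ne hjk with h | h
  · -- `j < k`
    have h3 : (1 / 2 : ℝ) ^ k ≤ (1 / 2 : ℝ) ^ j / 2 := by
      calc (1 / 2 : ℝ) ^ k ≤ (1 / 2 : ℝ) ^ (j + 1) :=
            pow_le_pow_of_le_one (by norm_num) (by norm_num) h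
        _ = _ := by rw [pow_succ]; ring
    have h4 := le_abs_self ((1 / 2 : ℝ) ^ j - (1 / 2 : ℝ) ^ k)
    have := hp j
    linarith
  · have h3 : (1 / 2 : ℝ) ^ j ≤ (1 / 2 : ℝ) ^ k / 2 := by
      calc (1 / 2 : ℝ) ^ j ≤ (1 / 2 : ℝ) ^ (k + 1) :=
            pow_le_pow_of_le_one (by norm_num) (by norm_num) h
        _ = _ := by rw [pow_succ]; ring
    have h4 := neg_abs_le ((1 / 2 : ℝ) ^ j - (1 / 2 : ℝ) ^ k)
    have := hp k
    linarith

/-- the gliding hump -/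
theorem main (hTFN : Stmt_TFN.{v}) (hLPA : Stmt_LPA.{v}) (hLPB : Stmt_LPB.{v})
    (hLPC : Stmt_LPC.{v}) (hCUT : Stmt_CUT) (hAFF : Stmt_AFF.{v}) (hLB : LB.{v})
    (d : ∀ k : ℕ, Dat.{v} (((k : ℝ) + 1) ^ 4)) : False := by
  obtain ⟨C₁, hC₁, hcut⟩ := hCUT
  -- parameters
  have hpar : ∀ k : ℕ, ∃ (t : ℝ) (m : ℕ), 0 < t ∧ t * ‖(d k).N₁‖ ≤ (1 / 2 : ℝ) ^ k / 10 ∧
      t * ‖(d k).N₂‖ ≤ (1 / 2 : ℝ) ^ k / 10 ∧
      (((k : ℝ) + 1) ^ 2)⁻¹ / 2 ≤ m * (t * n1 ((d k).N₂ - (d k).N₁)) ∧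
      m * (t * n1 ((d k).N₂ - (d k).N₁)) ≤ (((k : ℝ) + 1) ^ 2)⁻¹ := fun k =>
    exists_par (norm_nonneg _) (norm_nonneg _) (d k).M_pos (by positivity) (by positivity)
  choose t m ht ht1 ht2 hm1 hm2 using hpar
  set w : ℕ → ℂ := fun k => (((1 / 2 : ℝ) ^ k : ℝ) : ℂ) with hw
  -- the direct sum
  let ι : Type := Σ k : ℕ, Fin (m k)
  let G : ι → Type v := fun p => (d p.1).H
  obtain ⟨K, j1, j2, j3, j4, i, hi⟩ := hLPA ι G
  let A₁ : ∀ p : ι, G p →L[ℂ] G p := fun p =>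
    w p.1 • (1 : (d p.1).H →L[ℂ] (d p.1).H) + (t p.1 : ℂ) • (d p.1).N₁
  let A₂ : ∀ p : ι, G p →L[ℂ] G p := fun p =>
    w p.1 • (1 : (d p.1).H →L[ℂ] (d p.1).H) + (t p.1 : ℂ) • (d p.1).N₂
  have hbd : ∀ (k : ℕ) (N : (d k).H →L[ℂ] (d k).H), t k * ‖N‖ ≤ (1 / 2 : ℝ) ^ k / 10 →
      ‖w k • (1 : (d k).H →L[ℂ] (d k).H) + (t k : ℂ) • N‖ ≤ 2 := by
    intro k N hN
    have h1 : ‖w k‖ ≤ 1 := by
      rw [hw]
      show ‖(((1 / 2 : ℝ) ^ k : ℝ) : ℂ)‖ ≤ 1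
      rw [Complex.norm_real, Real.norm_of_nonneg (by positivity)]
      exact pow_le_one₀ (by norm_num) (by norm_num)
    have h2 : (1 / 2 : ℝ) ^ k ≤ 1 := pow_le_one₀ (by norm_num) (by norm_num)
    have h3 : ‖(1 : (d k).H →L[ℂ] (d k).H)‖ ≤ 1 := ContinuousLinearMap.norm_id_le
    calc ‖w k • (1 : (d k).H →L[ℂ] (d k).H) + (t k : ℂ) • N‖
        ≤ ‖w k • (1 : (d k).H →L[ℂ] (d k).H)‖ + ‖(t k : ℂ) • N‖ := norm_add_le _ _
      _ ≤ 1 * 1 + t k * ‖N‖ := by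
          have h4 : ‖((t k : ℝ) : ℂ)‖ = t k := by
            rw [Complex.norm_real, Real.norm_of_nonneg (ht k).le]
          rw [norm_smul, norm_smul, h4]
          have := mul_le_mul h1 h3 (norm_nonneg _) zero_le_one
          linarith
      _ ≤ 2 := by linarith
  obtain ⟨A₁', hA₁'⟩ := (hLPB ι G K i hi).1 A₁ 2 fun p => hbd p.1 _ (ht1 p.1)
  obtain ⟨A₂', hA₂'⟩ := (hLPB ι G K i hi).1 A₂ 2 fun p => hbd p.1 _ (ht2 p.1)
  have haff := fun p : ι => hAFF (d p.1).H (d p.1).N₁ (d p.1).N₂ (w p.1)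
    ((1 / 2 : ℝ) ^ p.1 / 10) (t p.1) (d p.1).n₁ (d p.1).n₂ (d p.1).hT (ht p.1) (ht1 p.1) (ht2 p.1)
  have hn₁ : ∀ p, IsStarNormal (A₁ p) := fun p => (haff p).1
  have hn₂ : ∀ p, IsStarNormal (A₂ p) := by
    intro p
    have hT' : IsT ((d p.1).N₁ - (d p.1).N₂) := by
      rw [← neg_sub]
      exact (d p.1).hT.neg
    exact (hAFF (d p.1).H (d p.1).N₂ (d p.1).N₁ (w p.1)
      ((1 / 2 : ℝ) ^ p.1 / 10) (t p.1) (d p.1).n₂ (d p.1).n₁ hT' (ht p.1) (ht2 p.1) (ht1 p.1)).1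
  obtain ⟨hN₁, hc₁⟩ := ((hLPB ι G K i hi).2 A₁' A₁ hA₁').2 hn₁
  obtain ⟨hN₂, hc₂⟩ := ((hLPB ι G K i hi).2 A₂' A₂ hA₂').2 hn₂
  -- the difference is trace class
  have hsum : Summable fun p : ι => n1 (A₂ p - A₁ p) := by
    have he : ∀ p : ι, n1 (A₂ p - A₁ p) = t p.1 * n1 ((d p.1).N₂ - (d p.1).N₁) :=
      fun p => (haff p).2.2.1
    have h1 : (fun p : ι => n1 (A₂ p - A₁ p)) =
        fun p : ι => t p.1 * n1 ((d p.1).N₂ - (d p.1).N₁) := funext he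
    rw [h1, summable_sigma_of_nonneg fun p => mul_nonneg (ht p.1).le (n1_nonneg _)]
    refine ⟨fun k => Summable.of_finite, ?_⟩
    have h2 : ∀ k : ℕ, ∑' _ : Fin (m k), t k * n1 ((d k).N₂ - (d k).N₁) =
        m k * (t k * n1 ((d k).N₂ - (d k).N₁)) := by
      intro k
      rw [tsum_fintype, Finset.sum_const, Finset.card_univ, Fintype.card_fin, nsmul_eq_mul]
    have h3 : Summable fun k : ℕ => ((((k : ℝ) + 1) ^ 2)⁻¹ : ℝ) := by
      have h4 := (summable_nat_add_iff 1).2 (Real.summable_nat_pow_inv.2 one_lt_two)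
      refine h4.congr fun k => ?_
      push_cast
      rfl
    refine Summable.of_nonneg_of_le (fun k => ?_) (fun k => ?_) h3
    · show 0 ≤ ∑' _ : Fin (m k), t k * n1 ((d k).N₂ - (d k).N₁)
      rw [h2]
      exact mul_nonneg (Nat.cast_nonneg _) (mul_nonneg (ht k).le (n1_nonneg _))
    · show ∑' _ : Fin (m k), t k * n1 ((d k).N₂ - (d k).N₁) ≤ _
      rw [h2]
      exact hm2 k
  have hD : ∀ p, (A₂' - A₁') ∘L (i p) = (i p) ∘L (A₂ p - A₁ p) := by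
    intro p
    rw [ContinuousLinearMap.sub_comp, ContinuousLinearMap.comp_sub, hA₁', hA₂']
  have hDT : IsT (A₂' - A₁') :=
    (hLPC ι G K i hi (A₂' - A₁') (fun p => A₂ p - A₁ p) hD (fun p => (haff p).2.1) hsum).1
  obtain ⟨C, hC⟩ := hLB K A₁' A₂' hN₁ hN₂ hDT
  -- the test functions
  have key : ∀ k : ℕ, ((k : ℝ) + 1) ^ 2 / 2 ≤ C * C₁ := by
    intro k
    obtain ⟨F, hF, hFL, hF1, hF2⟩ := hcut (d k).f (d k).L (w k) ((1 / 2 : ℝ) ^ k / 10) (t k)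
      (d k).hf (d k).hL (by positivity) (ht k)
    have hFc : Continuous F := hF.1.continuous
    have hE : ∀ p, (cfc F A₂' - cfc F A₁') ∘L (i p) =
        (i p) ∘L (cfc F (A₂ p) - cfc F (A₁ p)) := by
      intro p
      rw [ContinuousLinearMap.sub_comp, ContinuousLinearMap.comp_sub, hc₁ F hFc, hc₂ F hFc]
    have hET : ∀ p, IsT (cfc F (A₂ p) - cfc F (A₁ p)) := fun p =>
      (hTFN.1 (G p) (A₁ p) (A₂ p) (hn₁ p) (hn₂ p) (haff p).2.1).1 F hF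
    have hE0 : ∀ p : ι, p.1 ≠ k → cfc F (A₂ p) - cfc F (A₁ p) = 0 := by
      intro p hp
      have h0 : ∀ z, ‖z - w p.1‖ ≤ (1 / 2 : ℝ) ^ p.1 / 10 → F z = 0 := fun z hz =>
        hF2 z (balls hp hz)
      have h1 : cfc F (A₂ p) = 0 := cfc_eq_zero (ht p.1) (ht2 p.1) h0
      have h2 : cfc F (A₁ p) = 0 := cfc_eq_zero (ht p.1) (ht1 p.1) h0
      rw [h1, h2, sub_self]
    let s : Finset ι := (Finset.univ : Finset (Fin (m k))).map
      ⟨fun l => (⟨k, l⟩ : ι), fun a b h => by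
        have := (Sigma.mk.inj_iff.1 h).2
        exact eq_of_heq this⟩
    have hs : ∀ p : ι, p ∉ s → p.1 ≠ k := by
      rintro ⟨a, l⟩ hp rfl
      apply hp
      rw [Finset.mem_map]
      exact ⟨l, Finset.mem_univ _, rfl⟩
    have hsm : Summable fun p : ι => n1 (cfc F (A₂ p) - cfc F (A₁ p)) := by
      refine summable_of_ne_finset_zero (s := s) fun p hp => ?_
      rw [hE0 p (hs p hp), n1_zero]
    have hval := (hLPC ι G K i hi (cfc F A₂' - cfc F A₁')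
      (fun p => cfc F (A₂ p) - cfc F (A₁ p)) hE hET hsm).2
    have hval2 : HasSum (fun p : ι => trO (cfc F (A₂ p) - cfc F (A₁ p)))
        (∑ p ∈ s, trO (cfc F (A₂ p) - cfc F (A₁ p))) := by
      refine hasSum_sum_of_ne_finset_zero fun p hp => ?_
      rw [hE0 p (hs p hp), trO_zero]
    have hfin : Tf A₁' A₂' F = m k * Tf (d k).N₁ (d k).N₂ (d k).f := by
      have h1 := hval.unique hval2
      unfold Tf
      rw [h1, Finset.sum_map]
      have h2 : ∀ l ∈ (Finset.univ : Finset (Fin (m k))),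
          trO (cfc F (A₂ ⟨k, l⟩) - cfc F (A₁ ⟨k, l⟩)) =
            trO (cfc (d k).f (d k).N₂ - cfc (d k).f (d k).N₁) := by
        intro l _
        exact ((haff ⟨k, l⟩).2.2.2 F (d k).f hF (d k).hf).1 hF1
      refine (Finset.sum_congr rfl h2).trans ?_
      rw [Finset.sum_const, Finset.card_univ, Fintype.card_fin, nsmul_eq_mul]
    have h1 := hC F hF _ hFL
    rw [hfin, norm_mul, Complex.norm_natCast] at h1
    have hL0 := (d k).L_pos hLB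
    have h2 := (d k).hlt
    have h3 : (m k : ℝ) * (((k : ℝ) + 1) ^ 4 * n1 ((d k).N₂ - (d k).N₁) * (d k).L) ≤
        C * (C₁ * (d k).L / t k) :=
      (mul_le_mul_of_nonneg_left h2.le (Nat.cast_nonneg _)).trans h1
    have h4 : (m k : ℝ) * (t k * n1 ((d k).N₂ - (d k).N₁)) * ((k : ℝ) + 1) ^ 4 ≤ C * C₁ := by
      have h5 := mul_le_mul_of_nonneg_right h3 (div_nonneg (ht k).le hL0.le)
      have h6 : C * (C₁ * (d k).L / t k) * (t k / (d k).L) = C * C₁ := by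
        have := (ht k).ne'
        have := hL0.ne'
        field_simp
      have h7 : (m k : ℝ) * (((k : ℝ) + 1) ^ 4 * n1 ((d k).N₂ - (d k).N₁) * (d k).L) *
          (t k / (d k).L) = (m k : ℝ) * (t k * n1 ((d k).N₂ - (d k).N₁)) * ((k : ℝ) + 1) ^ 4 := by
        have := hL0.ne'
        field_simp
      rwa [h6, h7] at h5
    have h8 : (((k : ℝ) + 1) ^ 2)⁻¹ / 2 * ((k : ℝ) + 1) ^ 4 ≤ C * C₁ :=
      (mul_le_mul_of_nonneg_right (hm1 k) (by positivity)).trans h4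
    have h9 : (((k : ℝ) + 1) ^ 2)⁻¹ / 2 * ((k : ℝ) + 1) ^ 4 = ((k : ℝ) + 1) ^ 2 / 2 := by
      have : (k : ℝ) + 1 ≠ 0 := by positivity
      field_simp
    rwa [h9] at h8
  obtain ⟨k, hk⟩ := exists_nat_gt (2 * |C * C₁|)
  have h1 := key k
  have h2 := le_abs_self (C * C₁)
  have h3 : (0 : ℝ) ≤ k := Nat.cast_nonneg k
  nlinarith

end GHAux

theorem blk_GH (hTFN : Stmt_TFN.{v}) (hLPA : Stmt_LPA.{v}) (hLPB : Stmt_LPB.{v})
    (hLPC : Stmt_LPC.{v}) (hCUT : Stmt_CUT) (hAFF : Stmt_AFF.{v}) : Stmt_GH.{v} := by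
  intro hLB
  by_contra hcon
  push Not at hcon
  have h : ∀ k : ℕ, Nonempty (GHAux.Dat.{v} (((k : ℝ) + 1) ^ 4)) := fun k =>
    GHAux.exists_dat (hcon _ (by positivity))
  exact GHAux.main hTFN hLPA hLPB hLPC hCUT hAFF hLB fun k => (h k).some

end Pool.Q2
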