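import Pool.Agent.Work.MP_8c7e5b_q2.Interface

/-!
# MP_8c7e5b_an, Q2: block GRD (greedy choice)
-/

open MeasureTheory Complex Filter Topology
open scoped ComplexOrder InnerProductSpace ComplexConjugate

set_option autoImplicit false
set_option linter.unusedSectionVars false

universe v

namespace Pool.Q2

open Pool.Bes Pool.Bes.ALGAux

namespace GRDAux

variable {H : Type v} [NormedAddCommGroup H] [InnerProductSpace ℂ H] [CompleteSpace H]

theorem norm_proj_le {n : ℕ} {u : Fin n → H} (hu : Orthonormal ℂ u) :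
    ‖∑ k, r1 (u k) (u k)‖ ≤ 1 := by
  refine ContinuousLinearMap.opNorm_le_bound _ zero_le_one fun x => ?_
  rw [one_mul, sum_apply]
  simp only [r1_apply]
  have h1 : ‖∑ k, ⟪u k, x⟫_ℂ • u k‖ ^ 2 = ∑ k, ‖⟪u k, x⟫_ℂ‖ ^ 2 := by
    have h2 := hu.inner_sum (fun k => ⟪u k, x⟫_ℂ) (fun k => ⟪u k, x⟫_ℂ) Finset.univ
    have h3 : ((‖∑ k, ⟪u k, x⟫_ℂ • u k‖ ^ 2 : ℝ) : ℂ) = ((∑ k, ‖⟪u k, x⟫_ℂ‖ ^ 2 : ℝ) : ℂ) := by
      have h4 := inner_self_eq_norm_sq_to_K (𝕜 := ℂ) (∑ k, ⟪u k, x⟫_ℂ • u k)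
      rw [h2] at h4
      rw [Complex.ofReal_pow, Complex.ofReal_sum]
      refine h4.symm.trans (Finset.sum_congr rfl fun k _ => ?_)
      rw [Complex.ofReal_pow]
      exact Complex.conj_mul' _
    exact_mod_cast h3
  have h4 := hu.sum_inner_products_le (s := Finset.univ) x
  rw [← h1] at h4
  exact le_of_pow_le_pow_left₀ two_ne_zero (norm_nonneg _) h4

theorem card_le {A : H →L[ℂ] H} (hA : IsT A) {c : ℝ} {n : ℕ} {u : Fin n → H}
    (hu : Orthonormal ℂ u) (hc : ∀ k, c ≤ (⟪u k, A (u k)⟫_ℂ).re) : n * c ≤ n1 A := by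
  have h1 : ∑ k, ⟪u k, A (u k)⟫_ℂ = pr (toS A) (∑ k, r1 (u k) (u k)) := by
    have h2 : pr (toS A) (∑ k, r1 (u k) (u k)) = ∑ k, pr (toS A) (r1 (u k) (u k)) :=
      map_sum (toS A).toDual _ _
    rw [h2]
    refine Finset.sum_congr rfl fun k _ => ?_
    rw [← inner_op, op_toS hA]
  have h3 : ‖pr (toS A) (∑ k, r1 (u k) (u k))‖ ≤ n1 A * 1 := by
    refine (norm_pr_le _ _).trans ?_
    exact mul_le_mul_of_nonneg_left (norm_proj_le hu) (norm_nonneg _)
  have h4 : (n : ℝ) * c ≤ (∑ k, ⟪u k, A (u k)⟫_ℂ).re := by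
    rw [Complex.re_sum]
    calc (n : ℝ) * c = ∑ _k : Fin n, c := by
          rw [Finset.sum_const, Finset.card_univ, Fintype.card_fin, nsmul_eq_mul]
      _ ≤ _ := Finset.sum_le_sum fun k _ => hc k
  have h5 := Complex.re_le_norm (∑ k, ⟪u k, A (u k)⟫_ℂ)
  rw [h1] at h5 h4
  linarith

end GRDAux

open GRDAux in
/-- Block GRD. -/
theorem blk_GRD : Stmt_GRD.{v} := by
  intro H _ _ _ A c _ hA hc
  classical
  obtain ⟨p, hp⟩ : ∃ p : ℕ → Prop, p = fun n => ∃ u : Fin n → H, Orthonormal ℂ u ∧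
    ∀ k, c < (⟪u k, A (u k)⟫_ℂ).re := ⟨_, rfl⟩
  have hp0 : p 0 := by
    rw [hp]
    refine ⟨Fin.elim0, ⟨fun k => k.elim0, fun k => k.elim0⟩, fun k => k.elim0⟩
  obtain ⟨B, hB⟩ := exists_nat_gt (n1 A / c)
  have hbd : ∀ n, p n → n ≤ B := by
    intro n hn
    rw [hp] at hn
    obtain ⟨u, hu, hk⟩ := hn
    have h1 := card_le hA hu fun k => (hk k).le
    have h2 : (n : ℝ) ≤ n1 A / c := by rwa [le_div_iff₀ hc]
    have h3 : (n : ℝ) < B := lt_of_le_of_lt h2 hB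
    exact_mod_cast h3.le
  have hspec := Nat.findGreatest_spec (P := p) (Nat.zero_le B) hp0
  obtain ⟨n, hn⟩ : ∃ n, n = Nat.findGreatest p B := ⟨_, rfl⟩
  rw [← hn] at hspec
  have hmax : ¬ p (n + 1) := by
    intro h
    have := Nat.le_findGreatest (hbd _ h) h
    omega
  rw [hp] at hspec hmax
  obtain ⟨u, hu, hk⟩ := hspec
  refine ⟨n, u, hu, card_le hA hu fun k => (hk k).le, ?_⟩
  intro y hy
  by_contra hlt
  rw [not_le] at hlt
  apply hmax
  have hy0 : y ≠ 0 := by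
    rintro rfl
    simp at hlt
  have hny : 0 < ‖y‖ := norm_pos_iff.2 hy0
  obtain ⟨z, hz⟩ : ∃ z : H, z = ((‖y‖⁻¹ : ℝ) : ℂ) • y := ⟨_, rfl⟩
  have hz1 : ‖z‖ = 1 := by
    rw [hz, norm_smul, Complex.norm_real, norm_inv, norm_norm]
    exact inv_mul_cancel₀ hny.ne'
  have huz : ∀ k, ⟪u k, z⟫_ℂ = 0 := by
    intro k
    rw [hz, inner_smul_right, hy k, mul_zero]
  have hAz : c < (⟪z, A z⟫_ℂ).re := by
    rw [hz, map_smul, inner_smul_left, inner_smul_right, Complex.conj_ofReal, ← mul_assoc,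
      ← Complex.ofReal_mul, Complex.re_ofReal_mul]
    have h1 : c * ‖y‖ ^ 2 * (‖y‖⁻¹ * ‖y‖⁻¹) = c := by field_simp
    have h2 : 0 < ‖y‖⁻¹ * ‖y‖⁻¹ := by positivity
    nlinarith
  refine ⟨Fin.snoc u z, ⟨?_, ?_⟩, ?_⟩
  · intro k
    refine Fin.lastCases ?_ (fun k => ?_) k
    · rw [Fin.snoc_last]
      exact hz1
    · rw [Fin.snoc_castSucc]
      exact hu.1 k
  · intro k k'
    refine Fin.lastCases ?_ (fun k => ?_) k
    · refine Fin.lastCases ?_ (fun k' => ?_) k'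
      · intro h
        exact absurd rfl h
      · intro _
        rw [Fin.snoc_last, Fin.snoc_castSucc]
        exact inner_eq_zero_symm.1 (huz k')
    · refine Fin.lastCases ?_ (fun k' => ?_) k'
      · intro _
        rw [Fin.snoc_last, Fin.snoc_castSucc]
        exact huz k
      · intro h
        rw [Fin.snoc_castSucc, Fin.snoc_castSucc]
        refine hu.2 ?_
        rintro rfl
        exact h rfl
  · intro k
    refine Fin.lastCases ?_ (fun k => ?_) k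
    · rw [Fin.snoc_last]
      exact hAz
    · rw [Fin.snoc_castSucc]
      exact hk k

end Pool.Q2
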