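import Pool.Agent.Work.MP_8c7e5b_q2.Interface

/-!
# MP_8c7e5b_an, Q2: the block ISO
-/

open MeasureTheory Complex Filter Topology
open scoped ComplexOrder InnerProductSpace ComplexConjugate BoundedContinuousFunction

set_option autoImplicit false
set_option linter.unusedSectionVars false

universe v

namespace Pool.Q2

open Pool.Bes

namespace ISOAux

section one

variable {H : Type*} [NormedAddCommGroup H] [InnerProductSpace ℂ H] [CompleteSpace H]

/-- the square root and its inverse -/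
theorem exists_sqrt_inv (G : H →L[ℂ] H) (hG : (((1 / 2 : ℝ)) : ℂ) • (1 : H →L[ℂ] H) ≤ G) :
    ∃ S R T : H →L[ℂ] H, (((1 / 2 : ℝ)) : ℂ) • (1 : H →L[ℂ] H) ≤ S ∧ S * S = G ∧ S * R = 1 ∧
      R * S = 1 ∧ ‖R‖ ≤ 2 ∧ IsSelfAdjoint S ∧ IsSelfAdjoint R ∧ (S + 1) * T = 1 := by
  have h1 : algebraMap ℝ (H →L[ℂ] H) (1 / 2) ≤ G := by
    have : algebraMap ℝ (H →L[ℂ] H) (1 / 2) = (((1 / 2 : ℝ)) : ℂ) • (1 : H →L[ℂ] H) := by
      rw [Algebra.algebraMap_eq_smul_one]
      rfl
    rw [this]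
    exact hG
  have h0 : (0 : H →L[ℂ] H) ≤ algebraMap ℝ (H →L[ℂ] H) (1 / 2) := by
    rw [Algebra.algebraMap_eq_smul_one]
    exact smul_nonneg (by norm_num) zero_le_one
  have hpos : (0 : H →L[ℂ] H) ≤ G := h0.trans h1
  have hsa : IsSelfAdjoint G := IsSelfAdjoint.of_nonneg hpos
  have hsp : ∀ x ∈ spectrum ℝ G, (1 / 2 : ℝ) ≤ x :=
    (algebraMap_le_iff_le_spectrum (a := G)).1 h1
  have hsq : ∀ x ∈ spectrum ℝ G, (1 / 2 : ℝ) ≤ Real.sqrt x := by
    intro x hx
    refine Real.le_sqrt_of_sq_le ?_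
    have := hsp x hx
    norm_num
    linarith
  have hc1 : ContinuousOn (fun x : ℝ => Real.sqrt x) (spectrum ℝ G) :=
    Real.continuous_sqrt.continuousOn
  have hc2 : ContinuousOn (fun x : ℝ => (Real.sqrt x)⁻¹) (spectrum ℝ G) := by
    refine hc1.inv₀ fun x hx => ?_
    have := hsq x hx
    intro h
    rw [h] at this
    norm_num at this
  have hc3 : ContinuousOn (fun x : ℝ => (Real.sqrt x + 1)⁻¹) (spectrum ℝ G) := by
    refine (hc1.add continuousOn_const).inv₀ fun x hx => ?_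
    have := hsq x hx
    intro h
    have h' : Real.sqrt x + 1 = 0 := h
    linarith
  refine ⟨cfc (fun x : ℝ => Real.sqrt x) G, cfc (fun x : ℝ => (Real.sqrt x)⁻¹) G,
    cfc (fun x : ℝ => (Real.sqrt x + 1)⁻¹) G, ?_, ?_, ?_, ?_, ?_, ?_, ?_, ?_⟩
  · have : algebraMap ℝ (H →L[ℂ] H) (1 / 2) = (((1 / 2 : ℝ)) : ℂ) • (1 : H →L[ℂ] H) := by
      rw [Algebra.algebraMap_eq_smul_one]
      rfl
    rw [← this]
    exact (algebraMap_le_cfc_iff (fun x : ℝ => Real.sqrt x) (1 / 2) G hc1 hsa).2 hsq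
  · rw [← cfc_mul (fun x : ℝ => Real.sqrt x) (fun x : ℝ => Real.sqrt x) G hc1 hc1]
    conv_rhs => rw [← cfc_id ℝ G hsa]
    refine cfc_congr fun x hx => ?_
    have := hsp x hx
    exact Real.mul_self_sqrt (by linarith)
  · rw [← cfc_mul (fun x : ℝ => Real.sqrt x) (fun x : ℝ => (Real.sqrt x)⁻¹) G hc1 hc2,
      ← cfc_one ℝ G hsa]
    refine cfc_congr fun x hx => ?_
    have := hsq x hx
    exact mul_inv_cancel₀ (by linarith)
  · rw [← cfc_mul (fun x : ℝ => (Real.sqrt x)⁻¹) (fun x : ℝ => Real.sqrt x) G hc2 hc1,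
      ← cfc_one ℝ G hsa]
    refine cfc_congr fun x hx => ?_
    have := hsq x hx
    exact inv_mul_cancel₀ (by linarith)
  · refine norm_cfc_le (by norm_num) fun x hx => ?_
    have := hsq x hx
    rw [Real.norm_eq_abs, abs_of_nonneg (by positivity)]
    rw [inv_le_comm₀ (by linarith) (by norm_num)]
    linarith
  · exact cfc_predicate _ _
  · exact cfc_predicate _ _
  · have hS1 : cfc (fun x : ℝ => Real.sqrt x) G + 1 = cfc (fun x : ℝ => Real.sqrt x + 1) G := by
      rw [cfc_add_const (1 : ℝ) (fun x : ℝ => Real.sqrt x) G hc1 hsa, map_one]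
    rw [hS1, ← cfc_mul (fun x : ℝ => Real.sqrt x + 1) (fun x : ℝ => (Real.sqrt x + 1)⁻¹) G
      (hc1.add continuousOn_const) hc3, ← cfc_one ℝ G hsa]
    refine cfc_congr fun x hx => ?_
    have := hsq x hx
    exact mul_inv_cancel₀ (by linarith)

theorem star_dt (e : ℂ) (T : H →L[ℂ] H) : star (dt e T) = dt e T := by
  rw [dt, star_smul, star_add, star_smul, star_smul, star_star]
  have h1 : star (1 / 2 : ℂ) = 1 / 2 := by
    rw [Complex.star_def]
    apply Complex.ext
    · simp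
    · simp
  rw [h1, add_comm]
  congr 2
  rw [Complex.star_def, Complex.conj_conj]

end one

section two

variable {H : Type*} [NormedAddCommGroup H] [InnerProductSpace ℂ H] [CompleteSpace H]

/-- the map `x ↦ (⟪w k, x⟫)_k` -/
noncomputable def J {r : ℕ} (w : Fin r → H) : H →L[ℂ] Ef r :=
  ((PiLp.continuousLinearEquiv 2 ℂ (fun _ : Fin r => ℂ)).symm : (Fin r → ℂ) →L[ℂ] Ef r) ∘L
    ContinuousLinearMap.pi (fun k => innerSL ℂ (w k))

theorem J_apply {r : ℕ} (w : Fin r → H) (x : H) (k : Fin r) : J w x k = ⟪w k, x⟫_ℂ := rfl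

theorem norm_sq_J {r : ℕ} (w : Fin r → H) (x : H) : ‖J w x‖ ^ 2 = ∑ k, ‖⟪w k, x⟫_ℂ‖ ^ 2 := by
  rw [EuclideanSpace.norm_sq_eq]
  rfl

theorem norm_J_le {r : ℕ} (w : Fin r → H) (h : ∀ x : H, ∑ k, ‖⟪w k, x⟫_ℂ‖ ^ 2 ≤ ‖x‖ ^ 2) :
    ‖J w‖ ≤ 1 := by
  refine ContinuousLinearMap.opNorm_le_bound _ zero_le_one fun x => ?_
  rw [one_mul]
  have h1 := h x
  rw [← norm_sq_J] at h1
  exact le_of_sq_le_sq h1 (norm_nonneg _)

end two

/-- the adjoint of a diagonal operator -/
theorem star_diag {r : ℕ} (B : Ef r →L[ℂ] Ef r) (c : Fin r → ℂ)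
    (hB : ∀ (x : Ef r) (k : Fin r), B x k = c k * x k) (x : Ef r) (k : Fin r) :
    (star B) x k = conj (c k) * x k := by
  have h1 : B (EuclideanSpace.single k (1 : ℂ)) = c k • EuclideanSpace.single k (1 : ℂ) := by
    ext l
    rw [hB, PiLp.smul_apply, smul_eq_mul]
    by_cases hl : l = k
    · rw [hl]
    · rw [PiLp.single_apply, if_neg hl, mul_zero, mul_zero]
  have h2 : (star B) x k = ⟪EuclideanSpace.single k (1 : ℂ), (star B) x⟫_ℂ := by
    rw [EuclideanSpace.inner_single_left, map_one, one_mul]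
  rw [h2, ContinuousLinearMap.star_eq_adjoint, ContinuousLinearMap.adjoint_inner_right, h1,
    inner_smul_left, EuclideanSpace.inner_single_left, map_one, one_mul]

theorem dt_diag {r : ℕ} (B : Ef r →L[ℂ] Ef r) (c : Fin r → ℂ)
    (hB : ∀ (x : Ef r) (k : Fin r), B x k = c k * x k) (e : ℂ) (x : Ef r) (k : Fin r) :
    (dt e B) x k = ((ip e (c k) : ℝ) : ℂ) * x k := by
  have h1 : (dt e B) x k = (1 / 2 : ℂ) * (conj e * B x k + e * (star B) x k) := rfl
  rw [h1, hB, star_diag B c hB]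
  have h2 : ((ip e (c k) : ℝ) : ℂ) = (1 / 2 : ℂ) * (conj e * c k + e * conj (c k)) := by
    apply Complex.ext
    · simp [ip]
      ring
    · simp [ip]
      ring
  rw [h2]
  ring

theorem norm_iso_le {G L : Type*} [NormedAddCommGroup G] [InnerProductSpace ℂ G]
    [CompleteSpace G] [NormedAddCommGroup L] [InnerProductSpace ℂ L] [CompleteSpace L]
    (i : G →L[ℂ] L) (hi : ∀ x, (ContinuousLinearMap.adjoint i) (i x) = x) : ‖i‖ ≤ 1 := by
  refine ContinuousLinearMap.opNorm_le_bound _ zero_le_one fun x => ?_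
  rw [one_mul]
  have h1 : ‖i x‖ ^ 2 = ‖x‖ ^ 2 := by
    have h2 : ⟪i x, i x⟫_ℂ = ⟪x, x⟫_ℂ := by
      rw [← ContinuousLinearMap.adjoint_inner_right, hi]
    rw [inner_self_eq_norm_sq_to_K, inner_self_eq_norm_sq_to_K] at h2
    exact_mod_cast h2
  exact le_of_sq_le_sq h1.le (norm_nonneg _)

section three

variable {H : Type v} [NormedAddCommGroup H] [InnerProductSpace ℂ H] [CompleteSpace H]

/-- the commutator of `Z` with the inverse of the square root -/
theorem comm_R (sSYL : Stmt_SYL.{v})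
    (sT2 : ∀ (r : ℕ) (K : Type v) [NormedAddCommGroup K] [InnerProductSpace ℂ K] [CompleteSpace K]
      (A : Ef r →L[ℂ] K) (B : K →L[ℂ] Ef r), IsT (A ∘L B) ∧ n1 (A ∘L B) ≤ ‖A‖ * ‖B‖ * r ∧
        trO (A ∘L B) = LinearMap.trace ℂ (Ef r) (B ∘L A).toLinearMap)
    (C₀ h : ℝ) (hC₀ : 0 ≤ C₀) (hh : 0 ≤ h) (r : ℕ) (V R S G Z : H →L[ℂ] H) (P D : H →L[ℂ] Ef r)
    (ZB : Ef r →L[ℂ] Ef r) (hZ : star Z = Z) (hZB : star ZB = ZB) (hD : D = ZB ∘L P - P ∘L Z)
    (hP : ‖P‖ ≤ 1) (hDn : ‖D‖ ≤ h)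
    (hG : G = star V * V + (C₀ : ℂ) • ((ContinuousLinearMap.adjoint P) ∘L P))
    (hSS : S * S = G) (hSR : S * R = 1) (hRS : R * S = 1) (hR : ‖R‖ ≤ 2)
    (hS : (((1 / 2 : ℝ)) : ℂ) • (1 : H →L[ℂ] H) ≤ S) (hV : ‖V‖ ≤ 1) (hT : IsT (br Z V))
    (hTn : ‖br Z V‖ ≤ h) :
    IsT (br Z R) ∧ n1 (br Z R) ≤ 8 * (n1 (br Z V) + C₀ * (h * r)) ∧
      ‖br Z R‖ ≤ 8 * (1 + C₀) * h := by
  have hZ' : ContinuousLinearMap.adjoint Z = Z := by
    rw [← ContinuousLinearMap.star_eq_adjoint, hZ]
  have hZB' : ContinuousLinearMap.adjoint ZB = ZB := by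
    rw [← ContinuousLinearMap.star_eq_adjoint, hZB]
  have hDa : ContinuousLinearMap.adjoint D = (ContinuousLinearMap.adjoint P) ∘L ZB -
      Z ∘L (ContinuousLinearMap.adjoint P) := by
    rw [hD, map_sub, ContinuousLinearMap.adjoint_comp, ContinuousLinearMap.adjoint_comp, hZ', hZB']
  have hVs : br Z (star V) = -star (br Z V) := by
    rw [br, br, star_sub, star_mul, star_mul, hZ]
    abel
  have hGc : br Z G = (-(star (br Z V)) * V + star V * br Z V) +
      (C₀ : ℂ) • ((ContinuousLinearMap.adjoint P) ∘L D - (ContinuousLinearMap.adjoint D) ∘L P) := by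
    rw [← hVs, hDa, hD, hG]
    refine ContinuousLinearMap.ext fun x => ?_
    simp only [br, mul_apply_eq_comp, _root_.add_apply, _root_.sub_apply,
      _root_.smul_apply, ContinuousLinearMap.comp_apply, map_add, map_sub, map_smul, smul_sub]
    abel
  obtain ⟨a1, a2, -⟩ := sT2 r H (ContinuousLinearMap.adjoint P) D
  obtain ⟨b1, b2, -⟩ := sT2 r H (ContinuousLinearMap.adjoint D) P
  rw [LinearIsometryEquiv.norm_map] at a2 b2
  have hr : (0 : ℝ) ≤ r := Nat.cast_nonneg r
  have a3 : n1 ((ContinuousLinearMap.adjoint P) ∘L D) ≤ h * r := by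
    refine a2.trans ?_
    have : ‖P‖ * ‖D‖ ≤ 1 * h := mul_le_mul hP hDn (norm_nonneg _) zero_le_one
    rw [one_mul] at this
    exact mul_le_mul_of_nonneg_right this hr
  have b3 : n1 ((ContinuousLinearMap.adjoint D) ∘L P) ≤ h * r := by
    refine b2.trans ?_
    have : ‖D‖ * ‖P‖ ≤ h * 1 := mul_le_mul hDn hP (norm_nonneg _) hh
    rw [mul_one] at this
    exact mul_le_mul_of_nonneg_right this hr
  have c1 : IsT (-(star (br Z V)) * V) := hT.star.neg.mul_right V
  have c2 : IsT (star V * br Z V) := hT.mul_left (star V)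
  have c3 : n1 (-(star (br Z V)) * V) ≤ n1 (br Z V) := by
    refine (n1_mul_right_le V hT.star.neg).trans ?_
    rw [n1_neg hT.star, n1_star hT]
    have := mul_le_mul_of_nonneg_right hV (n1_nonneg (br Z V))
    linarith
  have c4 : n1 (star V * br Z V) ≤ n1 (br Z V) := by
    refine (n1_mul_left_le (star V) hT).trans ?_
    rw [norm_star]
    have := mul_le_mul_of_nonneg_right hV (n1_nonneg (br Z V))
    linarith
  have hC : ‖(C₀ : ℂ)‖ = C₀ := by
    rw [Complex.norm_real, Real.norm_of_nonneg hC₀]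
  have d1 : IsT (br Z G) := by
    rw [hGc]
    exact (c1.add c2).add ((a1.sub b1).smul _)
  have d2 : n1 (br Z G) ≤ 2 * n1 (br Z V) + 2 * (C₀ * (h * r)) := by
    rw [hGc]
    refine (n1_add_le (c1.add c2) ((a1.sub b1).smul _)).trans ?_
    have e1 := n1_add_le c1 c2
    have e2 := n1_sub_le a1 b1
    rw [n1_smul _ (a1.sub b1), hC]
    have e3 : C₀ * n1 ((ContinuousLinearMap.adjoint P) ∘L D - (ContinuousLinearMap.adjoint D) ∘L P) ≤
        C₀ * (h * r + h * r) := mul_le_mul_of_nonneg_left (by linarith) hC₀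
    linarith
  have d3 : ‖br Z G‖ ≤ 2 * (1 + C₀) * h := by
    rw [hGc]
    refine (norm_add_le _ _).trans ?_
    have e1 := norm_add_le (-(star (br Z V)) * V) (star V * br Z V)
    have e2 : ‖-(star (br Z V)) * V‖ ≤ h * 1 := by
      refine (norm_mul_le _ _).trans ?_
      rw [norm_neg, norm_star]
      exact mul_le_mul hTn hV (norm_nonneg _) hh
    have e3 : ‖star V * br Z V‖ ≤ 1 * h := by
      refine (norm_mul_le _ _).trans ?_
      rw [norm_star]
      exact mul_le_mul hV hTn (norm_nonneg _) zero_le_one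
    have e4 : ‖(C₀ : ℂ) • ((ContinuousLinearMap.adjoint P) ∘L D -
        (ContinuousLinearMap.adjoint D) ∘L P)‖ ≤ C₀ * (1 * h + h * 1) := by
      rw [norm_smul, hC]
      refine mul_le_mul_of_nonneg_left ?_ hC₀
      refine (norm_sub_le _ _).trans (add_le_add ?_ ?_)
      · refine (ContinuousLinearMap.opNorm_comp_le _ _).trans ?_
        rw [LinearIsometryEquiv.norm_map]
        exact mul_le_mul hP hDn (norm_nonneg _) zero_le_one
      · refine (ContinuousLinearMap.opNorm_comp_le _ _).trans ?_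
        rw [LinearIsometryEquiv.norm_map]
        exact mul_le_mul hDn hP (norm_nonneg _) hh
    nlinarith
  have hSyl : S * br Z S + br Z S * S = br Z G := by
    rw [br, br, ← hSS]
    noncomm_ring
  obtain ⟨f1, f2⟩ := sSYL H S (br Z S) (1 / 2) (by norm_num) hS
  rw [hSyl] at f1 f2
  obtain ⟨f3, f4⟩ := f2 d1
  have hRc : br Z R = -(R * (br Z S * R)) := by
    have g1 : R * (br Z S * R) = R * Z * (S * R) - (R * S) * Z * R := by
      rw [br]
      noncomm_ring
    rw [g1, hSR, hRS, br]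
    noncomm_ring
  have g2 : IsT (br Z S * R) := f3.mul_right R
  have g3 : IsT (R * (br Z S * R)) := g2.mul_left R
  refine ⟨by rw [hRc]; exact g3.neg, ?_, ?_⟩
  · rw [hRc, n1_neg g3]
    have g4 := n1_mul_left_le R g2
    have g5 := n1_mul_right_le R f3
    have g6 : n1 (br Z S) ≤ 2 * n1 (br Z V) + 2 * (C₀ * (h * r)) := by
      refine f4.trans ?_
      norm_num
      exact d2
    have g7 : ‖R‖ * n1 (br Z S) ≤ 2 * n1 (br Z S) := mul_le_mul_of_nonneg_right hR (n1_nonneg _)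
    have g8 : ‖R‖ * n1 (br Z S * R) ≤ 2 * n1 (br Z S * R) :=
      mul_le_mul_of_nonneg_right hR (n1_nonneg _)
    linarith
  · rw [hRc, norm_neg]
    have g4 : ‖br Z S‖ ≤ 2 * (1 + C₀) * h := by
      refine f1.trans ?_
      norm_num
      exact d3
    have g5 : ‖br Z S * R‖ ≤ ‖br Z S‖ * 2 :=
      (norm_mul_le _ _).trans (mul_le_mul_of_nonneg_left hR (norm_nonneg _))
    have g6 : ‖R * (br Z S * R)‖ ≤ 2 * ‖br Z S * R‖ :=
      (norm_mul_le _ _).trans (mul_le_mul_of_nonneg_right hR (norm_nonneg _))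
    linarith

end three

theorem adjoint_cor {G L : Type*} [NormedAddCommGroup G] [InnerProductSpace ℂ G]
    [CompleteSpace G] [NormedAddCommGroup L] [InnerProductSpace ℂ L] [CompleteSpace L]
    (i : G →L[ℂ] L) (T : G →L[ℂ] G) : star (cor i T) = cor i (star T) := by
  rw [cor, cor, ContinuousLinearMap.star_eq_adjoint, ContinuousLinearMap.adjoint_comp,
    ContinuousLinearMap.adjoint_comp, ContinuousLinearMap.adjoint_adjoint,
    ContinuousLinearMap.star_eq_adjoint]
  rfl

theorem dt_cor {G L : Type*} [NormedAddCommGroup G] [InnerProductSpace ℂ G]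
    [CompleteSpace G] [NormedAddCommGroup L] [InnerProductSpace ℂ L] [CompleteSpace L]
    (i : G →L[ℂ] L) (e : ℂ) (T : G →L[ℂ] G) : dt e (cor i T) = cor i (dt e T) := by
  rw [dt, dt, adjoint_cor]
  refine ContinuousLinearMap.ext fun x => ?_
  simp only [cor, ContinuousLinearMap.comp_apply, _root_.smul_apply, _root_.add_apply, map_smul,
    map_add]

theorem dt_add {L : Type*} [NormedAddCommGroup L] [InnerProductSpace ℂ L] [CompleteSpace L]
    (e : ℂ) (S T : L →L[ℂ] L) : dt e (S + T) = dt e S + dt e T := by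
  rw [dt, dt, dt, star_add, ← smul_add]
  congr 1
  rw [smul_add, smul_add]
  abel

end ISOAux

open ISOAux in
theorem blk_ISO (sSYL : Stmt_SYL.{v}) (sTRN : Stmt_TRN.{v}) (_sCMM : Stmt_CMM.{v}) :
    Stmt_ISO.{v} := by
  intro C₀ hC₀
  refine ⟨40 * C₀ ^ 2, by nlinarith, ?_⟩
  intro H _ _ _ K _ _ _ N Ω V r i j w c B h hN hΩ hDS hV hVΩ hh hB hcom hw hwe hq
  obtain ⟨sT1, sT2, -⟩ := sTRN
  have hi : ∀ x : H, (ContinuousLinearMap.adjoint i) (i x) = x := fun x =>
    congrArg (fun T : H →L[ℂ] H => T x) hDS.hi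
  have hj : ∀ x : Ef r, (ContinuousLinearMap.adjoint j) (j x) = x := fun x =>
    congrArg (fun T : Ef r →L[ℂ] Ef r => T x) hDS.hj
  have hij : ∀ x : Ef r, (ContinuousLinearMap.adjoint i) (j x) = 0 := fun x =>
    congrArg (fun T : Ef r →L[ℂ] H => T x) hDS.hij
  have hji' : (ContinuousLinearMap.adjoint j) ∘L i = 0 := by
    have := congrArg ContinuousLinearMap.adjoint hDS.hij
    rwa [ContinuousLinearMap.adjoint_comp, ContinuousLinearMap.adjoint_adjoint, map_zero] at this
  have hji : ∀ x : H, (ContinuousLinearMap.adjoint j) (i x) = 0 := fun x =>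
    congrArg (fun T : H →L[ℂ] Ef r => T x) hji'
  have ni : ‖i‖ ≤ 1 := norm_iso_le i hi
  have nj : ‖j‖ ≤ 1 := norm_iso_le j hj
  have nia : ‖ContinuousLinearMap.adjoint i‖ ≤ 1 := by
    rw [LinearIsometryEquiv.norm_map]
    exact ni
  have hC0' : 0 ≤ C₀ := by linarith
  have hr : (0 : ℝ) ≤ r := Nat.cast_nonneg r
  set P : H →L[ℂ] Ef r := J w with hP
  have nP : ‖P‖ ≤ 1 := norm_J_le w hw
  set G : H →L[ℂ] H := star V * V + (C₀ : ℂ) • ((ContinuousLinearMap.adjoint P) ∘L P) with hG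
  have hGx : ∀ x : H, G x = star V (V x) + (C₀ : ℂ) • (ContinuousLinearMap.adjoint P) (P x) :=
    fun x => rfl
  have hGpos : (((1 / 2 : ℝ)) : ℂ) • (1 : H →L[ℂ] H) ≤ G := by
    rw [ContinuousLinearMap.le_def, ContinuousLinearMap.isPositive_iff_complex]
    intro x
    have h1 : ⟪(G - (((1 / 2 : ℝ)) : ℂ) • (1 : H →L[ℂ] H)) x, x⟫_ℂ =
        ((‖V x‖ ^ 2 + C₀ * ‖P x‖ ^ 2 - 1 / 2 * ‖x‖ ^ 2 : ℝ) : ℂ) := by
      have h2 : (G - (((1 / 2 : ℝ)) : ℂ) • (1 : H →L[ℂ] H)) x =
          star V (V x) + (C₀ : ℂ) • (ContinuousLinearMap.adjoint P) (P x) -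
            (((1 / 2 : ℝ)) : ℂ) • x := rfl
      rw [h2, inner_sub_left, inner_add_left, inner_smul_left, inner_smul_left,
        ContinuousLinearMap.star_eq_adjoint, ContinuousLinearMap.adjoint_inner_left,
        ContinuousLinearMap.adjoint_inner_left, inner_self_eq_norm_sq_to_K,
        inner_self_eq_norm_sq_to_K, inner_self_eq_norm_sq_to_K, Complex.conj_ofReal,
        Complex.conj_ofReal]
      push_cast
      rfl
    rw [h1, RCLike.re_eq_complex_re, Complex.ofReal_re]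
    refine ⟨rfl, ?_⟩
    have h3 := hq x
    rw [← norm_sq_J] at h3
    linarith
  obtain ⟨S, R, T, hS, hSS, hSR, hRS, hR, hSsa, hRsa, hT1⟩ := exists_sqrt_inv G hGpos
  have hRadj : ContinuousLinearMap.adjoint R = R := by
    rw [← ContinuousLinearMap.star_eq_adjoint]
    exact hRsa
  -- `R - 1` is trace class
  have hVV : IsT (star V * V - 1) := by
    have h1 : star V * V - 1 = star Ω * (V - Ω) + star (V - Ω) * V := by
      rw [star_sub, ← hΩ.1]
      noncomm_ring
    rw [h1]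
    exact (hVΩ.mul_left _).add (hVΩ.star.mul_right _)
  have hG1 : IsT (G - 1) := by
    have h1 : G - 1 = (star V * V - 1) + (C₀ : ℂ) • ((ContinuousLinearMap.adjoint P) ∘L P) := by
      rw [hG]
      abel
    rw [h1]
    exact hVV.add ((sT2 r H (ContinuousLinearMap.adjoint P) P).1.smul _)
  have hS1 : IsT (S - 1) := by
    have h1 : S - 1 = (G - 1) * T := by
      have h2 : (S - 1) * ((S + 1) * T) = (G - 1) * T := by
        rw [← hSS]
        noncomm_ring
      rw [← h2, hT1, mul_one]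
    rw [h1]
    exact hG1.mul_right _
  have hR1 : IsT (R - 1) := by
    have h1 : R - 1 = -(R * (S - 1)) := by
      rw [mul_sub, hRS, mul_one]
      abel
    rw [h1]
    exact (hS1.mul_left _).neg
  set q : ℂ := ((Real.sqrt C₀ : ℝ) : ℂ) with hqd
  have hqq : q * q = (C₀ : ℂ) := by
    rw [hqd, ← Complex.ofReal_mul, Real.mul_self_sqrt hC0']
  have hqs : star q = q := Complex.conj_ofReal _
  have nq : ‖q‖ ≤ C₀ := by
    rw [hqd, Complex.norm_real, Real.norm_of_nonneg (Real.sqrt_nonneg _)]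
    rw [Real.sqrt_le_left hC0']
    nlinarith
  set X : K →L[ℂ] K := cor i (V * R) with hX
  set Y : K →L[ℂ] K := j ∘L (P ∘L R) ∘L (ContinuousLinearMap.adjoint i) with hY
  have hYs : star Y = i ∘L (R ∘L (ContinuousLinearMap.adjoint P)) ∘L
      (ContinuousLinearMap.adjoint j) := by
    rw [hY, ContinuousLinearMap.star_eq_adjoint, ContinuousLinearMap.adjoint_comp,
      ContinuousLinearMap.adjoint_comp, ContinuousLinearMap.adjoint_comp,
      ContinuousLinearMap.adjoint_adjoint, hRadj]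
    rfl
  have hXs : star X = cor i (R * star V) := by
    rw [hX, adjoint_cor, star_mul, ContinuousLinearMap.star_eq_adjoint R, hRadj]
  have hRGR : ∀ x : H, R (G (R x)) = x := by
    intro x
    have h1 : R * (G * R) = 1 := by
      rw [← hSS, mul_assoc, hSR, mul_one, hRS]
    exact congrArg (fun T : H →L[ℂ] H => T x) h1
  refine ⟨X + q • Y, ?_, ?_, ?_⟩
  · rw [star_add, star_smul, hqs, hYs, hXs]
    refine ContinuousLinearMap.ext fun x => ?_
    have h1 : (cor i (R * star V) + q • (i ∘L (R ∘L (ContinuousLinearMap.adjoint P)) ∘L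
        (ContinuousLinearMap.adjoint j))) ((X + q • Y) x) =
        i (R (star V (V (R ((ContinuousLinearMap.adjoint i) x))))) +
        (q * q) • i (R ((ContinuousLinearMap.adjoint P)
          (P (R ((ContinuousLinearMap.adjoint i) x))))) := by
      simp only [hX, hY, cor, ContinuousLinearMap.comp_apply, mul_apply_eq_comp,
        _root_.add_apply, _root_.smul_apply, map_add, map_smul, hi, hj, hij, hji, map_zero,
        smul_zero, add_zero, zero_add, smul_smul]
    have h2 : (i ∘L (ContinuousLinearMap.adjoint i)) x = i ((ContinuousLinearMap.adjoint i) x) := rfl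
    rw [mul_apply_eq_comp, h1, h2, hqq, ← map_smul, ← map_smul, ← map_add, ← map_add,
      ← hGx, hRGR]
  · have h1 : X + q • Y - cor i Ω = i ∘L (V * R - Ω) ∘L (ContinuousLinearMap.adjoint i) +
        q • (j ∘L ((P ∘L R) ∘L (ContinuousLinearMap.adjoint i))) := by
      rw [hX, hY, cor, cor]
      refine ContinuousLinearMap.ext fun x => ?_
      simp only [ContinuousLinearMap.comp_apply, _root_.add_apply, _root_.sub_apply,
        _root_.smul_apply, map_sub]
      abel
    have h2 : IsT (V * R - Ω) := by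
      have h3 : V * R - Ω = (V - Ω) * R + Ω * (R - 1) := by noncomm_ring
      rw [h3]
      exact (hVΩ.mul_right _).add (hR1.mul_left _)
    rw [h1]
    exact (sT1 H K i (ContinuousLinearMap.adjoint i) _ h2).1.add
      ((sT2 r K j ((P ∘L R) ∘L (ContinuousLinearMap.adjoint i))).1.smul _)
  · intro e he
    obtain ⟨hT, hTn⟩ := hcom e he
    set Z : H →L[ℂ] H := dt e N with hZ
    set ZB : Ef r →L[ℂ] Ef r := dt e B with hZB
    set D : H →L[ℂ] Ef r := ZB ∘L P - P ∘L Z with hD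
    have hDx : ∀ (x : H) (k : Fin r), (D x) k =
        -⟪Z (w k) - ((ip e (c k) : ℝ) : ℂ) • w k, x⟫_ℂ := by
      intro x k
      have h1 : (D x) k = (ZB (P x)) k - (P (Z x)) k := rfl
      rw [h1, hZB, dt_diag B c hB, hP, J_apply, J_apply, inner_sub_left, inner_smul_left,
        Complex.conj_ofReal]
      have h2 : ⟪Z (w k), x⟫_ℂ = ⟪w k, Z x⟫_ℂ := by
        rw [← ContinuousLinearMap.adjoint_inner_right, ← ContinuousLinearMap.star_eq_adjoint,
          hZ, star_dt]
      rw [h2]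
      ring
    have nD : ‖D‖ ≤ h := by
      refine ContinuousLinearMap.opNorm_le_bound _ hh.le fun x => ?_
      refine le_of_sq_le_sq ?_ (by positivity)
      rw [EuclideanSpace.norm_sq_eq, mul_pow]
      refine le_trans (le_of_eq ?_) (hwe e he x)
      refine Finset.sum_congr rfl fun k _ => ?_
      rw [hDx, norm_neg]
    obtain ⟨k1, k2, k3⟩ := comm_R sSYL sT2 C₀ h hC0' hh.le r V R S G Z P D ZB (star_dt e N)
      (star_dt e B) hD nP nD hG hSS hSR hRS hR hS hV hT hTn
    have hkey : br (dt e (cor i N + cor j B)) (X + q • Y) =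
        i ∘L (br Z V * R + V * br Z R) ∘L (ContinuousLinearMap.adjoint i) +
        q • (j ∘L ((D ∘L R) ∘L (ContinuousLinearMap.adjoint i)) +
          (j ∘L P) ∘L (br Z R) ∘L (ContinuousLinearMap.adjoint i)) := by
      rw [dt_add, dt_cor, dt_cor, hX, hY, ← hZ, ← hZB]
      refine ContinuousLinearMap.ext fun x => ?_
      simp only [br, cor, hD, ContinuousLinearMap.comp_apply, mul_apply_eq_comp,
        _root_.add_apply, _root_.sub_apply, _root_.smul_apply, map_add, map_sub, map_smul, hi, hj,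
        hij, hji, map_zero, smul_zero, add_zero, zero_add, smul_sub, smul_add]
      abel
    have t1 : IsT (br Z V * R + V * br Z R) := (hT.mul_right _).add (k1.mul_left _)
    obtain ⟨t2, t3, -⟩ := sT1 H K i (ContinuousLinearMap.adjoint i) _ t1
    obtain ⟨t4, t5, -⟩ := sT2 r K j ((D ∘L R) ∘L (ContinuousLinearMap.adjoint i))
    obtain ⟨t6, t7, -⟩ := sT1 H K (j ∘L P) (ContinuousLinearMap.adjoint i) _ k1
    have nDR : ‖(D ∘L R) ∘L (ContinuousLinearMap.adjoint i)‖ ≤ 2 * h := by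
      refine (ContinuousLinearMap.opNorm_comp_le _ _).trans ?_
      have h1 : ‖D ∘L R‖ ≤ h * 2 := (ContinuousLinearMap.opNorm_comp_le _ _).trans
        (mul_le_mul nD hR (norm_nonneg _) hh.le)
      calc ‖D ∘L R‖ * ‖ContinuousLinearMap.adjoint i‖ ≤ (h * 2) * 1 :=
            mul_le_mul h1 nia (norm_nonneg _) (by positivity)
        _ = 2 * h := by ring
    have njP : ‖j ∘L P‖ ≤ 1 := by
      refine (ContinuousLinearMap.opNorm_comp_le _ _).trans ?_
      calc ‖j‖ * ‖P‖ ≤ 1 * 1 := mul_le_mul nj nP (norm_nonneg _) zero_le_one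
        _ = 1 := one_mul 1
    have n0 : 0 ≤ n1 (br Z V) := n1_nonneg _
    have n0' : 0 ≤ n1 (br Z R) := n1_nonneg _
    have u1 : n1 (br Z V * R + V * br Z R) ≤ 2 * n1 (br Z V) + n1 (br Z R) := by
      refine (n1_add_le (hT.mul_right _) (k1.mul_left _)).trans (add_le_add ?_ ?_)
      · exact (n1_mul_right_le R hT).trans (mul_le_mul_of_nonneg_right hR n0)
      · refine (n1_mul_left_le V k1).trans ?_
        have := mul_le_mul_of_nonneg_right hV n0'
        linarith
    have u2 : n1 (i ∘L (br Z V * R + V * br Z R) ∘L (ContinuousLinearMap.adjoint i)) ≤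
        2 * n1 (br Z V) + n1 (br Z R) := by
      refine t3.trans ?_
      have h1 : ‖i‖ * ‖ContinuousLinearMap.adjoint i‖ ≤ 1 * 1 :=
        mul_le_mul ni nia (norm_nonneg _) zero_le_one
      have h2 := mul_le_mul_of_nonneg_right h1 (n1_nonneg (br Z V * R + V * br Z R))
      linarith
    have u3 : n1 (j ∘L ((D ∘L R) ∘L (ContinuousLinearMap.adjoint i))) ≤ 2 * (h * r) := by
      refine t5.trans ?_
      have h1 : ‖j‖ * ‖(D ∘L R) ∘L (ContinuousLinearMap.adjoint i)‖ ≤ 1 * (2 * h) :=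
        mul_le_mul nj nDR (norm_nonneg _) zero_le_one
      have h2 := mul_le_mul_of_nonneg_right h1 hr
      linarith
    have u4 : n1 ((j ∘L P) ∘L (br Z R) ∘L (ContinuousLinearMap.adjoint i)) ≤ n1 (br Z R) := by
      refine t7.trans ?_
      have h1 : ‖j ∘L P‖ * ‖ContinuousLinearMap.adjoint i‖ ≤ 1 * 1 :=
        mul_le_mul njP nia (norm_nonneg _) zero_le_one
      have h2 := mul_le_mul_of_nonneg_right h1 n0'
      linarith
    rw [hkey]
    refine ⟨t2.add ((t4.add t6).smul _), ?_, ?_⟩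
    · refine (n1_add_le t2 ((t4.add t6).smul _)).trans ?_
      rw [n1_smul _ (t4.add t6)]
      have v1 := n1_add_le t4 t6
      have v2 : ‖q‖ * n1 (j ∘L ((D ∘L R) ∘L (ContinuousLinearMap.adjoint i)) +
          (j ∘L P) ∘L (br Z R) ∘L (ContinuousLinearMap.adjoint i)) ≤
          C₀ * (2 * (h * r) + n1 (br Z R)) :=
        mul_le_mul nq (by linarith) (n1_nonneg _) hC0'
      have v3 : 0 ≤ h * r := by positivity
      have v4 : n1 (br Z R) ≤ 8 * (n1 (br Z V) + C₀ * (h * r)) := k2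
      have v5 : C₀ * n1 (br Z R) ≤ C₀ * (8 * (n1 (br Z V) + C₀ * (h * r))) :=
        mul_le_mul_of_nonneg_left v4 hC0'
      have v6 : C₀ * n1 (br Z V) ≤ C₀ ^ 2 * n1 (br Z V) := by
        have : C₀ ≤ C₀ ^ 2 := by nlinarith
        exact mul_le_mul_of_nonneg_right this n0
      have v7 : n1 (br Z V) ≤ C₀ ^ 2 * n1 (br Z V) := by
        have : 1 ≤ C₀ ^ 2 := by nlinarith
        nlinarith
      have v8 : C₀ * (h * r) ≤ C₀ ^ 2 * (h * r) := by
        have : C₀ ≤ C₀ ^ 2 := by nlinarith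
        exact mul_le_mul_of_nonneg_right this v3
      have v9 : 0 ≤ C₀ ^ 2 * (h * r) := by positivity
      have v10 : 0 ≤ C₀ ^ 2 * n1 (br Z V) := by positivity
      calc _ ≤ (2 * n1 (br Z V) + n1 (br Z R)) + C₀ * (2 * (h * r) + n1 (br Z R)) := by linarith
        _ ≤ _ := by nlinarith
    · refine (norm_add_le _ _).trans ?_
      have v1 : ‖i ∘L (br Z V * R + V * br Z R) ∘L (ContinuousLinearMap.adjoint i)‖ ≤
          h * 2 + 1 * ‖br Z R‖ := by
        have a1 : ‖br Z V * R + V * br Z R‖ ≤ h * 2 + 1 * ‖br Z R‖ := by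
          refine (norm_add_le _ _).trans (add_le_add ?_ ?_)
          · exact (norm_mul_le _ _).trans (mul_le_mul hTn hR (norm_nonneg _) hh.le)
          · exact (norm_mul_le _ _).trans (mul_le_mul_of_nonneg_right hV (norm_nonneg _))
        have a2 : ‖(br Z V * R + V * br Z R) ∘L (ContinuousLinearMap.adjoint i)‖ ≤
            ‖br Z V * R + V * br Z R‖ * 1 := (ContinuousLinearMap.opNorm_comp_le _ _).trans
          (mul_le_mul_of_nonneg_left nia (norm_nonneg _))
        have a3 : ‖i ∘L (br Z V * R + V * br Z R) ∘L (ContinuousLinearMap.adjoint i)‖ ≤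
            1 * ‖(br Z V * R + V * br Z R) ∘L (ContinuousLinearMap.adjoint i)‖ :=
          (ContinuousLinearMap.opNorm_comp_le _ _).trans
            (mul_le_mul_of_nonneg_right ni (norm_nonneg _))
        linarith
      have v2 : ‖j ∘L ((D ∘L R) ∘L (ContinuousLinearMap.adjoint i))‖ ≤ 1 * (2 * h) :=
        (ContinuousLinearMap.opNorm_comp_le _ _).trans (mul_le_mul nj nDR (norm_nonneg _)
          zero_le_one)
      have v3 : ‖(j ∘L P) ∘L (br Z R) ∘L (ContinuousLinearMap.adjoint i)‖ ≤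
          1 * (‖br Z R‖ * 1) :=
        (ContinuousLinearMap.opNorm_comp_le _ _).trans (mul_le_mul njP
          ((ContinuousLinearMap.opNorm_comp_le _ _).trans
            (mul_le_mul_of_nonneg_left nia (norm_nonneg _))) (norm_nonneg _) zero_le_one)
      have v4 : ‖q • (j ∘L ((D ∘L R) ∘L (ContinuousLinearMap.adjoint i)) +
          (j ∘L P) ∘L (br Z R) ∘L (ContinuousLinearMap.adjoint i))‖ ≤
          C₀ * (2 * h + ‖br Z R‖) := by
        rw [norm_smul]
        refine mul_le_mul nq ((norm_add_le _ _).trans ?_) (norm_nonneg _) hC0'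
        linarith
      have v5 : C₀ * ‖br Z R‖ ≤ C₀ * (8 * (1 + C₀) * h) := mul_le_mul_of_nonneg_left k3 hC0'
      have v6 : C₀ * h ≤ C₀ ^ 2 * h := by
        have : C₀ ≤ C₀ ^ 2 := by nlinarith
        exact mul_le_mul_of_nonneg_right this hh.le
      have v7 : h ≤ C₀ ^ 2 * h := by
        have : 1 ≤ C₀ ^ 2 := by nlinarith
        nlinarith
      nlinarith

end Pool.Q2
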