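import Pool.Agent.Work.MP_8c7e5b_q2.Interface

/-!
# MP_8c7e5b_an, Q2: block KMA (the near-diagonal mass)
-/

open MeasureTheory Complex Filter Topology
open scoped ComplexOrder InnerProductSpace ComplexConjugate BoundedContinuousFunction

set_option autoImplicit false
set_option linter.unusedSectionVars false

universe v

namespace Pool.Q2

open Pool.Bes

namespace KMAAux

/-- the limit of an antitone nonnegative function along the positive reals -/
theorem tendsto_of_antitone (f : ℝ → ℝ) (h0 : ∀ t, 0 < t → 0 ≤ f t)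
    (ha : ∀ r t, 0 < r → r ≤ t → f t ≤ f r) :
    Tendsto f atTop (𝓝 (⨅ n : ℕ, f ((n : ℝ) + 1))) := by
  have hbdd : BddBelow (Set.range fun n : ℕ => f ((n : ℝ) + 1)) := by
    refine ⟨0, ?_⟩
    rintro _ ⟨n, rfl⟩
    exact h0 _ (by positivity)
  have hle : ∀ t, 0 < t → (⨅ n : ℕ, f ((n : ℝ) + 1)) ≤ f t := by
    intro t ht
    obtain ⟨n, hn⟩ := exists_nat_ge t
    exact (ciInf_le hbdd n).trans (ha t _ ht (by linarith))
  rw [Metric.tendsto_atTop]
  intro ε hε
  obtain ⟨n, hn⟩ := exists_lt_of_ciInf_lt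
    (show (⨅ n : ℕ, f ((n : ℝ) + 1)) < (⨅ n : ℕ, f ((n : ℝ) + 1)) + ε by linarith)
  refine ⟨(n : ℝ) + 1, fun t ht => ?_⟩
  have hn0 : (0 : ℝ) < (n : ℝ) + 1 := by positivity
  have ht0 : 0 < t := lt_of_lt_of_le hn0 ht
  have h1 := hle t ht0
  have h2 := ha _ t hn0 ht
  rw [Real.dist_eq, abs_of_nonneg (by linarith)]
  linarith

end KMAAux

open KMAAux

theorem blk_KMA (hPHA : Stmt_PHA.{v}) (_hCMM : Stmt_CMM.{v}) : Stmt_KMA.{v} := by
  intro H _ _ _ N hN
  obtain ⟨-, p2, p3, p4, -, p6, p7, p8, p9, -⟩ := hPHA H N hN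
  have hanti : ∀ K : H →L[ℂ] H, IsT K → ∀ r t : ℝ, 0 < r → r ≤ t →
      n1 (Ph N t K) ≤ n1 (Ph N r K) := by
    intro K hK r t hr hrt
    rcases hrt.eq_or_lt with h | h
    · rw [h]
    · have ht : 0 < t := hr.trans h
      have h1 : 0 < t ^ 2 - r ^ 2 := by nlinarith
      have h2 : 0 < Real.sqrt (t ^ 2 - r ^ 2) := Real.sqrt_pos.mpr h1
      have h3 := p7 (Real.sqrt (t ^ 2 - r ^ 2)) r K h2 hr
      rw [Real.sq_sqrt h1.le, sub_add_cancel, Real.sqrt_sq ht.le] at h3
      rw [← h3]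
      exact (p6 _ _ h2 (p6 r K hr hK).1).2.1
  have hlim : ∀ K : H →L[ℂ] H, IsT K →
      Tendsto (fun t : ℝ => n1 (Ph N t K)) atTop (𝓝 (km N K)) := by
    intro K hK
    have h := tendsto_of_antitone (fun t : ℝ => n1 (Ph N t K)) (fun t _ => n1_nonneg _)
      (fun r t hr hrt => hanti K hK r t hr hrt)
    exact h
  have k1 : ∀ K : H →L[ℂ] H, IsT K → 0 ≤ km N K ∧ km N K ≤ n1 K := by
    intro K hK
    refine ⟨ge_of_tendsto (hlim K hK) (Eventually.of_forall fun t => n1_nonneg _), ?_⟩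
    refine le_of_tendsto (hlim K hK) ?_
    filter_upwards [eventually_gt_atTop (0 : ℝ)] with t ht
    exact (p6 t K ht hK).2.1
  refine ⟨fun K hK => ⟨(k1 K hK).1, (k1 K hK).2, hlim K hK⟩, ?_, ?_, ?_, ?_, ?_⟩
  · intro K K' hK hK'
    refine le_of_tendsto_of_tendsto (hlim _ (hK.add hK')) ((hlim K hK).add (hlim K' hK')) ?_
    filter_upwards [eventually_gt_atTop (0 : ℝ)] with t ht
    rw [p2 t K K' ht]
    exact n1_add_le (p6 t K ht hK).1 (p6 t K' ht hK').1
  · intro a K hK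
    refine le_of_tendsto_of_tendsto (hlim _ (hK.smul a)) ((hlim K hK).const_mul ‖a‖) ?_
    filter_upwards [eventually_gt_atTop (0 : ℝ)] with t ht
    rw [p3 t a K ht, n1_smul a (p6 t K ht hK).1]
  · intro e K hK
    have hT : IsT (br (dt e N) K) := (hK.mul_left _).sub (hK.mul_right _)
    refine le_antisymm ?_ (k1 _ hT).1
    have h1 : Tendsto (fun t : ℝ => ‖e‖ * n1 K / t) atTop (𝓝 0) :=
      tendsto_const_nhds.div_atTop tendsto_id
    refine le_of_tendsto_of_tendsto (hlim _ hT) h1 ?_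
    filter_upwards [eventually_gt_atTop (0 : ℝ)] with t ht
    rw [← p4 t e K ht]
    exact (p6 t K ht hK).2.2 e
  · intro S K hK hS
    constructor
    · refine le_of_tendsto_of_tendsto (hlim _ (hK.mul_left S)) ((hlim K hK).const_mul ‖S‖) ?_
      filter_upwards [eventually_gt_atTop (0 : ℝ)] with t ht
      rw [(p8 t S K ht hS).1]
      exact n1_mul_left_le S (p6 t K ht hK).1
    · refine le_of_tendsto_of_tendsto (hlim _ (hK.mul_right S)) ((hlim K hK).const_mul ‖S‖) ?_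
      filter_upwards [eventually_gt_atTop (0 : ℝ)] with t ht
      rw [(p8 t S K ht hS).2]
      exact n1_mul_right_le S (p6 t K ht hK).1
  · intro K hK
    refine tendsto_nhds_unique ((hlim _ hK.star).congr' ?_) (hlim K hK)
    filter_upwards [eventually_gt_atTop (0 : ℝ)] with t ht
    rw [← p9 t K ht, n1_star (p6 t K ht hK).1]

end Pool.Q2
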