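import Pool.Agent.Work.MP_8c7e5b_q2.Interface

/-!
# MP_8c7e5b_an, Q2: block KMB (the seminorm `kp`)
-/

open MeasureTheory Complex Filter Topology
open scoped ComplexOrder InnerProductSpace ComplexConjugate BoundedContinuousFunction

set_option autoImplicit false
set_option linter.unusedSectionVars false

universe v

namespace Pool.Q2

open Pool.Bes

namespace KMBAux

variable {H : Type v} [NormedAddCommGroup H] [InnerProductSpace ℂ H] [CompleteSpace H]

theorem isT_br (Z : H →L[ℂ] H) {K : H →L[ℂ] H} (hK : IsT K) : IsT (br Z K) :=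
  (hK.mul_left Z).sub (hK.mul_right Z)

theorem br_add (Z x y : H →L[ℂ] H) : br Z (x + y) = br Z x + br Z y := by
  unfold br
  rw [mul_add, add_mul]
  abel

theorem br_sub (Z x y : H →L[ℂ] H) : br Z (x - y) = br Z x - br Z y := by
  unfold br
  rw [mul_sub, sub_mul]
  abel

theorem br_mul (Z x y : H →L[ℂ] H) : br Z (x * y) = br Z x * y + x * br Z y := by
  unfold br
  rw [sub_mul, mul_sub, mul_assoc, mul_assoc, mul_assoc]
  abel

end KMBAux

open KMBAux

theorem blk_KMB (hPHA : Stmt_PHA.{v}) (hPHB : Stmt_PHB.{v}) (hCMM : Stmt_CMM.{v})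
    (hKMA : Stmt_KMA.{v}) : Stmt_KMB.{v} := by
  intro H _ _ _ N hN
  obtain ⟨p1, -, -, p4, -, p6, -, -, -, -⟩ := hPHA H N hN
  obtain ⟨c1, -, -, -, -, -, c7, -, c9, -, c11, -, -, -⟩ := hCMM H N hN
  obtain ⟨k1, k2, k3, k4, k5, k6⟩ := hKMA H N hN
  have kneg : ∀ K : H →L[ℂ] H, IsT K → km N (-K) ≤ km N K := by
    intro K hK
    have h := k3 (-1) K hK
    simpa using h
  have ksub : ∀ K K' : H →L[ℂ] H, IsT K → IsT K' → km N (K - K') ≤ km N K + km N K' := by
    intro K K' hK hK'
    rw [sub_eq_add_neg]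
    have h1 := k2 K (-K') hK hK'.neg
    have h2 := kneg K' hK'
    linarith
  have s1 : ∀ (e : ℂ) (b V : H →L[ℂ] H), IsT (V - b) → IsT (br (dt e N) V) →
      IsT (br (dt e N) b) ∧ kp N e b ≤ n1 (br (dt e N) V) := by
    intro e b V hVb hV
    have h1 : br (dt e N) b = br (dt e N) V - br (dt e N) (V - b) := by
      rw [br_sub]
      abel
    have h2 : IsT (br (dt e N) (V - b)) := isT_br _ hVb
    refine ⟨by rw [h1]; exact hV.sub h2, ?_⟩
    unfold kp
    rw [h1]
    have h3 := ksub _ _ hV h2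
    have h4 := k4 e (V - b) hVb
    have h5 := (k1 _ hV).2.1
    linarith
  have s2 : ∀ (e : ℂ) (b : H →L[ℂ] H), A1 N b →
      Tendsto (fun t : ℝ => n1 (br (dt e N) (Ph N t b))) atTop (𝓝 (kp N e b)) := by
    intro e b hb
    have h1 : IsT (br (dt e N) b) := ((c11 b hb).1 e).1
    refine (k1 _ h1).2.2.congr' ?_
    filter_upwards [eventually_gt_atTop (0 : ℝ)] with t ht
    rw [p4 t e b ht]
  refine ⟨s1, s2, ?_, ?_, ?_, ?_, ?_, ?_, ?_⟩
  · intro e x y hx hy
    have hx2 := s2 e x hx
    have hy2 := s2 e y hy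
    have hlim : Tendsto (fun t : ℝ => n1 (br (dt e N) (Ph N t x)) * ‖y‖ +
        ‖x‖ * n1 (br (dt e N) (Ph N t y))) atTop (𝓝 (kp N e x * ‖y‖ + ‖x‖ * kp N e y)) :=
      (hx2.mul_const _).add (hy2.const_mul _)
    refine ge_of_tendsto hlim ?_
    filter_upwards [eventually_gt_atTop (0 : ℝ)] with t ht
    have hTx : IsT (br (dt e N) (Ph N t x)) := by
      rw [p4 t e x ht]
      exact (p6 t _ ht ((c11 x hx).1 e).1).1
    have hTy : IsT (br (dt e N) (Ph N t y)) := by
      rw [p4 t e y ht]
      exact (p6 t _ ht ((c11 y hy).1 e).1).1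
    have hdx : IsT (x - Ph N t x) := (hPHB H N x hN hx t ht).1
    have hdy : IsT (y - Ph N t y) := (hPHB H N y hN hy t ht).1
    have hd : IsT (Ph N t x * Ph N t y - x * y) := by
      have h1 : Ph N t x * Ph N t y - x * y =
          -((x - Ph N t x) * Ph N t y + x * (y - Ph N t y)) := by
        rw [sub_mul, mul_sub]
        abel
      rw [h1]
      exact ((hdx.mul_right _).add (hdy.mul_left _)).neg
    have hTV : IsT (br (dt e N) (Ph N t x * Ph N t y)) := by
      rw [br_mul]
      exact (hTx.mul_right _).add (hTy.mul_left _)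
    refine (s1 e (x * y) _ hd hTV).2.trans ?_
    rw [br_mul]
    refine (n1_add_le (hTx.mul_right _) (hTy.mul_left _)).trans ?_
    have h2 := n1_mul_right_le (Ph N t y) hTx
    have h3 := n1_mul_left_le (Ph N t x) hTy
    have h4 := mul_le_mul_of_nonneg_right (p1 t ht y) (n1_nonneg (br (dt e N) (Ph N t x)))
    have h5 := mul_le_mul_of_nonneg_right (p1 t ht x) (n1_nonneg (br (dt e N) (Ph N t y)))
    nlinarith
  · intro e x y hx hy
    unfold kp
    rw [br_add, br_sub]
    exact ⟨k2 _ _ hx hy, ksub _ _ hx hy⟩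
  · intro e x hx
    refine ⟨(k1 _ hx).1, (k1 _ hx).2.1, ?_⟩
    have hsa : star (dt e N) = dt e N := (c7 e).star_eq
    have h1 : br (dt e N) (star x) = -star (br (dt e N) x) := by
      unfold br
      rw [star_sub, star_mul, star_mul, hsa]
      abel
    have h2 := k6 _ hx
    unfold kp
    rw [h1]
    refine le_antisymm ((kneg _ hx.star).trans h2.le) ?_
    have h3 := kneg _ hx.star.neg
    rw [neg_neg, h2] at h3
    exact h3
  · intro e S x hx hS
    have hc := (c1 S hS).1 e
    have h1 : br (dt e N) (S * x) = S * br (dt e N) x := by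
      unfold br
      rw [mul_sub, ← mul_assoc, hc, mul_assoc, mul_assoc]
    have h2 : br (dt e N) (x * S) = br (dt e N) x * S := by
      unfold br
      rw [sub_mul, mul_assoc x S, ← hc, ← mul_assoc, ← mul_assoc]
    unfold kp
    rw [h1, h2]
    exact k5 S _ hx hS
  · intro e x y hx hxy
    have h1 : IsT (br (dt e N) (x - y)) := isT_br _ hxy
    have h2 : br (dt e N) y = br (dt e N) x - br (dt e N) (x - y) := by
      rw [br_sub]
      abel
    have h3 : IsT (br (dt e N) y) := by
      rw [h2]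
      exact hx.sub h1
    have h4 : br (dt e N) x = br (dt e N) y + br (dt e N) (x - y) := by
      rw [br_sub]
      abel
    have h5 := k4 e (x - y) hxy
    unfold kp
    refine le_antisymm ?_ ?_
    · rw [h4]
      have h6 := k2 _ _ h3 h1
      linarith
    · rw [h2]
      have h6 := ksub _ _ hx h1
      linarith
  · intro e S hS
    have hc := (c1 S hS).1 e
    have h1 : br (dt e N) S = 0 := by
      unfold br
      rw [hc, sub_self]
    unfold kp
    rw [h1]
    have h2 := k1 (0 : H →L[ℂ] H) isT_zero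
    have h3 := h2.2.1
    rw [n1_zero] at h3
    exact le_antisymm h3 h2.1
  · intro e e' a b x hx
    have h1 := ((c11 x hx).1 e).1
    have h2 := ((c11 x hx).1 e').1
    have h3 : br (dt ((a : ℂ) * e + (b : ℂ) * e') N) x =
        (a : ℂ) • br (dt e N) x + (b : ℂ) • br (dt e' N) x := by
      rw [c9 e e' a b]
      unfold br
      rw [add_mul, mul_add, smul_mul_assoc, smul_mul_assoc, mul_smul_comm, mul_smul_comm,
        smul_sub, smul_sub]
      abel
    unfold kp
    rw [h3]
    have h4 := k2 _ _ (h1.smul (a : ℂ)) (h2.smul (b : ℂ))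
    have h5 := k3 (a : ℂ) _ h1
    have h6 := k3 (b : ℂ) _ h2
    rw [Complex.norm_real, Real.norm_eq_abs] at h5 h6
    linarith

end Pool.Q2
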