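import Pool.Agent.Work.MP_8c7e5b_q2.Interface

/-!
# MP_8c7e5b_an, Q2: block KMC
-/

open MeasureTheory Complex Filter Topology
open scoped ComplexOrder InnerProductSpace ComplexConjugate BoundedContinuousFunction

set_option autoImplicit false
set_option linter.unusedSectionVars false

universe v

namespace Pool.Q2

open Pool.Bes

namespace KMCAux

variable {H : Type v} [NormedAddCommGroup H] [InnerProductSpace ℂ H] [CompleteSpace H]

theorem isT_br (S : H →L[ℂ] H) {K : H →L[ℂ] H} (hK : IsT K) : IsT (br S K) :=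
  (hK.mul_left S).sub (hK.mul_right S)

theorem n1_br_le (S : H →L[ℂ] H) {K : H →L[ℂ] H} (hK : IsT K) :
    n1 (br S K) ≤ 2 * ‖S‖ * n1 K := by
  have h1 := n1_sub_le (hK.mul_left S) (hK.mul_right S)
  have h2 := n1_mul_left_le S hK
  have h3 := n1_mul_right_le S hK
  unfold br
  linarith

/-- the properties of `km` used here -/
structure Sn (N : H →L[ℂ] H) : Prop where
  nn : ∀ K : H →L[ℂ] H, IsT K → 0 ≤ km N K
  le : ∀ K : H →L[ℂ] H, IsT K → km N K ≤ n1 K
  add : ∀ K K' : H →L[ℂ] H, IsT K → IsT K' → km N (K + K') ≤ km N K + km N K'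
  smul : ∀ (a : ℂ) (K : H →L[ℂ] H), IsT K → km N (a • K) ≤ ‖a‖ * km N K
  cm : ∀ (e : ℂ) (K : H →L[ℂ] H), IsT K → km N (br (dt e N) K) = 0
  st : ∀ K : H →L[ℂ] H, IsT K → km N (star K) = km N K

variable {N : H →L[ℂ] H}

theorem zero_add (h : Sn N) {K K' : H →L[ℂ] H} (hK : IsT K) (hK' : IsT K')
    (h1 : km N K = 0) (h2 : km N K' = 0) : km N (K + K') = 0 := by
  refine le_antisymm ?_ (h.nn _ (hK.add hK'))
  have h3 := h.add K K' hK hK'
  linarith

theorem zero_smul (h : Sn N) (a : ℂ) {K : H →L[ℂ] H} (hK : IsT K) (h1 : km N K = 0) :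
    km N (a • K) = 0 := by
  refine le_antisymm ?_ (h.nn _ (hK.smul a))
  have h3 := h.smul a K hK
  rwa [h1, mul_zero] at h3

theorem zero_zero (h : Sn N) : km N (0 : H →L[ℂ] H) = 0 := by
  refine le_antisymm ?_ (h.nn _ isT_zero)
  have h3 := h.le 0 isT_zero
  rwa [n1_zero] at h3

/-- the closed star algebra of the good elements -/
def good (h : Sn N) (hst : ∀ S : H →L[ℂ] H, Cm N S → Cm N (star S)) :
    StarSubalgebra ℂ (H →L[ℂ] H) where
  carrier := {S | Cm N S ∧ ∀ K, IsT K → km N (br S K) = 0}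
  mul_mem' := by
    rintro S S' ⟨⟨hS1, hS2⟩, hS⟩ ⟨⟨hS1', hS2'⟩, hS'⟩
    refine ⟨⟨?_, ?_⟩, fun K hK => ?_⟩
    · rw [← mul_assoc, hS1, mul_assoc, hS1', mul_assoc]
    · rw [← mul_assoc, hS2, mul_assoc, hS2', mul_assoc]
    · have h1 : br (S * S') K = br S (S' * K) + br S' (K * S) := by
        unfold br
        simp only [mul_assoc]
        abel
      rw [h1]
      exact zero_add h (isT_br S (hK.mul_left S')) (isT_br S' (hK.mul_right S))
        (hS _ (hK.mul_left S')) (hS' _ (hK.mul_right S))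
  add_mem' := by
    rintro S S' ⟨⟨hS1, hS2⟩, hS⟩ ⟨⟨hS1', hS2'⟩, hS'⟩
    refine ⟨⟨?_, ?_⟩, fun K hK => ?_⟩
    · rw [mul_add, add_mul, hS1, hS1']
    · rw [mul_add, add_mul, hS2, hS2']
    · have h1 : br (S + S') K = br S K + br S' K := by
        unfold br
        rw [add_mul, mul_add]
        abel
      rw [h1]
      exact zero_add h (isT_br S hK) (isT_br S' hK) (hS K hK) (hS' K hK)
  algebraMap_mem' := by
    intro c
    refine ⟨⟨(Algebra.commutes c N).symm, (Algebra.commutes c (star N)).symm⟩, fun K _ => ?_⟩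
    have h1 : br (algebraMap ℂ (H →L[ℂ] H) c) K = 0 := by
      unfold br
      rw [Algebra.commutes c K, sub_self]
    rw [h1, zero_zero h]
  star_mem' := by
    rintro S ⟨hS1, hS⟩
    refine ⟨hst S hS1, fun K hK => ?_⟩
    have h1 : br (star S) K = (-1 : ℂ) • star (br S (star K)) := by
      unfold br
      rw [star_sub, star_mul, star_mul, star_star, neg_smul, one_smul, neg_sub]
    rw [h1]
    refine zero_smul h _ (isT_br S hK.star).star ?_
    rw [h.st _ (isT_br S hK.star), hS _ hK.star]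

theorem isClosed_good (h : Sn N) (hst : ∀ S : H →L[ℂ] H, Cm N S → Cm N (star S)) :
    IsClosed ((good h hst : StarSubalgebra ℂ (H →L[ℂ] H)) : Set (H →L[ℂ] H)) := by
  have e : ((good h hst : StarSubalgebra ℂ (H →L[ℂ] H)) : Set (H →L[ℂ] H)) =
      {S | N * S = S * N} ∩ {S | star N * S = S * star N} ∩
        {S | ∀ K, IsT K → km N (br S K) = 0} := by
    ext S
    exact ⟨fun hx => ⟨⟨hx.1.1, hx.1.2⟩, hx.2⟩, fun hx => ⟨⟨hx.1.1, hx.1.2⟩, hx.2⟩⟩
  rw [e]
  refine ((isClosed_eq (by fun_prop) (by fun_prop)).inter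
    (isClosed_eq (by fun_prop) (by fun_prop))).inter ?_
  refine isClosed_of_closure_subset fun S hS K hK => ?_
  refine le_antisymm ?_ (h.nn _ (isT_br S hK))
  refine le_of_forall_pos_le_add fun ε hε => ?_
  have hn := n1_nonneg K
  have hpos : 0 < ε / (2 * (n1 K + 1)) := by positivity
  obtain ⟨S', hS', hd⟩ := Metric.mem_closure_iff.mp hS _ hpos
  rw [dist_eq_norm] at hd
  have h1 : br S K = br (S - S') K + br S' K := by
    unfold br
    rw [sub_mul, mul_sub]
    abel
  have h2 := h.add (br (S - S') K) (br S' K) (isT_br _ hK) (isT_br _ hK)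
  rw [hS' K hK, ← h1] at h2
  have h3 := h.le (br (S - S') K) (isT_br _ hK)
  have h4 := n1_br_le (S - S') hK
  have h5 : 2 * ‖S - S'‖ * n1 K ≤ 2 * (ε / (2 * (n1 K + 1))) * (n1 K + 1) := by
    have := norm_nonneg (S - S')
    gcongr
    · linarith
  have h6 : 2 * (ε / (2 * (n1 K + 1))) * (n1 K + 1) = ε := by
    field_simp
  linarith

end KMCAux

theorem blk_KMC (hCMM : Stmt_CMM.{v}) (hKMA : Stmt_KMA.{v}) : Stmt_KMC.{v} := by
  intro H _ _ _ N hN θ K hK
  obtain ⟨c1, -, -, -, -, -, -, -, -, c10, -⟩ := hCMM H N hN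
  obtain ⟨k1, k2, k3, k4, -, k6⟩ := hKMA H N hN
  have h : KMCAux.Sn N := ⟨fun K hK => (k1 K hK).1, fun K hK => (k1 K hK).2.1, k2, k3, k4, k6⟩
  have hst : ∀ S : H →L[ℂ] H, Cm N S → Cm N (star S) := fun S hS => (c1 S hS).2.2.2
  have hmem : N ∈ KMCAux.good h hst := by
    refine ⟨⟨rfl, hN.star_comm_self⟩, fun K hK => ?_⟩
    have h1 : br N K = br (dt 1 N) K + Complex.I • br (dt Complex.I N) K := by
      unfold br
      conv_lhs => rw [c10]
      rw [add_mul, mul_add, smul_mul_assoc, mul_smul_comm, smul_sub]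
      abel
    rw [h1]
    exact KMCAux.zero_add h (KMCAux.isT_br _ hK) ((KMCAux.isT_br _ hK).smul _) (k4 1 K hK)
      (KMCAux.zero_smul h _ (KMCAux.isT_br _ hK) (k4 Complex.I K hK))
  have h2 : cfc θ N ∈ StarAlgebra.elemental ℂ N := cfc_mem_elemental θ N
  have h3 := StarAlgebra.elemental.le_of_mem (KMCAux.isClosed_good h hst) hmem
  exact (h3 h2).2 K hK

end Pool.Q2
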