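import Pool.Agent.Work.MP_8c7e5b_q2.Interface2

/-! Block L2T: `∫ |⟪u, ex N (t e) ψ⟫|² dt ≤ 2 π m² ‖u‖²`. -/

open MeasureTheory Complex Filter Topology
open scoped ComplexOrder InnerProductSpace ComplexConjugate

set_option autoImplicit false
set_option linter.unusedSectionVars false

universe v

namespace Pool.Q2

open Pool.Bes

namespace L2TAux

/-- the character -/
noncomputable def E (t x : ℝ) : ℂ := Complex.exp (Complex.I * t * x)

theorem norm_E (t x : ℝ) : ‖E t x‖ = 1 := by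
  rw [E, show Complex.I * t * x = ((t * x : ℝ) : ℂ) * Complex.I by push_cast; ring,
    Complex.norm_exp_ofReal_mul_I]

theorem continuous_E : Continuous fun p : ℝ × ℝ => E p.1 p.2 := by
  unfold E
  fun_prop

theorem ch_eq (t : ℝ) (e z : ℂ) : ch (t * e) z = E t (ip e z) := by
  rw [ch, EXB.ip_smul_left, E]
  congr 1
  push_cast
  ring

/-- `ĝ(x) = ∫ g(t) e^{itx} dt` -/
noncomputable def gh (g : ℝ → ℂ) (x : ℝ) : ℂ := ∫ t : ℝ, g t * E t x

theorem integrable_mul_E {g : ℝ → ℂ} (hg : Integrable g) (x : ℝ) :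
    Integrable fun t => g t * E t x := by
  refine hg.mul_bdd (c := 1) ?_ ?_
  · exact (continuous_E.comp (Continuous.prodMk_left x)).aestronglyMeasurable
  · exact Filter.Eventually.of_forall fun t => (norm_E t x).le

theorem continuous_gh {g : ℝ → ℂ} (hg : Integrable g) : Continuous (gh g) := by
  refine MeasureTheory.continuous_of_dominated (F := fun x t => g t * E t x)
    (bound := fun t => ‖g t‖) ?_ ?_ hg.norm ?_
  · exact fun x => (integrable_mul_E hg x).aestronglyMeasurable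
  · refine fun x => Filter.Eventually.of_forall fun t => ?_
    rw [norm_mul, norm_E, mul_one]
  · exact Filter.Eventually.of_forall fun t =>
      continuous_const.mul (continuous_E.comp (Continuous.prodMk_right t))

section Gauss

/-- the Gaussian -/
noncomputable def gr (δ τ : ℝ) : ℝ := Real.sqrt (Real.pi / δ) * Real.exp (-(1 / (4 * δ)) * τ ^ 2)

theorem gr_nonneg (δ τ : ℝ) : 0 ≤ gr δ τ := by
  unfold gr
  positivity

theorem gr_neg (δ τ : ℝ) : gr δ (-τ) = gr δ τ := by
  rw [gr, gr, neg_sq]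

theorem integrable_gr {δ : ℝ} (hδ : 0 < δ) : Integrable (gr δ) := by
  have h : Integrable fun τ : ℝ => Real.exp (-(1 / (4 * δ)) * τ ^ 2) :=
    integrable_exp_neg_mul_sq (by positivity)
  exact h.const_mul _

theorem integral_gr {δ : ℝ} (hδ : 0 < δ) : ∫ τ, gr δ τ = 2 * Real.pi := by
  unfold gr
  rw [integral_const_mul, integral_gaussian, ← Real.sqrt_mul (by positivity)]
  rw [show Real.pi / δ * (Real.pi / (1 / (4 * δ))) = (2 * Real.pi) ^ 2 by
    field_simp
    ring]
  exact Real.sqrt_sq (by positivity)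

theorem inner_int {δ : ℝ} (hδ : 0 < δ) (τ : ℝ) :
    ‖∫ x : ℝ, Complex.exp (Complex.I * τ * x) * Complex.exp (-(δ : ℂ) * x ^ 2)‖ = gr δ τ := by
  rw [fourierIntegral_gaussian (by simpa using hδ), norm_mul, gr]
  congr 1
  · rw [← Complex.ofReal_div, show (1 / 2 : ℂ) = ((1 / 2 : ℝ) : ℂ) by norm_num,
      ← Complex.ofReal_cpow (by positivity), Complex.norm_real, Real.norm_eq_abs,
      abs_of_nonneg (by positivity), Real.sqrt_eq_rpow]
  · rw [Complex.norm_exp]
    congr 1
    rw [show -(τ : ℂ) ^ 2 / (4 * (δ : ℂ)) = ((-(1 / (4 * δ)) * τ ^ 2 : ℝ) : ℂ) by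
      push_cast
      field_simp]
    exact Complex.ofReal_re _

end Gauss

theorem damped (g : ℝ → ℂ) (hg : Continuous g) (hc : HasCompactSupport g) {δ : ℝ} (hδ : 0 < δ) :
    ∫ x, ‖gh g x‖ ^ 2 * Real.exp (-δ * x ^ 2) ≤ 2 * Real.pi * ∫ t, ‖g t‖ ^ 2 := by
  have hgi : Integrable g := hg.integrable_of_hasCompactSupport hc
  have hg2 : Integrable fun t => ‖g t‖ ^ 2 := by
    refine (hg.norm.pow 2).integrable_of_hasCompactSupport ?_
    have := hc.norm
    refine this.comp_left (g := fun y : ℝ => y ^ 2) (by simp)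
  let F : ℝ → ℝ × ℝ → ℂ := fun x p =>
    ((Real.exp (-δ * x ^ 2) : ℝ) : ℂ) * ((g p.1 * E p.1 x) * conj (g p.2 * E p.2 x))
  have h1 : ∀ x, ((‖gh g x‖ ^ 2 * Real.exp (-δ * x ^ 2) : ℝ) : ℂ) = ∫ p, F x p := by
    intro x
    show _ = ∫ p : ℝ × ℝ, ((Real.exp (-δ * x ^ 2) : ℝ) : ℂ) *
      ((g p.1 * E p.1 x) * conj (g p.2 * E p.2 x))
    rw [integral_const_mul]
    rw [Measure.volume_eq_prod,
      integral_prod_mul (fun t => g t * E t x) (fun s => conj (g s * E s x)), integral_conj]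
    show _ = _ * (gh g x * conj (gh g x))
    rw [Complex.mul_conj, Complex.normSq_eq_norm_sq]
    push_cast
    ring
  have hFm : AEStronglyMeasurable (Function.uncurry F) (volume.prod volume) := by
    have hcont : Continuous (Function.uncurry F) := by
      show Continuous fun q : ℝ × ℝ × ℝ => ((Real.exp (-δ * q.1 ^ 2) : ℝ) : ℂ) *
        ((g q.2.1 * E q.2.1 q.1) * conj (g q.2.2 * E q.2.2 q.1))
      have hE1 : Continuous fun q : ℝ × ℝ × ℝ => E q.2.1 q.1 :=
        continuous_E.comp (by fun_prop : Continuous fun q : ℝ × ℝ × ℝ => (q.2.1, q.1))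
      have hE2 : Continuous fun q : ℝ × ℝ × ℝ => E q.2.2 q.1 :=
        continuous_E.comp (by fun_prop : Continuous fun q : ℝ × ℝ × ℝ => (q.2.2, q.1))
      have hg1 : Continuous fun q : ℝ × ℝ × ℝ => g q.2.1 := hg.comp (by fun_prop)
      have hg3 : Continuous fun q : ℝ × ℝ × ℝ => g q.2.2 := hg.comp (by fun_prop)
      have h0 : Continuous fun q : ℝ × ℝ × ℝ => ((Real.exp (-δ * q.1 ^ 2) : ℝ) : ℂ) := by
        fun_prop
      exact h0.mul ((hg1.mul hE1).mul (Complex.continuous_conj.comp (hg3.mul hE2)))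
    exact hcont.aestronglyMeasurable
  have h2 : Integrable (Function.uncurry F) (volume.prod volume) := by
    have hb : Integrable (fun q : ℝ × ℝ × ℝ => Real.exp (-δ * q.1 ^ 2) *
        (‖g q.2.1‖ * ‖g q.2.2‖)) (volume.prod volume) :=
      (integrable_exp_neg_mul_sq hδ).mul_prod (hgi.norm.mul_prod hgi.norm)
    refine Integrable.mono' hb hFm (Filter.Eventually.of_forall fun q => ?_)
    show ‖((Real.exp (-δ * q.1 ^ 2) : ℝ) : ℂ) *
      ((g q.2.1 * E q.2.1 q.1) * conj (g q.2.2 * E q.2.2 q.1))‖ ≤ _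
    rw [norm_mul, norm_mul, norm_mul, RCLike.norm_conj, norm_mul, norm_E, norm_E, mul_one, mul_one,
      Complex.norm_real, Real.norm_eq_abs, abs_of_pos (Real.exp_pos _)]
  have h3 : ∫ x, ∫ p, F x p = ∫ p, ∫ x, F x p := integral_integral_swap h2
  have h4 : ∀ p : ℝ × ℝ, ‖∫ x, F x p‖ = ‖g p.1‖ * ‖g p.2‖ * gr δ (p.1 - p.2) := by
    intro p
    have e1 : ∀ x, F x p = (g p.1 * conj (g p.2)) *
        (Complex.exp (Complex.I * ((p.1 - p.2 : ℝ) : ℂ) * x) * Complex.exp (-(δ : ℂ) * x ^ 2)) := by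
      intro x
      show ((Real.exp (-δ * x ^ 2) : ℝ) : ℂ) * ((g p.1 * E p.1 x) * conj (g p.2 * E p.2 x)) = _
      rw [map_mul]
      have e2 : conj (E p.2 x) = Complex.exp (-(Complex.I * p.2 * x)) := by
        rw [E, ← Complex.exp_conj]
        simp
      rw [e2, E]
      have e3 : Complex.exp (Complex.I * ((p.1 - p.2 : ℝ) : ℂ) * x) =
          Complex.exp (Complex.I * p.1 * x) * Complex.exp (-(Complex.I * p.2 * x)) := by
        rw [← Complex.exp_add]
        congr 1
        push_cast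
        ring
      rw [e3]
      have e4 : ((Real.exp (-δ * x ^ 2) : ℝ) : ℂ) = Complex.exp (-(δ : ℂ) * x ^ 2) := by
        push_cast
        rfl
      rw [e4]
      ring
    simp_rw [e1]
    rw [integral_const_mul, norm_mul, inner_int hδ, norm_mul, RCLike.norm_conj]
  let L := ContinuousLinearMap.mul ℝ ℝ
  have hI1 : Integrable (fun p : ℝ × ℝ => ‖g p.2‖ ^ 2 * gr δ (p.1 - p.2))
      (volume.prod volume) := hg2.convolution_integrand L (integrable_gr hδ)
  have hI2 : Integrable (fun p : ℝ × ℝ => ‖g p.1‖ ^ 2 * gr δ (p.1 - p.2))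
      (volume.prod volume) := by
    have h := hI1.swap
    refine h.congr (Filter.Eventually.of_forall fun p => ?_)
    show ‖g p.1‖ ^ 2 * gr δ (p.2 - p.1) = _
    rw [← gr_neg, neg_sub]
  have hv1 : ∫ p : ℝ × ℝ, ‖g p.2‖ ^ 2 * gr δ (p.1 - p.2) = 2 * Real.pi * ∫ t, ‖g t‖ ^ 2 := by
    rw [Measure.volume_eq_prod, integral_prod_symm _ hI1]
    have : ∀ s : ℝ, ∫ t : ℝ, ‖g s‖ ^ 2 * gr δ (t - s) = ‖g s‖ ^ 2 * (2 * Real.pi) := by
      intro s
      rw [integral_const_mul, integral_sub_right_eq_self (fun t => gr δ t) s, integral_gr hδ]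
    simp only [this]
    rw [integral_mul_const]
    ring
  have hv2 : ∫ p : ℝ × ℝ, ‖g p.1‖ ^ 2 * gr δ (p.1 - p.2) = 2 * Real.pi * ∫ t, ‖g t‖ ^ 2 := by
    rw [Measure.volume_eq_prod, integral_prod _ hI2]
    have : ∀ s : ℝ, ∫ t : ℝ, ‖g s‖ ^ 2 * gr δ (s - t) = ‖g s‖ ^ 2 * (2 * Real.pi) := by
      intro s
      rw [integral_const_mul]
      congr 1
      have e : ∀ t, gr δ (s - t) = gr δ (t - s) := fun t => by rw [← gr_neg, neg_sub]
      simp_rw [e]
      rw [integral_sub_right_eq_self (fun t => gr δ t) s, integral_gr hδ]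
    simp only [this]
    rw [integral_mul_const]
    ring
  have key : ((∫ x, ‖gh g x‖ ^ 2 * Real.exp (-δ * x ^ 2) : ℝ) : ℂ) = ∫ p, ∫ x, F x p := by
    rw [← h3, ← integral_complex_ofReal]
    exact integral_congr_ae (Filter.Eventually.of_forall fun x => h1 x)
  have hle : ∫ x, ‖gh g x‖ ^ 2 * Real.exp (-δ * x ^ 2) ≤
      ‖((∫ x, ‖gh g x‖ ^ 2 * Real.exp (-δ * x ^ 2) : ℝ) : ℂ)‖ := by
    rw [Complex.norm_real]
    exact Real.le_norm_self _
  refine hle.trans ?_
  rw [key]
  refine (norm_integral_le_integral_norm _).trans ?_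
  simp_rw [h4]
  have hfin : ∫ p : ℝ × ℝ, ‖g p.1‖ * ‖g p.2‖ * gr δ (p.1 - p.2) ≤
      ∫ p : ℝ × ℝ, ((1 / 2) * (‖g p.2‖ ^ 2 * gr δ (p.1 - p.2)) +
        (1 / 2) * (‖g p.1‖ ^ 2 * gr δ (p.1 - p.2))) := by
    refine integral_mono_of_nonneg (Filter.Eventually.of_forall fun p => ?_)
      ((hI1.const_mul _).add (hI2.const_mul _)) (Filter.Eventually.of_forall fun p => ?_)
    · exact mul_nonneg (by positivity) (gr_nonneg _ _)
    · show ‖g p.1‖ * ‖g p.2‖ * gr δ (p.1 - p.2) ≤ _
      nlinarith [gr_nonneg δ (p.1 - p.2), mul_nonneg (gr_nonneg δ (p.1 - p.2))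
        (sq_nonneg (‖g p.1‖ - ‖g p.2‖))]
  refine hfin.trans (le_of_eq ?_)
  rw [Measure.volume_eq_prod] at hv1 hv2 ⊢
  rw [integral_add (hI1.const_mul _) (hI2.const_mul _), integral_const_mul, integral_const_mul,
    hv1, hv2]
  ring

/-- a nonnegative continuous function with bounded integrals on all `[-R, R]` -/
theorem bounded_int {f : ℝ → ℝ} (hf : Continuous f) (h0 : ∀ x, 0 ≤ f x) {B : ℝ}
    (hB : ∀ R : ℝ, 0 < R → ∫ x in (-R)..R, f x ≤ B) : Integrable f ∧ ∫ x, f x ≤ B := by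
  have hint : Integrable f := by
    refine integrable_of_intervalIntegral_norm_bounded (a := fun n : ℕ => -((n : ℝ) + 1))
      (b := fun n : ℕ => (n : ℝ) + 1) (l := atTop) B (fun n => ?_) ?_ ?_ ?_
    · exact (hf.integrableOn_Icc).mono_set Set.Ioc_subset_Icc_self
    · exact tendsto_neg_atTop_atBot.comp (tendsto_atTop_add_const_right _ _
        tendsto_natCast_atTop_atTop)
    · exact tendsto_atTop_add_const_right _ _ tendsto_natCast_atTop_atTop
    · refine Filter.Eventually.of_forall fun n => ?_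
      have h1 : ∀ x, ‖f x‖ = f x := fun x => by rw [Real.norm_eq_abs, abs_of_nonneg (h0 x)]
      simp_rw [h1]
      exact hB _ (by positivity)
  refine ⟨hint, ?_⟩
  have ht := intervalIntegral_tendsto_integral (μ := volume) (f := f)
    (a := fun n : ℕ => -((n : ℝ) + 1)) (b := fun n : ℕ => (n : ℝ) + 1) (l := atTop) hint
    (tendsto_neg_atTop_atBot.comp (tendsto_atTop_add_const_right _ _
        tendsto_natCast_atTop_atTop))
    (tendsto_atTop_add_const_right _ _ tendsto_natCast_atTop_atTop)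
  exact le_of_tendsto ht (Filter.Eventually.of_forall fun n => hB _ (by positivity))

theorem planch (g : ℝ → ℂ) (hg : Continuous g) (hc : HasCompactSupport g) :
    Integrable (fun x => ‖gh g x‖ ^ 2) ∧ ∫ x, ‖gh g x‖ ^ 2 ≤ 2 * Real.pi * ∫ t, ‖g t‖ ^ 2 := by
  have hgi : Integrable g := hg.integrable_of_hasCompactSupport hc
  have hcont : Continuous fun x => ‖gh g x‖ ^ 2 := (continuous_gh hgi).norm.pow 2
  set B := 2 * Real.pi * ∫ t, ‖g t‖ ^ 2 with hB
  have hB0 : 0 ≤ B := by
    rw [hB]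
    exact mul_nonneg (by positivity) (integral_nonneg fun t => sq_nonneg _)
  refine bounded_int hcont (fun x => sq_nonneg _) fun R hR => ?_
  have hbd : ∀ x, ‖gh g x‖ ≤ ∫ t, ‖g t‖ := by
    intro x
    refine (norm_integral_le_integral_norm _).trans (le_of_eq ?_)
    congr 1
    funext t
    rw [norm_mul, norm_E, mul_one]
  have step : ∀ δ : ℝ, 0 < δ → ∫ x in (-R)..R, ‖gh g x‖ ^ 2 ≤ Real.exp (δ * R ^ 2) * B := by
    intro δ hδ
    have hi : Integrable fun x => ‖gh g x‖ ^ 2 * Real.exp (-δ * x ^ 2) := by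
      refine (integrable_exp_neg_mul_sq hδ).bdd_mul (c := (∫ t, ‖g t‖) ^ 2)
        hcont.aestronglyMeasurable (Filter.Eventually.of_forall fun x => ?_)
      rw [Real.norm_eq_abs, abs_of_nonneg (sq_nonneg _)]
      exact pow_le_pow_left₀ (norm_nonneg _) (hbd x) 2
    have h1 : ∫ x in (-R)..R, Real.exp (-(δ * R ^ 2)) * ‖gh g x‖ ^ 2 ≤ B := by
      refine le_trans ?_ (damped g hg hc hδ)
      rw [intervalIntegral.integral_of_le (by linarith)]
      refine le_trans ?_ (setIntegral_le_integral (s := Set.Ioc (-R) R) hi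
        (Filter.Eventually.of_forall fun x => mul_nonneg (sq_nonneg _) (Real.exp_pos _).le))
      refine setIntegral_mono_on ?_ hi.integrableOn measurableSet_Ioc fun x hx => ?_
      · exact ((continuous_const.mul hcont).integrableOn_Icc).mono_set Set.Ioc_subset_Icc_self
      · rw [mul_comm]
        refine mul_le_mul_of_nonneg_left (Real.exp_le_exp.2 ?_) (sq_nonneg _)
        have hx2 : x ^ 2 ≤ R ^ 2 := by
          apply sq_le_sq'
          · exact hx.1.le
          · exact hx.2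
        nlinarith
    rw [intervalIntegral.integral_const_mul] at h1
    have h2 := mul_le_mul_of_nonneg_left h1 (Real.exp_pos (δ * R ^ 2)).le
    rw [← mul_assoc, ← Real.exp_add, add_neg_cancel, Real.exp_zero, one_mul] at h2
    exact h2
  have ht : Tendsto (fun δ : ℝ => Real.exp (δ * R ^ 2) * B) (𝓝[>] 0) (𝓝 B) := by
    have h : Tendsto (fun δ : ℝ => Real.exp (δ * R ^ 2) * B) (𝓝 0)
        (𝓝 (Real.exp (0 * R ^ 2) * B)) := by
      have hc' : Continuous fun δ : ℝ => Real.exp (δ * R ^ 2) * B := by fun_prop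
      exact hc'.tendsto 0
    rw [zero_mul, Real.exp_zero, one_mul] at h
    exact h.mono_left nhdsWithin_le_nhds
  refine ge_of_tendsto ht ?_
  filter_upwards [self_mem_nhdsWithin] with δ hδ
  exact step δ hδ

section Op

variable {H : Type v} [NormedAddCommGroup H] [InnerProductSpace ℂ H] [CompleteSpace H]

theorem continuous_exr (N : H →L[ℂ] H) (e : ℂ) : Continuous fun t : ℝ => ex N (t * e) :=
  (EXB.continuous_ex N).comp (by fun_prop)

theorem integrable_smul_exr (N : H →L[ℂ] H) (e : ℂ) (g : ℝ → ℂ) (hg : Integrable g) :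
    Integrable fun t : ℝ => g t • ex N (t * e) := by
  refine Integrable.mono' hg.norm ?_ ?_
  · exact hg.aestronglyMeasurable.smul (continuous_exr N e).aestronglyMeasurable
  · refine Filter.Eventually.of_forall fun t => ?_
    rw [norm_smul]
    exact mul_le_of_le_one_right (norm_nonneg _) (EXB.norm_ex_le N _)

theorem fe_gh (N : H →L[ℂ] H) (hN : IsStarNormal N) (e : ℂ) (g : ℝ → ℂ) (hg : Integrable g) :
    fe e (gh g) N = ∫ t : ℝ, g t • ex N (t * e) := by
  let K : ℝ → C(spectrum ℂ N, ℂ) := fun t => ⟨fun z => ch (t * e) z,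
    (EXB.continuous_ch _).comp continuous_subtype_val⟩
  have hK : Continuous K := by
    let G : C(ℝ × spectrum ℂ N, ℂ) := ⟨fun p => ch (p.1 * e) p.2,
      EXB.continuous_ch₂.comp (by fun_prop :
        Continuous fun p : ℝ × spectrum ℂ N => (((p.1 : ℂ) * e), (p.2 : ℂ)))⟩
    exact G.curry.continuous
  have hK1 : ∀ t, ‖K t‖ ≤ 1 := fun t =>
    (ContinuousMap.norm_le _ zero_le_one).2 fun z => (EXB.norm_ch _ z).le
  have hint : Integrable fun t => g t • K t := by
    refine Integrable.mono' hg.norm (hg.aestronglyMeasurable.smul hK.aestronglyMeasurable) ?_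
    refine Filter.Eventually.of_forall fun t => ?_
    rw [norm_smul]
    exact mul_le_of_le_one_right (norm_nonneg _) (hK1 t)
  have e1 : ∀ t : ℝ, g t • ex N (t * e) = cfcHom (R := ℂ) hN (g t • K t) := by
    intro t
    rw [ex, cfc_apply (ch (t * e)) N hN (EXB.continuous_ch _).continuousOn, map_smul]
    rfl
  have hcont : Continuous fun z : ℂ => gh g (ip e z) :=
    (continuous_gh hg).comp (EXB.continuous_ip.comp (Continuous.prodMk_right e))
  simp_rw [e1]
  rw [cfcHom_integral N (fun t => g t • K t) hint hN, fe,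
    cfc_apply (fun z : ℂ => gh g (ip e z)) N hN hcont.continuousOn]
  congr 1
  ext z
  rw [ContinuousMap.integral_apply hint]
  show ∫ t, g t * E t (ip e z) = ∫ t, g t * ch (t * e) z
  congr 1
  funext t
  rw [ch_eq]

end Op

end L2TAux

open L2TAux in
theorem blk_L2T : Stmt_L2T.{v} := by
  intro H _ _ _ N e hN m ψ u hm hψ
  let c : ℝ → ℂ := fun t => ⟪u, ex N (t * e) ψ⟫_ℂ
  have hcc : Continuous c := by
    have h1 : Continuous fun t : ℝ => ex N (t * e) ψ :=
      (continuous_exr N e).clm_apply continuous_const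
    exact continuous_const.inner h1
  -- the functional
  have hfun : ∀ g : ℝ → ℂ, Integrable g →
      ∫ t, g t * c t = ⟪u, fe e (gh g) N ψ⟫_ℂ := by
    intro g hg
    have h1 : fe e (gh g) N = ∫ t : ℝ, g t • ex N (t * e) := fe_gh N hN e g hg
    let Λ : (H →L[ℂ] H) →L[ℂ] ℂ := (innerSL ℂ u).comp (ContinuousLinearMap.apply ℂ H ψ)
    have h2 := Λ.integral_comp_comm (integrable_smul_exr N e g hg)
    have h3 : Λ (∫ t : ℝ, g t • ex N (t * e)) = ⟪u, fe e (gh g) N ψ⟫_ℂ := by
      rw [← h1]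
      rfl
    rw [← h3, ← h2]
    congr 1
    funext t
    show _ = ⟪u, (g t • ex N (t * e)) ψ⟫_ℂ
    rw [_root_.smul_apply, inner_smul_right]
  have hbound : ∀ g : ℝ → ℂ, Continuous g → HasCompactSupport g →
      ‖∫ t, g t * c t‖ ^ 2 ≤ ‖u‖ ^ 2 * (m ^ 2 * (2 * Real.pi * ∫ t, ‖g t‖ ^ 2)) := by
    intro g hg hgc
    have hgi : Integrable g := hg.integrable_of_hasCompactSupport hgc
    obtain ⟨hp1, hp2⟩ := planch g hg hgc
    rw [hfun g hgi]
    have h1 : ‖⟪u, fe e (gh g) N ψ⟫_ℂ‖ ^ 2 ≤ (‖u‖ * ‖fe e (gh g) N ψ‖) ^ 2 :=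
      pow_le_pow_left₀ (norm_nonneg _) (norm_inner_le_norm _ _) 2
    refine h1.trans ?_
    rw [mul_pow]
    refine mul_le_mul_of_nonneg_left ?_ (sq_nonneg _)
    refine (hψ (gh g) (continuous_gh hgi) hp1).trans ?_
    exact mul_le_mul_of_nonneg_left hp2 (sq_nonneg _)
  refine bounded_int (f := fun t : ℝ => ‖c t‖ ^ 2) (hcc.norm.pow 2) (fun t => sq_nonneg _)
    fun R hR => ?_
  -- the cut-off
  obtain ⟨χ, hχ1, hχ0, hχc, hχ⟩ := exists_continuous_one_zero_of_isCompact
    (isCompact_Icc (a := -R) (b := R)) (isClosed_empty) (Set.disjoint_empty _)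
  let g : ℝ → ℂ := fun t => conj (c t) * (χ t : ℂ)
  have hg : Continuous g := (Complex.continuous_conj.comp hcc).mul
    (Complex.continuous_ofReal.comp χ.continuous)
  have hgc : HasCompactSupport g := by
    have h1 : HasCompactSupport fun t => ((χ t : ℝ) : ℂ) :=
      hχc.comp_left (g := fun y : ℝ => (y : ℂ)) (by simp)
    exact h1.mul_left
  have hχi : Integrable fun t => ‖c t‖ ^ 2 * χ t := by
    refine ((hcc.norm.pow 2).mul χ.continuous).integrable_of_hasCompactSupport ?_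
    exact hχc.mul_left
  have hI : ∫ t, g t * c t = ((∫ t, ‖c t‖ ^ 2 * χ t : ℝ) : ℂ) := by
    rw [← integral_complex_ofReal]
    congr 1
    funext t
    show conj (c t) * (χ t : ℂ) * c t = _
    rw [mul_right_comm, mul_comm (conj (c t)), Complex.mul_conj, Complex.normSq_eq_norm_sq]
    push_cast
    ring
  set I := ∫ t, ‖c t‖ ^ 2 * χ t with hIdef
  have hI0 : 0 ≤ I := integral_nonneg fun t => mul_nonneg (sq_nonneg _) (hχ t).1
  have hg2 : ∫ t, ‖g t‖ ^ 2 ≤ I := by
    rw [hIdef]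
    refine integral_mono_of_nonneg (Filter.Eventually.of_forall fun t => sq_nonneg _) hχi
      (Filter.Eventually.of_forall fun t => ?_)
    show ‖conj (c t) * (χ t : ℂ)‖ ^ 2 ≤ ‖c t‖ ^ 2 * χ t
    rw [norm_mul, RCLike.norm_conj, Complex.norm_real, Real.norm_eq_abs, abs_of_nonneg (hχ t).1,
      mul_pow]
    refine mul_le_mul_of_nonneg_left ?_ (sq_nonneg _)
    nlinarith [(hχ t).1, (hχ t).2]
  have hmain := hbound g hg hgc
  rw [hI, Complex.norm_real, Real.norm_eq_abs, abs_of_nonneg hI0] at hmain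
  have hIle : I ≤ 2 * Real.pi * m ^ 2 * ‖u‖ ^ 2 := by
    set A := 2 * Real.pi * m ^ 2 * ‖u‖ ^ 2 with hA
    have hA0 : 0 ≤ A := by positivity
    have h1 : I ^ 2 ≤ A * I := by
      refine hmain.trans ?_
      have : ‖u‖ ^ 2 * (m ^ 2 * (2 * Real.pi * ∫ t, ‖g t‖ ^ 2)) = A * ∫ t, ‖g t‖ ^ 2 := by
        rw [hA]; ring
      rw [this]
      exact mul_le_mul_of_nonneg_left hg2 hA0
    by_contra hlt
    push Not at hlt
    have hIpos : 0 < I := lt_of_le_of_lt hA0 hlt
    nlinarith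
  refine le_trans ?_ hIle
  rw [hIdef, intervalIntegral.integral_of_le (by linarith)]
  refine le_trans ?_ (setIntegral_le_integral (s := Set.Ioc (-R) R) hχi
    (Filter.Eventually.of_forall fun t => mul_nonneg (sq_nonneg _) (hχ t).1))
  refine le_of_eq (setIntegral_congr_fun measurableSet_Ioc fun t ht => ?_)
  have h1 : χ t = 1 := hχ1 (Set.Ioc_subset_Icc_self ht)
  show ‖c t‖ ^ 2 = ‖c t‖ ^ 2 * χ t
  rw [h1, mul_one]

end Pool.Q2
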