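import Pool.Agent.Work.MP_8c7e5b_q2.Interface2

/-! # LPB: block diagonal operators (ac_blocks, helper96) -/

open MeasureTheory Complex Filter Topology
open scoped ComplexOrder InnerProductSpace ComplexConjugate BoundedContinuousFunction

set_option autoImplicit false

universe v

namespace Pool.Q2
namespace LPB

section inter

variable {G K : Type v} [NormedAddCommGroup G] [InnerProductSpace ℂ G] [CompleteSpace G]
  [NormedAddCommGroup K] [InnerProductSpace ℂ K] [CompleteSpace K]

/-- the pairs intertwined by `i` -/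
def alg (i : G →L[ℂ] K) : StarSubalgebra ℂ ((K →L[ℂ] K) × (G →L[ℂ] G)) where
  carrier := {p | p.1 ∘L i = i ∘L p.2 ∧ (star p.1) ∘L i = i ∘L (star p.2)}
  mul_mem' := by
    rintro ⟨a, b⟩ ⟨a', b'⟩ ⟨h1, h2⟩ ⟨h3, h4⟩
    simp only at h1 h2 h3 h4
    refine ⟨?_, ?_⟩
    · change (a ∘L a') ∘L i = i ∘L (b ∘L b')
      rw [ContinuousLinearMap.comp_assoc, h3, ← ContinuousLinearMap.comp_assoc, h1,
        ContinuousLinearMap.comp_assoc]
    · change (star (a * a')) ∘L i = i ∘L (star (b * b'))
      rw [star_mul, star_mul]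
      change (star a' ∘L star a) ∘L i = i ∘L (star b' ∘L star b)
      rw [ContinuousLinearMap.comp_assoc, h2, ← ContinuousLinearMap.comp_assoc, h4,
        ContinuousLinearMap.comp_assoc]
  add_mem' := by
    rintro ⟨a, b⟩ ⟨a', b'⟩ ⟨h1, h2⟩ ⟨h3, h4⟩
    simp only at h1 h2 h3 h4
    refine ⟨?_, ?_⟩
    · change (a + a') ∘L i = i ∘L (b + b')
      rw [ContinuousLinearMap.add_comp, ContinuousLinearMap.comp_add, h1, h3]
    · change (star (a + a')) ∘L i = i ∘L (star (b + b'))
      rw [star_add, star_add, ContinuousLinearMap.add_comp, ContinuousLinearMap.comp_add, h2, h4]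
  algebraMap_mem' := by
    intro c
    refine ⟨?_, ?_⟩
    · change (algebraMap ℂ (K →L[ℂ] K) c) ∘L i = i ∘L (algebraMap ℂ (G →L[ℂ] G) c)
      ext x
      simp [Algebra.algebraMap_eq_smul_one]
    · change (star (algebraMap ℂ (K →L[ℂ] K) c)) ∘L i = i ∘L (star (algebraMap ℂ (G →L[ℂ] G) c))
      rw [← algebraMap_star_comm, ← algebraMap_star_comm]
      ext x
      simp [Algebra.algebraMap_eq_smul_one]
  star_mem' := by
    rintro ⟨a, b⟩ ⟨h1, h2⟩
    refine ⟨h2, ?_⟩
    change (star (star a)) ∘L i = i ∘L (star (star b))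
    rw [star_star, star_star]
    exact h1

theorem isClosed_alg (i : G →L[ℂ] K) :
    IsClosed ((alg i : StarSubalgebra ℂ ((K →L[ℂ] K) × (G →L[ℂ] G))) :
      Set ((K →L[ℂ] K) × (G →L[ℂ] G))) := by
  have h1 : IsClosed {p : (K →L[ℂ] K) × (G →L[ℂ] G) | p.1 ∘L i = i ∘L p.2} :=
    isClosed_eq (by fun_prop) (by fun_prop)
  have h2 : IsClosed {p : (K →L[ℂ] K) × (G →L[ℂ] G) | (star p.1) ∘L i = i ∘L (star p.2)} :=
    isClosed_eq (by fun_prop) (by fun_prop)
  exact h1.inter h2

theorem cfc_inter (i : G →L[ℂ] K) (A' : K →L[ℂ] K) (A : G →L[ℂ] G) (h1 : A' ∘L i = i ∘L A)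
    (h2 : (star A') ∘L i = i ∘L (star A)) (hA' : IsStarNormal A') (hA : IsStarNormal A)
    (f : ℂ → ℂ) (hf : Continuous f) : (cfc f A') ∘L i = i ∘L (cfc f A) := by
  have hn : IsStarNormal ((A', A) : (K →L[ℂ] K) × (G →L[ℂ] G)) := by
    refine ⟨?_⟩
    change star (A', A) * (A', A) = (A', A) * star (A', A)
    exact Prod.ext hA'.star_comm_self hA.star_comm_self
  have : IsClosed ((alg i : StarSubalgebra ℂ ((K →L[ℂ] K) × (G →L[ℂ] G))) :
      Set ((K →L[ℂ] K) × (G →L[ℂ] G))) := isClosed_alg i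
  have h3 : cfc f ((A', A) : (K →L[ℂ] K) × (G →L[ℂ] G)) ∈ alg i :=
    cfc_mem (𝕜 := ℂ) (𝕜' := ℂ) f (s := alg i) ⟨h1, h2⟩
  rw [cfc_map_prod (S := ℂ) f A' A hf.continuousOn] at h3
  exact h3.1

end inter

section sums

variable {ι : Type} {G : ι → Type v} [∀ k, NormedAddCommGroup (G k)]
  [∀ k, InnerProductSpace ℂ (G k)] [∀ k, CompleteSpace (G k)] {K : Type v}
  [NormedAddCommGroup K] [InnerProductSpace ℂ K] [CompleteSpace K] {i : ∀ k, G k →L[ℂ] K}

/-- the isometries -/
noncomputable def iso (h : IsHS G K i) (k : ι) : G k →ₗᵢ[ℂ] K where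
  toLinearMap := (i k).toLinearMap
  norm_map' := by
    intro x
    change ‖i k x‖ = ‖x‖
    have h1 : ⟪i k x, i k x⟫_ℂ = ⟪x, x⟫_ℂ := by
      rw [← ContinuousLinearMap.adjoint_inner_right]
      have h2 : (ContinuousLinearMap.adjoint (i k)) (i k x) = x :=
        congrArg (fun T : G k →L[ℂ] G k => T x) (h.iso k)
      rw [h2]
    rw [inner_self_eq_norm_sq_to_K, inner_self_eq_norm_sq_to_K] at h1
    have h2 : ‖i k x‖ ^ 2 = ‖x‖ ^ 2 := by exact_mod_cast h1
    exact (sq_eq_sq₀ (norm_nonneg _) (norm_nonneg _)).1 h2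

theorem iso_apply (h : IsHS G K i) (k : ι) (x : G k) : iso h k x = i k x := rfl

theorem orth (h : IsHS G K i) : OrthogonalFamily ℂ G (iso h) := by
  intro k l hkl v w
  rw [iso_apply, iso_apply, ← ContinuousLinearMap.adjoint_inner_right]
  have h2 : (ContinuousLinearMap.adjoint (i k)) (i l w) = 0 :=
    congrArg (fun T : G l →L[ℂ] G k => T w) (h.ort k l hkl)
  rw [h2, inner_zero_right]

theorem ext_op (h : IsHS G K i) {S T : K →L[ℂ] K} (hST : ∀ k, S ∘L (i k) = T ∘L (i k)) :
    S = T := by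
  ext x
  have h1 := (h.sum x).mapL S
  have h2 := (h.sum x).mapL T
  have h3 : ∀ k, S (i k ((ContinuousLinearMap.adjoint (i k)) x)) =
      T (i k ((ContinuousLinearMap.adjoint (i k)) x)) := fun k =>
    congrArg (fun U : G k →L[ℂ] K => U ((ContinuousLinearMap.adjoint (i k)) x)) (hST k)
  simp only [h3] at h1
  exact h1.unique h2

theorem ext_vec (h : IsHS G K i) {x y : K}
    (hxy : ∀ k, (ContinuousLinearMap.adjoint (i k)) x = (ContinuousLinearMap.adjoint (i k)) y) :
    x = y := by
  have h1 := h.sum x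
  simp only [hxy] at h1
  exact h1.unique (h.sum y)

theorem star_inter (h : IsHS G K i) {A' : K →L[ℂ] K} {A : ∀ k, G k →L[ℂ] G k}
    (hA : ∀ k, A' ∘L (i k) = (i k) ∘L (A k)) (k : ι) :
    (star A') ∘L (i k) = (i k) ∘L (star (A k)) := by
  ext x
  refine ext_vec h fun l => ?_
  have h1 : ∀ (y : K), (ContinuousLinearMap.adjoint (i l)) (star A' y) =
      star (A l) ((ContinuousLinearMap.adjoint (i l)) y) := by
    intro y
    have h2 := congrArg ContinuousLinearMap.adjoint (hA l)
    rw [ContinuousLinearMap.adjoint_comp, ContinuousLinearMap.adjoint_comp] at h2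
    exact congrArg (fun U : K →L[ℂ] G l => U y) h2
  change (ContinuousLinearMap.adjoint (i l)) (star A' (i k x)) =
    (ContinuousLinearMap.adjoint (i l)) (i k (star (A k) x))
  rw [h1]
  by_cases hlk : l = k
  · subst hlk
    have h3 : ∀ z, (ContinuousLinearMap.adjoint (i l)) (i l z) = z := fun z =>
      congrArg (fun T : G l →L[ℂ] G l => T z) (h.iso l)
    rw [h3, h3]
  · have h3 : ∀ z, (ContinuousLinearMap.adjoint (i l)) (i k z) = 0 := fun z =>
      congrArg (fun T : G k →L[ℂ] G l => T z) (h.ort l k hlk)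
    rw [h3, h3, map_zero]

/-- the diagonal operator on `lp` -/
theorem diag (A : ∀ k, G k →L[ℂ] G k) (M : ℝ) (hM : ∀ k, ‖A k‖ ≤ M) :
    ∃ D : lp G 2 →L[ℂ] lp G 2, ∀ f k, D f k = A k (f k) := by
  have hM' : ∀ k (x : G k), ‖A k x‖ ≤ max M 0 * ‖x‖ := fun k x =>
    ((A k).le_opNorm x).trans (mul_le_mul_of_nonneg_right ((hM k).trans (le_max_left _ _))
      (norm_nonneg _))
  have hmem : ∀ f : lp G 2, Memℓp (fun k => A k (f k)) 2 := by
    intro f
    have h1 : Memℓp ((((max M 0 : ℝ) : ℂ) • f : lp G 2) : ∀ k, G k) 2 := lp.memℓp _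
    refine Memℓp.mono' h1 fun k => ?_
    rw [lp.coeFn_smul, Pi.smul_apply, norm_smul]
    have h2 : ‖((max M 0 : ℝ) : ℂ)‖ = max M 0 := by
      rw [Complex.norm_real, Real.norm_of_nonneg (le_max_right _ _)]
    rw [h2]
    exact hM' k _
  let L : lp G 2 →ₗ[ℂ] lp G 2 :=
    { toFun := fun f => ⟨fun k => A k (f k), hmem f⟩
      map_add' := by
        intro f g
        ext k
        change A k ((f + g : lp G 2) k) = A k (f k) + A k (g k)
        rw [lp.coeFn_add, Pi.add_apply, map_add]
      map_smul' := by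
        intro c f
        ext k
        change A k ((c • f : lp G 2) k) = c • A k (f k)
        rw [lp.coeFn_smul, Pi.smul_apply, map_smul] }
  refine ⟨L.mkContinuous (max M 0) fun f => ?_, fun f k => rfl⟩
  have h1 : ‖L f‖ ≤ ‖(((max M 0 : ℝ) : ℂ) • f : lp G 2)‖ := by
    refine lp.norm_mono (by norm_num) fun k => ?_
    rw [lp.coeFn_smul, Pi.smul_apply, norm_smul]
    have h2 : ‖((max M 0 : ℝ) : ℂ)‖ = max M 0 := by
      rw [Complex.norm_real, Real.norm_of_nonneg (le_max_right _ _)]
    rw [h2]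
    exact hM' k _
  refine h1.trans (le_of_eq ?_)
  rw [norm_smul, Complex.norm_real, Real.norm_of_nonneg (le_max_right _ _)]

end sums

end LPB

open LPB in
theorem blk_LPB : Stmt_LPB.{v} := by
  classical
  intro ι _ G _ _ _ K _ _ _ i h
  refine ⟨fun A M hM => ?_, fun A' A hA => ⟨star_inter h hA, fun hN => ?_⟩⟩
  · obtain ⟨D, hD⟩ := diag A M hM
    let V := (orth h).linearIsometry
    have hV : ∀ k (x : G k), V (lp.single 2 k x) = i k x := fun k x =>
      (orth h).linearIsometry_apply_single x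
    -- the inverse of `V`
    have hsurj : Function.Surjective V := by
      intro x
      have hs : Summable fun k => iso h k ((ContinuousLinearMap.adjoint (i k)) x) :=
        (h.sum x).summable
      rw [(orth h).summable_iff_norm_sq_summable] at hs
      have hm : Memℓp (fun k => (ContinuousLinearMap.adjoint (i k)) x) 2 := by
        refine memℓp_gen ?_
        convert! hs using 2
        norm_num
      refine ⟨⟨_, hm⟩, ?_⟩
      rw [(orth h).linearIsometry_apply]
      exact (h.sum x).tsum_eq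
    let e : lp G 2 ≃ₗᵢ[ℂ] K := LinearIsometryEquiv.ofSurjective V hsurj
    have he : ∀ k (x : G k), e (lp.single 2 k x) = i k x := hV
    refine ⟨(e : lp G 2 →L[ℂ] K) ∘L D ∘L (e.symm : K →L[ℂ] lp G 2), fun k => ?_⟩
    ext x
    change e (D (e.symm (i k x))) = i k (A k x)
    rw [← he k x, e.symm_apply_apply, ← he k (A k x)]
    congr 1
    ext l
    rw [hD]
    by_cases hl : l = k
    · subst hl
      rw [lp.single_apply_self, lp.single_apply_self]
    · rw [lp.single_apply_ne _ _ _ hl, lp.single_apply_ne _ _ _ hl, map_zero]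
  · have hs := star_inter h hA
    have hN' : IsStarNormal A' := by
      refine ⟨?_⟩
      change star A' * A' = A' * star A'
      refine ext_op h fun k => ?_
      change (star A' ∘L A') ∘L i k = (A' ∘L star A') ∘L i k
      rw [ContinuousLinearMap.comp_assoc, ContinuousLinearMap.comp_assoc, hA k, hs k,
        ← ContinuousLinearMap.comp_assoc, ← ContinuousLinearMap.comp_assoc, hA k, hs k,
        ContinuousLinearMap.comp_assoc, ContinuousLinearMap.comp_assoc]
      congr 1
      exact (hN k).star_comm_self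
    exact ⟨hN', fun f hf k => cfc_inter (i k) A' (A k) (hA k) (hs k) hN' (hN k) f hf⟩

end Pool.Q2
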