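import Pool.Agent.Work.MP_8c7e5b_q2.Interface2

/-!
# MP_8c7e5b_an, Q2: the block LPC
-/

open MeasureTheory Complex Filter Topology
open scoped ComplexOrder InnerProductSpace ComplexConjugate BoundedContinuousFunction

set_option autoImplicit false
set_option linter.unusedSectionVars false

universe v

namespace Pool.Q2

open Pool.Bes

namespace LPCAux

theorem norm_iso_le {G L : Type*} [NormedAddCommGroup G] [InnerProductSpace ℂ G]
    [CompleteSpace G] [NormedAddCommGroup L] [InnerProductSpace ℂ L] [CompleteSpace L]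
    (i : G →L[ℂ] L) (hi : ∀ x, (ContinuousLinearMap.adjoint i) (i x) = x) : ‖i‖ ≤ 1 := by
  refine ContinuousLinearMap.opNorm_le_bound _ zero_le_one fun x => ?_
  rw [one_mul]
  have h1 : ‖i x‖ ^ 2 = ‖x‖ ^ 2 := by
    have h2 : ⟪i x, i x⟫_ℂ = ⟪x, x⟫_ℂ := by
      rw [← ContinuousLinearMap.adjoint_inner_right, hi]
    rw [inner_self_eq_norm_sq_to_K, inner_self_eq_norm_sq_to_K] at h2
    exact_mod_cast h2
  exact le_of_sq_le_sq h1.le (norm_nonneg _)

end LPCAux

open LPCAux in
theorem blk_LPC (sTRN : Stmt_TRN.{v}) : Stmt_LPC.{v} := by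
  obtain ⟨sT, -, -⟩ := sTRN
  intro ι _ G _ _ _ K _ _ _ i hHS A' A hA hT hsum
  have hi : ∀ k (x : G k), (ContinuousLinearMap.adjoint (i k)) (i k x) = x := fun k x =>
    congrArg (fun T : G k →L[ℂ] G k => T x) (hHS.iso k)
  have ni : ∀ k, ‖i k‖ ≤ 1 := fun k => norm_iso_le (i k) (hi k)
  have nia : ∀ k, ‖ContinuousLinearMap.adjoint (i k)‖ ≤ 1 := fun k => by
    rw [LinearIsometryEquiv.norm_map]
    exact ni k
  have h1 : ∀ k, IsT ((i k) ∘L (A k) ∘L (ContinuousLinearMap.adjoint (i k))) := fun k =>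
    (sT (G k) K (i k) (ContinuousLinearMap.adjoint (i k)) (A k) (hT k)).1
  have h2 : ∀ k, n1 ((i k) ∘L (A k) ∘L (ContinuousLinearMap.adjoint (i k))) ≤ n1 (A k) := by
    intro k
    refine (sT (G k) K (i k) (ContinuousLinearMap.adjoint (i k)) (A k) (hT k)).2.1.trans ?_
    have h3 : ‖i k‖ * ‖ContinuousLinearMap.adjoint (i k)‖ ≤ 1 * 1 :=
      mul_le_mul (ni k) (nia k) (norm_nonneg _) zero_le_one
    have h4 := mul_le_mul_of_nonneg_right h3 (n1_nonneg (A k))
    linarith
  have h3 : ∀ k, trO ((i k) ∘L (A k) ∘L (ContinuousLinearMap.adjoint (i k))) = trO (A k) := by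
    intro k
    rw [(sT (G k) K (i k) (ContinuousLinearMap.adjoint (i k)) (A k) (hT k)).2.2, hHS.iso k]
    congr 1
  set D : ι → S1 K := fun k => toS ((i k) ∘L (A k) ∘L (ContinuousLinearMap.adjoint (i k))) with hD
  have h4 : Summable D := Summable.of_norm_bounded hsum h2
  obtain ⟨E, hE⟩ := h4
  have h5 : op E = A' := by
    refine ContinuousLinearMap.ext fun x => ?_
    have h6 : HasSum (fun k => (op (D k)) x) (op E x) :=
      (hE.mapL (op (H := K))).mapL (ContinuousLinearMap.apply ℂ K x)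
    have h7 : HasSum (fun k => A' (i k ((ContinuousLinearMap.adjoint (i k)) x))) (A' x) :=
      (hHS.sum x).mapL A'
    have h8 : (fun k => (op (D k)) x) =
        fun k => A' (i k ((ContinuousLinearMap.adjoint (i k)) x)) := by
      funext k
      rw [hD]
      simp only
      rw [op_toS (h1 k)]
      have h9 := congrArg (fun T : G k →L[ℂ] K => T ((ContinuousLinearMap.adjoint (i k)) x)) (hA k)
      exact h9.symm
    rw [h8] at h6
    exact h6.unique h7
  have h6 : IsT A' := ⟨E, h5⟩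
  refine ⟨h6, ?_⟩
  have h7 : trO A' = pr E 1 := by
    rw [trO, toS_eq h5]
    rfl
  rw [h7]
  have h8 : HasSum (fun k => pr (D k) 1) (pr E 1) := hE.mapL (ALGAux.prL (1 : K →L[ℂ] K))
  have h9 : (fun k => pr (D k) 1) = fun k => trO (A k) := by
    funext k
    rw [← h3 k]
    rfl
  rwa [h9] at h8

end Pool.Q2
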