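import Pool.Agent.Work.MP_8c7e5b_q2.Interface2

/-!
# MP_8c7e5b_an, Q2: block MIX
-/

open MeasureTheory Complex Filter Topology
open scoped ComplexOrder InnerProductSpace ComplexConjugate BoundedContinuousFunction

set_option autoImplicit false
set_option linter.unusedSectionVars false

universe v

namespace Pool.Q2

open Pool.Bes

namespace MIXAux

/-- The sum of the functions on disjoint intervals has small square integral. -/
theorem sq_integral (m : ℕ) (l u : Fin m → ℝ) (θ : Fin m → ℝ → ℝ) (ε : ℝ)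
    (hlu : ∀ j, l j < u j)
    (hdis : ∀ j j', j ≠ j' → Disjoint (Set.Ioo (l j) (u j)) (Set.Ioo (l j') (u j')))
    (hsum : ∑ j, (u j - l j) ≤ ε) (hc : ∀ j, Continuous (θ j))
    (h01 : ∀ j x, 0 ≤ θ j x ∧ θ j x ≤ 1) (h0 : ∀ j x, x ∉ Set.Ioo (l j) (u j) → θ j x = 0) :
    Integrable (fun x => ‖((∑ j, θ j x : ℝ) : ℂ)‖ ^ 2) ∧
      ∫ x, ‖((∑ j, θ j x : ℝ) : ℂ)‖ ^ 2 ≤ ε := by
  have hind : Integrable (fun x : ℝ => ∑ j, (Set.Ioo (l j) (u j)).indicator (fun _ => (1 : ℝ)) x) := by
    refine integrable_finsetSum _ fun j _ => ?_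
    exact (integrable_indicator_iff measurableSet_Ioo).2
      (integrableOn_const (by rw [Real.volume_Ioo]; exact ENNReal.ofReal_ne_top))
  have hpt : ∀ x, ‖((∑ j, θ j x : ℝ) : ℂ)‖ ^ 2 ≤
      ∑ j, (Set.Ioo (l j) (u j)).indicator (fun _ => (1 : ℝ)) x := by
    intro x
    rw [Complex.norm_real, Real.norm_of_nonneg (Finset.sum_nonneg fun j _ => (h01 j x).1)]
    by_cases hx : ∃ j, x ∈ Set.Ioo (l j) (u j)
    · obtain ⟨j, hj⟩ := hx
      have h1 : ∑ j', θ j' x = θ j x := by
        refine Finset.sum_eq_single j (fun j' _ hj' => ?_) (fun h => absurd (Finset.mem_univ j) h)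
        exact h0 j' x fun h => Set.disjoint_left.1 (hdis j' j hj') h hj
      have h2 : (Set.Ioo (l j) (u j)).indicator (fun _ => (1 : ℝ)) x ≤
          ∑ j, (Set.Ioo (l j) (u j)).indicator (fun _ => (1 : ℝ)) x :=
        Finset.single_le_sum (f := fun j => (Set.Ioo (l j) (u j)).indicator (fun _ => (1 : ℝ)) x)
          (fun j' _ => Set.indicator_nonneg (fun _ _ => zero_le_one) _) (Finset.mem_univ j)
      rw [Set.indicator_of_mem hj] at h2
      rw [h1]
      have h3 := h01 j x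
      nlinarith [h3.1, h3.2]
    · have h1 : ∑ j, θ j x = 0 :=
        Finset.sum_eq_zero fun j _ => h0 j x fun h => hx ⟨j, h⟩
      rw [h1, zero_pow two_ne_zero]
      exact Finset.sum_nonneg fun j _ => Set.indicator_nonneg (fun _ _ => zero_le_one) _
  have hcont : Continuous (fun x => ‖((∑ j, θ j x : ℝ) : ℂ)‖ ^ 2) := by
    refine (Complex.continuous_ofReal.comp (continuous_finsetSum _ fun j _ => hc j)).norm.pow 2
  have hint : Integrable (fun x => ‖((∑ j, θ j x : ℝ) : ℂ)‖ ^ 2) := by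
    refine hind.mono' hcont.aestronglyMeasurable (Eventually.of_forall fun x => ?_)
    rw [Real.norm_of_nonneg (by positivity)]
    exact hpt x
  refine ⟨hint, (integral_mono hint hind hpt).trans ?_⟩
  rw [integral_finsetSum]
  · refine le_trans (le_of_eq (Finset.sum_congr rfl fun j _ => ?_)) hsum
    rw [integral_indicator measurableSet_Ioo, setIntegral_const, smul_eq_mul, mul_one,
      Measure.real, Real.volume_Ioo, ENNReal.toReal_ofReal (by linarith [hlu j])]
  · intro j _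
    exact (integrable_indicator_iff measurableSet_Ioo).2
      (integrableOn_const (by rw [Real.volume_Ioo]; exact ENNReal.ofReal_ne_top))

section

variable {H : Type v} [NormedAddCommGroup H] [InnerProductSpace ℂ H] [CompleteSpace H]

theorem mul_r1 (T : H →L[ℂ] H) (x y : H) : T * r1 x y = r1 (T x) y := by
  ext z
  change T (⟪y, z⟫_ℂ • x) = ⟪y, z⟫_ℂ • T x
  rw [map_smul]

theorem r1_mul (T : H →L[ℂ] H) (x y : H) : r1 x y * T = r1 x (star T y) := by
  ext z
  change ⟪y, T z⟫_ℂ • x = ⟪star T y, z⟫_ℂ • x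
  rw [ContinuousLinearMap.star_eq_adjoint, ContinuousLinearMap.adjoint_inner_left]

theorem r1_sub_left (x x' y : H) : r1 (x - x') y = r1 x y - r1 x' y := by
  ext z
  change ⟪y, z⟫_ℂ • (x - x') = ⟪y, z⟫_ℂ • x - ⟪y, z⟫_ℂ • x'
  rw [smul_sub]

theorem r1_sub_right (x y y' : H) : r1 x (y - y') = r1 x y - r1 x y' := by
  ext z
  change ⟪y - y', z⟫_ℂ • x = ⟪y, z⟫_ℂ • x - ⟪y', z⟫_ℂ • x
  rw [inner_sub_left, sub_smul]

end

end MIXAux

open MIXAux

theorem blk_MIX : Stmt_KMA.{v} → Stmt_KMC.{v} → Stmt_PAC.{v} → Stmt_FEX.{v} → Stmt_SNG.{v} →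
    Stmt_CMM.{v} → Stmt_MIX.{v} := by
  intro hKMA hKMC hPAC hFEX hSNG hCMM H _ _ _ N K₀ e hN hK₀
  obtain ⟨k1, k2, k3, k4, k5, k6⟩ := hKMA H N hN
  obtain ⟨p1, p2, p3, p4, p5, p6, p7, p8, p9, p10, p11, p12, p13, p14, p15, p16, p17, p18⟩ :=
    hPAC H N e hN
  obtain ⟨f1, f2, f3, f4, f5, f6, f7, f8, f9, f10⟩ := hFEX H N e hN
  -- step 2
  have s2 : ∀ v ∈ (Hac N e)ᗮ, ∀ (m : ℝ) (u : H), 0 ≤ m → u ∈ Dn N e m →
      km N (r1 v u) ≤ 0 := by
    intro v hv m u hm hu
    have key : ∀ ε : ℝ, 0 < ε → km N (r1 v u) ≤ ε * ‖u‖ + ‖v‖ * (m * Real.sqrt ε) := by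
      intro ε hε
      obtain ⟨m', l, u', θ, hlu, hdis, hsum, hc, h01, h0, hv'⟩ :=
        hSNG H N e hN 1 (fun _ => v) (fun _ => hv) ε hε
      have hv1 := hv' 0
      obtain ⟨hint, hle⟩ := sq_integral m' l u' θ ε hlu hdis hsum hc h01 h0
      set g : ℝ → ℂ := fun x => ((∑ j, θ j x : ℝ) : ℂ) with hg
      have hgc : Continuous g :=
        Complex.continuous_ofReal.comp (continuous_finsetSum _ fun j _ => hc j)
      set T := fe e g N with hT
      have hTs : star T = T := by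
        rw [hT, f3 g hgc]
        congr 1
        funext x
        exact Complex.conj_ofReal _
      have e1 : r1 v u = r1 (v - T v) u + T * r1 v u := by
        rw [mul_r1, r1_sub_left, sub_add_cancel]
      have e2 : T * r1 v u = br T (r1 v u) + r1 v u * T := by
        rw [br, sub_add_cancel]
      have hTu : ‖T u‖ ≤ m * Real.sqrt ε := by
        have h1 := hu g hgc hint
        have h2 : ‖T u‖ ^ 2 ≤ (m * Real.sqrt ε) ^ 2 := by
          rw [mul_pow, Real.sq_sqrt hε.le]
          exact h1.trans (mul_le_mul_of_nonneg_left hle (by positivity))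
        exact le_of_sq_le_sq h2 (by positivity)
      have t1 : km N (r1 (v - T v) u) ≤ ε * ‖u‖ :=
        ((k1 _ (isT_r1 _ _)).2.1.trans (n1_r1_le _ _)).trans
          (mul_le_mul_of_nonneg_right hv1 (norm_nonneg _))
      have t2 : km N (br T (r1 v u)) = 0 := hKMC H N hN _ _ (isT_r1 _ _)
      have t3 : km N (r1 v u * T) ≤ ‖v‖ * (m * Real.sqrt ε) := by
        rw [r1_mul, hTs]
        exact ((k1 _ (isT_r1 _ _)).2.1.trans (n1_r1_le _ _)).trans
          (mul_le_mul_of_nonneg_left hTu (norm_nonneg _))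
      have hbr : IsT (br T (r1 v u)) :=
        ((isT_r1 v u).mul_left T).sub ((isT_r1 v u).mul_right T)
      calc km N (r1 v u) = km N (r1 (v - T v) u + T * r1 v u) := by rw [← e1]
        _ ≤ km N (r1 (v - T v) u) + km N (T * r1 v u) :=
          k2 _ _ (isT_r1 _ _) ((isT_r1 v u).mul_left T)
        _ ≤ km N (r1 (v - T v) u) + (km N (br T (r1 v u)) + km N (r1 v u * T)) := by
          gcongr
          rw [e2]
          exact k2 _ _ hbr ((isT_r1 v u).mul_right T)
        _ ≤ ε * ‖u‖ + ‖v‖ * (m * Real.sqrt ε) := by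
          rw [t2, zero_add]
          exact add_le_add t1 t3
    have hlim : Tendsto (fun ε : ℝ => ε * ‖u‖ + ‖v‖ * (m * Real.sqrt ε)) (𝓝[>] 0) (𝓝 0) := by
      have h1 : Tendsto (fun ε : ℝ => ε * ‖u‖ + ‖v‖ * (m * Real.sqrt ε)) (𝓝 0)
          (𝓝 (0 * ‖u‖ + ‖v‖ * (m * Real.sqrt 0))) :=
        Continuous.tendsto (by fun_prop) 0
      rw [Real.sqrt_zero, mul_zero, mul_zero, zero_mul, add_zero] at h1
      exact h1.mono_left nhdsWithin_le_nhds
    refine ge_of_tendsto hlim ?_
    filter_upwards [self_mem_nhdsWithin] with ε hε using key ε hε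
  -- step 1
  have s1 : ∀ x y : H, km N (Psg N e * r1 x y * Pac N e) ≤ 0 := by
    intro x y
    have hv : Psg N e x ∈ (Hac N e)ᗮ := p15 x
    have hu0 : Pac N e y ∈ Hac N e := p14 y
    have e1 : Psg N e * r1 x y * Pac N e = r1 (Psg N e x) (Pac N e y) := by
      rw [mul_r1, r1_mul, p1.star_eq]
    rw [e1]
    refine le_of_forall_pos_le_add fun ε hε => ?_
    obtain ⟨m, u, hm, hu, hd⟩ := p16 _ hu0 (ε / (‖Psg N e x‖ + 1)) (by positivity)
    have e2 : r1 (Psg N e x) (Pac N e y) =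
        r1 (Psg N e x) (Pac N e y - u) + r1 (Psg N e x) u := by
      rw [r1_sub_right, sub_add_cancel]
    rw [e2]
    refine (k2 _ _ (isT_r1 _ _) (isT_r1 _ _)).trans ?_
    have h1 : km N (r1 (Psg N e x) (Pac N e y - u)) ≤ ε := by
      refine ((k1 _ (isT_r1 _ _)).2.1.trans (n1_r1_le _ _)).trans ?_
      have h2 : ‖Psg N e x‖ * ‖Pac N e y - u‖ ≤ ‖Psg N e x‖ * (ε / (‖Psg N e x‖ + 1)) :=
        mul_le_mul_of_nonneg_left hd.le (norm_nonneg _)
      refine h2.trans ?_
      rw [mul_div_assoc', div_le_iff₀ (by positivity)]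
      nlinarith [norm_nonneg (Psg N e x)]
    have h2 := s2 _ hv m u hm hu
    linarith
  -- step 0
  have s0 : ∀ K : H →L[ℂ] H, IsT K → km N (Psg N e * K * Pac N e) = 0 := by
    intro K hK
    have hT : ∀ X : H →L[ℂ] H, IsT X → IsT (Psg N e * X * Pac N e) := fun X hX =>
      (hX.mul_left _).mul_right _
    refine le_antisymm ?_ (k1 _ (hT K hK)).1
    refine le_of_forall_pos_le_add fun ε hε => ?_
    obtain ⟨n, x, y, hxy⟩ := exists_fin_near hK ε hε
    have hs : IsT (∑ i, r1 (x i) (y i)) := IsT.sum _ _ fun i _ => isT_r1 _ _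
    have e1 : Psg N e * K * Pac N e = Psg N e * (K - ∑ i, r1 (x i) (y i)) * Pac N e +
        Psg N e * (∑ i, r1 (x i) (y i)) * Pac N e := by
      rw [mul_sub, sub_mul, sub_add_cancel]
    have b1 : km N (Psg N e * (K - ∑ i, r1 (x i) (y i)) * Pac N e) ≤ ε := by
      have h3 := hK.sub hs
      refine (k1 _ (hT _ h3)).2.1.trans ?_
      refine (n1_mul_right_le _ (h3.mul_left _)).trans ?_
      have h4 := n1_mul_left_le (Psg N e) h3
      have h5 : ‖Psg N e‖ * n1 (K - ∑ i, r1 (x i) (y i)) ≤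
          1 * n1 (K - ∑ i, r1 (x i) (y i)) := mul_le_mul_of_nonneg_right p9 (n1_nonneg _)
      have h6 : ‖Pac N e‖ * n1 (Psg N e * (K - ∑ i, r1 (x i) (y i))) ≤
          1 * n1 (Psg N e * (K - ∑ i, r1 (x i) (y i))) :=
        mul_le_mul_of_nonneg_right p8 (n1_nonneg _)
      linarith
    have b2 : km N (Psg N e * (∑ i, r1 (x i) (y i)) * Pac N e) ≤ 0 := by
      have h3 : ∀ s : Finset (Fin n), km N (Psg N e * (∑ i ∈ s, r1 (x i) (y i)) * Pac N e) ≤ 0 := by
        intro s
        classical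
        induction s using Finset.induction_on with
        | empty =>
          rw [Finset.sum_empty, mul_zero, zero_mul]
          refine (k1 _ isT_zero).2.1.trans ?_
          rw [n1_zero]
        | insert a s ha ih =>
          rw [Finset.sum_insert ha, mul_add, add_mul]
          refine (k2 _ _ (hT _ (isT_r1 _ _)) (hT _ (IsT.sum _ _ fun i _ => isT_r1 _ _))).trans ?_
          have h4 := s1 (x a) (y a)
          linarith
      exact h3 Finset.univ
    have b3 : km N (Psg N e * K * Pac N e) ≤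
        km N (Psg N e * (K - ∑ i, r1 (x i) (y i)) * Pac N e) +
          km N (Psg N e * (∑ i, r1 (x i) (y i)) * Pac N e) := by
      rw [e1]
      exact k2 _ _ (hT _ (hK.sub hs)) (hT _ hs)
    linarith
  refine ⟨s0 K₀ hK₀, ?_⟩
  have e1 : Pac N e * K₀ * Psg N e = star (Psg N e * star K₀ * Pac N e) := by
    rw [star_mul, star_mul, star_star, p1.star_eq, p3.star_eq, mul_assoc]
  rw [e1, k6 _ ((hK₀.star.mul_left _).mul_right _)]
  exact s0 _ hK₀.star

end Pool.Q2
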