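import Pool.Agent.Work.MP_8c7e5b_q2.Interface2

/-!
# MP_8c7e5b_an, Q2: block NUC (nuclear expansion of a trace class operator)
-/

open MeasureTheory Complex Filter Topology
open scoped ComplexOrder InnerProductSpace ComplexConjugate BoundedContinuousFunction

set_option autoImplicit false
set_option linter.unusedSectionVars false

universe v

namespace Pool.Q2

open Pool.Bes Pool.Bes.ALGAux

namespace NUCAux

variable {H : Type v} [NormedAddCommGroup H] [InnerProductSpace ℂ H] [CompleteSpace H]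

theorem countable_of_orthonormal [TopologicalSpace.SeparableSpace H] {ι : Type v} (b : ι → H)
    (hb : Orthonormal ℂ b) : Countable ι := by
  have hd : Pairwise (Function.onFun Disjoint fun i : ι => Metric.ball (b i) (1 / 2)) := by
    intro i j hij
    refine Metric.ball_disjoint_ball ?_
    rw [dist_eq_norm]
    have h1 := norm_sub_sq (𝕜 := ℂ) (b i) (b j)
    rw [hb.2 hij, hb.1 i, hb.1 j] at h1
    have h2 : ‖b i - b j‖ ^ 2 = 2 := by
      rw [h1]
      simp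
      norm_num
    nlinarith [norm_nonneg (b i - b j)]
  refine hd.countable_of_isOpen_disjoint (fun i => Metric.isOpen_ball) fun i => ?_
  exact ⟨b i, Metric.mem_ball_self (by norm_num)⟩

theorem norm_proj_le {ι : Type v} (b : ι → H) (hb : Orthonormal ℂ b) (F : Finset ι) :
    ‖∑ i ∈ F, r1 (b i) (b i)‖ ≤ 1 := by
  refine ContinuousLinearMap.opNorm_le_bound _ zero_le_one fun z => ?_
  have h1 : (∑ i ∈ F, r1 (b i) (b i)) z = ∑ i ∈ F, ⟪b i, z⟫_ℂ • b i := by
    rw [_root_.sum_apply]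
    rfl
  rw [h1, one_mul]
  have h2 : ⟪∑ i ∈ F, ⟪b i, z⟫_ℂ • b i, ∑ i ∈ F, ⟪b i, z⟫_ℂ • b i⟫_ℂ =
      ((∑ i ∈ F, ‖⟪b i, z⟫_ℂ‖ ^ 2 : ℝ) : ℂ) := by
    rw [hb.inner_sum]
    push_cast
    refine Finset.sum_congr rfl fun i _ => ?_
    rw [← Complex.conj_mul']
  have h3 : ‖∑ i ∈ F, ⟪b i, z⟫_ℂ • b i‖ ^ 2 = ∑ i ∈ F, ‖⟪b i, z⟫_ℂ‖ ^ 2 := by
    have h4 := inner_self_eq_norm_sq_to_K (𝕜 := ℂ) (∑ i ∈ F, ⟪b i, z⟫_ℂ • b i)
    rw [h2] at h4
    have h5 : ((∑ i ∈ F, ‖⟪b i, z⟫_ℂ‖ ^ 2 : ℝ) : ℂ) =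
        ((‖∑ i ∈ F, ⟪b i, z⟫_ℂ • b i‖ ^ 2 : ℝ) : ℂ) := by
      rw [h4]
      push_cast
      rfl
    exact_mod_cast h5.symm
  have h6 : ∑ i ∈ F, ‖⟪b i, z⟫_ℂ‖ ^ 2 ≤ ‖z‖ ^ 2 := hb.sum_inner_products_le z
  rw [← h3] at h6
  exact le_of_sq_le_sq h6 (norm_nonneg z)

theorem extend_zero_eq {ι A : Type*} {B C : Type*} [Zero A] [Zero B] [Zero C] (e : ι → ℕ)
    (he : Function.Injective e) (f : ι → A) (g : ι → B) (F : A → B → C) (hF : F 0 0 = 0) :
    (fun k => F (Function.extend e f 0 k) (Function.extend e g 0 k)) =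
      Function.extend e (fun i => F (f i) (g i)) 0 := by
  funext k
  by_cases hk : ∃ i, e i = k
  · obtain ⟨i, rfl⟩ := hk
    rw [he.extend_apply, he.extend_apply, he.extend_apply]
  · rw [Function.extend_apply' _ _ _ hk, Function.extend_apply' _ _ _ hk,
      Function.extend_apply' _ _ _ hk]
    exact hF

end NUCAux

open NUCAux

theorem blk_NUC : Stmt_NUC.{v} := by
  intro H _ _ _ _ T hT
  obtain ⟨W, ω, hW, hpos, h1, h2⟩ := sPol H (toS T)
  have hT2 : T = W * op ω := by rw [← op_lm, ← h1, op_toS hT]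
  have hωn : ‖ω‖ ≤ n1 T := by
    have h3 : ‖ω‖ ≤ ‖star W‖ * ‖toS T‖ := by
      conv_lhs => rw [h2]
      exact norm_lm_le _ _
    rw [norm_star] at h3
    calc ‖ω‖ ≤ ‖W‖ * ‖toS T‖ := h3
      _ ≤ 1 * ‖toS T‖ := by gcongr
      _ = n1 T := by rw [one_mul, n1]
  have hop : (0 : H →L[ℂ] H) ≤ op ω := (sPos H ω hpos).2.1
  set S : H →L[ℂ] H := CFC.sqrt (op ω) with hS
  have hSS : S * S = op ω := CFC.sqrt_mul_sqrt_self (op ω) hop
  have hSsa : star S = S := (IsSelfAdjoint.of_nonneg (CFC.sqrt_nonneg (op ω))).star_eq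
  have hSin : ∀ a c : H, ⟪S a, c⟫_ℂ = ⟪a, S c⟫_ℂ := by
    intro a c
    have h3 := ContinuousLinearMap.adjoint_inner_right S a c
    rw [← ContinuousLinearMap.star_eq_adjoint, hSsa] at h3
    exact h3.symm
  obtain ⟨w, b, hb⟩ := exists_hilbertBasis ℂ H
  have hon : Orthonormal ℂ (fun i : w => b i) := b.orthonormal
  have : Countable w := countable_of_orthonormal (fun i : w => b i) hon
  obtain ⟨enc, henc⟩ := exists_injective_nat w
  -- the sum of the squares
  have hsq : ∀ i : w, ((‖S (b i)‖ ^ 2 : ℝ) : ℂ) = pr ω (r1 (b i) (b i)) := by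
    intro i
    rw [← inner_op, ← hSS]
    have h3 : (S * S) (b i) = S (S (b i)) := rfl
    rw [h3, ← hSin, inner_self_eq_norm_sq_to_K]
    push_cast
    rfl
  have hfin : ∀ F : Finset w, ∑ i ∈ F, ‖S (b i)‖ ^ 2 ≤ n1 T := by
    intro F
    have h3 : ((∑ i ∈ F, ‖S (b i)‖ ^ 2 : ℝ) : ℂ) = pr ω (∑ i ∈ F, r1 (b i) (b i)) := by
      have h4 : pr ω (∑ i ∈ F, r1 (b i) (b i)) = ∑ i ∈ F, pr ω (r1 (b i) (b i)) := by
        unfold pr
        rw [map_sum]
      rw [h4]
      push_cast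
      refine Finset.sum_congr rfl fun i _ => ?_
      rw [← hsq i]
      push_cast
      rfl
    have h5 : ‖((∑ i ∈ F, ‖S (b i)‖ ^ 2 : ℝ) : ℂ)‖ ≤ ‖ω‖ * 1 := by
      rw [h3]
      refine (norm_pr_le ω _).trans ?_
      exact mul_le_mul_of_nonneg_left (norm_proj_le (fun i : w => b i) hon F) (norm_nonneg _)
    rw [Complex.norm_real, Real.norm_of_nonneg (Finset.sum_nonneg fun i _ => by positivity),
      mul_one] at h5
    exact h5.trans hωn
  have hsum : Summable fun i : w => ‖S (b i)‖ ^ 2 :=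
    summable_of_sum_le (fun i => by positivity) hfin
  have hle : ∀ i : w, ‖W (S (b i))‖ * ‖S (b i)‖ ≤ ‖S (b i)‖ ^ 2 := by
    intro i
    have h3 : ‖W (S (b i))‖ ≤ ‖S (b i)‖ := by
      refine (W.le_opNorm _).trans ?_
      calc ‖W‖ * ‖S (b i)‖ ≤ 1 * ‖S (b i)‖ := by gcongr
        _ = ‖S (b i)‖ := one_mul _
    nlinarith [norm_nonneg (S (b i))]
  have hsum2 : Summable fun i : w => ‖W (S (b i))‖ * ‖S (b i)‖ :=
    Summable.of_nonneg_of_le (fun i => by positivity) hle hsum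
  have htsum : ∑' i : w, ‖W (S (b i))‖ * ‖S (b i)‖ ≤ n1 T :=
    (hsum2.tsum_le_tsum hle hsum).trans (hsum.tsum_le_of_sum_le hfin)
  refine ⟨Function.extend enc (fun i : w => W (S (b i))) 0,
    Function.extend enc (fun i : w => S (b i)) 0, ?_, ?_, ?_⟩
  · rw [extend_zero_eq enc henc (fun i : w => W (S (b i))) (fun i : w => S (b i))
      (fun x y : H => ‖x‖ * ‖y‖) (by simp)]
    exact (summable_extend_zero henc).2 hsum2
  · rw [extend_zero_eq enc henc (fun i : w => W (S (b i))) (fun i : w => S (b i))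
      (fun x y : H => ‖x‖ * ‖y‖) (by simp), tsum_extend_zero henc]
    exact htsum
  · intro z
    rw [extend_zero_eq enc henc (fun i : w => W (S (b i))) (fun i : w => S (b i))
      (fun x y : H => ⟪y, z⟫_ℂ • x) (by simp), hasSum_extend_zero henc]
    have h3 := (b.hasSum_repr (S z)).mapL (W * S)
    have h4 : (W * S) (S z) = T z := by
      rw [hT2, ← hSS]
      rfl
    rw [h4] at h3
    have h5 : (fun i : w => ⟪S (b i), z⟫_ℂ • W (S (b i))) =
        fun i : w => (W * S) ((b.repr (S z) i : ℂ) • b i) := by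
      funext i
      rw [map_smul, b.repr_apply_apply, hSin]
      rfl
    rw [h5]
    exact h3


end Pool.Q2
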