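import Pool.Agent.Work.MP_8c7e5b_q2.Interface2

/-! # Block PAC: the projections onto the absolutely continuous and the singular subspace -/

open MeasureTheory Complex Filter Topology
open scoped ComplexOrder InnerProductSpace ComplexConjugate BoundedContinuousFunction

set_option autoImplicit false
set_option linter.unusedSectionVars false

universe v

namespace Pool.Q2

open Pool.Bes

namespace PACAux

variable {H : Type v} [NormedAddCommGroup H] [InnerProductSpace ℂ H] [CompleteSpace H]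

theorem bound_of_mem {N : H →L[ℂ] H} {e : ℂ} {m : ℝ} {φ : H} (hm : 0 ≤ m) (h : φ ∈ Dn N e m)
    {g : ℝ → ℂ} (hg : Continuous g) (hi : Integrable (fun x => ‖g x‖ ^ 2)) :
    ‖fe e g N φ‖ ≤ m * Real.sqrt (∫ x, ‖g x‖ ^ 2) := by
  have h0 : 0 ≤ ∫ x, ‖g x‖ ^ 2 := integral_nonneg fun x => by positivity
  refine abs_le_of_sq_le_sq' ?_ (by positivity) |>.2
  rw [mul_pow, Real.sq_sqrt h0]
  exact h g hg hi

theorem mem_of_bound {N : H →L[ℂ] H} {e : ℂ} {m : ℝ} {φ : H}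
    (h : ∀ g : ℝ → ℂ, Continuous g → Integrable (fun x => ‖g x‖ ^ 2) →
      ‖fe e g N φ‖ ≤ m * Real.sqrt (∫ x, ‖g x‖ ^ 2)) : φ ∈ Dn N e m := by
  intro g hg hi
  have h0 : 0 ≤ ∫ x, ‖g x‖ ^ 2 := integral_nonneg fun x => by positivity
  have h1 := h g hg hi
  have h2 : ‖fe e g N φ‖ ^ 2 ≤ (m * Real.sqrt (∫ x, ‖g x‖ ^ 2)) ^ 2 :=
    pow_le_pow_left₀ (norm_nonneg _) h1 2
  rwa [mul_pow, Real.sq_sqrt h0] at h2

theorem dn_add {N : H →L[ℂ] H} {e : ℂ} {m m' : ℝ} {φ φ' : H} (hm : 0 ≤ m) (hm' : 0 ≤ m')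
    (h : φ ∈ Dn N e m) (h' : φ' ∈ Dn N e m') : φ + φ' ∈ Dn N e (m + m') := by
  refine mem_of_bound fun g hg hi => ?_
  rw [map_add, add_mul]
  exact (norm_add_le _ _).trans (add_le_add (bound_of_mem hm h hg hi) (bound_of_mem hm' h' hg hi))

theorem dn_smul {N : H →L[ℂ] H} {e : ℂ} {m : ℝ} {φ : H} (a : ℂ) (hm : 0 ≤ m)
    (h : φ ∈ Dn N e m) : a • φ ∈ Dn N e (‖a‖ * m) := by
  refine mem_of_bound fun g hg hi => ?_
  rw [map_smul, norm_smul, mul_assoc]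
  exact mul_le_mul_of_nonneg_left (bound_of_mem hm h hg hi) (norm_nonneg _)

theorem dn_map {N : H →L[ℂ] H} {e : ℂ} {m : ℝ} {φ : H} (S : H →L[ℂ] H)
    (hS : ∀ f : ℂ → ℂ, cfc f N * S = S * cfc f N) (hm : 0 ≤ m)
    (h : φ ∈ Dn N e m) : S φ ∈ Dn N e (‖S‖ * m) := by
  refine mem_of_bound fun g hg hi => ?_
  have h1 : fe e g N (S φ) = S (fe e g N φ) := by
    have h2 := congrArg (fun T : H →L[ℂ] H => T φ) (hS (fun z : ℂ => g (ip e z)))
    exact h2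
  rw [h1, mul_assoc]
  exact (S.le_opNorm _).trans (mul_le_mul_of_nonneg_left (bound_of_mem hm h hg hi) (norm_nonneg _))

theorem dn_zero (N : H →L[ℂ] H) (e : ℂ) : (0 : H) ∈ Dn N e 0 := by
  refine mem_of_bound fun g hg hi => ?_
  simp

theorem dn_abs {N : H →L[ℂ] H} {e : ℂ} {m : ℝ} {φ : H} (h : φ ∈ Dn N e m) :
    φ ∈ Dn N e |m| := by
  intro g hg hi
  rw [sq_abs]
  exact h g hg hi

theorem exists_of_mem_span {N : H →L[ℂ] H} {e : ℂ} {φ : H}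
    (h : φ ∈ Submodule.span ℂ (⋃ m : ℝ, Dn N e m)) : ∃ m : ℝ, 0 ≤ m ∧ φ ∈ Dn N e m := by
  refine Submodule.span_induction (p := fun φ _ => ∃ m : ℝ, 0 ≤ m ∧ φ ∈ Dn N e m) ?_ ?_ ?_ ?_ h
  · intro x hx
    obtain ⟨m, hm⟩ := Set.mem_iUnion.1 hx
    exact ⟨|m|, abs_nonneg _, dn_abs hm⟩
  · exact ⟨0, le_rfl, dn_zero N e⟩
  · rintro x y _ _ ⟨m, hm, hx⟩ ⟨m', hm', hy⟩
    exact ⟨m + m', by positivity, dn_add hm hm' hx hy⟩
  · rintro a x _ ⟨m, hm, hx⟩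
    exact ⟨‖a‖ * m, by positivity, dn_smul a hm hx⟩

theorem map_Hac {N : H →L[ℂ] H} {e : ℂ} (S : H →L[ℂ] H)
    (hS : ∀ f : ℂ → ℂ, cfc f N * S = S * cfc f N) {ψ : H} (h : ψ ∈ Hac N e) :
    S ψ ∈ Hac N e := by
  unfold Hac at h ⊢
  rw [← SetLike.mem_coe, Submodule.topologicalClosure_coe] at h ⊢
  refine map_mem_closure S.continuous h fun x hx => ?_
  obtain ⟨m, hm, hx'⟩ := exists_of_mem_span hx
  exact Submodule.subset_span (Set.mem_iUnion.2 ⟨_, dn_map S hS hm hx'⟩)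

theorem Pac_mem (N : H →L[ℂ] H) (e : ℂ) (ψ : H) : Pac N e ψ ∈ Hac N e :=
  (Hac N e).starProjection_apply_mem ψ

theorem Pac_eq_self_iff (N : H →L[ℂ] H) (e : ℂ) (ψ : H) : ψ ∈ Hac N e ↔ Pac N e ψ = ψ :=
  (Submodule.starProjection_eq_self_iff (K := Hac N e) (v := ψ)).symm

theorem Pac_sa (N : H →L[ℂ] H) (e : ℂ) : IsSelfAdjoint (Pac N e) :=
  isSelfAdjoint_starProjection _

theorem Pac_idem (N : H →L[ℂ] H) (e : ℂ) : Pac N e * Pac N e = Pac N e :=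
  (Hac N e).isIdempotentElem_starProjection

theorem norm_Pac (N : H →L[ℂ] H) (e : ℂ) : ‖Pac N e‖ ≤ 1 := (Hac N e).starProjection_norm_le

theorem Psg_sa (N : H →L[ℂ] H) (e : ℂ) : IsSelfAdjoint (Psg N e) :=
  (IsSelfAdjoint.one _).sub (Pac_sa N e)

theorem Psg_idem (N : H →L[ℂ] H) (e : ℂ) : Psg N e * Psg N e = Psg N e := by
  have h := Pac_idem N e
  unfold Psg
  rw [mul_sub, mul_one, sub_mul, one_mul, h, sub_self, sub_zero]

theorem Pac_Psg (N : H →L[ℂ] H) (e : ℂ) : Pac N e * Psg N e = 0 := by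
  have h := Pac_idem N e
  unfold Psg
  rw [mul_sub, mul_one, h, sub_self]

theorem Psg_Pac (N : H →L[ℂ] H) (e : ℂ) : Psg N e * Pac N e = 0 := by
  have h := Pac_idem N e
  unfold Psg
  rw [sub_mul, one_mul, h, sub_self]

theorem Pac_add_Psg (N : H →L[ℂ] H) (e : ℂ) : Pac N e + Psg N e = 1 := by
  unfold Psg; abel

theorem norm_le_one_of_proj {P : H →L[ℂ] H} (hsa : IsSelfAdjoint P) (hid : P * P = P) :
    ‖P‖ ≤ 1 := by
  refine ContinuousLinearMap.opNorm_le_bound _ zero_le_one fun x => ?_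
  rw [one_mul]
  have h1 : ⟪P x, P x⟫_ℂ = ⟪x, P x⟫_ℂ := by
    have h2 : ⟪P x, P x⟫_ℂ = ⟪x, P (P x)⟫_ℂ := by
      have h3 := ContinuousLinearMap.adjoint_inner_left P (P x) x
      have h4 : ContinuousLinearMap.adjoint P = P := hsa
      rw [h4] at h3
      exact h3
    have h5 : P (P x) = P x := congrArg (fun T : H →L[ℂ] H => T x) hid
    rw [h2, h5]
  have h6 : ‖P x‖ ^ 2 ≤ ‖x‖ * ‖P x‖ := by
    have h7 : ((‖P x‖ ^ 2 : ℝ) : ℂ) = ⟪x, P x⟫_ℂ := by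
      rw [← h1, inner_self_eq_norm_sq_to_K]; norm_cast
    have h8 : ‖((‖P x‖ ^ 2 : ℝ) : ℂ)‖ ≤ ‖x‖ * ‖P x‖ := by
      rw [h7]; exact norm_inner_le_norm _ _
    rwa [Complex.norm_real, Real.norm_of_nonneg (by positivity)] at h8
  by_cases h0 : ‖P x‖ = 0
  · rw [h0]; exact norm_nonneg _
  · have hpos : 0 < ‖P x‖ := lt_of_le_of_ne (norm_nonneg _) (Ne.symm h0)
    rw [sq] at h6
    exact le_of_mul_le_mul_right h6 hpos

theorem norm_Psg (N : H →L[ℂ] H) (e : ℂ) : ‖Psg N e‖ ≤ 1 :=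
  norm_le_one_of_proj (Psg_sa N e) (Psg_idem N e)

theorem Psg_mem (N : H →L[ℂ] H) (e : ℂ) (ψ : H) : Psg N e ψ ∈ (Hac N e)ᗮ :=
  (Hac N e).sub_starProjection_mem_orthogonal ψ

theorem PSP {N : H →L[ℂ] H} {e : ℂ} (S : H →L[ℂ] H)
    (hS : ∀ f : ℂ → ℂ, cfc f N * S = S * cfc f N) :
    Pac N e * (S * Pac N e) = S * Pac N e := by
  ext x
  exact (Pac_eq_self_iff N e _).1 (map_Hac S hS (Pac_mem N e x))

theorem comm_Pac {N : H →L[ℂ] H} {e : ℂ} (S : H →L[ℂ] H)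
    (hS : ∀ f : ℂ → ℂ, cfc f N * S = S * cfc f N)
    (hS' : ∀ f : ℂ → ℂ, cfc f N * star S = star S * cfc f N) :
    Pac N e * S = S * Pac N e := by
  have h1 := PSP (e := e) S hS
  have h2 := congrArg star (PSP (e := e) (star S) hS')
  have h3 : star (Pac N e) = Pac N e := Pac_sa N e
  rw [star_mul, star_mul, star_star, h3, mul_assoc] at h2
  rw [← h2, h1]

end PACAux

open PACAux in
theorem blk_PAC (hCMM : Stmt_CMM.{v}) (_hFEX : Stmt_FEX.{v}) : Stmt_PAC.{v} := by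
  intro H _ _ _ N e hN
  obtain ⟨hC, hcf, -, -, -, -, -⟩ := hCMM H N hN
  have hcomm : ∀ S : H →L[ℂ] H, Cm N S → Pac N e * S = S * Pac N e :=
    fun S hS => comm_Pac S (hC S hS).2.2.1 (hC (star S) (hC S hS).2.2.2).2.2.1
  have hcomm' : ∀ S : H →L[ℂ] H, Cm N S → Psg N e * S = S * Psg N e := by
    intro S hS
    have h := hcomm S hS
    unfold Psg
    rw [sub_mul, mul_sub, h, one_mul, mul_one]
  have hCmN : Cm N N ∧ Cm N (star N) := by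
    have h1 : star N * N = N * star N := hN.star_comm_self
    exact ⟨⟨rfl, h1⟩, ⟨h1.symm, rfl⟩⟩
  refine ⟨Pac_sa N e, Pac_idem N e, Psg_sa N e, Psg_idem N e, Pac_add_Psg N e, Pac_Psg N e,
    Psg_Pac N e, norm_Pac N e, norm_Psg N e, fun S hS => ⟨hcomm S hS, hcomm' S hS⟩,
    ⟨(hcomm N hCmN.1).symm, (hcomm _ hCmN.2).symm⟩,
    ⟨(hcomm' N hCmN.1).symm, (hcomm' _ hCmN.2).symm⟩, Pac_eq_self_iff N e, Pac_mem N e,
    Psg_mem N e, ?_, fun m m' φ φ' hm hm' h h' => dn_add hm hm' h h',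
    fun m S φ hm hS h => dn_map S (hC S hS).2.2.1 hm h⟩
  intro ψ hψ ε hε
  unfold Hac at hψ
  rw [← SetLike.mem_coe, Submodule.topologicalClosure_coe, Metric.mem_closure_iff] at hψ
  obtain ⟨φ, hφ, hd⟩ := hψ ε hε
  obtain ⟨m, hm, hφ'⟩ := exists_of_mem_span hφ
  exact ⟨m, φ, hm, hφ', by rwa [← dist_eq_norm]⟩

end Pool.Q2
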