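import Pool.Agent.Work.MP_8c7e5b_q2.Interface

/-!
# MP_8c7e5b_an, Q2: block PHA
-/

open MeasureTheory Complex Filter Topology
open scoped ComplexOrder InnerProductSpace ComplexConjugate BoundedContinuousFunction

set_option autoImplicit false
set_option linter.unusedSectionVars false

universe v

namespace Pool.Q2

open Pool.Bes

namespace PHAAux

open ALGAux AVAux DUAux

section parts

variable {E : Type*} [NormedAddCommGroup E] [NormedSpace ℝ E] [CompleteSpace E]

/-- integration by parts against the Gaussian -/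
theorem parts {r : ℝ} (hr : 0 < r) (e : ℂ) (M M' : ℝ) (u u' : ℂ → E) (huc : Continuous u)
    (hu'c : Continuous u') (hun : ∀ s, ‖u s‖ ≤ M) (hun' : ∀ s, ‖u' s‖ ≤ M')
    (hline : ∀ s, HasLineDerivAt ℝ u (u' s) s e) :
    ‖∫ s : ℂ, gam r s • u' s‖ ≤ ‖e‖ * M / r := by
  have hM : 0 ≤ M := (norm_nonneg _).trans (hun 0)
  have hparts := integral_bilinear_hasLineDerivAt_right_eq_neg_left_of_integrable
    (μ := (volume : Measure ℂ)) (f := gam r) (f' := fun s => -(ip e s / r ^ 2 * gam r s))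
    (g := u) (g' := u') (v := e)
    (B := ContinuousLinearMap.lsmul ℝ ℝ) ?_ ?_ ?_ ?_ ?_
  · simp only [ContinuousLinearMap.lsmul_apply] at hparts
    rw [hparts, norm_neg]
    have hi : Integrable fun s : ℂ => M / r ^ 2 * (|ip e s| * gam r s) := by
      refine Integrable.const_mul ?_ _
      refine (integrable_ip_gam hr e).norm.congr (ae_of_all _ fun s => ?_)
      change ‖ip e s * gam r s‖ = _
      rw [norm_mul, Real.norm_of_nonneg (WTB.gam_nonneg r s), Real.norm_eq_abs]
    refine (norm_integral_le_of_norm_le hi (ae_of_all _ fun s => ?_)).trans ?_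
    · rw [norm_smul, norm_neg, norm_mul, norm_div, Real.norm_of_nonneg (WTB.gam_nonneg r s),
        Real.norm_eq_abs, Real.norm_of_nonneg (by positivity : 0 ≤ r ^ 2)]
      calc |ip e s| / r ^ 2 * gam r s * ‖u s‖ ≤ |ip e s| / r ^ 2 * gam r s * M := by
            have := WTB.gam_nonneg r s
            gcongr
            exact hun s
        _ = _ := by ring
    · rw [integral_const_mul]
      calc M / r ^ 2 * ∫ s : ℂ, |ip e s| * gam r s ≤ M / r ^ 2 * (‖e‖ * r) := by
            gcongr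
            exact integral_abs_ip_gam hr e
        _ = ‖e‖ * M / r := by field_simp
  · simp only [ContinuousLinearMap.lsmul_apply]
    have h1 : Integrable fun s : ℂ => -(ip e s / r ^ 2 * gam r s) := by
      refine ((integrable_ip_gam hr e).const_mul (-(1 / r ^ 2))).congr (ae_of_all _ fun s => ?_)
      change -(1 / r ^ 2) * (ip e s * gam r s) = -(ip e s / r ^ 2 * gam r s)
      ring
    refine (h1.norm.mul_const M).mono' (h1.aestronglyMeasurable.smul huc.aestronglyMeasurable)
      (ae_of_all _ fun s => ?_)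
    rw [norm_smul]
    gcongr
    exact hun s
  · simp only [ContinuousLinearMap.lsmul_apply]
    refine ((WTB.integrable_gam hr).mul_const M').mono'
      ((WTB.continuous_gam r).fun_smul hu'c).aestronglyMeasurable
      (ae_of_all _ fun s => ?_)
    rw [norm_smul, Real.norm_of_nonneg (WTB.gam_nonneg r s)]
    have := WTB.gam_nonneg r s
    gcongr
    exact hun' s
  · simp only [ContinuousLinearMap.lsmul_apply]
    refine ((WTB.integrable_gam hr).mul_const M).mono'
      ((WTB.continuous_gam r).fun_smul huc).aestronglyMeasurable (ae_of_all _ fun s => ?_)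
    rw [norm_smul, Real.norm_of_nonneg (WTB.gam_nonneg r s)]
    have := WTB.gam_nonneg r s
    gcongr
    exact hun s
  · exact fun s _ => hasLineDerivAt_gam r s e
  · exact fun s _ => hline s

end parts

section main

variable {H : Type v} [NormedAddCommGroup H] [InnerProductSpace ℂ H] [CompleteSpace H]

/-- the pair `(N, N)` -/
noncomputable def PP (N : H →L[ℂ] H) (hN : IsStarNormal N) : Pair H where
  A := N
  B := N
  hA := hN
  hB := hN
  D1 := 0
  D2 := 0
  hD1 := by rw [map_zero, sub_self]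
  hD2 := by rw [map_zero, sub_self]
  d := 0
  hd := fun e => by rw [smul_zero, smul_zero, add_zero, norm_zero, mul_zero]

variable {N : H →L[ℂ] H} (hN : IsStarNormal N)

theorem grp : Grp' (PP N hN) := grp_of_ex' sEx (PP N hN)

include hN

theorem norm_cj_le (s : ℂ) (b : H →L[ℂ] H) : ‖cj N s b‖ ≤ ‖b‖ :=
  norm_tO_le (grp hN).toGrp s b

theorem continuous_cj (b : H →L[ℂ] H) : Continuous fun s => cj N s b :=
  continuous_tO (grp hN).toGrp b

theorem cj_cj (s u : ℂ) (b : H →L[ℂ] H) : cj N s (cj N u b) = cj N (s + u) b := by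
  have h := (grp hN).toGrp
  have h1 : ∀ s t : ℂ, ex N (s + t) = ex N s * ex N t := h.Aadd
  simp only [cj]
  rw [h1, show -(s + u) = -u + -s by ring, h1]
  simp only [mul_assoc]

theorem integrable_cj {t : ℝ} (ht : 0 < t) (b : H →L[ℂ] H) :
    Integrable fun s : ℂ => (gam t s : ℂ) • cj N s b := by
  refine ((WTB.integrable_gam ht).mul_const ‖b‖).mono'
    ((continuous_ofReal.comp (WTB.continuous_gam t)).smul
      (continuous_cj hN b)).aestronglyMeasurable (ae_of_all _ fun s => ?_)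
  change ‖(gam t s : ℂ) • cj N s b‖ ≤ _
  rw [norm_smul, Complex.norm_real, Real.norm_of_nonneg (WTB.gam_nonneg t s)]
  exact mul_le_mul_of_nonneg_left (norm_cj_le hN s b) (WTB.gam_nonneg t s)

theorem norm_Ph_le {t : ℝ} (ht : 0 < t) (b : H →L[ℂ] H) : ‖Ph N t b‖ ≤ ‖b‖ := by
  have h1 : ‖Ph N t b‖ ≤ ∫ s : ℂ, gam t s * ‖b‖ := by
    refine norm_integral_le_of_norm_le ((WTB.integrable_gam ht).mul_const ‖b‖)
      (ae_of_all _ fun s => ?_)
    rw [norm_smul, Complex.norm_real, Real.norm_of_nonneg (WTB.gam_nonneg t s)]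
    exact mul_le_mul_of_nonneg_left (norm_cj_le hN s b) (WTB.gam_nonneg t s)
  rw [integral_mul_const, WTB.integral_gam ht, one_mul] at h1
  exact h1

/-- a bounded linear map commutes with the average -/
theorem map_Ph {t : ℝ} (ht : 0 < t) (L : (H →L[ℂ] H) →L[ℂ] (H →L[ℂ] H)) (b : H →L[ℂ] H) :
    L (Ph N t b) = ∫ s : ℂ, (gam t s : ℂ) • L (cj N s b) := by
  rw [Ph, ← ContinuousLinearMap.integral_comp_comm _ (integrable_cj hN ht b)]
  refine integral_congr_ae (ae_of_all _ fun s => ?_)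
  change L ((gam t s : ℂ) • cj N s b) = _
  rw [map_smul]

theorem map_Ph_eq {t : ℝ} (ht : 0 < t) (L : (H →L[ℂ] H) →L[ℂ] (H →L[ℂ] H)) (b b' : H →L[ℂ] H)
    (h : ∀ s, L (cj N s b) = cj N s b') : L (Ph N t b) = Ph N t b' := by
  rw [map_Ph hN ht]
  simp only [h]
  rfl

theorem mulL_Ph {t : ℝ} (ht : 0 < t) (S b : H →L[ℂ] H) (hS : ∀ s, S * ex N s = ex N s * S) :
    S * Ph N t b = Ph N t (S * b) := by
  refine map_Ph_eq hN ht (ContinuousLinearMap.mul ℂ (H →L[ℂ] H) S) b (S * b) fun s => ?_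
  change S * cj N s b = cj N s (S * b)
  simp only [cj]
  rw [← mul_assoc, ← mul_assoc, hS, ← mul_assoc]

theorem mulR_Ph {t : ℝ} (ht : 0 < t) (S b : H →L[ℂ] H) (hS : ∀ s, S * ex N s = ex N s * S) :
    Ph N t b * S = Ph N t (b * S) := by
  refine map_Ph_eq hN ht ((ContinuousLinearMap.mul ℂ (H →L[ℂ] H)).flip S) b (b * S) fun s => ?_
  change cj N s b * S = cj N s (b * S)
  simp only [cj]
  rw [mul_assoc, ← hS]
  simp only [mul_assoc]

theorem Ph_sub {t : ℝ} (ht : 0 < t) (b c : H →L[ℂ] H) :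
    Ph N t (b - c) = Ph N t b - Ph N t c := by
  rw [Ph, Ph, Ph, ← integral_sub (integrable_cj hN ht b) (integrable_cj hN ht c)]
  refine integral_congr_ae (ae_of_all _ fun s => ?_)
  change (gam t s : ℂ) • cj N s (b - c) = (gam t s : ℂ) • cj N s b - (gam t s : ℂ) • cj N s c
  rw [← smul_sub]
  simp only [cj, mul_sub, sub_mul]

theorem Ph_add {t : ℝ} (ht : 0 < t) (b c : H →L[ℂ] H) :
    Ph N t (b + c) = Ph N t b + Ph N t c := by
  rw [Ph, Ph, Ph, ← integral_add (integrable_cj hN ht b) (integrable_cj hN ht c)]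
  refine integral_congr_ae (ae_of_all _ fun s => ?_)
  change (gam t s : ℂ) • cj N s (b + c) = (gam t s : ℂ) • cj N s b + (gam t s : ℂ) • cj N s c
  rw [← smul_add]
  simp only [cj, mul_add, add_mul]

omit hN in
theorem Ph_smul (t : ℝ) (a : ℂ) (b : H →L[ℂ] H) : Ph N t (a • b) = a • Ph N t b := by
  rw [Ph, Ph, ← integral_smul]
  refine integral_congr_ae (ae_of_all _ fun s => ?_)
  change (gam t s : ℂ) • cj N s (a • b) = a • ((gam t s : ℂ) • cj N s b)
  rw [smul_comm]
  simp only [cj, mul_smul_comm, smul_mul_assoc]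

theorem dt_ex (e s : ℂ) : dt e N * ex N s = ex N s * dt e N := ((grp hN).Acm s e).eq

theorem br_Ph {t : ℝ} (ht : 0 < t) (e : ℂ) (b : H →L[ℂ] H) :
    br (dt e N) (Ph N t b) = Ph N t (br (dt e N) b) := by
  rw [br, br, Ph_sub hN ht, mulL_Ph hN ht _ _ (dt_ex hN e), mulR_Ph hN ht _ _ (dt_ex hN e)]

omit hN in
theorem dt_neg (e : ℂ) : dt (-e) N = -dt e N := by
  simp only [dt, map_neg]
  module

/-- derivative of the inverse group -/
theorem hasDerivAt_ex_neg (e : ℂ) :
    HasDerivAt (fun c : ℝ => ex N (-(c * e))) (-(Complex.I • dt e N)) 0 := by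
  have h1 : HasDerivAt (fun c : ℝ => ex N (c * (-e)))
      (Complex.I • (dt (-e) N * ex N (((0 : ℝ) : ℂ) * (-e)))) 0 := (grp hN).Ad (-e) 0
  have h2 : ∀ c : ℝ, ex N (-(c * e)) = ex N (c * (-e)) := fun c => by
    rw [mul_neg]
  simp only [h2]
  refine h1.congr_deriv ?_
  have h0 : ex N 0 = 1 := (grp hN).A0
  rw [ofReal_zero, zero_mul, h0, mul_one, dt_neg, smul_neg]

theorem hasDerivAt_ex_pos (e : ℂ) :
    HasDerivAt (fun c : ℝ => ex N (c * e)) (Complex.I • dt e N) 0 := by
  have h1 : HasDerivAt (fun c : ℝ => ex N (c * e))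
      (Complex.I • (dt e N * ex N (((0 : ℝ) : ℂ) * e))) 0 := (grp hN).Ad e 0
  refine h1.congr_deriv ?_
  have h0 : ex N 0 = 1 := (grp hN).A0
  rw [ofReal_zero, zero_mul, h0, mul_one]

theorem hasLineDerivAt_cj (e s : ℂ) (b : H →L[ℂ] H) :
    HasLineDerivAt ℝ (fun s => cj N s b) (Complex.I • cj N s (br (dt e N) b)) s e := by
  unfold HasLineDerivAt
  have h0 : ex N 0 = 1 := (grp hN).A0
  have h1 := ((hasDerivAt_ex_pos hN e).mul_const b).fun_mul (hasDerivAt_ex_neg hN e)
  have h2 := (h1.const_mul (ex N s)).mul_const (ex N (-s))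
  have h3 : ∀ c : ℝ, cj N (s + c • e) b =
      ex N s * (ex N (c * e) * b * ex N (-(c * e))) * ex N (-s) := by
    intro c
    rw [Complex.real_smul, ← cj_cj hN]
    rfl
  simp only [h3]
  refine h2.congr_deriv ?_
  rw [ofReal_zero, zero_mul, neg_zero, h0, mul_one, one_mul]
  simp only [cj, br]
  rw [← smul_mul_assoc, ← mul_smul_comm]
  congr 2
  rw [smul_mul_assoc, mul_neg, mul_smul_comm, smul_sub]
  abel

theorem norm_br_Ph_le {t : ℝ} (ht : 0 < t) (e : ℂ) (b : H →L[ℂ] H) :
    ‖br (dt e N) (Ph N t b)‖ ≤ ‖e‖ * ‖b‖ / t := by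
  have h1 := parts ht e ‖b‖ ‖br (dt e N) b‖ (fun s => cj N s b)
    (fun s => Complex.I • cj N s (br (dt e N) b)) (continuous_cj hN b)
    ((continuous_cj hN _).fun_const_smul Complex.I) (fun s => norm_cj_le hN s b)
    (fun s => by
      rw [norm_smul, Complex.norm_I, one_mul]
      exact norm_cj_le hN s _)
    (fun s => hasLineDerivAt_cj hN e s b)
  have h2 : ∫ s : ℂ, gam t s • (Complex.I • cj N s (br (dt e N) b)) =
      Complex.I • Ph N t (br (dt e N) b) := by
    rw [Ph, ← integral_smul]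
    refine integral_congr_ae (ae_of_all _ fun s => ?_)
    change gam t s • (Complex.I • cj N s (br (dt e N) b)) =
      Complex.I • ((gam t s : ℂ) • cj N s (br (dt e N) b))
    rw [smul_comm]
    rfl
  rw [h2, norm_smul, Complex.norm_I, one_mul] at h1
  rwa [br_Ph hN ht]

/-- the average in `S1` -/
theorem op_G (t : ℝ) (ht : 0 < t) (X : S1 H) : op (G (PP N hN) t X) = Ph N t (op X) :=
  op_av (grp hN).toGrp X (integrable_gamC ht)

theorem hasLineDerivAt_tD (e s : ℂ) (X Y : S1 H) (hY : op Y = br (dt e N) (op X)) :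
    HasLineDerivAt ℝ (fun s => tD (PP N hN) s X) (Complex.I • tD (PP N hN) s Y) s e := by
  unfold HasLineDerivAt
  have h0 : ex N 0 = 1 := (grp hN).A0
  have h1 : HasDerivAt (fun c : ℝ => rmL (ex N (-(c * e))) X)
      (rmL (-(Complex.I • dt e N)) X) 0 :=
    ((((rmL (H := H)).flip X).restrictScalars ℝ).hasFDerivAt.comp_hasDerivAt (0 : ℝ)
      (hasDerivAt_ex_neg hN e))
  have h2 := ContinuousLinearMap.hasDerivAt_of_bilinear
    (B := (lmL (H := H)).bilinearRestrictScalars ℝ) (x := (0 : ℝ))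
    (fun _ => hasDerivAt_ex_pos hN e) (fun _ => h1)
  have h3 : HasDerivAt (fun c : ℝ => lm (ex N (c * e)) (rm (ex N (-(c * e))) X))
      (lm (ex N (((0 : ℝ) : ℂ) * e)) (rm (-(Complex.I • dt e N)) X) +
        lm (Complex.I • dt e N) (rm (ex N (-(((0 : ℝ) : ℂ) * e))) X)) 0 := h2
  have h4 := ((tD (PP N hN) s).restrictScalars ℝ).hasFDerivAt.comp_hasDerivAt (0 : ℝ) h3
  have h5 : ∀ c : ℝ, tD (PP N hN) (s + c • e) X =
      ((tD (PP N hN) s).restrictScalars ℝ) (lm (ex N (c * e)) (rm (ex N (-(c * e))) X)) := by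
    intro c
    rw [Complex.real_smul, tD_add (grp hN).toGrp]
    rfl
  simp only [h5]
  refine h4.congr_deriv ?_
  change tD (PP N hN) s _ = _
  rw [← map_smul]
  congr 1
  apply op_inj
  rw [map_add, op_lm, op_rm, op_lm, op_rm, map_smul, hY, ofReal_zero, zero_mul, neg_zero, h0,
    one_mul, mul_one, br]
  rw [smul_mul_assoc, mul_neg, mul_smul_comm, smul_sub]
  abel

theorem n1_br_Ph_le {t : ℝ} (ht : 0 < t) (e : ℂ) (b : H →L[ℂ] H) (hb : IsT b) :
    n1 (br (dt e N) (Ph N t b)) ≤ ‖e‖ * n1 b / t := by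
  have hbr : IsT (br (dt e N) b) := (hb.mul_left _).sub (hb.mul_right _)
  have hY : op (toS (br (dt e N) b)) = br (dt e N) (op (toS b)) := by
    rw [op_toS hbr, op_toS hb]
  have h1 := parts ht e ‖toS b‖ ‖toS (br (dt e N) b)‖ (fun s => tD (PP N hN) s (toS b))
    (fun s => Complex.I • tD (PP N hN) s (toS (br (dt e N) b)))
    (continuous_tD (grp hN).toGrp _)
    ((continuous_tD (grp hN).toGrp _).fun_const_smul Complex.I)
    (fun s => norm_tD_le (grp hN).toGrp s _)
    (fun s => by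
      rw [norm_smul, Complex.norm_I, one_mul]
      exact norm_tD_le (grp hN).toGrp s _)
    (fun s => hasLineDerivAt_tD hN e s _ _ hY)
  have h2 : ∫ s : ℂ, gam t s • (Complex.I • tD (PP N hN) s (toS (br (dt e N) b))) =
      Complex.I • G (PP N hN) t (toS (br (dt e N) b)) := by
    rw [G, av, ← integral_smul]
    refine integral_congr_ae (ae_of_all _ fun s => ?_)
    change gam t s • (Complex.I • tD (PP N hN) s (toS (br (dt e N) b))) =
      Complex.I • ((gam t s : ℂ) • tD (PP N hN) s (toS (br (dt e N) b)))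
    rw [smul_comm]
    rfl
  rw [h2, norm_smul, Complex.norm_I, one_mul] at h1
  have h3 : br (dt e N) (Ph N t b) = op (G (PP N hN) t (toS (br (dt e N) b))) := by
    rw [op_G hN t ht, op_toS hbr, br_Ph hN ht]
  rw [h3, n1_op]
  exact h1

theorem isT_Ph {t : ℝ} (ht : 0 < t) (b : H →L[ℂ] H) (hb : IsT b) :
    IsT (Ph N t b) ∧ n1 (Ph N t b) ≤ n1 b := by
  have h1 : Ph N t b = op (G (PP N hN) t (toS b)) := by
    rw [op_G hN t ht, op_toS hb]
  rw [h1, n1_op]
  exact ⟨isT_op _, norm_G_le (grp hN).toGrp ht _⟩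

theorem cj_Ph {t : ℝ} (ht : 0 < t) (s : ℂ) (b : H →L[ℂ] H) :
    cj N s (Ph N t b) = ∫ u : ℂ, (gam t u : ℂ) • cj N (s + u) b := by
  have h1 := map_Ph hN ht ((ContinuousLinearMap.mul ℂ (H →L[ℂ] H) (ex N s)).comp
    ((ContinuousLinearMap.mul ℂ (H →L[ℂ] H)).flip (ex N (-s)))) b
  have h2 : ∀ X : H →L[ℂ] H, ((ContinuousLinearMap.mul ℂ (H →L[ℂ] H) (ex N s)).comp
    ((ContinuousLinearMap.mul ℂ (H →L[ℂ] H)).flip (ex N (-s)))) X = cj N s X := by
    intro X
    change ex N s * (X * ex N (-s)) = ex N s * X * ex N (-s)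
    rw [mul_assoc]
  simp only [h2, cj_cj hN] at h1
  exact h1

theorem Ph_Ph {t r : ℝ} (ht : 0 < t) (hr : 0 < r) (b : H →L[ℂ] H) :
    Ph N t (Ph N r b) = Ph N (Real.sqrt (t ^ 2 + r ^ 2)) b := by
  have e1 : ∀ s : ℂ, (gam t s : ℂ) • cj N s (Ph N r b) =
      ∫ u : ℂ, ((gam t s : ℂ) * (gam r (u - s) : ℂ)) • cj N u b := by
    intro s
    rw [cj_Ph hN hr, ← integral_smul]
    rw [← integral_sub_right_eq_self (μ := (volume : Measure ℂ)) _ s]
    refine integral_congr_ae (ae_of_all _ fun u => ?_)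
    change (gam t s : ℂ) • ((gam r (u - s) : ℂ) • cj N (s + (u - s)) b) = _
    rw [add_sub_cancel, smul_smul]
  have e2 : Integrable (fun p : ℂ × ℂ => ((gam t p.1 : ℂ) * (gam r (p.2 - p.1) : ℂ)) • cj N p.2 b)
      ((volume : Measure ℂ).prod volume) := by
    have hc : Continuous fun p : ℂ × ℂ =>
        ((gam t p.1 : ℂ) * (gam r (p.2 - p.1) : ℂ)) • cj N p.2 b := by
      have c1 := (continuous_ofReal.comp ((WTB.continuous_gam t).comp (continuous_fst (X := ℂ) (Y := ℂ))))
      have c2 := (continuous_ofReal.comp ((WTB.continuous_gam r).comp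
        ((continuous_snd (X := ℂ) (Y := ℂ)).sub continuous_fst)))
      exact (c1.mul c2).smul ((continuous_cj hN b).comp continuous_snd)
    rw [integrable_prod_iff hc.aestronglyMeasurable]
    have hn : ∀ s u : ℂ, ‖((gam t s : ℂ) * (gam r (u - s) : ℂ)) • cj N u b‖ =
        gam t s * gam r (u - s) * ‖cj N u b‖ := by
      intro s u
      rw [norm_smul, norm_mul, Complex.norm_real, Complex.norm_real,
        Real.norm_of_nonneg (WTB.gam_nonneg t s), Real.norm_of_nonneg (WTB.gam_nonneg r _)]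
    have hle : ∀ s u : ℂ, gam t s * gam r (u - s) * ‖cj N u b‖ ≤
        gam t s * gam r (u - s) * ‖b‖ := fun s u =>
      mul_le_mul_of_nonneg_left (norm_cj_le hN u b)
        (mul_nonneg (WTB.gam_nonneg t s) (WTB.gam_nonneg r _))
    have hi : ∀ s : ℂ, Integrable fun u : ℂ => gam r (u - s) := fun s =>
      (WTB.integrable_gam hr).comp_sub_right s
    have hi2 : ∀ s : ℂ, Integrable fun u : ℂ => gam t s * gam r (u - s) * ‖b‖ := fun s =>
      (((hi s).const_mul (gam t s)).mul_const ‖b‖)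
    constructor
    · refine ae_of_all _ fun s => ?_
      refine (hi2 s).mono'
        (hc.comp (Continuous.prodMk_right s)).aestronglyMeasurable (ae_of_all _ fun u => ?_)
      exact (hn s u).le.trans (hle s u)
    · have hval : ∀ s : ℂ, ∫ u : ℂ, gam t s * gam r (u - s) * ‖b‖ = gam t s * ‖b‖ := by
        intro s
        rw [integral_mul_const, integral_const_mul,
          integral_sub_right_eq_self (μ := (volume : Measure ℂ)) (gam r) s, WTB.integral_gam hr,
          mul_one]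
      refine ((WTB.integrable_gam ht).mul_const ‖b‖).mono'
        hc.norm.aestronglyMeasurable.integral_prod_right' (ae_of_all _ fun s => ?_)
      rw [Real.norm_of_nonneg (integral_nonneg fun u => norm_nonneg _), ← hval s]
      refine integral_mono_of_nonneg (ae_of_all _ fun u => norm_nonneg _) (hi2 s)
        (ae_of_all _ fun u => ?_)
      exact (hn s u).le.trans (hle s u)
  rw [Ph]
  simp only [e1]
  rw [integral_integral_swap e2, Ph]
  refine integral_congr_ae (ae_of_all _ fun u => ?_)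
  change ∫ s : ℂ, ((gam t s : ℂ) * (gam r (u - s) : ℂ)) • cj N u b = _
  rw [integral_smul_const]
  change _ = (gam (Real.sqrt (t ^ 2 + r ^ 2)) u : ℂ) • cj N u b
  rw [← integral_gam_mul_gam ht hr]
  congr 1
  rw [← integral_complex_ofReal]
  simp only [ofReal_mul]

theorem star_cj (s : ℂ) (b : H →L[ℂ] H) : star (cj N s b) = cj N s (star b) := by
  obtain ⟨-, -, h3, -⟩ := sEx H N hN
  simp only [cj, star_mul, h3, neg_neg]
  rw [mul_assoc]

theorem star_Ph (t : ℝ) (b : H →L[ℂ] H) : star (Ph N t b) = Ph N t (star b) := by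
  rw [Ph, Ph]
  have h1 := ContinuousLinearEquiv.integral_comp_comm (μ := (volume : Measure ℂ))
    (starL' ℝ : (H →L[ℂ] H) ≃L[ℝ] (H →L[ℂ] H)) (fun s : ℂ => (gam t s : ℂ) • cj N s b)
  simp only [starL'_apply] at h1
  rw [← h1]
  refine integral_congr_ae (ae_of_all _ fun s => ?_)
  change star ((gam t s : ℂ) • cj N s b) = (gam t s : ℂ) • cj N s (star b)
  rw [star_smul, star_cj hN, Complex.star_def, Complex.conj_ofReal]

theorem Ph_one {t : ℝ} (ht : 0 < t) : Ph N t (1 : H →L[ℂ] H) = 1 := by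
  have h1 : ∀ s : ℂ, cj N s (1 : H →L[ℂ] H) = 1 := by
    intro s
    have h0 : ex N 0 = 1 := (grp hN).A0
    have h2 : ∀ s t : ℂ, ex N (s + t) = ex N s * ex N t := (grp hN).Aadd
    rw [cj, mul_one, ← h2, add_neg_cancel, h0]
  rw [Ph]
  simp only [h1]
  rw [integral_smul_const, integral_complex_ofReal, WTB.integral_gam ht, ofReal_one, one_smul]

end main

end PHAAux

open PHAAux in
/-- Block PHA. -/
theorem blk_PHA : Stmt_PHA.{v} := by
  intro H _ _ _ N hN
  refine ⟨fun t ht b => norm_Ph_le hN ht b, fun t b c ht => Ph_add hN ht b c,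
    fun t a b _ => Ph_smul t a b, fun t e b ht => br_Ph hN ht e b,
    fun t e b ht => norm_br_Ph_le hN ht e b,
    fun t b ht hb => ⟨(isT_Ph hN ht b hb).1, (isT_Ph hN ht b hb).2,
      fun e => n1_br_Ph_le hN ht e b hb⟩,
    fun t r b ht hr => Ph_Ph hN ht hr b, fun t S b ht hS => ?_, fun t b _ => star_Ph hN t b,
    fun t ht => Ph_one hN ht⟩
  have h1 : ∀ s, S * ex N s = ex N s * S := fun s =>
    (Commute.cfc (a := N) (b := S) hS.1 hS.2 (ch s)).eq.symm
  exact ⟨(mulL_Ph hN ht S b h1).symm, (mulR_Ph hN ht S b h1).symm⟩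

end Pool.Q2
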