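import Pool.Agent.Work.MP_8c7e5b_q2.Interface

/-!
# MP_8c7e5b_an, Q2: block PHB (the average differs from the operator by a trace class operator)
-/

open MeasureTheory Complex Filter Topology
open scoped ComplexOrder InnerProductSpace ComplexConjugate BoundedContinuousFunction

set_option autoImplicit false
set_option linter.unusedSectionVars false

universe v

namespace Pool.Q2

open Pool.Bes Pool.Bes.ALGAux Pool.Bes.AVAux Pool.Bes.DUAux

namespace PHBAux

variable {H : Type v} [NormedAddCommGroup H] [InnerProductSpace ℂ H] [CompleteSpace H]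

/-- the properties of the group used here -/
structure Gp (N : H →L[ℂ] H) : Prop where
  z : ex N 0 = 1
  add : ∀ s t : ℂ, ex N (s + t) = ex N s * ex N t
  nrm : ∀ s : ℂ, ‖ex N s‖ ≤ 1
  cont : Continuous (ex N)
  cm : ∀ s ξ : ℂ, Commute (dt ξ N) (ex N s)
  der : ∀ (ξ : ℂ) (c : ℝ), HasDerivAt (fun c : ℝ => ex N (c * ξ))
      (Complex.I • (dt ξ N * ex N (c * ξ))) c

theorem gp (N : H →L[ℂ] H) (hN : IsStarNormal N) : Gp N := by
  obtain ⟨a1, a2, -, a4, a5, a6, -, a8⟩ := sEx H N hN
  exact ⟨a1, a2, a4, a5, a6, a8⟩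

/-- the integral of the translates -/
noncomputable def E (N : H →L[ℂ] H) (e : ℂ) (D : S1 H) (c : ℝ) : S1 H :=
  (-Complex.I) • ∫ x in (0 : ℝ)..c, sw (ex N (x * e)) (ex N (-(x * e))) D

variable {N : H →L[ℂ] H} (h : Gp N)
include h

theorem cont_integrand (e : ℂ) (D : S1 H) :
    Continuous fun x : ℝ => sw (ex N (x * e)) (ex N (-(x * e))) D := by
  refine continuous_sw (h.cont.comp ?_) (h.cont.comp ?_) continuous_const
  · exact continuous_ofReal.mul continuous_const
  · exact (continuous_ofReal.mul continuous_const).neg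

theorem cont_E (e : ℂ) (D : S1 H) : Continuous (E N e D) := by
  unfold E
  refine Continuous.fun_const_smul ?_ _
  exact intervalIntegral.continuous_primitive
    (fun a b => (cont_integrand h e D).intervalIntegrable a b) 0

theorem norm_sw_ex (s t : ℂ) (X : S1 H) : ‖sw (ex N s) (ex N t) X‖ ≤ ‖X‖ := by
  refine (norm_sw_le _ _ _).trans ?_
  have h1 := h.nrm s
  have h2 := h.nrm t
  calc ‖ex N s‖ * ‖ex N t‖ * ‖X‖ ≤ 1 * 1 * ‖X‖ := by gcongr
    _ = ‖X‖ := by ring

theorem norm_E_le (e : ℂ) (D : S1 H) (c : ℝ) : ‖E N e D c‖ ≤ |c| * ‖D‖ := by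
  unfold E
  rw [norm_smul, norm_neg, Complex.norm_I, one_mul]
  refine (intervalIntegral.norm_integral_le_of_norm_le_const (C := ‖D‖) fun x _ => ?_).trans ?_
  · exact norm_sw_ex h _ _ _
  · rw [sub_zero, mul_comm]

theorem op_E (e : ℂ) (V : H →L[ℂ] H) (hV : IsT (br (dt e N) V)) (c : ℝ) :
    op (E N e (toS (br (dt e N) V)) c) = V - cj N (c * e) V := by
  have hd : ∀ x : ℝ, HasDerivAt (fun x : ℝ => cj N (x * e) V)
      (Complex.I • (ex N (x * e) * br (dt e N) V * ex N (-(x * e)))) x := by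
    intro x
    have h1 := h.der e x
    have h2 : HasDerivAt (fun x : ℝ => ex N (((-x : ℝ) : ℂ) * e))
        ((-1 : ℝ) • (Complex.I • (dt e N * ex N (((-x : ℝ) : ℂ) * e)))) x := by
      have h3 := h.der e (-x)
      have h4 : HasDerivAt (fun x : ℝ => -x) (-1) x := by
        simpa using (hasDerivAt_id x).fun_neg
      exact HasDerivAt.scomp x h3 h4
    have e1 : ∀ x : ℝ, (((-x : ℝ) : ℂ) * e) = -((x : ℂ) * e) := by
      intro x; push_cast; ring
    simp only [e1] at h2
    have h5 := (h1.mul_const V).fun_mul h2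
    unfold cj
    refine h5.congr_deriv ?_
    have h6 := (h.cm (x * e) e).eq
    unfold br
    simp only [smul_mul_assoc, mul_sub, sub_mul, smul_sub, neg_smul, one_smul, mul_neg,
      mul_smul_comm]
    rw [h6]
    simp only [mul_assoc]
    abel
  unfold E
  rw [map_smul, ← ContinuousLinearMap.intervalIntegral_comp_comm _
    ((cont_integrand h e _).intervalIntegrable _ _)]
  simp only [op_sw, op_toS hV]
  have hcont : Continuous fun x : ℝ =>
      Complex.I • (ex N (x * e) * br (dt e N) V * ex N (-(x * e))) := by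
    refine Continuous.fun_const_smul ?_ _
    refine ((h.cont.comp ?_).mul continuous_const).mul (h.cont.comp ?_)
    · exact continuous_ofReal.mul continuous_const
    · exact (continuous_ofReal.mul continuous_const).neg
  have h7 := intervalIntegral.integral_eq_sub_of_hasDerivAt (a := (0 : ℝ)) (b := c)
    (fun x _ => hd x) (hcont.intervalIntegrable _ _)
  rw [intervalIntegral.integral_smul] at h7
  have h8 : cj N (((0 : ℝ) : ℂ) * e) V = V := by
    unfold cj
    rw [ofReal_zero, zero_mul, neg_zero, h.z, one_mul, mul_one]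
  rw [h8] at h7
  have h9 : ∀ Y : H →L[ℂ] H, (-Complex.I) • Y = (-1 : ℂ) • (Complex.I • Y) := by
    intro Y
    rw [smul_smul]
    congr 1
    ring
  rw [h9, h7, neg_smul, one_smul, neg_sub]

theorem cj_sub (s : ℂ) (V W : H →L[ℂ] H) : cj N s (V - W) = cj N s V - cj N s W := by
  unfold cj
  rw [mul_sub, sub_mul]

theorem cj_add_pt (s t : ℂ) (V : H →L[ℂ] H) : cj N (s + t) V = cj N s (cj N t V) := by
  unfold cj
  rw [h.add, show -(s + t) = -t + -s by ring, h.add]
  simp only [mul_assoc]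

theorem isT_cj (s : ℂ) {V : H →L[ℂ] H} (hV : IsT V) : IsT (cj N s V) :=
  (hV.mul_left _).mul_right _

theorem n1_cj_le (s : ℂ) {V : H →L[ℂ] H} (hV : IsT V) : n1 (cj N s V) ≤ n1 V := by
  unfold cj
  refine (n1_mul_right_le _ (hV.mul_left _)).trans ?_
  have h1 := n1_mul_left_le (ex N s) hV
  have h2 := h.nrm s
  have h3 := h.nrm (-s)
  calc ‖ex N (-s)‖ * n1 (ex N s * V) ≤ 1 * (‖ex N s‖ * n1 V) := by
        gcongr
        exact n1_nonneg _
    _ ≤ 1 * (1 * n1 V) := by
        have := n1_nonneg V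
        gcongr
    _ = n1 V := by ring

theorem norm_cj_le (s : ℂ) (V : H →L[ℂ] H) : ‖cj N s V‖ ≤ ‖V‖ := by
  unfold cj
  refine (norm_mul_le _ _).trans ?_
  have h1 := norm_mul_le (ex N s) V
  have h2 := h.nrm s
  have h3 := h.nrm (-s)
  calc ‖ex N s * V‖ * ‖ex N (-s)‖ ≤ (‖ex N s‖ * ‖V‖) * 1 := by gcongr
    _ ≤ (1 * ‖V‖) * 1 := by gcongr
    _ = ‖V‖ := by ring

theorem cont_cj (V : H →L[ℂ] H) : Continuous fun s => cj N s V := by
  unfold cj
  exact (h.cont.mul continuous_const).mul (h.cont.comp continuous_neg)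

/-- one direction: for `b` close to `V` -/
theorem one_dir (e : ℂ) (b V : H →L[ℂ] H) (hb : IsT (b - V)) (hV : IsT (br (dt e N) V)) (c : ℝ) :
    IsT (b - cj N (c * e) b) ∧
      n1 (b - cj N (c * e) b) ≤ |c| * n1 (br (dt e N) V) + 2 * n1 (b - V) := by
  have h1 : b - cj N (c * e) b = (V - cj N (c * e) V) + ((b - V) - cj N (c * e) (b - V)) := by
    rw [cj_sub h]
    abel
  have h2 : IsT (V - cj N (c * e) V) := ⟨_, op_E h e V hV c⟩
  have h3 : n1 (V - cj N (c * e) V) ≤ |c| * n1 (br (dt e N) V) := by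
    rw [← op_E h e V hV c, n1_op]
    exact norm_E_le h e _ c
  have h4 : IsT ((b - V) - cj N (c * e) (b - V)) := hb.sub (isT_cj h _ hb)
  have h5 : n1 ((b - V) - cj N (c * e) (b - V)) ≤ 2 * n1 (b - V) := by
    refine (n1_sub_le hb (isT_cj h _ hb)).trans ?_
    have := n1_cj_le h (c * e) hb
    linarith
  rw [h1]
  refine ⟨h2.add h4, (n1_add_le h2 h4).trans ?_⟩
  linarith

end PHBAux

open PHBAux

theorem blk_PHB (_hPHA : Stmt_PHA.{v}) (_hCMM : Stmt_CMM.{v}) : Stmt_PHB.{v} := by
  intro H _ _ _ N b hN hb t ht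
  have h := gp N hN
  obtain ⟨hb1, hb2⟩ := hb
  set D1 : S1 H := toS (br (dt 1 N) b) with hD1
  set D2 : S1 H := toS (br (dt Complex.I N) b) with hD2
  -- the element of `S1`
  let F : ℂ → S1 H := fun s => E N 1 D1 s.re +
    sw (ex N (s.re : ℂ)) (ex N (-(s.re : ℂ))) (E N Complex.I D2 s.im)
  have hdec : ∀ s : ℂ, b - cj N s b = (b - cj N ((s.re : ℂ) * 1) b) +
      cj N (s.re : ℂ) (b - cj N ((s.im : ℂ) * Complex.I) b) := by
    intro s
    rw [cj_sub h, ← cj_add_pt h, Complex.re_add_im, mul_one]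
    abel
  have hopF : ∀ s, op (F s) = b - cj N s b := by
    intro s
    rw [hdec s]
    change op (E N 1 D1 s.re + sw (ex N (s.re : ℂ)) (ex N (-(s.re : ℂ)))
      (E N Complex.I D2 s.im)) = _
    rw [map_add, op_sw, hD1, hD2, op_E h 1 b hb1, op_E h Complex.I b hb2]
    rfl
  have hFc : Continuous F := by
    refine ((cont_E h 1 D1).comp Complex.continuous_re).add ?_
    refine continuous_sw (h.cont.comp ?_) (h.cont.comp ?_)
      ((cont_E h Complex.I D2).comp Complex.continuous_im)
    · exact continuous_ofReal.comp Complex.continuous_re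
    · exact (continuous_ofReal.comp Complex.continuous_re).neg
  have hgam0 := fun s => WTB.gam_nonneg t s
  -- the norm bound
  have hbd : ∀ V₁ V₂ : H →L[ℂ] H, IsT (b - V₁) → IsT (b - V₂) → IsT (br (dt 1 N) V₁) →
      IsT (br (dt Complex.I N) V₂) → ∀ s : ℂ, ‖F s‖ ≤ |ip 1 s| * n1 (br (dt 1 N) V₁) +
        |ip Complex.I s| * n1 (br (dt Complex.I N) V₂) + 2 * (n1 (b - V₁) + n1 (b - V₂)) := by
    intro V₁ V₂ h1 h2 h3 h4 s
    rw [← n1_op, hopF, hdec]
    obtain ⟨h5, h6⟩ := one_dir h 1 b V₁ h1 h3 s.re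
    obtain ⟨h7, h8⟩ := one_dir h Complex.I b V₂ h2 h4 s.im
    refine (n1_add_le h5 (isT_cj h _ h7)).trans ?_
    have h9 := n1_cj_le h (s.re : ℂ) h7
    have e1 : ip 1 s = s.re := by simp [ip]
    have e2 : ip Complex.I s = s.im := by simp [ip]
    rw [e1, e2]
    linarith
  have hint0 : ∀ a₁ a₂ k : ℝ, Integrable fun s : ℂ =>
      gam t s * (|ip 1 s| * a₁ + |ip Complex.I s| * a₂ + k) := by
    intro a₁ a₂ k
    have h1 : ∀ e : ℂ, Integrable fun s : ℂ => |ip e s| * gam t s := by
      intro e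
      refine (integrable_ip_gam ht e).norm.congr (ae_of_all _ fun s => ?_)
      change ‖ip e s * gam t s‖ = _
      rw [norm_mul, Real.norm_of_nonneg (hgam0 s), Real.norm_eq_abs]
    have h2 := (((h1 1).const_mul a₁).add ((h1 Complex.I).const_mul a₂)).add
      ((WTB.integrable_gam ht).const_mul k)
    refine h2.congr (ae_of_all _ fun s => ?_)
    change a₁ * (|ip 1 s| * gam t s) + a₂ * (|ip Complex.I s| * gam t s) + k * gam t s = _
    ring
  have hzero : IsT (b - b) := by rw [sub_self]; exact isT_zero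
  have hint : Integrable fun s : ℂ => (gam t s : ℂ) • F s := by
    refine (hint0 (n1 (br (dt 1 N) b)) (n1 (br (dt Complex.I N) b))
      (2 * (n1 (b - b) + n1 (b - b)))).mono'
      ((continuous_ofReal.comp (WTB.continuous_gam t)).smul hFc).aestronglyMeasurable
      (ae_of_all _ fun s => ?_)
    rw [norm_smul, Complex.norm_real, Real.norm_of_nonneg (hgam0 s)]
    exact mul_le_mul_of_nonneg_left (hbd b b hzero hzero hb1 hb2 s) (hgam0 s)
  have hop : op (∫ s : ℂ, (gam t s : ℂ) • F s) = b - Ph N t b := by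
    rw [← ContinuousLinearMap.integral_comp_comm _ hint]
    have e1 : ∀ s : ℂ, op ((gam t s : ℂ) • F s) = (gam t s : ℂ) • b - (gam t s : ℂ) • cj N s b := by
      intro s
      rw [map_smul, hopF, smul_sub]
    simp only [e1]
    have i1 : Integrable fun s : ℂ => (gam t s : ℂ) • b :=
      ((WTB.integrable_gam ht).ofReal (𝕜 := ℂ)).smul_const b
    have i2 : Integrable fun s : ℂ => (gam t s : ℂ) • cj N s b := by
      refine ((WTB.integrable_gam ht).mul_const ‖b‖).mono'
        ((continuous_ofReal.comp (WTB.continuous_gam t)).smul (cont_cj h b)).aestronglyMeasurable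
        (ae_of_all _ fun s => ?_)
      rw [norm_smul, Complex.norm_real, Real.norm_of_nonneg (hgam0 s)]
      exact mul_le_mul_of_nonneg_left (norm_cj_le h s b) (hgam0 s)
    rw [integral_sub i1 i2, integral_smul_const]
    have e2 : ∫ s : ℂ, (gam t s : ℂ) = 1 := by
      refine (integral_ofReal (𝕜 := ℂ) (f := gam t)).trans ?_
      rw [WTB.integral_gam ht]
      exact ofReal_one
    rw [e2, one_smul]
    rfl
  refine ⟨⟨_, hop⟩, fun V₁ V₂ h1 h2 h3 h4 => ?_⟩
  rw [← hop, n1_op]
  refine (norm_integral_le_of_norm_le (hint0 (n1 (br (dt 1 N) V₁)) (n1 (br (dt Complex.I N) V₂))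
      (2 * (n1 (b - V₁) + n1 (b - V₂)))) (ae_of_all _ fun s => ?_)).trans ?_
  · rw [norm_smul, Complex.norm_real, Real.norm_of_nonneg (hgam0 s)]
    exact mul_le_mul_of_nonneg_left (hbd V₁ V₂ h1 h2 h3 h4 s) (hgam0 s)
  · have i1 : ∀ e : ℂ, Integrable fun s : ℂ => |ip e s| * gam t s := by
      intro e
      refine (integrable_ip_gam ht e).norm.congr (ae_of_all _ fun s => ?_)
      change ‖ip e s * gam t s‖ = _
      rw [norm_mul, Real.norm_of_nonneg (hgam0 s), Real.norm_eq_abs]
    have e1 : ∀ s : ℂ, gam t s * (|ip 1 s| * n1 (br (dt 1 N) V₁) +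
        |ip Complex.I s| * n1 (br (dt Complex.I N) V₂) + 2 * (n1 (b - V₁) + n1 (b - V₂))) =
        n1 (br (dt 1 N) V₁) * (|ip 1 s| * gam t s) +
          n1 (br (dt Complex.I N) V₂) * (|ip Complex.I s| * gam t s) +
          2 * (n1 (b - V₁) + n1 (b - V₂)) * gam t s := by
      intro s; ring
    simp only [e1]
    rw [integral_add, integral_add, integral_const_mul, integral_const_mul, integral_const_mul,
      WTB.integral_gam ht]
    · have j1 := integral_abs_ip_gam ht 1
      have j2 := integral_abs_ip_gam ht Complex.I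
      rw [norm_one, one_mul] at j1
      rw [Complex.norm_I, one_mul] at j2
      have j3 := mul_le_mul_of_nonneg_left j1 (n1_nonneg (br (dt 1 N) V₁))
      have j4 := mul_le_mul_of_nonneg_left j2 (n1_nonneg (br (dt Complex.I N) V₂))
      linarith
    · exact (i1 1).const_mul _
    · exact (i1 Complex.I).const_mul _
    · exact ((i1 1).const_mul _).add ((i1 Complex.I).const_mul _)
    · exact (WTB.integrable_gam ht).const_mul _

end Pool.Q2
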