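import Pool.Agent.Work.MP_8c7e5b_q2.Interface2
import Pool.Agent.Work.Bes.PIN

/-!
# Block PIG: pigeonhole over directions
-/

open MeasureTheory Complex Filter Topology
open scoped ComplexOrder InnerProductSpace ComplexConjugate BoundedContinuousFunction

set_option autoImplicit false
set_option linter.unusedSectionVars false

universe v

namespace Pool.Q2

open Pool.Bes

namespace PIGAux

variable {H : Type v} [NormedAddCommGroup H] [InnerProductSpace ℂ H] [CompleteSpace H]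

/-- the products `(1 - P 0) ... (1 - P (j - 1))` -/
noncomputable def qq (P : ℕ → H →L[ℂ] H) : ℕ → H →L[ℂ] H
  | 0 => 1
  | j + 1 => qq P j * (1 - P j)

theorem qq_succ (P : ℕ → H →L[ℂ] H) (j : ℕ) : qq P (j + 1) = qq P j * (1 - P j) := rfl

theorem qq_comm {P : ℕ → H →L[ℂ] H} (hc : ∀ i j, P i * P j = P j * P i) (i j : ℕ) :
    P i * qq P j = qq P j * P i := by
  induction j with
  | zero => simp [qq]
  | succ j ih =>
    rw [qq_succ, ← mul_assoc, ih, mul_assoc, mul_assoc, mul_sub, sub_mul, mul_one, one_mul, hc i j]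

theorem qq_sa {P : ℕ → H →L[ℂ] H} (hc : ∀ i j, P i * P j = P j * P i)
    (hs : ∀ i, IsSelfAdjoint (P i)) (j : ℕ) : IsSelfAdjoint (qq P j) := by
  induction j with
  | zero => exact IsSelfAdjoint.one _
  | succ j ih =>
    have h1 : star (qq P (j + 1)) = qq P (j + 1) := by
      rw [qq_succ, star_mul, star_sub, star_one, (hs j).star_eq, ih.star_eq, sub_mul, mul_sub,
        one_mul, mul_one, qq_comm hc]
    exact h1

theorem qq_idem {P : ℕ → H →L[ℂ] H} (hc : ∀ i j, P i * P j = P j * P i)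
    (hp : ∀ i, P i * P i = P i) (j : ℕ) : qq P j * qq P j = qq P j := by
  induction j with
  | zero => simp [qq]
  | succ j ih =>
    have h1 : (1 - P j) * qq P j = qq P j * (1 - P j) := by
      rw [sub_mul, mul_sub, one_mul, mul_one, qq_comm hc]
    have h2 : (1 - P j) * (1 - P j) = 1 - P j := by
      rw [mul_sub, mul_one, sub_mul, one_mul, hp j]
      abel
    rw [qq_succ, mul_assoc, ← mul_assoc (1 - P j), h1, mul_assoc, h2, ← mul_assoc, ih]

theorem pp_sa {P : ℕ → H →L[ℂ] H} (hc : ∀ i j, P i * P j = P j * P i)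
    (hs : ∀ i, IsSelfAdjoint (P i)) (j : ℕ) : star (P j * qq P j) = P j * qq P j := by
  rw [star_mul, (hs j).star_eq, (qq_sa hc hs j).star_eq, qq_comm hc]

theorem pp_idem {P : ℕ → H →L[ℂ] H} (hc : ∀ i j, P i * P j = P j * P i)
    (hp : ∀ i, P i * P i = P i) (j : ℕ) :
    (P j * qq P j) * (P j * qq P j) = P j * qq P j := by
  rw [mul_assoc, ← mul_assoc (qq P j), ← qq_comm hc j j, mul_assoc (P j) (qq P j) (qq P j),
    qq_idem hc hp, ← mul_assoc, hp j]

/-- Bessel for the family `P j * qq P j` -/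
theorem bessel {P : ℕ → H →L[ℂ] H} (hc : ∀ i j, P i * P j = P j * P i)
    (hs : ∀ i, IsSelfAdjoint (P i)) (hp : ∀ i, P i * P i = P i) (x : H) (n : ℕ) :
    ∑ j ∈ Finset.range n, ‖(P j * qq P j) x‖ ^ 2 + ‖qq P n x‖ ^ 2 = ‖x‖ ^ 2 := by
  induction n with
  | zero => simp [qq]
  | succ n ih =>
    rw [Finset.sum_range_succ, ← ih]
    have h1 : qq P n = qq P (n + 1) + P n * qq P n := by
      rw [qq_succ, mul_sub, mul_one, qq_comm hc]; abel
    have h2 : star (P n * qq P n) * qq P (n + 1) = 0 := by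
      rw [pp_sa hc hs, qq_succ, mul_assoc, ← mul_assoc (qq P n), qq_idem hc hp, ← mul_assoc,
        qq_comm hc, mul_assoc, mul_sub, mul_one, hp n, sub_self, mul_zero]
    have h3 : ⟪(P n * qq P n) x, qq P (n + 1) x⟫_ℂ = 0 := by
      have h4 : (star (P n * qq P n) * qq P (n + 1)) x = 0 := by rw [h2]; rfl
      have h5 : ⟪x, (star (P n * qq P n) * qq P (n + 1)) x⟫_ℂ = 0 := by rw [h4, inner_zero_right]
      rw [← ContinuousLinearMap.adjoint_inner_right, ← h5]
      rfl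
    have h6 : ‖qq P n x‖ ^ 2 = ‖qq P (n + 1) x‖ ^ 2 + ‖(P n * qq P n) x‖ ^ 2 := by
      have h7 : qq P n x = (P n * qq P n) x + qq P (n + 1) x := by
        conv_lhs => rw [h1]
        rw [_root_.add_apply, add_comm]
      rw [h7, sq, sq, sq, norm_add_sq_eq_norm_sq_add_norm_sq_of_inner_eq_zero _ _ h3]
      ring
    linarith

/-- the unit vector in the direction `(1, j)` -/
noncomputable def dir (j : ℕ) : ℂ :=
  ((1 / ‖(1 : ℂ) + (j : ℂ) * Complex.I‖ : ℝ) : ℂ) * ((1 : ℂ) + (j : ℂ) * Complex.I)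

theorem base_ne (j : ℕ) : (1 : ℂ) + (j : ℂ) * Complex.I ≠ 0 := by
  intro h
  have := congrArg Complex.re h
  simp at this

theorem norm_dir (j : ℕ) : ‖dir j‖ = 1 := by
  have h := norm_pos_iff.2 (base_ne j)
  rw [dir, norm_mul, Complex.norm_real, Real.norm_eq_abs, abs_of_nonneg (by positivity)]
  field_simp

theorem exists_comb {i j : ℕ} (hij : i ≠ j) (e : ℂ) :
    ∃ a b : ℝ, e = (a : ℂ) * dir i + (b : ℂ) * dir j := by
  have hi := norm_pos_iff.2 (base_ne i)
  have hj := norm_pos_iff.2 (base_ne j)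
  have hd : ((j : ℝ) - (i : ℝ)) ≠ 0 := by
    intro h
    apply hij
    have : (j : ℝ) = (i : ℝ) := by linarith
    exact_mod_cast this.symm
  set b0 : ℝ := (e.im - e.re * i) / ((j : ℝ) - (i : ℝ)) with hb0
  have h1 : b0 * ((j : ℝ) - (i : ℝ)) = e.im - e.re * i := by
    rw [hb0]; field_simp
  refine ⟨(e.re - b0) * ‖(1 : ℂ) + (i : ℂ) * Complex.I‖, b0 * ‖(1 : ℂ) + (j : ℂ) * Complex.I‖, ?_⟩
  have h2 : (((e.re - b0) * ‖(1 : ℂ) + (i : ℂ) * Complex.I‖ : ℝ) : ℂ) * dir i =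
      ((e.re - b0 : ℝ) : ℂ) * ((1 : ℂ) + (i : ℂ) * Complex.I) := by
    rw [dir, ← mul_assoc, ← Complex.ofReal_mul]
    congr 2
    field_simp
  have h3 : ((b0 * ‖(1 : ℂ) + (j : ℂ) * Complex.I‖ : ℝ) : ℂ) * dir j =
      ((b0 : ℝ) : ℂ) * ((1 : ℂ) + (j : ℂ) * Complex.I) := by
    rw [dir, ← mul_assoc, ← Complex.ofReal_mul]
    congr 2
    field_simp
  rw [h2, h3]
  apply Complex.ext
  · simp
  · simp
    linarith

end PIGAux

open PIGAux

theorem blk_PIG : Stmt_CMM.{v} → Stmt_KMA.{v} → Stmt_KMB.{v} → Stmt_PAC.{v} → Stmt_CLS.{v} →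
    Stmt_PIG.{v} := by
  intro hCMM _ hKMB hPAC hCLS H _ _ _ N b hN hb ε hε
  obtain ⟨c1, c2, c3, c4, c5, c6, c7, c8, c9, c10, c11, c12, c13, c14⟩ := hCMM H N hN
  obtain ⟨k1, k2, k3, k4, k5, k6, k7, k8, k9⟩ := hKMB H N hN
  -- the projections
  set P : ℕ → H →L[ℂ] H := fun j => Psg N (dir j) with hP
  have hs : ∀ i, IsSelfAdjoint (P i) := fun i => (hPAC H N (dir i) hN).2.2.1
  have hp : ∀ i, P i * P i = P i := fun i => (hPAC H N (dir i) hN).2.2.2.1
  have hCm : ∀ i, Cm N (P i) := fun i =>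
    (hPAC H N (dir i) hN).2.2.2.2.2.2.2.2.2.2.2.1
  have hn : ∀ i, ‖P i‖ ≤ 1 := fun i => (hPAC H N (dir i) hN).2.2.2.2.2.2.2.2.1
  have hc : ∀ i j, P i * P j = P j * P i := fun i j =>
    ((hPAC H N (dir i) hN).2.2.2.2.2.2.2.2.2.1 (P j) (hCm j)).2
  have hq : ∀ j, Cm N (qq P j) := by
    intro j
    induction j with
    | zero => exact c6
    | succ j ih => exact (c5 _ _ ih (c5 _ _ c6 (hCm j)).2.2).1
  have hpq : ∀ j, Cm N (P j * qq P j) := fun j => (c5 _ _ (hCm j) (hq j)).1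
  -- A1 for products
  have hA : ∀ (S x : H →L[ℂ] H), Cm N S → A1 N x → A1 N (S * x) := fun S x hS hx =>
    (c12 _ _ (c13 _ hS) hx).1
  have hA' : ∀ (S x : H →L[ℂ] H), Cm N S → A1 N x → A1 N (x * S) := fun S x hS hx =>
    (c12 _ _ hx (c13 _ hS)).1
  have hT : ∀ (x : H →L[ℂ] H) (e : ℂ), A1 N x → IsT (br (dt e N) x) := fun x e hx =>
    ((c11 x hx).1 e).1
  have hk0 : ∀ (x : H →L[ℂ] H) (e : ℂ), A1 N x → 0 ≤ kp N e x := fun x e hx =>
    (k5 e x (hT x e hx)).1
  -- kp N e' (P i P j x) = 0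
  have hY : ∀ (x : H →L[ℂ] H), A1 N x → ∀ i j, i ≠ j → ∀ e' : ℂ, kp N e' (P i * (P j * x)) = 0 := by
    intro x hx i j hij e'
    obtain ⟨a, a', rfl⟩ := exists_comb hij e'
    have hx1 : A1 N (P i * (P j * x)) := hA _ _ (hCm i) (hA _ _ (hCm j) hx)
    have h1 := k9 (dir i) (dir j) a a' _ hx1
    have h2 : kp N (dir i) (P i * (P j * x)) = 0 := by
      have h3 : P i * (P j * x) = P j * (P i * x) := by
        rw [← mul_assoc, ← mul_assoc, hc i j]
      have h4 : kp N (dir i) (P i * x) = 0 := hCLS H N x (dir i) hN hx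
      have h5 := (k6 (dir i) (P j) (P i * x) (hT _ _ (hA _ _ (hCm i) hx)) (hCm j)).1
      rw [h4, mul_zero, ← h3] at h5
      exact le_antisymm h5 (hk0 _ _ hx1)
    have h2' : kp N (dir j) (P i * (P j * x)) = 0 := by
      have h4 : kp N (dir j) (P j * x) = 0 := hCLS H N x (dir j) hN hx
      have h5 := (k6 (dir j) (P i) (P j * x) (hT _ _ (hA _ _ (hCm j) hx)) (hCm i)).1
      rw [h4, mul_zero] at h5
      exact le_antisymm h5 (hk0 _ _ hx1)
    rw [h2, h2', mul_zero, mul_zero, add_zero] at h1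
    exact le_antisymm h1 (hk0 _ _ hx1)
  -- kp N e' ((1 - q_k) P j x) = 0 for k ≤ j
  have hZ : ∀ (x : H →L[ℂ] H), A1 N x → ∀ j k, k ≤ j → ∀ e' : ℂ,
      kp N e' ((1 - qq P k) * (P j * x)) = 0 := by
    intro x hx j k
    induction k with
    | zero =>
      intro _ e'
      have h1 : (1 - qq P 0) * (P j * x) = 0 := by simp [qq]
      rw [h1]
      exact k8 e' 0 ⟨by simp, by simp⟩
    | succ k ih =>
      intro hkj e'
      have h1 : (1 - qq P (k + 1)) * (P j * x) =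
          (1 - qq P k) * (P j * x) + qq P k * (P k * (P j * x)) := by
        rw [qq_succ]
        noncomm_ring
      have hx1 : A1 N (P k * (P j * x)) := hA _ _ (hCm k) (hA _ _ (hCm j) hx)
      have hx2 : A1 N ((1 - qq P k) * (P j * x)) :=
        hA _ _ (c5 _ _ c6 (hq k)).2.2 (hA _ _ (hCm j) hx)
      have hx3 : A1 N (qq P k * (P k * (P j * x))) := hA _ _ (hq k) hx1
      have h2 := (k4 e' _ _ (hT _ e' hx2) (hT _ e' hx3)).1
      have h3 := (k6 e' (qq P k) (P k * (P j * x)) (hT _ _ hx1) (hq k)).1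
      rw [hY x hx k j (by omega) e', mul_zero] at h3
      rw [ih (by omega) e', ← h1] at h2
      refine le_antisymm (by linarith) (hk0 _ _ ?_)
      rw [h1]
      exact (c12 _ _ hx2 hx3).2.1
  -- the pinching inequality
  have hPin : Stmt_Pin.{v} := blk_PIN sPol sAL
  have hpin : ∀ (n : ℕ) (D : H →L[ℂ] H), IsT D →
      ∑ j ∈ Finset.range n, n1 ((P j * qq P j) * D * (P j * qq P j)) ≤ n1 D := by
    intro n D hD
    have hB : ∀ x : H, ∑ i : Fin n, ‖(P (i : ℕ) * qq P (i : ℕ)) x‖ ^ 2 ≤ ‖x‖ ^ 2 := by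
      intro x
      rw [Fin.sum_univ_eq_sum_range (fun j => ‖(P j * qq P j) x‖ ^ 2) n]
      have h1 := bessel hc hs hp x n
      have h2 : 0 ≤ ‖qq P n x‖ ^ 2 := by positivity
      linarith
    have h1 := hPin H (toS D) n (fun i => P (i : ℕ) * qq P (i : ℕ)) (fun i => P (i : ℕ) * qq P (i : ℕ))
      hB (by
        intro x
        have h2 : ∀ i : Fin n, star (P (i : ℕ) * qq P (i : ℕ)) = P (i : ℕ) * qq P (i : ℕ) :=
          fun i => pp_sa hc hs i
        simp only [h2]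
        exact hB x)
    have h3 : ∀ j : ℕ, n1 ((P j * qq P j) * D * (P j * qq P j)) =
        ‖sw (P j * qq P j) (P j * qq P j) (toS D)‖ := by
      intro j
      rw [n1]
      congr 1
      exact toS_eq (by rw [AVAux.op_sw, op_toS hD])
    rw [← Fin.sum_univ_eq_sum_range (fun j => n1 ((P j * qq P j) * D * (P j * qq P j))) n]
    simp only [h3]
    exact h1
  -- choice of the direction
  set D₁ := br (dt 1 N) b with hD₁
  set D₂ := br (dt Complex.I N) b with hD₂
  obtain ⟨n, hn0, hn1⟩ : ∃ n : ℕ, 0 < n ∧ n1 D₁ + n1 D₂ ≤ n * ε := by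
    obtain ⟨n, hn⟩ := exists_nat_gt ((n1 D₁ + n1 D₂) / ε)
    refine ⟨n + 1, Nat.succ_pos n, ?_⟩
    rw [div_lt_iff₀ hε] at hn
    push_cast
    linarith
  obtain ⟨j, hj, hjε⟩ : ∃ j ∈ Finset.range n, n1 ((P j * qq P j) * D₁ * (P j * qq P j)) +
      n1 ((P j * qq P j) * D₂ * (P j * qq P j)) ≤ ε := by
    by_contra hcon
    push Not at hcon
    have h1 : ∑ j ∈ Finset.range n, ε < ∑ j ∈ Finset.range n,
        (n1 ((P j * qq P j) * D₁ * (P j * qq P j)) +
          n1 ((P j * qq P j) * D₂ * (P j * qq P j))) :=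
      Finset.sum_lt_sum_of_nonempty ⟨0, Finset.mem_range.2 hn0⟩ fun i hi => hcon i hi
    rw [Finset.sum_add_distrib, Finset.sum_const, Finset.card_range, nsmul_eq_mul] at h1
    have h2 := hpin n D₁ hb.1
    have h3 := hpin n D₂ hb.2
    linarith
  refine ⟨dir j, norm_dir j, ?_⟩
  intro e' he'
  obtain ⟨p, hpj⟩ : ∃ p, p = P j * qq P j := ⟨_, rfl⟩
  rw [← hpj] at hjε
  have hpC : Cm N p := by rw [hpj]; exact hpq j
  change kp N e' (P j * b * P j) ≤ ε
  -- the main term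
  have hmain : kp N e' (p * b * p) ≤ ε := by
    have hA1 : A1 N (p * b * p) := hA' _ _ hpC (hA _ _ hpC hb)
    refine (k5 e' _ (hT _ e' hA1)).2.1.trans ?_
    have hcp : dt e' N * p = p * dt e' N := (c1 p hpC).1 e'
    have h1 : br (dt e' N) (p * b * p) = p * br (dt e' N) b * p := by
      have h2 : dt e' N * (p * b * p) = p * (dt e' N * b) * p := by
        rw [← mul_assoc, ← mul_assoc, hcp, mul_assoc p]
      have h3 : p * b * p * dt e' N = p * (b * dt e' N) * p := by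
        rw [mul_assoc (p * b), ← hcp, ← mul_assoc, mul_assoc p b]
      rw [br, br, h2, h3, mul_sub, sub_mul]
    have h4 : dt e' N = ((e'.re : ℝ) : ℂ) • dt 1 N + ((e'.im : ℝ) : ℂ) • dt Complex.I N := by
      rw [← c9 1 Complex.I e'.re e'.im, mul_one]
      congr 1
      exact (Complex.re_add_im e').symm
    have h5 : br (dt e' N) b = ((e'.re : ℝ) : ℂ) • D₁ + ((e'.im : ℝ) : ℂ) • D₂ := by
      rw [h4, hD₁, hD₂, br, br, br, add_mul, mul_add, smul_mul_assoc, smul_mul_assoc,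
        mul_smul_comm, mul_smul_comm, smul_sub, smul_sub]
      abel
    have h6 : p * br (dt e' N) b * p =
        ((e'.re : ℝ) : ℂ) • (p * D₁ * p) + ((e'.im : ℝ) : ℂ) • (p * D₂ * p) := by
      rw [h5, mul_add, add_mul, mul_smul_comm, mul_smul_comm, smul_mul_assoc, smul_mul_assoc]
    have hT1 : IsT (p * D₁ * p) := IsT.mul_right p (IsT.mul_left p hb.1)
    have hT2 : IsT (p * D₂ * p) := IsT.mul_right p (IsT.mul_left p hb.2)
    rw [h1, h6]
    refine (n1_add_le (hT1.smul _) (hT2.smul _)).trans ?_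
    rw [n1_smul _ hT1, n1_smul _ hT2, Complex.norm_real, Complex.norm_real]
    have hre : ‖e'.re‖ ≤ 1 := (Complex.abs_re_le_norm e').trans he'
    have him : ‖e'.im‖ ≤ 1 := (Complex.abs_im_le_norm e').trans he'
    have h7 := mul_le_mul_of_nonneg_right hre (n1_nonneg (p * D₁ * p))
    have h8 := mul_le_mul_of_nonneg_right him (n1_nonneg (p * D₂ * p))
    linarith
  -- the other terms
  have hdiff : P j - p = (1 - qq P j) * P j := by
    rw [hpj, sub_mul, one_mul, qq_comm hc]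
  have hPp : Cm N (P j - p) := (c5 _ _ (hCm j) hpC).2.2
  have hzero1 : ∀ x : H →L[ℂ] H, A1 N x → kp N e' ((P j - p) * x) = 0 := by
    intro x hx
    rw [hdiff, mul_assoc]
    exact hZ x hx j j le_rfl e'
  have hAs : A1 N (star b) := (c11 b hb).2
  have ht1 : kp N e' ((P j - p) * b * P j) ≤ 0 := by
    have h1 := (k6 e' (P j) ((P j - p) * b) (hT _ _ (hA _ _ hPp hb)) (hCm j)).2
    rw [hzero1 b hb, mul_zero] at h1
    exact h1
  have ht2 : kp N e' (p * (b * (P j - p))) ≤ 0 := by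
    have h1 := (k6 e' p (b * (P j - p)) (hT _ _ (hA' _ _ hPp hb)) hpC).1
    have h2 : kp N e' (b * (P j - p)) = 0 := by
      have h3 := (k5 e' (b * (P j - p)) (hT _ _ (hA' _ _ hPp hb))).2.2
      have h4 : star p = p := by rw [hpj]; exact pp_sa hc hs j
      rw [← h3, star_mul, star_sub, (hs j).star_eq, h4]
      exact hzero1 (star b) hAs
    rw [h2, mul_zero] at h1
    exact h1
  have hsplit : P j * b * P j = p * b * p + ((P j - p) * b * P j + p * (b * (P j - p))) := by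
    noncomm_ring
  have hA1 : A1 N (p * b * p) := hA' _ _ hpC (hA _ _ hpC hb)
  have hA2 : A1 N ((P j - p) * b * P j) := hA' _ _ (hCm j) (hA _ _ hPp hb)
  have hA3 : A1 N (p * (b * (P j - p))) := hA _ _ hpC (hA' _ _ hPp hb)
  have hA4 := (c12 _ _ hA2 hA3).2.1
  rw [hsplit]
  have h1 := (k4 e' _ _ (hT _ e' hA1) (hT _ e' hA4)).1
  have h2 := (k4 e' _ _ (hT _ e' hA2) (hT _ e' hA3)).1
  linarith

end Pool.Q2
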