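import Pool.Agent.Work.MP_8c7e5b_q2.Interface

/-!
# MP_8c7e5b_an, Q2: block PRJ (trace class projections have finite rank)
-/

open MeasureTheory Complex Filter Topology
open scoped ComplexOrder InnerProductSpace ComplexConjugate

set_option autoImplicit false
set_option linter.unusedSectionVars false

universe v

namespace Pool.Q2

open Pool.Bes

namespace PRJAux

variable {H : Type v} [NormedAddCommGroup H] [InnerProductSpace ℂ H] [CompleteSpace H]

/-- the projection onto the span of an orthonormal family, applied to a vector of the family -/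
theorem q_apply {m : ℕ} (u : Fin m → H) (x : H) :
    (∑ k, r1 (u k) (u k)) x = ∑ k, ⟪u k, x⟫_ℂ • u k := by
  rw [_root_.sum_apply]
  rfl

theorem q_self {m : ℕ} {u : Fin m → H} (hu : Orthonormal ℂ u) (k : Fin m) :
    (∑ k, r1 (u k) (u k)) (u k) = u k := by
  classical
  rw [q_apply, Finset.sum_eq_single k]
  · rw [orthonormal_iff_ite.1 hu, if_pos rfl, one_smul]
  · intro l _ hl
    rw [orthonormal_iff_ite.1 hu, if_neg hl, zero_smul]
  · intro h
    exact absurd (Finset.mem_univ _) h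

theorem q_star {m : ℕ} (u : Fin m → H) : star (∑ k, r1 (u k) (u k)) = ∑ k, r1 (u k) (u k) := by
  rw [star_sum]
  exact Finset.sum_congr rfl fun k _ => star_r1 _ _

theorem trO_q {m : ℕ} {u : Fin m → H} (hu : Orthonormal ℂ u) :
    trO (∑ k, r1 (u k) (u k)) = (m : ℂ) := by
  rw [trO_sum _ _ fun k _ => isT_r1 _ _]
  have h : ∀ k ∈ (Finset.univ : Finset (Fin m)), trO (r1 (u k) (u k)) = 1 := by
    intro k _
    rw [trO_r1, inner_self_eq_norm_sq_to_K, hu.1 k]
    simp
  rw [Finset.sum_congr rfl h]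
  simp

/-- `p q = q` if the family lies in the range of `p` -/
theorem p_mul_q {p : H →L[ℂ] H} {m : ℕ} {u : Fin m → H} (hp : ∀ k, p (u k) = u k) :
    p * (∑ k, r1 (u k) (u k)) = ∑ k, r1 (u k) (u k) := by
  refine ContinuousLinearMap.ext fun x => ?_
  rw [mul_apply_eq_comp, q_apply, map_sum]
  refine Finset.sum_congr rfl fun k _ => ?_
  rw [map_smul, hp k]

theorem q_mul_q {m : ℕ} {u : Fin m → H} (hu : Orthonormal ℂ u) :
    (∑ k, r1 (u k) (u k)) * (∑ k, r1 (u k) (u k)) = ∑ k, r1 (u k) (u k) :=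
  p_mul_q fun k => q_self hu k

theorem q_mul_p {p : H →L[ℂ] H} (hsa : IsSelfAdjoint p) {m : ℕ} {u : Fin m → H}
    (hp : ∀ k, p (u k) = u k) :
    (∑ k, r1 (u k) (u k)) * p = ∑ k, r1 (u k) (u k) := by
  have h := congrArg star (p_mul_q hp)
  rwa [star_mul, q_star, hsa.star_eq] at h

theorem diff_sq {p : H →L[ℂ] H} (hsa : IsSelfAdjoint p) (hpp : p * p = p) {m : ℕ} {u : Fin m → H}
    (hu : Orthonormal ℂ u) (hp : ∀ k, p (u k) = u k) :
    (p - ∑ k, r1 (u k) (u k)) * (p - ∑ k, r1 (u k) (u k)) = p - ∑ k, r1 (u k) (u k) := by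
  rw [sub_mul, mul_sub, mul_sub, hpp, p_mul_q hp, q_mul_p hsa hp, q_mul_q hu]
  abel

theorem le_rank {p : H →L[ℂ] H} {r : ℕ} (hsa : IsSelfAdjoint p) (hpp : p * p = p) (hT : IsT p)
    (htr : trO p = (r : ℂ)) {m : ℕ} {u : Fin m → H}
    (hu : Orthonormal ℂ u) (hp : ∀ k, p (u k) = u k) : m ≤ r := by
  have hq : IsT (∑ k, r1 (u k) (u k)) := IsT.sum _ _ fun k _ => isT_r1 _ _
  have h0 : (0 : H →L[ℂ] H) ≤ p - ∑ k, r1 (u k) (u k) := by
    have h1 : p - ∑ k, r1 (u k) (u k) =
        star (p - ∑ k, r1 (u k) (u k)) * (p - ∑ k, r1 (u k) (u k)) := by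
      rw [star_sub, hsa.star_eq, q_star, diff_sq hsa hpp hu hp]
    rw [h1]
    exact star_mul_self_nonneg _
  have h2 := trO_of_nonneg (hT.sub hq) h0
  rw [trO_sub hT hq, htr, trO_q hu] at h2
  have h3 : ((r : ℝ) - (m : ℝ)) = n1 (p - ∑ k, r1 (u k) (u k)) := by
    exact_mod_cast h2
  have h4 := n1_nonneg (p - ∑ k, r1 (u k) (u k))
  rw [← h3] at h4
  have h5 : (m : ℝ) ≤ r := by linarith
  exact_mod_cast h5

end PRJAux

open PRJAux in
theorem blk_PRJ : Stmt_PRJ.{v} := by
  intro H _ _ _ p r hsa hpp hT htr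
  classical
  -- the sizes of orthonormal families in the range
  set S : Set ℕ := {m | ∃ u : Fin m → H, Orthonormal ℂ u ∧ ∀ k, p (u k) = u k} with hS
  have hS0 : S.Nonempty := ⟨0, Fin.elim0, ⟨fun k => k.elim0, fun k => k.elim0⟩, fun k => k.elim0⟩
  have hSb : BddAbove S := ⟨r, fun m hm => by
    obtain ⟨u, hu, hp⟩ := hm
    exact le_rank hsa hpp hT htr hu hp⟩
  obtain ⟨m, ⟨u, hu, hp⟩, hmax⟩ : ∃ m ∈ S, ∀ n ∈ S, n ≤ m :=
    ⟨sSup S, Nat.sSup_mem hS0 hSb, fun n hn => le_csSup hSb hn⟩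
  have hq : IsT (∑ k, r1 (u k) (u k)) := IsT.sum _ _ fun k _ => isT_r1 _ _
  have hpq : p = ∑ k, r1 (u k) (u k) := by
    by_contra hne
    have hne' : p - ∑ k, r1 (u k) (u k) ≠ 0 := sub_ne_zero.2 hne
    obtain ⟨x, hx⟩ : ∃ x, (p - ∑ k, r1 (u k) (u k)) x ≠ 0 := by
      by_contra hall
      push Not at hall
      exact hne' (ContinuousLinearMap.ext hall)
    set z := (p - ∑ k, r1 (u k) (u k)) x with hz
    have hpz : p z = z := by
      have : p * (p - ∑ k, r1 (u k) (u k)) = p - ∑ k, r1 (u k) (u k) := by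
        rw [mul_sub, hpp, p_mul_q hp]
      rw [hz, ← mul_apply_eq_comp, this]
    have hqz : (∑ k, r1 (u k) (u k)) z = 0 := by
      have : (∑ k, r1 (u k) (u k)) * (p - ∑ k, r1 (u k) (u k)) = 0 := by
        rw [mul_sub, q_mul_p hsa hp, q_mul_q hu, sub_self]
      rw [hz, ← mul_apply_eq_comp, this, _root_.zero_apply]
    have hort : ∀ k, ⟪u k, z⟫_ℂ = 0 := by
      intro k
      have h1 : ⟪u k, (∑ k, r1 (u k) (u k)) z⟫_ℂ = ⟪u k, z⟫_ℂ := by
        rw [← ContinuousLinearMap.adjoint_inner_left]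
        have h2 : ContinuousLinearMap.adjoint (∑ k, r1 (u k) (u k)) = ∑ k, r1 (u k) (u k) :=
          q_star u
        rw [h2, q_self hu]
      rw [← h1, hqz, inner_zero_right]
    have hz0 : ‖z‖ ≠ 0 := norm_ne_zero_iff.2 hx
    set y : H := ((‖z‖⁻¹ : ℝ) : ℂ) • z with hy
    have hyn : ‖y‖ = 1 := by
      rw [hy, norm_smul, Complex.norm_real, norm_inv, norm_norm, inv_mul_cancel₀ hz0]
    have hyp : p y = y := by rw [hy, map_smul, hpz]
    have hyo : ∀ k, ⟪u k, y⟫_ℂ = 0 := fun k => by rw [hy, inner_smul_right, hort k, mul_zero]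
    have hyo' : ∀ k, ⟪y, u k⟫_ℂ = 0 := fun k => by
      rw [← inner_conj_symm, hyo k, map_zero]
    have hmem : m + 1 ∈ S := by
      refine ⟨Fin.snoc u y, ⟨?_, ?_⟩, ?_⟩
      · intro k
        refine Fin.lastCases ?_ (fun k => ?_) k
        · rw [Fin.snoc_last]; exact hyn
        · rw [Fin.snoc_castSucc]; exact hu.1 k
      · intro k l hkl
        revert hkl
        refine Fin.lastCases ?_ (fun k => ?_) k
        · refine Fin.lastCases ?_ (fun l => ?_) l
          · intro h; exact absurd rfl h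
          · intro _
            simp only [Fin.snoc_last, Fin.snoc_castSucc]
            exact hyo' l
        · refine Fin.lastCases ?_ (fun l => ?_) l
          · intro _
            simp only [Fin.snoc_last, Fin.snoc_castSucc]
            exact hyo k
          · intro h
            simp only [Fin.snoc_castSucc]
            exact hu.2 fun h' => h (by rw [h'])
      · intro k
        refine Fin.lastCases ?_ (fun k => ?_) k
        · rw [Fin.snoc_last]; exact hyp
        · rw [Fin.snoc_castSucc]; exact hp k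
    have := hmax _ hmem
    omega
  have hmr : m = r := by
    have h1 : trO p = (m : ℂ) := by rw [hpq]; exact trO_q hu
    rw [h1] at htr
    exact_mod_cast htr
  subst hmr
  exact ⟨u, hu, hpq⟩

end Pool.Q2
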