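import Pool.Agent.Work.MP_8c7e5b_q2.Interface2

/-!
# MP_8c7e5b_an, Q2: block PWR
-/

open MeasureTheory Complex Filter Topology
open scoped ComplexOrder InnerProductSpace ComplexConjugate BoundedContinuousFunction

set_option autoImplicit false
set_option linter.unusedSectionVars false

universe v

namespace Pool.Q2

open Pool.Bes

namespace PWRAux

section

variable {H : Type v} [NormedAddCommGroup H] [InnerProductSpace ℂ H] [CompleteSpace H]

theorem mul_r1 (T : H →L[ℂ] H) (x y : H) : T * r1 x y = r1 (T x) y := by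
  ext z
  change T (⟪y, z⟫_ℂ • x) = ⟪y, z⟫_ℂ • T x
  rw [map_smul]

theorem r1_zero (y : H) : r1 (0 : H) y = 0 := by
  ext z
  change ⟪y, z⟫_ℂ • (0 : H) = 0
  rw [smul_zero]

theorem norm_one_le : ‖(1 : H →L[ℂ] H)‖ ≤ 1 := ContinuousLinearMap.norm_id_le

theorem norm_uni {Ω : H →L[ℂ] H} (h : Uni Ω) : ‖Ω‖ ≤ 1 := by
  have h1 : ‖star Ω * Ω‖ = ‖Ω‖ * ‖Ω‖ := CStarRing.norm_star_mul_self
  rw [h.1] at h1
  have h2 : ‖(1 : H →L[ℂ] H)‖ ≤ 1 := norm_one_le
  nlinarith [norm_nonneg Ω]

theorem norm_mul_le_one {a b : H →L[ℂ] H} (ha : ‖a‖ ≤ 1) (hb : ‖b‖ ≤ 1) : ‖a * b‖ ≤ 1 :=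
  (norm_mul_le a b).trans (mul_le_one₀ ha (norm_nonneg b) hb)

theorem norm_pow_le_one {a : H →L[ℂ] H} (ha : ‖a‖ ≤ 1) (m : ℕ) : ‖a ^ m‖ ≤ 1 := by
  induction m with
  | zero => rw [pow_zero]; exact norm_one_le
  | succ m ih => rw [pow_succ]; exact norm_mul_le_one ih ha

theorem br_mul (Z a b : H →L[ℂ] H) : br Z (a * b) = br Z a * b + a * br Z b := by
  unfold br
  noncomm_ring

theorem br_left {Z S : H →L[ℂ] H} (h : Z * S = S * Z) (b : H →L[ℂ] H) :
    br Z (S * b) = S * br Z b := by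
  unfold br
  rw [← mul_assoc, h]
  noncomm_ring

theorem br_right {Z S : H →L[ℂ] H} (h : Z * S = S * Z) (b : H →L[ℂ] H) :
    br Z (b * S) = br Z b * S := by
  unfold br
  rw [mul_assoc b S Z, ← h]
  noncomm_ring

theorem br_sub (Z a b : H →L[ℂ] H) : br Z (a - b) = br Z a - br Z b := by
  unfold br
  noncomm_ring

theorem br_of_comm {Z S : H →L[ℂ] H} (h : Z * S = S * Z) : br Z S = 0 := by
  unfold br
  rw [h, sub_self]

end

end PWRAux

open PWRAux

theorem blk_PWR : Stmt_CMM.{v} → Stmt_KMA.{v} → Stmt_KMB.{v} → Stmt_PAC.{v} → Stmt_MIX.{v} →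
    Stmt_RZP.{v} → Stmt_CLE.{v} → Stmt_CLC.{v} → Stmt_PWR.{v} := by
  intro hCMM hKMA hKMB hPAC hMIX hRZP hCLE hCLC H _ _ _ N Ω e ε hN hU hA hε hconv hk η hη
  obtain ⟨c1, c2, c3, c4, c5, c6, c7, c8, c9, c10, c11, c12, c13, c14⟩ := hCMM H N hN
  obtain ⟨a1, a2, a3, a4, a5, a6⟩ := hKMA H N hN
  obtain ⟨b1, b2, b3, b4, b5, b6, b7, b8, b9⟩ := hKMB H N hN
  obtain ⟨p1, p2, p3, p4, p5, p6, p7, p8, p9, p10, p11, p12, p13, p14, p15, p16, p17, p18⟩ :=
    hPAC H N e hN
  have hmix := fun (K : H →L[ℂ] H) (hK : IsT K) => hMIX H N K e hN hK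
  generalize hpdef : Pac N e = p at *
  generalize hsdef : Psg N e = s at *
  have hΩ : ‖Ω‖ ≤ 1 := norm_uni hU
  have hp1 : A1 N p := c13 p p11
  have hs1 : A1 N s := c13 s p12
  have hmul : ∀ x y, A1 N x → A1 N y → A1 N (x * y) := fun x y hx hy => (c12 x y hx hy).1
  have hadd : ∀ x y, A1 N x → A1 N y → A1 N (x + y) := fun x y hx hy => (c12 x y hx hy).2.1
  have hsub : ∀ x y, A1 N x → A1 N y → A1 N (x - y) := fun x y hx hy => (c12 x y hx hy).2.2
  have h11 : A1 N (1 : H →L[ℂ] H) := c13 1 c6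
  have hpow : ∀ x, A1 N x → ∀ m : ℕ, A1 N (x ^ m) := by
    intro x hx m
    induction m with
    | zero => rw [pow_zero]; exact h11
    | succ m ih => rw [pow_succ]; exact hmul _ _ ih hx
  have hT : ∀ x, A1 N x → ∀ e', IsT (br (dt e' N) x) := fun x hx e' => ((c11 x hx).1 e').1
  have kadd : ∀ e' x y, A1 N x → A1 N y → kp N e' (x + y) ≤ kp N e' x + kp N e' y :=
    fun e' x y hx hy => (b4 e' x y (hT x hx e') (hT y hy e')).1
  have kmul := b3
  have knn : ∀ e' x, A1 N x → 0 ≤ kp N e' x := fun e' x hx => (b5 e' x (hT x hx e')).1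
  have hpZ : ∀ e', dt e' N * p = p * dt e' N := (c1 p p11).1
  have hsZ : ∀ e', dt e' N * s = s * dt e' N := (c1 s p12).1
  -- mixed parts
  have F1 : ∀ e' x, A1 N x → kp N e' (s * x * p) = 0 := by
    intro e' x hx
    unfold kp
    rw [br_right (hpZ e'), br_left (hsZ e')]
    exact (hmix _ (hT x hx e')).1
  have F2 : ∀ e' x, A1 N x → kp N e' (p * x * s) = 0 := by
    intro e' x hx
    unfold kp
    rw [br_right (hsZ e'), br_left (hpZ e')]
    exact (hmix _ (hT x hx e')).2
  -- decomposition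
  have F4 : ∀ e' x, A1 N x → kp N e' x ≤ kp N e' (p * x * p) + kp N e' (s * x * s) := by
    intro e' x hx
    have h1 : x = (p * x * p + s * x * s) + (s * x * p + p * x * s) := by
      have h2 : x = (p + s) * x * (p + s) := by rw [p5, one_mul, mul_one]
      conv_lhs => rw [h2]
      noncomm_ring
    have g1 := hmul _ _ (hmul _ _ hp1 hx) hp1
    have g2 := hmul _ _ (hmul _ _ hs1 hx) hs1
    have g3 := hmul _ _ (hmul _ _ hs1 hx) hp1
    have g4 := hmul _ _ (hmul _ _ hp1 hx) hs1
    have k1 := kadd e' _ _ (hadd _ _ g1 g2) (hadd _ _ g3 g4)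
    have k2 := kadd e' _ _ g1 g2
    have k3 := kadd e' _ _ g3 g4
    rw [F1 e' x hx, F2 e' x hx] at k3
    rw [← h1] at k1
    linarith
  -- singular part
  have F5 : ∀ e' : ℂ, (e' = 1 ∨ e' = Complex.I) → ∀ m : ℕ, kp N e' (s * Ω ^ m * s) ≤ m * ε := by
    intro e' he' m
    induction m with
    | zero =>
      rw [pow_zero, mul_one, p4, b8 e' s p12]
      simp
    | succ m ih =>
      have g1 := hpow Ω hA m
      have h1 : s * Ω ^ (m + 1) * s =
          (s * Ω * s) * (s * Ω ^ m * s) + (s * Ω * p) * (p * Ω ^ m * s) := by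
        have h2 : (s * Ω * s) * (s * Ω ^ m * s) = s * Ω * s * Ω ^ m * s := by
          have : (s * Ω * s) * (s * Ω ^ m * s) = s * Ω * (s * s) * Ω ^ m * s := by noncomm_ring
          rw [this, p4]
        have h3 : (s * Ω * p) * (p * Ω ^ m * s) = s * Ω * p * Ω ^ m * s := by
          have : (s * Ω * p) * (p * Ω ^ m * s) = s * Ω * (p * p) * Ω ^ m * s := by noncomm_ring
          rw [this, p2]
        rw [h2, h3]
        have h4 : s * Ω * s * Ω ^ m * s + s * Ω * p * Ω ^ m * s =
            s * Ω * (p + s) * Ω ^ m * s := by noncomm_ring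
        rw [h4, p5, mul_one, pow_succ', ← mul_assoc]
      have g2 := hmul _ _ (hmul _ _ hs1 hA) hs1
      have g3 := hmul _ _ (hmul _ _ hs1 g1) hs1
      have g4 := hmul _ _ (hmul _ _ hs1 hA) hp1
      have g5 := hmul _ _ (hmul _ _ hp1 g1) hs1
      have k1 := kadd e' _ _ (hmul _ _ g2 g3) (hmul _ _ g4 g5)
      rw [← h1] at k1
      have k2 := kmul e' _ _ g2 g3
      have k3 := kmul e' _ _ g4 g5
      rw [F1 e' Ω hA, F2 e' (Ω ^ m) g1, zero_mul, mul_zero, add_zero] at k3
      have n1' : ‖s * Ω ^ m * s‖ ≤ 1 :=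
        norm_mul_le_one (norm_mul_le_one p9 (norm_pow_le_one hΩ m)) p9
      have n2' : ‖s * Ω * s‖ ≤ 1 := norm_mul_le_one (norm_mul_le_one p9 hΩ) p9
      have k4 := hk e' he'
      have k5 := knn e' _ g2
      have k6 := knn e' _ g3
      have k7 : kp N e' (s * Ω * s) * ‖s * Ω ^ m * s‖ ≤ kp N e' (s * Ω * s) :=
        mul_le_of_le_one_right k5 n1'
      have k8 : ‖s * Ω * s‖ * kp N e' (s * Ω ^ m * s) ≤ kp N e' (s * Ω ^ m * s) :=
        mul_le_of_le_one_left k6 n2'
      push_cast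
      linarith
  -- the compression
  have hΩh1 : A1 N (p * Ω * p) := hmul _ _ (hmul _ _ hp1 hA) hp1
  have F6 : ∀ e' : ℂ, ∀ m : ℕ, ∀ x, A1 N x → p * x = x →
      kp N e' (x * (p * Ω ^ m * p - p * (p * Ω * p) ^ m)) = 0 := by
    intro e' m
    induction m with
    | zero =>
      intro x hx hpx
      have h1 : x * (p * Ω ^ 0 * p - p * (p * Ω * p) ^ 0) = 0 := by
        rw [pow_zero, pow_zero, mul_one, p2, sub_self, mul_zero]
      rw [h1]
      refine b8 e' 0 ?_
      constructor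
      · rw [mul_zero, zero_mul]
      · rw [mul_zero, zero_mul]
    | succ m ih =>
      intro x hx hpx
      have g1 := hpow Ω hA m
      have g2 := hpow _ hΩh1 m
      have h1 : x * (p * Ω ^ (m + 1) * p - p * (p * Ω * p) ^ (m + 1)) =
          (x * (p * Ω * p)) * (p * Ω ^ m * p - p * (p * Ω * p) ^ m) +
            (p * (x * p * Ω) * s) * (s * Ω ^ m * p) := by
        have h2 : (p * (x * p * Ω) * s) * (s * Ω ^ m * p) = x * p * Ω * s * Ω ^ m * p := by
          have : (p * (x * p * Ω) * s) * (s * Ω ^ m * p) =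
              (p * x) * p * Ω * (s * s) * Ω ^ m * p := by noncomm_ring
          rw [this, p4, hpx]
        have h3 : (x * (p * Ω * p)) * (p * Ω ^ m * p - p * (p * Ω * p) ^ m) =
            x * p * Ω * p * Ω ^ m * p - x * (p * Ω * p) * (p * Ω * p) ^ m := by
          have : (x * (p * Ω * p)) * (p * Ω ^ m * p - p * (p * Ω * p) ^ m) =
              x * p * Ω * (p * p) * Ω ^ m * p - x * (p * Ω * (p * p)) * (p * Ω * p) ^ m := by
            noncomm_ring
          rw [this, p2]
        have h5 : p * (p * Ω * p) ^ (m + 1) = (p * Ω * p) * (p * Ω * p) ^ m := by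
          rw [pow_succ', ← mul_assoc]
          have : p * (p * Ω * p) = (p * p) * Ω * p := by noncomm_ring
          rw [this, p2]
        have h6 : x * (p * Ω ^ (m + 1) * p) =
            x * p * Ω * p * Ω ^ m * p + x * p * Ω * s * Ω ^ m * p := by
          have : x * p * Ω * p * Ω ^ m * p + x * p * Ω * s * Ω ^ m * p =
              x * p * Ω * (p + s) * Ω ^ m * p := by noncomm_ring
          rw [this, p5, mul_one, pow_succ']
          noncomm_ring
        rw [h2, h3, mul_sub, h5, h6]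
        noncomm_ring
      have g3 := hmul _ _ hx hΩh1
      have g4 : A1 N (p * Ω ^ m * p - p * (p * Ω * p) ^ m) :=
        hsub _ _ (hmul _ _ (hmul _ _ hp1 g1) hp1) (hmul _ _ hp1 g2)
      have g5 : A1 N (x * p * Ω) := hmul _ _ (hmul _ _ hx hp1) hA
      have g6 : A1 N (p * (x * p * Ω) * s) := hmul _ _ (hmul _ _ hp1 g5) hs1
      have g7 : A1 N (s * Ω ^ m * p) := hmul _ _ (hmul _ _ hs1 g1) hp1
      have k1 := kadd e' _ _ (hmul _ _ g3 g4) (hmul _ _ g6 g7)
      rw [← h1] at k1
      have k2 := ih (x * (p * Ω * p)) g3 (by rw [← mul_assoc, hpx])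
      have k3 := kmul e' _ _ g6 g7
      rw [F2 e' _ g5, F1 e' _ g1, zero_mul, mul_zero, add_zero] at k3
      have k4 : A1 N (x * (p * Ω ^ (m + 1) * p - p * (p * Ω * p) ^ (m + 1))) := by
        rw [h1]; exact hadd _ _ (hmul _ _ g3 g4) (hmul _ _ g6 g7)
      have k5 := knn e' _ k4
      linarith
  -- the powers of the compression
  set V : H →L[ℂ] H := p * Ω * p with hV
  set W : ℕ → H →L[ℂ] H := fun m => p * V ^ m with hW
  have hVn : ‖V‖ ≤ 1 := norm_mul_le_one (norm_mul_le_one p8 hΩ) p8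
  have hpV : p * V = V := by
    rw [hV, ← mul_assoc, ← mul_assoc, p2]
  have hVp : V * p = V := by
    rw [hV, mul_assoc, p2]
  have hW0 : W 0 = p := by
    simp only [hW, pow_zero, mul_one]
  have hWs : ∀ m, W (m + 1) = V * W m := by
    intro m
    simp only [hW]
    rw [pow_succ', ← mul_assoc, hpV, ← mul_assoc, hVp]
  have hpW : ∀ m, p * W m = W m := by
    intro m
    simp only [hW]
    rw [← mul_assoc, p2]
  have hWn : ∀ m, ‖W m‖ ≤ 1 := fun m => norm_mul_le_one p8 (norm_pow_le_one hVn m)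
  have hW1 : ∀ m, A1 N (W m) := fun m => hmul _ _ hp1 (hpow V hΩh1 m)
  have hB1 : A1 N (V - p) := hsub _ _ hΩh1 hp1
  have hWB : ∀ m, W m - p = (V - p) * ∑ j ∈ Finset.range m, W j := by
    intro m
    induction m with
    | zero => rw [hW0, sub_self, Finset.sum_range_zero, mul_zero]
    | succ m ih =>
      rw [Finset.sum_range_succ, mul_add, ← ih, hWs, sub_mul, hpW]
      abel
  have hd1 : ∀ m, A1 N (∑ j ∈ Finset.range m, W j) := by
    intro m
    induction m with
    | zero =>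
      rw [Finset.sum_range_zero]
      exact c14 0 isT_zero
    | succ m ih => rw [Finset.sum_range_succ]; exact hadd _ _ ih (hW1 m)
  have hdn : ∀ m : ℕ, ‖∑ j ∈ Finset.range m, W j‖ ≤ m := by
    intro m
    refine (norm_sum_le _ _).trans ?_
    refine (Finset.sum_le_sum fun j _ => hWn j).trans ?_
    rw [Finset.sum_const, Finset.card_range, nsmul_eq_mul, mul_one]
  have hWc : ∀ (e' : ℂ) (m : ℕ), n1 (br (dt e' N) (W m - p)) ≤ m * n1 (br (dt e' N) Ω) := by
    intro e' m
    induction m with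
    | zero =>
      rw [hW0, sub_self]
      have : br (dt e' N) 0 = 0 := by unfold br; rw [mul_zero, zero_mul, sub_zero]
      rw [this, n1_zero]
      simp
    | succ m ih =>
      have h1 : br (dt e' N) (W (m + 1) - p) =
          br (dt e' N) V * W m + V * br (dt e' N) (W m - p) := by
        rw [br_sub, br_of_comm (hpZ e'), sub_zero, hWs, br_mul, br_sub, br_of_comm (hpZ e'),
          sub_zero]
      have h2 : br (dt e' N) V = p * br (dt e' N) Ω * p := by
        rw [hV, br_right (hpZ e'), br_left (hpZ e')]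
      have hTΩ := hT Ω hA e'
      have hTV := hT V hΩh1 e'
      have hTW := hT _ (hsub _ _ (hW1 m) hp1) e'
      rw [h1]
      refine (n1_add_le (hTV.mul_right _) (hTW.mul_left _)).trans ?_
      have k1 := n1_mul_right_le (W m) hTV
      have k2 := n1_mul_left_le V hTW
      have k3 : n1 (br (dt e' N) V) ≤ n1 (br (dt e' N) Ω) := by
        rw [h2]
        refine (n1_mul_right_le p (hTΩ.mul_left p)).trans ?_
        have := n1_mul_left_le p hTΩ
        have q1 := mul_le_of_le_one_left (n1_nonneg (p * br (dt e' N) Ω)) p8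
        have q2 := mul_le_of_le_one_left (n1_nonneg (br (dt e' N) Ω)) p8
        linarith
      have k4 := mul_le_of_le_one_left (n1_nonneg (br (dt e' N) V)) (hWn m)
      have k5 := mul_le_of_le_one_left (n1_nonneg (br (dt e' N) (W m - p))) hVn
      push_cast
      linarith
  -- convergence of the conjugations of `V - p`
  have hconvB : ∀ ψ : H, Tendsto (fun t : ℝ => cj N (t * e) (V - p) ψ) atTop (𝓝 0) := by
    intro ψ
    have h1 := hconv (p ψ) (p14 ψ)
    have h2 : Tendsto (fun t : ℝ => p (cj N (t * e) Ω (p ψ)) - p ψ) atTop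
        (𝓝 (p (p ψ) - p ψ)) := ((p.continuous.tendsto _).comp h1).sub tendsto_const_nhds
    have h3 : p (p ψ) - p ψ = 0 := by
      have : p (p ψ) = (p * p) ψ := rfl
      rw [this, p2, sub_self]
    rw [h3] at h2
    refine h2.congr fun t => ?_
    have h4 : cj N (t * e) (V - p) = p * cj N (t * e) Ω * p - p := by
      have q1 : ∀ z, ex N z * p = p * ex N z := (c1 p p11).2.1
      have q2 : ex N (t * e) * ex N (-(t * e)) = 1 := by
        rw [← Pool.Bes.EXB.ex_add, add_neg_cancel, Pool.Bes.EXB.ex_zero N hN]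
      unfold cj
      rw [hV]
      have q3 : ex N (t * e) * (p * Ω * p - p) * ex N (-(t * e)) =
          (ex N (t * e) * p) * Ω * (p * ex N (-(t * e))) -
            (ex N (t * e) * p) * ex N (-(t * e)) := by noncomm_ring
      rw [q3, q1, ← q1 (-(t * e))]
      have q4 : p * ex N (t * e) * ex N (-(t * e)) = p * (ex N (t * e) * ex N (-(t * e))) := by
        rw [mul_assoc]
      rw [q4, q2, mul_one]
      noncomm_ring
    rw [h4]
    rfl
  -- the absolutely continuous part
  have F7 : ∀ e' : ℂ, (e' = 1 ∨ e' = Complex.I) → ∃ M : ℕ, ∀ m : ℕ, M ≤ m →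
      kp N e' (p * Ω ^ m * p) ≤ m * η := by
    intro e' he'
    have hne : ‖e'‖ = 1 := by
      rcases he' with h | h
      · rw [h, norm_one]
      · rw [h, Complex.norm_I]
    obtain ⟨r, x, y, hxy⟩ := exists_fin_near (hT (V - p) hB1 e') (η / 3) (by positivity)
    obtain ⟨R, r1', r2', r3', r4', r5', r6', r7'⟩ := hRZP H N e' hN r x
    obtain ⟨n, hn⟩ := exists_nat_gt (3 * n1 (br (dt e' N) Ω) / η)
    set n' := n + 1 with hn'
    have hn1 : 1 ≤ n' := by omega
    have hnb : n1 (br (dt e' N) Ω) / n' ≤ η / 3 := by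
      have h0 : (0 : ℝ) < n' := by exact_mod_cast hn1
      rw [div_le_iff₀ h0]
      rw [div_lt_iff₀ hη] at hn
      have h5 : (n : ℝ) ≤ n' := by exact_mod_cast Nat.le_succ n
      have h6 : (n : ℝ) * η ≤ n' * η := mul_le_mul_of_nonneg_right h5 hη.le
      linarith
    obtain ⟨M, hM⟩ := exists_nat_gt (3 * (4 * n' * r * (‖e'‖ * ‖N‖) * 2) / η)
    refine ⟨M, fun m hm => ?_⟩
    -- from `p Ω^m p` to `W m`
    have g1 := hpow Ω hA m
    have g2 : A1 N (p * Ω ^ m * p) := hmul _ _ (hmul _ _ hp1 g1) hp1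
    have g3 : A1 N (p * Ω ^ m * p - W m) := hsub _ _ g2 (hW1 m)
    have g4 : A1 N (W m - p) := hsub _ _ (hW1 m) hp1
    have k1 : kp N e' (p * Ω ^ m * p - W m) = 0 := by
      have h1 := F6 e' m p hp1 p2
      have h2 : p * (p * Ω ^ m * p - p * V ^ m) = p * Ω ^ m * p - W m := by
        rw [mul_sub, ← mul_assoc, ← mul_assoc, ← mul_assoc, p2]
      rw [h2] at h1
      exact h1
    have k2 : kp N e' (p * Ω ^ m * p) ≤ kp N e' (W m - p) := by
      have h1 := kadd e' _ _ g3 (hadd _ _ g4 hp1)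
      have h2 := kadd e' _ _ g4 hp1
      rw [b8 e' p p11] at h2
      have h3 : p * Ω ^ m * p - W m + (W m - p + p) = p * Ω ^ m * p := by abel
      rw [h3, k1] at h1
      linarith
    have hRZ : dt e' N * R = R * dt e' N := r5'
    have hRZ' : dt e' N * (1 - R) = (1 - R) * dt e' N := by
      rw [mul_sub, sub_mul, mul_one, one_mul, hRZ]
    have hTW := hT _ g4 e'
    have hT1 : IsT (br (dt e' N) (R * (W m - p))) := by
      rw [br_left hRZ]; exact hTW.mul_left _
    have hT2 : IsT (br (dt e' N) ((1 - R) * (W m - p))) := by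
      rw [br_left hRZ']; exact hTW.mul_left _
    have k3 : kp N e' (W m - p) ≤ kp N e' (R * (W m - p)) + kp N e' ((1 - R) * (W m - p)) := by
      have h1 := (b4 e' _ _ hT1 hT2).1
      have h2 : R * (W m - p) + (1 - R) * (W m - p) = W m - p := by
        rw [← add_mul, add_sub_cancel, one_mul]
      rwa [h2] at h1
    have k4 : kp N e' (R * (W m - p)) ≤ 4 * n' * r * (‖e'‖ * ‖N‖) * 2 + m * (η / 3) := by
      have h1 := hCLE H N e' hN r x R r3' r6' r5' r7' (W m - p) hTW n' hn1
      have h2 : ‖W m - p‖ ≤ 2 := by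
        refine (norm_sub_le _ _).trans ?_
        have := hWn m
        linarith
      have h3 : 4 * (n' : ℝ) * r * (‖e'‖ * ‖N‖) * ‖W m - p‖ ≤
          4 * n' * r * (‖e'‖ * ‖N‖) * 2 := mul_le_mul_of_nonneg_left h2 (by positivity)
      have h4 : n1 (br (dt e' N) (W m - p)) / n' ≤ m * (η / 3) := by
        refine (div_le_div_of_nonneg_right (hWc e' m) (by positivity)).trans ?_
        rw [mul_div_assoc]
        exact mul_le_mul_of_nonneg_left hnb (by positivity)
      linarith
    have hRs : IsSelfAdjoint (1 - R) := by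
      have : IsSelfAdjoint (1 : H →L[ℂ] H) := IsSelfAdjoint.one _
      exact this.sub r1'
    have hRR : (1 - R) * (1 - R) = 1 - R := by
      have : (1 - R) * (1 - R) = 1 - R - R + R * R := by noncomm_ring
      rw [this, r2']; abel
    have hRn : ‖1 - R‖ ≤ 1 := by
      have h1 : ‖star (1 - R) * (1 - R)‖ = ‖1 - R‖ * ‖1 - R‖ := CStarRing.norm_star_mul_self
      rw [hRs.star_eq, hRR] at h1
      have h0 := norm_nonneg (1 - R)
      rcases h0.eq_or_lt with h | h
      · rw [← h]; exact zero_le_one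
      · have : ‖1 - R‖ * 1 = ‖1 - R‖ * ‖1 - R‖ := by rw [mul_one]; exact h1
        have := mul_left_cancel₀ h.ne' this
        linarith
    have k5 : kp N e' ((1 - R) * (W m - p)) ≤ η / 3 * m := by
      rw [hWB m, ← mul_assoc]
      refine (hCLC H N (V - p) _ (1 - R) e e' hN hB1 (hd1 m) hRn hRZ' hconvB).trans ?_
      have h1 : n1 ((1 - R) * br (dt e' N) (V - p)) ≤ η / 3 := by
        have h2 : (1 - R) * br (dt e' N) (V - p) =
            (1 - R) * (br (dt e' N) (V - p) - ∑ i, r1 (x i) (y i)) := by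
          rw [mul_sub (1 - R) (br (dt e' N) (V - p))]
          have h3 : (1 - R) * ∑ i, r1 (x i) (y i) = 0 := by
            rw [Finset.mul_sum]
            refine Finset.sum_eq_zero fun i _ => ?_
            rw [mul_r1]
            have h4 : (1 - R) (x i) = 0 := by
              change x i - R (x i) = 0
              rw [r4' i, sub_self]
            rw [h4, r1_zero]
          rw [h3, sub_zero]
        rw [h2]
        have hf : IsT (∑ i, r1 (x i) (y i)) := IsT.sum _ _ fun i _ => isT_r1 _ _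
        refine (n1_mul_left_le (1 - R) ((hT (V - p) hB1 e').sub hf)).trans ?_
        refine (mul_le_of_le_one_left (n1_nonneg _) hRn).trans hxy.le
      have h2 := hdn m
      have h3 : 0 ≤ ‖∑ j ∈ Finset.range m, W j‖ := norm_nonneg _
      have h4 := n1_nonneg ((1 - R) * br (dt e' N) (V - p))
      exact mul_le_mul h1 h2 h3 (by positivity)
    have k6 : 4 * (n' : ℝ) * r * (‖e'‖ * ‖N‖) * 2 ≤ m * (η / 3) := by
      have h1 : (M : ℝ) ≤ m := by exact_mod_cast hm
      rw [div_lt_iff₀ hη] at hM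
      have h2 : (M : ℝ) * η ≤ m * η := mul_le_mul_of_nonneg_right h1 hη.le
      linarith
    linarith
  obtain ⟨M1, hM1⟩ := F7 1 (Or.inl rfl)
  obtain ⟨M2, hM2⟩ := F7 Complex.I (Or.inr rfl)
  refine ⟨max 1 (max M1 M2), le_max_left _ _, fun e' he' => ?_⟩
  have h1 := F4 e' _ (hpow Ω hA (max 1 (max M1 M2)))
  have h2 := F5 e' he' (max 1 (max M1 M2))
  have h3 : kp N e' (p * Ω ^ (max 1 (max M1 M2)) * p) ≤ (max 1 (max M1 M2) : ℕ) * η := by
    rcases he' with h | h
    · rw [h]; exact hM1 _ ((le_max_left _ _).trans (le_max_right _ _))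
    · rw [h]; exact hM2 _ ((le_max_right _ _).trans (le_max_right _ _))
  rw [mul_add]
  linarith

end Pool.Q2
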