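import Pool.Agent.Work.MP_8c7e5b_q2.Interface2

/-!
# Block RZP: the cyclic projection
-/

open MeasureTheory Complex Filter Topology
open scoped ComplexOrder InnerProductSpace ComplexConjugate

set_option autoImplicit false
set_option linter.unusedSectionVars false

universe v

namespace Pool.Q2

open Pool.Bes

namespace RZPAux

variable {H : Type v} [NormedAddCommGroup H] [InnerProductSpace ℂ H] [CompleteSpace H]

/-- the combinations `∑ fe e (g k) N (v k)` -/
def Cb (N : H →L[ℂ] H) (e : ℂ) {r : ℕ} (v : Fin r → H) : Set H :=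
  {x | ∃ g : Fin r → ℝ → ℂ, (∀ k, Continuous (g k)) ∧ x = ∑ k, fe e (g k) N (v k)}

/-- the cyclic subspace -/
noncomputable def Cy (N : H →L[ℂ] H) (e : ℂ) {r : ℕ} (v : Fin r → H) : Submodule ℂ H :=
  (Submodule.span ℂ (Cb N e v)).topologicalClosure

theorem isClosed_Cy (N : H →L[ℂ] H) (e : ℂ) {r : ℕ} (v : Fin r → H) :
    IsClosed ((Cy N e v : Submodule ℂ H) : Set H) :=
  Submodule.isClosed_topologicalClosure _

noncomputable instance (N : H →L[ℂ] H) (e : ℂ) {r : ℕ} (v : Fin r → H) :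
    CompleteSpace (Cy N e v) :=
  (isClosed_Cy N e v).completeSpace_coe

theorem zero_mem_Cb (hF : Stmt_FEX.{v}) {N : H →L[ℂ] H} (hN : IsStarNormal N) (e : ℂ) {r : ℕ}
    (v : Fin r → H) : (0 : H) ∈ Cb N e v := by
  obtain ⟨hadd, hsmul, -⟩ := hF H N e hN
  refine ⟨fun _ _ => 0, fun _ => continuous_const, ?_⟩
  have h1 := hsmul 0 (fun _ => 0) continuous_const
  simp only [zero_mul, zero_smul] at h1
  simp [h1]

theorem mem_Cb_of_span (hF : Stmt_FEX.{v}) {N : H →L[ℂ] H} (hN : IsStarNormal N) (e : ℂ) {r : ℕ}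
    (v : Fin r → H) {x : H} (hx : x ∈ Submodule.span ℂ (Cb N e v)) : x ∈ Cb N e v := by
  obtain ⟨hadd, hsmul, -⟩ := hF H N e hN
  refine Submodule.span_induction (p := fun x _ => x ∈ Cb N e v) ?_ ?_ ?_ ?_ hx
  · exact fun x hx => hx
  · exact zero_mem_Cb hF hN e v
  · rintro x y _ _ ⟨g, hg, rfl⟩ ⟨g', hg', rfl⟩
    refine ⟨fun k x => g k x + g' k x, fun k => (hg k).add (hg' k), ?_⟩
    rw [← Finset.sum_add_distrib]
    refine Finset.sum_congr rfl fun k _ => ?_
    rw [(hadd _ _ (hg k) (hg' k)).1]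
    rfl
  · rintro a x _ ⟨g, hg, rfl⟩
    refine ⟨fun k x => a * g k x, fun k => continuous_const.mul (hg k), ?_⟩
    rw [Finset.smul_sum]
    refine Finset.sum_congr rfl fun k _ => ?_
    rw [hsmul _ _ (hg k)]
    rfl

theorem map_Cy (hF : Stmt_FEX.{v}) {N : H →L[ℂ] H} (hN : IsStarNormal N) (e : ℂ) {r : ℕ}
    (v : Fin r → H) {g : ℝ → ℂ} (hg : Continuous g) {x : H} (hx : x ∈ Cy N e v) :
    fe e g N x ∈ Cy N e v := by
  obtain ⟨hadd, hsmul, -⟩ := hF H N e hN
  unfold Cy at hx ⊢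
  rw [← SetLike.mem_coe, Submodule.topologicalClosure_coe] at hx ⊢
  refine map_mem_closure (fe e g N).continuous hx fun x hx => ?_
  obtain ⟨g', hg', rfl⟩ := mem_Cb_of_span hF hN e v hx
  refine Submodule.subset_span ⟨fun k x => g x * g' k x, fun k => hg.mul (hg' k), ?_⟩
  rw [map_sum]
  refine Finset.sum_congr rfl fun k _ => ?_
  rw [(hadd _ _ hg (hg' k)).2]
  rfl

/-- the cyclic projection -/
noncomputable def R (N : H →L[ℂ] H) (e : ℂ) {r : ℕ} (v : Fin r → H) : H →L[ℂ] H :=
  (Cy N e v).starProjection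

theorem R_sa (N : H →L[ℂ] H) (e : ℂ) {r : ℕ} (v : Fin r → H) : IsSelfAdjoint (R N e v) :=
  isSelfAdjoint_starProjection _

theorem R_mem (N : H →L[ℂ] H) (e : ℂ) {r : ℕ} (v : Fin r → H) (x : H) : R N e v x ∈ Cy N e v :=
  (Cy N e v).starProjection_apply_mem x

theorem R_eq {N : H →L[ℂ] H} {e : ℂ} {r : ℕ} {v : Fin r → H} {x : H} (hx : x ∈ Cy N e v) :
    R N e v x = x :=
  (Submodule.starProjection_eq_self_iff (K := Cy N e v) (v := x)).2 hx

theorem RSR (hF : Stmt_FEX.{v}) {N : H →L[ℂ] H} (hN : IsStarNormal N) (e : ℂ) {r : ℕ}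
    (v : Fin r → H) {g : ℝ → ℂ} (hg : Continuous g) :
    R N e v * (fe e g N * R N e v) = fe e g N * R N e v := by
  ext x
  exact R_eq (map_Cy hF hN e v hg (R_mem N e v x))

theorem comm (hF : Stmt_FEX.{v}) {N : H →L[ℂ] H} (hN : IsStarNormal N) (e : ℂ) {r : ℕ}
    (v : Fin r → H) {g : ℝ → ℂ} (hg : Continuous g) :
    fe e g N * R N e v = R N e v * fe e g N := by
  have h1 := RSR hF hN e v hg
  have hg' : Continuous fun x => conj (g x) := Complex.continuous_conj.comp hg
  have h2 := congrArg star (RSR hF hN e v hg')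
  have h3 : star (R N e v) = R N e v := R_sa N e v
  obtain ⟨-, -, hstar, -⟩ := hF H N e hN
  have h4 : star (fe e (fun x => conj (g x)) N) = fe e g N := by
    rw [hstar _ hg']
    congr 1
    funext x
    exact Complex.conj_conj _
  rw [star_mul, star_mul, h3, h4, mul_assoc] at h2
  rw [← h2, h1]

theorem mul_r1 (S : H →L[ℂ] H) (x y : H) : S * r1 x y = r1 (S x) y := by
  ext z
  change S (r1 x y z) = r1 (S x) y z
  rw [r1_apply, r1_apply, map_smul]

theorem r1_sub (x x' y : H) : r1 x y - r1 x' y = r1 (x - x') y := by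
  ext z
  change r1 x y z - r1 x' y z = r1 (x - x') y z
  rw [r1_apply, r1_apply, r1_apply, smul_sub]

end RZPAux

open RZPAux in
theorem blk_RZP (_hC : Stmt_CMM.{v}) (hF : Stmt_FEX.{v}) : Stmt_RZP.{v} := by
  intro H _ _ _ N e hN r v
  obtain ⟨hadd, hsmul, hstar, hone, hid, -⟩ := hF H N e hN
  have hnorm : ‖R N e v‖ ≤ 1 := (Cy N e v).starProjection_norm_le
  have hvk : ∀ k, v k ∈ Cy N e v := by
    intro k
    refine Submodule.le_topologicalClosure _ (Submodule.subset_span ?_)
    refine ⟨fun l _ => if l = k then 1 else 0, fun l => continuous_const, ?_⟩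
    have h0 : fe e (fun _ => (0 : ℂ)) N = 0 := by
      have h1 := hsmul 0 (fun _ => 0) continuous_const
      simpa only [zero_mul, zero_smul] using h1
    rw [Finset.sum_eq_single k]
    · simp only [if_true]
      rw [hone]
      rfl
    · intro l _ hl
      simp only [if_neg hl]
      rw [h0]
      rfl
    · intro h
      exact absurd (Finset.mem_univ k) h
  refine ⟨R N e v, R_sa N e v, (Cy N e v).isIdempotentElem_starProjection, hnorm,
    fun k => R_eq (hvk k), ?_, fun g hg => comm hF hN e v hg, ?_⟩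
  · rw [← hid]
    exact comm hF hN e v Complex.continuous_ofReal
  · intro K hK ε hε
    obtain ⟨n, x, y, hxy⟩ := exists_fin_near hK (ε / 2) (by positivity)
    have happ : ∀ i, ∃ g : Fin r → ℝ → ℂ, (∀ k, Continuous (g k)) ∧
        ‖R N e v (x i) - ∑ k, fe e (g k) N (v k)‖ < ε / (2 * (n + 1) * (‖y i‖ + 1)) := by
      intro i
      have h1 := R_mem N e v (x i)
      unfold Cy at h1
      rw [← SetLike.mem_coe, Submodule.topologicalClosure_coe, Metric.mem_closure_iff] at h1
      obtain ⟨w, hw, hd⟩ := h1 (ε / (2 * (n + 1) * (‖y i‖ + 1))) (by positivity)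
      obtain ⟨g, hg, rfl⟩ := mem_Cb_of_span hF hN e v hw
      exact ⟨g, hg, by rwa [← dist_eq_norm]⟩
    choose g hg hgx using happ
    refine ⟨n, g, y, fun i k => hg i k, ?_⟩
    have hf : IsT (∑ i, r1 (x i) (y i)) := IsT.sum _ _ fun i _ => isT_r1 _ _
    have hs : IsT (∑ i, r1 (R N e v (x i) - ∑ k, fe e (g i k) N (v k)) (y i)) :=
      IsT.sum _ _ fun i _ => isT_r1 _ _
    have h1 : R N e v * K - ∑ i, r1 (∑ k, fe e (g i k) N (v k)) (y i) =
        R N e v * (K - ∑ i, r1 (x i) (y i)) +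
          ∑ i, r1 (R N e v (x i) - ∑ k, fe e (g i k) N (v k)) (y i) := by
      rw [mul_sub, Finset.mul_sum]
      simp only [mul_r1, ← r1_sub, Finset.sum_sub_distrib]
      abel
    rw [h1]
    refine (n1_add_le ((hK.sub hf).mul_left _) hs).trans_lt ?_
    have h2 : n1 (R N e v * (K - ∑ i, r1 (x i) (y i))) < ε / 2 := by
      refine (n1_mul_left_le _ (hK.sub hf)).trans_lt ?_
      refine lt_of_le_of_lt ?_ hxy
      exact mul_le_of_le_one_left (n1_nonneg _) hnorm
    have h3 : n1 (∑ i, r1 (R N e v (x i) - ∑ k, fe e (g i k) N (v k)) (y i)) ≤ ε / 2 := by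
      refine (n1_sum_le _ _ fun i _ => isT_r1 _ _).trans ?_
      have h4 : ∀ i : Fin n, n1 (r1 (R N e v (x i) - ∑ k, fe e (g i k) N (v k)) (y i)) ≤
          ε / (2 * (n + 1)) := by
        intro i
        refine (n1_r1_le _ _).trans ?_
        have h5 := (hgx i).le
        have h6 : ‖R N e v (x i) - ∑ k, fe e (g i k) N (v k)‖ * ‖y i‖ ≤
            ε / (2 * (n + 1) * (‖y i‖ + 1)) * (‖y i‖ + 1) := by
          refine mul_le_mul h5 (by linarith) (norm_nonneg _) (by positivity)
        refine h6.trans (le_of_eq ?_)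
        have h7 : (‖y i‖ + 1) ≠ 0 := by positivity
        field_simp
      refine (Finset.sum_le_sum fun i _ => h4 i).trans ?_
      rw [Finset.sum_const, Finset.card_univ, Fintype.card_fin, nsmul_eq_mul]
      rw [mul_div_assoc', div_le_div_iff₀ (by positivity) (by positivity)]
      nlinarith
    linarith

end Pool.Q2
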