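import Pool.Agent.Work.MP_8c7e5b_q2.Interface2

/-!
# MP_8c7e5b_an, Q2, block SHF: from pairs to commutators (the shift)
-/

open MeasureTheory Complex Filter Topology
open scoped ComplexOrder InnerProductSpace ComplexConjugate

set_option autoImplicit false
set_option linter.unusedSectionVars false

universe v

namespace Pool.Q2

open Pool.Bes Pool.Bes.ALGAux

namespace SHFAux

section general

variable {ι : Type} {G : ι → Type v} [∀ k, NormedAddCommGroup (G k)]
  [∀ k, InnerProductSpace ℂ (G k)] [∀ k, CompleteSpace (G k)] {K : Type v}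
  [NormedAddCommGroup K] [InnerProductSpace ℂ K] [CompleteSpace K] {i : ∀ k, G k →L[ℂ] K}

/-- Operators on a Hilbert sum are determined on the summands. -/
theorem ext_hs (h : IsHS G K i) (A B : K →L[ℂ] K) (hAB : ∀ k x, A (i k x) = B (i k x)) :
    A = B := by
  refine ContinuousLinearMap.ext fun x => ?_
  have h1 := (h.sum x).mapL A
  have h2 := (h.sum x).mapL B
  have h3 : (fun k => A (i k ((ContinuousLinearMap.adjoint (i k)) x))) =
      fun k => B (i k ((ContinuousLinearMap.adjoint (i k)) x)) := funext fun k => hAB k _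
  rw [h3] at h1
  exact h1.unique h2

/-- The summands as isometries. -/
noncomputable def iso (h : IsHS G K i) (k : ι) : G k →ₗᵢ[ℂ] K :=
  ⟨(i k).toLinearMap, ((i k).norm_map_iff_adjoint_comp_self).2 (h.iso k)⟩

theorem iso_apply (h : IsHS G K i) (k : ι) (x : G k) : iso h k x = i k x := rfl

theorem orth (h : IsHS G K i) : OrthogonalFamily ℂ G (iso h) := by
  intro k l hkl x y
  rw [iso_apply, iso_apply, ← ContinuousLinearMap.adjoint_inner_right]
  have h1 : (ContinuousLinearMap.adjoint (i k)) ((i l) y) = 0 := by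
    have h2 := h.ort k l hkl
    exact congrArg (fun T : G l →L[ℂ] G k => T y) h2
  rw [h1, inner_zero_right]

theorem total (h : IsHS G K i) :
    ⊤ ≤ (⨆ k, LinearMap.range (iso h k).toLinearMap).topologicalClosure := by
  intro x _
  have h1 := h.sum x
  refine mem_closure_of_tendsto h1 (Filter.Eventually.of_forall fun s => ?_)
  refine Submodule.sum_mem _ fun k _ => ?_
  exact Submodule.mem_iSup_of_mem k ⟨_, rfl⟩

theorem hsum (h : IsHS G K i) : IsHilbertSum ℂ G (iso h) := IsHilbertSum.mk (orth h) (total h)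

end general

section shift

variable {H : Type v} [NormedAddCommGroup H] [InnerProductSpace ℂ H] [CompleteSpace H]
  {K : Type v} [NormedAddCommGroup K] [InnerProductSpace ℂ K] [CompleteSpace K]
  {i : ℤ → H →L[ℂ] K}

theorem exists_shift (h : IsHS (fun _ : ℤ => H) K i) :
    ∃ Ω : K →L[ℂ] K, Uni Ω ∧ ∀ k x, Ω (i k x) = i (k + 1) x := by
  classical
  have hV : IsHilbertSum ℂ (fun _ : ℤ => H) (fun k => iso h (k + 1)) := by
    refine IsHilbertSum.mk ?_ ?_
    · intro k l hkl x y
      have hkl' : k + 1 ≠ l + 1 := fun h' => hkl (add_right_cancel h')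
      exact orth h hkl' x y
    · refine (total h).trans (le_of_eq ?_)
      congr 1
      exact ((Equiv.addRight (1 : ℤ)).iSup_comp
        (g := fun k => LinearMap.range (iso h k).toLinearMap)).symm
  let E : K ≃ₗᵢ[ℂ] K := (hsum h).linearIsometryEquiv.trans hV.linearIsometryEquiv.symm
  refine ⟨(E.toContinuousLinearEquiv : K →L[ℂ] K), ⟨?_, ?_⟩, ?_⟩
  · have h1 := (Unitary.linearIsometryEquiv.symm E).2
    exact (Unitary.mem_iff.1 h1).1
  · have h1 := (Unitary.linearIsometryEquiv.symm E).2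
    exact (Unitary.mem_iff.1 h1).2
  · intro k x
    have h1 : (hsum h).linearIsometryEquiv (i k x) = lp.single 2 k x := by
      have h2 := (hsum h).linearIsometryEquiv_symm_apply_single (i := k) x
      rw [iso_apply] at h2
      rw [← h2, LinearIsometryEquiv.apply_symm_apply]
    change hV.linearIsometryEquiv.symm ((hsum h).linearIsometryEquiv (i k x)) = i (k + 1) x
    rw [h1]
    exact hV.linearIsometryEquiv_symm_apply_single (i := k) x

theorem adj_apply (h : IsHS (fun _ : ℤ => H) K i) (k : ℤ) (x : H) :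
    (ContinuousLinearMap.adjoint (i k)) (i k x) = x :=
  congrArg (fun T : H →L[ℂ] H => T x) (h.iso k)

theorem adj_apply_ne (h : IsHS (fun _ : ℤ => H) K i) (k l : ℤ) (hkl : k ≠ l) (x : H) :
    (ContinuousLinearMap.adjoint (i k)) (i l x) = 0 :=
  congrArg (fun T : H →L[ℂ] H => T x) (h.ort k l hkl)

end shift

theorem trO_cor {H : Type v} [NormedAddCommGroup H] [InnerProductSpace ℂ H] [CompleteSpace H]
    {K : Type v} [NormedAddCommGroup K] [InnerProductSpace ℂ K] [CompleteSpace K]
    (sTRN : Stmt_TRN.{v}) (j : H →L[ℂ] K)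
    (hj : (ContinuousLinearMap.adjoint j) ∘L j = ContinuousLinearMap.id ℂ H) (T : H →L[ℂ] H) :
    trO (j ∘L T ∘L (ContinuousLinearMap.adjoint j)) = trO T := by
  by_cases hT : IsT T
  · rw [(sTRN.1 H K j (ContinuousLinearMap.adjoint j) T hT).2.2, hj]
    congr 1
  · have h1 : ¬ IsT (j ∘L T ∘L (ContinuousLinearMap.adjoint j)) := by
      intro h2
      apply hT
      have h3 := (sTRN.1 K H (ContinuousLinearMap.adjoint j) j _ h2).1
      have h4 : (ContinuousLinearMap.adjoint j) ∘L
          (j ∘L T ∘L (ContinuousLinearMap.adjoint j)) ∘L j = T := by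
        refine ContinuousLinearMap.ext fun x => ?_
        have h5 : ∀ y : H, (ContinuousLinearMap.adjoint j) (j y) = y := fun y =>
          congrArg (fun T : H →L[ℂ] H => T y) hj
        change (ContinuousLinearMap.adjoint j)
          (j (T ((ContinuousLinearMap.adjoint j) (j x)))) = T x
        rw [h5, h5]
      rwa [h4] at h3
    rw [trO, trO, toS, toS, dif_neg hT, dif_neg h1, tr, tr, pr_zero_left, pr_zero_left]

end SHFAux

open SHFAux in
theorem blk_SHF (sLPA : Stmt_LPA.{v}) (sLPB : Stmt_LPB.{v}) (sTRN : Stmt_TRN.{v})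
    (_sCMM : Stmt_CMM.{v}) : Stmt_SHF.{v} := by
  intro H _ _ _ _ N₁ N₂ hN₁ hN₂ hT
  obtain ⟨K, _, _, _, _, i, hi⟩ := sLPA ℤ (fun _ => H)
  have hB := sLPB ℤ (fun _ => H) K i hi
  let A : ℤ → H →L[ℂ] H := fun k => if k ≤ 0 then N₁ else N₂
  have hA0 : ∀ k : ℤ, k ≤ 0 → A k = N₁ := fun k hk => if_pos hk
  have hA1 : ∀ k : ℤ, ¬ k ≤ 0 → A k = N₂ := fun k hk => if_neg hk
  obtain ⟨N, hN⟩ := hB.1 A (max ‖N₁‖ ‖N₂‖) (by
    intro k
    by_cases hk : k ≤ 0
    · rw [hA0 k hk]; exact le_max_left _ _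
    · rw [hA1 k hk]; exact le_max_right _ _)
  obtain ⟨hsN, hcN⟩ := hB.2 N A hN
  obtain ⟨hNn, hcf⟩ := hcN (by
    intro k
    by_cases hk : k ≤ 0
    · rw [hA0 k hk]; exact hN₁
    · rw [hA1 k hk]; exact hN₂)
  obtain ⟨Ω, hΩ, hsh⟩ := exists_shift hi
  have hN' : ∀ k x, N (i k x) = i k (A k x) := fun k x =>
    congrArg (fun T : H →L[ℂ] K => T x) (hN k)
  have hsN' : ∀ k x, (star N) (i k x) = i k (star (A k) x) := fun k x =>
    congrArg (fun T : H →L[ℂ] K => T x) (hsN k)
  have hΩs : ∀ k x, (star Ω) (i (k + 1) x) = i k x := by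
    intro k x
    rw [← hsh]
    exact congrArg (fun T : K →L[ℂ] K => T (i k x)) hΩ.1
  -- the general shape of a difference
  have key : ∀ (B : ℤ → H →L[ℂ] H) (B₁ B₂ : H →L[ℂ] H), (∀ k : ℤ, k ≤ 0 → B k = B₁) →
      (∀ k : ℤ, ¬ k ≤ 0 → B k = B₂) → ∀ k x, B (k + 1) x - B k x =
        (B₂ - B₁) ((ContinuousLinearMap.adjoint (i 0)) (i k x)) := by
    intro B B₁ B₂ h1 h2 k x
    rcases lt_trichotomy k 0 with hk | hk | hk
    · rw [h1 (k + 1) (by omega), h1 k hk.le, adj_apply_ne hi 0 k (by omega), map_zero, sub_self]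
    · subst hk
      rw [h1 0 le_rfl, h2 (0 + 1) (by omega), adj_apply hi, _root_.sub_apply]
    · rw [h2 (k + 1) (by omega), h2 k (by omega), adj_apply_ne hi 0 k (by omega), map_zero,
        sub_self]
  have hbr1 : br N Ω = i 1 ∘L (N₂ - N₁) ∘L (ContinuousLinearMap.adjoint (i 0)) := by
    refine ext_hs hi _ _ fun k x => ?_
    change N (Ω (i k x)) - Ω (N (i k x)) =
      i 1 ((N₂ - N₁) ((ContinuousLinearMap.adjoint (i 0)) (i k x)))
    rw [← key A N₁ N₂ hA0 hA1 k x, hsh, hN', hN', hsh, ← map_sub]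
    by_cases hk : k = 0
    · subst hk
      rfl
    · have h0 : A (k + 1) x - A k x = 0 := by
        rw [key A N₁ N₂ hA0 hA1 k x, adj_apply_ne hi 0 k (Ne.symm hk), map_zero]
      rw [h0, map_zero, map_zero]
  have hbr2 : br (star N) Ω =
      i 1 ∘L (star N₂ - star N₁) ∘L (ContinuousLinearMap.adjoint (i 0)) := by
    have hs0 : ∀ k : ℤ, k ≤ 0 → star (A k) = star N₁ := fun k hk => by rw [hA0 k hk]
    have hs1 : ∀ k : ℤ, ¬ k ≤ 0 → star (A k) = star N₂ := fun k hk => by rw [hA1 k hk]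
    have keys := key (fun k => star (A k)) (star N₁) (star N₂) hs0 hs1
    refine ext_hs hi _ _ fun k x => ?_
    change (star N) (Ω (i k x)) - Ω ((star N) (i k x)) =
      i 1 ((star N₂ - star N₁) ((ContinuousLinearMap.adjoint (i 0)) (i k x)))
    rw [← keys k x, hsh, hsN', hsN', hsh, ← map_sub]
    by_cases hk : k = 0
    · subst hk
      rfl
    · have h0 : star (A (k + 1)) x - star (A k) x = 0 := by
        have h1 := keys k x
        rw [adj_apply_ne hi 0 k (Ne.symm hk), map_zero] at h1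
        exact h1
      rw [h0, map_zero, map_zero]
  have hT1 : IsT (br N Ω) := by
    rw [hbr1]
    exact (sTRN.1 H K (i 1) (ContinuousLinearMap.adjoint (i 0)) (N₂ - N₁) hT).1
  have hT2 : IsT (br (star N) Ω) := by
    rw [hbr2]
    refine (sTRN.1 H K (i 1) (ContinuousLinearMap.adjoint (i 0)) (star N₂ - star N₁) ?_).1
    rw [← star_sub]
    exact hT.star
  have hdt : ∀ e : ℂ, IsT (br (dt e N) Ω) := by
    intro e
    have h1 : br (dt e N) Ω = (1 / 2 : ℂ) • (conj e • br N Ω + e • br (star N) Ω) := by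
      rw [br, br, br, dt]
      simp only [smul_mul_assoc, mul_smul_comm, add_mul, mul_add, smul_sub, smul_add]
      abel
    rw [h1]
    exact ((hT1.smul _).add (hT2.smul _)).smul _
  refine ⟨K, inferInstance, inferInstance, inferInstance, inferInstance, N, Ω, hNn, hΩ,
    ⟨hdt 1, hdt Complex.I⟩, fun f hf => ?_⟩
  have hfc : Continuous f := hf.1.continuous
  have hcf' : ∀ k x, (cfc f N) (i k x) = i k (cfc f (A k) x) := fun k x =>
    congrArg (fun T : H →L[ℂ] K => T x) (hcf f hfc k)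
  have h1 : star Ω * cfc f N * Ω - cfc f N =
      i 0 ∘L (cfc f N₂ - cfc f N₁) ∘L (ContinuousLinearMap.adjoint (i 0)) := by
    have hs0 : ∀ k : ℤ, k ≤ 0 → cfc f (A k) = cfc f N₁ := fun k hk => by rw [hA0 k hk]
    have hs1 : ∀ k : ℤ, ¬ k ≤ 0 → cfc f (A k) = cfc f N₂ := fun k hk => by rw [hA1 k hk]
    have keyf := key (fun k => cfc f (A k)) (cfc f N₁) (cfc f N₂) hs0 hs1
    refine ext_hs hi _ _ fun k x => ?_
    change (star Ω) ((cfc f N) (Ω (i k x))) - (cfc f N) (i k x) =
      i 0 ((cfc f N₂ - cfc f N₁) ((ContinuousLinearMap.adjoint (i 0)) (i k x)))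
    rw [← keyf k x, hsh, hcf', hcf', hΩs, ← map_sub]
    by_cases hk : k = 0
    · subst hk
      rfl
    · have h0 : cfc f (A (k + 1)) x - cfc f (A k) x = 0 := by
        have h1 := keyf k x
        rw [adj_apply_ne hi 0 k (Ne.symm hk), map_zero] at h1
        exact h1
      rw [h0, map_zero, map_zero]
  rw [TU, Tf, h1]
  exact trO_cor sTRN (i 0) (hi.iso 0) _

end Pool.Q2
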