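import Pool.Agent.Work.MP_8c7e5b_q2.Interface2

/-!
# Block SNA of MP_8c7e5b_an, Q2 (helper79): vectors orthogonal to `Hac` are singular
-/

open MeasureTheory Complex Filter Topology
open scoped ComplexOrder InnerProductSpace ComplexConjugate BoundedContinuousFunction ENNReal

set_option autoImplicit false

universe v

namespace Pool.Q2

open Pool.Bes

namespace SNAAux

/-- a measure which does not charge the sets where it is dominated by Lebesgue measure -/
theorem sing_of (μ : Measure ℝ) [IsFiniteMeasure μ]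
    (h : ∀ (m : ℕ) (B : Set ℝ), MeasurableSet B → μ.restrict B ≤ (m : ℝ≥0∞) • volume → μ B = 0) :
    μ ⟂ₘ volume := by
  obtain ⟨f, hf⟩ : ∃ f, f = μ.rnDeriv volume := ⟨_, rfl⟩
  have hfm : Measurable f := by rw [hf]; exact Measure.measurable_rnDeriv _ _
  have hdec : μ = μ.singularPart volume + volume.withDensity f := by
    rw [hf]; exact Measure.haveLebesgueDecomposition_add μ volume
  have hflt : volume {x | ¬ f x < ⊤} = 0 := by
    rw [hf]
    exact Measure.rnDeriv_lt_top μ volume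
  obtain ⟨S, hS, hS1, hS2⟩ := Measure.mutuallySingular_singularPart μ volume
  have hac : (volume.withDensity f) ≪ volume := withDensity_absolutelyContinuous _ _
  have hB : ∀ m : ℕ, μ (S ∩ {x | f x ≤ m}) = 0 := by
    intro m
    have hBm : MeasurableSet (S ∩ {x | f x ≤ m}) := hS.inter (measurableSet_le hfm measurable_const)
    refine h m _ hBm ?_
    rw [Measure.le_iff]
    intro A hA
    have hAB : MeasurableSet (A ∩ (S ∩ {x | f x ≤ m})) := hA.inter hBm
    rw [Measure.restrict_apply hA]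
    have h1 : μ (A ∩ (S ∩ {x | f x ≤ m})) =
        μ.singularPart volume (A ∩ (S ∩ {x | f x ≤ m})) +
          (volume.withDensity f) (A ∩ (S ∩ {x | f x ≤ m})) := by
      conv_lhs => rw [hdec]
      rfl
    have h2 : μ.singularPart volume (A ∩ (S ∩ {x | f x ≤ m})) = 0 :=
      measure_mono_null (fun x hx => hx.2.1) hS1
    rw [h1, h2, zero_add, withDensity_apply _ hAB]
    calc ∫⁻ x in A ∩ (S ∩ {x | f x ≤ m}), f x
        ≤ ∫⁻ _ in A ∩ (S ∩ {x | f x ≤ m}), (m : ℝ≥0∞) :=
          setLIntegral_mono measurable_const fun x hx => hx.2.2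
      _ = (m : ℝ≥0∞) * volume (A ∩ (S ∩ {x | f x ≤ m})) := setLIntegral_const _ _
      _ ≤ (m : ℝ≥0∞) * volume A := by gcongr; exact Set.inter_subset_left
      _ = ((m : ℝ≥0∞) • volume) A := rfl
  have hwd : volume.withDensity f = 0 := by
    rw [← Measure.measure_univ_eq_zero]
    refine measure_mono_null (t := Sᶜ ∪ {x | ¬ f x < ⊤} ∪ ⋃ m : ℕ, (S ∩ {x | f x ≤ m})) ?_ ?_
    · intro x _
      by_cases hx : x ∈ S
      · by_cases hx2 : f x < ⊤
        · right
          obtain ⟨m, hm⟩ := ENNReal.exists_nat_gt hx2.ne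
          exact Set.mem_iUnion.mpr ⟨m, hx, hm.le⟩
        · left; right; exact hx2
      · left; left; exact hx
    · refine measure_union_null (measure_union_null (hac hS2) (hac hflt)) ?_
      refine measure_iUnion_null fun m => ?_
      have h1 := hB m
      rw [hdec] at h1
      rw [Measure.add_apply] at h1
      exact (add_eq_zero.mp h1).2
  have h2 : μ = μ.singularPart volume := by
    conv_lhs => rw [hdec, hwd, add_zero]
  rw [h2]
  exact Measure.mutuallySingular_singularPart μ volume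

/-- the spectral mass of the sets where the spectral measure is dominated by Lebesgue measure -/
theorem null_of {H : Type v} [NormedAddCommGroup H] [InnerProductSpace ℂ H] [CompleteSpace H]
    (hFEX : Stmt_FEX.{v}) (N : H →L[ℂ] H) (e : ℂ) (hN : IsStarNormal N) (v : H)
    (hv : v ∈ (Hac N e)ᗮ) (μ : Measure ℝ) [IsFiniteMeasure μ]
    (hμ : μ (Set.Icc (-(‖e‖ * ‖N‖)) (‖e‖ * ‖N‖))ᶜ = 0)
    (hsp : ∀ g : ℝ → ℂ, Continuous g → ⟪v, fe e g N v⟫_ℂ = ∫ x, g x ∂μ)
    (m : ℕ) (B : Set ℝ) (hB : MeasurableSet B) (hBm : μ.restrict B ≤ (m : ℝ≥0∞) • volume) :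
    μ B = 0 := by
  obtain ⟨F1, F2, F3, F4, F5, F6, F7, F8, F9, F10⟩ := hFEX H N e hN
  -- boundedness on the support
  have hbd : ∀ g : ℝ → ℂ, Continuous g → ∃ U : ℝ, 0 ≤ U ∧ ∀ᵐ x ∂μ, ‖g x‖ ≤ U := by
    intro g hg
    obtain ⟨U, hU⟩ := (isCompact_Icc (a := -(‖e‖ * ‖N‖)) (b := ‖e‖ * ‖N‖)).exists_bound_of_continuousOn
      hg.continuousOn
    refine ⟨max U 0, le_max_right _ _, ?_⟩
    rw [ae_iff]
    refine measure_mono_null (fun x hx => ?_) hμ
    intro hx2
    exact hx ((hU x hx2).trans (le_max_left _ _))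
  have hmem : ∀ g : ℝ → ℂ, Continuous g → MemLp g 2 μ := by
    intro g hg
    obtain ⟨U, _, hU⟩ := hbd g hg
    exact MemLp.of_bound hg.aestronglyMeasurable U hU
  -- the isometry
  have hE : ∀ g : ℝ → ℂ, Continuous g → ENNReal.ofReal ‖fe e g N v‖ = eLpNorm g 2 μ := by
    intro g hg
    have h1 : ‖fe e g N v‖ ^ 2 = ∫ x, ‖g x‖ ^ 2 ∂μ := by
      have h2 := F10 g v hg
      rw [hsp _ (by fun_prop), integral_complex_ofReal] at h2
      exact Complex.ofReal_injective h2
    rw [(hmem g hg).eLpNorm_eq_integral_rpow_norm (by norm_num) (by norm_num)]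
    congr 1
    have h3 : (2 : ℝ≥0∞).toReal = 2 := by norm_num
    rw [h3]
    have h4 : ∫ x, ‖g x‖ ^ (2 : ℝ) ∂μ = ‖fe e g N v‖ ^ 2 := by
      rw [h1]
      refine integral_congr_ae (Filter.Eventually.of_forall fun x => ?_)
      exact Real.rpow_two _
    rw [h4]
    have h5 := Real.pow_rpow_inv_natCast (norm_nonneg (fe e g N v)) (n := 2) (by norm_num)
    rw [Nat.cast_ofNat] at h5
    exact h5.symm
  have hsub : ∀ g k : ℝ → ℂ, Continuous g → Continuous k →
      fe e (fun x => g x - k x) N = fe e g N - fe e k N := by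
    intro g k hg hk
    have h1 := (F1 g (fun x => (-1) * k x) hg (by fun_prop)).1
    rw [F2 _ k hk] at h1
    have h2 : (fun x => g x - k x) = (fun x => g x + (-1) * k x) := by
      funext x; ring
    rw [h2, h1, neg_one_smul, sub_eq_add_neg]
  -- approximation of the indicator
  obtain ⟨b, hb⟩ : ∃ b : ℝ → ℂ, b = B.indicator fun _ => 1 := ⟨_, rfl⟩
  have hbm : MemLp b 2 μ := by
    rw [hb]
    exact (memLp_const (1 : ℂ)).indicator hB
  have hap : ∀ n : ℕ, ∃ g : ℝ →ᵇ ℂ, eLpNorm (b - (g : ℝ → ℂ)) 2 μ ≤ ENNReal.ofReal ((1 / 2) ^ n) := by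
    intro n
    obtain ⟨g, hg, -⟩ := hbm.exists_boundedContinuous_eLpNorm_sub_le (by norm_num)
      (ε := ENNReal.ofReal ((1 / 2) ^ n)) (by
        rw [Ne, ENNReal.ofReal_eq_zero, not_le]; positivity)
    exact ⟨g, hg⟩
  choose G hG using hap
  obtain ⟨ψ, hψ⟩ : ∃ ψ : ℕ → H, ψ = fun n => fe e (G n) N v := ⟨_, rfl⟩
  have hGc : ∀ n, Continuous (G n : ℝ → ℂ) := fun n => (G n).continuous
  have hGs : ∀ n, AEStronglyMeasurable (G n : ℝ → ℂ) μ := fun n => (hGc n).aestronglyMeasurable
  have hbs : AEStronglyMeasurable b μ := hbm.1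
  have hcau : CauchySeq ψ := by
    refine cauchySeq_of_le_geometric (1 / 2) 2 (by norm_num) fun n => ?_
    rw [dist_eq_norm, hψ]
    show ‖fe e (G n) N v - fe e (G (n + 1)) N v‖ ≤ _
    have h1 : fe e (G n) N v - fe e (G (n + 1)) N v =
        fe e (fun x => G n x - G (n + 1) x) N v := by
      rw [hsub _ _ (hGc n) (hGc (n + 1))]; rfl
    rw [h1]
    have h2 : ENNReal.ofReal ‖fe e (fun x => G n x - G (n + 1) x) N v‖ ≤
        ENNReal.ofReal (2 * (1 / 2) ^ n) := by
      rw [hE (fun x => G n x - G (n + 1) x) ((hGc n).sub (hGc (n + 1)))]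
      have h3 : (fun x => G n x - G (n + 1) x) = (b - G (n + 1)) + -(b - G n) := by
        funext x
        simp only [Pi.add_apply, Pi.sub_apply, Pi.neg_apply]
        ring
      rw [h3]
      refine (eLpNorm_add_le (hbs.sub (hGs _)) (hbs.sub (hGs _)).neg (by norm_num)).trans ?_
      rw [eLpNorm_neg]
      refine (add_le_add (hG (n + 1)) (hG n)).trans ?_
      rw [← ENNReal.ofReal_add (by positivity) (by positivity)]
      refine ENNReal.ofReal_le_ofReal ?_
      rw [pow_succ]
      have : (0 : ℝ) ≤ (1 / 2) ^ n := by positivity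
      linarith
    exact (ENNReal.ofReal_le_ofReal_iff (by positivity)).mp h2
  obtain ⟨φ, hφ⟩ := cauchySeq_tendsto_of_complete hcau
  -- `φ` is in `Dn`
  have hDn : φ ∈ Dn N e (Real.sqrt m) := by
    intro g hg hgi
    obtain ⟨U, hU0, hU⟩ := hbd g hg
    have hgL : MemLp g 2 volume :=
      (memLp_two_iff_integrable_sq_norm hg.aestronglyMeasurable).mpr hgi
    obtain ⟨I, hI⟩ : ∃ I : ℝ, I = ∫ x, ‖g x‖ ^ 2 := ⟨_, rfl⟩
    have hI0 : 0 ≤ I := by rw [hI]; exact integral_nonneg fun x => by positivity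
    have hgE : eLpNorm g 2 volume = ENNReal.ofReal (Real.sqrt I) := by
      rw [hgL.eLpNorm_eq_integral_rpow_norm (by norm_num) (by norm_num)]
      congr 1
      have h3 : (2 : ℝ≥0∞).toReal = 2 := by norm_num
      rw [h3]
      have h4 : ∫ x, ‖g x‖ ^ (2 : ℝ) = I := by
        rw [hI]
        refine integral_congr_ae (Filter.Eventually.of_forall fun x => ?_)
        exact Real.rpow_two _
      rw [h4, Real.sqrt_eq_rpow]
      norm_num
    have hk : ∀ n : ℕ, ‖fe e g N (ψ n)‖ ≤ U * (1 / 2) ^ n + Real.sqrt m * Real.sqrt I := by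
      intro n
      have h1 : fe e g N (ψ n) = fe e (fun x => g x * G n x) N v := by
        rw [(F1 g _ hg (hGc n)).2, hψ]; rfl
      rw [h1]
      have h2 : ENNReal.ofReal ‖fe e (fun x => g x * G n x) N v‖ ≤
          ENNReal.ofReal (U * (1 / 2) ^ n + Real.sqrt m * Real.sqrt I) := by
        rw [hE (fun x => g x * G n x) (hg.mul (hGc n))]
        have h3 : (fun x => g x * G n x) = -(fun x => g x * (b - G n) x) + B.indicator g := by
          funext x
          simp only [Pi.add_apply, Pi.sub_apply, Pi.neg_apply, hb]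
          by_cases hx : x ∈ B
          · rw [Set.indicator_of_mem hx, Set.indicator_of_mem hx]; ring
          · rw [Set.indicator_of_notMem hx, Set.indicator_of_notMem hx]; ring
        rw [h3]
        have hgs : AEStronglyMeasurable g μ := hg.aestronglyMeasurable
        refine (eLpNorm_add_le (hgs.mul (hbs.sub (hGs n))).neg (hgs.indicator hB)
          (by norm_num)).trans ?_
        rw [eLpNorm_neg, ENNReal.ofReal_add (by positivity) (by positivity)]
        refine add_le_add ?_ ?_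
        · refine (eLpNorm_le_mul_eLpNorm_of_ae_le_mul (c := U) (g := b - (G n : ℝ → ℂ)) ?_ 2).trans ?_
          · filter_upwards [hU] with x hx
            rw [Pi.mul_apply, norm_mul]
            exact mul_le_mul_of_nonneg_right hx (norm_nonneg _)
          · rw [ENNReal.ofReal_mul hU0]
            gcongr
            exact hG n
        · rw [eLpNorm_indicator_eq_eLpNorm_restrict hB]
          refine (eLpNorm_mono_measure g hBm).trans ?_
          rw [eLpNorm_smul_measure_of_ne_top (by norm_num), hgE,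
            ENNReal.ofReal_mul (Real.sqrt_nonneg _), smul_eq_mul]
          refine mul_le_mul_left ?_ _
          rw [Real.sqrt_eq_rpow, ← ENNReal.ofReal_rpow_of_nonneg (by positivity) (by positivity),
            ENNReal.ofReal_natCast]
          norm_num
      exact (ENNReal.ofReal_le_ofReal_iff (by positivity)).mp h2
    have hl1 : Tendsto (fun n => ‖fe e g N (ψ n)‖) atTop (𝓝 ‖fe e g N φ‖) :=
      (((fe e g N).continuous.tendsto φ).comp hφ).norm
    have hl2 : Tendsto (fun n : ℕ => U * (1 / 2) ^ n + Real.sqrt m * Real.sqrt I) atTop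
        (𝓝 (U * 0 + Real.sqrt m * Real.sqrt I)) :=
      ((tendsto_pow_atTop_nhds_zero_of_lt_one (by norm_num) (by norm_num)).const_mul U).add_const _
    have hle := le_of_tendsto_of_tendsto' hl1 hl2 hk
    rw [mul_zero, zero_add] at hle
    calc ‖fe e g N φ‖ ^ 2 ≤ (Real.sqrt m * Real.sqrt I) ^ 2 := by gcongr
      _ = Real.sqrt m ^ 2 * ∫ x, ‖g x‖ ^ 2 := by rw [mul_pow, Real.sq_sqrt hI0, hI]
  have hφac : φ ∈ Hac N e := by
    refine Submodule.le_topologicalClosure _ (Submodule.subset_span ?_)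
    exact Set.mem_iUnion.mpr ⟨_, hDn⟩
  have h0 : ⟪v, φ⟫_ℂ = 0 := by
    rw [← inner_conj_symm, (Submodule.mem_orthogonal _ _).mp hv φ hφac, map_zero]
  have hl1 : Tendsto (fun n => ∫ x, G n x ∂μ) atTop (𝓝 0) := by
    rw [← h0]
    have h1 : (fun n => ∫ x, G n x ∂μ) = fun n => ⟪v, ψ n⟫_ℂ := by
      funext n
      rw [hψ, hsp _ (hGc n)]
    rw [h1]
    exact tendsto_const_nhds.inner hφ
  have hbI : Integrable b μ := hbm.integrable (by norm_num)
  have hl2 : Tendsto (fun n => ∫ x, G n x ∂μ) atTop (𝓝 (∫ x, b x ∂μ)) := by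
    rw [tendsto_iff_norm_sub_tendsto_zero]
    have hK : ∀ n : ℕ, ‖∫ x, G n x ∂μ - ∫ x, b x ∂μ‖ ≤ (1 / 2) ^ n * (μ Set.univ).toReal ^ (1 / 2 : ℝ) := by
      intro n
      have hGI : Integrable (G n : ℝ → ℂ) μ := (hmem _ (hGc n)).integrable (by norm_num)
      rw [norm_sub_rev, ← integral_sub hbI hGI]
      refine (norm_integral_le_integral_norm _).trans ?_
      have h1 : ∫ x, ‖b x - G n x‖ ∂μ = (eLpNorm (b - (G n : ℝ → ℂ)) 1 μ).toReal := by
        rw [eLpNorm_one_eq_lintegral_enorm, ← integral_norm_eq_lintegral_enorm (hbs.sub (hGs n))]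
        rfl
      rw [h1]
      have h2 : eLpNorm (b - (G n : ℝ → ℂ)) 1 μ ≤ ENNReal.ofReal ((1 / 2) ^ n) * μ Set.univ ^ (1 / 2 : ℝ) := by
        refine (eLpNorm_le_eLpNorm_mul_rpow_measure_univ (q := 2) (by norm_num)
          (hbs.sub (hGs n))).trans ?_
        have h3 : (1 / (1 : ℝ≥0∞).toReal - 1 / (2 : ℝ≥0∞).toReal) = (1 / 2 : ℝ) := by norm_num
        rw [h3]
        gcongr
        exact hG n
      refine (ENNReal.toReal_mono ?_ h2).trans ?_
      · exact ENNReal.mul_ne_top ENNReal.ofReal_ne_top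
          (ENNReal.rpow_ne_top_of_nonneg (by norm_num) (measure_ne_top _ _))
      · rw [ENNReal.toReal_mul, ENNReal.toReal_ofReal (by positivity), ENNReal.toReal_rpow]
    refine squeeze_zero (fun n => norm_nonneg _) hK ?_
    rw [← zero_mul ((μ Set.univ).toReal ^ (1 / 2 : ℝ))]
    exact (tendsto_pow_atTop_nhds_zero_of_lt_one (by norm_num) (by norm_num)).mul_const _
  have h1 := tendsto_nhds_unique hl1 hl2
  rw [hb, integral_indicator hB, setIntegral_const] at h1
  have h2 : μ.real B = 0 := by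
    rw [real_smul, mul_one] at h1
    exact_mod_cast h1.symm
  exact (measureReal_eq_zero_iff (measure_ne_top _ _)).mp h2

end SNAAux

theorem blk_SNA : Stmt_FEX.{v} → Stmt_SPM.{v} → Stmt_PAC.{v} → Stmt_SNA.{v} := by
  intro hFEX _ _ H _ _ _ N e hN v hv μ hfin hμ hsp
  exact SNAAux.sing_of μ fun m B hB hBm => SNAAux.null_of hFEX N e hN v hv μ hμ hsp m B hB hBm

end Pool.Q2
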