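import Pool.Agent.Work.MP_8c7e5b_q2.Interface2

/-! Block SNB (measure theory only). -/

noncomputable section

open scoped InnerProductSpace ComplexConjugate
open MeasureTheory

universe v

namespace Pool.Q2

namespace SNBAux

/-- an open connected bounded nonempty set of reals is an open interval -/
theorem eq_Ioo {s : Set ℝ} (ho : IsOpen s) (hc : IsConnected s) (hb : BddBelow s)
    (ha : BddAbove s) : s = Set.Ioo (sInf s) (sSup s) := by
  apply le_antisymm
  · intro x hx
    obtain ⟨r, hr, hball⟩ := Metric.isOpen_iff.1 ho x hx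
    constructor
    · have h1 : x - r / 2 ∈ s := by
        apply hball
        rw [Metric.mem_ball, Real.dist_eq, show x - r / 2 - x = -(r / 2) by ring, abs_neg,
          abs_of_pos (by linarith)]
        linarith
      have h2 := csInf_le hb h1
      linarith
    · have h1 : x + r / 2 ∈ s := by
        apply hball
        rw [Metric.mem_ball, Real.dist_eq, show x + r / 2 - x = r / 2 by ring,
          abs_of_pos (by linarith)]
        linarith
      have h2 := le_csSup ha h1
      linarith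
  · exact hc.Ioo_csInf_csSup_subset hb ha

/-- a compact set in an open set of small measure lies in a finite disjoint union of open
intervals of small total length -/
theorem cover {K U : Set ℝ} (hK : IsCompact K) (hU : IsOpen U) (hKU : K ⊆ U) (ε : ℝ)
    (hε : 0 < ε) (hvol : volume U < ENNReal.ofReal ε) :
    ∃ (m : ℕ) (l u : Fin m → ℝ), (∀ j, l j < u j) ∧
      (∀ j j', j ≠ j' → Disjoint (Set.Ioo (l j) (u j)) (Set.Ioo (l j') (u j'))) ∧
      ∑ j, (u j - l j) ≤ ε ∧ K ⊆ ⋃ j, Set.Ioo (l j) (u j) := by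
  classical
  -- components
  have hcomp : ∀ x ∈ U, IsOpen (connectedComponentIn U x) := fun x _ => hU.connectedComponentIn
  obtain ⟨t, ht, hcov⟩ := hK.elim_nhds_subcover (fun x => connectedComponentIn U x)
    (fun x hx => (hcomp x (hKU hx)).mem_nhds (mem_connectedComponentIn (hKU hx)))
  let C : Finset (Set ℝ) := t.image (fun x => connectedComponentIn U x)
  have hCp : ∀ c ∈ C, ∃ x ∈ K, c = connectedComponentIn U x := by
    intro c hc
    obtain ⟨x, hx, rfl⟩ := Finset.mem_image.1 hc
    exact ⟨x, ht x hx, rfl⟩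
  have hbd : ∀ x ∈ K, Bornology.IsBounded (connectedComponentIn U x) := by
    intro x hx
    have hconn : IsConnected (connectedComponentIn U x) :=
      isConnected_connectedComponentIn_iff.2 (hKU hx)
    rw [Metric.isBounded_iff]
    refine ⟨ε, fun a ha b hb => ?_⟩
    by_contra hlt
    push Not at hlt
    have hord : (connectedComponentIn U x).OrdConnected := hconn.isPreconnected.ordConnected
    have hsub : Set.uIcc a b ⊆ U := (hord.uIcc_subset ha hb).trans (connectedComponentIn_subset U x)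
    have h1 : volume (Set.uIcc a b) ≤ volume U := measure_mono hsub
    rw [Real.volume_interval] at h1
    have h2 : ENNReal.ofReal ε ≤ ENNReal.ofReal |b - a| := by
      apply ENNReal.ofReal_le_ofReal
      rw [Real.dist_eq, abs_sub_comm] at hlt
      exact hlt.le
    exact absurd (h2.trans h1) (not_le.2 hvol)
  have hIoo : ∀ c ∈ C, c = Set.Ioo (sInf c) (sSup c) ∧ sInf c < sSup c := by
    intro c hc
    obtain ⟨x, hx, rfl⟩ := hCp c hc
    have hconn : IsConnected (connectedComponentIn U x) :=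
      isConnected_connectedComponentIn_iff.2 (hKU hx)
    have h := eq_Ioo (hcomp x (hKU hx)) hconn (hbd x hx).bddBelow (hbd x hx).bddAbove
    refine ⟨h, ?_⟩
    have hmem : x ∈ connectedComponentIn U x := mem_connectedComponentIn (hKU hx)
    rw [h] at hmem
    exact hmem.1.trans hmem.2
  have hdisj : ∀ c ∈ C, ∀ c' ∈ C, c ≠ c' → Disjoint c c' := by
    intro c hc c' hc' hne
    obtain ⟨x, hx, rfl⟩ := hCp c hc
    obtain ⟨y, hy, rfl⟩ := hCp c' hc'
    rw [Set.disjoint_iff_inter_eq_empty, Set.eq_empty_iff_forall_notMem]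
    rintro z ⟨hz1, hz2⟩
    apply hne
    rw [connectedComponentIn_eq hz1, connectedComponentIn_eq hz2]
  let e := C.equivFin
  refine ⟨C.card, fun j => sInf (e.symm j).1, fun j => sSup (e.symm j).1, ?_, ?_, ?_, ?_⟩
  · intro j
    exact (hIoo _ (e.symm j).2).2
  · intro j j' hjj
    rw [← (hIoo _ (e.symm j).2).1, ← (hIoo _ (e.symm j').2).1]
    refine hdisj _ (e.symm j).2 _ (e.symm j').2 fun h => hjj ?_
    exact e.symm.injective (Subtype.ext h)
  · have h1 : ∀ j, ENNReal.ofReal (sSup (e.symm j).1 - sInf (e.symm j).1) =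
        volume (e.symm j).1 := by
      intro j
      conv_rhs => rw [(hIoo _ (e.symm j).2).1]
      rw [Real.volume_Ioo]
    have h2 : ENNReal.ofReal (∑ j, (sSup (e.symm j).1 - sInf (e.symm j).1)) ≤ volume U := by
      rw [ENNReal.ofReal_sum_of_nonneg (fun j _ => by
        have := (hIoo _ (e.symm j).2).2
        linarith)]
      rw [Finset.sum_congr rfl fun j _ => h1 j]
      have h3 : ∑ j, volume (e.symm j).1 = volume (⋃ j, (e.symm j).1) := by
        rw [measure_iUnion, tsum_fintype]
        · intro j j' hjj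
          refine hdisj _ (e.symm j).2 _ (e.symm j').2 fun h => hjj ?_
          exact e.symm.injective (Subtype.ext h)
        · intro j
          rw [(hIoo _ (e.symm j).2).1]
          exact measurableSet_Ioo
      rw [h3]
      apply measure_mono
      apply Set.iUnion_subset
      intro j
      obtain ⟨x, hx, h⟩ := hCp _ (e.symm j).2
      rw [h]
      exact connectedComponentIn_subset U x
    have h4 := h2.trans hvol.le
    exact (ENNReal.ofReal_le_ofReal_iff hε.le).1 h4
  · intro x hx
    obtain ⟨y, hy, hxy⟩ := Set.mem_iUnion₂.1 (hcov hx)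
    have hmem : connectedComponentIn U y ∈ C := Finset.mem_image.2 ⟨y, hy, rfl⟩
    rw [Set.mem_iUnion]
    refine ⟨e ⟨_, hmem⟩, ?_⟩
    beta_reduce
    rw [Equiv.symm_apply_apply, ← (hIoo _ hmem).1]
    exact hxy

end SNBAux

open SNBAux in
theorem blk_SNB : Stmt_SNB := by
  classical
  intro μ hμ hsing ε hε
  obtain ⟨s, hs, hμs, hvs⟩ := hsing
  obtain ⟨K, hKs, hK, hμK⟩ := hs.compl.exists_isCompact_sdiff_lt (μ := μ) (measure_ne_top μ _)
    (ε := ENNReal.ofReal ε) (by simpa using hε)
  have hvK : volume K < ENNReal.ofReal ε := by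
    have h1 : volume K ≤ 0 := hvs ▸ measure_mono hKs
    exact lt_of_le_of_lt h1 (by simpa using hε)
  obtain ⟨U, hKU, hU, hvU⟩ := Set.exists_isOpen_lt_of_lt K _ hvK
  obtain ⟨m, l, u, hlu, hdis, hsum, hcov⟩ := cover hK hU hKU ε hε hvU
  have hcl : ∀ j, IsClosed (K \ ⋃ j' ∈ {j' : Fin m | j' ≠ j}, Set.Ioo (l j') (u j')) := by
    intro j
    apply hK.isClosed.sdiff
    exact isOpen_biUnion fun _ _ => isOpen_Ioo
  have hsubj : ∀ j, K \ ⋃ j' ∈ {j' : Fin m | j' ≠ j}, Set.Ioo (l j') (u j') ⊆
      Set.Ioo (l j) (u j) := by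
    intro j x hx
    obtain ⟨j', hj'⟩ := Set.mem_iUnion.1 (hcov hx.1)
    by_cases h : j' = j
    · rw [← h]; exact hj'
    · exact absurd (Set.mem_iUnion₂.2 ⟨j', h, hj'⟩) hx.2
  have hur : ∀ j, ∃ f : C(ℝ, ℝ), Set.EqOn f 0 (Set.Ioo (l j) (u j))ᶜ ∧
      Set.EqOn f 1 (K \ ⋃ j' ∈ {j' : Fin m | j' ≠ j}, Set.Ioo (l j') (u j')) ∧
      ∀ x, f x ∈ Set.Icc (0 : ℝ) 1 := by
    intro j
    refine exists_continuous_zero_one_of_isClosed isOpen_Ioo.isClosed_compl (hcl j) ?_
    exact Set.disjoint_left.2 fun x hx hx' => hx (hsubj j hx')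
  choose f hf0 hf1 hf using hur
  -- at most one function is nonzero
  have hone : ∀ x j, x ∈ Set.Ioo (l j) (u j) → ∑ i, f i x = f j x := by
    intro x j hx
    refine Finset.sum_eq_single_of_mem j (Finset.mem_univ _) fun i _ hij => ?_
    exact hf0 i (fun h => Set.disjoint_left.1 (hdis i j hij) h hx)
  have hbound : ∀ x, 0 ≤ ∑ i, f i x ∧ ∑ i, f i x ≤ 1 := by
    intro x
    refine ⟨Finset.sum_nonneg fun i _ => (hf i x).1, ?_⟩
    by_cases h : ∃ j, x ∈ Set.Ioo (l j) (u j)
    · obtain ⟨j, hj⟩ := h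
      rw [hone x j hj]
      exact (hf j x).2
    · push Not at h
      rw [Finset.sum_eq_zero fun i _ => hf0 i (h i)]
      exact zero_le_one
  refine ⟨m, l, u, fun j x => f j x, hlu, hdis, hsum, fun j => (f j).continuous, hf,
    fun j x hx => hf0 j hx, ?_⟩
  have hKm : MeasurableSet Kᶜ := hK.isClosed.measurableSet.compl
  have hμKc : μ Kᶜ < ENNReal.ofReal ε := by
    have h1 : Kᶜ ⊆ s ∪ (sᶜ \ K) := by
      intro x hx
      by_cases hxs : x ∈ s
      · exact Or.inl hxs
      · exact Or.inr ⟨hxs, hx⟩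
    calc μ Kᶜ ≤ μ (s ∪ (sᶜ \ K)) := measure_mono h1
      _ ≤ μ s + μ (sᶜ \ K) := measure_union_le _ _
      _ = μ (sᶜ \ K) := by rw [hμs, zero_add]
      _ < _ := hμK
  have hint : ∫ x, (1 - ∑ j, f j x) ^ 2 ∂μ ≤ ∫ x, Kᶜ.indicator (fun _ => (1 : ℝ)) x ∂μ := by
    refine integral_mono_of_nonneg (Filter.Eventually.of_forall fun x => sq_nonneg _)
      ((integrable_const (1 : ℝ)).indicator hKm) (Filter.Eventually.of_forall fun x => ?_)
    show (1 - ∑ j, f j x) ^ 2 ≤ _
    by_cases hx : x ∈ K
    · have hxc : x ∉ Kᶜ := fun h => h hx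
      rw [Set.indicator_of_notMem hxc]
      obtain ⟨j, hj⟩ := Set.mem_iUnion.1 (hcov hx)
      rw [hone x j hj]
      have h1 : f j x = 1 := by
        apply hf1 j
        refine ⟨hx, fun h => ?_⟩
        obtain ⟨j', hj', hx'⟩ := Set.mem_iUnion₂.1 h
        exact Set.disjoint_left.1 (hdis j' j hj') hx' hj
      rw [h1]
      norm_num
    · rw [Set.indicator_of_mem (show x ∈ Kᶜ from hx)]
      have h1 := hbound x
      nlinarith [h1.1, h1.2]
  refine hint.trans ?_
  rw [integral_indicator hKm, setIntegral_const, smul_eq_mul, mul_one]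
  rw [Measure.real]
  exact ENNReal.toReal_le_of_le_ofReal hε.le hμKc.le

end Pool.Q2
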