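import Pool.Agent.Work.MP_8c7e5b_q2.Interface2

/-!
# MP_8c7e5b_an, Q2: block SNG
-/

open MeasureTheory Complex Filter Topology
open scoped ComplexOrder InnerProductSpace ComplexConjugate BoundedContinuousFunction

set_option autoImplicit false
set_option linter.unusedSectionVars false

universe v

namespace Pool.Q2

open Pool.Bes

theorem blk_SNG (hFEX : Stmt_FEX.{v}) (hSPM : Stmt_SPM.{v}) (hSNA : Stmt_SNA.{v})
    (hSNB : Stmt_SNB) : Stmt_SNG.{v} := by
  intro H _ _ _ N e hN n v hv ε hε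
  obtain ⟨f1, f2, f3, f4, f5, f6, f7, f8, f9, f10⟩ := hFEX H N e hN
  choose μ hμ1 hμ2 hμ3 using fun k => hSPM H N e hN (v k)
  have hs : ∀ k, μ k ⟂ₘ volume := fun k =>
    hSNA H N e hN (v k) (hv k) (μ k) (hμ1 k) (hμ2 k) (hμ3 k)
  have hfin : IsFiniteMeasure (∑ k, μ k) := by
    constructor
    rw [Measure.finsetSum_apply]
    exact ENNReal.sum_lt_top.2 fun k _ => (hμ1 k).1
  have hsing : (∑ k, μ k) ⟂ₘ volume := by
    rw [← Measure.sum_fintype]
    exact Measure.MutuallySingular.sum_left.2 hs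
  have hε2 : 0 < min ε (ε ^ 2) := lt_min hε (by positivity)
  obtain ⟨m, l, u, θ, h1, h2, h3, h4, h5, h6, h7⟩ := hSNB (∑ k, μ k) hfin hsing _ hε2
  refine ⟨m, l, u, θ, h1, h2, h3.trans (min_le_left _ _), h4, h5, h6, ?_⟩
  intro k
  set F : ℝ → ℝ := fun x => ∑ j, θ j x with hF
  have hFc : Continuous F := continuous_finsetSum _ fun j _ => h4 j
  have hFcc : Continuous fun x : ℝ => ((F x : ℝ) : ℂ) := by fun_prop
  have hGc : Continuous fun x : ℝ => ((1 - F x : ℝ) : ℂ) := by fun_prop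
  have hG : v k - fe e (fun x => ((F x : ℝ) : ℂ)) N (v k) =
      fe e (fun x => ((1 - F x : ℝ) : ℂ)) N (v k) := by
    have h8 := (f1 _ _ hGc hFcc).1
    have h9 : (fun x : ℝ => ((1 - F x : ℝ) : ℂ) + ((F x : ℝ) : ℂ)) = fun _ => 1 := by
      funext x
      push_cast
      ring
    rw [h9, f4] at h8
    have h10 : v k = (1 : H →L[ℂ] H) (v k) := rfl
    nth_rewrite 1 [h10]
    rw [h8, _root_.add_apply]
    abel
  rw [hG]
  have h11 := f10 _ (v k) hGc
  have hc : Continuous fun x : ℝ => ((‖((1 - F x : ℝ) : ℂ)‖ ^ 2 : ℝ) : ℂ) := by fun_prop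
  rw [hμ3 k _ hc, integral_complex_ofReal] at h11
  have h12 := Complex.ofReal_injective h11
  have h13 : ∀ x : ℝ, ‖((1 - F x : ℝ) : ℂ)‖ ^ 2 = (1 - F x) ^ 2 := by
    intro x
    rw [Complex.norm_real, Real.norm_eq_abs, sq_abs]
  simp only [h13] at h12
  have hle : μ k ≤ ∑ k, μ k := by
    rw [← Measure.sum_fintype]
    exact Measure.le_sum μ k
  have hint : Integrable (fun x => (1 - F x) ^ 2) (∑ k, μ k) := by
    refine Integrable.of_bound (C := (1 + m) ^ 2)
      ((continuous_const.sub hFc).pow 2).aestronglyMeasurable (Filter.Eventually.of_forall ?_)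
    intro x
    have h14 : 0 ≤ F x := Finset.sum_nonneg fun j _ => (h5 j x).1
    have h15 : F x ≤ m := by
      calc F x ≤ ∑ _j : Fin m, (1 : ℝ) := Finset.sum_le_sum fun j _ => (h5 j x).2
        _ = m := by simp
    rw [Real.norm_eq_abs, abs_of_nonneg (sq_nonneg _)]
    nlinarith
  have h16 : ∫ x, (1 - F x) ^ 2 ∂(μ k) ≤ ∫ x, (1 - F x) ^ 2 ∂(∑ k, μ k) :=
    integral_mono_measure hle (Filter.Eventually.of_forall fun x => sq_nonneg _) hint
  have h17 : ‖fe e (fun x => ((1 - F x : ℝ) : ℂ)) N (v k)‖ ^ 2 ≤ ε ^ 2 := by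
    rw [h12]
    exact h16.trans (h7.trans (min_le_right _ _))
  exact abs_le_of_sq_le_sq' h17 hε.le |>.2

end Pool.Q2
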