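import Pool.Agent.Work.MP_8c7e5b_q2.Interface5

/-!
# MP_8c7e5b_an, Q2: block SPA
-/

open MeasureTheory Complex Filter Topology
open scoped ComplexOrder InnerProductSpace ComplexConjugate BoundedContinuousFunction ZeroAtInfty

set_option autoImplicit false
set_option linter.unusedSectionVars false

universe v

namespace Pool.Q2

open Pool.Bes

namespace SPAAux

variable {H : Type v} [NormedAddCommGroup H] [InnerProductSpace ℂ H] [CompleteSpace H]

/-- the graph as a subspace of the Hilbert space `H ⊕ H` -/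
noncomputable def gr (N : H →ₗ.[ℂ] H) : Submodule ℂ (WithLp 2 (H × H)) :=
  N.graph.comap (WithLp.linearEquiv 2 ℂ (H × H)).toLinearMap

theorem mem_gr (N : H →ₗ.[ℂ] H) (w : WithLp 2 (H × H)) :
    w ∈ gr N ↔ (w.fst, w.snd) ∈ N.graph := Iff.rfl

theorem gr_closed (N : H →ₗ.[ℂ] H) (h : N.IsClosed) :
    IsClosed ((gr N : Submodule ℂ (WithLp 2 (H × H))) : Set (WithLp 2 (H × H))) := by
  have h1 : IsClosed (N.graph : Set (H × H)) := h
  exact h1.preimage (WithLp.prod_continuous_ofLp 2 H H)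

end SPAAux

open SPAAux

theorem blk_SPA : Stmt_SPA.{v} := by
  intro H _ _ _ N hD hC
  have : CompleteSpace (gr N) := (gr_closed N hC).completeSpace_coe
  set P := (gr N).starProjection with hP
  constructor
  · set ι : H →L[ℂ] WithLp 2 (H × H) :=
      (WithLp.prodContinuousLinearEquiv 2 ℂ H H).symm.toContinuousLinearMap ∘L
        (ContinuousLinearMap.inl ℂ H H) with hι
    set κ : WithLp 2 (H × H) →L[ℂ] H × H :=
      (WithLp.prodContinuousLinearEquiv 2 ℂ H H).toContinuousLinearMap with hκ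
    refine ⟨(ContinuousLinearMap.fst ℂ H H) ∘L κ ∘L P ∘L ι,
      (ContinuousLinearMap.snd ℂ H H) ∘L κ ∘L P ∘L ι, ?_, ?_⟩
    · intro h
      have h1 : P (ι h) ∈ gr N := Submodule.starProjection_apply_mem _ _
      exact h1
    · intro h a b hab
      have h1 : ι h - P (ι h) ∈ (gr N)ᗮ := Submodule.sub_starProjection_mem_orthogonal _
      have h2 : WithLp.toLp 2 (a, b) ∈ gr N := hab
      have h3 := Submodule.inner_left_of_mem_orthogonal h2 h1
      rw [WithLp.prod_inner_apply] at h3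
      have h4 : ⟪h - (P (ι h)).fst, a⟫_ℂ + ⟪(0 : H) - (P (ι h)).snd, b⟫_ℂ = 0 := h3
      rw [zero_sub, inner_neg_left, ← sub_eq_add_neg, sub_eq_zero] at h4
      exact h4
  · intro u v huv
    have h1 : WithLp.toLp 2 (u, v) ∈ (gr N)ᗮᗮ := by
      rw [Submodule.mem_orthogonal]
      intro w hw
      rw [Submodule.mem_orthogonal] at hw
      have h2 : (w.snd, -w.fst) ∈ N.adjoint.graph := by
        rw [LinearPMap.adjoint_graph_eq_graph_adjoint hD, Submodule.mem_adjoint_iff]
        intro a b hab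
        have h3 := hw (WithLp.toLp 2 (a, b)) hab
        rw [WithLp.prod_inner_apply] at h3
        have h4 : ⟪a, w.fst⟫_ℂ + ⟪b, w.snd⟫_ℂ = 0 := h3
        change ⟪b, w.snd⟫_ℂ - ⟪a, -w.fst⟫_ℂ = 0
        rw [inner_neg_right, sub_neg_eq_add, add_comm]
        exact h4
      have h5 := huv _ _ h2
      rw [inner_neg_right] at h5
      rw [WithLp.prod_inner_apply]
      change ⟪w.fst, u⟫_ℂ + ⟪w.snd, v⟫_ℂ = 0
      have h6 : ⟪w.fst, u⟫_ℂ = conj ⟪u, w.fst⟫_ℂ := (inner_conj_symm _ _).symm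
      have h7 : ⟪w.snd, v⟫_ℂ = conj ⟪v, w.snd⟫_ℂ := (inner_conj_symm _ _).symm
      rw [h6, h7, ← map_add, ← h5, add_neg_cancel, map_zero]
    rw [Submodule.orthogonal_orthogonal] at h1
    exact h1

end Pool.Q2
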