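import Pool.Agent.Work.MP_8c7e5b_q2.Interface5

/-!
# MP_8c7e5b_an, Q2: block SPC
-/

open MeasureTheory Complex Filter Topology
open scoped ComplexOrder InnerProductSpace ComplexConjugate BoundedContinuousFunction ZeroAtInfty

set_option autoImplicit false
set_option linter.unusedSectionVars false

universe v

namespace Pool.Q2

open Pool.Bes

namespace SPCAux

variable {H : Type v} [NormedAddCommGroup H] [InnerProductSpace ℂ H] [CompleteSpace H]

/-- polarization -/
theorem polar {N : H →ₗ.[ℂ] H} (hN : IsNor N) {x y y' a b b' : H} (h1 : (x, y) ∈ N.graph)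
    (h1' : (x, y') ∈ N.adjoint.graph) (h2 : (a, b) ∈ N.graph) (h2' : (a, b') ∈ N.adjoint.graph) :
    ⟪y, b⟫_ℂ = ⟪y', b'⟫_ℂ := by
  have key : ∀ c : ℂ, ‖y' + c • b'‖ = ‖y + c • b‖ := by
    intro c
    have e1 : (x + c • a, y + c • b) ∈ N.graph := by
      have := N.graph.add_mem h1 (N.graph.smul_mem c h2)
      simpa using this
    have e2 : (x + c • a, y' + c • b') ∈ N.adjoint.graph := by
      have := N.adjoint.graph.add_mem h1' (N.adjoint.graph.smul_mem c h2')
      simpa using this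
    exact hN.norm _ _ _ e1 e2
  have k1 : ‖y' + b'‖ = ‖y + b‖ := by simpa using key 1
  have k2 : ‖y' - b'‖ = ‖y - b‖ := by simpa [sub_eq_add_neg] using key (-1)
  have k3 : ‖y' + I • b'‖ = ‖y + I • b‖ := key I
  have k4 : ‖y' - I • b'‖ = ‖y - I • b‖ := by simpa [sub_eq_add_neg] using key (-I)
  rw [inner_eq_sum_norm_sq_div_four y b, inner_eq_sum_norm_sq_div_four y' b']
  have e : (RCLike.I : ℂ) = I := rfl
  rw [e, k1, k2, k3, k4]

theorem adj_iff {N : H →ₗ.[ℂ] H} (hd : Dense (N.domain : Set H)) (p q : H) :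
    (p, q) ∈ N.adjoint.graph ↔ ∀ a b : H, (a, b) ∈ N.graph → ⟪b, p⟫_ℂ = ⟪a, q⟫_ℂ := by
  rw [LinearPMap.adjoint_graph_eq_graph_adjoint hd, Submodule.mem_adjoint_iff]
  constructor
  · intro h a b hab
    exact sub_eq_zero.1 (h a b hab)
  · intro h a b hab
    exact sub_eq_zero.2 (h a b hab)

theorem ex_graph {N : H →ₗ.[ℂ] H} {x : H} (hx : x ∈ N.domain) : ∃ y, (x, y) ∈ N.graph :=
  ⟨N ⟨x, hx⟩, by
    rw [LinearPMap.mem_graph_iff]
    exact ⟨⟨x, hx⟩, rfl, rfl⟩⟩

theorem dom_of_graph {N : H →ₗ.[ℂ] H} {x y : H} (h : (x, y) ∈ N.graph) : x ∈ N.domain := by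
  rw [LinearPMap.mem_graph_iff] at h
  obtain ⟨u, hu, -⟩ := h
  have : (u : H) = x := hu
  rw [← this]
  exact u.2

end SPCAux

open SPCAux

theorem blk_SPC (hSPA : Stmt_SPA.{v}) : Stmt_SPC.{v} := by
  intro H _ _ _ N hN
  obtain ⟨⟨R, S, hg, h2⟩, h3⟩ := hSPA H N hN.dense hN.closed
  have hd := hN.dense
  have hdom := hN.dom
  -- (a)
  have ha : ∀ h k : H, ⟪h, R k⟫_ℂ = ⟪R h, R k⟫_ℂ + ⟪S h, S k⟫_ℂ := by
    intro h k
    have := h2 h (R k) (S k) (hg k)
    rw [inner_sub_left] at this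
    rw [← this]
    ring
  have hR : ∀ h k : H, ⟪R h, k⟫_ℂ = ⟪h, R k⟫_ℂ := by
    intro h k
    have e := ha k h
    have e2 : ⟪R h, k⟫_ℂ = ⟪R h, R k⟫_ℂ + ⟪S h, S k⟫_ℂ := by
      have := congrArg (starRingEnd ℂ) e
      rw [map_add, inner_conj_symm, inner_conj_symm, inner_conj_symm] at this
      exact this
    rw [e2, ha h k]
  have hRsa : star R = R := by
    rw [ContinuousLinearMap.star_eq_adjoint]
    symm
    rw [ContinuousLinearMap.eq_adjoint_iff]
    intro x y
    exact hR x y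
  have hSS : star S * S = R - R * R := by
    refine ContinuousLinearMap.ext fun k => ?_
    refine ext_inner_left ℂ fun h => ?_
    have e1 : ⟪h, (star S * S) k⟫_ℂ = ⟪S h, S k⟫_ℂ := by
      rw [ContinuousLinearMap.star_eq_adjoint]
      exact ContinuousLinearMap.adjoint_inner_right S h (S k)
    have e2 : ⟪h, (R - R * R) k⟫_ℂ = ⟪h, R k⟫_ℂ - ⟪R h, R k⟫_ℂ := by
      have : (R - R * R) k = R k - R (R k) := rfl
      rw [this, inner_sub_right, ← hR h (R k)]
    rw [e1, e2, ha h k]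
    ring
  -- (b)
  have hinj : ∀ x : H, R x = 0 → x = 0 := by
    intro x hx
    have g := hg x
    rw [hx] at g
    have hS0 : S x = 0 := LinearPMap.graph_fst_eq_zero_snd N g rfl
    have hort : ∀ a ∈ N.domain, ⟪x, a⟫_ℂ = 0 := by
      intro a ha'
      obtain ⟨b, hb⟩ := ex_graph ha'
      have := h2 x a b hb
      rw [hx, hS0, sub_zero, inner_zero_left] at this
      exact this
    refine hd.eq_zero_of_inner_left ℂ ?_
    exact fun a ha2 => hort a ha2
  -- (c)
  have hc : ∀ k : H, (S k, k - R k) ∈ N.adjoint.graph := by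
    intro k
    rw [adj_iff hd]
    intro a b hab
    have := congrArg (starRingEnd ℂ) (h2 k a b hab)
    rw [inner_conj_symm, inner_conj_symm] at this
    exact this.symm
  have hSdom : ∀ k : H, S k ∈ N.domain := by
    intro k
    rw [← hdom]
    exact dom_of_graph (hc k)
  -- (d)
  have hRdom : ∀ k : H, R k ∈ N.adjoint.domain := by
    intro k
    rw [hdom]
    exact dom_of_graph (hg k)
  have hw : ∀ k : H, (R k, (star S) k) ∈ N.adjoint.graph := by
    intro k
    obtain ⟨w, hw⟩ := ex_graph (hRdom k)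
    have e : (star S) k = w := by
      refine ext_inner_left ℂ fun h => ?_
      rw [ContinuousLinearMap.star_eq_adjoint, ContinuousLinearMap.adjoint_inner_right]
      obtain ⟨z, hz⟩ := ex_graph (hSdom h)
      have i1 : ⟪S h, R k⟫_ℂ = ⟪R h, w⟫_ℂ := (adj_iff hd _ _).1 hw _ _ (hg h)
      have i2 : ⟪z, S k⟫_ℂ = ⟪S h, k - R k⟫_ℂ := (adj_iff hd _ _).1 (hc k) _ _ hz
      have i3 : ⟪z, S k⟫_ℂ = ⟪h - R h, w⟫_ℂ := polar hN hz (hc h) (hg k) hw
      rw [inner_sub_right] at i2
      rw [inner_sub_left] at i3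
      have : ⟪S h, k⟫_ℂ = (⟪S h, k⟫_ℂ - ⟪S h, R k⟫_ℂ) + ⟪S h, R k⟫_ℂ := by ring
      rw [this, ← i2, i3, i1]
      ring
    rw [e]
    exact hw
  -- (e)
  have hnorm : ∀ k : H, ‖(star S) k‖ = ‖S k‖ := fun k => hN.norm _ _ _ (hg k) (hw k)
  have hnor : star S * S = S * star S := by
    have : IsStarNormal S := by
      rw [ContinuousLinearMap.isStarNormal_iff_norm_eq_adjoint]
      intro v
      exact (hnorm v).symm
    exact this.star_comm_self.eq
  -- (f)
  have hf : ∀ x y : H, (x, y) ∈ N.graph → S x = R y := by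
    intro x y hxy
    refine ext_inner_right ℂ fun k => ?_
    have i1 : ⟪y, R k⟫_ℂ = ⟪x, (star S) k⟫_ℂ := (adj_iff hd _ _).1 (hw k) _ _ hxy
    rw [hR y k, i1, ContinuousLinearMap.star_eq_adjoint, ContinuousLinearMap.adjoint_inner_right]
  have hcomm : S * R = R * S := by
    refine ContinuousLinearMap.ext fun h => ?_
    exact hf _ _ (hg h)
  -- (g)
  have hgr : ∀ k : H, ((star S) k, k - R k) ∈ N.graph := by
    intro k
    refine h3 _ _ fun c c' hcc => ?_
    have hcd : c ∈ N.domain := by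
      rw [← hdom]
      exact dom_of_graph hcc
    obtain ⟨d, hcd'⟩ := ex_graph hcd
    have i1 : ⟪S k, d⟫_ℂ = ⟪(star S) k, c'⟫_ℂ := polar hN (hg k) (hw k) hcd' hcc
    have i2 : ⟪d, S k⟫_ℂ = ⟪c, k - R k⟫_ℂ := (adj_iff hd _ _).1 (hc k) _ _ hcd'
    have i3 := congrArg (starRingEnd ℂ) i2
    rw [inner_conj_symm, inner_conj_symm] at i3
    rw [← i1, i3]
  refine ⟨R, S, ⟨fun x y => ⟨hf x y, fun hxy => ?_⟩, hRsa, hnor, hcomm, hSS, hinj⟩⟩
  -- (h)
  have hcomm' : R * star S = star S * R := by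
    have := congrArg star hcomm
    rw [star_mul, star_mul, hRsa] at this
    exact this
  have e1 : R ((star S) y) = R (x - R x) := by
    have i1 : R ((star S) y) = (star S) (R y) := congrArg (fun T : H →L[ℂ] H => T y) hcomm'
    have i2 : (star S) (S x) = R x - R (R x) := congrArg (fun T : H →L[ℂ] H => T x) hSS
    rw [i1, ← hxy, i2, map_sub]
  have e2 : (star S) y = x - R x := by
    have := hinj ((star S) y - (x - R x)) (by rw [map_sub, e1, sub_self])
    exact sub_eq_zero.1 this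
  have hsum := N.graph.add_mem (hg x) (hgr y)
  rw [Prod.mk_add_mk, e2, hxy] at hsum
  have s1 : R x + (x - R x) = x := by abel
  have s2 : R y + (y - R y) = y := by abel
  rw [s1, s2] at hsum
  exact hsum

end Pool.Q2
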