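import Pool.Agent.Work.MP_8c7e5b_q2.Interface3

/-!
# MP_8c7e5b_an, Q2: block U1 (extension of a star homomorphism to bounded continuous functions)
-/

open MeasureTheory Complex Filter Topology
open scoped ComplexOrder InnerProductSpace ComplexConjugate BoundedContinuousFunction ZeroAtInfty

set_option autoImplicit false
set_option linter.unusedSectionVars false

universe v

namespace Pool.Q2

open Pool.Bes

namespace U1Aux

/-- the product of a bounded continuous function and a function vanishing at infinity -/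
noncomputable def mulC (F : ℂ →ᵇ ℂ) (g : C₀(ℂ, ℂ)) : C₀(ℂ, ℂ) where
  toFun z := F z * g z
  continuous_toFun := F.continuous.mul g.continuous
  zero_at_infty' := by
    have h1 : Tendsto (fun z => ‖F‖ * ‖g z‖) (cocompact ℂ) (𝓝 0) := by
      have h2 := (g.zero_at_infty').norm
      rw [norm_zero] at h2
      have h3 := h2.const_mul ‖F‖
      rw [mul_zero] at h3
      exact h3
    refine squeeze_zero_norm (fun z => ?_) h1
    rw [norm_mul]
    exact mul_le_mul_of_nonneg_right (F.norm_coe_le_norm z) (norm_nonneg _)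

theorem mulC_apply (F : ℂ →ᵇ ℂ) (g : C₀(ℂ, ℂ)) (z : ℂ) : mulC F g z = F z * g z := rfl

theorem norm_le_iff (g : C₀(ℂ, ℂ)) (C : ℝ) (hC : 0 ≤ C) : ‖g‖ ≤ C ↔ ∀ z, ‖g z‖ ≤ C := by
  rw [← ZeroAtInftyContinuousMap.norm_toBCF_eq_norm, BoundedContinuousFunction.norm_le hC]
  rfl

theorem norm_apply_le (g : C₀(ℂ, ℂ)) (z : ℂ) : ‖g z‖ ≤ ‖g‖ :=
  (norm_le_iff g ‖g‖ (norm_nonneg _)).1 le_rfl z

theorem norm_mulC_le (F : ℂ →ᵇ ℂ) (g : C₀(ℂ, ℂ)) : ‖mulC F g‖ ≤ ‖F‖ * ‖g‖ := by
  rw [norm_le_iff _ _ (by positivity)]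
  intro z
  rw [mulC_apply, norm_mul]
  exact mul_le_mul (F.norm_coe_le_norm z) (norm_apply_le g z) (norm_nonneg _) (norm_nonneg _)

/-- the cut-off -/
noncomputable def cut (n : ℕ) (z : ℂ) : ℂ := ((max 0 (min 1 ((n : ℝ) + 1 - ‖z‖)) : ℝ) : ℂ)

theorem cut_cont (n : ℕ) : Continuous (cut n) := by
  unfold cut
  exact Complex.continuous_ofReal.comp (by fun_prop)

theorem norm_cut_le (n : ℕ) (z : ℂ) : ‖cut n z‖ ≤ 1 := by
  unfold cut
  rw [Complex.norm_real, Real.norm_eq_abs, abs_of_nonneg (le_max_left _ _)]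
  exact max_le zero_le_one (min_le_left _ _)

theorem cut_eq_one (n : ℕ) (z : ℂ) (h : ‖z‖ ≤ n) : cut n z = 1 := by
  unfold cut
  rw [min_eq_left (by linarith), max_eq_right zero_le_one]
  norm_num

theorem cut_eq_zero (n : ℕ) (z : ℂ) (h : (n : ℝ) + 1 ≤ ‖z‖) : cut n z = 0 := by
  unfold cut
  rw [min_eq_right (by linarith), max_eq_left (by linarith)]
  norm_num

/-- the cut-off as an element of `C₀` -/
noncomputable def chi (n : ℕ) : C₀(ℂ, ℂ) where
  toFun := cut n
  continuous_toFun := cut_cont n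
  zero_at_infty' := by
    refine tendsto_const_nhds.congr' ?_
    have h1 : ∀ᶠ z : ℂ in cocompact ℂ, (n : ℝ) + 1 ≤ ‖z‖ :=
      (tendsto_norm_cocompact_atTop (E := ℂ)).eventually (eventually_ge_atTop _)
    filter_upwards [h1] with z hz
    exact (cut_eq_zero n z hz).symm

theorem chi_apply (n : ℕ) (z : ℂ) : chi n z = cut n z := rfl

theorem norm_chi_le (n : ℕ) : ‖chi n‖ ≤ 1 := by
  rw [norm_le_iff _ _ zero_le_one]
  exact fun z => norm_cut_le n z

/-- multiplication by a bounded, locally uniformly convergent sequence -/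
theorem tendsto_mul (a : ℕ → C₀(ℂ, ℂ)) (b f : C₀(ℂ, ℂ)) (u : ℕ → ℂ → ℂ) (w : ℂ → ℂ) (M : ℝ)
    (ha : ∀ n z, a n z = u n z * f z) (hb : ∀ z, b z = w z * f z)
    (hu : ∀ n z, ‖u n z‖ ≤ M) (hw : ∀ z, ‖w z‖ ≤ M)
    (hlim : TendstoLocallyUniformly u w atTop) : Tendsto a atTop (𝓝 b) := by
  have hM : 0 ≤ M := (norm_nonneg _).trans (hw 0)
  rw [Metric.tendsto_atTop]
  intro ε hε
  set η : ℝ := ε / (4 * (M + 1)) with hη
  have hη0 : 0 < η := by positivity
  have h1 : ∀ᶠ z : ℂ in cocompact ℂ, ‖f z‖ < η := by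
    have h2 := (f.zero_at_infty').norm
    rw [norm_zero] at h2
    exact h2.eventually (gt_mem_nhds hη0)
  obtain ⟨K, hK, hKf⟩ := mem_cocompact.1 h1
  have h3 := (tendstoLocallyUniformly_iff_forall_isCompact.1 hlim) K hK
  rw [Metric.tendstoUniformlyOn_iff] at h3
  have hfp : 0 < ε / (2 * (‖f‖ + 1)) := by positivity
  obtain ⟨N, hN⟩ := eventually_atTop.1 (h3 _ hfp)
  refine ⟨N, fun n hn => ?_⟩
  rw [dist_eq_norm]
  refine lt_of_le_of_lt ((norm_le_iff _ (ε / 2) (by positivity)).2 fun z => ?_) (by linarith)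
  rw [ZeroAtInftyContinuousMap.sub_apply, ha, hb, ← sub_mul, norm_mul]
  by_cases hz : z ∈ K
  · have h4 := hN n hn z hz
    rw [dist_eq_norm, ← norm_neg, neg_sub] at h4
    calc ‖u n z - w z‖ * ‖f z‖ ≤ ε / (2 * (‖f‖ + 1)) * (‖f‖ + 1) :=
          mul_le_mul h4.le ((norm_apply_le f z).trans (by linarith)) (norm_nonneg _) hfp.le
      _ = ε / 2 := by field_simp
  · have h4 : ‖f z‖ < η := hKf hz
    have h5 : ‖u n z - w z‖ ≤ 2 * (M + 1) := by
      have := norm_sub_le (u n z) (w z)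
      linarith [hu n z, hw z]
    calc ‖u n z - w z‖ * ‖f z‖ ≤ 2 * (M + 1) * η :=
          mul_le_mul h5 h4.le (norm_nonneg _) (by positivity)
      _ = ε / 2 := by rw [hη]; field_simp; ring

theorem cut_tendsto : TendstoLocallyUniformly cut (fun _ => 1) atTop := by
  rw [tendstoLocallyUniformly_iff_forall_isCompact]
  intro K hK
  rw [Metric.tendstoUniformlyOn_iff]
  intro ε hε
  obtain ⟨R, hR⟩ := hK.isBounded.exists_norm_le
  obtain ⟨N, hN⟩ := exists_nat_ge R
  filter_upwards [eventually_ge_atTop N] with n hn z hz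
  have h1 : ‖z‖ ≤ n := (hR z hz).trans (hN.trans (by exact_mod_cast hn))
  rw [cut_eq_one n z h1, dist_self]
  exact hε

section Ext

variable {H : Type v} [NormedAddCommGroup H] [InnerProductSpace ℂ H] [CompleteSpace H]

/-- Cauchy sequences of bounded operators -/
theorem cauchy_of_dense (T : ℕ → H →L[ℂ] H) (M : ℝ) (hM : ∀ n, ‖T n‖ ≤ M) (D : Set H)
    (hD : (Submodule.span ℂ D).topologicalClosure = ⊤)
    (h : ∀ v ∈ D, CauchySeq fun n => T n v) (x : H) : CauchySeq fun n => T n x := by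
  have hspan : ∀ v ∈ Submodule.span ℂ D, CauchySeq fun n => T n v := by
    intro v hv
    refine Submodule.span_induction (p := fun v _ => CauchySeq fun n => T n v) h ?_ ?_ ?_ hv
    · simp only [map_zero]
      exact cauchySeq_const 0
    · intro a b _ _ ha hb
      simp only [map_add]
      exact ha.add hb
    · intro c a _ ha
      simp only [map_smul]
      exact (uniformContinuous_const_smul c).comp_cauchySeq ha
  have hM0 : 0 ≤ M := (norm_nonneg _).trans (hM 0)
  rw [Metric.cauchySeq_iff]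
  intro ε hε
  have hx : x ∈ closure ((Submodule.span ℂ D : Submodule ℂ H) : Set H) := by
    have : x ∈ (Submodule.span ℂ D).topologicalClosure := by rw [hD]; trivial
    exact this
  have hη : 0 < ε / (3 * (M + 1)) := by positivity
  obtain ⟨v, hv, hxv⟩ := Metric.mem_closure_iff.1 hx _ hη
  obtain ⟨N, hN⟩ := Metric.cauchySeq_iff.1 (hspan v hv) (ε / 3) (by positivity)
  refine ⟨N, fun m hm n hn => ?_⟩
  have h1 : ∀ k, ‖T k x - T k v‖ < ε / 3 := by
    intro k
    rw [← map_sub]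
    have h2 : ‖T k (x - v)‖ ≤ M * ‖x - v‖ :=
      (ContinuousLinearMap.le_opNorm _ _).trans
        (mul_le_mul_of_nonneg_right (hM k) (norm_nonneg _))
    rw [dist_eq_norm] at hxv
    calc ‖T k (x - v)‖ ≤ M * ‖x - v‖ := h2
      _ ≤ (M + 1) * ‖x - v‖ := by gcongr; linarith
      _ < (M + 1) * (ε / (3 * (M + 1))) := by gcongr
      _ = ε / 3 := by field_simp
  have h2 := hN m hm n hn
  rw [dist_eq_norm] at h2 ⊢
  have h3 : T m x - T n x = (T m x - T m v) + (T m v - T n v) - (T n x - T n v) := by abel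
  rw [h3]
  calc ‖(T m x - T m v) + (T m v - T n v) - (T n x - T n v)‖
      ≤ ‖T m x - T m v‖ + ‖T m v - T n v‖ + ‖T n x - T n v‖ :=
        (norm_sub_le _ _).trans (by gcongr; exact norm_add_le _ _)
    _ < ε / 3 + ε / 3 + ε / 3 := by
        have := h1 m
        have := h1 n
        linarith
    _ = ε := by ring

theorem eq_of_dense (S T : H →L[ℂ] H) (D : Set H)
    (hD : (Submodule.span ℂ D).topologicalClosure = ⊤) (h : ∀ v ∈ D, S v = T v) : S = T := by
  have h1 : Dense ((Submodule.span ℂ D : Submodule ℂ H) : Set H) := by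
    rw [Submodule.dense_iff_topologicalClosure_eq_top]
    exact hD
  exact ContinuousLinearMap.ext_on h1 h

/-- the limit operator -/
theorem exists_limit (T : ℕ → H →L[ℂ] H) (M : ℝ) (hM : ∀ n, ‖T n‖ ≤ M) (D : Set H)
    (hD : (Submodule.span ℂ D).topologicalClosure = ⊤)
    (h : ∀ v ∈ D, CauchySeq fun n => T n v) :
    ∃ L : H →L[ℂ] H, ∀ x, Tendsto (fun n => T n x) atTop (𝓝 (L x)) := by
  have h1 : ∀ x, ∃ y, Tendsto (fun n => T n x) atTop (𝓝 y) := fun x =>
    cauchySeq_tendsto_of_complete (cauchy_of_dense T M hM D hD h x)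
  choose f hf using h1
  have h2 : Tendsto (fun n x => T n x) atTop (𝓝 f) := tendsto_pi_nhds.2 hf
  exact ⟨continuousLinearMapOfTendsto T h2, hf⟩

variable (π : C₀(ℂ, ℂ) →⋆ₙₐ[ℂ] (H →L[ℂ] H))

theorem norm_pi_le (g : C₀(ℂ, ℂ)) : ‖π g‖ ≤ ‖g‖ := NonUnitalStarAlgHom.norm_apply_le π g

theorem tendsto_pi {a : ℕ → C₀(ℂ, ℂ)} {b : C₀(ℂ, ℂ)} (h : Tendsto a atTop (𝓝 b)) (y : H) :
    Tendsto (fun n => π (a n) y) atTop (𝓝 (π b y)) := by
  rw [tendsto_iff_norm_sub_tendsto_zero] at h ⊢
  have h2 := h.mul_const ‖y‖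
  rw [zero_mul] at h2
  refine squeeze_zero (fun n => norm_nonneg _) (fun n => ?_) h2
  have h3 : π (a n) y - π b y = π (a n - b) y := by
    rw [map_sub]; rfl
  rw [h3]
  exact (ContinuousLinearMap.le_opNorm _ _).trans
    (mul_le_mul_of_nonneg_right (norm_pi_le π _) (norm_nonneg _))

/-- the vectors `π f y` -/
def VV : Set H := {x | ∃ (f : C₀(ℂ, ℂ)) (y : H), x = π f y}

theorem orth_zero (hπ : ∀ x : H, (∀ f, π f x = 0) → x = 0) (x : H)
    (h : ∀ v ∈ VV π, ⟪v, x⟫_ℂ = 0) : x = 0 := by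
  refine hπ x fun f => ?_
  have h1 : ⟪π (star f) (π f x), x⟫_ℂ = 0 := h _ ⟨star f, π f x, rfl⟩
  have h2 : π (star f) = ContinuousLinearMap.adjoint (π f) := by
    rw [map_star]; rfl
  rw [h2, ContinuousLinearMap.adjoint_inner_left, inner_self_eq_zero] at h1
  exact h1

theorem dense_VV (hπ : ∀ x : H, (∀ f, π f x = 0) → x = 0) :
    (Submodule.span ℂ (VV π)).topologicalClosure = ⊤ := by
  rw [Submodule.topologicalClosure_eq_top_iff, Submodule.eq_bot_iff]
  intro x hx
  refine orth_zero π hπ x fun v hv => ?_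
  exact (Submodule.mem_orthogonal _ _).1 hx v (Submodule.subset_span hv)

theorem exists_ext (hπ : ∀ x : H, (∀ f, π f x = 0) → x = 0) (F : ℂ →ᵇ ℂ) :
    ∃ L : H →L[ℂ] H, ∀ (f : C₀(ℂ, ℂ)) (y : H), L (π f y) = π (mulC F f) y := by
  have hlim : ∀ (f : C₀(ℂ, ℂ)) (y : H), Tendsto (fun n => π (mulC F (chi n)) (π f y)) atTop
      (𝓝 (π (mulC F f) y)) := by
    intro f y
    have h1 : ∀ n, π (mulC F (chi n)) (π f y) = π (mulC F (chi n) * f) y := by
      intro n; rw [map_mul]; rfl
    simp only [h1]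
    refine tendsto_pi π ?_ y
    refine tendsto_mul _ _ (mulC F f) cut (fun _ => 1) 1 ?_ ?_ (fun n z => norm_cut_le n z)
      (fun z => by norm_num) cut_tendsto
    · intro n z
      rw [ZeroAtInftyContinuousMap.mul_apply, mulC_apply, mulC_apply, chi_apply]
      ring
    · intro z; rw [one_mul]
  obtain ⟨L, hL⟩ := exists_limit (fun n => π (mulC F (chi n))) ‖F‖ (fun n => by
    refine (norm_pi_le π _).trans ((norm_mulC_le _ _).trans ?_)
    calc ‖F‖ * ‖chi n‖ ≤ ‖F‖ * 1 := by gcongr; exact norm_chi_le n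
      _ = ‖F‖ := mul_one _) (VV π) (dense_VV π hπ) (by
    rintro v ⟨f, y, rfl⟩
    exact (hlim f y).cauchySeq)
  exact ⟨L, fun f y => tendsto_nhds_unique (hL _) (hlim f y)⟩

end Ext

end U1Aux

open U1Aux

theorem blk_U1 : Stmt_U1.{v} := by
  intro H _ _ _ π hπ
  choose L hL using exists_ext π hπ
  have hD := dense_VV π hπ
  have huniq : ∀ S T : H →L[ℂ] H, (∀ f y, S (π f y) = T (π f y)) → S = T := by
    intro S T h
    refine eq_of_dense S T (VV π) hD ?_
    rintro v ⟨f, y, rfl⟩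
    exact h f y
  have hadd : ∀ F G : ℂ →ᵇ ℂ, L (F + G) = L F + L G := by
    intro F G
    refine huniq _ _ fun f y => ?_
    rw [_root_.add_apply, hL, hL, hL, ← _root_.add_apply, ← map_add]
    congr 2
    ext z
    rw [ZeroAtInftyContinuousMap.add_apply, mulC_apply, mulC_apply, mulC_apply,
      BoundedContinuousFunction.add_apply, add_mul]
  have hmul : ∀ F G : ℂ →ᵇ ℂ, L (F * G) = L F * L G := by
    intro F G
    refine huniq _ _ fun f y => ?_
    rw [mul_apply_eq_comp, hL, hL, hL]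
    congr 2
    ext z
    rw [mulC_apply, mulC_apply, mulC_apply, BoundedContinuousFunction.mul_apply, mul_assoc]
  have halg : ∀ c : ℂ, L (algebraMap ℂ (ℂ →ᵇ ℂ) c) = algebraMap ℂ (H →L[ℂ] H) c := by
    intro c
    refine huniq _ _ fun f y => ?_
    have h0 : (algebraMap ℂ (H →L[ℂ] H) c) (π f y) = c • π f y := by
      rw [Algebra.algebraMap_eq_smul_one]; rfl
    rw [hL, h0]
    have : mulC (algebraMap ℂ (ℂ →ᵇ ℂ) c) f = c • f := by
      ext z
      rw [mulC_apply, ZeroAtInftyContinuousMap.smul_apply, smul_eq_mul]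
      rfl
    rw [this, map_smul]
    rfl
  have hone : L 1 = 1 := by
    have := halg 1
    rwa [map_one, map_one] at this
  have hzero : L 0 = 0 := by
    have := halg 0
    rwa [map_zero, map_zero] at this
  have hstar : ∀ F : ℂ →ᵇ ℂ, L (star F) = star (L F) := by
    intro F
    refine huniq _ _ fun f y => ?_
    rw [← sub_eq_zero]
    refine orth_zero π hπ _ ?_
    rintro v ⟨g, w, rfl⟩
    rw [inner_sub_right, sub_eq_zero, ContinuousLinearMap.star_eq_adjoint,
      ContinuousLinearMap.adjoint_inner_right, hL, hL]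
    have e1 : ∀ (a b : C₀(ℂ, ℂ)) (p q : H), ⟪π a p, π b q⟫_ℂ = ⟪p, π (star a * b) q⟫_ℂ := by
      intro a b p q
      rw [map_mul, map_star]
      rw [mul_apply_eq_comp, ContinuousLinearMap.star_eq_adjoint,
        ContinuousLinearMap.adjoint_inner_right]
    rw [e1, e1]
    congr 3
    ext z
    rw [ZeroAtInftyContinuousMap.mul_apply, ZeroAtInftyContinuousMap.mul_apply,
      ZeroAtInftyContinuousMap.star_apply, ZeroAtInftyContinuousMap.star_apply, mulC_apply,
      mulC_apply, BoundedContinuousFunction.star_apply, star_mul']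
    ring
  let Φ : (ℂ →ᵇ ℂ) →⋆ₐ[ℂ] (H →L[ℂ] H) :=
    { toFun := L
      map_one' := hone
      map_mul' := hmul
      map_zero' := hzero
      map_add' := hadd
      commutes' := halg
      map_star' := hstar }
  have hnorm : ∀ F : ℂ →ᵇ ℂ, ‖L F‖ ≤ ‖F‖ := fun F => NonUnitalStarAlgHom.norm_apply_le Φ F
  refine ⟨Φ, ?_, hnorm, ?_⟩
  · intro f F hF
    change L F = π f
    refine huniq _ _ fun g y => ?_
    rw [hL]
    have : mulC F g = f * g := by
      ext z
      rw [mulC_apply, ZeroAtInftyContinuousMap.mul_apply, hF]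
    rw [this, map_mul]
    rfl
  · intro F G M hM hlim x
    change Tendsto (fun n => L (F n) x) atTop (𝓝 (L G x))
    have hM0 : 0 ≤ M := (norm_nonneg _).trans (hM 0)
    have h1 : ∀ (f : C₀(ℂ, ℂ)) (y : H), Tendsto (fun n => L (F n) (π f y)) atTop
        (𝓝 (L G (π f y))) := by
      intro f y
      simp only [hL]
      refine tendsto_pi π ?_ y
      refine tendsto_mul _ _ f (fun n z => F n z) (fun z => G z) (max M ‖G‖)
        (fun n z => rfl) (fun z => rfl)
        (fun n z => ((F n).norm_coe_le_norm z).trans ((hM n).trans (le_max_left _ _)))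
        (fun z => (G.norm_coe_le_norm z).trans (le_max_right _ _)) hlim
    obtain ⟨T, hT⟩ := exists_limit (fun n => L (F n)) M (fun n => (hnorm _).trans (hM n))
      (VV π) hD (by rintro v ⟨f, y, rfl⟩; exact (h1 f y).cauchySeq)
    have h2 : T = L G := huniq _ _ fun f y => tendsto_nhds_unique (hT _) (h1 f y)
    rw [← h2]
    exact hT x

end Pool.Q2
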