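import Pool.Agent.Work.MP_8c7e5b_q2.Interface5
import Pool.Agent.Work.MP_8c7e5b_q2.U1

/-!
# MP_8c7e5b_an, Q2, block SPE: from the pair `R, S` to the functional calculus
-/

open MeasureTheory Complex Filter Topology
open scoped ComplexOrder InnerProductSpace ComplexConjugate BoundedContinuousFunction ZeroAtInfty

set_option autoImplicit false
set_option linter.unusedSectionVars false

universe v

namespace Pool.Q2

open Pool.Bes U1Aux

namespace SPEAux

theorem one_add_ne (z : ℂ) : ((1 + ‖z‖ ^ 2 : ℝ) : ℂ) ≠ 0 := by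
  have h : (1 + ‖z‖ ^ 2 : ℝ) ≠ 0 := by positivity
  exact_mod_cast h

theorem tendsto_inv_norm : Tendsto (fun z : ℂ => ‖z‖⁻¹) (cocompact ℂ) (𝓝 0) :=
  tendsto_inv_atTop_zero.comp (tendsto_norm_cocompact_atTop (E := ℂ))

/-- the function `1/(1 + |z|²)` -/
noncomputable def rr : C₀(ℂ, ℂ) where
  toFun z := 1 / ((1 + ‖z‖ ^ 2 : ℝ) : ℂ)
  continuous_toFun :=
    continuous_const.div (Complex.continuous_ofReal.comp (by fun_prop)) one_add_ne
  zero_at_infty' := by
    refine squeeze_zero_norm' ?_ tendsto_inv_norm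
    filter_upwards [(tendsto_norm_cocompact_atTop (E := ℂ)).eventually (eventually_ge_atTop 1)]
      with z hz
    rw [norm_div, norm_one, Complex.norm_real, Real.norm_of_nonneg (by positivity), ← one_div]
    exact one_div_le_one_div_of_le (by linarith) (by nlinarith)

theorem rr_apply (z : ℂ) : rr z = 1 / ((1 + ‖z‖ ^ 2 : ℝ) : ℂ) := rfl

/-- the function `z/(1 + |z|²)` -/
noncomputable def ss : C₀(ℂ, ℂ) where
  toFun z := z / ((1 + ‖z‖ ^ 2 : ℝ) : ℂ)
  continuous_toFun :=
    continuous_id.div (Complex.continuous_ofReal.comp (by fun_prop)) one_add_ne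
  zero_at_infty' := by
    refine squeeze_zero_norm' ?_ tendsto_inv_norm
    filter_upwards [(tendsto_norm_cocompact_atTop (E := ℂ)).eventually (eventually_ge_atTop 1)]
      with z hz
    rw [norm_div, Complex.norm_real, Real.norm_of_nonneg (by positivity), ← one_div,
      div_le_div_iff₀ (by positivity) (by linarith)]
    nlinarith

theorem ss_apply (z : ℂ) : ss z = z / ((1 + ‖z‖ ^ 2 : ℝ) : ℂ) := rfl

/-- the bounded function `χ_n (1 + |z|²)` -/
noncomputable def bw (n : ℕ) : ℂ →ᵇ ℂ :=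
  BoundedContinuousFunction.ofNormedAddCommGroup
    (fun z : ℂ => cut n z * ((1 + ‖z‖ ^ 2 : ℝ) : ℂ))
    ((cut_cont n).mul (Complex.continuous_ofReal.comp (by fun_prop))) (1 + ((n : ℝ) + 1) ^ 2)
    (fun z => by
      rw [norm_mul, Complex.norm_real, Real.norm_of_nonneg (by positivity)]
      by_cases hz : (n : ℝ) + 1 ≤ ‖z‖
      · rw [cut_eq_zero n z hz, norm_zero, zero_mul]
        positivity
      · push Not at hz
        have h1 : ‖z‖ ^ 2 ≤ ((n : ℝ) + 1) ^ 2 := pow_le_pow_left₀ (norm_nonneg z) hz.le 2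
        calc ‖cut n z‖ * (1 + ‖z‖ ^ 2) ≤ 1 * (1 + ((n : ℝ) + 1) ^ 2) :=
              mul_le_mul (norm_cut_le n z) (by linarith) (by positivity) zero_le_one
          _ = 1 + ((n : ℝ) + 1) ^ 2 := one_mul _)

theorem bw_apply (n : ℕ) (z : ℂ) : bw n z = cut n z * ((1 + ‖z‖ ^ 2 : ℝ) : ℂ) := rfl

end SPEAux

open SPEAux

theorem blk_SPE : Stmt_SPE.{v} := by
  intro H _ _ _ N R S π hp hR hS
  have hr : π rr = R := hR rr rr_apply
  have hs : π ss = S := hS ss ss_apply
  refine ⟨fun x hx => hp.inj x ?_, fun x y => ⟨fun hxy f g hg => ?_, fun h => ?_⟩⟩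
  · rw [← hr]
    exact hx rr
  · have hSR : S x = R y := (hp.gr x y).1 hxy
    have hlim1 : Tendsto (fun n => mulC (bw n) f * rr) atTop (𝓝 f) := by
      refine tendsto_mul _ f f cut (fun _ => 1) 1 (fun n z => ?_) (fun z => (one_mul _).symm)
        norm_cut_le (fun _ => by rw [norm_one]) cut_tendsto
      rw [ZeroAtInftyContinuousMap.mul_apply, mulC_apply, bw_apply, rr_apply]
      field_simp [one_add_ne z]
    have hlim2 : Tendsto (fun n => mulC (bw n) f * ss) atTop (𝓝 g) := by
      refine tendsto_mul _ g g cut (fun _ => 1) 1 (fun n z => ?_) (fun z => (one_mul _).symm)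
        norm_cut_le (fun _ => by rw [norm_one]) cut_tendsto
      rw [ZeroAtInftyContinuousMap.mul_apply, mulC_apply, bw_apply, ss_apply, hg]
      field_simp [one_add_ne z]
    have h1 := tendsto_pi (π := π) hlim1 y
    have h2 := tendsto_pi (π := π) hlim2 x
    have h3 : (fun n => π (mulC (bw n) f * rr) y) = fun n => π (mulC (bw n) f * ss) x := by
      funext n
      rw [map_mul, map_mul, hr, hs]
      exact congrArg (π (mulC (bw n) f)) hSR.symm
    rw [h3] at h1
    exact tendsto_nhds_unique h2 h1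
  · refine (hp.gr x y).2 ?_
    rw [← hr, ← hs]
    refine h rr ss fun z => ?_
    rw [rr_apply, ss_apply]
    ring

end Pool.Q2
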