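import Pool.Agent.Work.MP_8c7e5b_q2.Interface

/-!
# MP_8c7e5b_an, Q2, block SPF: diagonalisation in finite dimension
-/

open MeasureTheory Complex Filter Topology
open scoped ComplexOrder InnerProductSpace ComplexConjugate ComplexStarModule

set_option autoImplicit false
set_option linter.unusedSectionVars false

universe v

namespace Pool.Q2

open Pool.Bes

namespace SPFAux

/-- an orthonormal basis of eigenvectors -/
theorem eig_basis (r : ℕ) (M : Ef r →L[ℂ] Ef r) (hM : IsStarNormal M) :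
    ∃ (b : OrthonormalBasis (Fin r) ℂ (Ef r)) (lam : Fin r → ℂ), ∀ k, M (b k) = lam k • b k := by
  classical
  set A : Ef r →L[ℂ] Ef r := (ℜ M : Ef r →L[ℂ] Ef r) with hA
  set B : Ef r →L[ℂ] Ef r := (ℑ M : Ef r →L[ℂ] Ef r) with hB
  have hdec : A + I • B = M := realPart_add_I_smul_imaginaryPart M
  have hAs : (A : Ef r →ₗ[ℂ] Ef r).IsSymmetric :=
    ContinuousLinearMap.isSelfAdjoint_iff_isSymmetric.1 (ℜ M).2
  have hBs : (B : Ef r →ₗ[ℂ] Ef r).IsSymmetric :=
    ContinuousLinearMap.isSelfAdjoint_iff_isSymmetric.1 (ℑ M).2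
  have hc : Commute A B := isStarNormal_iff_commute_realPart_imaginaryPart.1 hM
  have hcom : Commute (A : Ef r →ₗ[ℂ] Ef r) (B : Ef r →ₗ[ℂ] Ef r) := by
    have h1 := congrArg (fun T : Ef r →L[ℂ] Ef r => (T : Ef r →ₗ[ℂ] Ef r)) hc.eq
    exact h1
  set V : ℂ × ℂ → Submodule ℂ (Ef r) := fun i =>
    Module.End.eigenspace (A : Ef r →ₗ[ℂ] Ef r) i.2 ⊓
      Module.End.eigenspace (B : Ef r →ₗ[ℂ] Ef r) i.1 with hV
  have hint : DirectSum.IsInternal V := LinearMap.IsSymmetric.directSum_isInternal_of_commute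
    hAs hBs hcom
  have hort : OrthogonalFamily ℂ (fun i => V i) fun i => (V i).subtypeₗᵢ :=
    LinearMap.IsSymmetric.orthogonalFamily_eigenspace_inf_eigenspace hAs hBs
  have hint2 : DirectSum.IsInternal (fun i : {i // V i ≠ ⊥} => V i) :=
    DirectSum.isInternal_ne_bot_iff.mpr hint
  have hort2 : OrthogonalFamily ℂ (fun i : {i // V i ≠ ⊥} => V i) fun i => (V i).subtypeₗᵢ :=
    hort.comp Subtype.coe_injective
  let _ : Fintype {i // V i ≠ ⊥} := iSupIndep.fintypeNeBotOfFiniteDimensional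
    hint.submodule_iSupIndep
  have hr : Module.finrank ℂ (Ef r) = r := finrank_euclideanSpace_fin
  refine ⟨hint2.subordinateOrthonormalBasis hr hort2, fun k =>
    (hint2.subordinateOrthonormalBasisIndex hr k hort2).1.2 +
      I * (hint2.subordinateOrthonormalBasisIndex hr k hort2).1.1, fun k => ?_⟩
  have hmem := hint2.subordinateOrthonormalBasis_subordinate hr k hort2
  obtain ⟨h1, h2⟩ := Submodule.mem_inf.1 hmem
  rw [Module.End.mem_eigenspace_iff] at h1 h2
  have h1' : A (hint2.subordinateOrthonormalBasis hr hort2 k) = _ := h1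
  have h2' : B (hint2.subordinateOrthonormalBasis hr hort2 k) = _ := h2
  rw [← hdec, add_apply, _root_.smul_apply, h1', h2', add_smul,
    mul_smul]

section

variable {H : Type v} [NormedAddCommGroup H] [InnerProductSpace ℂ H] [CompleteSpace H]

theorem star_apply (M : H →L[ℂ] H) (hM : IsStarNormal M) (l : ℂ) (x : H) (h : M x = l • x) :
    star M x = conj l • x := by
  have hn : IsStarNormal (M - algebraMap ℂ (H →L[ℂ] H) l) := by
    constructor
    rw [star_sub]
    have h1 : star (algebraMap ℂ (H →L[ℂ] H) l) = algebraMap ℂ (H →L[ℂ] H) (conj l) :=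
      (algebraMap_star_comm l).symm
    rw [h1]
    have hc := hM.star_comm_self
    exact ((hc.sub_left (Algebra.commute_algebraMap_left _ _)).sub_right
      ((Algebra.commute_algebraMap_right _ _).sub_left (Algebra.commute_algebraMap_left _ _)))
  have h2 := (ContinuousLinearMap.IsStarNormal.adjoint_apply_eq_zero_iff hn x).2 (by
    rw [sub_apply, h]
    simp [Algebra.algebraMap_eq_smul_one])
  have h3 : ContinuousLinearMap.adjoint (M - algebraMap ℂ (H →L[ℂ] H) l) =
      star M - algebraMap ℂ (H →L[ℂ] H) (conj l) := by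
    rw [← ContinuousLinearMap.star_eq_adjoint, star_sub, ← algebraMap_star_comm l]
    rfl
  rw [h3, sub_apply, sub_eq_zero] at h2
  rw [h2]
  simp [Algebra.algebraMap_eq_smul_one]

theorem mem_spec (M : H →L[ℂ] H) (l : ℂ) (x : H) (hx : x ≠ 0) (h : M x = l • x) :
    l ∈ spectrum ℂ M := by
  rw [spectrum.mem_iff]
  intro hu
  obtain ⟨u, hu⟩ := hu
  have h1 : (u : H →L[ℂ] H) x = 0 := by
    rw [hu, sub_apply, h]
    simp [Algebra.algebraMap_eq_smul_one]
  have h2 : ((↑u⁻¹ : H →L[ℂ] H) * (u : H →L[ℂ] H)) x = x := by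
    rw [Units.inv_mul]
    rfl
  have h3 : (↑u⁻¹ : H →L[ℂ] H) ((u : H →L[ℂ] H) x) = x := h2
  rw [h1, map_zero] at h3
  exact hx h3.symm

theorem cfc_apply_eig (M : H →L[ℂ] H) (hM : IsStarNormal M) (l : ℂ) (x : H) (hx : x ≠ 0)
    (h : M x = l • x) (f : ℂ → ℂ) (hf : Continuous f) : cfc f M x = f l • x := by
  have hl := mem_spec M l x hx h
  have key : ∀ g : C(spectrum ℂ M, ℂ), cfcHom hM g x = g ⟨l, hl⟩ • x := by
    intro g
    induction g using ContinuousMap.induction_on_of_compact with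
    | const c =>
      have h1 : cfcHom hM (ContinuousMap.const _ c) = algebraMap ℂ (H →L[ℂ] H) c :=
        AlgHomClass.commutes (cfcHom hM) c
      rw [h1]
      simp [Algebra.algebraMap_eq_smul_one]
    | id =>
      rw [cfcHom_id hM, h]
      rfl
    | star_id =>
      rw [map_star, cfcHom_id hM, star_apply M hM l x h]
      rfl
    | add g₁ g₂ h₁ h₂ =>
      rw [map_add, add_apply, h₁, h₂, ContinuousMap.add_apply, add_smul]
    | mul g₁ g₂ h₁ h₂ =>
      have h3 : (cfcHom hM (g₁ * g₂)) x = cfcHom hM g₁ (cfcHom hM g₂ x) := by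
        rw [map_mul]
        rfl
      rw [h3, h₂, map_smul, h₁, ContinuousMap.mul_apply, smul_smul, mul_comm]
    | frequently g hg =>
      have hc1 : Continuous fun g : C(spectrum ℂ M, ℂ) => cfcHom hM g x :=
        (ContinuousLinearMap.apply ℂ H x).continuous.comp (cfcHom_continuous hM)
      have hc2 : Continuous fun g : C(spectrum ℂ M, ℂ) => g ⟨l, hl⟩ • x :=
        (by fun_prop : Continuous fun g : C(spectrum ℂ M, ℂ) => g ⟨l, hl⟩).smul continuous_const
      exact hg.mem_of_closed (isClosed_eq hc1 hc2)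
  rw [cfc_apply f M hM hf.continuousOn]
  exact key _

end

theorem trO_eq (r : ℕ) (b : OrthonormalBasis (Fin r) ℂ (Ef r)) (T : Ef r →L[ℂ] Ef r) :
    trO T = ∑ k, ⟪b k, T (b k)⟫_ℂ := by
  have h1 : T = ∑ k, r1 (T (b k)) (b k) := by
    ext1 x
    rw [sum_apply]
    conv_lhs => rw [← b.sum_repr' x, map_sum]
    refine Finset.sum_congr rfl fun k _ => ?_
    rw [map_smul, r1_apply]
  conv_lhs => rw [h1]
  rw [trO_sum _ _ fun k _ => isT_r1 _ _]
  exact Finset.sum_congr rfl fun k _ => trO_r1 _ _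

end SPFAux

theorem blk_SPF : Stmt_SPF := by
  intro r M hM
  obtain ⟨b, lam, hb⟩ := SPFAux.eig_basis r M hM
  refine ⟨lam, fun f hf => ?_⟩
  rw [SPFAux.trO_eq r b]
  refine Finset.sum_congr rfl fun k _ => ?_
  have hk : b k ≠ 0 := b.orthonormal.ne_zero k
  rw [SPFAux.cfc_apply_eig M hM (lam k) (b k) hk (hb k) f hf, inner_smul_right,
    inner_self_eq_norm_sq_to_K, b.orthonormal.1 k]
  simp

end Pool.Q2
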