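import Pool.Agent.Work.MP_8c7e5b_q2.Interface5

/-!
# MP_8c7e5b_an, Q2: block SPG (helper48)
-/

open MeasureTheory Complex Filter Topology
open scoped ComplexOrder InnerProductSpace ComplexConjugate BoundedContinuousFunction ZeroAtInfty

set_option autoImplicit false
set_option linter.unusedSectionVars false

universe v

namespace Pool.Q2

open Pool.Bes

namespace SPGAux

open WeakDual

variable {A : Type v} [CommCStarAlgebra A]

theorem map_star' (φ : characterSpace ℂ A) (a : A) : φ (star a) = conj (φ a) := by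
  have h := gelfandTransform_map_star a
  have h1 := congrArg (fun F : C(characterSpace ℂ A, ℂ) => F φ) h
  exact h1

section

variable {R S : A} (hR : star R = R) (hS : star S * S = R - R * R)

include hR hS

theorem facts (φ : characterSpace ℂ A) :
    φ R = ((φ R).re : ℂ) ∧ ‖φ S‖ ^ 2 = (φ R).re - (φ R).re ^ 2 := by
  have h1 : conj (φ R) = φ R := by
    rw [← map_star', hR]
  have h2 : φ R = ((φ R).re : ℂ) := (Complex.conj_eq_iff_re.1 h1).symm
  refine ⟨h2, ?_⟩
  have h3 := congrArg φ hS
  rw [map_mul, map_star', map_sub, map_mul, h2] at h3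
  have h4 : conj (φ S) * φ S = ((‖φ S‖ ^ 2 : ℝ) : ℂ) := by
    rw [mul_comm, Complex.mul_conj, Complex.normSq_eq_norm_sq]
  rw [h4] at h3
  have h5 : ((‖φ S‖ ^ 2 : ℝ) : ℂ) = (((φ R).re - (φ R).re ^ 2 : ℝ) : ℂ) := by
    rw [h3]
    push_cast
    ring
  exact_mod_cast h5

theorem re_nonneg (φ : characterSpace ℂ A) : 0 ≤ (φ R).re := by
  have h := (facts hR hS φ).2
  nlinarith [sq_nonneg ‖φ S‖, sq_nonneg (φ R).re]

theorem zero_iff (φ : characterSpace ℂ A) : φ R = 0 ↔ (φ R).re = 0 := by
  have h := (facts hR hS φ).1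
  constructor
  · intro h1
    rw [h1]
    rfl
  · intro h1
    rw [h, h1]
    rfl

theorem ratio (φ : characterSpace ℂ A) (h0 : φ R ≠ 0) :
    ‖φ S / φ R‖ ^ 2 = (1 - (φ R).re) / (φ R).re := by
  obtain ⟨h1, h2⟩ := facts hR hS φ
  have h3 : (φ R).re ≠ 0 := fun h => h0 ((zero_iff hR hS φ).2 h)
  have h4 : ‖φ R‖ ^ 2 = (φ R).re ^ 2 := by
    rw [h1, Complex.norm_real, Complex.ofReal_re, Real.norm_eq_abs, sq_abs]
  rw [norm_div, div_pow, h2, h4]
  field_simp

open Classical in
theorem cont (f : C₀(ℂ, ℂ)) : Continuous fun φ : characterSpace ℂ A =>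
    if φ R = 0 then (0 : ℂ) else f (φ S / φ R) := by
  have cR : Continuous fun φ : characterSpace ℂ A => φ R := by
    have := (gelfandTransform ℂ A R).continuous
    exact this
  have cS : Continuous fun φ : characterSpace ℂ A => φ S := by
    have := (gelfandTransform ℂ A S).continuous
    exact this
  rw [continuous_iff_continuousAt]
  intro φ₀
  by_cases h0 : φ₀ R = 0
  · rw [ContinuousAt, if_pos h0, Metric.tendsto_nhds]
    intro ε hε
    -- the set where `f` is at least `ε`
    have hf : ∀ᶠ z in cocompact ℂ, ‖f z‖ < ε := by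
      have h := (Metric.tendsto_nhds.1 f.zero_at_infty') ε hε
      filter_upwards [h] with z hz
      rwa [dist_zero_right] at hz
    obtain ⟨r, hr⟩ := (hasBasis_cocompact.eventually_iff).1 hf |>.imp fun K hK => hK |> fun h => h
    obtain ⟨hK, hKf⟩ := hr
    obtain ⟨ρ, hρ⟩ := hK.isBounded.subset_closedBall (0 : ℂ)
    have hρ' : ∀ z : ℂ, ρ < ‖z‖ → ‖f z‖ < ε := by
      intro z hz
      refine hKf ?_
      intro hmem
      have := hρ hmem
      rw [mem_closedBall_zero_iff] at this
      linarith
    set δ : ℝ := 1 / (1 + (|ρ| + 1) ^ 2) with hδ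
    have hδ0 : 0 < δ := by positivity
    have hev : ∀ᶠ φ : characterSpace ℂ A in 𝓝 φ₀, (φ R).re < δ := by
      have hc : Continuous fun φ : characterSpace ℂ A => (φ R).re :=
        Complex.continuous_re.comp cR
      refine hc.continuousAt.eventually_lt_const ?_
      change (φ₀ R).re < δ
      rw [h0]
      exact hδ0
    filter_upwards [hev] with φ hφ
    by_cases h1 : φ R = 0
    · rw [if_pos h1, dist_self]
      exact hε
    · rw [if_neg h1, dist_zero_right]
      refine hρ' _ ?_
      have h2 := ratio hR hS φ h1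
      have h3 : 0 < (φ R).re :=
        lt_of_le_of_ne (re_nonneg hR hS φ) fun h => h1 ((zero_iff hR hS φ).2 h.symm)
      have h4 : (|ρ| + 1) ^ 2 < ‖φ S / φ R‖ ^ 2 := by
        rw [h2, lt_div_iff₀ h3]
        have h5 : (φ R).re * (1 + (|ρ| + 1) ^ 2) < 1 := by
          have := mul_lt_mul_of_pos_right hφ (show (0 : ℝ) < 1 + (|ρ| + 1) ^ 2 by positivity)
          rwa [hδ, one_div, inv_mul_cancel₀ (by positivity)] at this
        linarith
      have h6 : |ρ| + 1 < ‖φ S / φ R‖ := by
        refine lt_of_pow_lt_pow_left₀ 2 (norm_nonneg _) h4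
      linarith [le_abs_self ρ]
  · have hev : ∀ᶠ φ : characterSpace ℂ A in 𝓝 φ₀, φ R ≠ 0 :=
      cR.continuousAt.eventually_ne h0
    have h1 : ContinuousAt (fun φ : characterSpace ℂ A => f (φ S / φ R)) φ₀ :=
      f.continuous.continuousAt.comp (cS.continuousAt.div cR.continuousAt h0)
    refine h1.congr ?_
    filter_upwards [hev] with φ hφ
    rw [if_neg hφ]

end

open Classical in
/-- the calculus with values in `C(X)` -/
noncomputable def hatF {R S : A} (hR : star R = R) (hS : star S * S = R - R * R)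
    (f : C₀(ℂ, ℂ)) : C(characterSpace ℂ A, ℂ) :=
  ⟨fun φ => if φ R = 0 then (0 : ℂ) else f (φ S / φ R), cont hR hS f⟩

/-- the calculus -/
noncomputable def calc' {R S : A} (hR : star R = R) (hS : star S * S = R - R * R) :
    C₀(ℂ, ℂ) →⋆ₙₐ[ℂ] A where
  toFun f := (gelfandStarTransform A).symm (hatF hR hS f)
  map_smul' c f := by
    have h : hatF hR hS (c • f) = c • hatF hR hS f := by
      ext φ
      by_cases h0 : φ R = 0 <;> simp [hatF, h0]
    rw [h]
    exact map_smul (gelfandStarTransform A).symm c _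
  map_zero' := by
    have h : hatF hR hS 0 = 0 := by
      ext φ
      by_cases h0 : φ R = 0 <;> simp [hatF, h0]
    rw [h, map_zero]
  map_add' f g := by
    have h : hatF hR hS (f + g) = hatF hR hS f + hatF hR hS g := by
      ext φ
      by_cases h0 : φ R = 0 <;> simp [hatF, h0]
    rw [h, map_add]
  map_mul' f g := by
    have h : hatF hR hS (f * g) = hatF hR hS f * hatF hR hS g := by
      ext φ
      by_cases h0 : φ R = 0 <;> simp [hatF, h0]
    rw [h, map_mul]
  map_star' f := by
    have h : hatF hR hS (star f) = star (hatF hR hS f) := by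
      ext φ
      by_cases h0 : φ R = 0 <;> simp [hatF, h0]
    rw [h, map_star]

end SPGAux

open SPGAux in
theorem blk_SPG : Stmt_SPG.{v} := by
  intro A _ R S hR hS
  refine ⟨calc' hR hS, ?_, ?_⟩
  · intro f hf
    change (gelfandStarTransform A).symm (hatF hR hS f) = R
    have h : hatF hR hS f = gelfandStarTransform A R := by
      ext φ
      change (if φ R = 0 then (0 : ℂ) else f (φ S / φ R)) = φ R
      by_cases h0 : φ R = 0
      · rw [if_pos h0, h0]
      · rw [if_neg h0, hf, ratio hR hS φ h0]
        obtain ⟨h1, -⟩ := facts hR hS φ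
        have h3 : (φ R).re ≠ 0 := fun h => h0 ((zero_iff hR hS φ).2 h)
        have h4 : (1 + (1 - (φ R).re) / (φ R).re : ℝ) = 1 / (φ R).re := by
          field_simp
          ring
        rw [h4]
        conv_rhs => rw [h1]
        push_cast
        rw [one_div_one_div]
    rw [h, StarAlgEquiv.symm_apply_apply]
  · intro f hf
    change (gelfandStarTransform A).symm (hatF hR hS f) = S
    have h : hatF hR hS f = gelfandStarTransform A S := by
      ext φ
      change (if φ R = 0 then (0 : ℂ) else f (φ S / φ R)) = φ S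
      obtain ⟨h1, h2⟩ := facts hR hS φ
      by_cases h0 : φ R = 0
      · rw [if_pos h0]
        have h3 : (φ R).re = 0 := (zero_iff hR hS φ).1 h0
        rw [h3] at h2
        have h4 : ‖φ S‖ = 0 := by
          have : ‖φ S‖ ^ 2 = 0 := by rw [h2]; ring
          exact pow_eq_zero_iff (two_ne_zero) |>.1 this
        exact (norm_eq_zero.1 h4).symm
      · rw [if_neg h0, hf, ratio hR hS φ h0]
        have h3 : (φ R).re ≠ 0 := fun h => h0 ((zero_iff hR hS φ).2 h)
        have h4 : (1 + (1 - (φ R).re) / (φ R).re : ℝ) = 1 / (φ R).re := by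
          field_simp
          ring
        rw [h4]
        have h5 : ((1 / (φ R).re : ℝ) : ℂ) = 1 / φ R := by
          push_cast
          rw [← h1]
        rw [h5]
        field_simp
    rw [h, StarAlgEquiv.symm_apply_apply]

end Pool.Q2
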