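import Pool.Agent.Work.MP_8c7e5b_q2.Interface2

/-!
# Block SPM: the spectral measure of a vector
-/

open MeasureTheory Complex Filter Topology
open scoped ComplexOrder InnerProductSpace ComplexConjugate

set_option autoImplicit false
set_option linter.unusedSectionVars false

universe v

namespace Pool.Q2

open Pool.Bes

namespace SPMAux

/-- Riesz representation of a positive functional on a compact space -/
theorem riesz {K : Type} [TopologicalSpace K] [CompactSpace K] [T2Space K] [MeasurableSpace K]
    [BorelSpace K] (Λ : C(K, ℝ) →ₗ[ℝ] ℝ) (hpos : ∀ h : C(K, ℝ), (∀ x, 0 ≤ h x) → 0 ≤ Λ h) :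
    ∃ μ : Measure K, IsFiniteMeasure μ ∧ ∀ h : C(K, ℝ), ∫ x, h x ∂μ = Λ h := by
  let Λ' : CompactlySupportedContinuousMap K ℝ →ₚ[ℝ] ℝ :=
  { toFun g := Λ g.toContinuousMap
    map_add' g g' := by
      rw [← map_add]
      rfl
    map_smul' c g := by
      rw [RingHom.id_apply, ← map_smul]
      rfl
    monotone' g g' hgg' := by
      have h1 : 0 ≤ Λ (g'.toContinuousMap - g.toContinuousMap) :=
        hpos _ fun x => by
          have := hgg' x
          simpa using this
      rw [map_sub] at h1
      linarith }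
  refine ⟨RealRMK.rieszMeasure Λ', inferInstance, fun h => ?_⟩
  let h' : CompactlySupportedContinuousMap K ℝ :=
  { toFun := h
    hasCompactSupport' := HasCompactSupport.of_compactSpace _ }
  exact RealRMK.integral_rieszMeasure Λ' h'

end SPMAux

theorem blk_SPM (hF : Stmt_FEX.{v}) : Stmt_SPM.{v} := by
  intro H _ _ _ N e hN v
  obtain ⟨hadd, hsmul, -, -, -, -, hnorm, -, hin, hsq⟩ := hF H N e hN
  set R := ‖e‖ * ‖N‖ with hR
  have hR0 : 0 ≤ R := by positivity
  have hI : -R ≤ R := by linarith
  have hcongr : ∀ g k : ℝ → ℂ, Continuous g → Continuous k →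
      (∀ x ∈ Set.Icc (-R) R, g x = k x) → fe e g N = fe e k N := by
    intro g k hg hk h
    have h1 := (hadd (fun x => g x + (-1) * k x) k (by fun_prop) hk).1
    have h2 : (fun x => g x + (-1) * k x + k x) = g := by funext x; ring
    rw [h2] at h1
    have h3 : fe e (fun x => g x + (-1) * k x) N = 0 := by
      refine norm_le_zero_iff.1 (hnorm _ 0 (by fun_prop) le_rfl fun x hx => ?_)
      rw [h x hx]; simp
    rw [h1, h3, zero_add]
  let ext : C(Set.Icc (-R) R, ℝ) → ℝ → ℂ :=
    fun h x => ((h (Set.projIcc (-R) R hI x) : ℝ) : ℂ)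
  have hext : ∀ h, Continuous (ext h) := fun h =>
    Complex.continuous_ofReal.comp (h.continuous.comp continuous_projIcc)
  -- the inner product is real for real functions
  have hreal : ∀ h : C(Set.Icc (-R) R, ℝ),
      ⟪v, fe e (ext h) N v⟫_ℂ = (((⟪v, fe e (ext h) N v⟫_ℂ).re : ℝ) : ℂ) := by
    intro h
    have h1 := hin (ext h) v (hext h)
    have h2 : (fun x => conj (ext h x)) = ext h := by
      funext x
      exact Complex.conj_ofReal _
    rw [h2] at h1
    have h3 : conj (⟪v, fe e (ext h) N v⟫_ℂ) = ⟪v, fe e (ext h) N v⟫_ℂ := by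
      rw [inner_conj_symm, ← h1]
    exact (Complex.conj_eq_iff_re.1 h3).symm
  let Λ : C(Set.Icc (-R) R, ℝ) →ₗ[ℝ] ℝ :=
  { toFun h := (⟪v, fe e (ext h) N v⟫_ℂ).re
    map_add' h k := by
      have h1 : ext (h + k) = fun x => ext h x + ext k x := by
        funext x
        simp [ext]
      rw [h1, (hadd (ext h) (ext k) (hext h) (hext k)).1, _root_.add_apply, inner_add_right,
        Complex.add_re]
    map_smul' c h := by
      have h1 : ext (c • h) = fun x => (c : ℂ) * ext h x := by
        funext x
        simp [ext]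
      rw [h1, hsmul _ _ (hext h), _root_.smul_apply, inner_smul_right]
      simp }
  have hpos : ∀ h : C(Set.Icc (-R) R, ℝ), (∀ x, 0 ≤ h x) → 0 ≤ Λ h := by
    intro h hh
    let k : C(Set.Icc (-R) R, ℝ) := ⟨fun x => Real.sqrt (h x), by fun_prop⟩
    have h1 := hsq (ext k) v (hext k)
    have h2 : (fun x => ((‖ext k x‖ ^ 2 : ℝ) : ℂ)) = ext h := by
      funext x
      simp only [ext, k, ContinuousMap.coe_mk, Complex.norm_real, Real.norm_eq_abs, sq_abs]
      rw [Real.sq_sqrt (hh _)]
    rw [h2] at h1
    change 0 ≤ (⟪v, fe e (ext h) N v⟫_ℂ).re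
    rw [← h1, Complex.ofReal_re]
    positivity
  obtain ⟨μ', hμ', hμ⟩ := SPMAux.riesz Λ hpos
  refine ⟨μ'.map Subtype.val, inferInstance, ?_, ?_⟩
  · rw [Measure.map_apply measurable_subtype_coe measurableSet_Icc.compl]
    have : (Subtype.val : Set.Icc (-R) R → ℝ) ⁻¹' (Set.Icc (-R) R)ᶜ = ∅ := by
      ext x
      simp
    rw [this, measure_empty]
  · intro g hg
    rw [integral_map measurable_subtype_coe.aemeasurable hg.aestronglyMeasurable]
    let a : C(Set.Icc (-R) R, ℝ) := ⟨fun x => (g x).re, by fun_prop⟩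
    let b : C(Set.Icc (-R) R, ℝ) := ⟨fun x => (g x).im, by fun_prop⟩
    have h1 : fe e g N = fe e (ext a) N + Complex.I • fe e (ext b) N := by
      have h0 := (hadd (ext a) (fun x => Complex.I * ext b x) (hext a)
        (continuous_const.mul (hext b))).1
      rw [← hsmul _ _ (hext b), ← h0]
      refine hcongr _ _ hg ((hext a).add (continuous_const.mul (hext b))) fun x hx => ?_
      simp only [ext, a, b, ContinuousMap.coe_mk, Set.projIcc_of_mem hI hx]
      rw [mul_comm, Complex.re_add_im]
    have h2 : ∀ h : C(Set.Icc (-R) R, ℝ), ⟪v, fe e (ext h) N v⟫_ℂ = ((∫ x, h x ∂μ' : ℝ) : ℂ) := by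
      intro h
      rw [hreal h, hμ h]
      rfl
    have hint : ∀ h : C(Set.Icc (-R) R, ℝ), Integrable (fun x => h x) μ' := fun h =>
      h.continuous.integrable_of_hasCompactSupport (HasCompactSupport.of_compactSpace _)
    rw [h1, _root_.add_apply, _root_.smul_apply, inner_add_right, inner_smul_right, h2 a, h2 b,
      ← integral_complex_ofReal, ← integral_complex_ofReal, ← integral_const_mul,
      ← integral_add (hint a).ofReal ((hint b).ofReal.const_mul _)]
    refine integral_congr_ae (Filter.Eventually.of_forall fun x => ?_)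
    simp only [a, b, ContinuousMap.coe_mk]
    rw [mul_comm]
    exact Complex.re_add_im _

end Pool.Q2
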