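import Pool.Agent.Work.MP_8c7e5b_q2.Interface3

/-!
# MP_8c7e5b_an, Q2: block U8 (local densities for unbounded normal operators)
-/

open MeasureTheory Complex Filter Topology
open scoped ComplexOrder InnerProductSpace ComplexConjugate BoundedContinuousFunction ZeroAtInfty

set_option autoImplicit false
set_option linter.unusedSectionVars false

universe v

namespace Pool.Q2

open Pool.Bes

namespace U8Aux

theorem abs_arctan_le (x : ℝ) : |Real.arctan x| ≤ 2 := by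
  have h1 := Real.neg_pi_div_two_lt_arctan x
  have h2 := Real.arctan_lt_pi_div_two x
  have h3 := Real.pi_lt_four
  rw [abs_le]
  constructor <;> linarith

theorem continuous_ip (e : ℂ) : Continuous (ip e) := by
  unfold ip
  fun_prop

/-- `arctan (e · z)` as a bounded continuous function -/
noncomputable def at' (e : ℂ) : ℂ →ᵇ ℂ :=
  BoundedContinuousFunction.ofNormedAddCommGroup (fun z : ℂ => ((Real.arctan (ip e z) : ℝ) : ℂ))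
    (Complex.continuous_ofReal.comp (Real.continuous_arctan.comp (continuous_ip e))) 2
    (fun z => by
      rw [Complex.norm_real, Real.norm_eq_abs]
      exact abs_arctan_le _)

theorem at'_apply (e z : ℂ) : at' e z = ((Real.arctan (ip e z) : ℝ) : ℂ) := rfl

theorem ip_one (z : ℂ) : ip 1 z = z.re := by
  unfold ip
  simp

theorem ip_I (z : ℂ) : ip Complex.I z = z.im := by
  unfold ip
  simp

theorem S_apply (z : ℂ) : (at' 1 + Complex.I • at' Complex.I) z = Sq z := by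
  rw [BoundedContinuousFunction.add_apply, BoundedContinuousFunction.smul_apply, at'_apply,
    at'_apply, ip_one, ip_I, Sq, smul_eq_mul, mul_comm Complex.I]

theorem exists_C0 (f : ℂ → ℂ) (hf : Tst f) : ∃ F : C₀(ℂ, ℂ), ∀ z, F z = f z :=
  ⟨⟨⟨f, hf.1.continuous⟩, hf.2.is_zero_at_infty⟩, fun _ => rfl⟩

theorem exists_bcf (f : C₀(ℂ, ℂ)) : ∃ F : ℂ →ᵇ ℂ, ∀ z, F z = f z :=
  ⟨f.toBCF, fun _ => rfl⟩

theorem Tp_eq {H : Type v} [NormedAddCommGroup H] [InnerProductSpace ℂ H] [CompleteSpace H]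
    (π₁ π₂ : C₀(ℂ, ℂ) →⋆ₙₐ[ℂ] (H →L[ℂ] H)) (f : ℂ → ℂ) (F : C₀(ℂ, ℂ)) (hF : ∀ z, F z = f z) :
    Tp π₁ π₂ f = trO (π₂ F - π₁ F) := by
  have h : ∃ F : C₀(ℂ, ℂ), ∀ z, F z = f z := ⟨F, hF⟩
  unfold Tp
  rw [dif_pos h]
  have h1 : h.choose = F := by
    ext z
    rw [h.choose_spec z, hF z]
  rw [h1]

end U8Aux

open U8Aux

theorem blk_U8 (hU1 : Stmt_U1.{v}) (hU3 : Stmt_U3.{v}) (hU4 : Stmt_U4.{v}) (hU5 : Stmt_U5)
    (hU6 : Stmt_U6) (_hUTR : Stmt_UTR.{v}) (hBND : Stmt_BND.{v}) (hTFN : Stmt_TFN.{v})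
    (_hCMM : Stmt_CMM.{v}) : Stmt_U8.{v} := by
  intro hLB H _ _ _ _ N₁ N₂ π₁ π₂ D hc₁ hc₂ hD hdiff
  obtain ⟨Φ₁, hΦ₁⟩ := hU1 H π₁ hc₁.1
  obtain ⟨Φ₂, hΦ₂⟩ := hU1 H π₂ hc₂.1
  set S : ℂ →ᵇ ℂ := at' 1 + Complex.I • at' Complex.I with hS
  have hS1 : ∀ z, S z = Sq z := S_apply
  obtain ⟨hn₁, hM₁⟩ := hU4 H Φ₁ S hΦ₁.norm hS1
  obtain ⟨hn₂, hM₂⟩ := hU4 H Φ₂ S hΦ₂.norm hS1
  have hT : IsT (Φ₂ S - Φ₁ S) := by
    have h1 := hU3 H N₁ N₂ π₁ π₂ Φ₁ Φ₂ D hc₁ hc₂ hΦ₁ hΦ₂ hdiff hD 1 (at' 1) (fun z => rfl)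
    have h2 := hU3 H N₁ N₂ π₁ π₂ Φ₁ Φ₂ D hc₁ hc₂ hΦ₁ hΦ₂ hdiff hD Complex.I (at' Complex.I)
      (fun z => rfl)
    have h3 : Φ₂ S - Φ₁ S = (Φ₂ (at' 1) - Φ₁ (at' 1)) +
        Complex.I • (Φ₂ (at' Complex.I) - Φ₁ (at' Complex.I)) := by
      rw [hS, map_add, map_add, map_smul, map_smul, smul_sub]
      abel
    rw [h3]
    exact h1.add (h2.smul _)
  obtain ⟨g₁, g₂, hg₁, hg₂, hg⟩ := hBND hLB H (Φ₁ S) (Φ₂ S) hn₁ hn₂ hT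
  obtain ⟨k₁, k₂, hk₁, hk₂, hk⟩ := hU6 g₁ g₂ hg₁ hg₂
  have key : ∀ (f : C₀(ℂ, ℂ)) (F : ℂ → ℂ), Tst F → (∀ z, F (Sq z) = f z) →
      π₁ f = cfc F (Φ₁ S) ∧ π₂ f = cfc F (Φ₂ S) := by
    intro f F hF hFf
    obtain ⟨G, hG⟩ := exists_bcf f
    have hG' : ∀ z, G z = F (Sq z) := fun z => by rw [hG z, hFf z]
    rw [hM₁ F G hF.1.continuous hG', hM₂ F G hF.1.continuous hG']
    exact ⟨(hΦ₁.ext f G hG).symm, (hΦ₂.ext f G hG).symm⟩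
  refine ⟨?_, k₁, k₂, hk₁, hk₂, ?_⟩
  · intro f hf
    obtain ⟨F, hF, hFf, -⟩ := hU5 f hf
    obtain ⟨h1, h2⟩ := key f F hF hFf
    refine ⟨?_, Tp_eq π₁ π₂ f f fun _ => rfl⟩
    rw [h1, h2]
    exact (hTFN.1 H (Φ₁ S) (Φ₂ S) hn₁ hn₂ hT).1 F hF
  · intro f hf
    obtain ⟨F, hF, hFf, hx, hy, ho⟩ := hU5 f hf
    obtain ⟨f₀, hf₀⟩ := exists_C0 f hf
    obtain ⟨h1, h2⟩ := key f₀ F hF (fun z => by rw [hFf z, hf₀ z])
    rw [Tp_eq π₁ π₂ f f₀ hf₀, h1, h2, ← hk f F hf hF hx hy ho, ← hg F hF]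
    rfl

end Pool.Q2
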