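import Pool.Agent.Work.MP_8c7e5b_q2.Interface5
import Pool.Agent.Work.MP_8c7e5b_q2.U8

/-!
# MP_8c7e5b_an, Q2, block SPU: uniqueness of the calculus on test functions
-/

open MeasureTheory Complex Filter Topology
open scoped ComplexOrder InnerProductSpace ComplexConjugate BoundedContinuousFunction ZeroAtInfty

set_option autoImplicit false
set_option linter.unusedSectionVars false

universe v

namespace Pool.Q2

open Pool.Bes U8Aux

theorem blk_SPU (hU1 : Stmt_U1.{v}) (hU3n : Stmt_U3n.{v}) (hU4 : Stmt_U4.{v}) (hU5 : Stmt_U5) :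
    Stmt_SPU.{v} := by
  intro H _ _ _ N π π' hc hc' f hf
  obtain ⟨Φ, hΦ⟩ := hU1 H π hc.1
  obtain ⟨Φ', hΦ'⟩ := hU1 H π' hc'.1
  have hdiff : Diff N N (0 : H →L[ℂ] H) := by
    intro x y
    rw [_root_.zero_apply, add_zero]
  have key : ∀ (e : ℂ) (h : ℂ →ᵇ ℂ), (∀ z : ℂ, h z = (Real.arctan (ip e z) : ℝ)) →
      Φ' h = Φ h := by
    intro e h hh
    obtain ⟨h1, h2⟩ := hU3n H N N π π' Φ Φ' 0 hc hc' hΦ hΦ' hdiff isT_zero e h hh
    have h3 : dt e (0 : H →L[ℂ] H) = 0 := by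
      rw [dt, star_zero, smul_zero, smul_zero, add_zero, smul_zero]
    rw [h3, n1_zero] at h2
    exact sub_eq_zero.1 (n1_eq_zero h1 (le_antisymm h2 (n1_nonneg _)))
  set S : ℂ →ᵇ ℂ := at' 1 + Complex.I • at' Complex.I with hS
  have hS1 : ∀ z, S z = Sq z := S_apply
  have hSS : Φ' S = Φ S := by
    rw [hS, map_add, map_add, map_smul, map_smul, key 1 (at' 1) (fun z => rfl),
      key Complex.I (at' Complex.I) (fun z => rfl)]
  obtain ⟨-, hM⟩ := hU4 H Φ S hΦ.norm hS1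
  obtain ⟨-, hM'⟩ := hU4 H Φ' S hΦ'.norm hS1
  obtain ⟨F, hF, hFf, -⟩ := hU5 f hf
  obtain ⟨G, hG⟩ := exists_bcf f
  have hG' : ∀ z, G z = F (Sq z) := fun z => by rw [hG z, hFf z]
  have e1 : π f = cfc F (Φ S) := by
    rw [hM F G hF.1.continuous hG']
    exact (hΦ.ext f G hG).symm
  have e2 : π' f = cfc F (Φ' S) := by
    rw [hM' F G hF.1.continuous hG']
    exact (hΦ'.ext f G hG).symm
  rw [e1, e2, hSS]

end Pool.Q2
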