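import Pool.Agent.Work.MP_8c7e5b_q2.Interface5

/-!
# MP_8c7e5b_an, Q2: the final statement for classical normal operators
-/

open MeasureTheory Complex Filter Topology
open scoped ComplexOrder InnerProductSpace ComplexConjugate BoundedContinuousFunction ZeroAtInfty

set_option autoImplicit false
set_option linter.unusedSectionVars false

universe v

namespace Pool.Q2

open Pool.Bes

/-- The strong form for classical normal operators, with existence of the functional calculi. -/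
def Q1acN (C : ℝ) : Prop := ∀ (H : Type v) [NormedAddCommGroup H] [InnerProductSpace ℂ H]
  [CompleteSpace H] [TopologicalSpace.SeparableSpace H] (N₁ N₂ : H →ₗ.[ℂ] H), IsNor N₁ → IsNor N₂ →
  ∀ (D : H →L[ℂ] H) (M : ℝ), TraceNormLE D M → Diff N₁ N₂ D →
  ∃ g₁ g₂ : ℂ → ℂ, Integrable g₁ ∧ Integrable g₂ ∧ (∫ z, ‖g₁ z‖) + (∫ z, ‖g₂ z‖) ≤ C * M ∧
    (∃ π₁ : C₀(ℂ, ℂ) →⋆ₙₐ[ℂ] (H →L[ℂ] H), IsCalc N₁ π₁) ∧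
    (∃ π₂ : C₀(ℂ, ℂ) →⋆ₙₐ[ℂ] (H →L[ℂ] H), IsCalc N₂ π₂) ∧
    ∀ π₁ π₂ : C₀(ℂ, ℂ) →⋆ₙₐ[ℂ] (H →L[ℂ] H), IsCalc N₁ π₁ → IsCalc N₂ π₂ →
      Formula π₁ π₂ volume g₁ g₂

theorem blk_SPX (hCALC : Stmt_CALC.{v}) (hSPU : Stmt_SPU.{v}) (C : ℝ) (h : Q1acC.{v} C) :
    Q1acN.{v} C := by
  intro H _ _ _ _ N₁ N₂ hN₁ hN₂ D M hD hd
  obtain ⟨π₁, h1⟩ := hCALC H N₁ hN₁
  obtain ⟨π₂, h2⟩ := hCALC H N₂ hN₂
  obtain ⟨g₁, g₂, hg₁, hg₂, hb, hf⟩ := h H N₁ N₂ π₁ π₂ h1 h2 D M hD hd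
  refine ⟨g₁, g₂, hg₁, hg₂, hb, ⟨π₁, h1⟩, ⟨π₂, h2⟩, fun π₁' π₂' h1' h2' f hf1 hf2 => ?_⟩
  rw [hSPU H N₁ π₁ π₁' h1 h1' f ⟨hf1, hf2⟩, hSPU H N₂ π₂ π₂' h2 h2' f ⟨hf1, hf2⟩]
  exact hf f hf1 hf2

end Pool.Q2
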