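import Pool.Agent.Work.MP_8c7e5b_q2.Interface

/-!
# MP_8c7e5b_an, Q2: block STB (step B)
-/

open MeasureTheory Complex Filter Topology
open scoped ComplexOrder InnerProductSpace ComplexConjugate BoundedContinuousFunction

set_option autoImplicit false
set_option linter.unusedSectionVars false

universe v

namespace Pool.Q2
namespace STBAux

open Pool.Bes

variable {H : Type v} [NormedAddCommGroup H] [InnerProductSpace ℂ H] [CompleteSpace H]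

theorem norm_uni_le {Ω : H →L[ℂ] H} (h : Uni Ω) : ‖Ω‖ ≤ 1 := by
  have h1 : ‖Ω‖ * ‖Ω‖ = ‖(1 : H →L[ℂ] H)‖ := by rw [← CStarRing.norm_star_mul_self, h.1]
  have h2 : ‖(1 : H →L[ℂ] H)‖ ≤ 1 := ContinuousLinearMap.norm_id_le
  nlinarith [norm_nonneg Ω]

/-- Leibniz -/
theorem leib (Z V : H →L[ℂ] H) (hZ : IsSelfAdjoint Z) (h : ℝ) (hV : ‖V‖ ≤ 1)
    (h1 : ‖br Z V‖ ≤ h) (h2 : ‖br Z (br Z V)‖ ≤ h ^ 2) (h3 : ‖br Z (br Z (br Z V))‖ ≤ h ^ 3) :
    ‖br Z (br Z (br Z (1 - star V * V)))‖ ≤ (2 * h) ^ 3 := by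
  have hh : 0 ≤ h := (norm_nonneg _).trans h1
  set D := br Z V with hD
  set D2 := br Z D with hD2
  set D3 := br Z D2 with hD3
  have s0 : br Z (star V) = -star D := by
    rw [hD, br, br, star_sub, star_mul, star_mul, hZ.star_eq]; noncomm_ring
  have s1 : br Z (star D) = -star D2 := by
    rw [hD2, br, br, star_sub, star_mul, star_mul, hZ.star_eq]; noncomm_ring
  have s2 : br Z (star D2) = -star D3 := by
    rw [hD3, br, br, star_sub, star_mul, star_mul, hZ.star_eq]; noncomm_ring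
  have lb : ∀ A B : H →L[ℂ] H, br Z (A * B) = br Z A * B + A * br Z B := by
    intro A B; unfold br; noncomm_ring
  have la : ∀ A B : H →L[ℂ] H, br Z (A + B) = br Z A + br Z B := by
    intro A B; unfold br; noncomm_ring
  have ls : ∀ A B : H →L[ℂ] H, br Z (A - B) = br Z A - br Z B := by
    intro A B; unfold br; noncomm_ring
  have ln : ∀ A : H →L[ℂ] H, br Z (-A) = -br Z A := by
    intro A; unfold br; noncomm_ring
  have l1 : br Z (1 : H →L[ℂ] H) = 0 := by unfold br; noncomm_ring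
  have e1 : br Z (1 - star V * V) = star D * V - star V * D := by
    rw [ls, l1, lb, s0, ← hD]; noncomm_ring
  have e2 : br Z (br Z (1 - star V * V)) =
      -(star D2 * V) + (star D * D + star D * D) - star V * D2 := by
    rw [e1, ls, lb, lb, s1, s0, ← hD2, ← hD]; noncomm_ring
  have e3 : br Z (br Z (br Z (1 - star V * V))) =
      star D3 * V - (3 : ℂ) • (star D2 * D) + (3 : ℂ) • (star D * D2) - star V * D3 := by
    have t3 : ∀ A : H →L[ℂ] H, (3 : ℂ) • A = A + A + A := by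
      intro A
      have : (3 : ℂ) = 1 + 1 + 1 := by norm_num
      rw [this, add_smul, add_smul, one_smul]
    rw [e2, ls, la, la, ln, lb, lb, lb, s2, s1, s0, ← hD3, ← hD, ← hD2, t3, t3]; noncomm_ring
  rw [e3]
  have n3 : ‖(3 : ℂ)‖ = 3 := by norm_num
  have b1 : ‖star D3 * V‖ ≤ h ^ 3 := by
    calc ‖star D3 * V‖ ≤ ‖star D3‖ * ‖V‖ := norm_mul_le _ _
      _ ≤ h ^ 3 * 1 := by rw [norm_star]; gcongr
      _ = h ^ 3 := mul_one _
  have b2 : ‖(3 : ℂ) • (star D2 * D)‖ ≤ 3 * h ^ 3 := by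
    rw [norm_smul, n3]
    have : ‖star D2 * D‖ ≤ h ^ 3 := by
      calc ‖star D2 * D‖ ≤ ‖star D2‖ * ‖D‖ := norm_mul_le _ _
        _ ≤ h ^ 2 * h := by rw [norm_star]; gcongr
        _ = h ^ 3 := by ring
    linarith
  have b3 : ‖(3 : ℂ) • (star D * D2)‖ ≤ 3 * h ^ 3 := by
    rw [norm_smul, n3]
    have : ‖star D * D2‖ ≤ h ^ 3 := by
      calc ‖star D * D2‖ ≤ ‖star D‖ * ‖D2‖ := norm_mul_le _ _
        _ ≤ h * h ^ 2 := by rw [norm_star]; gcongr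
        _ = h ^ 3 := by ring
    linarith
  have b4 : ‖star V * D3‖ ≤ h ^ 3 := by
    calc ‖star V * D3‖ ≤ ‖star V‖ * ‖D3‖ := norm_mul_le _ _
      _ ≤ 1 * h ^ 3 := by rw [norm_star]; gcongr
      _ = h ^ 3 := one_mul _
  calc ‖star D3 * V - (3 : ℂ) • (star D2 * D) + (3 : ℂ) • (star D * D2) - star V * D3‖
      ≤ ‖star D3 * V - (3 : ℂ) • (star D2 * D) + (3 : ℂ) • (star D * D2)‖ + ‖star V * D3‖ :=
        norm_sub_le _ _
    _ ≤ ‖star D3 * V - (3 : ℂ) • (star D2 * D)‖ + ‖(3 : ℂ) • (star D * D2)‖ +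
        ‖star V * D3‖ := by gcongr; exact norm_add_le _ _
    _ ≤ ‖star D3 * V‖ + ‖(3 : ℂ) • (star D2 * D)‖ + ‖(3 : ℂ) • (star D * D2)‖ +
        ‖star V * D3‖ := by gcongr; exact norm_sub_le _ _
    _ ≤ h ^ 3 + 3 * h ^ 3 + 3 * h ^ 3 + h ^ 3 := by gcongr
    _ = (2 * h) ^ 3 := by ring

theorem inner_q (V : H →L[ℂ] H) (x : H) :
    (⟪x, (1 - star V * V) x⟫_ℂ).re = ‖x‖ ^ 2 - ‖V x‖ ^ 2 := by
  have h1 : (1 - star V * V) x = x - star V (V x) := rfl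
  have h2 : ⟪x, star V (V x)⟫_ℂ = ⟪V x, V x⟫_ℂ := by
    rw [ContinuousLinearMap.star_eq_adjoint, ContinuousLinearMap.adjoint_inner_right]
  rw [h1, inner_sub_right, h2, inner_self_eq_norm_sq_to_K, inner_self_eq_norm_sq_to_K]
  simp only [Complex.sub_re]
  norm_cast

theorem q_pos (V : H →L[ℂ] H) (hV : ‖V‖ ≤ 1) :
    0 ≤ 1 - star V * V ∧ ‖1 - star V * V‖ ≤ 1 := by
  have h1 : star V * V ≤ 1 := by
    have := (CStarAlgebra.norm_le_one_iff_of_nonneg (star V * V) (star_mul_self_nonneg V)).1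
      (by rw [CStarRing.norm_star_mul_self]; nlinarith [norm_nonneg V])
    exact this
  have h2 : 0 ≤ 1 - star V * V := sub_nonneg.2 h1
  refine ⟨h2, ?_⟩
  refine (CStarAlgebra.norm_le_one_iff_of_nonneg _ h2).2 ?_
  rw [sub_le_self_iff]
  exact star_mul_self_nonneg V

theorem q_tr (V Ω : H →L[ℂ] H) (hV : ‖V‖ ≤ 1) (hΩ : Uni Ω) (hT : IsT (Ω - V)) :
    IsT (1 - star V * V) ∧ n1 (1 - star V * V) ≤ 2 * n1 (Ω - V) := by
  have e : 1 - star V * V = star Ω * (Ω - V) + star (Ω - V) * V := by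
    rw [star_sub, mul_sub, sub_mul, hΩ.1]; abel
  have hs : IsT (star (Ω - V)) := hT.star
  have h0 := norm_uni_le hΩ
  rw [e]
  refine ⟨(hT.mul_left _).add (hs.mul_right _), ?_⟩
  refine (n1_add_le (hT.mul_left _) (hs.mul_right _)).trans ?_
  have h1 : n1 (star Ω * (Ω - V)) ≤ n1 (Ω - V) := by
    refine (n1_mul_left_le _ hT).trans ?_
    rw [norm_star]
    nlinarith [n1_nonneg (Ω - V)]
  have h2 : n1 (star (Ω - V) * V) ≤ n1 (Ω - V) := by
    refine (n1_mul_right_le _ hs).trans ?_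
    rw [n1_star hT]
    nlinarith [n1_nonneg (Ω - V)]
  linarith

theorem BdL.mono {T : (ℂ → ℂ) → ℂ} {K K' : ℝ} (h : BdL T K) (hK : K ≤ K') : BdL T K' := by
  intro f hf L hL
  have hL0 : 0 ≤ L := (norm_nonneg _).trans (hL 0)
  exact (h f hf L hL).trans (mul_le_mul_of_nonneg_right hK hL0)

/-- the diagonal operator -/
theorem exists_diag (r : ℕ) (c : Fin r → ℂ) : ∃ B : Ef r →L[ℂ] Ef r, IsStarNormal B ∧
    ∀ (x : Ef r) (k : Fin r), B x k = c k * x k := by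
  classical
  refine ⟨Matrix.toEuclideanCLM (𝕜 := ℂ) (Matrix.diagonal c), ?_, ?_⟩
  · refine ⟨?_⟩
    change star (Matrix.toEuclideanCLM (𝕜 := ℂ) (Matrix.diagonal c)) *
      Matrix.toEuclideanCLM (𝕜 := ℂ) (Matrix.diagonal c) =
      Matrix.toEuclideanCLM (𝕜 := ℂ) (Matrix.diagonal c) *
      star (Matrix.toEuclideanCLM (𝕜 := ℂ) (Matrix.diagonal c))
    rw [← map_star, ← map_mul, ← map_mul]
    congr 1
    rw [Matrix.star_eq_conjTranspose, Matrix.diagonal_conjTranspose, Matrix.diagonal_mul_diagonal,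
      Matrix.diagonal_mul_diagonal]
    congr 1
    funext i
    exact mul_comm _ _
  · intro x k
    have h := congrFun (Matrix.ofLp_toEuclideanCLM (𝕜 := ℂ) (Matrix.diagonal c) x) k
    rw [Matrix.mulVec_diagonal] at h
    exact h

end STBAux

open STBAux Pool.Bes

theorem blk_STB (hPHA : Stmt_PHA.{v}) (hPHB : Stmt_PHB.{v}) (hCMM : Stmt_CMM.{v})
    (_hKMA : Stmt_KMA.{v}) (hKMB : Stmt_KMB.{v}) (hCELL : Stmt_CELL.{v}) (hDSX : Stmt_DSX.{v})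
    (hISO : Stmt_ISO.{v}) (hDIM : Stmt_DIM.{v}) (hW1 : Stmt_W1.{v}) (hASM : Stmt_ASM.{v}) :
    Stmt_STB.{v} := by
  intro C₀ hC₀ hUB
  obtain ⟨Cc, hCc, hCELL⟩ := hCELL
  obtain ⟨Ci, hCi, hISO⟩ := hISO Cc hCc
  obtain ⟨Ca, hCa, hASM⟩ := hASM
  set C : ℝ := 1 + C₀ * (2 * (Ci * (1 + 8 * Cc)) + Ca * (4 * (Ci * Cc))) with hC
  have hCi0 : 0 ≤ Ci := by linarith
  have hCc0 : 0 ≤ Cc := by linarith
  have hCa0 : 0 ≤ Ca := by linarith
  have hCpos : 0 ≤ C₀ * (2 * (Ci * (1 + 8 * Cc)) + Ca * (4 * (Ci * Cc))) := by positivity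
  refine ⟨C, by rw [hC]; linarith, ?_⟩
  intro H _ _ _ _ N Ω hN hΩ hA ε hε
  obtain ⟨pN, pAdd, pSm, pBr, pBrN, pT, pG, pC, pS, pO⟩ := hPHA H N hN
  obtain ⟨-, kLim, -, -, kPos, -⟩ := hKMB H N hN
  have hΩ1 := norm_uni_le hΩ
  have hk1 : 0 ≤ kp N 1 Ω := (kPos 1 Ω hA.1).1
  have hkI : 0 ≤ kp N Complex.I Ω := (kPos Complex.I Ω hA.2).1
  -- large times
  have ev1 : ∀ᶠ t : ℝ in atTop, n1 (br (dt 1 N) (Ph N t Ω)) < kp N 1 Ω + ε / 3 :=
    (kLim 1 Ω hA).eventually_lt_const (by linarith)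
  have ev2 : ∀ᶠ t : ℝ in atTop, n1 (br (dt Complex.I N) (Ph N t Ω)) < kp N Complex.I Ω + ε / 3 :=
    (kLim Complex.I Ω hA).eventually_lt_const (by linarith)
  obtain ⟨T₀, hT₀⟩ := eventually_atTop.1 ((ev1.and ev2).and (eventually_gt_atTop (0 : ℝ)))
  have hT₀pos : 0 < T₀ := (hT₀ T₀ le_rfl).2
  -- the fixed approximation
  obtain ⟨hV0T, -⟩ := hPHB H N Ω hN hA T₀ hT₀pos
  set V₀ := Ph N T₀ Ω with hV₀
  set m₀ := n1 (Ω - V₀) with hm₀
  have hm₀0 : 0 ≤ m₀ := n1_nonneg _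
  -- the scale
  set s : ℝ := max T₀ (6 * m₀ / ε) with hs
  have hsT : T₀ ≤ s := le_max_left _ _
  have hs0 : 0 < s := hT₀pos.trans_le hsT
  have hsm : 6 * m₀ / ε ≤ s := le_max_right _ _
  have hsm' : 6 * m₀ ≤ ε * s := by
    rw [div_le_iff₀ hε] at hsm; linarith
  set t : ℝ := Real.sqrt (s ^ 2 + (Real.sqrt (s ^ 2 + s ^ 2)) ^ 2) with ht
  have ht2 : t ^ 2 = 3 * s ^ 2 := by
    rw [ht, Real.sq_sqrt (by positivity), Real.sq_sqrt (by positivity)]; ring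
  have ht0 : 0 ≤ t := Real.sqrt_nonneg _
  have hst : s ≤ t := by nlinarith
  have ht2s : t ≤ 2 * s := by nlinarith
  have htpos : 0 < t := hs0.trans_le hst
  have hTt : T₀ ≤ t := hsT.trans hst
  set V := Ph N t Ω with hV
  have hVeq : V = Ph N s (Ph N s (Ph N s Ω)) := by
    rw [pG s s Ω hs0 hs0, pG s _ Ω hs0 (by positivity)]
  have hV1 : ‖V‖ ≤ 1 := (pN t htpos Ω).trans hΩ1
  set h : ℝ := 1 / s with hh
  have hh0 : 0 < h := by positivity
  have hb1 : ‖Ph N s Ω‖ ≤ 1 := (pN s hs0 Ω).trans hΩ1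
  have hb2 : ‖Ph N s (Ph N s Ω)‖ ≤ 1 := (pN s hs0 _).trans hb1
  have hads : ∀ e : ℂ, ‖e‖ = 1 → ‖br (dt e N) V‖ ≤ h ∧
      ‖br (dt e N) (br (dt e N) V)‖ ≤ h ^ 2 ∧
      ‖br (dt e N) (br (dt e N) (br (dt e N) V))‖ ≤ h ^ 3 := by
    intro e he
    have g1 : ∀ b, ‖br (dt e N) (Ph N s b)‖ ≤ ‖b‖ * h := by
      intro b
      have := pBrN s e b hs0
      rw [he, one_mul] at this
      rw [hh, mul_one_div]
      exact this
    have c1 : ‖br (dt e N) (Ph N s Ω)‖ ≤ h := (g1 _).trans (by nlinarith)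
    have c2 : ‖br (dt e N) (Ph N s (Ph N s Ω))‖ ≤ h := (g1 _).trans (by nlinarith)
    have c3 : ‖br (dt e N) (br (dt e N) (Ph N s (Ph N s Ω)))‖ ≤ h ^ 2 := by
      rw [pBr s e _ hs0]
      refine (g1 _).trans ?_
      nlinarith
    refine ⟨?_, ?_, ?_⟩
    · rw [hVeq]; exact (g1 _).trans (by nlinarith)
    · rw [hVeq, pBr s e _ hs0]
      refine (g1 _).trans ?_
      nlinarith
    · rw [hVeq, pBr s e _ hs0, pBr s e _ hs0]
      refine (g1 _).trans ?_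
      nlinarith
  have ne : ∀ e : ℂ, e = 1 ∨ e = Complex.I → ‖e‖ = 1 := by
    rintro e (rfl | rfl)
    · exact norm_one
    · exact Complex.norm_I
  -- trace class
  obtain ⟨hVT, hVb⟩ := hPHB H N Ω hN hA t htpos
  have hV0n := (hT₀ T₀ le_rfl).1
  have t0b := hPHA H N hN
  have hbrT : ∀ (τ : ℝ), 0 < τ → ∀ e : ℂ, IsT (br (dt e N) Ω) → IsT (br (dt e N) (Ph N τ Ω)) := by
    intro τ hτ e he
    rw [pBr τ e Ω hτ]
    exact (pT τ _ hτ he).1
  set S : ℝ := kp N 1 Ω + kp N Complex.I Ω + ε with hS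
  have hS0 : 0 ≤ S := by positivity
  have hn1 : n1 (Ω - V) ≤ t * (S - ε / 3) + 4 * m₀ := by
    have h1 := hVb V₀ V₀ hV0T hV0T (hbrT T₀ hT₀pos 1 hA.1) (hbrT T₀ hT₀pos Complex.I hA.2)
    refine h1.trans ?_
    have h2 : n1 (br (dt 1 N) V₀) + n1 (br (dt Complex.I N) V₀) ≤ S - ε / 3 := by
      have := hV0n.1
      have := hV0n.2
      rw [hS]; linarith
    have h3 := mul_le_mul_of_nonneg_left h2 ht0
    linarith
  obtain ⟨hqT, hqn⟩ := q_tr V Ω hV1 hΩ hVT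
  obtain ⟨hq0, hq1⟩ := q_pos V hV1
  obtain ⟨r, w, c, hr, hw1, hw2, hw3⟩ := hCELL H N (1 - star V * V) h hN hq0 hq1 hqT hh0 (by
    intro e he
    obtain ⟨a1, a2, a3⟩ := hads e (ne e he)
    exact leib _ V ((hCMM H N hN).2.2.2.2.2.2.1 e) h hV1 a1 a2 a3)
  have hr0 : (0 : ℝ) ≤ r := Nat.cast_nonneg r
  have hhr : h * r ≤ 4 * Cc * S := by
    have h1 : (r : ℝ) ≤ Cc * (2 * (t * (S - ε / 3) + 4 * m₀)) :=
      hr.trans (mul_le_mul_of_nonneg_left (hqn.trans (by linarith)) hCc0)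
    have hSe : 0 ≤ S - ε / 3 := by rw [hS]; linarith
    have h2 : t * (S - ε / 3) + 4 * m₀ ≤ s * (2 * S) := by
      have h3 : t * (S - ε / 3) ≤ 2 * s * (S - ε / 3) := mul_le_mul_of_nonneg_right ht2s hSe
      have h4 : 4 * m₀ ≤ 2 * s * (ε / 3) := by nlinarith
      nlinarith
    have h5 : (r : ℝ) ≤ Cc * (2 * (s * (2 * S))) := h1.trans (by gcongr)
    calc h * r ≤ h * (Cc * (2 * (s * (2 * S)))) := mul_le_mul_of_nonneg_left h5 hh0.le
      _ = 4 * Cc * S := by rw [hh]; field_simp; ring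
  obtain ⟨K, _, _, _, _, i, j, hDS⟩ := hDSX H r
  obtain ⟨B, hBn, hBd⟩ := exists_diag r c
  have hVV : ∀ e : ℂ, e = 1 ∨ e = Complex.I → IsT (br (dt e N) V) ∧ ‖br (dt e N) V‖ ≤ h := by
    intro e he
    refine ⟨hbrT t htpos e ?_, (hads e (ne e he)).1⟩
    rcases he with rfl | rfl
    · exact hA.1
    · exact hA.2
  have hVM : ∀ e : ℂ, e = 1 ∨ e = Complex.I → n1 (br (dt e N) V) ≤ S := by
    intro e he
    have := (hT₀ t hTt).1
    rcases he with rfl | rfl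
    · have := this.1; rw [hS]; linarith
    · have := this.2; rw [hS]; linarith
  obtain ⟨a, ha1, ha2, ha3⟩ := hISO H K N Ω V r i j w c B h hN hΩ hDS hV1
    (by have := hVT.neg; rwa [neg_sub] at this) hh0 hBd hVV hw1 hw2
    (fun x => by rw [← inner_q]; exact hw3 x)
  obtain ⟨w', hw'1, hw'2⟩ := hDIM H K Ω r i j a hΩ hDS ha1 ha2
  set κ : ℝ := Ci * (S + 4 * Cc * S) with hκ
  have hδ0 : 0 < Ci * h := by positivity
  obtain ⟨W₀, B₀, hW0, hW0T, hB0, hW0e⟩ := hW1 H K N Ω r i j B a w' κ (Ci * h) hN hBn hΩ hDS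
    ha1 ha2 (by
      intro e he
      obtain ⟨u1, u2, u3⟩ := ha3 e he
      refine ⟨u1, u2.trans ?_, u3⟩
      exact mul_le_mul_of_nonneg_left (add_le_add (hVM e he) hhr) hCi0) hw'1 hw'2
  obtain ⟨n, a', c', hfin⟩ := hASM C₀ hC₀ hUB H K N Ω r i j B B₀ W₀ (κ + r * (Ci * h)) (Ci * h)
    hδ0 hN hBn hΩ hA hDS hW0 hW0T hB0 hW0e
  refine ⟨n, a', c', BdL.mono hfin ?_⟩
  have hrd : r * (Ci * h) ≤ Ci * (4 * Cc * S) := by
    calc r * (Ci * h) = Ci * (h * r) := by ring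
      _ ≤ Ci * (4 * Cc * S) := mul_le_mul_of_nonneg_left hhr hCi0
  have hrd2 : Ca * (Ci * h) * r ≤ Ca * (Ci * (4 * Cc * S)) := by
    calc Ca * (Ci * h) * r = Ca * (r * (Ci * h)) := by ring
      _ ≤ _ := mul_le_mul_of_nonneg_left hrd hCa0
  calc C₀ * (2 * (κ + r * (Ci * h)) + Ca * (Ci * h) * r)
      ≤ C₀ * (2 * (κ + Ci * (4 * Cc * S)) + Ca * (Ci * (4 * Cc * S))) := by gcongr
    _ = C₀ * (2 * (Ci * (1 + 8 * Cc)) + Ca * (4 * (Ci * Cc))) * S := by rw [hκ]; ring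
    _ ≤ C * S := by
        rw [hC]
        nlinarith

end Pool.Q2
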