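import Pool.Agent.Work.MP_8c7e5b_q2.Interface

/-!
# MP_8c7e5b_an, Q2: block SYL (Sylvester's equation)
-/

open MeasureTheory Complex Filter Topology
open scoped ComplexOrder InnerProductSpace ComplexConjugate

set_option autoImplicit false

universe v

namespace Pool.Q2

open Pool.Bes Pool.Bes.ALGAux

namespace SYLAux

variable {H : Type v} [NormedAddCommGroup H] [InnerProductSpace ℂ H] [CompleteSpace H]

theorem norm_le {S : H →L[ℂ] H} {s : ℝ} (hs : 0 < s) (h : (s : ℂ) • (1 : H →L[ℂ] H) ≤ S) :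
    ‖((‖S‖ + s : ℝ) : ℂ) • (1 : H →L[ℂ] H) - S‖ ≤ ‖S‖ := by
  have hal : ∀ r : ℝ, algebraMap ℝ (H →L[ℂ] H) r = (r : ℂ) • (1 : H →L[ℂ] H) := by
    intro r
    rw [Algebra.algebraMap_eq_smul_one]
    rfl
  have h0 : (0 : H →L[ℂ] H) ≤ (s : ℂ) • (1 : H →L[ℂ] H) := by
    rw [← hal]
    have : (0 : H →L[ℂ] H) = algebraMap ℝ (H →L[ℂ] H) 0 := (map_zero _).symm
    rw [this]
    exact algebraMap_mono _ hs.le
  have hS : (0 : H →L[ℂ] H) ≤ S := h0.trans h
  have hsa : IsSelfAdjoint S := IsSelfAdjoint.of_nonneg hS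
  have h1 : S ≤ algebraMap ℝ (H →L[ℂ] H) ‖S‖ := hsa.le_algebraMap_norm_self
  have h2 : (0 : H →L[ℂ] H) ≤ ((‖S‖ + s : ℝ) : ℂ) • (1 : H →L[ℂ] H) - S := by
    rw [sub_nonneg]
    refine h1.trans ?_
    rw [← hal]
    exact algebraMap_mono _ (by linarith)
  rw [CStarAlgebra.norm_le_iff_le_algebraMap _ (norm_nonneg _) h2, hal]
  rw [sub_le_iff_le_add]
  have h3 : ((‖S‖ + s : ℝ) : ℂ) • (1 : H →L[ℂ] H) =
      ((‖S‖ : ℝ) : ℂ) • (1 : H →L[ℂ] H) + (s : ℂ) • (1 : H →L[ℂ] H) := by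
    rw [Complex.ofReal_add, add_smul]
  rw [h3]
  gcongr

omit [CompleteSpace H] in
theorem eq_fix {S D R : H →L[ℂ] H} {c : ℝ} (hR : R = (c : ℂ) • (1 : H →L[ℂ] H) - S) :
    ((2 * c : ℝ) : ℂ) • D = (S * D + D * S) + (R * D + D * R) := by
  rw [hR]
  simp only [sub_mul, mul_sub, smul_mul_assoc, mul_smul_comm, one_mul, mul_one]
  push_cast
  module

theorem bound {S D : H →L[ℂ] H} {s : ℝ} (hs : 0 < s) (h : (s : ℂ) • (1 : H →L[ℂ] H) ≤ S) :
    ‖D‖ ≤ ‖S * D + D * S‖ / (2 * s) := by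
  obtain ⟨R, hR⟩ : ∃ R : H →L[ℂ] H, R = ((‖S‖ + s : ℝ) : ℂ) • (1 : H →L[ℂ] H) - S := ⟨_, rfl⟩
  have hRn : ‖R‖ ≤ ‖S‖ := by rw [hR]; exact norm_le hs h
  have h1 := eq_fix (D := D) hR
  have h2 : 2 * (‖S‖ + s) * ‖D‖ ≤ ‖S * D + D * S‖ + 2 * (‖S‖ * ‖D‖) := by
    have h3 : ‖((2 * (‖S‖ + s) : ℝ) : ℂ) • D‖ = 2 * (‖S‖ + s) * ‖D‖ := by
      rw [norm_smul, Complex.norm_real, Real.norm_of_nonneg (by positivity)]
    rw [← h3, h1]
    refine (norm_add_le _ _).trans ?_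
    have h4 : ‖R * D + D * R‖ ≤ 2 * (‖S‖ * ‖D‖) := by
      refine (norm_add_le _ _).trans ?_
      have h5 := norm_mul_le R D
      have h6 := norm_mul_le D R
      have h7 := mul_le_mul_of_nonneg_right hRn (norm_nonneg D)
      nlinarith
    linarith
  rw [le_div_iff₀ (by positivity)]
  nlinarith

end SYLAux

open SYLAux in
/-- Block SYL. -/
theorem blk_SYL : Stmt_SYL.{v} := by
  intro H _ _ _ S D s hs h
  refine ⟨bound hs h, fun hZ => ?_⟩
  obtain ⟨R, hR⟩ : ∃ R : H →L[ℂ] H, R = ((‖S‖ + s : ℝ) : ℂ) • (1 : H →L[ℂ] H) - S := ⟨_, rfl⟩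
  have hRn : ‖R‖ ≤ ‖S‖ := by rw [hR]; exact norm_le hs h
  obtain ⟨c, hc⟩ : ∃ c : ℝ, c = ‖S‖ + s := ⟨_, rfl⟩
  have hc0 : 0 < c := by rw [hc]; positivity
  have hcs : ‖S‖ = c - s := by rw [hc]; ring
  rw [← hc] at hR
  have hcs0 : 0 ≤ c - s := by rw [← hcs]; exact norm_nonneg _
  obtain ⟨z, hz⟩ : ∃ z : S1 H, z = toS (S * D + D * S) := ⟨_, rfl⟩
  have hzop : op z = S * D + D * S := by rw [hz, op_toS hZ]
  obtain ⟨a, ha⟩ : ∃ a : ℂ, a = ((1 / (2 * c) : ℝ) : ℂ) := ⟨_, rfl⟩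
  have hna : ‖a‖ = 1 / (2 * c) := by
    rw [ha, Complex.norm_real, Real.norm_of_nonneg (by positivity)]
  have ha2 : a * ((2 * c : ℝ) : ℂ) = 1 := by
    rw [ha, ← Complex.ofReal_mul]
    have : 1 / (2 * c) * (2 * c) = 1 := by field_simp
    rw [this, Complex.ofReal_one]
  obtain ⟨F, hF⟩ : ∃ F : S1 H → S1 H, F = fun X => a • (z + (lm R X + rm R X)) := ⟨_, rfl⟩
  have hlr : ∀ X : S1 H, ‖lm R X + rm R X‖ ≤ 2 * ((c - s) * ‖X‖) := by
    intro X
    refine (norm_add_le _ _).trans ?_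
    have h1 := norm_lm_le R X
    have h2 := norm_rm_le R X
    rw [hcs] at hRn
    have h3 := mul_le_mul_of_nonneg_right hRn (norm_nonneg X)
    linarith
  have hK0 : 0 ≤ (c - s) / c := by positivity
  obtain ⟨K, hK⟩ : ∃ K : NNReal, K = Real.toNNReal ((c - s) / c) := ⟨_, rfl⟩
  have hKc : (K : ℝ) = (c - s) / c := by rw [hK]; exact Real.coe_toNNReal _ hK0
  have hcon : ContractingWith K F := by
    constructor
    · rw [← NNReal.coe_lt_coe, hKc, NNReal.coe_one, div_lt_one hc0]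
      linarith
    · refine LipschitzWith.of_dist_le_mul fun X Y => ?_
      rw [dist_eq_norm, dist_eq_norm]
      have h1 : F X - F Y = a • (lm R (X - Y) + rm R (X - Y)) := by
        rw [hF]
        show a • (z + (lm R X + rm R X)) - a • (z + (lm R Y + rm R Y)) = _
        rw [← smul_sub, map_sub, map_sub]
        congr 1
        abel
      rw [h1, norm_smul, hna]
      rw [hKc]
      have h2 := hlr (X - Y)
      have h3 : (0 : ℝ) < 1 / (2 * c) := by positivity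
      calc 1 / (2 * c) * ‖lm R (X - Y) + rm R (X - Y)‖
          ≤ 1 / (2 * c) * (2 * ((c - s) * ‖X - Y‖)) := mul_le_mul_of_nonneg_left h2 h3.le
        _ = _ := by field_simp
  obtain ⟨X, hX⟩ : ∃ X : S1 H, F X = X := ⟨hcon.fixedPoint F, hcon.fixedPoint_isFixedPt⟩
  have hX2 : ((2 * c : ℝ) : ℂ) • X = z + (lm R X + rm R X) := by
    conv_lhs => rw [← hX, hF]
    show ((2 * c : ℝ) : ℂ) • (a • (z + (lm R X + rm R X))) = _
    rw [smul_smul, mul_comm, ha2, one_smul]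
  have hop : S * op X + op X * S = S * D + D * S := by
    have h1 := congrArg op hX2
    rw [map_smul, map_add, map_add, op_lm, op_rm, hzop, eq_fix (D := op X) hR] at h1
    exact add_right_cancel h1
  have hDX : D = op X := by
    have h1 := bound (D := D - op X) hs h
    have h2 : S * (D - op X) + (D - op X) * S = 0 := by
      rw [mul_sub, sub_mul]
      have h3 : S * D - S * op X + (D * S - op X * S) =
        (S * D + D * S) - (S * op X + op X * S) := by abel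
      rw [h3, hop, sub_self]
    rw [h2, norm_zero, zero_div] at h1
    exact sub_eq_zero.1 (norm_eq_zero.1 (le_antisymm h1 (norm_nonneg _)))
  refine ⟨⟨X, hDX.symm⟩, ?_⟩
  have h1 : n1 D = ‖X‖ := by rw [hDX, n1_op]
  have h2 : n1 (S * D + D * S) = ‖z‖ := by rw [hz]; rfl
  rw [h1, h2]
  have h3 : 2 * c * ‖X‖ ≤ ‖z‖ + 2 * ((c - s) * ‖X‖) := by
    have h4 : ‖((2 * c : ℝ) : ℂ) • X‖ = 2 * c * ‖X‖ := by
      rw [norm_smul, Complex.norm_real, Real.norm_of_nonneg (by positivity)]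
    rw [← h4, hX2]
    refine (norm_add_le _ _).trans ?_
    linarith [hlr X]
  rw [le_div_iff₀ (by positivity)]
  nlinarith

end Pool.Q2
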