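import Pool.Agent.Work.MP_8c7e5b_q2.Interface

/-!
# MP_8c7e5b_an, Q2: block TFN (the functionals)
-/

open MeasureTheory Complex Filter Topology
open scoped ComplexOrder InnerProductSpace ComplexConjugate BoundedContinuousFunction

set_option autoImplicit false
set_option linter.unusedSectionVars false

universe v

namespace Pool.Q2
namespace TFNAux

open Pool.Bes

variable {H : Type v} [NormedAddCommGroup H] [InnerProductSpace ℂ H] [CompleteSpace H]

/-- the pair of `N₂, N₁` -/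
theorem exists_pair (N₁ N₂ : H →L[ℂ] H) (h₁ : IsStarNormal N₁) (h₂ : IsStarNormal N₂)
    (hT : IsT (N₂ - N₁)) : ∃ P : Pair H, P.A = N₂ ∧ P.B = N₁ := by
  set S : S1 H := toS (N₂ - N₁) with hS
  set S' : S1 H := toS (star (N₂ - N₁)) with hS'
  set M : ℝ := n1 (N₂ - N₁) with hM
  have hSM : ‖S‖ ≤ M := le_of_eq rfl
  have hSM' : ‖S'‖ ≤ M := by
    have := n1_star hT
    rw [n1] at this
    exact le_of_eq this
  have opS : op S = N₂ - N₁ := op_toS hT
  have opS' : op S' = star (N₂ - N₁) := op_toS hT.star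
  have hop : ∀ e : ℂ, op ((1 / 2 : ℂ) • (conj e • S + e • S')) = dt e N₂ - dt e N₁ := by
    intro e
    rw [map_smul, map_add, map_smul, map_smul, opS, opS', dt, dt, ← smul_sub, star_sub]
    congr 1
    rw [smul_sub, smul_sub]
    abel
  refine ⟨⟨N₂, N₁, h₂, h₁, (1 / 2 : ℂ) • (conj (1 : ℂ) • S + (1 : ℂ) • S'),
    (1 / 2 : ℂ) • (conj Complex.I • S + Complex.I • S'), hop 1, hop Complex.I, M, ?_⟩, rfl, rfl⟩
  intro e
  have h1 : (e.re : ℂ) • ((1 / 2 : ℂ) • (conj (1 : ℂ) • S + (1 : ℂ) • S')) +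
      (e.im : ℂ) • ((1 / 2 : ℂ) • (conj Complex.I • S + Complex.I • S')) =
      (1 / 2 : ℂ) • (conj e • S + e • S') := by
    have e1 : conj e = (e.re : ℂ) - (e.im : ℂ) * Complex.I := by
      apply Complex.ext <;> simp
    have e2 : e = (e.re : ℂ) + (e.im : ℂ) * Complex.I := (Complex.re_add_im e).symm
    have e3 : (1 / 2 : ℂ) • (conj e • S + e • S') = (1 / 2 : ℂ) •
        (((e.re : ℂ) - (e.im : ℂ) * Complex.I) • S + ((e.re : ℂ) + (e.im : ℂ) * Complex.I) • S') := by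
      rw [← e1, ← e2]
    rw [e3, map_one, Complex.conj_I]
    module
  rw [h1]
  calc ‖(1 / 2 : ℂ) • (conj e • S + e • S')‖ ≤ ‖(1 / 2 : ℂ)‖ * (‖e‖ * ‖S‖ + ‖e‖ * ‖S'‖) := by
        rw [norm_smul]
        refine mul_le_mul_of_nonneg_left ((norm_add_le _ _).trans ?_) (norm_nonneg _)
        rw [norm_smul, norm_smul, RCLike.norm_conj]
    _ ≤ (1 / 2) * (‖e‖ * M + ‖e‖ * M) := by
        have hh : ‖(1 / 2 : ℂ)‖ = 1 / 2 := by norm_num
        rw [hh]
        gcongr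
    _ = ‖e‖ * M := by ring

theorem isT_cfc_sub (N₁ N₂ : H →L[ℂ] H) (h₁ : IsStarNormal N₁) (h₂ : IsStarNormal N₂)
    (hT : IsT (N₂ - N₁)) (f : ℂ → ℂ) (hf : Tst f) : IsT (cfc f N₂ - cfc f N₁) := by
  obtain ⟨P, hA, hB⟩ := exists_pair N₁ N₂ h₁ h₂ hT
  obtain ⟨a, ha, hs, -⟩ := blk_FOUR f hf.1 hf.2
  have h1 := ((sDu H P).2.2.2.2.2.2.2.2.2.2.2.2.2 a ha).2.1
  have h2 : syn a = f := funext hs
  rw [h2, hA, hB, fn, fn] at h1
  exact ⟨_, h1⟩

theorem Tst.cont {f : ℂ → ℂ} (hf : Tst f) : Continuous f := hf.1.continuous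

theorem Tst.add {f g : ℂ → ℂ} (hf : Tst f) (hg : Tst g) : Tst (fun z => f z + g z) :=
  ⟨hf.1.add hg.1, hf.2.add hg.2⟩

theorem Tst.cmul {f : ℂ → ℂ} (hf : Tst f) (c : ℂ) : Tst (fun z => c * f z) :=
  ⟨contDiff_const.mul hf.1, hf.2.mul_left⟩

theorem isLF_Tf (N₁ N₂ : H →L[ℂ] H) (h₁ : IsStarNormal N₁) (h₂ : IsStarNormal N₂)
    (hT : IsT (N₂ - N₁)) : IsLF (Tf N₁ N₂) := by
  constructor
  · intro f g hf hg
    have e1 : ∀ N : H →L[ℂ] H, cfc (fun z => f z + g z) N = cfc f N + cfc g N := fun N =>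
      cfc_add (a := N) f g (Tst.cont hf).continuousOn (Tst.cont hg).continuousOn
    rw [Tf, Tf, Tf, e1, e1, ← trO_add (isT_cfc_sub N₁ N₂ h₁ h₂ hT f hf)
      (isT_cfc_sub N₁ N₂ h₁ h₂ hT g hg)]
    congr 1
    abel
  · intro c f hf
    have e1 : ∀ N : H →L[ℂ] H, cfc (fun z => c * f z) N = c • cfc f N := fun N =>
      cfc_const_mul c f N (Tst.cont hf).continuousOn
    rw [Tf, Tf, e1, e1, ← trO_smul c (isT_cfc_sub N₁ N₂ h₁ h₂ hT f hf), smul_sub]

/-- conjugation by a unitary -/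
theorem cfc_conj (N Ω : H →L[ℂ] H) (hN : IsStarNormal N) (hΩ : Uni Ω) (f : ℂ → ℂ)
    (hf : Continuous f) :
    IsStarNormal (star Ω * N * Ω) ∧ cfc f (star Ω * N * Ω) = star Ω * cfc f N * Ω := by
  have hu : star Ω ∈ unitary (H →L[ℂ] H) := by
    rw [Unitary.mem_iff, star_star]
    exact ⟨hΩ.2, hΩ.1⟩
  set u : unitary (H →L[ℂ] H) := ⟨star Ω, hu⟩ with hudef
  have hN2 : IsStarNormal (star Ω * N * Ω) := by
    refine ⟨?_⟩
    have h0 := hN.star_comm_self.eq
    change star (star Ω * N * Ω) * (star Ω * N * Ω) = (star Ω * N * Ω) * star (star Ω * N * Ω)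
    rw [star_mul, star_mul, star_star]
    calc star Ω * (star N * Ω) * (star Ω * N * Ω) = star Ω * (star N * (Ω * star Ω) * N) * Ω := by
          simp only [mul_assoc]
      _ = star Ω * (N * (Ω * star Ω) * star N) * Ω := by
          rw [hΩ.2, mul_one, mul_one, h0]
      _ = star Ω * N * Ω * (star Ω * (star N * Ω)) := by simp only [mul_assoc]
  refine ⟨hN2, ?_⟩
  have h1 : ∀ x : H →L[ℂ] H, Unitary.conjStarAlgAut ℂ (H →L[ℂ] H) u x = star Ω * x * Ω := by
    intro x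
    rw [Unitary.conjStarAlgAut_apply, hudef]
    simp only [star_star]
  have hc : Continuous (Unitary.conjStarAlgAut ℂ (H →L[ℂ] H) u) := by
    have : (Unitary.conjStarAlgAut ℂ (H →L[ℂ] H) u : (H →L[ℂ] H) → H →L[ℂ] H) =
        fun x => star Ω * x * Ω := funext h1
    rw [this]
    exact (continuous_const.mul continuous_id).mul continuous_const
  have h2 := StarAlgHomClass.map_cfc (R := ℂ) (S := ℂ) (Unitary.conjStarAlgAut ℂ (H →L[ℂ] H) u) f N
    hf.continuousOn hc hN (by rw [h1]; exact hN2)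
  rw [h1, h1] at h2
  exact h2.symm

theorem eq_dt (N : H →L[ℂ] H) : N = dt 1 N + Complex.I • dt Complex.I N := by
  have h1 : Complex.I * (1 / 2) * -Complex.I = 1 / 2 := by
    linear_combination (-1 / 2 : ℂ) * Complex.I_mul_I
  have h2 : Complex.I * (1 / 2) * Complex.I = -(1 / 2) := by
    linear_combination (1 / 2 : ℂ) * Complex.I_mul_I
  rw [dt, dt, map_one, Complex.conj_I, smul_add, smul_add, smul_add, smul_smul, smul_smul,
    smul_smul, smul_smul, smul_smul, smul_smul, h1, h2]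
  module

theorem isT_br (N b : H →L[ℂ] H) (h : A1 N b) : IsT (N * b - b * N) := by
  have h1 : N * b - b * N = br (dt 1 N) b + Complex.I • br (dt Complex.I N) b := by
    unfold br
    conv_lhs => rw [eq_dt N]
    rw [add_mul, mul_add, smul_mul_assoc, mul_smul_comm, smul_sub]
    abel
  rw [h1]
  exact h.1.add (h.2.smul _)

theorem isT_conj_sub (N Ω : H →L[ℂ] H) (hΩ : Uni Ω) (h : A1 N Ω) :
    IsT (star Ω * N * Ω - N) := by
  have h1 : star Ω * N * Ω - N = star Ω * (N * Ω - Ω * N) := by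
    rw [mul_sub, ← mul_assoc, ← mul_assoc, hΩ.1, one_mul]
  rw [h1]
  exact (isT_br N Ω h).mul_left _

theorem uni_mul {Ω Ω' : H →L[ℂ] H} (h : Uni Ω) (h' : Uni Ω') : Uni (Ω * Ω') := by
  constructor
  · rw [star_mul]
    calc star Ω' * star Ω * (Ω * Ω') = star Ω' * (star Ω * Ω) * Ω' := by simp only [mul_assoc]
      _ = 1 := by rw [h.1, mul_one, h'.1]
  · rw [star_mul]
    calc Ω * Ω' * (star Ω' * star Ω) = Ω * (Ω' * star Ω') * star Ω := by simp only [mul_assoc]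
      _ = 1 := by rw [h'.2, mul_one, h.2]

theorem tr_prod (F Ω Ω' : H →L[ℂ] H) (hΩ' : Uni Ω') (h1 : IsT (star Ω * F * Ω - F))
    (h2 : IsT (star Ω' * F * Ω' - F)) :
    IsT (star (Ω * Ω') * F * (Ω * Ω') - F) ∧
    trO (star (Ω * Ω') * F * (Ω * Ω') - F) =
      trO (star Ω * F * Ω - F) + trO (star Ω' * F * Ω' - F) := by
  have e : star (Ω * Ω') * F * (Ω * Ω') - F =
      star Ω' * ((star Ω * F * Ω - F) * Ω') + (star Ω' * F * Ω' - F) := by
    rw [star_mul]
    noncomm_ring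
  have h3 : IsT ((star Ω * F * Ω - F) * Ω') := h1.mul_right _
  refine ⟨by rw [e]; exact (h3.mul_left _).add h2, ?_⟩
  rw [e, trO_add (h3.mul_left _) h2, trO_mul_comm _ h3, mul_assoc, hΩ'.2, mul_one]

theorem tr_star (F Ω : H →L[ℂ] H) (hΩ : Uni Ω) (h1 : IsT (star Ω * F * Ω - F)) :
    trO (star (star Ω) * F * star Ω - F) = -trO (star Ω * F * Ω - F) := by
  have e : star (star Ω) * F * star Ω - F = -(Ω * ((star Ω * F * Ω - F) * star Ω)) := by
    rw [star_star]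
    have : Ω * ((star Ω * F * Ω - F) * star Ω) =
        (Ω * star Ω) * F * (Ω * star Ω) - Ω * F * star Ω := by noncomm_ring
    rw [this, hΩ.2, one_mul, mul_one]
    abel
  have h3 : IsT ((star Ω * F * Ω - F) * star Ω) := h1.mul_right _
  rw [e, trO_neg (h3.mul_left _), trO_mul_comm _ h3, mul_assoc, hΩ.1, mul_one]

theorem tr_one_add (F k K : H →L[ℂ] H) (hk : Uni k) (hkK : k = 1 + K) (hK : IsT K) :
    IsT (star k * F * k - F) ∧ trO (star k * F * k - F) = 0 := by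
  have e : star k * F * k - F = star k * (F * K) - star k * (K * F) := by
    have h1 : F = star k * k * F := by rw [hk.1, one_mul]
    calc star k * F * k - F = star k * F * k - star k * k * F := by rw [← h1]
      _ = star k * (F * K) - star k * (K * F) := by
          conv_lhs => rw [show star k * F * k = star k * F * (1 + K) by rw [← hkK],
            show star k * k * F = star k * (1 + K) * F by rw [← hkK]]
          noncomm_ring
  have t1 : IsT (F * K) := hK.mul_left _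
  have t2 : IsT (K * F) := hK.mul_right _
  have t3 : IsT (K * star k) := hK.mul_right _
  have t4 : IsT (star k * K) := hK.mul_left _
  refine ⟨by rw [e]; exact (t1.mul_left _).sub (t2.mul_left _), ?_⟩
  rw [e, trO_sub (t1.mul_left _) (t2.mul_left _), trO_mul_comm _ t1, mul_assoc,
    ← mul_assoc (star k) K F, ← trO_mul_comm F t4]
  rw [← trO_sub (t3.mul_left _) (t4.mul_left _), ← mul_sub]
  have hh : K * star k - star k * K = 0 := by
    have hK2 : K = k - 1 := by rw [hkK]; abel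
    rw [hK2, sub_mul, mul_sub, hk.1, hk.2]
    noncomm_ring
  rw [hh, mul_zero, trO_zero]

end TFNAux

open TFNAux Pool.Bes

theorem blk_TFN : Stmt_TFN.{v} := by
  refine ⟨fun H _ _ _ N₁ N₂ h₁ h₂ hT => ⟨fun f hf => isT_cfc_sub N₁ N₂ h₁ h₂ hT f hf,
    isLF_Tf N₁ N₂ h₁ h₂ hT⟩, ?_⟩
  intro H _ _ _ N Ω hN hΩ hA
  have key : ∀ Ω' : H →L[ℂ] H, Uni Ω' → A1 N Ω' → ∀ f, Tst f →
      IsT (star Ω' * cfc f N * Ω' - cfc f N) ∧ TU N Ω' f = Tf N (star Ω' * N * Ω') f := by
    intro Ω' hΩ' hA' f hf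
    obtain ⟨h1, h2⟩ := cfc_conj N Ω' hN hΩ' f (Tst.cont hf)
    rw [TU, Tf, h2]
    exact ⟨by rw [← h2]; exact isT_cfc_sub N _ hN h1 (isT_conj_sub N Ω' hΩ' hA') f hf, rfl⟩
  have hN2 : IsStarNormal (star Ω * N * Ω) :=
    (cfc_conj N Ω hN hΩ (fun z => z) continuous_id).1
  have hLF := isLF_Tf N _ hN hN2 (isT_conj_sub N Ω hΩ hA)
  refine ⟨fun f hf => (key Ω hΩ hA f hf).1, ?_, hN2, isT_conj_sub N Ω hΩ hA,
    fun f hf => (key Ω hΩ hA f hf).2, ?_, ?_, ?_, ?_⟩
  · constructor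
    · intro f g hf hg
      rw [(key Ω hΩ hA _ (Tst.add hf hg)).2, (key Ω hΩ hA f hf).2, (key Ω hΩ hA g hg).2]
      exact hLF.1 f g hf hg
    · intro c f hf
      rw [(key Ω hΩ hA _ (Tst.cmul hf c)).2, (key Ω hΩ hA f hf).2]
      exact hLF.2 c f hf
  · intro Ω' hΩ' hA'
    have hprod : ∀ f, Tst f → TU N (Ω * Ω') f = TU N Ω f + TU N Ω' f := fun f hf =>
      (tr_prod (cfc f N) Ω Ω' hΩ' (key Ω hΩ hA f hf).1 (key Ω' hΩ' hA' f hf).1).2
    refine ⟨hprod, fun hK f hf => ?_⟩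
    have hk : Uni (star Ω * Ω') := by
      refine uni_mul ?_ hΩ'
      exact ⟨by rw [star_star]; exact hΩ.2, by rw [star_star]; exact hΩ.1⟩
    have hkK : star Ω * Ω' = 1 + star Ω * (Ω' - Ω) := by
      rw [mul_sub, hΩ.1]; abel
    obtain ⟨t1, t2⟩ := tr_one_add (cfc f N) (star Ω * Ω') (star Ω * (Ω' - Ω)) hk hkK
      (hK.mul_left _)
    have h3 := (tr_prod (cfc f N) Ω (star Ω * Ω') hk (key Ω hΩ hA f hf).1 t1).2
    have h4 : Ω * (star Ω * Ω') = Ω' := by rw [← mul_assoc, hΩ.2, one_mul]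
    rw [h4, t2, add_zero] at h3
    exact h3
  · intro f hf
    exact tr_star (cfc f N) Ω hΩ (key Ω hΩ hA f hf).1
  · intro m f hf
    have hm : IsT (star (Ω ^ m) * cfc f N * Ω ^ m - cfc f N) ∧
        trO (star (Ω ^ m) * cfc f N * Ω ^ m - cfc f N) = m * TU N Ω f := by
      induction m with
      | zero =>
        rw [pow_zero, star_one, one_mul, mul_one, sub_self, trO_zero]
        exact ⟨isT_zero, by simp⟩
      | succ m ih =>
        rw [pow_succ]
        obtain ⟨t1, t2⟩ := tr_prod (cfc f N) (Ω ^ m) Ω hΩ ih.1 (key Ω hΩ hA f hf).1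
        refine ⟨t1, ?_⟩
        rw [t2, ih.2]
        push_cast
        rw [add_mul, one_mul]
        rfl
    exact hm.2
  · intro hC f hf
    have h1 : Commute (cfc f N) Ω := Commute.cfc (show Commute N Ω from hC.1) hC.2 f
    rw [TU, mul_assoc, h1.eq, ← mul_assoc, hΩ.1, one_mul, sub_self, trO_zero]

end Pool.Q2
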