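import Pool.Agent.Work.MP_8c7e5b_q2.Interface

/-!
# Block TRN: change of the space
-/

open MeasureTheory Complex Filter Topology
open scoped ComplexOrder InnerProductSpace ComplexConjugate BoundedContinuousFunction

set_option autoImplicit false
set_option linter.unusedSectionVars false

universe v

namespace Pool.Q2

open Pool.Bes

namespace TRNAux

variable {H : Type v} [NormedAddCommGroup H] [InnerProductSpace ℂ H] [CompleteSpace H]
variable {K : Type v} [NormedAddCommGroup K] [InnerProductSpace ℂ K] [CompleteSpace K]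

/-- `Y ↦ B Y A` -/
noncomputable def cjm (A : H →L[ℂ] K) (B : K →L[ℂ] H) : (K →L[ℂ] K) →L[ℂ] (H →L[ℂ] H) :=
  (ContinuousLinearMap.compL ℂ H K H B).comp ((ContinuousLinearMap.compL ℂ H K K).flip A)

theorem cjm_apply (A : H →L[ℂ] K) (B : K →L[ℂ] H) (Y : K →L[ℂ] K) :
    cjm A B Y = B ∘L (Y ∘L A) := rfl

/-- `φ ↦ (Y ↦ φ (B Y A))` -/
noncomputable def pc (A : H →L[ℂ] K) (B : K →L[ℂ] H) :
    StrongDual ℂ (H →L[ℂ] H) →L[ℂ] StrongDual ℂ (K →L[ℂ] K) :=
  (ContinuousLinearMap.compL ℂ (K →L[ℂ] K) (H →L[ℂ] H) ℂ).flip (cjm A B)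

theorem pc_apply (A : H →L[ℂ] K) (B : K →L[ℂ] H) (φ : StrongDual ℂ (H →L[ℂ] H))
    (Y : K →L[ℂ] K) : pc A B φ Y = φ (B ∘L (Y ∘L A)) := rfl

theorem pc_mem (A : H →L[ℂ] K) (B : K →L[ℂ] H) (X : S1 H) : pc A B X.toDual ∈ S1sub K := by
  have h1 : FRk H ≤ (S1sub K).comap (pc A B).toLinearMap := by
    rw [FRk, Submodule.span_le]
    rintro _ ⟨p, rfl⟩
    have : pc A B (vf p.1 p.2) = vf (A p.1) ((ContinuousLinearMap.adjoint B) p.2) := by
      ext Y
      rw [pc_apply, vf_apply, vf_apply, ContinuousLinearMap.adjoint_inner_left]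
      rfl
    change pc A B (vf p.1 p.2) ∈ S1sub K
    rw [this]
    exact vf_mem _ _
  have h2 : IsClosed (((S1sub K).comap (pc A B).toLinearMap : Submodule ℂ _) :
      Set (StrongDual ℂ (H →L[ℂ] H))) :=
    (Submodule.isClosed_topologicalClosure (FRk K)).preimage (pc A B).continuous
  have h3 : S1sub H ≤ (S1sub K).comap (pc A B).toLinearMap :=
    Submodule.topologicalClosure_minimal _ h1 h2
  exact h3 X.2

/-- `A T B` -/
noncomputable def tw (A : H →L[ℂ] K) (B : K →L[ℂ] H) (X : S1 H) : S1 K :=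
  S1.mk (pc A B X.toDual) (pc_mem A B X)

theorem pr_tw (A : H →L[ℂ] K) (B : K →L[ℂ] H) (X : S1 H) (Y : K →L[ℂ] K) :
    pr (tw A B X) Y = pr X (B ∘L (Y ∘L A)) := rfl

theorem op_tw (A : H →L[ℂ] K) (B : K →L[ℂ] H) (X : S1 H) : op (tw A B X) = A ∘L op X ∘L B := by
  ext x
  refine ext_inner_left ℂ fun y => ?_
  rw [inner_op, pr_tw]
  have h : (B ∘L ((r1 x y) ∘L A) : H →L[ℂ] H) = r1 (B x) ((ContinuousLinearMap.adjoint A) y) := by
    ext z
    change B (r1 x y (A z)) = _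
    rw [r1_apply, r1_apply, map_smul, ContinuousLinearMap.adjoint_inner_left]
  rw [h, ← inner_op, ContinuousLinearMap.adjoint_inner_left]
  rfl

theorem norm_tw_le (A : H →L[ℂ] K) (B : K →L[ℂ] H) (X : S1 H) :
    ‖tw A B X‖ ≤ ‖A‖ * ‖B‖ * ‖X‖ := by
  refine ALGAux.norm_le_of_pr _ _ (by positivity) fun Y => ?_
  rw [pr_tw]
  refine (ALGAux.norm_pr_le _ _).trans ?_
  have h : ‖(B ∘L (Y ∘L A) : H →L[ℂ] H)‖ ≤ ‖B‖ * (‖Y‖ * ‖A‖) :=
    (ContinuousLinearMap.opNorm_comp_le _ _).trans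
      (mul_le_mul_of_nonneg_left (ContinuousLinearMap.opNorm_comp_le _ _) (norm_nonneg _))
  calc ‖X‖ * ‖(B ∘L (Y ∘L A) : H →L[ℂ] H)‖ ≤ ‖X‖ * (‖B‖ * (‖Y‖ * ‖A‖)) := by gcongr
    _ = ‖A‖ * ‖B‖ * ‖X‖ * ‖Y‖ := by ring

theorem part1 (A : H →L[ℂ] K) (B : K →L[ℂ] H) (T : H →L[ℂ] H) (hT : IsT T) :
    IsT (A ∘L T ∘L B) ∧ n1 (A ∘L T ∘L B) ≤ ‖A‖ * ‖B‖ * n1 T ∧
      trO (A ∘L T ∘L B) = trO (T * (B ∘L A)) := by
  have h : op (tw A B (toS T)) = A ∘L T ∘L B := by rw [op_tw, op_toS hT]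
  refine ⟨⟨_, h⟩, ?_, ?_⟩
  · rw [← h, n1_op]
    exact norm_tw_le A B (toS T)
  · rw [trO, toS_eq h, trO, toS_mul_right _ hT, tr, tr, pr_tw, pr_rm, mul_one]
    rfl

end TRNAux

theorem blk_TRN : Stmt_TRN.{v} := by
  refine ⟨fun H _ _ _ K _ _ _ A B T hT => TRNAux.part1 A B T hT, ?_, ?_⟩
  · intro r K _ _ _ A B
    let b : OrthonormalBasis (Fin r) ℂ (Ef r) := EuclideanSpace.basisFun (Fin r) ℂ
    have h : (A ∘L B : K →L[ℂ] K) =
        ∑ k, r1 (A (b k)) ((ContinuousLinearMap.adjoint B) (b k)) := by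
      ext x
      rw [_root_.sum_apply]
      have h1 : B x = ∑ k, ⟪b k, B x⟫_ℂ • b k := (b.sum_repr' (B x)).symm
      change A (B x) = _
      conv_lhs => rw [h1]
      rw [map_sum]
      refine Finset.sum_congr rfl fun k _ => ?_
      rw [map_smul, r1_apply, ContinuousLinearMap.adjoint_inner_left]
    have hb : ∀ k, ‖b k‖ = 1 := fun k => b.orthonormal.1 k
    refine ⟨?_, ?_, ?_⟩
    · rw [h]
      exact IsT.sum _ _ fun k _ => isT_r1 _ _
    · rw [h]
      refine (n1_sum_le _ _ fun k _ => isT_r1 _ _).trans ?_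
      have h2 : ∀ k ∈ (Finset.univ : Finset (Fin r)),
          n1 (r1 (A (b k)) ((ContinuousLinearMap.adjoint B) (b k))) ≤ ‖A‖ * ‖B‖ := by
        intro k _
        refine (n1_r1_le _ _).trans ?_
        have a1 : ‖A (b k)‖ ≤ ‖A‖ := by
          have := A.le_opNorm (b k)
          rwa [hb k, mul_one] at this
        have a2 : ‖(ContinuousLinearMap.adjoint B) (b k)‖ ≤ ‖B‖ := by
          have := (ContinuousLinearMap.adjoint B).le_opNorm (b k)
          rwa [hb k, mul_one, LinearIsometryEquiv.norm_map] at this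
        exact mul_le_mul a1 a2 (norm_nonneg _) (norm_nonneg _)
      refine (Finset.sum_le_sum h2).trans ?_
      rw [Finset.sum_const, Finset.card_univ, Fintype.card_fin, nsmul_eq_mul, mul_comm]
    · rw [h, trO_sum _ _ fun k _ => isT_r1 _ _, LinearMap.trace_eq_sum_inner _ b]
      refine Finset.sum_congr rfl fun k _ => ?_
      rw [trO_r1, ContinuousLinearMap.adjoint_inner_left]
      rfl
  · intro H _ _ _ r x y
    refine ⟨IsT.sum _ _ fun k _ => isT_r1 _ _, ?_⟩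
    exact (n1_sum_le _ _ fun k _ => isT_r1 _ _).trans
      (Finset.sum_le_sum fun k _ => n1_r1_le _ _)

end Pool.Q2
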