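import Pool.Agent.Work.MP_8c7e5b_q2.Interface
import Pool.Agent.Work.MP_8c7e5b_q2.FCD
import Pool.Agent.Work.MP_8c7e5b_q2.TRN
import Pool.Agent.Work.MP_8c7e5b_q2.TFN

/-!
# Block TRI (helper48): the trace formula for a finite rank extension
-/

open MeasureTheory Complex Filter Topology
open scoped ComplexOrder InnerProductSpace ComplexConjugate BoundedContinuousFunction

set_option autoImplicit false
set_option linter.unusedSectionVars false

universe v

namespace Pool.Q2

open Pool.Bes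

namespace TRIAux

open FCDAux

section

variable {H K : Type v} [NormedAddCommGroup H] [InnerProductSpace ℂ H] [CompleteSpace H]
  [NormedAddCommGroup K] [InnerProductSpace ℂ K] [CompleteSpace K]

theorem tr_cor (hTRN : Stmt_TRN.{v}) {i : H →L[ℂ] K}
    (hi : (ContinuousLinearMap.adjoint i) ∘L i = ContinuousLinearMap.id ℂ H)
    {T : H →L[ℂ] H} (hT : IsT T) : IsT (cor i T) ∧ trO (cor i T) = trO T := by
  obtain ⟨h1, -, h3⟩ := hTRN.1 H K i (ContinuousLinearMap.adjoint i) T hT
  refine ⟨h1, ?_⟩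
  change trO (i ∘L T ∘L (ContinuousLinearMap.adjoint i)) = _
  rw [h3, hi]
  exact congrArg trO (mul_one T)

theorem tr_corE (hTRN : Stmt_TRN.{v}) {r : ℕ} {l : Ef r →L[ℂ] K}
    (hl : (ContinuousLinearMap.adjoint l) ∘L l = ContinuousLinearMap.id ℂ (Ef r))
    (D : Ef r →L[ℂ] Ef r) : IsT (cor l D) ∧ trO (cor l D) = trO D := by
  obtain ⟨h1, -, h3⟩ := hTRN.2.1 r K (l ∘L D) (ContinuousLinearMap.adjoint l)
  obtain ⟨-, -, h6⟩ := (blk_TRN.{0}).2.1 r (Ef r) D (ContinuousLinearMap.id ℂ (Ef r))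
  have e1 : (l ∘L D) ∘L (ContinuousLinearMap.adjoint l) = cor l D := rfl
  have e2 : (ContinuousLinearMap.adjoint l) ∘L (l ∘L D) = D := by
    rw [← ContinuousLinearMap.comp_assoc, hl, ContinuousLinearMap.id_comp]
  rw [e1] at h1
  rw [e1, e2] at h3
  rw [ContinuousLinearMap.comp_id, ContinuousLinearMap.id_comp] at h6
  exact ⟨h1, h3.trans h6.symm⟩

theorem isT_finE (hTRN : Stmt_TRN.{v}) {r : ℕ} (D : Ef r →L[ℂ] Ef r) : IsT D := by
  obtain ⟨h4, -, -⟩ := (blk_TRN.{0}).2.1 r (Ef r) D (ContinuousLinearMap.id ℂ (Ef r))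
  rwa [ContinuousLinearMap.comp_id] at h4

theorem uni_star {W : H →L[ℂ] H} (h : Uni W) : Uni (star W) := by
  refine ⟨?_, ?_⟩
  · rw [star_star]
    exact h.2
  · rw [star_star]
    exact h.1

end

end TRIAux

open TRIAux FCDAux in
theorem blk_TRI (hFCD : Stmt_FCD.{v}) (hTRN : Stmt_TRN.{v}) (hTFN : Stmt_TFN.{v})
    (hCMM : Stmt_CMM.{v}) : Stmt_TRI.{v} := by
  intro H _ _ _ K _ _ _ r k l N Ω B_A M W hds hN hBA hM hΩ hA1 hW hWT hcomm
  set φ := dsHom k l hds with hφ
  have hφa : ∀ (A : H →L[ℂ] H) (B : Ef r →L[ℂ] Ef r), φ (A, B) = cor k A + cor l B :=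
    dsHom_apply k l hds
  have hcor0 : ∀ (A : H →L[ℂ] H), φ (A, 0) = cor k A := by
    intro A
    rw [hφa]
    have : cor l (0 : Ef r →L[ℂ] Ef r) = 0 := by
      ext x
      simp [cor]
    rw [this, add_zero]
  have h0cor : ∀ (B : Ef r →L[ℂ] Ef r), φ (0, B) = cor l B := by
    intro B
    rw [hφa]
    have : cor k (0 : H →L[ℂ] H) = 0 := by
      ext x
      simp [cor]
    rw [this, zero_add]
  have hll : l ∘L (ContinuousLinearMap.adjoint l) = cor l (1 : Ef r →L[ℂ] Ef r) := rfl
  rw [hll, ← hφa] at hWT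
  set NA := cor k N + cor l B_A with hNA
  set NB := cor k N + cor l M with hNB
  have eNA : NA = φ (N, B_A) := (hφa _ _).symm
  have eNB : NB = φ (N, M) := (hφa _ _).symm
  obtain ⟨hnA, hfA⟩ := hFCD H K r k l N B_A hds hN hBA
  obtain ⟨hnB, hfB⟩ := hFCD H K r k l N M hds hN hM
  rw [← hNA] at hnA hfA
  rw [← hNB] at hnB hfB
  set W' : K →L[ℂ] K := φ (Ω, 1) with hW'
  -- unitarity of W'
  have hUW' : Uni W' := by
    refine ⟨?_, ?_⟩
    · rw [hW', ← map_star, ← map_mul]
      have : star ((Ω, 1) : (H →L[ℂ] H) × (Ef r →L[ℂ] Ef r)) * (Ω, 1) = 1 := by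
        ext1
        · exact hΩ.1
        · change star (1 : Ef r →L[ℂ] Ef r) * 1 = 1
          rw [star_one, mul_one]
      rw [this, map_one]
    · rw [hW', ← map_star, ← map_mul]
      have : ((Ω, 1) : (H →L[ℂ] H) × (Ef r →L[ℂ] Ef r)) * star (Ω, 1) = 1 := by
        ext1
        · exact hΩ.2
        · change 1 * star (1 : Ef r →L[ℂ] Ef r) = 1
          rw [star_one, mul_one]
      rw [this, map_one]
  -- commutators
  have hdt : ∀ e : ℂ, dt e NA = φ (dt e N, dt e B_A) := by
    intro e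
    rw [eNA, dt, ← map_star, ← map_smul, ← map_smul, ← map_add, ← map_smul]
    rfl
  have hbr : ∀ e : ℂ, br (dt e NA) W' = cor k (br (dt e N) Ω) := by
    intro e
    rw [hdt, hW', br, ← map_mul, ← map_mul, ← map_sub, ← hcor0]
    congr 1
    ext1
    · rfl
    · change dt e B_A * 1 - 1 * dt e B_A = 0
      rw [mul_one, one_mul, sub_self]
  have hA1W' : A1 NA W' := by
    refine ⟨?_, ?_⟩
    · rw [hbr]
      exact (tr_cor hTRN hds.hi hA1.1).1
    · rw [hbr]
      exact (tr_cor hTRN hds.hi hA1.2).1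
  obtain ⟨c1, c2, c3, c4, c5, c6, c7, c8, c9, c10, c11, c12, c13, c14⟩ := hCMM K NA hnA
  have hA1W : A1 NA W := by
    have := (c12 W' (W - W') hA1W' (c14 _ hWT)).2.1
    rwa [add_sub_cancel] at this
  have hA1sW' : A1 NA (star W') := (c11 _ hA1W').2
  have hA1sW : A1 NA (star W) := (c11 _ hA1W).2
  -- the trace class property
  have hWW : W * star W = 1 := hW.2
  have e0 : W * NB * star W - NA = -((NA * W - W * NB) * star W) := by
    rw [sub_mul, mul_assoc NA W, hWW, mul_one]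
    abel
  have hT0 : IsT (W * NB * star W - NA) := by
    rw [e0]
    exact (hcomm.mul_right _).neg
  refine ⟨hT0, ?_⟩
  intro f hf
  have hfc : Continuous f := hf.1.continuous
  -- the functional calculus of the conjugate
  have hconj := TFNAux.cfc_conj NB (star W) hnB (uni_star hW) f hfc
  rw [star_star] at hconj
  have hfA' := hfA f hfc
  have hfB' := hfB f hfc
  set F := cfc f N with hF
  have t1 := hTFN.2 K NA (star W') hnA (uni_star hUW') hA1sW'
  have t2 := hTFN.2 K NA (star W) hnA (uni_star hW) hA1sW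
  have t3 := t1.2.2.2.2.2.1 (star W) (uni_star hW) hA1sW
  have hsub : IsT (star W - star W') := by
    rw [← star_sub]
    exact hWT.star
  have t4 : TU NA (star W) f = TU NA (star W') f := t3.2 hsub f hf
  have t5 : IsT (W * cfc f NA * star W - cfc f NA) := by
    have := t2.1 f hf
    rwa [star_star] at this
  have t6 : TU NA (star W) f = trO (W * cfc f NA * star W - cfc f NA) := by
    rw [TU, star_star]
  -- the functional of `N`
  obtain ⟨cc1, cc2, cc3, cc4, cc5, cc6, cc7, cc8, cc9, cc10, cc11, cc12, cc13, cc14⟩ := hCMM H N hN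
  have hA1sΩ : A1 N (star Ω) := (cc11 _ hA1).2
  have s1 := (hTFN.2 H N (star Ω) hN (uni_star hΩ) hA1sΩ).1 f hf
  rw [star_star] at s1
  have s2 : TU NA (star W') f = TU N (star Ω) f := by
    rw [TU, TU, star_star, star_star, hfA', ← hφa, hW', ← map_star, ← map_mul, ← map_mul,
      ← map_sub, ← (tr_cor hTRN hds.hi s1).2, ← hcor0]
    congr 2
    ext1
    · rfl
    · change 1 * cfc f B_A * star (1 : Ef r →L[ℂ] Ef r) - cfc f B_A = 0
      rw [star_one, mul_one, one_mul, sub_self]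
  -- the difference of the two functions
  have d1 : cfc f NB - cfc f NA = cor l (cfc f M - cfc f B_A) := by
    rw [hfA', hfB', ← hφa, ← hφa, ← map_sub, ← h0cor]
    congr 1
    ext1
    · change F - F = 0
      rw [sub_self]
    · rfl
  obtain ⟨d2, d3⟩ := tr_corE hTRN hds.hj (cfc f M - cfc f B_A)
  rw [← d1] at d2 d3
  have d4 : trO (cfc f M - cfc f B_A) = trO (cfc f M) - trO (cfc f B_A) :=
    trO_sub (isT_finE hTRN _) (isT_finE hTRN _)
  have d5 : cfc f (W * NB * star W) - cfc f NA =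
      W * ((cfc f NB - cfc f NA) * star W) + (W * cfc f NA * star W - cfc f NA) := by
    rw [hconj.2, sub_mul, mul_sub, ← mul_assoc, ← mul_assoc]
    abel
  have d6 : IsT (W * ((cfc f NB - cfc f NA) * star W)) := (d2.mul_right _).mul_left _
  rw [Tf, d5, trO_add d6 t5, ← t6, t4, s2, trO_mul_comm W (d2.mul_right _), mul_assoc, hW.1,
    mul_one, d3, d4]
  ring

end Pool.Q2
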