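import Pool.Agent.Work.MP_8c7e5b_q2.Interface3

/-! # Block U0: Q1 gives the Lipschitz bound for bounded normal operators -/

open MeasureTheory Complex Filter Topology
open scoped ComplexOrder InnerProductSpace ComplexConjugate BoundedContinuousFunction ZeroAtInfty

set_option autoImplicit false
set_option linter.unusedSectionVars false

universe v

namespace Pool.Q2

open Pool.Bes

namespace U0Aux

variable {H : Type v} [NormedAddCommGroup H] [InnerProductSpace ℂ H] [CompleteSpace H]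

/-- a continuous function with compact support as an element of `C₀` -/
noncomputable def c0 (f : ℂ → ℂ) (hf : Continuous f) (hs : HasCompactSupport f) : C₀(ℂ, ℂ) :=
  ⟨⟨f, hf⟩, hs.is_zero_at_infty⟩

/-- the calculus of a bounded normal operator -/
noncomputable def cN (N : H →L[ℂ] H) (hN : IsStarNormal N) :
    C₀(ℂ, ℂ) →⋆ₙₐ[ℂ] (H →L[ℂ] H) where
  toFun f := cfc (fun z => f z) N
  map_smul' c f := by
    exact cfc_const_mul c (fun z => f z) N (map_continuous f).continuousOn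
  map_zero' := by
    exact cfc_const_zero ℂ N
  map_add' f g := by
    exact cfc_add (a := N) (fun z => f z) (fun z => g z) (map_continuous f).continuousOn
      (map_continuous g).continuousOn
  map_mul' f g := by
    exact cfc_mul (fun z => f z) (fun z => g z) N (map_continuous f).continuousOn
      (map_continuous g).continuousOn
  map_star' f := by
    exact cfc_star (fun z => f z) N

theorem cN_apply (N : H →L[ℂ] H) (hN : IsStarNormal N) (f : C₀(ℂ, ℂ)) :
    cN N hN f = cfc (fun z => f z) N := rfl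

/-- cut-off -/
noncomputable def ct (R : ℝ) (z : ℂ) : ℂ := ((max 0 (min 1 (R + 1 - ‖z‖)) : ℝ) : ℂ)

theorem ct_cont (R : ℝ) : Continuous (ct R) := by
  unfold ct; fun_prop

theorem ct_one {R : ℝ} {z : ℂ} (h : ‖z‖ ≤ R) : ct R z = 1 := by
  unfold ct
  rw [min_eq_left (by linarith), max_eq_right zero_le_one, Complex.ofReal_one]

theorem ct_supp (R : ℝ) : HasCompactSupport (ct R) := by
  refine HasCompactSupport.intro (isCompact_closedBall (0 : ℂ) (R + 1)) fun z hz => ?_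
  rw [Metric.mem_closedBall, dist_zero_right, not_le] at hz
  unfold ct
  rw [max_eq_left ((min_le_right _ _).trans (by linarith)), Complex.ofReal_zero]

theorem norm_le_of_mem {N : H →L[ℂ] H} {z : ℂ} (hz : z ∈ spectrum ℂ N) : ‖z‖ ≤ ‖N‖ := by
  refine (spectrum.norm_le_norm_mul_of_mem hz).trans ?_
  have h5 : ‖(1 : H →L[ℂ] H)‖ ≤ 1 := ContinuousLinearMap.norm_id_le
  have h6 := mul_le_mul_of_nonneg_left h5 (norm_nonneg N)
  linarith

theorem cfc_one_of (N : H →L[ℂ] H) (hN : IsStarNormal N) (f : ℂ → ℂ)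
    (h : ∀ z : ℂ, ‖z‖ ≤ ‖N‖ → f z = 1) : cfc f N = 1 := by
  rw [← cfc_const_one ℂ N]
  exact cfc_congr fun z hz => h z (norm_le_of_mem hz)

theorem cfc_id_of (N : H →L[ℂ] H) (hN : IsStarNormal N) (f : ℂ → ℂ)
    (h : ∀ z : ℂ, ‖z‖ ≤ ‖N‖ → f z = z) : cfc f N = N := by
  conv_rhs => rw [← cfc_id' ℂ N]
  exact cfc_congr fun z hz => h z (norm_le_of_mem hz)

theorem mem_graph (N : H →L[ℂ] H) (x y : H) :
    (x, y) ∈ ((N : H →ₗ[ℂ] H).toPMap ⊤).graph ↔ N x = y := by
  rw [LinearPMap.mem_graph_iff]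
  constructor
  · rintro ⟨z, h1, h2⟩
    simp only at h1 h2
    rw [← h2, ← h1]
    rfl
  · intro h
    exact ⟨⟨x, Submodule.mem_top⟩, rfl, h⟩

theorem isCalc (N : H →L[ℂ] H) (hN : IsStarNormal N) :
    IsCalc ((N : H →ₗ[ℂ] H).toPMap ⊤) (cN N hN) := by
  have hct1 : cN N hN (c0 (ct ‖N‖) (ct_cont _) (ct_supp _)) = 1 :=
    cfc_one_of N hN _ fun z hz => ct_one hz
  refine ⟨fun x hx => ?_, fun x y => ?_⟩
  · have h := hx (c0 (ct ‖N‖) (ct_cont _) (ct_supp _))
    rw [hct1] at h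
    exact h
  · rw [mem_graph]
    constructor
    · intro h f g hfg
      have h1 : cN N hN g = cN N hN f * N := by
        rw [cN_apply, cN_apply]
        have h2 : (fun z => g z) = fun z : ℂ => f z * z := by
          funext z; rw [hfg z, mul_comm]
        rw [h2, cfc_mul (fun z => f z) (fun z => z) N (map_continuous f).continuousOn
          (by fun_prop), cfc_id' ℂ N]
      rw [h1, ← h]
      rfl
    · intro h
      have hs : HasCompactSupport (fun z : ℂ => z * ct ‖N‖ z) := (ct_supp ‖N‖).mul_left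
      have hc : Continuous (fun z : ℂ => z * ct ‖N‖ z) := continuous_id.mul (ct_cont _)
      have h1 := h (c0 (ct ‖N‖) (ct_cont _) (ct_supp _)) (c0 _ hc hs) fun z => rfl
      have h2 : cN N hN (c0 _ hc hs) = N :=
        cfc_id_of N hN _ fun z hz => by
          change z * ct ‖N‖ z = z
          rw [ct_one hz, mul_one]
      rw [hct1, h2] at h1
      exact h1

theorem diff (N₁ N₂ : H →L[ℂ] H) :
    Diff ((N₁ : H →ₗ[ℂ] H).toPMap ⊤) ((N₂ : H →ₗ[ℂ] H).toPMap ⊤) (N₂ - N₁) := by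
  intro x y
  rw [mem_graph, mem_graph]
  have h : (N₂ - N₁) x = N₂ x - N₁ x := rfl
  rw [h]
  constructor
  · intro h; rw [h]; abel
  · intro h
    have h2 : y - N₁ x = 0 := by
      have h3 : N₂ x = N₂ x + (y - N₁ x) := by
        conv_lhs => rw [h]
        abel
      exact left_eq_add.1 h3
    exact (sub_eq_zero.1 h2).symm

end U0Aux

open U0Aux in
theorem blk_U0 (hUTR : Stmt_UTR.{v}) : Stmt_U0.{v} := by
  intro hQ H _ _ _ _ N₁ N₂ h₁ h₂ hT
  obtain ⟨huniq, hht, -, hnuc⟩ := hUTR H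
  obtain ⟨μ, g₁, g₂, hμ, hg₁, hg₂, hF⟩ := hQ H _ _ (cN N₁ h₁) (cN N₂ h₂) (isCalc N₁ h₁)
    (isCalc N₂ h₂) (N₂ - N₁) (n1 (N₂ - N₁)) (hnuc _ hT) (diff N₁ N₂)
  refine ⟨(∫ z, ‖g₁ z‖ ∂μ) + ∫ z, ‖g₂ z‖ ∂μ, ?_⟩
  intro f hf L hL
  have hL0 : 0 ≤ L := (norm_nonneg _).trans (hL 0)
  have hC0 : 0 ≤ (∫ z, ‖g₁ z‖ ∂μ) + ∫ z, ‖g₂ z‖ ∂μ :=
    add_nonneg (integral_nonneg fun z => norm_nonneg _) (integral_nonneg fun z => norm_nonneg _)
  have hfc : Continuous f := hf.1.continuous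
  by_cases ht : IsT (cfc f N₂ - cfc f N₁)
  · have h1 := hF (c0 f hfc hf.2) hf.1 hf.2
    have h2 := hht _ ht
    have h3 : Tf N₁ N₂ f = (∫ z : ℂ, fderiv ℝ f z 1 * g₁ z ∂μ) +
        ∫ z : ℂ, fderiv ℝ f z Complex.I * g₂ z ∂μ := huniq _ _ _ h2 h1
    rw [h3]
    have key : ∀ (d : ℂ) (g : ℂ → ℂ), ‖d‖ = 1 → Integrable g μ →
        ‖∫ z : ℂ, fderiv ℝ f z d * g z ∂μ‖ ≤ L * ∫ z, ‖g z‖ ∂μ := by
      intro d g hd hg
      rw [← integral_const_mul]
      refine norm_integral_le_of_norm_le (hg.norm.const_mul L) (Eventually.of_forall fun z => ?_)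
      rw [norm_mul]
      refine mul_le_mul_of_nonneg_right ?_ (norm_nonneg _)
      refine ((fderiv ℝ f z).le_opNorm d).trans ?_
      rw [hd, mul_one]
      exact hL z
    refine (norm_add_le _ _).trans ?_
    have k1 := key 1 g₁ (by simp) hg₁
    have k2 := key Complex.I g₂ (by simp) hg₂
    calc _ ≤ L * (∫ z, ‖g₁ z‖ ∂μ) + L * ∫ z, ‖g₂ z‖ ∂μ := add_le_add k1 k2
      _ = ((∫ z, ‖g₁ z‖ ∂μ) + ∫ z, ‖g₂ z‖ ∂μ) * L := by ring
  · have h3 : Tf N₁ N₂ f = 0 := by
      unfold Tf trO toS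
      rw [dif_neg ht, tr, ALGAux.pr_zero_left]
    rw [h3, norm_zero]
    exact mul_nonneg hC0 hL0

end Pool.Q2
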