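import Pool.Agent.Work.MP_8c7e5b_q2.Interface3

/-!
# MP_8c7e5b_an, Q2: block U3 (arctan)
-/

open MeasureTheory Complex Filter Topology
open scoped ComplexOrder InnerProductSpace ComplexConjugate BoundedContinuousFunction ZeroAtInfty

set_option autoImplicit false
set_option linter.unusedSectionVars false

universe v

namespace Pool.Q2
namespace U3Aux

open Pool.Bes Pool.Bes.ALGAux Pool.Bes.AVAux

theorem one_le_norm (y : ℝ) : 1 ≤ ‖(y : ℂ) + Complex.I‖ := by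
  have h := Complex.abs_im_le_norm ((y : ℂ) + Complex.I)
  simpa using h

theorem abs_le_norm' (y : ℝ) : |y| ≤ ‖(y : ℂ) + Complex.I‖ := by
  have h := Complex.abs_re_le_norm ((y : ℂ) + Complex.I)
  simpa using h

theorem ne_zero (y : ℝ) : (y : ℂ) + Complex.I ≠ 0 := by
  have h := one_le_norm y
  intro h0
  rw [h0, norm_zero] at h
  linarith

theorem continuous_ip (e : ℂ) : Continuous (ip e) := by
  unfold ip
  fun_prop

/-- `z ↦ 1 / (exp (-v) e · z + i)` -/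
noncomputable def qf (e : ℂ) (v : ℝ) : ℂ →ᵇ ℂ :=
  BoundedContinuousFunction.ofNormedAddCommGroup
    (fun z => 1 / (((Real.exp (-v) * ip e z : ℝ) : ℂ) + Complex.I))
    (by
      refine continuous_const.div ?_ fun z => ne_zero _
      exact (Complex.continuous_ofReal.comp (continuous_const.mul (continuous_ip e))).add
        continuous_const) 1
    (fun z => by
      rw [norm_div, norm_one]
      exact div_le_one_of_le₀ (one_le_norm _) (norm_nonneg _))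

theorem qf_apply (e : ℂ) (v : ℝ) (z : ℂ) :
    qf e v z = 1 / (((Real.exp (-v) * ip e z : ℝ) : ℂ) + Complex.I) := rfl

theorem norm_qf_le (e : ℂ) (v : ℝ) : ‖qf e v‖ ≤ 1 :=
  BoundedContinuousFunction.norm_ofNormedAddCommGroup_le _ zero_le_one _

theorem dist_qf_le (e : ℂ) (v w : ℝ) : dist (qf e v) (qf e w) ≤ |1 - Real.exp (w - v)| := by
  rw [BoundedContinuousFunction.dist_le (abs_nonneg _)]
  intro z
  rw [qf_apply, qf_apply, dist_eq_norm]
  set y : ℝ := Real.exp (-w) * ip e z with hy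
  have h1 : Real.exp (-v) * ip e z = Real.exp (w - v) * y := by
    rw [hy, ← mul_assoc, ← Real.exp_add]
    congr 2
    ring
  rw [h1]
  set y' : ℝ := Real.exp (w - v) * y with hy'
  have h2 : 1 / ((y' : ℂ) + Complex.I) - 1 / ((y : ℂ) + Complex.I) =
      ((y - y' : ℝ) : ℂ) / (((y' : ℂ) + Complex.I) * ((y : ℂ) + Complex.I)) := by
    have := ne_zero y
    have := ne_zero y'
    field_simp
    push_cast
    ring
  rw [h2, norm_div, norm_mul, Complex.norm_real, Real.norm_eq_abs]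
  have h3 : |y - y'| = |1 - Real.exp (w - v)| * |y| := by
    rw [← abs_mul, hy']
    congr 1
    ring
  have h4 := one_le_norm y'
  have h5 := abs_le_norm' y
  rw [h3, div_le_iff₀ (by have := one_le_norm y; positivity)]
  have h6 : |y| ≤ ‖(y' : ℂ) + Complex.I‖ * ‖(y : ℂ) + Complex.I‖ := by
    calc |y| ≤ 1 * ‖(y : ℂ) + Complex.I‖ := by rw [one_mul]; exact h5
      _ ≤ _ := mul_le_mul_of_nonneg_right h4 (norm_nonneg _)
  exact mul_le_mul_of_nonneg_left h6 (abs_nonneg _)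

theorem continuous_qf (e : ℂ) : Continuous (qf e) := by
  rw [continuous_iff_continuousAt]
  intro w
  rw [ContinuousAt, tendsto_iff_dist_tendsto_zero]
  refine squeeze_zero (fun _ => dist_nonneg) (fun v => dist_qf_le e v w) ?_
  have h : Continuous fun v : ℝ => |1 - Real.exp (w - v)| := by fun_prop
  have h1 := h.tendsto w
  simpa using h1

/-- `z ↦ y / (1 + y ^ 2)`, `y = exp (-v) e · z` -/
noncomputable def gf (e : ℂ) (v : ℝ) : ℂ →ᵇ ℂ := (1 / 2 : ℂ) • (qf e v - qf (-e) v)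

theorem ip_neg (e z : ℂ) : ip (-e) z = -ip e z := by
  unfold ip
  simp
  ring

theorem gf_apply (e : ℂ) (v : ℝ) (z : ℂ) : gf e v z =
    ((Real.exp (-v) * ip e z / (1 + (Real.exp (-v) * ip e z) ^ 2) : ℝ) : ℂ) := by
  have h0 : gf e v z = (1 / 2 : ℂ) * (qf e v z - qf (-e) v z) := rfl
  rw [h0, qf_apply, qf_apply, ip_neg, mul_neg]
  set y : ℝ := Real.exp (-v) * ip e z
  have h1 := ne_zero y
  have h2 := ne_zero (-y)
  have h3 : (1 : ℂ) + (y : ℂ) ^ 2 ≠ 0 := by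
    have : (0 : ℝ) < 1 + y ^ 2 := by positivity
    exact_mod_cast this.ne'
  push_cast at h2 ⊢
  have h4 : (1 : ℂ) + (y : ℂ) ^ 2 = -(((y : ℂ) + Complex.I) * (-(y : ℂ) + Complex.I)) := by
    have := Complex.I_sq
    linear_combination this
  rw [h4]
  field_simp
  ring

theorem continuous_gf (e : ℂ) : Continuous (gf e) := by
  have h : Continuous fun v => qf e v - qf (-e) v := (continuous_qf e).sub (continuous_qf (-e))
  exact h.fun_const_smul (1 / 2 : ℂ)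

/-- the integral -/
noncomputable def af (e : ℂ) (u : ℝ) : ℂ →ᵇ ℂ := ∫ v in (0 : ℝ)..u, gf e v

theorem af_apply (e : ℂ) (u : ℝ) (z : ℂ) : af e u z =
    ((Real.arctan (ip e z) - Real.arctan (Real.exp (-u) * ip e z) : ℝ) : ℂ) := by
  have h1 : af e u z = ∫ v in (0 : ℝ)..u, gf e v z := by
    have h2 := (BoundedContinuousFunction.evalCLM ℂ z (α := ℂ) (β := ℂ)).intervalIntegral_comp_comm
      ((continuous_gf e).intervalIntegrable (μ := volume) 0 u)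
    exact h2.symm
  have hd : ∀ v : ℝ, HasDerivAt (fun v : ℝ => ((-Real.arctan (Real.exp (-v) * ip e z) : ℝ) : ℂ))
      (gf e v z) v := by
    intro v
    rw [gf_apply]
    refine HasDerivAt.ofReal_comp ?_
    have h3 : HasDerivAt (fun v : ℝ => Real.exp (-v) * ip e z)
        (Real.exp (-v) * (-1) * ip e z) v :=
      ((hasDerivAt_neg v).exp).mul_const _
    have h4 := (h3.arctan).neg
    refine h4.congr_deriv ?_
    field_simp
  rw [h1, intervalIntegral.integral_eq_sub_of_hasDerivAt (fun v _ => hd v)]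
  · rw [neg_zero, Real.exp_zero, one_mul]
    push_cast
    ring
  · refine Continuous.intervalIntegrable ?_ _ _
    exact (BoundedContinuousFunction.evalCLM ℂ z (α := ℂ) (β := ℂ)).continuous.comp
      (continuous_gf e)

theorem norm_af_le (e : ℂ) (u : ℝ) : ‖af e u‖ ≤ Real.pi := by
  rw [BoundedContinuousFunction.norm_le Real.pi_pos.le]
  intro z
  rw [af_apply, Complex.norm_real, Real.norm_eq_abs, abs_le]
  have h1 := Real.arctan_lt_pi_div_two (ip e z)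
  have h2 := Real.neg_pi_div_two_lt_arctan (ip e z)
  have h3 := Real.arctan_lt_pi_div_two (Real.exp (-u) * ip e z)
  have h4 := Real.neg_pi_div_two_lt_arctan (Real.exp (-u) * ip e z)
  constructor <;> linarith

theorem abs_ip_le (e z : ℂ) : |ip e z| ≤ ‖e‖ * ‖z‖ := by
  have h1 : ip e z = (conj e * z).re := by
    unfold ip
    simp
  rw [h1]
  refine (Complex.abs_re_le_norm _).trans (le_of_eq ?_)
  rw [norm_mul, RCLike.norm_conj]

theorem abs_arctan_le (x : ℝ) : |Real.arctan x| ≤ |x| := by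
  rcases le_total 0 x with h | h
  · rw [abs_of_nonneg h, abs_of_nonneg (Real.arctan_nonneg.2 h)]
    by_contra hc
    push Not at hc
    have h1 : 0 < Real.arctan x := lt_of_le_of_lt h hc
    have h2 := Real.lt_tan h1 (Real.arctan_lt_pi_div_two x)
    rw [Real.tan_arctan] at h2
    linarith
  · have h0 : 0 ≤ -x := by linarith
    have h0' : 0 ≤ Real.arctan (-x) := Real.arctan_nonneg.2 h0
    rw [← abs_neg, ← Real.arctan_neg, ← abs_neg x, abs_of_nonneg h0, abs_of_nonneg h0']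
    by_contra hc
    push Not at hc
    have h1 : 0 < Real.arctan (-x) := lt_of_le_of_lt h0 hc
    have h2 := Real.lt_tan h1 (Real.arctan_lt_pi_div_two _)
    rw [Real.tan_arctan] at h2
    linarith

theorem af_tendsto (e : ℂ) (h : ℂ →ᵇ ℂ) (hh : ∀ z : ℂ, h z = (Real.arctan (ip e z) : ℝ)) :
    TendstoLocallyUniformly (fun (n : ℕ) z => af e n z) (fun z => h z) atTop := by
  rw [Metric.tendstoLocallyUniformly_iff]
  intro ε hε z
  refine ⟨Metric.ball z 1, Metric.ball_mem_nhds z one_pos, ?_⟩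
  have hlim : Tendsto (fun n : ℕ => Real.exp (-(n : ℝ)) * (‖e‖ * (‖z‖ + 1))) atTop (𝓝 0) := by
    have h1 : Tendsto (fun n : ℕ => Real.exp (-(n : ℝ))) atTop (𝓝 0) :=
      Real.tendsto_exp_neg_atTop_nhds_zero.comp tendsto_natCast_atTop_atTop
    have h2 := h1.mul_const (‖e‖ * (‖z‖ + 1))
    rwa [zero_mul] at h2
  filter_upwards [hlim.eventually (gt_mem_nhds hε)] with n hn y hy
  rw [hh, af_apply, dist_eq_norm, ← Complex.ofReal_sub, Complex.norm_real, Real.norm_eq_abs]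
  have h1 : Real.arctan (ip e y) - (Real.arctan (ip e y) -
      Real.arctan (Real.exp (-(n : ℝ)) * ip e y)) = Real.arctan (Real.exp (-(n : ℝ)) * ip e y) := by
    ring
  rw [h1]
  refine lt_of_le_of_lt ?_ hn
  refine (abs_arctan_le _).trans ?_
  rw [abs_mul, abs_of_pos (Real.exp_pos _)]
  refine mul_le_mul_of_nonneg_left ?_ (Real.exp_pos _).le
  refine (abs_ip_le e y).trans (mul_le_mul_of_nonneg_left ?_ (norm_nonneg _))
  have h2 : ‖y - z‖ < 1 := by rwa [← dist_eq_norm]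
  have h3 : ‖y‖ ≤ ‖y - z‖ + ‖z‖ := by
    calc ‖y‖ = ‖(y - z) + z‖ := by rw [sub_add_cancel]
      _ ≤ _ := norm_add_le _ _
  linarith

section Op

variable {H : Type v} [NormedAddCommGroup H] [InnerProductSpace ℂ H] [CompleteSpace H]

theorem isT_dt {D : H →L[ℂ] H} (hD : IsT D) (e : ℂ) : IsT (dt e D) :=
  ((hD.smul _).add (hD.star.smul _)).smul _

/-- a bounded star homomorphism as a continuous linear map -/
noncomputable def cl (Φ : (ℂ →ᵇ ℂ) →⋆ₐ[ℂ] (H →L[ℂ] H)) (h : ∀ F, ‖Φ F‖ ≤ ‖F‖) :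
    (ℂ →ᵇ ℂ) →L[ℂ] (H →L[ℂ] H) :=
  LinearMap.mkContinuous Φ.toAlgHom.toLinearMap 1 (fun F => by
    rw [one_mul]
    exact h F)

theorem cl_apply (Φ : (ℂ →ᵇ ℂ) →⋆ₐ[ℂ] (H →L[ℂ] H)) (h : ∀ F, ‖Φ F‖ ≤ ‖F‖) (F : ℂ →ᵇ ℂ) :
    cl Φ h F = Φ F := rfl

theorem continuous_Phi (Φ : (ℂ →ᵇ ℂ) →⋆ₐ[ℂ] (H →L[ℂ] H)) (h : ∀ F, ‖Φ F‖ ≤ ‖F‖) (e : ℂ) :
    Continuous fun v : ℝ => Φ (qf e v) := (cl Φ h).continuous.comp (continuous_qf e)

/-- the integrand -/
noncomputable def Sf (Φ₁ Φ₂ : (ℂ →ᵇ ℂ) →⋆ₐ[ℂ] (H →L[ℂ] H)) (D : H →L[ℂ] H) (e : ℂ) (v : ℝ) :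
    S1 H := ((Real.exp (-v) : ℝ) : ℂ) • lm (Φ₂ (qf e v)) (rm (Φ₁ (qf e v)) (toS (dt e D)))

variable (Φ₁ Φ₂ : (ℂ →ᵇ ℂ) →⋆ₐ[ℂ] (H →L[ℂ] H)) (D : H →L[ℂ] H)

theorem continuous_Sf (h1 : ∀ F, ‖Φ₁ F‖ ≤ ‖F‖) (h2 : ∀ F, ‖Φ₂ F‖ ≤ ‖F‖) (e : ℂ) :
    Continuous (Sf Φ₁ Φ₂ D e) := by
  have h3 : Continuous fun v : ℝ => ((Real.exp (-v) : ℝ) : ℂ) :=
    Complex.continuous_ofReal.comp (Real.continuous_exp.comp continuous_neg)
  have h4 : Continuous fun v : ℝ => lm (Φ₂ (qf e v)) (rm (Φ₁ (qf e v)) (toS (dt e D))) :=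
    continuous_lm (continuous_Phi Φ₂ h2 e)
      (continuous_rm (continuous_Phi Φ₁ h1 e) continuous_const)
  exact h3.smul h4

theorem norm_Sf_le (h1 : ∀ F, ‖Φ₁ F‖ ≤ ‖F‖) (h2 : ∀ F, ‖Φ₂ F‖ ≤ ‖F‖) (e : ℂ) (v : ℝ) :
    ‖Sf Φ₁ Φ₂ D e v‖ ≤ Real.exp (-v) * n1 (dt e D) := by
  unfold Sf
  rw [norm_smul, Complex.norm_real, Real.norm_of_nonneg (Real.exp_pos _).le]
  refine mul_le_mul_of_nonneg_left ?_ (Real.exp_pos _).le
  have h3 : ‖Φ₂ (qf e v)‖ ≤ 1 := (h2 _).trans (norm_qf_le e v)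
  have h4 : ‖Φ₁ (qf e v)‖ ≤ 1 := (h1 _).trans (norm_qf_le e v)
  calc ‖lm (Φ₂ (qf e v)) (rm (Φ₁ (qf e v)) (toS (dt e D)))‖
      ≤ ‖Φ₂ (qf e v)‖ * ‖rm (Φ₁ (qf e v)) (toS (dt e D))‖ := norm_lm_le _ _
    _ ≤ 1 * ‖rm (Φ₁ (qf e v)) (toS (dt e D))‖ := mul_le_mul_of_nonneg_right h3 (norm_nonneg _)
    _ ≤ 1 * (‖Φ₁ (qf e v)‖ * ‖toS (dt e D)‖) :=
        mul_le_mul_of_nonneg_left (norm_rm_le _ _) zero_le_one
    _ ≤ 1 * (1 * ‖toS (dt e D)‖) :=
        mul_le_mul_of_nonneg_left (mul_le_mul_of_nonneg_right h4 (norm_nonneg _)) zero_le_one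
    _ = n1 (dt e D) := by rw [one_mul, one_mul, n1]

theorem op_Sf (hD : IsT D) (e : ℂ) (v : ℝ) : op (Sf Φ₁ Φ₂ D e v) =
    ((Real.exp (-v) : ℝ) : ℂ) • (Φ₂ (qf e v) * (dt e D * Φ₁ (qf e v))) := by
  unfold Sf
  rw [map_smul, op_lm, op_rm, op_toS (isT_dt hD e)]

end Op

section Main

variable {H : Type v} [NormedAddCommGroup H] [InnerProductSpace ℂ H] [CompleteSpace H]

theorem diff_qf {Φ₁ Φ₂ : (ℂ →ᵇ ℂ) →⋆ₐ[ℂ] (H →L[ℂ] H)} {D : H →L[ℂ] H} (hD : IsT D)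
    (hU : ∀ (e : ℂ) (c : ℝ) (r : ℂ →ᵇ ℂ), 0 < c →
      (∀ z : ℂ, r z = 1 / ((ip e z : ℝ) + Complex.I * c)) →
      Φ₂ r - Φ₁ r = -(Φ₂ r * dt e D * Φ₁ r)) (e : ℂ) (v : ℝ) :
    Φ₂ (qf e v) - Φ₁ (qf e v) = -op (Sf Φ₁ Φ₂ D e v) := by
  have hs : ((Real.exp (-v) : ℝ) : ℂ) ≠ 0 := by
    exact_mod_cast (Real.exp_pos (-v)).ne'
  set s : ℂ := ((Real.exp (-v) : ℝ) : ℂ) with hsdef
  have hss : s * ((Real.exp v : ℝ) : ℂ) = 1 := by
    rw [hsdef, ← Complex.ofReal_mul, ← Real.exp_add, neg_add_cancel, Real.exp_zero,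
      Complex.ofReal_one]
  have h1 := hU e (Real.exp v) (s • qf e v) (Real.exp_pos v) (by
    intro z
    have h0 : (s • qf e v) z = s * qf e v z := rfl
    have h2 := ne_zero (Real.exp (-v) * ip e z)
    have h3 : ((Real.exp (-v) * ip e z : ℝ) : ℂ) + Complex.I =
        s * (((ip e z : ℝ) : ℂ) + Complex.I * ((Real.exp v : ℝ) : ℂ)) := by
      rw [mul_add, mul_left_comm, hss, mul_one, hsdef]
      push_cast
      ring
    rw [h0, qf_apply, h3]
    rw [h3] at h2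
    have h4 := right_ne_zero_of_mul h2
    field_simp)
  rw [map_smul, map_smul, ← smul_sub, smul_mul_assoc, smul_mul_assoc, mul_smul_comm, ← smul_neg,
    ← smul_neg] at h1
  have h2 := smul_right_injective (H →L[ℂ] H) hs h1
  rw [h2, op_Sf Φ₁ Φ₂ D hD e v, ← hsdef, mul_assoc, smul_neg]

end Main

end U3Aux

open U3Aux Pool.Bes in
theorem blk_U3 (hU2 : Stmt_U2.{v}) : Stmt_U3.{v} := by
  intro H _ _ _ N₁ N₂ π₁ π₂ Φ₁ Φ₂ D hc₁ hc₂ he₁ he₂ hdiff hD e h hh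
  have hU := hU2 H N₁ N₂ π₁ π₂ Φ₁ Φ₂ D hc₁ hc₂ he₁ he₂ hdiff
  have hq := fun e v => diff_qf (Φ₁ := Φ₁) (Φ₂ := Φ₂) hD hU e v
  -- the integrand
  let f : ℝ → S1 H := fun v => (1 / 2 : ℂ) • (Sf Φ₁ Φ₂ D (-e) v - Sf Φ₁ Φ₂ D e v)
  have hfc : Continuous f := by
    have h0 : Continuous fun v => Sf Φ₁ Φ₂ D (-e) v - Sf Φ₁ Φ₂ D e v :=
      (continuous_Sf Φ₁ Φ₂ D he₁.norm he₂.norm (-e)).sub
        (continuous_Sf Φ₁ Φ₂ D he₁.norm he₂.norm e)
    exact h0.fun_const_smul (1 / 2 : ℂ)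
  set C : ℝ := n1 (dt (-e) D) + n1 (dt e D) with hC
  have hC0 : 0 ≤ C := add_nonneg (n1_nonneg _) (n1_nonneg _)
  have hfn : ∀ v, ‖f v‖ ≤ C * Real.exp (-v) := by
    intro v
    have h1 := norm_Sf_le Φ₁ Φ₂ D he₁.norm he₂.norm (-e) v
    have h2 := norm_Sf_le Φ₁ Φ₂ D he₁.norm he₂.norm e v
    have h3 : ‖f v‖ ≤ 1 * ‖Sf Φ₁ Φ₂ D (-e) v - Sf Φ₁ Φ₂ D e v‖ := by
      show ‖(1 / 2 : ℂ) • (Sf Φ₁ Φ₂ D (-e) v - Sf Φ₁ Φ₂ D e v)‖ ≤ _
      rw [norm_smul]
      refine mul_le_mul_of_nonneg_right ?_ (norm_nonneg _)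
      norm_num
    have h4 := norm_sub_le (Sf Φ₁ Φ₂ D (-e) v) (Sf Φ₁ Φ₂ D e v)
    have h5 : C * Real.exp (-v) = Real.exp (-v) * n1 (dt (-e) D) + Real.exp (-v) * n1 (dt e D) := by
      rw [hC]
      ring
    rw [one_mul] at h3
    linarith
  have hfop : ∀ v, op (f v) = Φ₂ (gf e v) - Φ₁ (gf e v) := by
    intro v
    show op ((1 / 2 : ℂ) • (Sf Φ₁ Φ₂ D (-e) v - Sf Φ₁ Φ₂ D e v)) = _
    unfold gf
    rw [map_smul, map_sub, map_smul, map_smul, map_sub, map_sub, ← smul_sub]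
    congr 1
    have h1 := hq e v
    have h2 := hq (-e) v
    have h3 : Φ₂ (qf e v) - Φ₂ (qf (-e) v) - (Φ₁ (qf e v) - Φ₁ (qf (-e) v)) =
        (Φ₂ (qf e v) - Φ₁ (qf e v)) - (Φ₂ (qf (-e) v) - Φ₁ (qf (-e) v)) := by abel
    rw [h3, h1, h2]
    abel
  -- the integrals
  let J : ℕ → S1 H := fun n => ∫ v in (0 : ℝ)..n, f v
  have hJop : ∀ n, op (J n) = Φ₂ (af e n) - Φ₁ (af e n) := by
    intro n
    have h1 : op (J n) = ∫ v in (0 : ℝ)..n, op (f v) :=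
      ((op (H := H)).intervalIntegral_comp_comm (hfc.intervalIntegrable (μ := volume) 0 n)).symm
    have h2 : (∫ v in (0 : ℝ)..n, op (f v)) =
        ∫ v in (0 : ℝ)..n, (cl Φ₂ he₂.norm - cl Φ₁ he₁.norm) (gf e v) :=
      intervalIntegral.integral_congr fun v _ => hfop v
    rw [h1, h2, ContinuousLinearMap.intervalIntegral_comp_comm _
      ((continuous_gf e).intervalIntegrable (μ := volume) 0 n)]
    rfl
  have hJ : CauchySeq J := by
    refine cauchySeq_of_le_geometric (Real.exp (-1)) C (by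
      rw [Real.exp_lt_one_iff]
      norm_num) fun n => ?_
    rw [dist_eq_norm, ← norm_neg, neg_sub]
    have h1 : J (n + 1) - J n = ∫ v in (n : ℝ)..((n + 1 : ℕ) : ℝ), f v :=
      intervalIntegral.integral_interval_sub_left (hfc.intervalIntegrable _ _)
        (hfc.intervalIntegrable _ _)
    rw [h1]
    have h2 := intervalIntegral.norm_integral_le_of_norm_le_const (f := f) (a := (n : ℝ))
      (b := ((n + 1 : ℕ) : ℝ)) (C := C * Real.exp (-(n : ℝ))) (fun v hv => by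
        refine (hfn v).trans (mul_le_mul_of_nonneg_left ?_ hC0)
        rw [Set.uIoc_of_le (by push_cast; linarith)] at hv
        exact Real.exp_le_exp.2 (neg_le_neg hv.1.le))
    have h3 : |((n + 1 : ℕ) : ℝ) - n| = 1 := by
      push_cast
      rw [add_sub_cancel_left, abs_one]
    rw [h3, mul_one] at h2
    refine h2.trans (le_of_eq ?_)
    rw [← Real.exp_nat_mul]
    congr 2
    ring
  obtain ⟨X, hX⟩ := cauchySeq_tendsto_of_complete hJ
  refine ⟨X, ?_⟩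
  refine ContinuousLinearMap.ext fun x => ?_
  have h1 : Tendsto (fun n => op (J n) x) atTop (𝓝 (op X x)) :=
    ((ContinuousLinearMap.apply ℂ H x).continuous.tendsto _).comp
      (((op (H := H)).continuous.tendsto X).comp hX)
  have h2 : Tendsto (fun n : ℕ => Φ₂ (af e n) x - Φ₁ (af e n) x) atTop (𝓝 (Φ₂ h x - Φ₁ h x)) :=
    (he₂.lim (fun n => af e n) h Real.pi (fun n => norm_af_le e n) (af_tendsto e h hh) x).sub
      (he₁.lim (fun n => af e n) h Real.pi (fun n => norm_af_le e n) (af_tendsto e h hh) x)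
  have h3 : (fun n => op (J n) x) = fun n : ℕ => Φ₂ (af e n) x - Φ₁ (af e n) x := by
    funext n
    rw [hJop]
    rfl
  rw [h3] at h1
  exact tendsto_nhds_unique h1 h2

end Pool.Q2
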