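import Pool.Agent.Work.MP_8c7e5b_q2.Interface4
import Pool.Agent.Work.MP_8c7e5b_q2.U3

/-!
# MP_8c7e5b_an, Q2: block U3n (the norm bound in U3)
-/

open MeasureTheory Complex Filter Topology
open scoped ComplexOrder InnerProductSpace ComplexConjugate BoundedContinuousFunction ZeroAtInfty

set_option autoImplicit false
set_option linter.unusedSectionVars false

universe v

namespace Pool.Q2

namespace U3nAux

open Pool.Bes

theorem int_exp (n : ℕ) : ∫ v in (0 : ℝ)..n, Real.exp (-v) = 1 - Real.exp (-(n : ℝ)) := by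
  have h1 : ∀ v : ℝ, HasDerivAt (fun v : ℝ => -Real.exp (-v)) (Real.exp (-v)) v := by
    intro v
    have h2 := ((hasDerivAt_neg v).exp).neg
    refine h2.congr_deriv ?_
    ring
  rw [intervalIntegral.integral_eq_sub_of_hasDerivAt (fun v _ => h1 v)
    ((by fun_prop : Continuous fun v : ℝ => Real.exp (-v)).intervalIntegrable _ _)]
  rw [neg_zero, Real.exp_zero]
  ring

theorem dt_neg' {H : Type v} [NormedAddCommGroup H] [InnerProductSpace ℂ H] [CompleteSpace H]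
    (s : ℂ) (N : H →L[ℂ] H) : dt (-s) N = -dt s N := by
  simp only [dt, map_neg]
  module

end U3nAux

open U3Aux U3nAux Pool.Bes in
theorem blk_U3n (hU2 : Stmt_U2.{v}) : Stmt_U3n.{v} := by
  intro H _ _ _ N₁ N₂ π₁ π₂ Φ₁ Φ₂ D hc₁ hc₂ he₁ he₂ hdiff hD e h hh
  have hU := hU2 H N₁ N₂ π₁ π₂ Φ₁ Φ₂ D hc₁ hc₂ he₁ he₂ hdiff
  have hq := fun e v => diff_qf (Φ₁ := Φ₁) (Φ₂ := Φ₂) hD hU e v
  let f : ℝ → S1 H := fun v => (1 / 2 : ℂ) • (Sf Φ₁ Φ₂ D (-e) v - Sf Φ₁ Φ₂ D e v)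
  have hfc : Continuous f := by
    have h0 : Continuous fun v => Sf Φ₁ Φ₂ D (-e) v - Sf Φ₁ Φ₂ D e v :=
      (continuous_Sf Φ₁ Φ₂ D he₁.norm he₂.norm (-e)).sub
        (continuous_Sf Φ₁ Φ₂ D he₁.norm he₂.norm e)
    exact h0.fun_const_smul (1 / 2 : ℂ)
  set C : ℝ := n1 (dt e D) with hC
  have hC0 : 0 ≤ C := n1_nonneg _
  have hneg : n1 (dt (-e) D) = C := by
    rw [dt_neg', n1_neg (isT_dt hD e)]
  have hfn : ∀ v, ‖f v‖ ≤ C * Real.exp (-v) := by
    intro v
    have h1 := norm_Sf_le Φ₁ Φ₂ D he₁.norm he₂.norm (-e) v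
    have h2 := norm_Sf_le Φ₁ Φ₂ D he₁.norm he₂.norm e v
    have h3 : ‖f v‖ ≤ (1 / 2) * ‖Sf Φ₁ Φ₂ D (-e) v - Sf Φ₁ Φ₂ D e v‖ := by
      show ‖(1 / 2 : ℂ) • (Sf Φ₁ Φ₂ D (-e) v - Sf Φ₁ Φ₂ D e v)‖ ≤ _
      rw [norm_smul]
      refine mul_le_mul_of_nonneg_right ?_ (norm_nonneg _)
      norm_num
    have h4 := norm_sub_le (Sf Φ₁ Φ₂ D (-e) v) (Sf Φ₁ Φ₂ D e v)
    rw [hneg] at h1
    rw [← hC] at h2
    nlinarith
  have hfop : ∀ v, op (f v) = Φ₂ (gf e v) - Φ₁ (gf e v) := by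
    intro v
    show op ((1 / 2 : ℂ) • (Sf Φ₁ Φ₂ D (-e) v - Sf Φ₁ Φ₂ D e v)) = _
    unfold gf
    rw [map_smul, map_sub, map_smul, map_smul, map_sub, map_sub, ← smul_sub]
    refine congrArg _ ?_
    have h1 := hq e v
    have h2 := hq (-e) v
    have h3 : Φ₂ (qf e v) - Φ₂ (qf (-e) v) - (Φ₁ (qf e v) - Φ₁ (qf (-e) v)) =
        (Φ₂ (qf e v) - Φ₁ (qf e v)) - (Φ₂ (qf (-e) v) - Φ₁ (qf (-e) v)) := by abel
    rw [h3, h1, h2]
    abel
  let J : ℕ → S1 H := fun n => ∫ v in (0 : ℝ)..n, f v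
  have hJop : ∀ n, op (J n) = Φ₂ (af e n) - Φ₁ (af e n) := by
    intro n
    have h1 : op (J n) = ∫ v in (0 : ℝ)..n, op (f v) :=
      ((op (H := H)).intervalIntegral_comp_comm (hfc.intervalIntegrable (μ := volume) 0 n)).symm
    have h2 : (∫ v in (0 : ℝ)..n, op (f v)) =
        ∫ v in (0 : ℝ)..n, (cl Φ₂ he₂.norm - cl Φ₁ he₁.norm) (gf e v) :=
      intervalIntegral.integral_congr fun v _ => hfop v
    rw [h1, h2, ContinuousLinearMap.intervalIntegral_comp_comm _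
      ((continuous_gf e).intervalIntegrable (μ := volume) 0 n)]
    rfl
  have hJn : ∀ n, ‖J n‖ ≤ C := by
    intro n
    have h1 : ‖J n‖ ≤ ∫ v in (0 : ℝ)..n, C * Real.exp (-v) :=
      intervalIntegral.norm_integral_le_of_norm_le (Nat.cast_nonneg n)
        (Filter.Eventually.of_forall fun v _ => hfn v)
        ((by fun_prop : Continuous fun v : ℝ => C * Real.exp (-v)).intervalIntegrable _ _)
    rw [intervalIntegral.integral_const_mul, int_exp] at h1
    have h2 := Real.exp_pos (-(n : ℝ))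
    nlinarith
  have hJ : CauchySeq J := by
    refine cauchySeq_of_le_geometric (Real.exp (-1)) C (by
      rw [Real.exp_lt_one_iff]
      norm_num) fun n => ?_
    rw [dist_eq_norm, ← norm_neg, neg_sub]
    have h1 : J (n + 1) - J n = ∫ v in (n : ℝ)..((n + 1 : ℕ) : ℝ), f v :=
      intervalIntegral.integral_interval_sub_left (hfc.intervalIntegrable _ _)
        (hfc.intervalIntegrable _ _)
    rw [h1]
    have h2 := intervalIntegral.norm_integral_le_of_norm_le_const (f := f) (a := (n : ℝ))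
      (b := ((n + 1 : ℕ) : ℝ)) (C := C * Real.exp (-(n : ℝ))) (fun v hv => by
        refine (hfn v).trans (mul_le_mul_of_nonneg_left ?_ hC0)
        rw [Set.uIoc_of_le (by push_cast; linarith)] at hv
        exact Real.exp_le_exp.2 (neg_le_neg hv.1.le))
    have h3 : |((n + 1 : ℕ) : ℝ) - n| = 1 := by
      push_cast
      rw [add_sub_cancel_left, abs_one]
    rw [h3, mul_one] at h2
    refine h2.trans (le_of_eq ?_)
    rw [← Real.exp_nat_mul]
    congr 2
    ring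
  obtain ⟨X, hX⟩ := cauchySeq_tendsto_of_complete hJ
  have hXn : ‖X‖ ≤ C := le_of_tendsto hX.norm (Filter.Eventually.of_forall hJn)
  have hop : op X = Φ₂ h - Φ₁ h := by
    refine ContinuousLinearMap.ext fun x => ?_
    have h1 : Tendsto (fun n => op (J n) x) atTop (𝓝 (op X x)) :=
      ((ContinuousLinearMap.apply ℂ H x).continuous.tendsto _).comp
        (((op (H := H)).continuous.tendsto X).comp hX)
    have h2 : Tendsto (fun n : ℕ => Φ₂ (af e n) x - Φ₁ (af e n) x) atTop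
        (𝓝 (Φ₂ h x - Φ₁ h x)) :=
      (he₂.lim (fun n => af e n) h Real.pi (fun n => norm_af_le e n) (af_tendsto e h hh) x).sub
        (he₁.lim (fun n => af e n) h Real.pi (fun n => norm_af_le e n) (af_tendsto e h hh) x)
    have h3 : (fun n => op (J n) x) = fun n : ℕ => Φ₂ (af e n) x - Φ₁ (af e n) x := by
      funext n
      rw [hJop]
      rfl
    rw [h3] at h1
    exact tendsto_nhds_unique h1 h2
  refine ⟨⟨X, hop⟩, ?_⟩
  rw [← hop, n1_op]
  exact hXn

end Pool.Q2
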