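import Pool.Agent.Work.MP_8c7e5b_q2.Interface3

/-!
# MP_8c7e5b_an, Q2: block U4 (the bounded transform of the functional calculus)
-/

open MeasureTheory Complex Filter Topology
open scoped ComplexOrder InnerProductSpace ComplexConjugate BoundedContinuousFunction ZeroAtInfty

set_option autoImplicit false
set_option linter.unusedSectionVars false

universe v

namespace Pool.Q2

open Pool.Bes

namespace U4Aux

/-- precomposition with a continuous map into a compact set -/
noncomputable def pre (K : Set ℂ) [CompactSpace K] (s : C(ℂ, K)) : C(K, ℂ) →⋆ₐ[ℂ] (ℂ →ᵇ ℂ) where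
  toFun f := (BoundedContinuousFunction.mkOfCompact f).compContinuous s
  map_one' := rfl
  map_mul' _ _ := rfl
  map_zero' := rfl
  map_add' _ _ := rfl
  commutes' _ := rfl
  map_star' _ := rfl

theorem pre_apply (K : Set ℂ) [CompactSpace K] (s : C(ℂ, K)) (f : C(K, ℂ)) (z : ℂ) :
    pre K s f z = f (s z) := rfl

theorem norm_pre_le (K : Set ℂ) [CompactSpace K] (s : C(ℂ, K)) (f : C(K, ℂ)) :
    ‖pre K s f‖ ≤ ‖f‖ :=
  (BoundedContinuousFunction.norm_le (norm_nonneg _)).2 fun z => by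
    rw [pre_apply]
    exact f.norm_coe_le_norm _

theorem norm_Sq_le (z : ℂ) : ‖Sq z‖ ≤ 4 := by
  have h : ∀ x : ℝ, |Real.arctan x| ≤ 2 := fun x => by
    have h1 := Real.neg_pi_div_two_lt_arctan x
    have h2 := Real.arctan_lt_pi_div_two x
    have h3 := Real.pi_lt_four
    rw [abs_le]
    constructor <;> linarith
  unfold Sq
  refine (norm_add_le _ _).trans ?_
  rw [norm_mul, Complex.norm_I, mul_one, Complex.norm_real, Complex.norm_real,
    Real.norm_eq_abs, Real.norm_eq_abs]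
  linarith [h z.re, h z.im]

theorem continuous_Sq : Continuous Sq := by
  unfold Sq
  fun_prop

end U4Aux

open U4Aux

theorem blk_U4 : Stmt_U4.{v} := by
  intro H _ _ _ Φ S hΦ hS
  have hn : IsStarNormal (Φ S) := ⟨by
    rw [← map_star, commute_iff_eq, ← map_mul, ← map_mul, mul_comm]⟩
  refine ⟨hn, ?_⟩
  intro F G hF hG
  set R : ℝ := max (‖Φ S‖ * ‖(1 : H →L[ℂ] H)‖) 4 with hR
  set K : Set ℂ := Metric.closedBall (0 : ℂ) R with hK
  have : CompactSpace K := isCompact_iff_compactSpace.1 (isCompact_closedBall _ _)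
  have hSK : ∀ z, Sq z ∈ K := fun z => by
    rw [hK, mem_closedBall_zero_iff]
    exact (norm_Sq_le z).trans (le_max_right _ _)
  have hspec : ∀ z ∈ spectrum ℂ (Φ S), z ∈ K := fun z hz => by
    rw [hK, mem_closedBall_zero_iff]
    exact (spectrum.norm_le_norm_mul_of_mem hz).trans (le_max_left _ _)
  let s : C(ℂ, K) := ⟨fun z => ⟨Sq z, hSK z⟩, by
    exact continuous_Sq.subtype_mk _⟩
  let ι : C(spectrum ℂ (Φ S), K) := ⟨fun z => ⟨z.1, hspec z.1 z.2⟩, by
    exact continuous_subtype_val.subtype_mk _⟩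
  let φ : C(K, ℂ) →⋆ₐ[ℂ] (H →L[ℂ] H) := Φ.comp (pre K s)
  let ψ : C(K, ℂ) →⋆ₐ[ℂ] (H →L[ℂ] H) := (cfcHom hn).comp (ContinuousMap.compStarAlgHom' ℂ ℂ ι)
  have hφ : Continuous φ := by
    refine AddMonoidHomClass.continuous_of_bound φ 1 fun f => ?_
    rw [one_mul]
    exact (hΦ _).trans (norm_pre_le K s f)
  have hψ : Continuous ψ := by
    refine (cfcHom_continuous hn).comp ?_
    exact ContinuousMap.continuous_precomp ι
  have hX : φ (Polynomial.toContinuousMapOnAlgHom K Polynomial.X) =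
      ψ (Polynomial.toContinuousMapOnAlgHom K Polynomial.X) := by
    have h1 : φ (Polynomial.toContinuousMapOnAlgHom K Polynomial.X) = Φ S := by
      show Φ (pre K s _) = Φ S
      congr 1
      ext z
      rw [pre_apply, hS z]
      simp [s]
    have h2 : ψ (Polynomial.toContinuousMapOnAlgHom K Polynomial.X) = Φ S := by
      show (cfcHom hn) (ContinuousMap.compStarAlgHom' ℂ ℂ ι _) = Φ S
      conv_rhs => rw [← cfcHom_id (R := ℂ) hn]
      congr 1
      ext z
      simp [ι]
    rw [h1, h2]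
  have hφψ : φ = ψ := ContinuousMap.starAlgHom_ext_map_X hφ hψ hX
  have h3 := DFunLike.congr_fun hφψ ((⟨F, hF⟩ : C(ℂ, ℂ)).restrict K)
  have h4 : φ ((⟨F, hF⟩ : C(ℂ, ℂ)).restrict K) = Φ G := by
    show Φ (pre K s _) = Φ G
    congr 1
    ext z
    rw [pre_apply, hG z]
    rfl
  have h5 : ψ ((⟨F, hF⟩ : C(ℂ, ℂ)).restrict K) = cfc F (Φ S) := by
    rw [cfc_apply F (Φ S) hn hF.continuousOn]
    rfl
  rw [← h4, ← h5, h3]

end Pool.Q2
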