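import Pool.Agent.Work.MP_8c7e5b_q2.Interface3

/-!
# Block U5 (helper94): test functions in the square coordinates
-/

open MeasureTheory Complex Filter Topology
open scoped ComplexOrder InnerProductSpace ComplexConjugate BoundedContinuousFunction ZeroAtInfty

set_option autoImplicit false
set_option linter.unusedSectionVars false

universe v

namespace Pool.Q2

open Pool.Bes

namespace U5Aux

/-- the open square -/
def Qd : Set ℂ := {w | (-(Real.pi / 2) < w.re ∧ w.re < Real.pi / 2) ∧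
  (-(Real.pi / 2) < w.im ∧ w.im < Real.pi / 2)}

/-- the inverse map -/
noncomputable def Tq (w : ℂ) : ℂ := (Real.tan w.re : ℝ) + (Real.tan w.im : ℝ) * Complex.I

theorem mk_re (a b : ℝ) : ((a : ℂ) + (b : ℂ) * Complex.I).re = a := by simp

theorem mk_im (a b : ℝ) : ((a : ℂ) + (b : ℂ) * Complex.I).im = b := by simp

theorem Sq_re (z : ℂ) : (Sq z).re = Real.arctan z.re := mk_re _ _

theorem Sq_im (z : ℂ) : (Sq z).im = Real.arctan z.im := mk_im _ _

theorem Tq_re (z : ℂ) : (Tq z).re = Real.tan z.re := mk_re _ _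

theorem Tq_im (z : ℂ) : (Tq z).im = Real.tan z.im := mk_im _ _

theorem Sq_mem (z : ℂ) : Sq z ∈ Qd := by
  refine ⟨?_, ?_⟩
  · rw [Sq_re]; exact ⟨Real.neg_pi_div_two_lt_arctan _, Real.arctan_lt_pi_div_two _⟩
  · rw [Sq_im]; exact ⟨Real.neg_pi_div_two_lt_arctan _, Real.arctan_lt_pi_div_two _⟩

theorem Tq_Sq (z : ℂ) : Tq (Sq z) = z := by
  apply Complex.ext
  · rw [Tq_re, Sq_re, Real.tan_arctan]
  · rw [Tq_im, Sq_im, Real.tan_arctan]

theorem Sq_Tq {w : ℂ} (hw : w ∈ Qd) : Sq (Tq w) = w := by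
  apply Complex.ext
  · rw [Sq_re, Tq_re, Real.arctan_tan hw.1.1 hw.1.2]
  · rw [Sq_im, Tq_im, Real.arctan_tan hw.2.1 hw.2.2]

theorem isOpen_Qd : IsOpen Qd := by
  have h1 : Qd = {w : ℂ | -(Real.pi / 2) < w.re} ∩ {w : ℂ | w.re < Real.pi / 2} ∩
      ({w : ℂ | -(Real.pi / 2) < w.im} ∩ {w : ℂ | w.im < Real.pi / 2}) := rfl
  rw [h1]
  exact ((isOpen_lt continuous_const Complex.continuous_re).inter
    (isOpen_lt Complex.continuous_re continuous_const)).inter
    ((isOpen_lt continuous_const Complex.continuous_im).inter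
    (isOpen_lt Complex.continuous_im continuous_const))

theorem continuous_Sq : Continuous Sq := by
  unfold Sq
  have h1 : Continuous fun z : ℂ => Real.arctan z.re :=
    Real.continuous_arctan.comp Complex.continuous_re
  have h2 : Continuous fun z : ℂ => Real.arctan z.im :=
    Real.continuous_arctan.comp Complex.continuous_im
  exact (Complex.continuous_ofReal.comp h1).add
    ((Complex.continuous_ofReal.comp h2).mul continuous_const)

theorem contDiffAt_Tq {w : ℂ} (hw : w ∈ Qd) : ContDiffAt ℝ (⊤ : ℕ∞) Tq w := by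
  unfold Tq
  have h1 : ContDiffAt ℝ (⊤ : ℕ∞) (fun z : ℂ => Real.tan z.re) w := by
    have h3 : ContDiffAt ℝ (⊤ : ℕ∞) Real.tan w.re :=
      Real.contDiffAt_tan.2 (Real.cos_pos_of_mem_Ioo ⟨hw.1.1, hw.1.2⟩).ne'
    exact h3.comp w Complex.reCLM.contDiff.contDiffAt
  have h2 : ContDiffAt ℝ (⊤ : ℕ∞) (fun z : ℂ => Real.tan z.im) w := by
    have h3 : ContDiffAt ℝ (⊤ : ℕ∞) Real.tan w.im :=
      Real.contDiffAt_tan.2 (Real.cos_pos_of_mem_Ioo ⟨hw.2.1, hw.2.2⟩).ne'
    exact h3.comp w Complex.imCLM.contDiff.contDiffAt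
  have h3 : ContDiffAt ℝ (⊤ : ℕ∞) (fun z : ℂ => ((Real.tan z.re : ℝ) : ℂ)) w :=
    Complex.ofRealCLM.contDiff.contDiffAt.comp w h1
  have h4 : ContDiffAt ℝ (⊤ : ℕ∞) (fun z : ℂ => ((Real.tan z.im : ℝ) : ℂ)) w :=
    Complex.ofRealCLM.contDiff.contDiffAt.comp w h2
  exact h3.add (h4.mul contDiffAt_const)

/-- the derivative of the coordinate map -/
theorem hasFDerivAt_Sq (z : ℂ) : ∃ A : ℂ →L[ℝ] ℂ, HasFDerivAt Sq A z ∧
    A 1 = ((1 / (1 + z.re ^ 2) : ℝ) : ℂ) ∧
    A Complex.I = ((1 / (1 + z.im ^ 2) : ℝ) : ℂ) * Complex.I := by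
  have h1 : HasFDerivAt (fun z : ℂ => Real.arctan z.re) ((1 / (1 + z.re ^ 2)) • Complex.reCLM) z :=
    (Real.hasDerivAt_arctan z.re).comp_hasFDerivAt z Complex.reCLM.hasFDerivAt
  have h2 : HasFDerivAt (fun z : ℂ => Real.arctan z.im) ((1 / (1 + z.im ^ 2)) • Complex.imCLM) z :=
    (Real.hasDerivAt_arctan z.im).comp_hasFDerivAt z Complex.imCLM.hasFDerivAt
  have h3 := Complex.ofRealCLM.hasFDerivAt.comp z h1
  have h4 := (Complex.ofRealCLM.hasFDerivAt.comp z h2).mul_const Complex.I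
  refine ⟨_, h3.add h4, ?_, ?_⟩
  · simp
  · simp [mul_comm]

end U5Aux

open U5Aux in
theorem blk_U5 : Stmt_U5 := by
  classical
  intro f hf
  have hK : IsCompact (Sq '' tsupport f) := hf.2.isCompact.image continuous_Sq
  obtain ⟨F, hF⟩ : ∃ F : ℂ → ℂ, ∀ w, F w = if w ∈ Qd then f (Tq w) else 0 := ⟨_, fun _ => rfl⟩
  have hF0 : ∀ w, w ∉ Sq '' tsupport f → F w = 0 := by
    intro w hw
    rw [hF]
    split_ifs with h
    · by_contra hne
      exact hw ⟨Tq w, subset_tsupport f hne, Sq_Tq h⟩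
    · rfl
  have hFS : ∀ z, F (Sq z) = f z := by
    intro z
    rw [hF, if_pos (Sq_mem z), Tq_Sq]
  have hlocal : ∀ w, w ∉ Qd → F =ᶠ[𝓝 w] fun _ => 0 := by
    intro w hw
    have h1 : w ∈ (Sq '' tsupport f)ᶜ := by
      rintro ⟨z, -, rfl⟩
      exact hw (Sq_mem z)
    exact Filter.eventually_of_mem (hK.isClosed.isOpen_compl.mem_nhds h1) hF0
  have hsmooth : ContDiff ℝ (⊤ : ℕ∞) F := by
    rw [contDiff_iff_contDiffAt]
    intro w
    by_cases hw : w ∈ Qd
    · have h1 : F =ᶠ[𝓝 w] fun w => f (Tq w) := by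
        refine Filter.eventually_of_mem (isOpen_Qd.mem_nhds hw) fun y hy => ?_
        rw [hF, if_pos hy]
      exact (hf.1.contDiffAt.comp w (contDiffAt_Tq hw)).congr_of_eventuallyEq h1
    · exact contDiffAt_const.congr_of_eventuallyEq (hlocal w hw)
  have hFd : ∀ w, DifferentiableAt ℝ F w := fun w => hsmooth.differentiable (by simp) w
  have hchain : ∀ z, ∀ A : ℂ →L[ℝ] ℂ, HasFDerivAt Sq A z →
      fderiv ℝ f z = (fderiv ℝ F (Sq z)).comp A := by
    intro z A hA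
    have h1 : (fun z => F (Sq z)) = f := funext hFS
    have h2 : HasFDerivAt (fun z => F (Sq z)) ((fderiv ℝ F (Sq z)).comp A) z :=
      (hFd (Sq z)).hasFDerivAt.comp z hA
    rw [h1] at h2
    exact h2.fderiv
  refine ⟨F, ⟨hsmooth, HasCompactSupport.intro hK hF0⟩, hFS, ?_, ?_, ?_⟩
  · intro z
    obtain ⟨A, hA, hA1, -⟩ := hasFDerivAt_Sq z
    have h1 := congrArg (fun B : ℂ →L[ℝ] ℂ => B 1) (hchain z A hA)
    simp only [ContinuousLinearMap.comp_apply] at h1
    rw [h1, hA1]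
    have h2 : ((1 / (1 + z.re ^ 2) : ℝ) : ℂ) = (1 / (1 + z.re ^ 2) : ℝ) • (1 : ℂ) := by
      rw [Complex.real_smul, mul_one]
    have h3 : (1 + z.re ^ 2 : ℝ) ≠ 0 := by positivity
    rw [h2, map_smul, Complex.real_smul, ← mul_assoc, ← Complex.ofReal_mul,
      mul_one_div_cancel h3, Complex.ofReal_one, one_mul]
  · intro z
    obtain ⟨A, hA, -, hA1⟩ := hasFDerivAt_Sq z
    have h1 := congrArg (fun B : ℂ →L[ℝ] ℂ => B Complex.I) (hchain z A hA)
    simp only [ContinuousLinearMap.comp_apply] at h1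
    rw [h1, hA1]
    have h3 : (1 + z.im ^ 2 : ℝ) ≠ 0 := by positivity
    have h2 : ((1 / (1 + z.im ^ 2) : ℝ) : ℂ) * Complex.I =
        (1 / (1 + z.im ^ 2) : ℝ) • Complex.I := by
      rw [Complex.real_smul]
    rw [h2, map_smul, Complex.real_smul, ← mul_assoc, ← Complex.ofReal_mul,
      mul_one_div_cancel h3, Complex.ofReal_one, one_mul]
  · intro w hw d
    have h1 : w ∉ Qd := fun h => hw ⟨Tq w, Sq_Tq h⟩
    rw [(hlocal w h1).fderiv_eq, fderiv_const_apply]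
    rfl

end Pool.Q2
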