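import Pool.Agent.Work.MP_8c7e5b_q2.Interface3

/-!
# MP_8c7e5b_an, Q2: block U6 (change of variables)
-/

open MeasureTheory Complex Filter Topology
open scoped ComplexOrder InnerProductSpace ComplexConjugate BoundedContinuousFunction ZeroAtInfty

set_option autoImplicit false
set_option linter.unusedSectionVars false

universe v

namespace Pool.Q2

open Pool.Bes

namespace U6Aux

/-- the diagonal map `x + i y ↦ a x + i b y` -/
noncomputable def dg (a b : ℝ) : ℂ →L[ℝ] ℂ :=
  Complex.ofRealCLM ∘L (a • Complex.reCLM) + (Complex.I : ℂ) • (Complex.ofRealCLM ∘L (b • Complex.imCLM))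

theorem dg_apply (a b : ℝ) (z : ℂ) : dg a b z = ((a * z.re : ℝ) : ℂ) + Complex.I * ((b * z.im : ℝ) : ℂ) := by
  simp [dg]

theorem dg_det (a b : ℝ) : (dg a b).det = a * b := by
  unfold ContinuousLinearMap.det
  rw [← LinearMap.det_toMatrix Complex.basisOneI, Matrix.det_fin_two]
  simp [LinearMap.toMatrix_apply, dg_apply, Complex.coe_basisOneI, Complex.coe_basisOneI_repr]

theorem hasFDerivAt_Sq (z : ℂ) : HasFDerivAt Sq (dg (1 / (1 + z.re ^ 2)) (1 / (1 + z.im ^ 2))) z := by
  have h1 : HasFDerivAt (fun z : ℂ => z.re) (Complex.reCLM) z := Complex.reCLM.hasFDerivAt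
  have h2 : HasFDerivAt (fun z : ℂ => z.im) (Complex.imCLM) z := Complex.imCLM.hasFDerivAt
  have h3 := h1.arctan
  have h4 := h2.arctan
  have h5 : HasFDerivAt (fun z : ℂ => ((Real.arctan z.re : ℝ) : ℂ))
      (Complex.ofRealCLM ∘L ((1 / (1 + z.re ^ 2)) • Complex.reCLM)) z :=
    Complex.ofRealCLM.hasFDerivAt.comp z h3
  have h6 : HasFDerivAt (fun z : ℂ => ((Real.arctan z.im : ℝ) : ℂ))
      (Complex.ofRealCLM ∘L ((1 / (1 + z.im ^ 2)) • Complex.imCLM)) z :=
    Complex.ofRealCLM.hasFDerivAt.comp z h4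
  have h7 := h5.add (h6.const_smul Complex.I)
  have h8 : Sq = fun z : ℂ => ((Real.arctan z.re : ℝ) : ℂ) +
      Complex.I • ((Real.arctan z.im : ℝ) : ℂ) := by
    funext w
    rw [Sq, smul_eq_mul, mul_comm Complex.I]
  rw [h8]
  exact h7

theorem Sq_inj : Function.Injective Sq := by
  intro z w h
  have h1 := congrArg Complex.re h
  have h2 := congrArg Complex.im h
  simp only [Sq, Complex.add_re, Complex.add_im, Complex.ofReal_re, Complex.ofReal_im,
    Complex.mul_re, Complex.mul_im, Complex.I_re, Complex.I_im, mul_zero, mul_one,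
    sub_zero, add_zero, zero_add] at h1 h2
  exact Complex.ext (Real.arctan_injective h1) (Real.arctan_injective h2)

/-- the Jacobian -/
noncomputable def jac (z : ℂ) : ℝ := 1 / (1 + z.re ^ 2) * (1 / (1 + z.im ^ 2))

theorem abs_det (z : ℂ) : |(dg (1 / (1 + z.re ^ 2)) (1 / (1 + z.im ^ 2))).det| = jac z := by
  rw [dg_det, jac, abs_of_nonneg]
  positivity

theorem integral_range (h : ℂ → ℂ) (h0 : ∀ w, w ∉ Set.range Sq → h w = 0) :
    ∫ w : ℂ, h w = ∫ z : ℂ, jac z • h (Sq z) := by
  have h1 := integral_image_eq_integral_abs_det_fderiv_smul (volume : Measure ℂ)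
    MeasurableSet.univ (fun z _ => (hasFDerivAt_Sq z).hasFDerivWithinAt)
    Sq_inj.injOn h
  rw [Set.image_univ, setIntegral_univ, setIntegral_eq_integral_of_forall_compl_eq_zero h0] at h1
  rw [h1]
  refine integral_congr_ae (Filter.Eventually.of_forall fun z => ?_)
  show |_| • h (Sq z) = jac z • h (Sq z)
  rw [abs_det]

theorem integrable_range (h : ℂ → ℂ) (hh : Integrable h) :
    Integrable (fun z : ℂ => jac z • h (Sq z)) := by
  have h1 := (integrableOn_image_iff_integrableOn_abs_det_fderiv_smul (volume : Measure ℂ)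
    MeasurableSet.univ (fun z _ => (hasFDerivAt_Sq z).hasFDerivWithinAt)
    Sq_inj.injOn h).1 hh.integrableOn
  rw [integrableOn_univ] at h1
  refine h1.congr (Filter.Eventually.of_forall fun z => ?_)
  show |_| • h (Sq z) = jac z • h (Sq z)
  rw [abs_det]

end U6Aux

open U6Aux

theorem blk_U6 : Stmt_U6 := by
  intro g₁ g₂ hg₁ hg₂
  have hre : ∀ z : ℂ, (1 + z.re ^ 2 : ℝ) ≠ 0 := fun z => by positivity
  have him : ∀ z : ℂ, (1 + z.im ^ 2 : ℝ) ≠ 0 := fun z => by positivity
  refine ⟨fun z => (1 + z.re ^ 2 : ℝ) • (jac z • g₁ (Sq z)),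
    fun z => (1 + z.im ^ 2 : ℝ) • (jac z • g₂ (Sq z)), ?_, ?_, ?_⟩
  · exact LocallyIntegrable.continuous_smul (by fun_prop) (integrable_range g₁ hg₁).locallyIntegrable
  · exact LocallyIntegrable.continuous_smul (by fun_prop) (integrable_range g₂ hg₂).locallyIntegrable
  · intro f F _hf _hF h1 h2 h3
    unfold Dg
    rw [integral_range (fun w => fderiv ℝ F w 1 * g₁ w) (fun w hw => by rw [h3 w hw 1, zero_mul]),
      integral_range (fun w => fderiv ℝ F w Complex.I * g₂ w)
        (fun w hw => by rw [h3 w hw Complex.I, zero_mul])]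
    refine congrArg₂ (· + ·) (integral_congr_ae (Filter.Eventually.of_forall fun z => ?_))
      (integral_congr_ae (Filter.Eventually.of_forall fun z => ?_))
    · show jac z • (fderiv ℝ F (Sq z) 1 * g₁ (Sq z)) =
        fderiv ℝ f z 1 * ((1 + z.re ^ 2 : ℝ) • (jac z • g₁ (Sq z)))
      rw [h1 z]
      simp only [Complex.real_smul]
      push_cast
      ring
    · show jac z • (fderiv ℝ F (Sq z) Complex.I * g₂ (Sq z)) =
        fderiv ℝ f z Complex.I * ((1 + z.im ^ 2 : ℝ) • (jac z • g₂ (Sq z)))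
      rw [h2 z]
      simp only [Complex.real_smul]
      push_cast
      ring

end Pool.Q2
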