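import Pool.Agent.Work.MP_8c7e5b_q2.Interface3

/-!
# MP_8c7e5b_an, Q2: block U7 (from local to global)
-/

open MeasureTheory Complex Filter Topology
open scoped ComplexOrder InnerProductSpace ComplexConjugate BoundedContinuousFunction ZeroAtInfty

set_option autoImplicit false
set_option linter.unusedSectionVars false

universe v

namespace Pool.Q2

open Pool.Bes

namespace U7Aux

/-! ### test functions -/

theorem tst_add {f g : ℂ → ℂ} (hf : Tst f) (hg : Tst g) : Tst (fun z => f z + g z) :=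
  ⟨hf.1.add hg.1, hf.2.add hg.2⟩

theorem tst_const_mul (c : ℂ) {f : ℂ → ℂ} (hf : Tst f) : Tst (fun z => c * f z) :=
  ⟨contDiff_const.mul hf.1, hf.2.mul_left⟩

theorem tst_sub {f g : ℂ → ℂ} (hf : Tst f) (hg : Tst g) : Tst (fun z => f z - g z) := by
  have h := tst_add hf (tst_const_mul (-1) hg)
  have h2 : (fun z => f z + -1 * g z) = fun z => f z - g z := by
    funext z
    ring
  rwa [h2] at h

theorem tst_shift (z : ℂ) {f : ℂ → ℂ} (hf : Tst f) : Tst (fun w => f (w + z)) :=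
  ⟨hf.1.comp (contDiff_id.add contDiff_const), hf.2.comp_homeomorph (Homeomorph.addRight z)⟩

theorem tst_diff {f : ℂ → ℂ} (hf : Tst f) : Differentiable ℝ f :=
  hf.1.differentiable (by simp)

theorem tst_cont {f : ℂ → ℂ} (hf : Tst f) (e : ℂ) : Continuous fun z => fderiv ℝ f z e :=
  (hf.1.continuous_fderiv (by simp)).clm_apply continuous_const

theorem tst_lip {f : ℂ → ℂ} (hf : Tst f) : ∃ L : ℝ, LipB f L := by
  have h1 : HasCompactSupport (fderiv ℝ f) := hf.2.fderiv (𝕜 := ℝ)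
  obtain ⟨C, hC⟩ := h1.exists_bound_of_continuous (hf.1.continuous_fderiv (by simp))
  exact ⟨C, hC⟩

theorem lip_nonneg {f : ℂ → ℂ} {L : ℝ} (h : LipB f L) : 0 ≤ L := (norm_nonneg _).trans (h 0)

theorem lip_apply {f : ℂ → ℂ} {L : ℝ} (h : LipB f L) (e : ℂ) (he : ‖e‖ = 1) (z : ℂ) :
    ‖fderiv ℝ f z e‖ ≤ L := by
  have h1 := (fderiv ℝ f z).le_opNorm e
  rw [he, mul_one] at h1
  exact h1.trans (h z)

theorem lip_apply' {f : ℂ → ℂ} {z : ℂ} {L : ℝ} (h : ‖fderiv ℝ f z‖ ≤ L) (e : ℂ) (he : ‖e‖ = 1) :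
    ‖fderiv ℝ f z e‖ ≤ L := by
  have h1 := (fderiv ℝ f z).le_opNorm e
  rw [he, mul_one] at h1
  exact h1.trans h

theorem lip_sub_le {f : ℂ → ℂ} (hf : Tst f) {L : ℝ} (h : LipB f L) (z w : ℂ) :
    ‖f z - f w‖ ≤ L * ‖z - w‖ :=
  Convex.norm_image_sub_le_of_norm_fderiv_le (𝕜 := ℝ) (fun x _ => (tst_diff hf) x)
    (fun x _ => h x) convex_univ (Set.mem_univ w) (Set.mem_univ z)

/-! ### integrals -/

theorem int_mul {μ : Measure ℂ} {g : ℂ → ℂ} (hg : Integrable g μ) {h : ℂ → ℂ} (hc : Continuous h)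
    {A : ℝ} (hA : ∀ z, ‖h z‖ ≤ A) : Integrable (fun z => h z * g z) μ :=
  hg.bdd_mul hc.aestronglyMeasurable (Filter.Eventually.of_forall hA)

theorem norm_int_le {μ : Measure ℂ} {g : ℂ → ℂ} (hg : Integrable g μ) (h : ℂ → ℂ)
    (A : ℝ) (hA : ∀ z, ‖h z‖ ≤ A) (S : Set ℂ) (hS : MeasurableSet S) (h0 : ∀ z, z ∉ S → h z = 0) :
    ‖∫ z, h z * g z ∂μ‖ ≤ A * ∫ z in S, ‖g z‖ ∂μ := by
  have h1 : ‖∫ z, h z * g z ∂μ‖ ≤ ∫ z, A * S.indicator (fun z => ‖g z‖) z ∂μ := by
    refine norm_integral_le_of_norm_le ((hg.norm.indicator hS).const_mul A)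
      (Filter.Eventually.of_forall fun z => ?_)
    show ‖h z * g z‖ ≤ A * S.indicator (fun z => ‖g z‖) z
    rw [norm_mul]
    by_cases hz : z ∈ S
    · rw [Set.indicator_of_mem hz]
      exact mul_le_mul_of_nonneg_right (hA z) (norm_nonneg _)
    · rw [Set.indicator_of_notMem hz, h0 z hz, norm_zero, zero_mul, mul_zero]
  rwa [integral_const_mul, integral_indicator hS] at h1

theorem tail {μ : Measure ℂ} {g : ℂ → ℂ} (hg : Integrable g μ) :
    Tendsto (fun n : ℕ => ∫ z in {z : ℂ | (n : ℝ) ≤ ‖z‖}, ‖g z‖ ∂μ) atTop (𝓝 0) := by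
  have h1 := tendsto_setIntegral_of_antitone (μ := μ) (f := fun z => ‖g z‖)
    (s := fun n : ℕ => {z : ℂ | (n : ℝ) ≤ ‖z‖})
    (fun n => (isClosed_le continuous_const continuous_norm).measurableSet)
    (fun m n hmn z hz => by
      have h2 : (m : ℝ) ≤ n := by exact_mod_cast hmn
      exact h2.trans hz)
    ⟨0, hg.norm.integrableOn⟩
  have h3 : (⋂ n : ℕ, {z : ℂ | (n : ℝ) ≤ ‖z‖}) = ∅ := by
    refine Set.eq_empty_iff_forall_notMem.2 fun z hz => ?_
    obtain ⟨n, hn⟩ := exists_nat_gt ‖z‖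
    have h4 : (n : ℝ) ≤ ‖z‖ := Set.mem_iInter.1 hz n
    linarith
  rwa [h3, setIntegral_empty] at h1

/-- continuity of translations in `L¹` -/
theorem l1_translate {k : ℂ → ℂ} (hk : Integrable k) (ε : ℝ) (hε : 0 < ε) :
    ∃ δ : ℝ, 0 < δ ∧ ∀ z : ℂ, ‖z‖ ≤ δ → ∫ w, ‖k w - k (w - z)‖ ≤ ε := by
  obtain ⟨g, hgs, hg1, hgc, hgi⟩ := hk.exists_hasCompactSupport_integral_sub_le
    (show (0 : ℝ) < ε / 3 by positivity)
  obtain ⟨ρ, hρ⟩ := hgs.isCompact.isBounded.subset_closedBall (0 : ℂ)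
  set V : ℝ := (volume (Metric.closedBall (0 : ℂ) (ρ + 1))).toReal with hV
  have hV0 : 0 ≤ V := ENNReal.toReal_nonneg
  have hη : 0 < ε / (3 * (V + 1)) := by positivity
  have huc : UniformContinuous g := hgc.uniformContinuous_of_tendsto_cocompact
    (hgs.is_zero_at_infty)
  obtain ⟨δ, hδ, hδ2⟩ := Metric.uniformContinuous_iff.1 huc _ hη
  refine ⟨min (δ / 2) 1, lt_min (by positivity) one_pos, fun z hz => ?_⟩
  have hz1 : ‖z‖ < δ := by
    have := hz.trans (min_le_left _ _)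
    linarith
  have hz2 : ‖z‖ ≤ 1 := hz.trans (min_le_right _ _)
  have hgz : Integrable fun w => g (w - z) := hgi.comp_sub_right z
  have hkz : Integrable fun w => k (w - z) := hk.comp_sub_right z
  have hA : ∫ w, ‖g w - g (w - z)‖ ≤ ε / 3 := by
    have h1 : ∫ w, ‖g w - g (w - z)‖ ≤
        ∫ w, (Metric.closedBall (0 : ℂ) (ρ + 1)).indicator (fun _ => ε / (3 * (V + 1))) w := by
      refine integral_mono (hgi.sub hgz).norm ?_ fun w => ?_
      · exact (integrable_indicator_iff Metric.isClosed_closedBall.measurableSet).2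
          (integrableOn_const (isCompact_closedBall _ _).measure_ne_top)
      · show ‖g w - g (w - z)‖ ≤
          (Metric.closedBall (0 : ℂ) (ρ + 1)).indicator (fun _ => ε / (3 * (V + 1))) w
        by_cases hw : w ∈ Metric.closedBall (0 : ℂ) (ρ + 1)
        · rw [Set.indicator_of_mem hw, ← dist_eq_norm]
          refine (hδ2 ?_).le
          rw [dist_eq_norm, sub_sub_cancel]
          exact hz1
        · rw [Set.indicator_of_notMem hw]
          rw [mem_closedBall_zero_iff, not_le] at hw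
          have h2 : g w = 0 := by
            by_contra hne
            have h3 := hρ (subset_tsupport g hne)
            rw [mem_closedBall_zero_iff] at h3
            linarith
          have h4 : g (w - z) = 0 := by
            by_contra hne
            have h3 := hρ (subset_tsupport g hne)
            rw [mem_closedBall_zero_iff] at h3
            have h5 : ‖w‖ ≤ ‖w - z‖ + ‖z‖ := by
              calc ‖w‖ = ‖(w - z) + z‖ := by rw [sub_add_cancel]
                _ ≤ _ := norm_add_le _ _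
            linarith
          rw [h2, h4, sub_zero, norm_zero]
    rw [integral_indicator Metric.isClosed_closedBall.measurableSet, setIntegral_const,
      smul_eq_mul] at h1
    refine h1.trans ?_
    rw [Measure.real, ← hV, mul_div_assoc', div_le_div_iff₀ (by positivity) (by norm_num)]
    nlinarith
  have hB : ∫ w, ‖g (w - z) - k (w - z)‖ ≤ ε / 3 := by
    rw [integral_sub_right_eq_self (fun w => ‖g w - k w‖) z]
    refine le_trans (le_of_eq ?_) hg1
    exact integral_congr_ae (Filter.Eventually.of_forall fun w => norm_sub_rev _ _)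
  have hC : ∫ w, ‖k w - k (w - z)‖ ≤
      ∫ w, (‖k w - g w‖ + ‖g w - g (w - z)‖ + ‖g (w - z) - k (w - z)‖) := by
    refine integral_mono (hk.sub hkz).norm
      (((hk.sub hgi).norm.add (hgi.sub hgz).norm).add (hgz.sub hkz).norm) fun w => ?_
    show ‖k w - k (w - z)‖ ≤ ‖k w - g w‖ + ‖g w - g (w - z)‖ + ‖g (w - z) - k (w - z)‖
    calc ‖k w - k (w - z)‖ = ‖(k w - g w) + (g w - g (w - z)) + (g (w - z) - k (w - z))‖ := by
          congr 1
          ring
      _ ≤ _ := (norm_add_le _ _).trans (add_le_add (norm_add_le _ _) le_rfl)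
  have i1 : Integrable fun w => ‖k w - g w‖ := (hk.sub hgi).norm
  have i2 : Integrable fun w => ‖g w - g (w - z)‖ := (hgi.sub hgz).norm
  have i3 : Integrable fun w => ‖g (w - z) - k (w - z)‖ := (hgz.sub hkz).norm
  have i4 : Integrable fun w => ‖k w - g w‖ + ‖g w - g (w - z)‖ := i1.add i2
  rw [integral_add i4 i3, integral_add i1 i2] at hC
  linarith

/-! ### the cut-off -/

theorem exists_cut : ∃ (χ : ℂ → ℝ) (C : ℝ), 0 ≤ C ∧ ContDiff ℝ (⊤ : ℕ∞) χ ∧
    (∀ z, 0 ≤ χ z ∧ χ z ≤ 1) ∧ (∀ z, ‖z‖ ≤ 1 → χ z = 1) ∧ (∀ z, 2 ≤ ‖z‖ → χ z = 0) ∧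
    ∀ z, ‖fderiv ℝ χ z‖ ≤ C := by
  let b : ContDiffBump (0 : ℂ) := ⟨1, 2, one_pos, one_lt_two⟩
  have hc : ContDiff ℝ (⊤ : ℕ∞) (b : ℂ → ℝ) := b.contDiff
  have hs : HasCompactSupport (fderiv ℝ (b : ℂ → ℝ)) := b.hasCompactSupport.fderiv (𝕜 := ℝ)
  obtain ⟨C, hC⟩ := hs.exists_bound_of_continuous (hc.continuous_fderiv (by simp))
  refine ⟨b, C, (norm_nonneg _).trans (hC 0), hc, fun z => ⟨b.nonneg, b.le_one⟩, fun z hz => ?_,
    fun z hz => ?_, hC⟩
  · refine b.one_of_mem_closedBall ?_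
    rw [mem_closedBall_zero_iff]
    exact hz
  · refine b.zero_of_le_dist ?_
    rw [dist_zero_right]
    exact hz

/-- the truncated function -/
theorem exists_trunc : ∃ C : ℝ, 0 ≤ C ∧ ∀ (R : ℝ), 0 < R → ∀ (f : ℂ → ℂ) (L : ℝ), Tst f →
    LipB f L → ∃ u : ℂ → ℂ, Tst u ∧ LipB u ((1 + 2 * C) * L) ∧
      (∀ z, ‖z‖ < R → fderiv ℝ u z = fderiv ℝ f z) ∧ ∀ z, 2 * R < ‖z‖ → fderiv ℝ u z = 0 := by
  obtain ⟨χ, C, hC0, hχ, h01, h1, h0, hC⟩ := exists_cut
  refine ⟨C, hC0, fun R hR f L hf hL => ?_⟩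
  have hL0 := lip_nonneg hL
  set c : ℝ := R⁻¹ with hc
  have hc0 : 0 < c := inv_pos.2 hR
  have hcR : c * R = 1 := inv_mul_cancel₀ hR.ne'
  have hcn : ∀ z : ℂ, ‖c • z‖ = c * ‖z‖ := fun z => by
    rw [norm_smul, Real.norm_of_nonneg hc0.le]
  have hχc : ContDiff ℝ (⊤ : ℕ∞) (fun z : ℂ => χ (c • z)) :=
    hχ.comp (contDiff_id.const_smul c)
  have hu : ContDiff ℝ (⊤ : ℕ∞) (fun z : ℂ => χ (c • z) • (f z - f 0)) :=
    hχc.smul (hf.1.sub contDiff_const)
  have hzero : ∀ z : ℂ, 2 * R ≤ ‖z‖ → χ (c • z) • (f z - f 0) = 0 := by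
    intro z hz
    rw [h0 (c • z), zero_smul]
    rw [hcn]
    calc (2 : ℝ) = c * (2 * R) := by linear_combination (-2 : ℝ) * hcR
      _ ≤ c * ‖z‖ := mul_le_mul_of_nonneg_left hz hc0.le
  have hfd0 : ∀ z : ℂ, 2 * R < ‖z‖ → fderiv ℝ (fun z : ℂ => χ (c • z) • (f z - f 0)) z = 0 := by
    intro z hz
    have h2 : (fun z : ℂ => χ (c • z) • (f z - f 0)) =ᶠ[𝓝 z] fun _ => (0 : ℂ) := by
      filter_upwards [(isOpen_lt continuous_const continuous_norm).mem_nhds hz] with w hw
      exact hzero w (le_of_lt hw)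
    rw [h2.fderiv_eq, fderiv_const_apply]
  refine ⟨fun z => χ (c • z) • (f z - f 0), ⟨hu, ?_⟩, ?_, ?_, hfd0⟩
  · refine HasCompactSupport.intro (isCompact_closedBall (0 : ℂ) (2 * R)) fun z hz => ?_
    rw [mem_closedBall_zero_iff, not_le] at hz
    exact hzero z hz.le
  · intro z
    by_cases hz : 2 * R < ‖z‖
    · rw [hfd0 z hz, norm_zero]
      positivity
    · rw [not_lt] at hz
      have d1 : HasFDerivAt (fun z : ℂ => χ (c • z)) (c • fderiv ℝ χ (c • z)) z := by
        have e1 : HasFDerivAt (fun z : ℂ => c • z) (c • ContinuousLinearMap.id ℝ ℂ) z :=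
          (hasFDerivAt_id z).const_smul c
        have e2 : HasFDerivAt χ (fderiv ℝ χ (c • z)) (c • z) :=
          ((hχ.differentiable (by simp)) (c • z)).hasFDerivAt
        have e3 := e2.comp z e1
        have e4 : (fderiv ℝ χ (c • z)).comp (c • ContinuousLinearMap.id ℝ ℂ) =
            c • fderiv ℝ χ (c • z) := by
          ext w
          simp
        rwa [e4] at e3
      have d2 : HasFDerivAt (fun z : ℂ => f z - f 0) (fderiv ℝ f z) z :=
        ((tst_diff hf) z).hasFDerivAt.sub_const (f 0)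
      have d3 := d1.smul d2
      have d4 : fderiv ℝ (fun z : ℂ => χ (c • z) • (f z - f 0)) z =
          χ (c • z) • fderiv ℝ f z + (c • fderiv ℝ χ (c • z)).smulRight (f z - f 0) := d3.fderiv
      rw [d4]
      refine (norm_add_le _ _).trans ?_
      have n1 : ‖χ (c • z) • fderiv ℝ f z‖ ≤ L := by
        rw [norm_smul, Real.norm_of_nonneg (h01 _).1]
        calc χ (c • z) * ‖fderiv ℝ f z‖ ≤ 1 * L :=
              mul_le_mul (h01 _).2 (hL z) (norm_nonneg _) zero_le_one
          _ = L := one_mul L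
      have n2 : ‖(c • fderiv ℝ χ (c • z)).smulRight (f z - f 0)‖ ≤ 2 * C * L := by
        rw [ContinuousLinearMap.norm_smulRight_apply, norm_smul, Real.norm_of_nonneg hc0.le]
        have n3 : ‖f z - f 0‖ ≤ L * (2 * R) := by
          refine (lip_sub_le hf hL z 0).trans (mul_le_mul_of_nonneg_left ?_ hL0)
          rwa [sub_zero]
        calc c * ‖fderiv ℝ χ (c • z)‖ * ‖f z - f 0‖ ≤ c * C * (L * (2 * R)) :=
              mul_le_mul (mul_le_mul_of_nonneg_left (hC _) hc0.le) n3 (norm_nonneg _)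
                (by positivity)
          _ = 2 * C * L := by linear_combination (2 * C * L) * hcR
      linarith
  · intro z hz
    have h2 : (fun z : ℂ => χ (c • z) • (f z - f 0)) =ᶠ[𝓝 z] fun z => f z - f 0 := by
      filter_upwards [(isOpen_lt continuous_norm continuous_const).mem_nhds hz] with w hw
      have h3 : ‖c • w‖ ≤ 1 := by
        rw [hcn]
        calc c * ‖w‖ ≤ c * R := mul_le_mul_of_nonneg_left (le_of_lt hw) hc0.le
          _ = 1 := hcR
      rw [h1 _ h3, one_smul]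
    rw [h2.fderiv_eq, fderiv_sub_const]

/-! ### the functional -/

/-- the functional given by measures -/
noncomputable def MF (μ : Measure ℂ) (g₁ g₂ : ℂ → ℂ) (f : ℂ → ℂ) : ℂ :=
  (∫ z : ℂ, fderiv ℝ f z 1 * g₁ z ∂μ) + ∫ z : ℂ, fderiv ℝ f z Complex.I * g₂ z ∂μ

theorem fderiv_add' {f g : ℂ → ℂ} (hf : Tst f) (hg : Tst g) (z : ℂ) :
    fderiv ℝ (fun z => f z + g z) z = fderiv ℝ f z + fderiv ℝ g z :=
  (((tst_diff hf) z).hasFDerivAt.add ((tst_diff hg) z).hasFDerivAt).fderiv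

theorem fderiv_sub' {f g : ℂ → ℂ} (hf : Tst f) (hg : Tst g) (z : ℂ) :
    fderiv ℝ (fun z => f z - g z) z = fderiv ℝ f z - fderiv ℝ g z :=
  (((tst_diff hf) z).hasFDerivAt.sub ((tst_diff hg) z).hasFDerivAt).fderiv

theorem fderiv_cmul' {f : ℂ → ℂ} (hf : Tst f) (c z : ℂ) :
    fderiv ℝ (fun z => c * f z) z = c • fderiv ℝ f z :=
  (((tst_diff hf) z).hasFDerivAt.const_mul c).fderiv

theorem int_fd {μ : Measure ℂ} {g : ℂ → ℂ} (hg : Integrable g μ) {f : ℂ → ℂ} (hf : Tst f) (e : ℂ)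
    (he : ‖e‖ = 1) : Integrable (fun z => fderiv ℝ f z e * g z) μ := by
  obtain ⟨L, hL⟩ := tst_lip hf
  exact int_mul hg (tst_cont hf e) (lip_apply hL e he)

theorem MF_isLF {μ : Measure ℂ} {g₁ g₂ : ℂ → ℂ} (h1 : Integrable g₁ μ) (h2 : Integrable g₂ μ) :
    IsLF (MF μ g₁ g₂) := by
  refine ⟨fun f g hf hg => ?_, fun c f hf => ?_⟩
  · unfold MF
    have a1 : ∫ z, fderiv ℝ (fun z => f z + g z) z 1 * g₁ z ∂μ =
        (∫ z, fderiv ℝ f z 1 * g₁ z ∂μ) + ∫ z, fderiv ℝ g z 1 * g₁ z ∂μ := by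
      rw [← integral_add (int_fd h1 hf 1 norm_one) (int_fd h1 hg 1 norm_one)]
      refine integral_congr_ae (Filter.Eventually.of_forall fun z => ?_)
      show fderiv ℝ (fun z => f z + g z) z 1 * g₁ z = _
      rw [fderiv_add' hf hg, _root_.add_apply, add_mul]
    have a2 : ∫ z, fderiv ℝ (fun z => f z + g z) z Complex.I * g₂ z ∂μ =
        (∫ z, fderiv ℝ f z Complex.I * g₂ z ∂μ) + ∫ z, fderiv ℝ g z Complex.I * g₂ z ∂μ := by
      rw [← integral_add (int_fd h2 hf Complex.I Complex.norm_I)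
        (int_fd h2 hg Complex.I Complex.norm_I)]
      refine integral_congr_ae (Filter.Eventually.of_forall fun z => ?_)
      show fderiv ℝ (fun z => f z + g z) z Complex.I * g₂ z = _
      rw [fderiv_add' hf hg, _root_.add_apply, add_mul]
    rw [a1, a2]
    ring
  · unfold MF
    have a1 : ∫ z, fderiv ℝ (fun z => c * f z) z 1 * g₁ z ∂μ =
        c * ∫ z, fderiv ℝ f z 1 * g₁ z ∂μ := by
      rw [← integral_const_mul]
      refine integral_congr_ae (Filter.Eventually.of_forall fun z => ?_)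
      show fderiv ℝ (fun z => c * f z) z 1 * g₁ z = _
      rw [fderiv_cmul' hf, _root_.smul_apply, smul_eq_mul, mul_assoc]
    have a2 : ∫ z, fderiv ℝ (fun z => c * f z) z Complex.I * g₂ z ∂μ =
        c * ∫ z, fderiv ℝ f z Complex.I * g₂ z ∂μ := by
      rw [← integral_const_mul]
      refine integral_congr_ae (Filter.Eventually.of_forall fun z => ?_)
      show fderiv ℝ (fun z => c * f z) z Complex.I * g₂ z = _
      rw [fderiv_cmul' hf, _root_.smul_apply, smul_eq_mul, mul_assoc]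
    rw [a1, a2]
    ring

theorem norm_MF_le {μ : Measure ℂ} {g₁ g₂ : ℂ → ℂ} (h1 : Integrable g₁ μ) (h2 : Integrable g₂ μ)
    {f : ℂ → ℂ} {L : ℝ} (hL : LipB f L) (S : Set ℂ) (hS : MeasurableSet S)
    (h0 : ∀ z, z ∉ S → fderiv ℝ f z = 0) :
    ‖MF μ g₁ g₂ f‖ ≤ L * ((∫ z in S, ‖g₁ z‖ ∂μ) + ∫ z in S, ‖g₂ z‖ ∂μ) := by
  unfold MF
  refine (norm_add_le _ _).trans ?_
  rw [mul_add]
  refine add_le_add ?_ ?_
  · exact norm_int_le h1 _ L (lip_apply hL 1 norm_one) S hS fun z hz => by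
      rw [h0 z hz, _root_.zero_apply]
  · exact norm_int_le h2 _ L (lip_apply hL Complex.I Complex.norm_I) S hS fun z hz => by
      rw [h0 z hz, _root_.zero_apply]

/-- the local part -/
theorem local_part {k : ℂ → ℂ} (hk : LocallyIntegrable k) (R : ℝ) (u : ℂ → ℂ) (hu : Tst u) (L : ℝ)
    (hL : LipB u L) (h0 : ∀ z, 2 * R < ‖z‖ → fderiv ℝ u z = 0) (e : ℂ) (he : ‖e‖ = 1) (z : ℂ)
    (hz : ‖z‖ ≤ 1) :
    ‖(∫ w, fderiv ℝ u w e * k w) - ∫ w, fderiv ℝ (fun w => u (w + z)) w e * k w‖ ≤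
      L * ∫ w, ‖(Metric.closedBall (0 : ℂ) (2 * R + 1)).indicator k w -
        (Metric.closedBall (0 : ℂ) (2 * R + 1)).indicator k (w - z)‖ := by
  set K : ℂ → ℂ := (Metric.closedBall (0 : ℂ) (2 * R + 1)).indicator k with hK
  have hKi : Integrable K :=
    (integrable_indicator_iff Metric.isClosed_closedBall.measurableSet).2
      (hk.integrableOn_isCompact (isCompact_closedBall _ _))
  have e1 : ∫ w, fderiv ℝ u w e * k w = ∫ w, fderiv ℝ u w e * K w := by
    refine integral_congr_ae (Filter.Eventually.of_forall fun w => ?_)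
    show fderiv ℝ u w e * k w = fderiv ℝ u w e * K w
    by_cases hw : 2 * R < ‖w‖
    · rw [h0 w hw, _root_.zero_apply, zero_mul, zero_mul]
    · rw [not_lt] at hw
      have h1 : w ∈ Metric.closedBall (0 : ℂ) (2 * R + 1) := by
        rw [mem_closedBall_zero_iff]
        linarith
      rw [hK, Set.indicator_of_mem h1]
  have e2 : ∫ w, fderiv ℝ (fun w => u (w + z)) w e * k w =
      ∫ w, fderiv ℝ u w e * K (w - z) := by
    rw [← integral_sub_right_eq_self (fun w => fderiv ℝ (fun w => u (w + z)) w e * k w) z]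
    refine integral_congr_ae (Filter.Eventually.of_forall fun w => ?_)
    show fderiv ℝ (fun w => u (w + z)) (w - z) e * k (w - z) = fderiv ℝ u w e * K (w - z)
    rw [fderiv_comp_add_right, sub_add_cancel]
    by_cases hw : 2 * R < ‖w‖
    · rw [h0 w hw, _root_.zero_apply, zero_mul, zero_mul]
    · rw [not_lt] at hw
      have h1 : w - z ∈ Metric.closedBall (0 : ℂ) (2 * R + 1) := by
        rw [mem_closedBall_zero_iff]
        exact (norm_sub_le _ _).trans (add_le_add hw hz)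
      rw [hK, Set.indicator_of_mem h1]
  have hKz : Integrable fun w => K (w - z) := hKi.comp_sub_right z
  rw [e1, e2, ← integral_sub (int_mul hKi (tst_cont hu e) (lip_apply hL e he))
    (int_mul hKz (tst_cont hu e) (lip_apply hL e he))]
  have h3 := norm_int_le (μ := volume) (hKi.sub hKz) (fun w => fderiv ℝ u w e) L
    (lip_apply hL e he) Set.univ MeasurableSet.univ (fun z hz => absurd (Set.mem_univ z) hz)
  rw [setIntegral_univ] at h3
  refine le_trans (le_of_eq ?_) h3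
  refine congrArg _ (integral_congr_ae (Filter.Eventually.of_forall fun w => ?_))
  show fderiv ℝ u w e * K w - fderiv ℝ u w e * K (w - z) = fderiv ℝ u w e * (K w - K (w - z))
  ring

end U7Aux

open U7Aux

theorem blk_U7 : Stmt_U7 := by
  intro T μ g₁ g₂ k₁ k₂ _ hg₁ hg₂ hT hk₁ hk₂ hD
  have hTM : ∀ f, Tst f → T f = MF μ g₁ g₂ f := hT
  have hlf : IsLF T := by
    obtain ⟨h1, h2⟩ := MF_isLF hg₁ hg₂
    refine ⟨fun f g hf hg => ?_, fun c f hf => ?_⟩
    · rw [hTM f hf, hTM g hg, hTM _ (tst_add hf hg)]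
      exact h1 f g hf hg
    · rw [hTM f hf, hTM _ (tst_const_mul c hf)]
      exact h2 c f hf
  refine ⟨hlf, ⟨(∫ z, ‖g₁ z‖ ∂μ) + ∫ z, ‖g₂ z‖ ∂μ, fun f hf L hL => ?_⟩, ?_⟩
  · have h1 := norm_MF_le hg₁ hg₂ hL Set.univ MeasurableSet.univ
      (fun z hz => absurd (Set.mem_univ z) hz)
    rw [setIntegral_univ, setIntegral_univ] at h1
    rw [hTM f hf, mul_comm]
    exact h1
  · intro ε hε
    obtain ⟨C, hC0, htr⟩ := exists_trunc
    have hA : 0 < 4 * (2 + 2 * C) := by positivity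
    have hη : 0 < ε / (4 * (2 + 2 * C)) := by positivity
    have htail : Tendsto (fun n : ℕ => (∫ z in {z : ℂ | (n : ℝ) ≤ ‖z‖}, ‖g₁ z‖ ∂μ) +
        ∫ z in {z : ℂ | (n : ℝ) ≤ ‖z‖}, ‖g₂ z‖ ∂μ) atTop (𝓝 (0 + 0)) := (tail hg₁).add (tail hg₂)
    rw [add_zero] at htail
    obtain ⟨n, hn⟩ := (htail.eventually (gt_mem_nhds hη)).exists
    set S : Set ℂ := {z : ℂ | (n : ℝ) ≤ ‖z‖} with hS
    have hSm : MeasurableSet S := (isClosed_le continuous_const continuous_norm).measurableSet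
    set R : ℝ := n + 1 with hR
    have hR0 : 0 < R := by positivity
    have hi : ∀ k : ℂ → ℂ, LocallyIntegrable k →
        Integrable ((Metric.closedBall (0 : ℂ) (2 * R + 1)).indicator k) := fun k hk =>
      (integrable_indicator_iff Metric.isClosed_closedBall.measurableSet).2
        (hk.integrableOn_isCompact (isCompact_closedBall _ _))
    obtain ⟨δ₁, hδ₁, h₁⟩ := l1_translate (hi k₁ hk₁) _ hη
    obtain ⟨δ₂, hδ₂, h₂⟩ := l1_translate (hi k₂ hk₂) _ hη
    refine ⟨min (min δ₁ δ₂) 1, lt_min (lt_min hδ₁ hδ₂) one_pos, fun z hz f hf L hL => ?_⟩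
    have hz1 : ‖z‖ ≤ 1 := hz.trans (min_le_right _ _)
    have hzδ₁ : ‖z‖ ≤ δ₁ := (hz.trans (min_le_left _ _)).trans (min_le_left _ _)
    have hzδ₂ : ‖z‖ ≤ δ₂ := (hz.trans (min_le_left _ _)).trans (min_le_right _ _)
    have hL0 := lip_nonneg hL
    obtain ⟨u, hu, huL, huf, hu0⟩ := htr R hR0 f L hf hL
    have hv := tst_sub hf hu
    have hvL : LipB (fun z => f z - u z) ((2 + 2 * C) * L) := by
      intro w
      rw [fderiv_sub' hf hu]
      refine (norm_sub_le _ _).trans ?_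
      have a1 := hL w
      have a2 := huL w
      calc ‖fderiv ℝ f w‖ + ‖fderiv ℝ u w‖ ≤ L + (1 + 2 * C) * L := add_le_add a1 a2
        _ = (2 + 2 * C) * L := by ring
    have hv0 : ∀ w, ‖w‖ < R → fderiv ℝ (fun z => f z - u z) w = 0 := by
      intro w hw
      rw [fderiv_sub' hf hu, huf w hw, sub_self]
    -- the part at infinity
    have b1 : ‖T (fun z => f z - u z)‖ ≤ ε / 4 * L := by
      rw [hTM _ hv]
      refine (norm_MF_le hg₁ hg₂ hvL S hSm fun w hw => hv0 w ?_).trans ?_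
      · have h3 : ¬ (n : ℝ) ≤ ‖w‖ := hw
        rw [not_le] at h3
        rw [hR]
        linarith
      · calc (2 + 2 * C) * L * ((∫ z in S, ‖g₁ z‖ ∂μ) + ∫ z in S, ‖g₂ z‖ ∂μ)
            ≤ (2 + 2 * C) * L * (ε / (4 * (2 + 2 * C))) :=
              mul_le_mul_of_nonneg_left hn.le (by positivity)
          _ = ε / 4 * L := by field_simp
    have b2 : ‖T (fun w => f (w + z) - u (w + z))‖ ≤ ε / 4 * L := by
      have hvz := tst_shift z hv
      rw [hTM _ hvz]
      have hfd : ∀ w, fderiv ℝ (fun w => f (w + z) - u (w + z)) w =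
          fderiv ℝ (fun z => f z - u z) (w + z) := fun w =>
        fderiv_comp_add_right (f := fun z => f z - u z) z
      have hvzL : LipB (fun w => f (w + z) - u (w + z)) ((2 + 2 * C) * L) := by
        intro w
        rw [hfd]
        exact hvL (w + z)
      refine (norm_MF_le hg₁ hg₂ hvzL S hSm fun w hw => ?_).trans ?_
      · rw [hfd]
        refine hv0 _ ?_
        have h3 : ¬ (n : ℝ) ≤ ‖w‖ := hw
        rw [not_le] at h3
        refine (norm_add_le _ _).trans_lt ?_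
        rw [hR]
        linarith
      · calc (2 + 2 * C) * L * ((∫ z in S, ‖g₁ z‖ ∂μ) + ∫ z in S, ‖g₂ z‖ ∂μ)
            ≤ (2 + 2 * C) * L * (ε / (4 * (2 + 2 * C))) :=
              mul_le_mul_of_nonneg_left hn.le (by positivity)
          _ = ε / 4 * L := by field_simp
    -- the local part
    have hLu0 : 0 ≤ (1 + 2 * C) * L := by positivity
    have b3 : ‖T u - T (fun w => u (w + z))‖ ≤ ε / 2 * L := by
      rw [hD _ hu, hD _ (tst_shift z hu)]
      unfold Dg
      have c1 := local_part hk₁ R u hu _ huL hu0 1 norm_one z hz1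
      have c2 := local_part hk₂ R u hu _ huL hu0 Complex.I Complex.norm_I z hz1
      have c3 := mul_le_mul_of_nonneg_left (h₁ z hzδ₁) hLu0
      have c4 := mul_le_mul_of_nonneg_left (h₂ z hzδ₂) hLu0
      have c5 : (1 + 2 * C) * L * (ε / (4 * (2 + 2 * C))) ≤ ε / 4 * L := by
        calc (1 + 2 * C) * L * (ε / (4 * (2 + 2 * C)))
            ≤ (2 + 2 * C) * L * (ε / (4 * (2 + 2 * C))) := by
              refine mul_le_mul_of_nonneg_right (mul_le_mul_of_nonneg_right ?_ hL0) hη.le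
              linarith
          _ = ε / 4 * L := by field_simp
      rw [add_sub_add_comm]
      refine (norm_add_le _ _).trans ?_
      linarith
    -- combination
    have d1 : T f = T (fun z => f z - u z) + T u := by
      rw [← hlf.1 _ _ hv hu]
      congr 1
      funext w
      ring
    have d2 : T (fun w => f (w + z)) =
        T (fun w => f (w + z) - u (w + z)) + T (fun w => u (w + z)) := by
      have hvz := tst_shift z hv
      have huz := tst_shift z hu
      rw [← hlf.1 _ _ hvz huz]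
      congr 1
      funext w
      ring
    show ‖T f - T (fun w => f (w + z))‖ ≤ ε * L
    rw [d1, d2, add_sub_add_comm]
    refine (norm_add_le _ _).trans ?_
    have d3 := norm_sub_le (T (fun z => f z - u z)) (T (fun w => f (w + z) - u (w + z)))
    linarith

end Pool.Q2
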