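import Pool.Agent.Work.MP_8c7e5b_q2.Interface4
import Pool.Agent.Work.MP_8c7e5b_q2.U7

/-!
# MP_8c7e5b_an, Q2: block U7b (from local to global, with a bounded functional)
-/

open MeasureTheory Complex Filter Topology
open scoped ComplexOrder InnerProductSpace ComplexConjugate BoundedContinuousFunction ZeroAtInfty

set_option autoImplicit false
set_option linter.unusedSectionVars false

universe v

namespace Pool.Q2

open Pool.Bes

namespace U7bAux

open U7Aux

/-- a bounded functional is small on continuous functions with compact support far away -/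
theorem tight (Λ : (ℂ →ᵇ ℂ) →L[ℂ] ℂ) {η : ℝ} (hη : 0 < η) : ∃ n : ℕ, ∀ u : ℂ →ᵇ ℂ,
    HasCompactSupport u → (∀ z, ‖z‖ < n → u z = 0) → ‖Λ u‖ ≤ η * ‖u‖ := by
  by_contra hcon
  push Not at hcon
  have hstep : ∀ n : ℕ, ∃ w : ℂ →ᵇ ℂ, HasCompactSupport w ∧ (∀ z, ‖z‖ < n → w z = 0) ∧ ‖w‖ ≤ 1 ∧
      η ≤ (Λ w).re := by
    intro n
    obtain ⟨u, hu, hu0, hul⟩ := hcon n
    have hpos : 0 < ‖Λ u‖ := lt_of_le_of_lt (by positivity) hul
    have hun : 0 < ‖u‖ := by
      rcases (norm_nonneg u).eq_or_lt with h | h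
      · rw [norm_eq_zero.1 h.symm, map_zero, norm_zero] at hpos
        exact absurd hpos (lt_irrefl _)
      · exact h
    set c : ℂ := conj (Λ u) / ((‖Λ u‖ * ‖u‖ : ℝ) : ℂ) with hc
    have hcn : ‖c‖ = 1 / ‖u‖ := by
      rw [hc, norm_div, RCLike.norm_conj, Complex.norm_real, Real.norm_of_nonneg (by positivity)]
      field_simp
    refine ⟨c • u, ?_, fun z hz => ?_, ?_, ?_⟩
    · have h1 : (⇑(c • u) : ℂ → ℂ) = fun z => c * u z := rfl
      rw [h1]
      exact HasCompactSupport.mul_left (f := fun _ => c) hu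
    · show c * u z = 0
      rw [hu0 z hz, mul_zero]
    · rw [norm_smul, hcn, one_div, inv_mul_cancel₀ hun.ne']
    · have h1 : Λ (c • u) = ((‖Λ u‖ / ‖u‖ : ℝ) : ℂ) := by
        rw [map_smul, smul_eq_mul, hc, div_mul_eq_mul_div, Complex.conj_mul']
        push_cast
        have h2 : (‖Λ u‖ : ℂ) ≠ 0 := by exact_mod_cast hpos.ne'
        have h3 : (‖u‖ : ℂ) ≠ 0 := by exact_mod_cast hun.ne'
        field_simp
      rw [h1, Complex.ofReal_re, le_div_iff₀ hun]
      exact hul.le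
  have hseq : ∀ m : ℕ, ∃ u : ℂ →ᵇ ℂ, HasCompactSupport u ∧ ‖u‖ ≤ 1 ∧ m * η ≤ (Λ u).re := by
    intro m
    induction m with
    | zero =>
      refine ⟨0, ?_, ?_, ?_⟩
      · exact HasCompactSupport.zero
      · rw [norm_zero]
        exact zero_le_one
      · rw [map_zero, Nat.cast_zero, zero_mul, Complex.zero_re]
    | succ m ih =>
      obtain ⟨u, hu, hu1, hul⟩ := ih
      obtain ⟨R, hR⟩ := hu.isCompact.isBounded.exists_norm_le
      obtain ⟨n, hn⟩ := exists_nat_gt R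
      obtain ⟨w, hw, hw0, hw1, hwl⟩ := hstep n
      refine ⟨u + w, ?_, ?_, ?_⟩
      · have h1 : (⇑(u + w) : ℂ → ℂ) = ⇑u + ⇑w := rfl
        rw [h1]
        exact hu.add hw
      · rw [BoundedContinuousFunction.norm_le zero_le_one]
        intro z
        show ‖u z + w z‖ ≤ 1
        by_cases hz : ‖z‖ < n
        · rw [hw0 z hz, add_zero]
          exact (u.norm_coe_le_norm z).trans hu1
        · have h1 : u z = 0 := by
            refine image_eq_zero_of_notMem_tsupport fun h2 => hz ?_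
            exact lt_of_le_of_lt (hR z h2) hn
          rw [h1, zero_add]
          exact (w.norm_coe_le_norm z).trans hw1
      · rw [map_add, Complex.add_re]
        push_cast
        linarith
  obtain ⟨m, hm⟩ := exists_nat_gt (‖Λ‖ / η)
  obtain ⟨u, _, hu1, hul⟩ := hseq m
  rw [div_lt_iff₀ hη] at hm
  have h1 : (Λ u).re ≤ ‖Λ‖ := by
    calc (Λ u).re ≤ ‖Λ u‖ := Complex.re_le_norm _
      _ ≤ ‖Λ‖ * ‖u‖ := Λ.le_opNorm u
      _ ≤ ‖Λ‖ * 1 := mul_le_mul_of_nonneg_left hu1 (norm_nonneg _)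
      _ = ‖Λ‖ := mul_one _
  linarith

/-- the partial derivative as a bounded continuous function -/
theorem exists_bcf {f : ℂ → ℂ} (hf : Tst f) {L : ℝ} (hL : LipB f L) (e : ℂ) (he : ‖e‖ = 1) :
    ∃ u : ℂ →ᵇ ℂ, (∀ z, u z = fderiv ℝ f z e) ∧ HasCompactSupport u ∧ ‖u‖ ≤ L := by
  refine ⟨BoundedContinuousFunction.ofNormedAddCommGroup (fun z => fderiv ℝ f z e) (tst_cont hf e) L
    (lip_apply hL e he), fun z => rfl, ?_, ?_⟩
  · exact HasCompactSupport.fderiv_apply (𝕜 := ℝ) hf.2 e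
  · exact BoundedContinuousFunction.norm_ofNormedAddCommGroup_le _ (lip_nonneg hL) _

end U7bAux

open U7Aux U7bAux

theorem blk_U7b : Stmt_U7b := by
  intro hFB T K₀ k₁ k₂ hlf hBd₀ hk₁ hk₂ hD
  set K : ℝ := max K₀ 0 with hKdef
  have hBd : BdL T K := by
    intro f hf L hL
    exact (hBd₀ f hf L hL).trans
      (mul_le_mul_of_nonneg_right (le_max_left _ _) (lip_nonneg hL))
  obtain ⟨Λ₁, Λ₂, -, -, hΛ⟩ := hFB T K (le_max_right _ _) hlf hBd
  intro ε hε
  obtain ⟨C, hC0, htr⟩ := exists_trunc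
  have hη : 0 < ε / (4 * (2 + 2 * C)) := by positivity
  have hη2 : 0 < ε / (4 * (2 + 2 * C)) / 2 := by positivity
  obtain ⟨n₁, hn₁⟩ := tight Λ₁ hη2
  obtain ⟨n₂, hn₂⟩ := tight Λ₂ hη2
  set n : ℕ := max n₁ n₂ with hndef
  set R : ℝ := n + 1 with hR
  have hR0 : 0 < R := by positivity
  have hfar : ∀ (v : ℂ → ℂ) (L : ℝ), Tst v → LipB v ((2 + 2 * C) * L) → 0 ≤ L →
      (∀ w, ‖w‖ < n → fderiv ℝ v w = 0) → ‖T v‖ ≤ ε / 4 * L := by
    intro v L hv hvL hL0 hv0
    obtain ⟨u₁, hu₁, hc₁, hb₁⟩ := exists_bcf hv hvL 1 norm_one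
    obtain ⟨u₂, hu₂, hc₂, hb₂⟩ := exists_bcf hv hvL Complex.I Complex.norm_I
    rw [hΛ v hv u₁ u₂ hu₁ hu₂]
    have e1 := hn₁ u₁ hc₁ (fun z hz => by
      rw [hu₁, hv0 z (hz.trans_le (by exact_mod_cast le_max_left n₁ n₂))]
      rfl)
    have e2 := hn₂ u₂ hc₂ (fun z hz => by
      rw [hu₂, hv0 z (hz.trans_le (by exact_mod_cast le_max_right n₁ n₂))]
      rfl)
    have e3 : ε / (4 * (2 + 2 * C)) / 2 * ‖u₁‖ ≤ ε / (4 * (2 + 2 * C)) / 2 * ((2 + 2 * C) * L) :=
      mul_le_mul_of_nonneg_left hb₁ hη2.le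
    have e4 : ε / (4 * (2 + 2 * C)) / 2 * ‖u₂‖ ≤ ε / (4 * (2 + 2 * C)) / 2 * ((2 + 2 * C) * L) :=
      mul_le_mul_of_nonneg_left hb₂ hη2.le
    have e5 : ε / (4 * (2 + 2 * C)) / 2 * ((2 + 2 * C) * L) +
        ε / (4 * (2 + 2 * C)) / 2 * ((2 + 2 * C) * L) = ε / 4 * L := by
      field_simp
      ring
    refine (norm_add_le _ _).trans ?_
    linarith
  have hi : ∀ k : ℂ → ℂ, LocallyIntegrable k →
      Integrable ((Metric.closedBall (0 : ℂ) (2 * R + 1)).indicator k) := fun k hk =>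
    (integrable_indicator_iff Metric.isClosed_closedBall.measurableSet).2
      (hk.integrableOn_isCompact (isCompact_closedBall _ _))
  obtain ⟨δ₁, hδ₁, h₁⟩ := l1_translate (hi k₁ hk₁) _ hη
  obtain ⟨δ₂, hδ₂, h₂⟩ := l1_translate (hi k₂ hk₂) _ hη
  refine ⟨min (min δ₁ δ₂) 1, lt_min (lt_min hδ₁ hδ₂) one_pos, fun z hz f hf L hL => ?_⟩
  have hz1 : ‖z‖ ≤ 1 := hz.trans (min_le_right _ _)
  have hzδ₁ : ‖z‖ ≤ δ₁ := (hz.trans (min_le_left _ _)).trans (min_le_left _ _)
  have hzδ₂ : ‖z‖ ≤ δ₂ := (hz.trans (min_le_left _ _)).trans (min_le_right _ _)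
  have hL0 := lip_nonneg hL
  obtain ⟨u, hu, huL, huf, hu0⟩ := htr R hR0 f L hf hL
  have hv := tst_sub hf hu
  have hvL : LipB (fun z => f z - u z) ((2 + 2 * C) * L) := by
    intro w
    rw [fderiv_sub' hf hu]
    refine (norm_sub_le _ _).trans ?_
    have a1 := hL w
    have a2 := huL w
    calc ‖fderiv ℝ f w‖ + ‖fderiv ℝ u w‖ ≤ L + (1 + 2 * C) * L := add_le_add a1 a2
      _ = (2 + 2 * C) * L := by ring
  have hv0 : ∀ w, ‖w‖ < R → fderiv ℝ (fun z => f z - u z) w = 0 := by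
    intro w hw
    rw [fderiv_sub' hf hu, huf w hw, sub_self]
  have b1 : ‖T (fun z => f z - u z)‖ ≤ ε / 4 * L := by
    refine hfar _ L hv hvL hL0 fun w hw => hv0 w ?_
    rw [hR]
    linarith
  have b2 : ‖T (fun w => f (w + z) - u (w + z))‖ ≤ ε / 4 * L := by
    have hvz := tst_shift z hv
    have hfd : ∀ w, fderiv ℝ (fun w => f (w + z) - u (w + z)) w =
        fderiv ℝ (fun z => f z - u z) (w + z) := fun w =>
      fderiv_comp_add_right (f := fun z => f z - u z) z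
    have hvzL : LipB (fun w => f (w + z) - u (w + z)) ((2 + 2 * C) * L) := by
      intro w
      rw [hfd]
      exact hvL (w + z)
    refine hfar _ L hvz hvzL hL0 fun w hw => ?_
    rw [hfd]
    refine hv0 _ ?_
    refine (norm_add_le _ _).trans_lt ?_
    rw [hR]
    linarith
  have hLu0 : 0 ≤ (1 + 2 * C) * L := by positivity
  have b3 : ‖T u - T (fun w => u (w + z))‖ ≤ ε / 2 * L := by
    rw [hD _ hu, hD _ (tst_shift z hu)]
    unfold Dg
    have c1 := local_part hk₁ R u hu _ huL hu0 1 norm_one z hz1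
    have c2 := local_part hk₂ R u hu _ huL hu0 Complex.I Complex.norm_I z hz1
    have c3 := mul_le_mul_of_nonneg_left (h₁ z hzδ₁) hLu0
    have c4 := mul_le_mul_of_nonneg_left (h₂ z hzδ₂) hLu0
    have c5 : (1 + 2 * C) * L * (ε / (4 * (2 + 2 * C))) ≤ ε / 4 * L := by
      calc (1 + 2 * C) * L * (ε / (4 * (2 + 2 * C)))
          ≤ (2 + 2 * C) * L * (ε / (4 * (2 + 2 * C))) := by
            refine mul_le_mul_of_nonneg_right (mul_le_mul_of_nonneg_right ?_ hL0) hη.le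
            linarith
        _ = ε / 4 * L := by field_simp
    rw [add_sub_add_comm]
    refine (norm_add_le _ _).trans ?_
    linarith
  have d1 : T f = T (fun z => f z - u z) + T u := by
    rw [← hlf.1 _ _ hv hu]
    refine congrArg T (funext fun w => ?_)
    ring
  have d2 : T (fun w => f (w + z)) =
      T (fun w => f (w + z) - u (w + z)) + T (fun w => u (w + z)) := by
    have hvz := tst_shift z hv
    have huz := tst_shift z hu
    rw [← hlf.1 _ _ hvz huz]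
    refine congrArg T (funext fun w => ?_)
    ring
  show ‖T f - T (fun w => f (w + z))‖ ≤ ε * L
  rw [d1, d2, add_sub_add_comm]
  refine (norm_add_le _ _).trans ?_
  have d3 := norm_sub_le (T (fun z => f z - u z)) (T (fun w => f (w + z) - u (w + z)))
  linarith

end Pool.Q2
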