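import Pool.Agent.Work.MP_8c7e5b_q2.Interface4
import Pool.Agent.Work.MP_8c7e5b_q2.U8

/-!
# MP_8c7e5b_an, Q2, block U9: the uniform bound for unbounded pairs
-/

open MeasureTheory Complex Filter Topology
open scoped ComplexOrder InnerProductSpace ComplexConjugate BoundedContinuousFunction ZeroAtInfty

set_option autoImplicit false
set_option linter.unusedSectionVars false

universe v

namespace Pool.Q2

open Pool.Bes

namespace U9Aux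

section

variable {H : Type v} [NormedAddCommGroup H] [InnerProductSpace ℂ H] [CompleteSpace H]

theorem n1_dt_le (e : ℂ) {D : H →L[ℂ] H} (hD : IsT D) : n1 (dt e D) ≤ ‖e‖ * n1 D := by
  have h1 : IsT (conj e • D) := hD.smul _
  have h2 : IsT (e • star D) := hD.star.smul _
  rw [dt, n1_smul _ (h1.add h2)]
  have h3 : n1 (conj e • D + e • star D) ≤ ‖e‖ * n1 D + ‖e‖ * n1 D := by
    refine (n1_add_le h1 h2).trans ?_
    rw [n1_smul _ hD, n1_smul _ hD.star, n1_star hD, RCLike.norm_conj]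
  have h4 : ‖(1 / 2 : ℂ)‖ = 1 / 2 := by
    rw [show (1 / 2 : ℂ) = ((1 / 2 : ℝ) : ℂ) by norm_num, Complex.norm_real]
    norm_num
  rw [h4]
  linarith

theorem dt_smul_real (e : ℂ) (δ : ℝ) (D : H →L[ℂ] H) : dt e ((δ : ℂ) • D) = (δ : ℂ) • dt e D := by
  rw [dt, dt, star_smul, smul_comm (δ : ℂ) (1 / 2 : ℂ), smul_add]
  have h1 : star (δ : ℂ) = (δ : ℂ) := Complex.conj_ofReal δ
  rw [h1, smul_comm (conj e) (δ : ℂ), smul_comm e (δ : ℂ), ← smul_add, ← smul_add]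

theorem diff_dil {N₁ N₂ N₁' N₂' : H →ₗ.[ℂ] H} {D : H →L[ℂ] H} {δ : ℝ} (hδ : 0 < δ)
    (h : Diff N₁ N₂ D) (h1 : ∀ x y : H, (x, y) ∈ N₁.graph ↔ (x, (δ : ℂ) • y) ∈ N₁'.graph)
    (h2 : ∀ x y : H, (x, y) ∈ N₂.graph ↔ (x, (δ : ℂ) • y) ∈ N₂'.graph) :
    Diff N₁' N₂' ((δ : ℂ) • D) := by
  intro x y
  have hδ' : (δ : ℂ) ≠ 0 := by exact_mod_cast hδ.ne'
  have hy : y = (δ : ℂ) • ((δ : ℂ)⁻¹ • y) := by rw [smul_smul, mul_inv_cancel₀ hδ', one_smul]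
  have h3 : y + ((δ : ℂ) • D) x = (δ : ℂ) • ((δ : ℂ)⁻¹ • y + D x) := by
    rw [smul_add, ← hy]
    rfl
  rw [h3, ← h2, ← h]
  conv_lhs => rw [hy]
  exact (h1 _ _).symm

end

section

theorem norm_stretch_le (z d : ℂ) :
    ‖(((1 + z.re ^ 2) * d.re : ℝ) : ℂ) + (((1 + z.im ^ 2) * d.im : ℝ) : ℂ) * Complex.I‖ ≤
      (1 + ‖z‖ ^ 2) * ‖d‖ := by
  have h1 : ‖(((1 + z.re ^ 2) * d.re : ℝ) : ℂ) + (((1 + z.im ^ 2) * d.im : ℝ) : ℂ) * Complex.I‖ ^ 2 =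
      ((1 + z.re ^ 2) * d.re) ^ 2 + ((1 + z.im ^ 2) * d.im) ^ 2 := by
    rw [Complex.sq_norm, Complex.normSq_add_mul_I]
  have h2 : ‖z‖ ^ 2 = z.re ^ 2 + z.im ^ 2 := by
    rw [Complex.sq_norm, Complex.normSq_apply]; ring
  have h3 : ‖d‖ ^ 2 = d.re ^ 2 + d.im ^ 2 := by
    rw [Complex.sq_norm, Complex.normSq_apply]; ring
  refine (sq_le_sq₀ (norm_nonneg _) (by positivity)).1 ?_
  rw [h1, mul_pow, mul_pow, mul_pow, h3, h2]
  have h4 : (1 + z.re ^ 2) ^ 2 ≤ (1 + (z.re ^ 2 + z.im ^ 2)) ^ 2 := by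
    apply pow_le_pow_left₀ (by positivity)
    nlinarith [sq_nonneg z.im]
  have h5 : (1 + z.im ^ 2) ^ 2 ≤ (1 + (z.re ^ 2 + z.im ^ 2)) ^ 2 := by
    apply pow_le_pow_left₀ (by positivity)
    nlinarith [sq_nonneg z.re]
  nlinarith [mul_le_mul_of_nonneg_right h4 (sq_nonneg d.re),
    mul_le_mul_of_nonneg_right h5 (sq_nonneg d.im)]

/-- the dilated function -/
theorem dil (f : ℂ → ℂ) (hf : Tst f) (δ : ℝ) (hδ : 0 < δ) :
    Tst (fun z : ℂ => f (δ⁻¹ • z)) ∧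
    ∀ z : ℂ, fderiv ℝ (fun z : ℂ => f (δ⁻¹ • z)) z = δ⁻¹ • fderiv ℝ f (δ⁻¹ • z) := by
  refine ⟨⟨hf.1.comp (contDiff_const_smul δ⁻¹), hf.2.comp_smul (inv_ne_zero hδ.ne')⟩, ?_⟩
  intro z
  exact fderiv_comp_smul _

theorem exists_radius (f : ℂ → ℂ) (hf : Tst f) : ∃ R : ℝ, ∀ z, R < ‖z‖ → fderiv ℝ f z = 0 := by
  have h1 : HasCompactSupport (fderiv ℝ f) := hf.2.fderiv (𝕜 := ℝ)
  obtain ⟨R, hR⟩ := h1.isBounded.exists_norm_le
  refine ⟨R, fun z hz => ?_⟩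
  by_contra h
  exact absurd (hR z (subset_tsupport _ h)) (not_le.2 hz)

/-- the Lipschitz bound in the square -/
theorem lip_F (f F : ℂ → ℂ) (R L δ : ℝ) (hδ : 0 < δ) (hf : Tst f)
    (hR : ∀ z, R < ‖z‖ → fderiv ℝ f z = 0) (hL : LipB f L)
    (hx : ∀ z : ℂ, fderiv ℝ F (Sq z) 1 =
      (1 + z.re ^ 2 : ℝ) * fderiv ℝ (fun z : ℂ => f (δ⁻¹ • z)) z 1)
    (hy : ∀ z : ℂ, fderiv ℝ F (Sq z) Complex.I =
      (1 + z.im ^ 2 : ℝ) * fderiv ℝ (fun z : ℂ => f (δ⁻¹ • z)) z Complex.I)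
    (ho : ∀ w : ℂ, w ∉ Set.range Sq → ∀ d : ℂ, fderiv ℝ F w d = 0) :
    LipB F (L / δ * (1 + δ ^ 2 * R ^ 2)) := by
  have hL0 : 0 ≤ L := (norm_nonneg _).trans (hL 0)
  have hd := (dil f hf δ hδ).2
  intro w
  refine ContinuousLinearMap.opNorm_le_bound _ (by positivity) fun d => ?_
  by_cases hw : w ∈ Set.range Sq
  · obtain ⟨z, rfl⟩ := hw
    have h1 : fderiv ℝ F (Sq z) d = fderiv ℝ (fun z : ℂ => f (δ⁻¹ • z)) z
        ((((1 + z.re ^ 2) * d.re : ℝ) : ℂ) + (((1 + z.im ^ 2) * d.im : ℝ) : ℂ) * Complex.I) := by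
      have h2 : d = d.re • (1 : ℂ) + d.im • Complex.I := by
        simp [Complex.re_add_im]
      have h3 : (((1 + z.re ^ 2) * d.re : ℝ) : ℂ) + (((1 + z.im ^ 2) * d.im : ℝ) : ℂ) * Complex.I =
          ((1 + z.re ^ 2) * d.re) • (1 : ℂ) + ((1 + z.im ^ 2) * d.im) • Complex.I := by
        rw [Complex.real_smul, Complex.real_smul, mul_one]
      conv_lhs => rw [h2]
      rw [h3, map_add, map_add, map_smul, map_smul, map_smul, map_smul, hx, hy]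
      simp only [Complex.real_smul]
      push_cast
      ring
    rw [h1]
    by_cases hz : δ * R < ‖z‖
    · have h4 : fderiv ℝ (fun z : ℂ => f (δ⁻¹ • z)) z = 0 := by
        rw [hd, hR, smul_zero]
        rw [norm_smul, Real.norm_of_nonneg (inv_nonneg.2 hδ.le)]
        rw [inv_mul_eq_div, lt_div_iff₀ hδ]
        linarith
      rw [h4, _root_.zero_apply, norm_zero]
      positivity
    · push Not at hz
      refine (ContinuousLinearMap.le_opNorm _ _).trans ?_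
      have h5 : ‖fderiv ℝ (fun z : ℂ => f (δ⁻¹ • z)) z‖ ≤ L / δ := by
        rw [hd, norm_smul, Real.norm_of_nonneg (inv_nonneg.2 hδ.le), inv_mul_eq_div]
        exact div_le_div_of_nonneg_right (hL _) hδ.le
      have h6 : (1 + ‖z‖ ^ 2) ≤ 1 + δ ^ 2 * R ^ 2 := by
        have := pow_le_pow_left₀ (norm_nonneg z) hz 2
        rw [mul_pow] at this
        linarith
      calc _ ≤ L / δ * ((1 + ‖z‖ ^ 2) * ‖d‖) :=
            mul_le_mul h5 (norm_stretch_le z d) (norm_nonneg _) (by positivity)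
        _ ≤ L / δ * ((1 + δ ^ 2 * R ^ 2) * ‖d‖) := by gcongr
        _ = L / δ * (1 + δ ^ 2 * R ^ 2) * ‖d‖ := by ring
  · rw [ho w hw d, norm_zero]
    positivity

end

end U9Aux

open U8Aux U9Aux in
theorem blk_U9 (hU1 : Stmt_U1.{v}) (hU3n : Stmt_U3n.{v}) (hU4 : Stmt_U4.{v}) (hU5 : Stmt_U5)
    (_hTFN : Stmt_TFN.{v}) (hDIL : Stmt_DIL.{v}) : Stmt_U9.{v} := by
  intro C₀ hC₀ hUB H _ _ _ _ N₁ N₂ π₁ π₂ D hc₁ hc₂ hD hdiff f hf L hL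
  obtain ⟨R, hR⟩ := exists_radius f hf
  have hL0 : 0 ≤ L := (norm_nonneg _).trans (hL 0)
  have key : ∀ δ : ℝ, 0 < δ →
      ‖Tp π₁ π₂ f‖ ≤ 2 * C₀ * n1 D * L * (1 + δ ^ 2 * R ^ 2) := by
    intro δ hδ
    obtain ⟨N₁', π₁', hc₁', hπ₁', hg₁⟩ := hDIL H N₁ π₁ δ hc₁ hδ
    obtain ⟨N₂', π₂', hc₂', hπ₂', hg₂⟩ := hDIL H N₂ π₂ δ hc₂ hδ
    have hdiff' : Diff N₁' N₂' ((δ : ℂ) • D) := diff_dil hδ hdiff hg₁ hg₂
    have hD' : IsT ((δ : ℂ) • D) := hD.smul _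
    obtain ⟨Φ₁, hΦ₁⟩ := hU1 H π₁' hc₁'.1
    obtain ⟨Φ₂, hΦ₂⟩ := hU1 H π₂' hc₂'.1
    set S : ℂ →ᵇ ℂ := at' 1 + Complex.I • at' Complex.I with hS
    have hS1 : ∀ z, S z = Sq z := S_apply
    obtain ⟨hn₁, hM₁⟩ := hU4 H Φ₁ S hΦ₁.norm hS1
    obtain ⟨hn₂, hM₂⟩ := hU4 H Φ₂ S hΦ₂.norm hS1
    have h1 := hU3n H N₁' N₂' π₁' π₂' Φ₁ Φ₂ _ hc₁' hc₂' hΦ₁ hΦ₂ hdiff' hD' 1 (at' 1)
      (fun z => rfl)
    have h2 := hU3n H N₁' N₂' π₁' π₂' Φ₁ Φ₂ _ hc₁' hc₂' hΦ₁ hΦ₂ hdiff' hD' Complex.I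
      (at' Complex.I) (fun z => rfl)
    have h3 : Φ₂ S - Φ₁ S = (Φ₂ (at' 1) - Φ₁ (at' 1)) +
        Complex.I • (Φ₂ (at' Complex.I) - Φ₁ (at' Complex.I)) := by
      rw [hS, map_add, map_add, map_smul, map_smul, smul_sub]
      abel
    have hT : IsT (Φ₂ S - Φ₁ S) := by
      rw [h3]
      exact h1.1.add (h2.1.smul _)
    have hn : n1 (Φ₂ S - Φ₁ S) ≤ 2 * δ * n1 D := by
      rw [h3]
      refine (n1_add_le h1.1 (h2.1.smul _)).trans ?_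
      rw [n1_smul _ h2.1, Complex.norm_I, one_mul]
      have h4 : n1 (dt 1 ((δ : ℂ) • D)) ≤ δ * n1 D := by
        have h5 := n1_dt_le 1 hD'
        rw [n1_smul _ hD, Complex.norm_real, Real.norm_of_nonneg hδ.le, norm_one, one_mul] at h5
        exact h5
      have h6 : n1 (dt Complex.I ((δ : ℂ) • D)) ≤ δ * n1 D := by
        have h5 := n1_dt_le Complex.I hD'
        rw [n1_smul _ hD, Complex.norm_real, Real.norm_of_nonneg hδ.le, Complex.norm_I,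
          one_mul] at h5
        exact h5
      linarith [h1.2, h2.2]
    -- the dilated function
    obtain ⟨hfδ, hfd⟩ := dil f hf δ hδ
    obtain ⟨F, hF, hFf, hx, hy, ho⟩ := hU5 _ hfδ
    obtain ⟨fδ₀, hfδ₀⟩ := exists_C0 _ hfδ
    obtain ⟨f₀, hf₀⟩ := exists_C0 f hf
    obtain ⟨G, hG⟩ := exists_bcf fδ₀
    have hG' : ∀ z, G z = F (Sq z) := fun z => by rw [hG z, hFf z, hfδ₀ z]
    have e1 : π₁' fδ₀ = cfc F (Φ₁ S) := by
      rw [hM₁ F G hF.1.continuous hG']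
      exact (hΦ₁.ext fδ₀ G hG).symm
    have e2 : π₂' fδ₀ = cfc F (Φ₂ S) := by
      rw [hM₂ F G hF.1.continuous hG']
      exact (hΦ₂.ext fδ₀ G hG).symm
    have hdil : ∀ z : ℂ, f₀ z = fδ₀ (δ * z) := by
      intro z
      rw [hf₀ z, hfδ₀ (δ * z)]
      congr 1
      rw [Complex.real_smul, ← mul_assoc, Complex.ofReal_inv, inv_mul_cancel₀, one_mul]
      exact_mod_cast hδ.ne'
    have e3 : π₁' fδ₀ = π₁ f₀ := hπ₁' fδ₀ f₀ hdil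
    have e4 : π₂' fδ₀ = π₂ f₀ := hπ₂' fδ₀ f₀ hdil
    have e5 : Tp π₁ π₂ f = Tf (Φ₁ S) (Φ₂ S) F := by
      rw [Tp_eq π₁ π₂ f f₀ hf₀, Tf, ← e1, ← e2, e3, e4]
    rw [e5]
    have hlip := lip_F f F R L δ hδ hf hR hL hx hy ho
    have hb := hUB H (Φ₁ S) (Φ₂ S) hn₁ hn₂ hT F hF _ hlip
    refine hb.trans ?_
    calc C₀ * n1 (Φ₂ S - Φ₁ S) * (L / δ * (1 + δ ^ 2 * R ^ 2)) ≤
          C₀ * (2 * δ * n1 D) * (L / δ * (1 + δ ^ 2 * R ^ 2)) := by gcongr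
      _ = 2 * C₀ * n1 D * L * (1 + δ ^ 2 * R ^ 2) := by
          field_simp
  have hlim : Tendsto (fun δ : ℝ => 2 * C₀ * n1 D * L * (1 + δ ^ 2 * R ^ 2)) (𝓝[>] 0)
      (𝓝 (2 * C₀ * n1 D * L * (1 + (0 : ℝ) ^ 2 * R ^ 2))) := by
    refine Tendsto.mono_left ?_ nhdsWithin_le_nhds
    exact Continuous.tendsto (by fun_prop) 0
  have h := ge_of_tendsto hlim (Filter.eventually_of_mem self_mem_nhdsWithin fun δ hδ => key δ hδ)
  have h' : 2 * C₀ * n1 D * L * (1 + (0 : ℝ) ^ 2 * R ^ 2) = 2 * C₀ * n1 D * L := by ring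
  rwa [h'] at h

end Pool.Q2
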