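import Pool.Agent.Work.MP_8c7e5b_q2.Interface3

/-!
# Block UFI: from Q1 to absolutely continuous measures, for all normal operators
-/

open MeasureTheory Complex Filter Topology
open scoped ComplexOrder InnerProductSpace ComplexConjugate BoundedContinuousFunction ZeroAtInfty

set_option autoImplicit false
set_option linter.unusedSectionVars false

universe v

namespace Pool.Q2

open Pool.Bes

/-- a test function as an element of `C₀` -/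
noncomputable def UFIAux.mkC0 (f : ℂ → ℂ) (hf : Tst f) : C₀(ℂ, ℂ) where
  toFun := f
  continuous_toFun := hf.1.continuous
  zero_at_infty' := hf.2.is_zero_at_infty

theorem blk_UFI (hUTR : Stmt_UTR.{v}) (hU0 : Stmt_U0.{v}) (hU7 : Stmt_U7) (hU8 : Stmt_U8.{v})
    (hFF : Stmt_FF) : Stmt_UFI.{v} := by
  intro hQ1 H _ _ _ _ N₁ N₂ π₁ π₂ h₁ h₂ D M hD hdiff
  obtain ⟨t1, t2, t3, t4⟩ := hUTR H
  obtain ⟨μ, g₁, g₂, hμ, i1, i2, hform⟩ := hQ1 H N₁ N₂ π₁ π₂ h₁ h₂ D M hD hdiff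
  have hDT : IsT D := (t3 D M hD).1
  obtain ⟨e1, k₁, k₂, l1, l2, e2⟩ := hU8 (hU0 hQ1) H N₁ N₂ π₁ π₂ D h₁ h₂ hDT hdiff
  have e3 : ∀ f, Tst f → Tp π₁ π₂ f = (∫ z : ℂ, fderiv ℝ f z 1 * g₁ z ∂μ) +
      ∫ z : ℂ, fderiv ℝ f z Complex.I * g₂ z ∂μ := by
    intro f hf
    have hF : Tst (UFIAux.mkC0 f hf) := hf
    obtain ⟨a1, a2⟩ := e1 (UFIAux.mkC0 f hf) hF
    have a3 := hform (UFIAux.mkC0 f hf) hF.1 hF.2
    have a4 := t1 _ _ _ (t2 _ a1) a3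
    have a5 : Tp π₁ π₂ f = trO (π₂ (UFIAux.mkC0 f hf) - π₁ (UFIAux.mkC0 f hf)) := a2
    rw [a5, a4]
    rfl
  obtain ⟨hlf, ⟨K, hK⟩, htr⟩ := hU7 (Tp π₁ π₂) μ g₁ g₂ k₁ k₂ hμ i1 i2 e3 l1 l2 e2
  obtain ⟨p₁, p₂, j1, j2, hp⟩ := hFF (Tp π₁ π₂) K hlf hK htr
  refine ⟨p₁, p₂, j1, j2, fun f hf hfc => ?_⟩
  obtain ⟨a1, a2⟩ := e1 f ⟨hf, hfc⟩
  have a3 := t2 _ a1
  rw [← a2, hp f ⟨hf, hfc⟩] at a3
  exact a3

end Pool.Q2
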