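import Pool.Agent.Work.MP_8c7e5b_q2.Interface3

/-! # Block UTR: traces -/

open MeasureTheory Complex Filter Topology
open scoped ComplexOrder InnerProductSpace ComplexConjugate BoundedContinuousFunction

set_option autoImplicit false
set_option linter.unusedSectionVars false

universe v

namespace Pool.Q2

open Pool.Bes

namespace UTRAux

variable {H : Type v} [NormedAddCommGroup H] [InnerProductSpace ℂ H] [CompleteSpace H]

theorem countable_orthonormal [TopologicalSpace.SeparableSpace H] {ι : Type*} (b : ι → H)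
    (hb : Orthonormal ℂ b) : Countable ι := by
  rw [← Set.countable_univ_iff]
  refine Set.PairwiseDisjoint.countable_of_isOpen (s := fun i => Metric.ball (b i) (1 / 2)) ?_
    (fun i _ => Metric.isOpen_ball) (fun i _ => ⟨b i, Metric.mem_ball_self (by norm_num)⟩)
  intro i _ j _ hij
  refine Metric.ball_disjoint_ball ?_
  have h1 : ‖b i - b j‖ ^ 2 = 2 := by
    have h2 := @norm_sub_sq ℂ H _ _ _ (b i) (b j)
    rw [hb.2 hij, hb.1 i, hb.1 j, map_zero] at h2
    rw [h2]
    norm_num
  rw [dist_eq_norm]
  have h3 := norm_nonneg (b i - b j)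
  nlinarith

theorem exists_basis (H : Type v) [NormedAddCommGroup H] [InnerProductSpace ℂ H]
    [CompleteSpace H] [TopologicalSpace.SeparableSpace H] :
    ∃ (ι : Type) (_ : Countable ι), Nonempty (HilbertBasis ι ℂ H) := by
  obtain ⟨w, b, hb⟩ := exists_hilbertBasis ℂ H
  have hc : Countable w := countable_orthonormal b b.orthonormal
  obtain ⟨f, hf⟩ := hc.exists_injective_nat
  let eqv : w ≃ Set.range f := Equiv.ofInjective f hf
  refine ⟨Set.range f, inferInstance, ⟨HilbertBasis.mk (v := fun i => b (eqv.symm i)) ?_ ?_⟩⟩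
  · exact b.orthonormal.comp _ eqv.symm.injective
  · have h1 : Set.range (fun i => b (eqv.symm i)) = Set.range b := by
      have := eqv.symm.surjective.range_comp b
      exact this
    rw [h1, b.dense_span]

end UTRAux

open UTRAux in
theorem blk_UTR (hNUC : Stmt_NUC.{v}) : Stmt_UTR.{v} := by
  intro H _ _ _ _
  refine ⟨?_, ?_, ?_, ?_⟩
  · intro T c c' h h'
    obtain ⟨ι, hι, ⟨e⟩⟩ := exists_basis H
    exact (h ι e).unique (h' ι e)
  · intro T hT
    have h := blk_HT H (toS T)
    rwa [op_toS hT] at h
  · rintro T M ⟨x, y, hs, hle, hsum⟩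
    obtain ⟨-, s2, s3⟩ := TnBlock.sum_vS x y hs
    have opS : op (∑' k, TnBlock.vS (x k) (y k)) = T := by
      refine ContinuousLinearMap.ext fun z => ?_
      have h1 : HasSum (fun k => r1 (x k) (y k) z) (op (∑' k, TnBlock.vS (x k) (y k)) z) :=
        s3.mapL (ContinuousLinearMap.apply ℂ H z)
      exact h1.unique (hsum z)
    refine ⟨⟨_, opS⟩, ?_⟩
    rw [← opS, n1_op]
    exact s2.trans hle
  · intro T hT
    exact hNUC H T hT

end Pool.Q2
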