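import Pool.Agent.Work.MP_8c7e5b_q2.Interface2

/-!
# MP_8c7e5b_an, Q2: block WAU, the wave operator as a unitary
-/

open MeasureTheory Complex Filter Topology
open scoped ComplexOrder InnerProductSpace ComplexConjugate BoundedContinuousFunction

set_option autoImplicit false
set_option linter.unusedSectionVars false

universe v

namespace Pool.Q2

open Pool.Bes

namespace WAUAux

variable {H : Type v} [NormedAddCommGroup H] [InnerProductSpace ℂ H] [CompleteSpace H]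

theorem ex_neg_mul {N : H →L[ℂ] H} (hN : IsStarNormal N) (s : ℂ) : ex N (-s) * ex N s = 1 := by
  obtain ⟨h0, hadd, _⟩ := sEx H N hN
  rw [← hadd, neg_add_cancel, h0]

theorem ex_mul_neg {N : H →L[ℂ] H} (hN : IsStarNormal N) (s : ℂ) : ex N s * ex N (-s) = 1 := by
  obtain ⟨h0, hadd, _⟩ := sEx H N hN
  rw [← hadd, add_neg_cancel, h0]

theorem cj_mul {N : H →L[ℂ] H} (hN : IsStarNormal N) (s : ℂ) (a b : H →L[ℂ] H) :
    cj N s a * cj N s b = cj N s (a * b) := by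
  unfold cj
  calc ex N s * a * ex N (-s) * (ex N s * b * ex N (-s))
      = ex N s * a * (ex N (-s) * ex N s) * b * ex N (-s) := by simp only [mul_assoc]
    _ = ex N s * (a * b) * ex N (-s) := by rw [ex_neg_mul hN, mul_one]; simp only [mul_assoc]

theorem cj_one {N : H →L[ℂ] H} (hN : IsStarNormal N) (s : ℂ) : cj N s 1 = 1 := by
  unfold cj
  rw [mul_one, ex_mul_neg hN]

theorem norm_cj_le {N : H →L[ℂ] H} (hN : IsStarNormal N) (s : ℂ) (b : H →L[ℂ] H) :
    ‖cj N s b‖ ≤ ‖b‖ := by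
  obtain ⟨_, _, _, hn, _⟩ := sEx H N hN
  unfold cj
  have h1 := norm_mul_le (ex N s * b) (ex N (-s))
  have h2 := norm_mul_le (ex N s) b
  have h3 := hn s
  have h4 := hn (-s)
  have h5 : ‖ex N s * b‖ ≤ ‖b‖ := by
    refine h2.trans ?_
    have := mul_le_mul_of_nonneg_right h3 (norm_nonneg b)
    rwa [one_mul] at this
  refine h1.trans ?_
  have h6 := mul_le_mul h5 h4 (norm_nonneg _) (norm_nonneg _)
  rwa [mul_one] at h6

/-- the wave operator -/
theorem exW [TopologicalSpace.SeparableSpace H] (hPAC : Stmt_PAC.{v})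
    (hWAV : Stmt_WAV.{v}) {N : H →L[ℂ] H} (e : ℂ) (hN : IsStarNormal N) {J : H →L[ℂ] H}
    (hJ : A1 N J) (hcm : Cm N N) (hcm' : Cm N (star N)) :
    ∃ W : H →L[ℂ] H, (∀ ψ, Tendsto (fun t : ℝ => cj N (t * e) J (Pac N e ψ)) atTop (𝓝 (W ψ))) ∧
      (∀ ψ, W ψ ∈ Hac N e) ∧ N * W = W * N ∧ star N * W = W * star N := by
  obtain ⟨_, _, _, _, _, _, _, _, _, hcom, _, _, hmem, hPm, _⟩ := hPAC H N e hN
  choose φ hφ1 hφ2 hφ3 hφ4 using fun ψ => hWAV H N e hN J hJ (Pac N e ψ) (hPm ψ)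
  have ht : Tendsto (fun (t : ℝ) (ψ : H) => (cj N (t * e) J * Pac N e) ψ) atTop (𝓝 φ) :=
    tendsto_pi_nhds.mpr fun ψ => hφ2 ψ
  let W : H →L[ℂ] H := continuousLinearMapOfTendsto (fun t : ℝ => cj N (t * e) J * Pac N e) ht
  have hW : ∀ ψ, W ψ = φ ψ := fun _ => rfl
  have hPN : ∀ ψ, Pac N e (N ψ) = N (Pac N e ψ) := by
    intro ψ
    have h1 := (hcom N hcm).1
    exact congrArg (fun T : H →L[ℂ] H => T ψ) h1
  have hPN' : ∀ ψ, Pac N e (star N ψ) = star N (Pac N e ψ) := by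
    intro ψ
    have h1 := (hcom (star N) hcm').1
    exact congrArg (fun T : H →L[ℂ] H => T ψ) h1
  refine ⟨W, fun ψ => ?_, fun ψ => ?_, ?_, ?_⟩
  · rw [hW]
    exact hφ2 ψ
  · rw [hW]
    exact hφ1 ψ
  · refine ContinuousLinearMap.ext fun ψ => ?_
    change N (W ψ) = W (N ψ)
    rw [hW, hW]
    refine tendsto_nhds_unique (hφ3 ψ) ?_
    have h2 := hφ2 (N ψ)
    rw [hPN] at h2
    exact h2
  · refine ContinuousLinearMap.ext fun ψ => ?_
    change star N (W ψ) = W (star N ψ)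
    rw [hW, hW]
    refine tendsto_nhds_unique (hφ4 ψ) ?_
    have h2 := hφ2 (star N ψ)
    rw [hPN'] at h2
    exact h2

/-- two wave operators are inverse to each other -/
theorem W_inv {N : H →L[ℂ] H} (e : ℂ) (hN : IsStarNormal N) {J J' W W' : H →L[ℂ] H}
    (hJJ : J' * J = 1)
    (hW : ∀ ψ, Tendsto (fun t : ℝ => cj N (t * e) J (Pac N e ψ)) atTop (𝓝 (W ψ)))
    (hW' : ∀ ψ, Tendsto (fun t : ℝ => cj N (t * e) J' (Pac N e ψ)) atTop (𝓝 (W' ψ)))
    (hPW : ∀ ψ, Pac N e (W ψ) = W ψ) (ψ : H) : W' (W ψ) = Pac N e ψ := by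
  have h1 := hW' (W ψ)
  rw [hPW] at h1
  refine tendsto_nhds_unique h1 ?_
  rw [tendsto_iff_norm_sub_tendsto_zero]
  have h2 := hW ψ
  rw [tendsto_iff_norm_sub_tendsto_zero] at h2
  have h3 : Tendsto (fun t : ℝ => ‖J'‖ * ‖cj N (t * e) J (Pac N e ψ) - W ψ‖) atTop (𝓝 0) := by
    have h4 := h2.const_mul ‖J'‖
    rwa [mul_zero] at h4
  refine squeeze_zero (fun _ => norm_nonneg _) (fun t => ?_) h3
  have h4 : cj N (t * e) J' (cj N (t * e) J (Pac N e ψ)) = Pac N e ψ := by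
    have h5 : cj N (t * e) J' * cj N (t * e) J = 1 := by rw [cj_mul hN, hJJ, cj_one hN]
    exact congrArg (fun T : H →L[ℂ] H => T (Pac N e ψ)) h5
  have h6 : cj N (t * e) J' (W ψ) - Pac N e ψ =
      cj N (t * e) J' (W ψ - cj N (t * e) J (Pac N e ψ)) := by
    rw [map_sub, h4]
  rw [h6, norm_sub_rev (cj N (t * e) J (Pac N e ψ))]
  refine (ContinuousLinearMap.le_opNorm _ _).trans ?_
  exact mul_le_mul_of_nonneg_right (norm_cj_le hN _ _) (norm_nonneg _)

/-- the wave operator is isometric -/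
theorem W_isom {N : H →L[ℂ] H} (e : ℂ) (hN : IsStarNormal N) {J W : H →L[ℂ] H}
    (hJJ : star J * J = 1)
    (hsa : IsSelfAdjoint (Pac N e)) (hidem : Pac N e * Pac N e = Pac N e)
    (hW : ∀ ψ, Tendsto (fun t : ℝ => cj N (t * e) J (Pac N e ψ)) atTop (𝓝 (W ψ))) :
    star W * W = Pac N e := by
  obtain ⟨_, _, hst, _⟩ := sEx H N hN
  have hcj : ∀ s : ℂ, star (cj N s J) * cj N s J = 1 := by
    intro s
    have h1 : star (cj N s J) = cj N s (star J) := by
      unfold cj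
      rw [star_mul, star_mul, hst, hst, neg_neg, mul_assoc]
    rw [h1, cj_mul hN, hJJ, cj_one hN]
  refine ContinuousLinearMap.ext fun ψ => ext_inner_left ℂ fun χ => ?_
  change ⟪χ, (star W) (W ψ)⟫_ℂ = _
  rw [ContinuousLinearMap.star_eq_adjoint, ContinuousLinearMap.adjoint_inner_right]
  refine tendsto_nhds_unique ((hW χ).inner (hW ψ)) ?_
  have h2 : ∀ t : ℝ, ⟪cj N (t * e) J (Pac N e χ), cj N (t * e) J (Pac N e ψ)⟫_ℂ =
      ⟪χ, Pac N e ψ⟫_ℂ := by
    intro t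
    have h3 : ⟪cj N (t * e) J (Pac N e χ), cj N (t * e) J (Pac N e ψ)⟫_ℂ =
        ⟪Pac N e χ, (star (cj N (t * e) J) * cj N (t * e) J) (Pac N e ψ)⟫_ℂ := by
      rw [ContinuousLinearMap.star_eq_adjoint]
      exact (ContinuousLinearMap.adjoint_inner_right _ _ _).symm
    rw [h3, hcj]
    change ⟪Pac N e χ, Pac N e ψ⟫_ℂ = _
    have h4 : ⟪Pac N e χ, Pac N e ψ⟫_ℂ = ⟪χ, (star (Pac N e) * Pac N e) ψ⟫_ℂ := by
      rw [ContinuousLinearMap.star_eq_adjoint]
      exact (ContinuousLinearMap.adjoint_inner_right _ _ _).symm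
    rw [h4, hsa.star_eq, hidem]
  simp only [h2]
  exact tendsto_const_nhds

end WAUAux

open WAUAux in
theorem blk_WAU (hCMM : Stmt_CMM.{v}) (hPAC : Stmt_PAC.{v}) (hWAV : Stmt_WAV.{v}) :
    Stmt_WAU.{v} := by
  intro H _ _ _ _ N e hN Ω hΩ hA
  obtain ⟨hsa, hid, hsa', hid', hsum, hps, hsp, _, _, hcom, hcP, hcS, hmem, hPm, _⟩ :=
    hPAC H N e hN
  obtain ⟨_, _, _, _, halg, _, _, _, _, _, hA1, _⟩ := hCMM H N hN
  have hcm : Cm N N := ⟨rfl, hN.star_comm_self⟩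
  have hcm' : Cm N (star N) := ⟨hN.star_comm_self.symm, rfl⟩
  have hA' : A1 N (star Ω) := (hA1 Ω hA).2
  obtain ⟨W, hW1, hW2, hW3, hW4⟩ := exW hPAC hWAV e hN hA hcm hcm'
  obtain ⟨W', hV1, hV2, hV3, hV4⟩ := exW hPAC hWAV e hN hA' hcm hcm'
  have hPW : ∀ ψ, Pac N e (W ψ) = W ψ := fun ψ => (hmem _).mp (hW2 ψ)
  have hPV : ∀ ψ, Pac N e (W' ψ) = W' ψ := fun ψ => (hmem _).mp (hV2 ψ)
  have e1 : W' * W = Pac N e := ContinuousLinearMap.ext fun ψ => W_inv e hN hΩ.1 hW1 hV1 hPW ψ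
  have e2 : W * W' = Pac N e := ContinuousLinearMap.ext fun ψ => W_inv e hN hΩ.2 hV1 hW1 hPV ψ
  have e3 : star W * W = Pac N e := W_isom e hN hΩ.1 hsa hid hW1
  have hPW' : Pac N e * W = W := ContinuousLinearMap.ext hPW
  have hPV' : Pac N e * W' = W' := ContinuousLinearMap.ext hPV
  have hWP : W * Pac N e = W := by
    refine ContinuousLinearMap.ext fun ψ => ?_
    change W (Pac N e ψ) = W ψ
    refine tendsto_nhds_unique (hW1 (Pac N e ψ)) ?_
    have h1 : Pac N e (Pac N e ψ) = Pac N e ψ :=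
      congrArg (fun T : H →L[ℂ] H => T ψ) hid
    rw [h1]
    exact hW1 ψ
  have e4 : star W = W' := by
    have h1 : star W = star W * Pac N e := by
      conv_lhs => rw [← hPW', star_mul, hsa.star_eq]
    rw [h1, ← e2, ← mul_assoc, e3, hPV']
  have e5 : Psg N e * W = 0 := by rw [← hPW', ← mul_assoc, hsp, zero_mul]
  have e6 : W * Psg N e = 0 := by rw [← hWP, mul_assoc, hps, mul_zero]
  have e7 : star W * Psg N e = 0 := by
    have h1 := congrArg star e5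
    rwa [star_mul, hsa'.star_eq, star_zero] at h1
  have e8 : Psg N e * star W = 0 := by
    have h1 := congrArg star e6
    rwa [star_mul, hsa'.star_eq, star_zero] at h1
  have hst : star (W + Psg N e) = star W + Psg N e := by rw [star_add, hsa'.star_eq]
  refine ⟨W + Psg N e, ⟨?_, ?_⟩, ?_, ?_, ?_, ?_⟩
  · rw [hst, add_mul, mul_add, mul_add, e3, e7, e5, hid', add_zero, zero_add, hsum]
  · rw [hst, add_mul, mul_add, mul_add, e6, e8, hid', e4, e2, add_zero, zero_add, hsum]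
  · exact (halg W (Psg N e) ⟨hW3, hW4⟩ hcS).2.1
  · intro ψ hψ
    have h1 : Pac N e ψ = ψ := (hmem ψ).mp hψ
    have h2 : Psg N e ψ = 0 := by
      have h3 : (Psg N e * Pac N e) ψ = 0 := by rw [hsp]; rfl
      rw [← h1]
      exact h3
    have h4 : (W + Psg N e) ψ = W ψ := by
      rw [_root_.add_apply, h2, add_zero]
    rw [h4]
    have h5 := hW1 ψ
    rw [h1] at h5
    exact h5
  · rw [add_mul, e6, hid', zero_add]
  · rw [add_mul, mul_add, hWP, hPW', hsp, hps]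

end Pool.Q2
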