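import Pool.Agent.Work.MP_8c7e5b_q2.Interface2

/-!
# MP_8c7e5b_an, Q2: block WAV
-/

open MeasureTheory Complex Filter Topology
open scoped ComplexOrder InnerProductSpace ComplexConjugate BoundedContinuousFunction

set_option autoImplicit false
set_option linter.unusedSectionVars false

universe v

namespace Pool.Q2

open Pool.Bes

namespace WAVAux

variable {H : Type v} [NormedAddCommGroup H] [InnerProductSpace ℂ H] [CompleteSpace H]

theorem br_add (S S' J : H →L[ℂ] H) : br (S + S') J = br S J + br S' J := by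
  unfold br
  rw [add_mul, mul_add]
  abel

theorem br_sub (S S' J : H →L[ℂ] H) : br (S - S') J = br S J - br S' J := by
  unfold br
  rw [sub_mul, mul_sub]
  abel

theorem br_smul (c : ℂ) (S J : H →L[ℂ] H) : br (c • S) J = c • br S J := by
  unfold br
  rw [smul_mul_assoc, mul_smul_comm, smul_sub]

theorem br_mul (S S' J : H →L[ℂ] H) : br (S * S') J = S * br S' J + br S J * S' := by
  unfold br
  noncomm_ring

theorem cj_add (N : H →L[ℂ] H) (s : ℂ) (b c : H →L[ℂ] H) : cj N s (b + c) = cj N s b + cj N s c := by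
  unfold cj
  rw [mul_add, add_mul]

theorem cj_sub (N : H →L[ℂ] H) (s : ℂ) (b c : H →L[ℂ] H) : cj N s (b - c) = cj N s b - cj N s c := by
  unfold cj
  rw [mul_sub, sub_mul]

theorem norm_cj_apply_le (N : H →L[ℂ] H) (s : ℂ) (b : H →L[ℂ] H) (x : H) :
    ‖cj N s b x‖ ≤ ‖b (ex N (-s) x)‖ := by
  change ‖ex N s (b (ex N (-s) x))‖ ≤ _
  refine ((ex N s).le_opNorm _).trans ?_
  have h := mul_le_mul_of_nonneg_right (EXB.norm_ex_le N s) (norm_nonneg (b (ex N (-s) x)))
  rwa [one_mul] at h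

theorem norm_cj_le (N : H →L[ℂ] H) (s : ℂ) (b : H →L[ℂ] H) (x : H) :
    ‖cj N s b x‖ ≤ ‖b‖ * ‖x‖ := by
  refine (norm_cj_apply_le N s b x).trans ((b.le_opNorm _).trans ?_)
  refine mul_le_mul_of_nonneg_left ?_ (norm_nonneg _)
  refine ((ex N (-s)).le_opNorm _).trans ?_
  have h := mul_le_mul_of_nonneg_right (EXB.norm_ex_le N (-s)) (norm_nonneg x)
  rwa [one_mul] at h

theorem norm_br_le (S J : H →L[ℂ] H) : ‖br S J‖ ≤ 2 * ‖S‖ * ‖J‖ := by
  unfold br
  refine (norm_sub_le _ _).trans ?_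
  have h1 := norm_mul_le S J
  have h2 := norm_mul_le J S
  nlinarith

/-- the good operators -/
def Good (N : H →L[ℂ] H) (e : ℂ) (J : H →L[ℂ] H) (S : H →L[ℂ] H) : Prop :=
  Cm N S ∧ ∀ ψ ∈ Hac N e, Tendsto (fun t : ℝ => cj N (t * e) (br S J) ψ) atTop (𝓝 0)

end WAVAux

open WAVAux

theorem blk_WAV : Stmt_CMM.{v} → Stmt_PAC.{v} → Stmt_FEX.{v} → Stmt_DEC.{v} → Stmt_WAVA.{v} →
    Stmt_WAV.{v} := by
  intro hCMM hPAC hFEX hDEC hWAVA H _ _ _ _ N e hN J hJ
  obtain ⟨c1, c2, c3, c4, c5, c6, c7, c8, c9, c10, c11, c12, c13, c14⟩ := hCMM H N hN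
  obtain ⟨p1, p2, p3, p4, p5, p6, p7, p8, p9, p10, p11, p12, p13, p14, p15, p16, p17, p18⟩ :=
    hPAC H N e hN
  obtain ⟨f1, f2, f3, f4, f5, f6, f7, f8, f9, f10⟩ := hFEX H N e hN
  -- commuting operators preserve `Hac`
  have hac : ∀ S : H →L[ℂ] H, Cm N S → ∀ ψ ∈ Hac N e, S ψ ∈ Hac N e := by
    intro S hS ψ hψ
    rw [p13]
    have h1 := congrArg (fun T : H →L[ℂ] H => T ψ) (p10 S hS).1
    change Pac N e (S ψ) = S (Pac N e ψ) at h1
    rw [h1, (p13 ψ).1 hψ]
  -- the trace class operators are decaying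
  have dec : ∀ K : H →L[ℂ] H, IsT K → ∀ ψ ∈ Hac N e,
      Tendsto (fun t : ℝ => cj N (t * e) K ψ) atTop (𝓝 0) := by
    intro K hK ψ hψ
    have h1 := (hDEC H N e hN K ψ hK hψ).2.comp tendsto_neg_atTop_atBot
    rw [tendsto_zero_iff_norm_tendsto_zero] at h1 ⊢
    refine squeeze_zero (fun t => norm_nonneg _) (fun t => norm_cj_apply_le N _ K ψ) ?_
    refine h1.congr fun t => ?_
    change ‖K (ex N (((-t : ℝ) : ℂ) * e) ψ)‖ = _
    rw [Complex.ofReal_neg, neg_mul]
  -- multiplication rules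
  have mulL : ∀ S : H →L[ℂ] H, Cm N S → ∀ (s : ℂ) (X : H →L[ℂ] H), cj N s (S * X) = S * cj N s X := by
    intro S hS s X
    have h1 := (c1 S hS).2.1 s
    unfold cj
    rw [← mul_assoc, h1, mul_assoc, mul_assoc, mul_assoc]
  have mulR : ∀ S : H →L[ℂ] H, Cm N S → ∀ (s : ℂ) (X : H →L[ℂ] H), cj N s (X * S) = cj N s X * S := by
    intro S hS s X
    have h1 := (c1 S hS).2.1 (-s)
    unfold cj
    rw [mul_assoc, mul_assoc, ← h1, mul_assoc, mul_assoc]
  -- `N` is good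
  have hNcm : Cm N N ∧ Cm N (star N) := by
    refine ⟨⟨rfl, hN.star_comm_self⟩, ⟨hN.star_comm_self.symm, rfl⟩⟩
  have hT1 : IsT (br N J) := by
    have h1 : br N J = br (dt 1 N) J + Complex.I • br (dt Complex.I N) J := by
      conv_lhs => rw [c10]
      rw [br_add, br_smul]
    rw [h1]
    exact hJ.1.add (hJ.2.smul _)
  have hT2 : IsT (br (star N) J) := by
    have h0 : star N = dt 1 N + (-Complex.I) • dt Complex.I N := by
      conv_lhs => rw [c10]
      rw [star_add, star_smul, (c7 1).star_eq, (c7 Complex.I).star_eq]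
      congr 2
      exact Complex.conj_I
    have h1 : br (star N) J = br (dt 1 N) J + (-Complex.I) • br (dt Complex.I N) J := by
      rw [h0, br_add, br_smul]
    rw [h1]
    exact hJ.1.add (hJ.2.smul _)
  have gN : Good N e J N := ⟨hNcm.1, dec _ hT1⟩
  have gNs : Good N e J (star N) := ⟨hNcm.2, dec _ hT2⟩
  have good : ∀ f : ℂ → ℂ, Good N e J (cfc f N) := by
    intro f
    refine StarAlgebra.elemental.induction_on (R := ℂ) (x := N) (cfc_mem_elemental f N)
      (P := fun S _ => Good N e J S) gN gNs ?_ ?_ ?_ ?_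
    · intro r
      refine ⟨⟨(Algebra.commutes r N).symm, (Algebra.commutes r (star N)).symm⟩, fun ψ _ => ?_⟩
      have h1 : br (algebraMap ℂ (H →L[ℂ] H) r) J = 0 := by
        unfold br
        rw [Algebra.commutes r J, sub_self]
      rw [h1]
      have h2 : ∀ t : ℝ, cj N (t * e) (0 : H →L[ℂ] H) ψ = 0 := by
        intro t
        unfold cj
        rw [mul_zero, zero_mul]
        rfl
      simp only [h2]
      exact tendsto_const_nhds
    · intro u _ v _ hu hv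
      refine ⟨(c5 u v hu.1 hv.1).2.1, fun ψ hψ => ?_⟩
      have h1 := (hu.2 ψ hψ).add (hv.2 ψ hψ)
      rw [add_zero] at h1
      refine h1.congr fun t => ?_
      rw [br_add, cj_add]
      rfl
    · intro u _ v _ hu hv
      refine ⟨(c5 u v hu.1 hv.1).1, fun ψ hψ => ?_⟩
      have h1 := ((u.continuous.tendsto 0).comp (hv.2 ψ hψ)).add
        (hu.2 (v ψ) (hac v hv.1 ψ hψ))
      rw [map_zero, add_zero] at h1
      refine h1.congr fun t => ?_
      rw [br_mul, cj_add, mulL u hu.1, mulR v hv.1]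
      rfl
    · intro s hs hgood v hv
      have hcm : Cm N v := by
        have h1 : IsClosed {S : H →L[ℂ] H | Cm N S} := by
          have h2 : {S : H →L[ℂ] H | Cm N S} =
              {S | N * S = S * N} ∩ {S | star N * S = S * star N} := rfl
          rw [h2]
          exact (isClosed_eq (by fun_prop) (by fun_prop)).inter
            (isClosed_eq (by fun_prop) (by fun_prop))
        exact closure_minimal (fun u hu => (hgood u hu).1) h1 hv
      refine ⟨hcm, fun ψ hψ => ?_⟩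
      rw [Metric.tendsto_atTop]
      intro ε hε
      obtain ⟨u, hu, hd⟩ := Metric.mem_closure_iff.1 hv (ε / (2 * (2 * ‖J‖ * ‖ψ‖ + 1)))
        (by positivity)
      obtain ⟨t0, ht0⟩ := Metric.tendsto_atTop.1 ((hgood u hu).2 ψ hψ) (ε / 2) (by positivity)
      refine ⟨t0, fun t ht => ?_⟩
      have h1 := ht0 t ht
      rw [dist_zero_right] at h1 ⊢
      rw [dist_eq_norm] at hd
      have h2 : cj N (t * e) (br v J) ψ = cj N (t * e) (br u J) ψ + cj N (t * e) (br (v - u) J) ψ := by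
        have h3 : br v J = br u J + br (v - u) J := by rw [br_sub]; abel
        rw [h3, cj_add]
        rfl
      have h3 : ‖cj N (t * e) (br (v - u) J) ψ‖ ≤ ε / 2 := by
        refine (norm_cj_le N _ _ ψ).trans ?_
        have h4 := norm_br_le (v - u) J
        have h5 : ‖br (v - u) J‖ * ‖ψ‖ ≤ ‖v - u‖ * (2 * ‖J‖ * ‖ψ‖) := by
          calc ‖br (v - u) J‖ * ‖ψ‖ ≤ (2 * ‖v - u‖ * ‖J‖) * ‖ψ‖ :=
                mul_le_mul_of_nonneg_right h4 (norm_nonneg _)
            _ = ‖v - u‖ * (2 * ‖J‖ * ‖ψ‖) := by ring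
        have h6 : ‖v - u‖ * (2 * ‖J‖ * ‖ψ‖) ≤
            ε / (2 * (2 * ‖J‖ * ‖ψ‖ + 1)) * (2 * ‖J‖ * ‖ψ‖) :=
          mul_le_mul_of_nonneg_right hd.le (by positivity)
        have h7 : ε / (2 * (2 * ‖J‖ * ‖ψ‖ + 1)) * (2 * ‖J‖ * ‖ψ‖) ≤ ε / 2 := by
          have h8 : 0 ≤ 2 * ‖J‖ * ‖ψ‖ := by positivity
          rw [div_mul_eq_mul_div, div_le_div_iff₀ (by positivity) (by positivity)]
          nlinarith
        linarith
      rw [h2]
      have h4 := norm_add_le (cj N (t * e) (br u J) ψ) (cj N (t * e) (br (v - u) J) ψ)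
      linarith
  -- the limit exists
  have hX : IsT (br (dt e N) J) := (c11 J hJ).1 e |>.1
  have lim : ∀ ψ ∈ Hac N e, ∃ φ, Tendsto (fun t : ℝ => cj N (t * e) J ψ) atTop (𝓝 φ) := by
    intro ψ hψ
    have hcau : CauchySeq (fun t : ℝ => cj N (t * e) J ψ) := by
      rw [Metric.cauchySeq_iff]
      intro ε hε
      obtain ⟨m, φ, hm, hφ, hd⟩ := p16 ψ hψ (ε / (4 * (‖J‖ + 1))) (by positivity)
      obtain ⟨t0, ht0⟩ := hWAVA H N e hN J hX m φ hm hφ (ε / 4) (by positivity)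
      refine ⟨t0, fun t ht s hs => ?_⟩
      rw [dist_eq_norm]
      have h1 := ht0 t s ht hs
      have h2 : cj N (t * e) J ψ - cj N (s * e) J ψ =
          (cj N (t * e) J φ - cj N (s * e) J φ) + (cj N (t * e) J (ψ - φ) -
            cj N (s * e) J (ψ - φ)) := by
        rw [map_sub, map_sub]
        abel
      have h3 : ∀ r : ℝ, ‖cj N (r * e) J (ψ - φ)‖ ≤ ε / 4 := by
        intro r
        refine (norm_cj_le N _ _ _).trans ?_
        refine (mul_le_mul_of_nonneg_left hd.le (norm_nonneg _)).trans ?_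
        rw [mul_div_assoc', div_le_div_iff₀ (by positivity) (by positivity)]
        nlinarith [norm_nonneg J]
      rw [h2]
      have h4 := norm_add_le (cj N (t * e) J φ - cj N (s * e) J φ)
        (cj N (t * e) J (ψ - φ) - cj N (s * e) J (ψ - φ))
      have h5 := norm_sub_le (cj N (t * e) J (ψ - φ)) (cj N (s * e) J (ψ - φ))
      have h6 := h3 t
      have h7 := h3 s
      linarith
    exact cauchySeq_tendsto_of_complete hcau
  -- intertwining
  have itw : ∀ S : H →L[ℂ] H, Good N e J S → ∀ ψ ∈ Hac N e, ∀ φ,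
      Tendsto (fun t : ℝ => cj N (t * e) J ψ) atTop (𝓝 φ) →
      Tendsto (fun t : ℝ => cj N (t * e) J (S ψ)) atTop (𝓝 (S φ)) := by
    intro S hS ψ hψ φ hφ
    have h1 := ((S.continuous.tendsto φ).comp hφ).sub (hS.2 ψ hψ)
    rw [sub_zero] at h1
    refine h1.congr fun t => ?_
    have h2 : cj N (t * e) (br S J) = S * cj N (t * e) J - cj N (t * e) J * S := by
      rw [br, cj_sub, mulL S hS.1, mulR S hS.1]
    rw [h2]
    change S (cj N (t * e) J ψ) - (S (cj N (t * e) J ψ) - cj N (t * e) J (S ψ)) = _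
    abel
  -- the limit is in `Hac`, first for `Dn`
  have dn : ∀ (m : ℝ) (ψ φ : H), 0 ≤ m → ψ ∈ Dn N e m → ψ ∈ Hac N e →
      Tendsto (fun t : ℝ => cj N (t * e) J ψ) atTop (𝓝 φ) → φ ∈ Hac N e := by
    intro m ψ φ hm hψ hψ' hφ
    have h0 : φ ∈ Dn N e (‖J‖ * m) := by
      intro g hg hgi
      have hS : Good N e J (fe e g N) := good _
      have h1 := itw _ hS ψ hψ' φ hφ
      have h2 : ‖fe e g N φ‖ ≤ ‖J‖ * ‖fe e g N ψ‖ :=
        le_of_tendsto h1.norm (Eventually.of_forall fun t => norm_cj_le N _ _ _)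
      have h3 := hψ g hg hgi
      calc ‖fe e g N φ‖ ^ 2 ≤ (‖J‖ * ‖fe e g N ψ‖) ^ 2 := by gcongr
        _ = ‖J‖ ^ 2 * ‖fe e g N ψ‖ ^ 2 := by ring
        _ ≤ ‖J‖ ^ 2 * (m ^ 2 * ∫ x, ‖g x‖ ^ 2) := by gcongr
        _ = (‖J‖ * m) ^ 2 * ∫ x, ‖g x‖ ^ 2 := by ring
    exact Submodule.le_topologicalClosure _ (Submodule.subset_span (Set.mem_iUnion.2 ⟨_, h0⟩))
  have memHac : ∀ (m : ℝ) (ψ : H), ψ ∈ Dn N e m → ψ ∈ Hac N e := fun m ψ h =>
    Submodule.le_topologicalClosure _ (Submodule.subset_span (Set.mem_iUnion.2 ⟨m, h⟩))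
  intro ψ hψ
  obtain ⟨φ, hφ⟩ := lim ψ hψ
  refine ⟨φ, ?_, hφ, itw N gN ψ hψ φ hφ, itw (star N) gNs ψ hψ φ hφ⟩
  have hcl : φ ∈ closure ((Hac N e : Submodule ℂ H) : Set H) := by
    rw [Metric.mem_closure_iff]
    intro ε hε
    obtain ⟨m, ψ', hm, hψ', hd⟩ := p16 ψ hψ (ε / (2 * (‖J‖ + 1))) (by positivity)
    have hm' := memHac m ψ' hψ'
    obtain ⟨φ', hφ'⟩ := lim ψ' hm'
    refine ⟨φ', dn m ψ' φ' hm hψ' hm' hφ', ?_⟩
    rw [dist_eq_norm]
    have h1 : ‖φ - φ'‖ ≤ ‖J‖ * ‖ψ - ψ'‖ := by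
      refine le_of_tendsto (hφ.sub hφ').norm (Eventually.of_forall fun t => ?_)
      rw [← map_sub]
      exact norm_cj_le N _ _ _
    have h2 : ‖J‖ * ‖ψ - ψ'‖ ≤ ‖J‖ * (ε / (2 * (‖J‖ + 1))) :=
      mul_le_mul_of_nonneg_left hd.le (norm_nonneg _)
    have h3 : ‖J‖ * (ε / (2 * (‖J‖ + 1))) ≤ ε / 2 := by
      rw [mul_div_assoc', div_le_div_iff₀ (by positivity) (by positivity)]
      nlinarith [norm_nonneg J]
    linarith
  rwa [(isClosed_Hac N e).closure_eq] at hcl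

end Pool.Q2
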