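import Pool.Agent.Work.MP_8c7e5b_q2.Interface2

/-!
# MP_8c7e5b_an, Q2: block WAVA (Pearson's estimate)
-/

open MeasureTheory Complex Filter Topology
open scoped ComplexOrder InnerProductSpace ComplexConjugate BoundedContinuousFunction

set_option autoImplicit false
set_option linter.unusedSectionVars false

universe v

namespace Pool.Q2

open Pool.Bes

namespace WAVAAux

/-- Cauchy-Schwarz on an interval. -/
theorem cs_interval (u v : ℝ → ℝ) (hu : Continuous u) (hv : Continuous v) (A : ℝ) (hA : 0 ≤ A) :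
    ∫ a in (0 : ℝ)..A, u a * v a ≤
      Real.sqrt (∫ a in (0 : ℝ)..A, u a ^ 2) * Real.sqrt (∫ a in (0 : ℝ)..A, v a ^ 2) := by
  have hP : 0 ≤ ∫ a in (0 : ℝ)..A, u a ^ 2 :=
    intervalIntegral.integral_nonneg hA fun a _ => sq_nonneg _
  have h : ∀ x : ℝ, 0 ≤ (∫ a in (0 : ℝ)..A, u a ^ 2) * (x * x) +
      (-2 * ∫ a in (0 : ℝ)..A, u a * v a) * x + ∫ a in (0 : ℝ)..A, v a ^ 2 := by
    intro x
    have h1 : 0 ≤ ∫ a in (0 : ℝ)..A, (x * u a - v a) ^ 2 :=
      intervalIntegral.integral_nonneg hA fun a _ => sq_nonneg _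
    have i1 : IntervalIntegrable (fun a => (x * x) * u a ^ 2) volume 0 A :=
      (continuous_const.mul (hu.pow 2)).intervalIntegrable _ _
    have i2 : IntervalIntegrable (fun a => (-2 * x) * (u a * v a)) volume 0 A :=
      (continuous_const.mul (hu.mul hv)).intervalIntegrable _ _
    have i3 : IntervalIntegrable (fun a => v a ^ 2) volume 0 A :=
      (hv.pow 2).intervalIntegrable _ _
    have h2 : ∫ a in (0 : ℝ)..A, (x * u a - v a) ^ 2 =
        (∫ a in (0 : ℝ)..A, u a ^ 2) * (x * x) +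
          (-2 * ∫ a in (0 : ℝ)..A, u a * v a) * x + ∫ a in (0 : ℝ)..A, v a ^ 2 := by
      have h3 : (fun a => (x * u a - v a) ^ 2) =
          fun a => ((x * x) * u a ^ 2 + (-2 * x) * (u a * v a)) + v a ^ 2 := by
        funext a; ring
      rw [h3, intervalIntegral.integral_add (i1.add i2) i3, intervalIntegral.integral_add i1 i2,
        intervalIntegral.integral_const_mul, intervalIntegral.integral_const_mul]
      ring
    rw [← h2]
    exact h1
  have h3 := discrim_le_zero h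
  unfold discrim at h3
  rw [← Real.sqrt_mul hP]
  refine Real.le_sqrt_of_sq_le ?_
  nlinarith

section

variable {H : Type v} [NormedAddCommGroup H] [InnerProductSpace ℂ H] [CompleteSpace H]

/-- the group `exp (i t e · N)` -/
noncomputable def Eg (N : H →L[ℂ] H) (e : ℂ) (t : ℝ) : H →L[ℂ] H := ex N (t * e)

variable (N : H →L[ℂ] H) (e : ℂ)

theorem Eg_add (s t : ℝ) : Eg N e (s + t) = Eg N e s * Eg N e t := by
  unfold Eg
  rw [← EXB.ex_add]
  congr 1
  push_cast
  ring

theorem Eg_zero (hN : IsStarNormal N) : Eg N e 0 = 1 := by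
  unfold Eg
  rw [Complex.ofReal_zero, zero_mul, EXB.ex_zero N hN]

theorem star_Eg (t : ℝ) : star (Eg N e t) = Eg N e (-t) := by
  unfold Eg
  rw [EXB.star_ex]
  congr 1
  push_cast
  ring

theorem norm_Eg_le (t : ℝ) : ‖Eg N e t‖ ≤ 1 := EXB.norm_ex_le N _

theorem norm_Eg_apply_le (t : ℝ) (x : H) : ‖Eg N e t x‖ ≤ ‖x‖ :=
  (ContinuousLinearMap.le_opNorm _ _).trans
    (mul_le_of_le_one_left (norm_nonneg _) (norm_Eg_le N e t))

theorem continuous_Eg : Continuous (Eg N e) :=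
  (EXB.continuous_ex N).comp (Complex.continuous_ofReal.mul continuous_const)

theorem hasDerivAt_Eg (hN : IsStarNormal N) (t : ℝ) :
    HasDerivAt (Eg N e) (Complex.I • (dt e N * Eg N e t)) t := EXB.hasDerivAt_ex N hN e t

theorem comm_Eg (hN : IsStarNormal N) (t : ℝ) : dt e N * Eg N e t = Eg N e t * dt e N :=
  (EXB.commute_dt_ex N hN (t * e) e).eq

theorem inner_Eg_left (t : ℝ) (x y : H) : ⟪Eg N e t x, y⟫_ℂ = ⟪x, Eg N e (-t) y⟫_ℂ := by
  rw [← star_Eg, ContinuousLinearMap.star_eq_adjoint, ContinuousLinearMap.adjoint_inner_right]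

theorem Eg_apply_add (s t : ℝ) (x : H) : Eg N e s (Eg N e t x) = Eg N e (s + t) x := by
  rw [Eg_add]
  rfl

theorem cj_eq (t : ℝ) (J : H →L[ℂ] H) : cj N (t * e) J = Eg N e t * J * Eg N e (-t) := by
  unfold cj Eg
  have : -((t : ℂ) * e) = ((-t : ℝ) : ℂ) * e := by push_cast; ring
  rw [this]

/-- the orbit `exp (i t X) J exp (- i t X) ψ` -/
noncomputable def Or (J : H →L[ℂ] H) (ψ : H) (t : ℝ) : H := Eg N e t (J (Eg N e (-t) ψ))

theorem cj_apply (t : ℝ) (J : H →L[ℂ] H) (ψ : H) : cj N (t * e) J ψ = Or N e J ψ t := by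
  rw [cj_eq]
  rfl

theorem norm_Or_le (J : H →L[ℂ] H) (ψ : H) (t : ℝ) : ‖Or N e J ψ t‖ ≤ ‖J‖ * ‖ψ‖ :=
  (norm_Eg_apply_le N e t _).trans ((J.le_opNorm _).trans
    (mul_le_mul_of_nonneg_left (norm_Eg_apply_le N e _ _) (norm_nonneg _)))

theorem continuous_Or (J : H →L[ℂ] H) (ψ : H) : Continuous (Or N e J ψ) := by
  have h1 : Continuous fun t : ℝ => Eg N e t := continuous_Eg N e
  have h2 : Continuous fun t : ℝ => Eg N e (-t) ψ :=
    ((continuous_Eg N e).comp continuous_neg).clm_apply continuous_const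
  exact h1.clm_apply (J.continuous.comp h2)

theorem hasDerivAt_Or (hN : IsStarNormal N) (J : H →L[ℂ] H) (ψ : H) (t : ℝ) :
    HasDerivAt (Or N e J ψ) (Complex.I • Or N e (br (dt e N) J) ψ t) t := by
  have h1 := hasDerivAt_Eg N e hN t
  have h2 : HasDerivAt (fun t : ℝ => Eg N e (-t))
      ((-1 : ℝ) • (Complex.I • (dt e N * Eg N e (-t)))) t :=
    (hasDerivAt_Eg N e hN (-t)).scomp t (hasDerivAt_neg t)
  have h3 := (h1.mul_const J).mul h2
  have h4 : Complex.I • (dt e N * Eg N e t) * J * Eg N e (-t) +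
      Eg N e t * J * ((-1 : ℝ) • (Complex.I • (dt e N * Eg N e (-t)))) =
      Complex.I • (Eg N e t * br (dt e N) J * Eg N e (-t)) := by
    have h5 : (-1 : ℝ) • (Complex.I • (dt e N * Eg N e (-t))) =
        -(Complex.I • (dt e N * Eg N e (-t))) := by rw [neg_smul, one_smul]
    rw [h5, comm_Eg N e hN t]
    unfold br
    rw [mul_neg, smul_mul_assoc, smul_mul_assoc, mul_smul_comm, ← sub_eq_add_neg, ← smul_sub]
    congr 1
    noncomm_ring
  rw [h4] at h3
  have h6 := ((ContinuousLinearMap.apply ℂ H ψ).restrictScalars ℝ).hasFDerivAt.comp_hasDerivAt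
    (t : ℝ) h3
  exact h6

/-- the square integrability constant -/
theorem sqrt_const (m c : ℝ) (hm : 0 ≤ m) (hc : 0 ≤ c) :
    Real.sqrt (2 * Real.pi * m ^ 2 * c ^ 2) = Real.sqrt (2 * Real.pi) * m * c := by
  have h1 : 2 * Real.pi * m ^ 2 * c ^ 2 = 2 * Real.pi * (m * c) ^ 2 := by ring
  rw [h1, Real.sqrt_mul (by positivity), Real.sqrt_sq (by positivity), mul_assoc]

end

section

variable {H : Type v} [NormedAddCommGroup H] [InnerProductSpace ℂ H] [CompleteSpace H]
variable (N : H →L[ℂ] H) (e : ℂ) (ψ : H)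

/-- the coefficient function -/
noncomputable def co (w : H) (u : ℝ) : ℝ := ‖⟪w, Eg N e (-u) ψ⟫_ℂ‖

theorem co_nonneg (w : H) (u : ℝ) : 0 ≤ co N e ψ w u := norm_nonneg _

theorem continuous_co (w : H) : Continuous (co N e ψ w) := by
  have h2 : Continuous fun t : ℝ => Eg N e (-t) ψ :=
    ((continuous_Eg N e).comp continuous_neg).clm_apply continuous_const
  exact (continuous_const.inner h2).norm

theorem co_le (w : H) (u : ℝ) : co N e ψ w u ≤ ‖w‖ * ‖ψ‖ :=
  (norm_inner_le_norm _ _).trans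
    (mul_le_mul_of_nonneg_left (norm_Eg_apply_le N e _ _) (norm_nonneg _))

/-- the tail -/
noncomputable def Gt (w : H) (t : ℝ) : ℝ := Real.sqrt (∫ u in Set.Ioi t, co N e ψ w u ^ 2)

theorem Gt_nonneg (w : H) (t : ℝ) : 0 ≤ Gt N e ψ w t := Real.sqrt_nonneg _

variable (m : ℝ)

/-- the conclusion of L2T -/
def Sq : Prop := ∀ w : H, Integrable (fun u : ℝ => co N e ψ w u ^ 2) ∧
  ∫ u : ℝ, co N e ψ w u ^ 2 ≤ 2 * Real.pi * m ^ 2 * ‖w‖ ^ 2

variable {N e ψ m}

theorem Gt_le (h : Sq N e ψ m) (hm : 0 ≤ m) (w : H) (t : ℝ) :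
    Gt N e ψ w t ≤ Real.sqrt (2 * Real.pi) * m * ‖w‖ := by
  rw [← sqrt_const m ‖w‖ hm (norm_nonneg _)]
  refine Real.sqrt_le_sqrt ?_
  refine le_trans ?_ (h w).2
  exact setIntegral_le_integral (h w).1 (Eventually.of_forall fun u => sq_nonneg _)

theorem Gt_tendsto (h : Sq N e ψ m) (w : H) :
    Tendsto (Gt N e ψ w) atTop (𝓝 0) := by
  have h1 : Tendsto (fun t : ℝ => ∫ u in Set.Ioi t, co N e ψ w u ^ 2) atTop
      (𝓝 (∫ u in ⋂ t : ℝ, Set.Ioi t, co N e ψ w u ^ 2)) := by
    refine tendsto_setIntegral_of_antitone (fun t => measurableSet_Ioi) ?_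
      ⟨0, (h w).1.integrableOn⟩
    intro a b hab
    exact Set.Ioi_subset_Ioi hab
  have h2 : (⋂ t : ℝ, Set.Ioi t) = ∅ := by
    ext x
    simp only [Set.mem_iInter, Set.mem_Ioi, Set.mem_empty_iff_false, iff_false, not_forall,
      not_lt]
    exact ⟨x, le_rfl⟩
  rw [h2, setIntegral_empty] at h1
  have h3 := (Real.continuous_sqrt.tendsto 0).comp h1
  rw [Real.sqrt_zero] at h3
  exact h3

/-- Cauchy-Schwarz for the coefficient functions. -/
theorem cs_co (h : Sq N e ψ m) (hm : 0 ≤ m) (y w : H) (t s A : ℝ) (hA : 0 ≤ A) :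
    ∫ a in (0 : ℝ)..A, co N e ψ y (t + a) * co N e ψ w (s + a) ≤
      Gt N e ψ y t * (Real.sqrt (2 * Real.pi) * m * ‖w‖) := by
  have c1 : Continuous fun a : ℝ => co N e ψ y (t + a) :=
    (continuous_co N e ψ y).comp (continuous_const.add continuous_id)
  have c2 : Continuous fun a : ℝ => co N e ψ w (s + a) :=
    (continuous_co N e ψ w).comp (continuous_const.add continuous_id)
  refine (cs_interval _ _ c1 c2 A hA).trans ?_
  have h1 : Real.sqrt (∫ a in (0 : ℝ)..A, co N e ψ y (t + a) ^ 2) ≤ Gt N e ψ y t := by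
    refine Real.sqrt_le_sqrt ?_
    rw [intervalIntegral.integral_comp_add_left (fun u => co N e ψ y u ^ 2) t, add_zero,
      intervalIntegral.integral_of_le (by linarith)]
    refine setIntegral_mono_set (h y).1.integrableOn ?_ ?_
    · exact Eventually.of_forall fun u => sq_nonneg _
    · exact Set.Ioc_subset_Ioi_self.eventuallyLE
  have h2 : Real.sqrt (∫ a in (0 : ℝ)..A, co N e ψ w (s + a) ^ 2) ≤
      Real.sqrt (2 * Real.pi) * m * ‖w‖ := by
    rw [← sqrt_const m ‖w‖ hm (norm_nonneg _)]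
    refine Real.sqrt_le_sqrt ?_
    refine le_trans ?_ (h w).2
    rw [intervalIntegral.integral_comp_add_left (fun u => co N e ψ w u ^ 2) s, add_zero,
      intervalIntegral.integral_of_le (by linarith)]
    exact setIntegral_le_integral (h w).1 (Eventually.of_forall fun u => sq_nonneg _)
  exact mul_le_mul h1 h2 (Real.sqrt_nonneg _) (Gt_nonneg N e ψ y t)

theorem inner_Or (J : H →L[ℂ] H) (s u : ℝ) (x : H) :
    ‖⟪Or N e J ψ s, Eg N e u x⟫_ℂ‖ = co N e ψ (star J (Eg N e (u - s) x)) s := by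
  unfold Or co
  rw [inner_Eg_left, Eg_apply_add, ContinuousLinearMap.star_eq_adjoint,
    ContinuousLinearMap.adjoint_inner_left, norm_inner_symm]
  congr 3
  · congr 1
    ring

theorem norm_star_Eg (J : H →L[ℂ] H) (u : ℝ) (x : H) : ‖star J (Eg N e u x)‖ ≤ ‖J‖ * ‖x‖ := by
  refine ((star J).le_opNorm _).trans ?_
  rw [norm_star]
  exact mul_le_mul_of_nonneg_left (norm_Eg_apply_le N e _ _) (norm_nonneg _)

/-- The main estimate. -/
theorem main_est (h : Sq N e ψ m) (hm : 0 ≤ m) (J K : H →L[ℂ] H) (x y : ℕ → H)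
    (hsum : Summable fun k => ‖x k‖ * ‖y k‖)
    (hK : ∀ z, HasSum (fun k => ⟪y k, z⟫_ℂ • x k) (K z)) (t s A : ℝ) (hA : 0 ≤ A) :
    ∫ a in (0 : ℝ)..A, ‖⟪Or N e J ψ (t + a) - Or N e J ψ (s + a), Or N e K ψ (t + a)⟫_ℂ‖ ≤
      ∑' k, ‖x k‖ * Gt N e ψ (y k) t * (2 * (Real.sqrt (2 * Real.pi) * m * ‖J‖)) := by
  set F : ℕ → ℝ → ℝ := fun k a => co N e ψ (y k) (t + a) *
    (co N e ψ (star J (Eg N e (t - t) (x k))) (t + a) +
      co N e ψ (star J (Eg N e (t - s) (x k))) (s + a)) with hF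
  have cc : ∀ (w : H) (r : ℝ), Continuous fun a : ℝ => co N e ψ w (r + a) := fun w r =>
    (continuous_co N e ψ w).comp (continuous_const.add continuous_id)
  have hFc : ∀ k, Continuous (F k) := fun k => (cc _ _).mul ((cc _ _).add (cc _ _))
  have hF0 : ∀ k a, 0 ≤ F k a := fun k a => mul_nonneg (co_nonneg _ _ _ _ _)
    (add_nonneg (co_nonneg _ _ _ _ _) (co_nonneg _ _ _ _ _))
  have hFb : ∀ k a, ‖F k a‖ ≤ ‖x k‖ * ‖y k‖ * (2 * ‖J‖ * ‖ψ‖ ^ 2) := by
    intro k a
    rw [Real.norm_of_nonneg (hF0 k a)]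
    have h1 := co_le N e ψ (y k) (t + a)
    have h2 := co_le N e ψ (star J (Eg N e (t - t) (x k))) (t + a)
    have h3 := co_le N e ψ (star J (Eg N e (t - s) (x k))) (s + a)
    have h4 := mul_le_mul_of_nonneg_right (norm_star_Eg (N := N) (e := e) J (t - t) (x k))
      (norm_nonneg ψ)
    have h5 := mul_le_mul_of_nonneg_right (norm_star_Eg (N := N) (e := e) J (t - s) (x k))
      (norm_nonneg ψ)
    have h6 : co N e ψ (star J (Eg N e (t - t) (x k))) (t + a) +
        co N e ψ (star J (Eg N e (t - s) (x k))) (s + a) ≤ 2 * (‖J‖ * ‖x k‖ * ‖ψ‖) := by linarith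
    refine (mul_le_mul h1 h6 (add_nonneg (co_nonneg _ _ _ _ _) (co_nonneg _ _ _ _ _))
      (by positivity)).trans (le_of_eq ?_)
    ring
  have hsb : Summable fun k => ‖x k‖ * ‖y k‖ * (2 * ‖J‖ * ‖ψ‖ ^ 2) := hsum.mul_right _
  have hFs : ∀ a, Summable fun k => F k a := fun a =>
    Summable.of_norm_bounded hsb fun k => hFb k a
  have hcont : Continuous fun a => ∑' k, F k a := continuous_tsum hFc hsb hFb
  -- pointwise bound
  have hpt : ∀ a, ‖⟪Or N e J ψ (t + a) - Or N e J ψ (s + a), Or N e K ψ (t + a)⟫_ℂ‖ ≤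
      ∑' k, F k a := by
    intro a
    set f := Or N e J ψ (t + a) - Or N e J ψ (s + a) with hf
    have h1 := (innerSL ℂ f ∘L Eg N e (t + a)).hasSum (hK (Eg N e (-(t + a)) ψ))
    have h2 : (innerSL ℂ f ∘L Eg N e (t + a)) (K (Eg N e (-(t + a)) ψ)) =
        ⟪f, Or N e K ψ (t + a)⟫_ℂ := rfl
    rw [h2] at h1
    have h3 : ∀ k, ‖(innerSL ℂ f ∘L Eg N e (t + a)) (⟪y k, Eg N e (-(t + a)) ψ⟫_ℂ • x k)‖ ≤
        F k a := by
      intro k
      rw [map_smul, norm_smul]
      have h4 : (innerSL ℂ f ∘L Eg N e (t + a)) (x k) = ⟪f, Eg N e (t + a) (x k)⟫_ℂ := rfl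
      rw [h4]
      refine mul_le_mul_of_nonneg_left ?_ (norm_nonneg _)
      rw [hf, inner_sub_left]
      refine (norm_sub_le _ _).trans (le_of_eq ?_)
      have e1 : t + a - (t + a) = t - t := by ring
      have e2 : t + a - (s + a) = t - s := by ring
      rw [inner_Or, inner_Or, e1, e2]
    rw [← h1.tsum_eq]
    exact tsum_of_norm_bounded (hFs a).hasSum h3
  have hAB : Continuous fun a : ℝ =>
      ‖⟪Or N e J ψ (t + a) - Or N e J ψ (s + a), Or N e K ψ (t + a)⟫_ℂ‖ := by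
    have g1 : ∀ (L : H →L[ℂ] H) (r : ℝ), Continuous fun a : ℝ => Or N e L ψ (r + a) :=
      fun L r => (continuous_Or N e L ψ).comp (continuous_const.add continuous_id)
    exact (((g1 J t).sub (g1 J s)).inner (g1 K t)).norm
  refine (intervalIntegral.integral_mono_on hA (hAB.intervalIntegrable _ _)
    (hcont.intervalIntegrable _ _) fun a _ => hpt a).trans ?_
  have hint : HasSum (fun k => ∫ a in (0 : ℝ)..A, F k a) (∫ a in (0 : ℝ)..A, ∑' k, F k a) := by
    refine intervalIntegral.hasSum_integral_of_dominated_convergence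
      (fun k _ => ‖x k‖ * ‖y k‖ * (2 * ‖J‖ * ‖ψ‖ ^ 2)) ?_ ?_ ?_ ?_ ?_
    · exact fun k => (hFc k).aestronglyMeasurable
    · exact fun k => Eventually.of_forall fun a _ => hFb k a
    · exact Eventually.of_forall fun a _ => hsb
    · exact intervalIntegrable_const
    · exact Eventually.of_forall fun a _ => (hFs a).hasSum
  have hk : ∀ k, ∫ a in (0 : ℝ)..A, F k a ≤
      ‖x k‖ * Gt N e ψ (y k) t * (2 * (Real.sqrt (2 * Real.pi) * m * ‖J‖)) := by
    intro k
    have i1 : IntervalIntegrable (fun a => co N e ψ (y k) (t + a) *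
        co N e ψ (star J (Eg N e (t - t) (x k))) (t + a)) volume 0 A :=
      ((cc _ _).mul (cc _ _)).intervalIntegrable _ _
    have i2 : IntervalIntegrable (fun a => co N e ψ (y k) (t + a) *
        co N e ψ (star J (Eg N e (t - s) (x k))) (s + a)) volume 0 A :=
      ((cc _ _).mul (cc _ _)).intervalIntegrable _ _
    have h1 : ∫ a in (0 : ℝ)..A, F k a = (∫ a in (0 : ℝ)..A, co N e ψ (y k) (t + a) *
        co N e ψ (star J (Eg N e (t - t) (x k))) (t + a)) +
        ∫ a in (0 : ℝ)..A, co N e ψ (y k) (t + a) *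
          co N e ψ (star J (Eg N e (t - s) (x k))) (s + a) := by
      rw [← intervalIntegral.integral_add i1 i2]
      refine intervalIntegral.integral_congr fun a _ => ?_
      simp only [hF]
      ring
    rw [h1]
    have h2 := cs_co h hm (y k) (star J (Eg N e (t - t) (x k))) t t A hA
    have h3 := cs_co h hm (y k) (star J (Eg N e (t - s) (x k))) t s A hA
    have h4 := norm_star_Eg (N := N) (e := e) J (t - t) (x k)
    have h5 := norm_star_Eg (N := N) (e := e) J (t - s) (x k)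
    have hc : 0 ≤ Real.sqrt (2 * Real.pi) * m := mul_nonneg (Real.sqrt_nonneg _) hm
    have hG := Gt_nonneg N e ψ (y k) t
    have h6 := mul_le_mul_of_nonneg_left (mul_le_mul_of_nonneg_left h4 hc) hG
    have h7 := mul_le_mul_of_nonneg_left (mul_le_mul_of_nonneg_left h5 hc) hG
    have h8 : ‖x k‖ * Gt N e ψ (y k) t * (2 * (Real.sqrt (2 * Real.pi) * m * ‖J‖)) =
        Gt N e ψ (y k) t * (Real.sqrt (2 * Real.pi) * m * (‖J‖ * ‖x k‖)) +
          Gt N e ψ (y k) t * (Real.sqrt (2 * Real.pi) * m * (‖J‖ * ‖x k‖)) := by ring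
    rw [h8]
    linarith
  rw [← hint.tsum_eq]
  refine hint.summable.tsum_le_tsum hk ?_
  refine Summable.mul_right _ ?_
  refine Summable.of_nonneg_of_le (fun k => mul_nonneg (norm_nonneg _) (Gt_nonneg _ _ _ _ _))
    (fun k => ?_) (hsum.mul_right (Real.sqrt (2 * Real.pi) * m))
  have := mul_le_mul_of_nonneg_left (Gt_le h hm (y k) t) (norm_nonneg (x k))
  linarith

end

end WAVAAux

open WAVAAux

theorem blk_WAVA : Stmt_NUC.{v} → Stmt_PAC.{v} → Stmt_L2T.{v} → Stmt_DEC.{v} →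
    Stmt_WAVA.{v} := by
  intro hNUC hPAC hL2T hDEC H _ _ _ _ N e hN J hT m ψ hm hψ ε hε
  obtain ⟨p1, p2, p3, p4, p5, p6, p7, p8, p9, p10, p11, p12, p13, p14, p15, p16, p17, p18⟩ :=
    hPAC H N e hN
  set K := br (dt e N) J with hKdef
  obtain ⟨x, y, hsum, -, hK⟩ := hNUC H K hT
  -- square integrability
  have hSq : Sq N e ψ m := by
    intro w
    obtain ⟨h1, h2⟩ := hL2T H N e hN m ψ w hm hψ
    have h3 : (fun u : ℝ => co N e ψ w u ^ 2) =
        fun u : ℝ => (fun t : ℝ => ‖⟪w, ex N (t * e) ψ⟫_ℂ‖ ^ 2) (-u) := by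
      funext u
      rfl
    rw [h3]
    refine ⟨h1.comp_neg, ?_⟩
    rw [integral_neg_eq_self (fun t : ℝ => ‖⟪w, ex N (t * e) ψ⟫_ℂ‖ ^ 2) volume]
    exact h2
  -- `ψ` is in `Hac`
  have hψ' : ψ ∈ Hac N e :=
    Submodule.le_topologicalClosure _ (Submodule.subset_span (Set.mem_iUnion.2 ⟨m, hψ⟩))
  have hdec := (hDEC H N e hN K ψ hT hψ').2
  set C : ℝ := 2 * (Real.sqrt (2 * Real.pi) * m * ‖J‖) with hC
  have hC0 : 0 ≤ C := by positivity
  set Γ : ℝ → ℝ := fun t => ∑' k, ‖x k‖ * Gt N e ψ (y k) t * C with hΓ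
  have hΓ0 : Tendsto Γ atTop (𝓝 0) := by
    have h1 : Tendsto (fun t => ∑' k, ‖x k‖ * Gt N e ψ (y k) t * C) atTop
        (𝓝 (∑' _ : ℕ, (0 : ℝ))) := by
      refine tendsto_tsum_of_dominated_convergence
        (bound := fun k => ‖x k‖ * ‖y k‖ * (Real.sqrt (2 * Real.pi) * m * C))
        (hsum.mul_right _) ?_ ?_
      · intro k
        have h2 := ((Gt_tendsto hSq (y k)).const_mul ‖x k‖).mul_const C
        rw [mul_zero, zero_mul] at h2
        exact h2
      · refine Eventually.of_forall fun t k => ?_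
        rw [Real.norm_of_nonneg (mul_nonneg (mul_nonneg (norm_nonneg _) (Gt_nonneg _ _ _ _ _))
          hC0)]
        have h2 := mul_le_mul_of_nonneg_left (Gt_le hSq hm (y k) t) (norm_nonneg (x k))
        have h3 := mul_le_mul_of_nonneg_right h2 hC0
        refine h3.trans (le_of_eq ?_)
        ring
    rw [tsum_zero] at h1
    exact h1
  -- the key inequality
  have key : ∀ t s : ℝ, ‖Or N e J ψ t - Or N e J ψ s‖ ^ 2 ≤ 2 * Γ t + 2 * Γ s := by
    intro t s
    set f : ℝ → H := fun a => Or N e J ψ (t + a) - Or N e J ψ (s + a) with hf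
    set f' : ℝ → H := fun a => Complex.I • Or N e K ψ (t + a) - Complex.I • Or N e K ψ (s + a)
      with hf'
    have hd : ∀ a, HasDerivAt f (f' a) a := fun a =>
      ((hasDerivAt_Or N e hN J ψ (t + a)).comp_const_add t a).sub
        ((hasDerivAt_Or N e hN J ψ (s + a)).comp_const_add s a)
    have hg : ∀ a, HasDerivAt (fun a => (⟪f a, f a⟫_ℂ).re)
        ((⟪f a, f' a⟫_ℂ + ⟪f' a, f a⟫_ℂ).re) a := by
      intro a
      have h1 := (hd a).inner ℂ (hd a)
      exact Complex.reCLM.hasFDerivAt.comp_hasDerivAt a h1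
    have g1 : ∀ (L : H →L[ℂ] H) (r : ℝ), Continuous fun a : ℝ => Or N e L ψ (r + a) :=
      fun L r => (continuous_Or N e L ψ).comp (continuous_const.add continuous_id)
    have hfc : Continuous f := (g1 J t).sub (g1 J s)
    have hf'c : Continuous f' :=
      ((g1 K t).const_smul Complex.I).sub ((g1 K s).const_smul Complex.I)
    have hgc : Continuous fun a => (⟪f a, f' a⟫_ℂ + ⟪f' a, f a⟫_ℂ).re :=
      Complex.continuous_re.comp ((hfc.inner hf'c).add (hf'c.inner hfc))
    have hns : ∀ a, (⟪f a, f a⟫_ℂ).re = ‖f a‖ ^ 2 := fun a => by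
      rw [inner_self_eq_norm_sq_to_K]
      norm_cast
    have hA : ∀ A : ℝ, 0 ≤ A → ‖f 0‖ ^ 2 ≤ ‖f A‖ ^ 2 + (2 * Γ t + 2 * Γ s) := by
      intro A hA
      have h1 := intervalIntegral.integral_eq_sub_of_hasDerivAt (a := 0) (b := A)
        (fun a _ => hg a) (hgc.intervalIntegrable _ _)
      rw [hns, hns] at h1
      have c1 : Continuous fun a => ‖⟪f a, Or N e K ψ (t + a)⟫_ℂ‖ := (hfc.inner (g1 K t)).norm
      have c2 : Continuous fun a => ‖⟪f a, Or N e K ψ (s + a)⟫_ℂ‖ := (hfc.inner (g1 K s)).norm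
      have h2 : -∫ a in (0 : ℝ)..A, (⟪f a, f' a⟫_ℂ + ⟪f' a, f a⟫_ℂ).re ≤
          ∫ a in (0 : ℝ)..A, (2 * ‖⟪f a, Or N e K ψ (t + a)⟫_ℂ‖ +
            2 * ‖⟪f a, Or N e K ψ (s + a)⟫_ℂ‖) := by
        rw [← intervalIntegral.integral_neg]
        refine intervalIntegral.integral_mono_on hA (hgc.neg.intervalIntegrable _ _)
          (((continuous_const.mul c1).add (continuous_const.mul c2)).intervalIntegrable _ _)
          fun a _ => ?_
        have h3 : ‖⟪f a, f' a⟫_ℂ‖ ≤ ‖⟪f a, Or N e K ψ (t + a)⟫_ℂ‖ +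
            ‖⟪f a, Or N e K ψ (s + a)⟫_ℂ‖ := by
          have : ⟪f a, f' a⟫_ℂ = Complex.I * ⟪f a, Or N e K ψ (t + a)⟫_ℂ -
              Complex.I * ⟪f a, Or N e K ψ (s + a)⟫_ℂ := by
            rw [hf']
            simp only [inner_sub_right, inner_smul_right]
          rw [this]
          refine (norm_sub_le _ _).trans (le_of_eq ?_)
          rw [norm_mul, norm_mul, Complex.norm_I, one_mul, one_mul]
        have h4 : ‖⟪f' a, f a⟫_ℂ‖ = ‖⟪f a, f' a⟫_ℂ‖ := norm_inner_symm _ _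
        have h5 := Complex.abs_re_le_norm (⟪f a, f' a⟫_ℂ + ⟪f' a, f a⟫_ℂ)
        have h6 := norm_add_le ⟪f a, f' a⟫_ℂ ⟪f' a, f a⟫_ℂ
        have h7 := neg_abs_le (⟪f a, f' a⟫_ℂ + ⟪f' a, f a⟫_ℂ).re
        linarith
      have h3 : ∫ a in (0 : ℝ)..A, (2 * ‖⟪f a, Or N e K ψ (t + a)⟫_ℂ‖ +
            2 * ‖⟪f a, Or N e K ψ (s + a)⟫_ℂ‖) =
          2 * (∫ a in (0 : ℝ)..A, ‖⟪f a, Or N e K ψ (t + a)⟫_ℂ‖) +
            2 * ∫ a in (0 : ℝ)..A, ‖⟪f a, Or N e K ψ (s + a)⟫_ℂ‖ := by
        have i1 : IntervalIntegrable (fun a => 2 * ‖⟪f a, Or N e K ψ (t + a)⟫_ℂ‖) volume 0 A :=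
          (continuous_const.mul c1).intervalIntegrable _ _
        have i2 : IntervalIntegrable (fun a => 2 * ‖⟪f a, Or N e K ψ (s + a)⟫_ℂ‖) volume 0 A :=
          (continuous_const.mul c2).intervalIntegrable _ _
        rw [intervalIntegral.integral_add i1 i2,
          intervalIntegral.integral_const_mul, intervalIntegral.integral_const_mul]
      have h4 : ∫ a in (0 : ℝ)..A, ‖⟪f a, Or N e K ψ (t + a)⟫_ℂ‖ ≤ Γ t :=
        main_est hSq hm J K x y hsum hK t s A hA
      have h5 : ∫ a in (0 : ℝ)..A, ‖⟪f a, Or N e K ψ (s + a)⟫_ℂ‖ ≤ Γ s := by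
        refine le_trans (le_of_eq ?_) (main_est hSq hm J K x y hsum hK s t A hA)
        refine intervalIntegral.integral_congr fun a _ => ?_
        simp only [hf]
        rw [← neg_sub (Or N e J ψ (s + a)) (Or N e J ψ (t + a)), inner_neg_left, norm_neg]
      linarith
    -- the limit
    have hlim : Tendsto f atTop (𝓝 0) := by
      have h1 : ∀ A : ℝ, f A = ∫ u in s..t, Complex.I • Or N e K ψ (A + u) := by
        intro A
        have h2 : ∀ u ∈ Set.uIcc s t, HasDerivAt (fun u => Or N e J ψ (A + u))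
            (Complex.I • Or N e K ψ (A + u)) u := fun u _ =>
          (hasDerivAt_Or N e hN J ψ (A + u)).comp_const_add A u
        rw [intervalIntegral.integral_eq_sub_of_hasDerivAt h2
          (((g1 K A).const_smul Complex.I).intervalIntegrable _ _)]
        simp only [hf]
        rw [add_comm t A, add_comm s A]
      have h2 : Tendsto (fun A : ℝ => ∫ u in s..t, Complex.I • Or N e K ψ (A + u)) atTop
          (𝓝 (∫ _ in s..t, (0 : H))) := by
        refine intervalIntegral.tendsto_integral_filter_of_dominated_convergence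
          (fun _ => ‖K‖ * ‖ψ‖) ?_ ?_ ?_ ?_
        · exact Eventually.of_forall fun A => ((g1 K A).const_smul Complex.I).aestronglyMeasurable
        · refine Eventually.of_forall fun A => Eventually.of_forall fun u _ => ?_
          rw [norm_smul, Complex.norm_I, one_mul]
          exact norm_Or_le N e K ψ _
        · exact intervalIntegrable_const
        · refine Eventually.of_forall fun u _ => ?_
          have h3 : Tendsto (fun A : ℝ => -(A + u)) atTop atBot :=
            tendsto_neg_atTop_atBot.comp (tendsto_atTop_add_const_right _ _ tendsto_id)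
          have h4 := hdec.comp h3
          rw [tendsto_zero_iff_norm_tendsto_zero] at h4 ⊢
          refine squeeze_zero (fun A => norm_nonneg _) (fun A => ?_) h4
          rw [norm_smul, Complex.norm_I, one_mul]
          exact norm_Eg_apply_le N e _ _
      rw [intervalIntegral.integral_zero] at h2
      exact h2.congr fun A => (h1 A).symm
    have h1 : Tendsto (fun A => ‖f A‖ ^ 2 + (2 * Γ t + 2 * Γ s)) atTop
        (𝓝 (0 + (2 * Γ t + 2 * Γ s))) := by
      have h2 := (hlim.norm.pow 2)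
      rw [norm_zero, zero_pow two_ne_zero] at h2
      exact h2.add_const _
    have h2 : ‖f 0‖ ^ 2 ≤ 0 + (2 * Γ t + 2 * Γ s) :=
      ge_of_tendsto h1 ((eventually_ge_atTop 0).mono fun A hA' => hA A hA')
    have h3 : f 0 = Or N e J ψ t - Or N e J ψ s := by
      simp only [hf, add_zero]
    rw [h3, zero_add] at h2
    exact h2
  -- conclusion
  have hev : ∀ᶠ t in atTop, Γ t < ε ^ 2 / 4 := hΓ0.eventually (gt_mem_nhds (by positivity))
  obtain ⟨t₀, ht₀⟩ := eventually_atTop.1 hev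
  refine ⟨t₀, fun t s ht hs => ?_⟩
  rw [cj_apply, cj_apply]
  have h1 := key t s
  have h2 := ht₀ t ht
  have h3 := ht₀ s hs
  refine abs_le_of_sq_le_sq' ?_ hε.le |>.2
  linarith

end Pool.Q2
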