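import Pool.Agent.Work.MP_8c7e5b_q2.ABS
import Pool.Agent.Work.MP_8c7e5b_q2.AFF
import Pool.Agent.Work.MP_8c7e5b_q2.ASM
import Pool.Agent.Work.MP_8c7e5b_q2.BND
import Pool.Agent.Work.MP_8c7e5b_q2.CELA
import Pool.Agent.Work.MP_8c7e5b_q2.CELL
import Pool.Agent.Work.MP_8c7e5b_q2.CLC
import Pool.Agent.Work.MP_8c7e5b_q2.CLE
import Pool.Agent.Work.MP_8c7e5b_q2.CLS
import Pool.Agent.Work.MP_8c7e5b_q2.CMM
import Pool.Agent.Work.MP_8c7e5b_q2.CUT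
import Pool.Agent.Work.MP_8c7e5b_q2.DEC
import Pool.Agent.Work.MP_8c7e5b_q2.DIL
import Pool.Agent.Work.MP_8c7e5b_q2.DIM
import Pool.Agent.Work.MP_8c7e5b_q2.DSX
import Pool.Agent.Work.MP_8c7e5b_q2.FA
import Pool.Agent.Work.MP_8c7e5b_q2.FAR
import Pool.Agent.Work.MP_8c7e5b_q2.FB
import Pool.Agent.Work.MP_8c7e5b_q2.FC
import Pool.Agent.Work.MP_8c7e5b_q2.FCD
import Pool.Agent.Work.MP_8c7e5b_q2.FD
import Pool.Agent.Work.MP_8c7e5b_q2.FE
import Pool.Agent.Work.MP_8c7e5b_q2.FEX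
import Pool.Agent.Work.MP_8c7e5b_q2.FF
import Pool.Agent.Work.MP_8c7e5b_q2.FFn
import Pool.Agent.Work.MP_8c7e5b_q2.FIN
import Pool.Agent.Work.MP_8c7e5b_q2.GH
import Pool.Agent.Work.MP_8c7e5b_q2.GRD
import Pool.Agent.Work.MP_8c7e5b_q2.ISO
import Pool.Agent.Work.MP_8c7e5b_q2.KMA
import Pool.Agent.Work.MP_8c7e5b_q2.KMB
import Pool.Agent.Work.MP_8c7e5b_q2.KMC
import Pool.Agent.Work.MP_8c7e5b_q2.L2T
import Pool.Agent.Work.MP_8c7e5b_q2.LPA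
import Pool.Agent.Work.MP_8c7e5b_q2.LPB
import Pool.Agent.Work.MP_8c7e5b_q2.LPC
import Pool.Agent.Work.MP_8c7e5b_q2.MIX
import Pool.Agent.Work.MP_8c7e5b_q2.NUC
import Pool.Agent.Work.MP_8c7e5b_q2.PAC
import Pool.Agent.Work.MP_8c7e5b_q2.PHA
import Pool.Agent.Work.MP_8c7e5b_q2.PHB
import Pool.Agent.Work.MP_8c7e5b_q2.PIG
import Pool.Agent.Work.MP_8c7e5b_q2.PRJ
import Pool.Agent.Work.MP_8c7e5b_q2.PWR
import Pool.Agent.Work.MP_8c7e5b_q2.RED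
import Pool.Agent.Work.MP_8c7e5b_q2.RZP
import Pool.Agent.Work.MP_8c7e5b_q2.SHF
import Pool.Agent.Work.MP_8c7e5b_q2.SNA
import Pool.Agent.Work.MP_8c7e5b_q2.SNB
import Pool.Agent.Work.MP_8c7e5b_q2.SNG
import Pool.Agent.Work.MP_8c7e5b_q2.SPA
import Pool.Agent.Work.MP_8c7e5b_q2.SPC
import Pool.Agent.Work.MP_8c7e5b_q2.SPE
import Pool.Agent.Work.MP_8c7e5b_q2.SPF
import Pool.Agent.Work.MP_8c7e5b_q2.SPG
import Pool.Agent.Work.MP_8c7e5b_q2.SPH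
import Pool.Agent.Work.MP_8c7e5b_q2.SPM
import Pool.Agent.Work.MP_8c7e5b_q2.SPU
import Pool.Agent.Work.MP_8c7e5b_q2.SPX
import Pool.Agent.Work.MP_8c7e5b_q2.STB
import Pool.Agent.Work.MP_8c7e5b_q2.SYL
import Pool.Agent.Work.MP_8c7e5b_q2.TFN
import Pool.Agent.Work.MP_8c7e5b_q2.TRI
import Pool.Agent.Work.MP_8c7e5b_q2.TRN
import Pool.Agent.Work.MP_8c7e5b_q2.U0
import Pool.Agent.Work.MP_8c7e5b_q2.U1
import Pool.Agent.Work.MP_8c7e5b_q2.U2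
import Pool.Agent.Work.MP_8c7e5b_q2.U3
import Pool.Agent.Work.MP_8c7e5b_q2.U3n
import Pool.Agent.Work.MP_8c7e5b_q2.U4
import Pool.Agent.Work.MP_8c7e5b_q2.U5
import Pool.Agent.Work.MP_8c7e5b_q2.U6
import Pool.Agent.Work.MP_8c7e5b_q2.U7
import Pool.Agent.Work.MP_8c7e5b_q2.U7b
import Pool.Agent.Work.MP_8c7e5b_q2.U8
import Pool.Agent.Work.MP_8c7e5b_q2.U9
import Pool.Agent.Work.MP_8c7e5b_q2.UFI
import Pool.Agent.Work.MP_8c7e5b_q2.UTR
import Pool.Agent.Work.MP_8c7e5b_q2.W1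
import Pool.Agent.Work.MP_8c7e5b_q2.WAU
import Pool.Agent.Work.MP_8c7e5b_q2.WAV
import Pool.Agent.Work.MP_8c7e5b_q2.WAVA

/-!
# MP_8c7e5b_an, Q2: the theorem, from the blocks
-/

set_option autoImplicit false

universe v

namespace Pool.Q2

theorem all_STB : Stmt_STB.{v} := by
  have cmm : Stmt_CMM.{v} := blk_CMM
  have pha : Stmt_PHA.{v} := blk_PHA
  have phb : Stmt_PHB.{v} := blk_PHB pha cmm
  have kma : Stmt_KMA.{v} := blk_KMA pha cmm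
  have kmb : Stmt_KMB.{v} := blk_KMB pha phb cmm kma
  have trn : Stmt_TRN.{v} := blk_TRN
  have cell : Stmt_CELL.{v} := blk_CELL (blk_CELA cmm) blk_FAR blk_GRD cmm
  have iso : Stmt_ISO.{v} := blk_ISO blk_SYL trn cmm
  have dim : Stmt_DIM.{v} := blk_DIM blk_PRJ trn
  have w1 : Stmt_W1.{v} := blk_W1 trn cmm
  have tfn : Stmt_TFN.{v} := blk_TFN
  have tri : Stmt_TRI.{v} := blk_TRI blk_FCD trn tfn cmm
  have asm : Stmt_ASM.{v} := blk_ASM blk_DSX blk_ABS blk_SPF blk_FCD tfn tri trn cmm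
  exact blk_STB pha phb cmm kma kmb cell blk_DSX iso dim w1 asm

theorem all_RED : Stmt_RED.{v} := by
  have cmm : Stmt_CMM.{v} := blk_CMM
  have pha : Stmt_PHA.{v} := blk_PHA
  have phb : Stmt_PHB.{v} := blk_PHB pha cmm
  have kma : Stmt_KMA.{v} := blk_KMA pha cmm
  have kmb : Stmt_KMB.{v} := blk_KMB pha phb cmm kma
  have kmc : Stmt_KMC.{v} := blk_KMC cmm kma
  have fex : Stmt_FEX.{v} := blk_FEX
  have spm : Stmt_SPM.{v} := blk_SPM fex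
  have pac : Stmt_PAC.{v} := blk_PAC cmm fex
  have sna : Stmt_SNA.{v} := blk_SNA fex spm pac
  have sng : Stmt_SNG.{v} := blk_SNG fex spm sna blk_SNB
  have l2t : Stmt_L2T.{v} := blk_L2T
  have dec : Stmt_DEC.{v} := blk_DEC pac l2t
  have wava : Stmt_WAVA.{v} := blk_WAVA blk_NUC pac l2t dec
  have wav : Stmt_WAV.{v} := blk_WAV cmm pac fex dec wava
  have wau : Stmt_WAU.{v} := blk_WAU cmm pac wav
  have cls : Stmt_CLS.{v} := blk_CLS cmm kmb pac fex sng blk_TRN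
  have mix : Stmt_MIX.{v} := blk_MIX kma kmc pac fex sng cmm
  have pig : Stmt_PIG.{v} := blk_PIG cmm kma kmb pac cls
  have rzp : Stmt_RZP.{v} := blk_RZP cmm fex
  have cle : Stmt_CLE.{v} := blk_CLE cmm kmb fex
  have clc : Stmt_CLC.{v} := blk_CLC cmm kmb
  have pwr : Stmt_PWR.{v} := blk_PWR cmm kma kmb pac mix rzp cle clc
  exact blk_RED cmm blk_TFN all_STB pac pig wau pwr

theorem all_GH : Stmt_GH.{v} :=
  blk_GH blk_TFN blk_LPA blk_LPB (blk_LPC blk_TRN) blk_CUT (blk_AFF blk_TFN)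

theorem all_FE : Stmt_FE := blk_FE blk_FB blk_FC blk_FD

theorem all_BND : Stmt_BND.{v} :=
  blk_BND all_GH (blk_SHF blk_LPA blk_LPB blk_TRN blk_CMM) all_RED blk_FA
    (blk_FF blk_FD all_FE) blk_TFN

theorem all_U8 : Stmt_U8.{v} :=
  blk_U8 blk_U1 (blk_U3 blk_U2) blk_U4 blk_U5 blk_U6 (blk_UTR blk_NUC) all_BND blk_TFN
    blk_CMM

/-- Q1 for all normal operators implies the absolutely continuous version. -/
theorem all_UFI : Stmt_UFI.{v} :=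
  blk_UFI (blk_UTR blk_NUC) (blk_U0 (blk_UTR blk_NUC)) blk_U7 all_U8 (blk_FF blk_FD all_FE)

/-- Q1 for bounded normal operators implies the absolutely continuous version for all. -/
theorem all_FIN : Stmt_FIN.{v} := by
  have utr : Stmt_UTR.{v} := blk_UTR blk_NUC
  have u2 : Stmt_U2.{v} := blk_U2
  have u9 : Stmt_U9.{v} := blk_U9 blk_U1 (blk_U3n u2) blk_U4 blk_U5 blk_TFN blk_DIL
  exact blk_FIN (blk_QLB utr blk_TFN) all_GH all_U8 u9 blk_U7b blk_FB (blk_FFn blk_FD all_FE) utr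

theorem all_CALC : Stmt_CALC.{v} := calc_of (blk_SPC blk_SPA) (blk_SPH blk_SPG) blk_SPE

theorem all_SPU : Stmt_SPU.{v} := by
  have u2 : Stmt_U2.{v} := blk_U2
  exact blk_SPU blk_U1 (blk_U3n u2) blk_U4 blk_U5

/-- The final form: classical normal operators. -/
theorem all_SPX : Q1b.{v} → ∃ C : ℝ, Q1acN.{v} C := fun h => by
  obtain ⟨C, hC⟩ := all_FIN.{v} h
  exact ⟨C, blk_SPX all_CALC all_SPU C hC⟩

end Pool.Q2
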