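import Pool.Agent.Work.Bes.ALG
import Pool.Agent.Work.Bes.POL
import Pool.Agent.Work.Bes.POS
import Pool.Agent.Work.Bes.AL
import Pool.Agent.Work.Bes.EX
import Pool.Agent.Work.Bes.FN
import Pool.Agent.Work.Bes.AV
import Pool.Agent.Work.Bes.DU
import Pool.Agent.Work.Bes.WT
import Pool.Agent.Work.Bes.FOUR
import Pool.Agent.Work.Bes.HT
import Pool.Agent.Work.Bes.TN

/-!
# MP_8c7e5b_an, Q2: the trace class calculus

`IsT T`: `T` is trace class; `n1 T`: its trace norm; `trO T`: its trace; `toS T : S1 H`.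
-/

open MeasureTheory Complex Filter Topology
open scoped ComplexOrder InnerProductSpace ComplexConjugate

set_option autoImplicit false
set_option linter.unusedSectionVars false

universe v

namespace Pool.Q2

open Pool.Bes Pool.Bes.ALGAux

theorem sAlg : Stmt_Alg.{v} := blk_ALG
theorem sPol : Stmt_Pol.{v} := blk_POL sAlg
theorem sPos : Stmt_Pos.{v} := blk_POS
theorem sAL : Stmt_AL.{v} := blk_AL sAlg sPos
theorem sEx : Stmt_Ex.{v} := blk_Ex
theorem sFn : Stmt_Fn.{v} := blk_Fn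
theorem sAv : Stmt_Av.{v} := blk_AV sAlg sEx
theorem sDu : Stmt_Du.{v} := blk_DU sAlg sEx sFn sAv
theorem sWt : Stmt_Wt := blk_WT

section

variable {H : Type v} [NormedAddCommGroup H] [InnerProductSpace ℂ H] [CompleteSpace H]

/-- `T` is trace class. -/
def IsT (T : H →L[ℂ] H) : Prop := ∃ D : S1 H, op D = T

open Classical in
/-- `T` as an element of `S1` (junk value `0` if `T` is not trace class). -/
noncomputable def toS (T : H →L[ℂ] H) : S1 H := if h : IsT T then h.choose else 0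

/-- The trace norm. -/
noncomputable def n1 (T : H →L[ℂ] H) : ℝ := ‖toS T‖

/-- The trace. -/
noncomputable def trO (T : H →L[ℂ] H) : ℂ := tr (toS T)

theorem op_inj {X Y : S1 H} (h : op X = op Y) : X = Y := AVAux.op_inj h

theorem op_toS {T : H →L[ℂ] H} (h : IsT T) : op (toS T) = T := by
  unfold toS
  rw [dif_pos h]
  exact h.choose_spec

theorem isT_op (D : S1 H) : IsT (op D) := ⟨D, rfl⟩

theorem toS_op (D : S1 H) : toS (op D) = D := op_inj (op_toS (isT_op D))

theorem toS_eq {T : H →L[ℂ] H} {D : S1 H} (h : op D = T) : toS T = D := by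
  rw [← h, toS_op]

theorem n1_op (D : S1 H) : n1 (op D) = ‖D‖ := by rw [n1, toS_op]

theorem n1_nonneg (T : H →L[ℂ] H) : 0 ≤ n1 T := norm_nonneg _

theorem isT_zero : IsT (0 : H →L[ℂ] H) := ⟨0, map_zero _⟩

theorem toS_zero : toS (0 : H →L[ℂ] H) = 0 := toS_eq (map_zero _)

theorem n1_zero : n1 (0 : H →L[ℂ] H) = 0 := by rw [n1, toS_zero, norm_zero]

theorem trO_zero : trO (0 : H →L[ℂ] H) = 0 := by
  rw [trO, toS_zero, tr, pr_zero_left]

section closure

variable {S T : H →L[ℂ] H}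

theorem IsT.add (hS : IsT S) (hT : IsT T) : IsT (S + T) :=
  ⟨toS S + toS T, by rw [map_add, op_toS hS, op_toS hT]⟩

theorem IsT.sub (hS : IsT S) (hT : IsT T) : IsT (S - T) :=
  ⟨toS S - toS T, by rw [map_sub, op_toS hS, op_toS hT]⟩

theorem IsT.neg (hT : IsT T) : IsT (-T) := ⟨-toS T, by rw [map_neg, op_toS hT]⟩

theorem IsT.smul (c : ℂ) (hT : IsT T) : IsT (c • T) := ⟨c • toS T, by rw [map_smul, op_toS hT]⟩

theorem IsT.mul_left (S : H →L[ℂ] H) (hT : IsT T) : IsT (S * T) :=
  ⟨lm S (toS T), by rw [op_lm, op_toS hT]⟩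

theorem IsT.mul_right (S : H →L[ℂ] H) (hT : IsT T) : IsT (T * S) :=
  ⟨rm S (toS T), by rw [op_rm, op_toS hT]⟩

theorem toS_add (hS : IsT S) (hT : IsT T) : toS (S + T) = toS S + toS T :=
  toS_eq (by rw [map_add, op_toS hS, op_toS hT])

theorem toS_sub (hS : IsT S) (hT : IsT T) : toS (S - T) = toS S - toS T :=
  toS_eq (by rw [map_sub, op_toS hS, op_toS hT])

theorem toS_neg (hT : IsT T) : toS (-T) = -toS T := toS_eq (by rw [map_neg, op_toS hT])

theorem toS_smul (c : ℂ) (hT : IsT T) : toS (c • T) = c • toS T :=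
  toS_eq (by rw [map_smul, op_toS hT])

theorem toS_mul_left (S : H →L[ℂ] H) (hT : IsT T) : toS (S * T) = lm S (toS T) :=
  toS_eq (by rw [op_lm, op_toS hT])

theorem toS_mul_right (S : H →L[ℂ] H) (hT : IsT T) : toS (T * S) = rm S (toS T) :=
  toS_eq (by rw [op_rm, op_toS hT])

theorem n1_add_le (hS : IsT S) (hT : IsT T) : n1 (S + T) ≤ n1 S + n1 T := by
  rw [n1, toS_add hS hT]
  exact norm_add_le _ _

theorem n1_sub_le (hS : IsT S) (hT : IsT T) : n1 (S - T) ≤ n1 S + n1 T := by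
  rw [n1, toS_sub hS hT]
  exact norm_sub_le _ _

theorem n1_neg (hT : IsT T) : n1 (-T) = n1 T := by rw [n1, toS_neg hT, norm_neg, n1]

theorem n1_smul (c : ℂ) (hT : IsT T) : n1 (c • T) = ‖c‖ * n1 T := by
  rw [n1, toS_smul c hT, norm_smul, n1]

theorem n1_mul_left_le (S : H →L[ℂ] H) (hT : IsT T) : n1 (S * T) ≤ ‖S‖ * n1 T := by
  rw [n1, toS_mul_left S hT]
  exact norm_lm_le _ _

theorem n1_mul_right_le (S : H →L[ℂ] H) (hT : IsT T) : n1 (T * S) ≤ ‖S‖ * n1 T := by
  rw [n1, toS_mul_right S hT]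
  exact norm_rm_le _ _

theorem norm_le_n1 (hT : IsT T) : ‖T‖ ≤ n1 T := by
  have h := norm_op_le (toS T)
  rwa [op_toS hT] at h

theorem n1_eq_zero (hT : IsT T) (h : n1 T = 0) : T = 0 := by
  have h1 := norm_le_n1 hT
  rw [h] at h1
  exact norm_eq_zero.1 (le_antisymm h1 (norm_nonneg _))

theorem trO_add (hS : IsT S) (hT : IsT T) : trO (S + T) = trO S + trO T := by
  rw [trO, toS_add hS hT]
  exact pr_add_left _ _ _

theorem trO_sub (hS : IsT S) (hT : IsT T) : trO (S - T) = trO S - trO T := by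
  rw [trO, toS_sub hS hT]
  exact pr_sub_left _ _ _

theorem trO_smul (c : ℂ) (hT : IsT T) : trO (c • T) = c * trO T := by
  rw [trO, toS_smul c hT]
  exact pr_smul_left _ _ _

theorem trO_neg (hT : IsT T) : trO (-T) = -trO T := by
  have h := trO_smul (-1 : ℂ) hT
  rwa [neg_smul, one_smul, neg_one_mul] at h

theorem norm_trO_le (_hT : IsT T) : ‖trO T‖ ≤ n1 T := by
  have h := norm_pr_le (toS T) 1
  have h5 : ‖(1 : H →L[ℂ] H)‖ ≤ 1 := ContinuousLinearMap.norm_id_le
  have h6 := mul_le_mul_of_nonneg_left h5 (norm_nonneg (toS T))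
  unfold trO tr n1
  linarith

/-- `tr (S T) = tr (T S)` -/
theorem trO_mul_comm (S : H →L[ℂ] H) (hT : IsT T) : trO (S * T) = trO (T * S) := by
  rw [trO, trO, toS_mul_left S hT, toS_mul_right S hT, tr, tr, pr_lm, pr_rm, one_mul, mul_one]

theorem trO_mul_eq_pr (S : H →L[ℂ] H) (hT : IsT T) : trO (S * T) = pr (toS T) S := by
  rw [trO, toS_mul_left S hT, tr, pr_lm, one_mul]

end closure

/-- rank one operators -/
theorem isT_r1 (x y : H) : IsT (r1 x y) := ⟨TnBlock.vS x y, TnBlock.op_vS x y⟩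

theorem n1_r1_le (x y : H) : n1 (r1 x y) ≤ ‖x‖ * ‖y‖ := by
  rw [n1, toS_eq (TnBlock.op_vS x y)]
  exact TnBlock.norm_vS_le x y

theorem trO_r1 (x y : H) : trO (r1 x y) = ⟪y, x⟫_ℂ := by
  rw [trO, toS_eq (TnBlock.op_vS x y)]
  rfl

theorem star_r1 (x y : H) : star (r1 x y) = r1 y x := TnBlock.star_r1 x y

/-- sums -/
theorem IsT.sum {ι : Type*} (s : Finset ι) (f : ι → H →L[ℂ] H) (h : ∀ i ∈ s, IsT (f i)) :
    IsT (∑ i ∈ s, f i) := by
  classical
  induction s using Finset.induction_on with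
  | empty => rw [Finset.sum_empty]; exact isT_zero
  | insert a s ha ih =>
    rw [Finset.sum_insert ha]
    exact (h a (Finset.mem_insert_self _ _)).add (ih fun i hi => h i (Finset.mem_insert_of_mem hi))

theorem n1_sum_le {ι : Type*} (s : Finset ι) (f : ι → H →L[ℂ] H) (h : ∀ i ∈ s, IsT (f i)) :
    n1 (∑ i ∈ s, f i) ≤ ∑ i ∈ s, n1 (f i) := by
  classical
  induction s using Finset.induction_on with
  | empty => rw [Finset.sum_empty, Finset.sum_empty, n1_zero]
  | insert a s ha ih =>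
    rw [Finset.sum_insert ha, Finset.sum_insert ha]
    have h1 := h a (Finset.mem_insert_self _ _)
    have h2 : ∀ i ∈ s, IsT (f i) := fun i hi => h i (Finset.mem_insert_of_mem hi)
    exact (n1_add_le h1 (IsT.sum s f h2)).trans (by linarith [ih h2])

theorem trO_sum {ι : Type*} (s : Finset ι) (f : ι → H →L[ℂ] H) (h : ∀ i ∈ s, IsT (f i)) :
    trO (∑ i ∈ s, f i) = ∑ i ∈ s, trO (f i) := by
  classical
  induction s using Finset.induction_on with
  | empty => rw [Finset.sum_empty, Finset.sum_empty, trO_zero]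
  | insert a s ha ih =>
    rw [Finset.sum_insert ha, Finset.sum_insert ha]
    have h1 := h a (Finset.mem_insert_self _ _)
    have h2 : ∀ i ∈ s, IsT (f i) := fun i hi => h i (Finset.mem_insert_of_mem hi)
    rw [trO_add h1 (IsT.sum s f h2), ih h2]

/-- adjoints -/
theorem IsT.star_aux {T : H →L[ℂ] H} (hT : IsT T) : IsT (star T) ∧ n1 (star T) ≤ n1 T := by
  obtain ⟨W, ω, hW, hpos, h1, h2⟩ := sPol H (toS T)
  have hT2 : T = W * op ω := by rw [← op_lm, ← h1, op_toS hT]
  have hsa : star (op ω) = op ω := by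
    have h3 : (0 : H →L[ℂ] H) ≤ op ω := (sPos H ω hpos).2.1
    exact (IsSelfAdjoint.of_nonneg h3)
  have h4 : star T = op (rm (star W) ω) := by
    rw [op_rm, hT2, star_mul, hsa]
  have h5 : ‖ω‖ ≤ n1 T := by
    have : ‖ω‖ ≤ ‖star W‖ * ‖toS T‖ := by
      conv_lhs => rw [h2]
      exact norm_lm_le _ _
    rw [norm_star] at this
    calc ‖ω‖ ≤ ‖W‖ * ‖toS T‖ := this
      _ ≤ 1 * ‖toS T‖ := by gcongr
      _ = n1 T := by rw [one_mul, n1]
  refine ⟨⟨_, h4.symm⟩, ?_⟩
  rw [h4, n1_op]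
  calc ‖rm (star W) ω‖ ≤ ‖star W‖ * ‖ω‖ := norm_rm_le _ _
    _ ≤ 1 * ‖ω‖ := by rw [norm_star]; gcongr
    _ ≤ n1 T := by rw [one_mul]; exact h5

theorem IsT.star {T : H →L[ℂ] H} (hT : IsT T) : IsT (star T) := hT.star_aux.1

theorem n1_star {T : H →L[ℂ] H} (hT : IsT T) : n1 (star T) = n1 T := by
  refine le_antisymm hT.star_aux.2 ?_
  have h := hT.star.star_aux.2
  rwa [star_star] at h

theorem trO_star {T : H →L[ℂ] H} (hT : IsT T) : trO (star T) = conj (trO T) := by
  have key : ∀ X : S1 H, trO (star (op X)) = conj (tr X) := by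
    refine S1_ind ?_ ?_ ?_ ?_ ?_
    · have hc : Continuous fun X : S1 H => trO (star (op X)) := by
        have h1 : ∀ X Y : S1 H, ‖trO (star (op X)) - trO (star (op Y))‖ ≤ ‖X - Y‖ := by
          intro X Y
          rw [← trO_sub (isT_op X).star (isT_op Y).star, ← star_sub, ← map_sub]
          refine (norm_trO_le (isT_op _).star).trans ?_
          rw [n1_star (isT_op _), n1_op]
        refine Metric.continuous_iff.2 fun X ε hε => ⟨ε, hε, fun Y hY => ?_⟩
        rw [dist_eq_norm] at hY ⊢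
        exact (h1 Y X).trans_lt hY
      exact isClosed_eq hc (Complex.continuous_conj.comp (continuous_pr 1))
    · rw [map_zero, star_zero, trO_zero, tr, pr_zero_left, map_zero]
    · intro X Y hX hY
      rw [map_add, star_add, trO_add (isT_op X).star (isT_op Y).star, hX, hY, tr, tr, tr,
        pr_add_left, map_add]
    · intro c X hX
      rw [map_smul, star_smul, trO_smul _ (isT_op X).star, hX, tr, tr, pr_smul_left, map_mul]
      rfl
    · intro x y
      have h1 : op (mv x y) = r1 x y := op_mv x y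
      rw [h1, star_r1, trO_r1, tr, pr_mv]
      exact (inner_conj_symm _ _).symm
  have h := key (toS T)
  rw [op_toS hT] at h
  exact h

/-- positive operators -/
theorem pos_toS {T : H →L[ℂ] H} (hT : IsT T) (h : 0 ≤ T) : Pos (toS T) := by
  refine POLAux.pos_of_op (toS T) ?_
  rwa [op_toS hT]

theorem trO_of_nonneg {T : H →L[ℂ] H} (hT : IsT T) (h : 0 ≤ T) : trO T = (n1 T : ℂ) :=
  (sPos H (toS T) (pos_toS hT h)).2.2.1

/-- approximation by finite sums of rank one operators -/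
theorem exists_fin_near {T : H →L[ℂ] H} (hT : IsT T) (ε : ℝ) (hε : 0 < ε) :
    ∃ (n : ℕ) (x y : Fin n → H), n1 (T - ∑ i, r1 (x i) (y i)) < ε := by
  have key : ∀ X : S1 H, ∀ ε : ℝ, 0 < ε →
      ∃ (n : ℕ) (x y : Fin n → H), n1 (op X - ∑ i, r1 (x i) (y i)) < ε := by
    refine S1_ind ?_ ?_ ?_ ?_ ?_
    · rw [← isSeqClosed_iff_isClosed]
      intro Xn X0 hXn hlim ε hε
      rw [Metric.tendsto_atTop] at hlim
      obtain ⟨N, hN⟩ := hlim (ε / 2) (by positivity)
      have hN' := hN N le_rfl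
      rw [dist_eq_norm] at hN'
      obtain ⟨n, x, y, hxy⟩ := hXn N (ε / 2) (by positivity)
      refine ⟨n, x, y, ?_⟩
      have hf : IsT (∑ i, r1 (x i) (y i)) := IsT.sum _ _ fun i _ => isT_r1 _ _
      have h1 : op X0 - ∑ i, r1 (x i) (y i) =
          (op (Xn N) - ∑ i, r1 (x i) (y i)) - op (Xn N - X0) := by
        rw [map_sub]; abel
      rw [h1]
      refine (n1_sub_le ((isT_op _).sub hf) (isT_op _)).trans_lt ?_
      rw [n1_op (Xn N - X0)]
      linarith
    · intro ε hε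
      refine ⟨0, Fin.elim0, Fin.elim0, ?_⟩
      rw [map_zero, Finset.univ_eq_empty, Finset.sum_empty, sub_zero, n1_zero]
      exact hε
    · intro X Y hX hY ε hε
      obtain ⟨n, x, y, hx⟩ := hX (ε / 2) (by positivity)
      obtain ⟨m, x', y', hx'⟩ := hY (ε / 2) (by positivity)
      refine ⟨n + m, Fin.append x x', Fin.append y y', ?_⟩
      rw [Fin.sum_univ_add]
      simp only [Fin.append_left, Fin.append_right]
      have hf : IsT (∑ i, r1 (x i) (y i)) := IsT.sum _ _ fun i _ => isT_r1 _ _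
      have hf' : IsT (∑ i, r1 (x' i) (y' i)) := IsT.sum _ _ fun i _ => isT_r1 _ _
      have h1 : op (X + Y) - (∑ i, r1 (x i) (y i) + ∑ i, r1 (x' i) (y' i)) =
          (op X - ∑ i, r1 (x i) (y i)) + (op Y - ∑ i, r1 (x' i) (y' i)) := by
        rw [map_add]; abel
      rw [h1]
      refine (n1_add_le ((isT_op _).sub hf) ((isT_op _).sub hf')).trans_lt ?_
      linarith
    · intro c X hX ε hε
      obtain ⟨n, x, y, hx⟩ := hX (ε / (‖c‖ + 1)) (by positivity)
      refine ⟨n, fun i => c • x i, y, ?_⟩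
      have hf : IsT (∑ i, r1 (x i) (y i)) := IsT.sum _ _ fun i _ => isT_r1 _ _
      have h1 : op (c • X) - ∑ i, r1 (c • x i) (y i) = c • (op X - ∑ i, r1 (x i) (y i)) := by
        rw [map_smul, smul_sub, Finset.smul_sum]
        congr 1
        refine Finset.sum_congr rfl fun i _ => ?_
        ext z
        simp only [r1_apply, _root_.smul_apply]
        rw [smul_comm]
      rw [h1, n1_smul _ ((isT_op _).sub hf)]
      have h2 : ‖c‖ * n1 (op X - ∑ i, r1 (x i) (y i)) ≤
          ‖c‖ * (ε / (‖c‖ + 1)) := mul_le_mul_of_nonneg_left hx.le (norm_nonneg _)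
      refine h2.trans_lt ?_
      rw [mul_div_assoc', div_lt_iff₀ (by positivity)]
      nlinarith [norm_nonneg c]
    · intro x y ε hε
      refine ⟨1, fun _ => x, fun _ => y, ?_⟩
      have h1 : op (mv x y) = r1 x y := op_mv x y
      rw [Fin.sum_univ_one, h1, sub_self, n1_zero]
      exact hε
  have h := key (toS T) ε hε
  rwa [op_toS hT] at h

end

end Pool.Q2
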