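import Pool.Agent.Work.MP_8c7e5b_q2.Interface2

/-!
# Block CUT (helper94): scaled cut-offs
-/

open MeasureTheory Complex Filter Topology
open scoped ComplexOrder InnerProductSpace ComplexConjugate BoundedContinuousFunction

set_option autoImplicit false
set_option linter.unusedSectionVars false

universe v

namespace Pool.Q2

open Pool.Bes

namespace CUTAux

/-- the bump function -/
noncomputable def bu : ContDiffBump (0 : ℂ) := ⟨1, 2, one_pos, one_lt_two⟩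

theorem exists_K : ∃ K : ℝ, 0 ≤ K ∧ ∀ z : ℂ, ‖fderiv ℝ (fun z => bu z) z‖ ≤ K := by
  have h1 : HasCompactSupport (fderiv ℝ (fun z => bu z)) := bu.hasCompactSupport.fderiv (𝕜 := ℝ)
  have h2 : Continuous (fderiv ℝ (fun z => bu z)) := by
    have h3 : ContDiff ℝ 1 (fun z => bu z) := bu.contDiff
    exact h3.continuous_fderiv one_ne_zero
  obtain ⟨K, hK⟩ := h1.exists_bound_of_continuous h2
  exact ⟨K, (norm_nonneg _).trans (hK 0), hK⟩

/-- the affine map -/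
theorem hasFDerivAt_aff (w : ℂ) (t : ℝ) (z : ℂ) :
    HasFDerivAt (fun z : ℂ => (t⁻¹ : ℝ) • (z - w)) ((t⁻¹ : ℝ) • ContinuousLinearMap.id ℝ ℂ) z :=
  ((hasFDerivAt_id (𝕜 := ℝ) z).sub_const w).const_smul (t⁻¹ : ℝ)

theorem aff_eq (w z : ℂ) (t : ℝ) : (t⁻¹ : ℝ) • (z - w) = (z - w) / t := by
  rw [Complex.real_smul, div_eq_inv_mul]
  push_cast
  rfl

theorem norm_comp_le {E : Type*} [NormedAddCommGroup E] [NormedSpace ℝ E] (A : ℂ →L[ℝ] E) {t : ℝ}
    (ht : 0 < t) : ‖A.comp ((t⁻¹ : ℝ) • ContinuousLinearMap.id ℝ ℂ)‖ ≤ ‖A‖ / t := by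
  refine (ContinuousLinearMap.opNorm_comp_le _ _).trans ?_
  rw [div_eq_mul_inv]
  refine mul_le_mul_of_nonneg_left ?_ (norm_nonneg _)
  rw [norm_smul, Real.norm_eq_abs, abs_of_pos (inv_pos.2 ht)]
  exact mul_le_of_le_one_right (inv_pos.2 ht).le ContinuousLinearMap.norm_id_le

theorem norm_smul_le {E : Type*} [NormedAddCommGroup E] [NormedSpace ℝ E] (a : ℝ) (A : ℂ →L[ℝ] E)
    (c : ℂ →L[ℝ] ℝ) (y : E) : ‖a • A + c.smulRight y‖ ≤ |a| * ‖A‖ + ‖c‖ * ‖y‖ := by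
  refine (norm_add_le _ _).trans ?_
  rw [norm_smul, Real.norm_eq_abs, ContinuousLinearMap.norm_smulRight_apply]

end CUTAux

open CUTAux in
theorem blk_CUT : Stmt_CUT := by
  obtain ⟨K, hK0, hK⟩ := exists_K
  refine ⟨1 + 2 * K, by linarith, ?_⟩
  intro f L w r t hf hL hr ht
  have hL0 : 0 ≤ L := (norm_nonneg _).trans (hL 0)
  have hfd : Differentiable ℝ f := hf.1.differentiable (by simp)
  have hlip : ∀ a b : ℂ, ‖f a - f b‖ ≤ L * ‖a - b‖ := by
    intro a b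
    exact convex_univ.norm_image_sub_le_of_norm_fderiv_le (𝕜 := ℝ) (fun x _ => hfd x)
      (fun x _ => hL x) (Set.mem_univ b) (Set.mem_univ a)
  have hbd : ∀ z : ℂ, DifferentiableAt ℝ (fun z => bu z) z := by
    intro z
    have h3 : ContDiff ℝ 1 (fun z => bu z) := bu.contDiff
    exact h3.differentiable one_ne_zero z
  -- the two factors
  obtain ⟨χ, hχ⟩ : ∃ χ : ℂ → ℝ, ∀ z, χ z = bu ((r⁻¹ : ℝ) • (z - w)) := ⟨_, fun _ => rfl⟩
  obtain ⟨g, hg⟩ : ∃ g : ℂ → ℂ, ∀ z, g z = f ((t⁻¹ : ℝ) • (z - w)) - f 0 := ⟨_, fun _ => rfl⟩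
  have hχ' : χ = fun z => bu ((r⁻¹ : ℝ) • (z - w)) := funext hχ
  have hg' : g = fun z => f ((t⁻¹ : ℝ) • (z - w)) - f 0 := funext hg
  have hχd : ∀ z, HasFDerivAt χ ((fderiv ℝ (fun z => bu z) ((r⁻¹ : ℝ) • (z - w))).comp
      ((r⁻¹ : ℝ) • ContinuousLinearMap.id ℝ ℂ)) z := by
    intro z
    rw [hχ']
    exact (hbd _).hasFDerivAt.comp z (hasFDerivAt_aff w r z)
  have hgd : ∀ z, HasFDerivAt g ((fderiv ℝ f ((t⁻¹ : ℝ) • (z - w))).comp
      ((t⁻¹ : ℝ) • ContinuousLinearMap.id ℝ ℂ)) z := by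
    intro z
    rw [hg']
    exact ((hfd _).hasFDerivAt.comp z (hasFDerivAt_aff w t z)).sub_const _
  have hn : ∀ (s : ℝ) (z : ℂ), 0 < s → ‖(s⁻¹ : ℝ) • (z - w)‖ = ‖z - w‖ / s := by
    intro s z hs
    rw [norm_smul, Real.norm_eq_abs, abs_of_pos (inv_pos.2 hs), div_eq_inv_mul]
  have hχ0 : ∀ z, 2 * r ≤ ‖z - w‖ → χ z = 0 := by
    intro z hz
    rw [hχ]
    apply bu.zero_of_le_dist
    rw [dist_zero_right, hn r z hr, le_div_iff₀ hr]
    exact hz
  have hχ1 : ∀ z, ‖z - w‖ ≤ r → χ z = 1 := by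
    intro z hz
    rw [hχ]
    apply bu.one_of_mem_closedBall
    rw [mem_closedBall_zero_iff, hn r z hr, div_le_iff₀ hr]
    show _ ≤ (1 : ℝ) * r
    rw [one_mul]
    exact hz
  have hχle : ∀ z, |χ z| ≤ 1 := by
    intro z
    rw [hχ, abs_of_nonneg bu.nonneg]
    exact bu.le_one
  refine ⟨fun z => χ z • g z, ⟨?_, ?_⟩, ?_, ?_, ?_⟩
  · -- smooth
    have h1 : ContDiff ℝ (⊤ : ℕ∞) χ := by
      rw [hχ']
      exact bu.contDiff.comp (by fun_prop : ContDiff ℝ (⊤ : ℕ∞) fun z : ℂ => (r⁻¹ : ℝ) • (z - w))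
    have h2 : ContDiff ℝ (⊤ : ℕ∞) g := by
      rw [hg']
      exact (hf.1.comp (by fun_prop :
        ContDiff ℝ (⊤ : ℕ∞) fun z : ℂ => (t⁻¹ : ℝ) • (z - w))).sub contDiff_const
    exact h1.smul h2
  · refine HasCompactSupport.intro (isCompact_closedBall w (2 * r)) ?_
    intro z hz
    rw [Metric.mem_closedBall, not_le, dist_eq_norm] at hz
    show χ z • g z = 0
    rw [hχ0 z hz.le, zero_smul]
  · intro z
    have h1 := (hχd z).smul (hgd z)
    rw [show (fun z => χ z • g z) = χ • g from rfl, h1.fderiv]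
    refine (norm_smul_le _ _ _ _).trans ?_
    have h2 : ‖(fderiv ℝ f ((t⁻¹ : ℝ) • (z - w))).comp ((t⁻¹ : ℝ) • ContinuousLinearMap.id ℝ ℂ)‖ ≤
        L / t := (norm_comp_le _ ht).trans (div_le_div_of_nonneg_right (hL _) ht.le)
    have h3 : ‖(fderiv ℝ (fun z => bu z) ((r⁻¹ : ℝ) • (z - w))).comp
        ((r⁻¹ : ℝ) • ContinuousLinearMap.id ℝ ℂ)‖ ≤ K / r :=
      (norm_comp_le _ hr).trans (div_le_div_of_nonneg_right (hK _) hr.le)
    have h4 : |χ z| * ‖(fderiv ℝ f ((t⁻¹ : ℝ) • (z - w))).comp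
        ((t⁻¹ : ℝ) • ContinuousLinearMap.id ℝ ℂ)‖ ≤ L / t :=
      (mul_le_of_le_one_left (norm_nonneg _) (hχle z)).trans h2
    have h5 : ‖(fderiv ℝ (fun z => bu z) ((r⁻¹ : ℝ) • (z - w))).comp
        ((r⁻¹ : ℝ) • ContinuousLinearMap.id ℝ ℂ)‖ * ‖g z‖ ≤ 2 * K * L / t := by
      rcases le_or_gt (2 * r) ‖z - w‖ with h | h
      · have h6 : IsLocalMin χ z := by
          refine Filter.Eventually.of_forall fun y => ?_
          rw [hχ0 z h, hχ y]
          exact bu.nonneg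
        have h7 := h6.hasFDerivAt_eq_zero (hχd z)
        rw [h7, norm_zero, zero_mul]
        positivity
      · have h6 : ‖g z‖ ≤ L * (‖z - w‖ / t) := by
          rw [hg]
          refine (hlip _ _).trans ?_
          rw [sub_zero, hn t z ht]
        calc _ ≤ (K / r) * (L * (‖z - w‖ / t)) :=
              mul_le_mul h3 h6 (norm_nonneg _) (by positivity)
          _ ≤ (K / r) * (L * (2 * r / t)) := by
              apply mul_le_mul_of_nonneg_left _ (by positivity)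
              apply mul_le_mul_of_nonneg_left _ hL0
              exact div_le_div_of_nonneg_right h.le ht.le
          _ = 2 * K * L / t := by
              field_simp
    calc _ ≤ L / t + 2 * K * L / t := add_le_add h4 h5
      _ = (1 + 2 * K) * L / t := by ring
  · intro z hz
    show χ z • g z = _
    rw [hχ1 z hz, one_smul, hg, aff_eq]
  · intro z hz
    show χ z • g z = _
    rw [hχ0 z hz, zero_smul]

end Pool.Q2
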