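import Pool.Agent.Work.MP_8c7e5b_q2.Base

/-!
# MP_8c7e5b_an, Q2: definitions
-/

open MeasureTheory Complex Filter Topology
open scoped ComplexOrder InnerProductSpace ComplexConjugate BoundedContinuousFunction

set_option autoImplicit false
set_option linter.unusedSectionVars false

universe v

namespace Pool.Q2

open Pool.Bes

section Ops

variable {H : Type v} [NormedAddCommGroup H] [InnerProductSpace ℂ H] [CompleteSpace H]

/-- The commutator `[Z, b]`. -/
noncomputable def br (Z b : H →L[ℂ] H) : H →L[ℂ] H := Z * b - b * Z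

/-- The commutators of `b` with the real and the imaginary part of `N` are trace class. -/
def A1 (N b : H →L[ℂ] H) : Prop := IsT (br (dt 1 N) b) ∧ IsT (br (dt Complex.I N) b)

/-- `S` commutes with `N` and `N^*`. -/
def Cm (N S : H →L[ℂ] H) : Prop := N * S = S * N ∧ star N * S = S * star N

/-- `exp (i s · N) b exp (- i s · N)` -/
noncomputable def cj (N : H →L[ℂ] H) (s : ℂ) (b : H →L[ℂ] H) : H →L[ℂ] H :=
  ex N s * b * ex N (-s)

/-- The Gaussian average of width `t` of `exp (i s · N) b exp (- i s · N)`. -/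
noncomputable def Ph (N : H →L[ℂ] H) (t : ℝ) (b : H →L[ℂ] H) : H →L[ℂ] H :=
  ∫ s : ℂ, (gam t s : ℂ) • cj N s b

/-- The near-diagonal mass of the trace class operator `K`: the limit of the trace norms of the
averages. -/
noncomputable def km (N K : H →L[ℂ] H) : ℝ := ⨅ n : ℕ, n1 (Ph N (n + 1) K)

/-- The essential trace norm of the commutator of `e · N` with `b`. -/
noncomputable def kp (N : H →L[ℂ] H) (e : ℂ) (b : H →L[ℂ] H) : ℝ := km N (br (dt e N) b)

/-- unitary -/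
def Uni (W : H →L[ℂ] H) : Prop := star W * W = 1 ∧ W * star W = 1

/-- `tr (W^* f(N) W - f(N))` -/
noncomputable def TU (N W : H →L[ℂ] H) (f : ℂ → ℂ) : ℂ := trO (star W * cfc f N * W - cfc f N)

/-- `tr (f(N₂) - f(N₁))` -/
noncomputable def Tf (N₁ N₂ : H →L[ℂ] H) (f : ℂ → ℂ) : ℂ := trO (cfc f N₂ - cfc f N₁)

/-- the function `g` of `e · N` -/
noncomputable def fe (e : ℂ) (g : ℝ → ℂ) (N : H →L[ℂ] H) : H →L[ℂ] H :=
  cfc (fun z : ℂ => g (ip e z)) N

/-- The vectors whose spectral measure for `e · N` has density at most `m²`. -/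
def Dn (N : H →L[ℂ] H) (e : ℂ) (m : ℝ) : Set H :=
  {ψ | ∀ g : ℝ → ℂ, Continuous g → Integrable (fun x => ‖g x‖ ^ 2) →
    ‖fe e g N ψ‖ ^ 2 ≤ m ^ 2 * ∫ x, ‖g x‖ ^ 2}

/-- The absolutely continuous subspace of `e · N`. -/
noncomputable def Hac (N : H →L[ℂ] H) (e : ℂ) : Submodule ℂ H :=
  (Submodule.span ℂ (⋃ m : ℝ, Dn N e m)).topologicalClosure

theorem isClosed_Hac (N : H →L[ℂ] H) (e : ℂ) : IsClosed ((Hac N e : Submodule ℂ H) : Set H) :=
  Submodule.isClosed_topologicalClosure _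

noncomputable instance (N : H →L[ℂ] H) (e : ℂ) : CompleteSpace (Hac N e) :=
  (isClosed_Hac N e).completeSpace_coe

/-- The projection onto the absolutely continuous subspace of `e · N`. -/
noncomputable def Pac (N : H →L[ℂ] H) (e : ℂ) : H →L[ℂ] H := (Hac N e).starProjection

/-- The projection onto the singular subspace of `e · N`. -/
noncomputable def Psg (N : H →L[ℂ] H) (e : ℂ) : H →L[ℂ] H := 1 - Pac N e

end Ops

section Sums

variable {H : Type v} [NormedAddCommGroup H] [InnerProductSpace ℂ H] [CompleteSpace H]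
variable {K : Type v} [NormedAddCommGroup K] [InnerProductSpace ℂ K] [CompleteSpace K]
variable {E : Type*} [NormedAddCommGroup E] [InnerProductSpace ℂ E] [CompleteSpace E]

/-- the finite dimensional space `ℂ^r` -/
abbrev Ef (r : ℕ) : Type := EuclideanSpace ℂ (Fin r)

/-- `K = H ⊕ E` via the isometries `i`, `j` -/
structure IsDS (i : H →L[ℂ] K) (j : E →L[ℂ] K) : Prop where
  hi : (ContinuousLinearMap.adjoint i) ∘L i = ContinuousLinearMap.id ℂ H
  hj : (ContinuousLinearMap.adjoint j) ∘L j = ContinuousLinearMap.id ℂ E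
  hij : (ContinuousLinearMap.adjoint i) ∘L j = 0
  hs : i ∘L (ContinuousLinearMap.adjoint i) + j ∘L (ContinuousLinearMap.adjoint j) =
    ContinuousLinearMap.id ℂ K

/-- `i T i^*` -/
noncomputable def cor {G L : Type*} [NormedAddCommGroup G] [InnerProductSpace ℂ G]
    [CompleteSpace G] [NormedAddCommGroup L] [InnerProductSpace ℂ L] [CompleteSpace L]
    (i : G →L[ℂ] L) (T : G →L[ℂ] G) : L →L[ℂ] L := i ∘L T ∘L (ContinuousLinearMap.adjoint i)

end Sums

section Functionals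

/-- test functions -/
def Tst (f : ℂ → ℂ) : Prop := ContDiff ℝ (⊤ : ℕ∞) f ∧ HasCompactSupport f

/-- `|∇ f| ≤ L` -/
def LipB (f : ℂ → ℂ) (L : ℝ) : Prop := ∀ z : ℂ, ‖fderiv ℝ f z‖ ≤ L

/-- `T` is linear on test functions. -/
def IsLF (T : (ℂ → ℂ) → ℂ) : Prop :=
  (∀ f g, Tst f → Tst g → T (fun z => f z + g z) = T f + T g) ∧
  ∀ (c : ℂ) f, Tst f → T (fun z => c * f z) = c * T f

/-- `|T f| ≤ K sup |∇ f|` -/
def BdL (T : (ℂ → ℂ) → ℂ) (K : ℝ) : Prop := ∀ f, Tst f → ∀ L : ℝ, LipB f L → ‖T f‖ ≤ K * L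

/-- `T` is a limit of finite combinations of point evaluations. -/
def Apx (T : (ℂ → ℂ) → ℂ) : Prop := ∀ ε : ℝ, 0 < ε → ∃ (n : ℕ) (a c : Fin n → ℂ),
  BdL (fun f => T f - ∑ k, c k * f (a k)) ε

/-- `T` is continuous under translations. -/
def TrC (T : (ℂ → ℂ) → ℂ) : Prop := ∀ ε : ℝ, 0 < ε → ∃ δ : ℝ, 0 < δ ∧ ∀ z : ℂ, ‖z‖ ≤ δ →
  BdL (fun f => T f - T (fun w => f (w + z))) ε

/-- `∫ f_x g₁ + ∫ f_y g₂` -/
noncomputable def Dg (g₁ g₂ : ℂ → ℂ) (f : ℂ → ℂ) : ℂ :=
  (∫ z : ℂ, fderiv ℝ f z 1 * g₁ z) + ∫ z : ℂ, fderiv ℝ f z Complex.I * g₂ z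

end Functionals

/-- The uniform bound `|tr (f(N₂) - f(N₁))| ≤ C ‖N₂ - N₁‖₁ sup |∇ f|`. -/
def UB (C : ℝ) : Prop := ∀ (H : Type v) [NormedAddCommGroup H] [InnerProductSpace ℂ H]
  [CompleteSpace H] [TopologicalSpace.SeparableSpace H] (N₁ N₂ : H →L[ℂ] H),
  IsStarNormal N₁ → IsStarNormal N₂ → IsT (N₂ - N₁) → BdL (Tf N₁ N₂) (C * n1 (N₂ - N₁))

end Pool.Q2
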