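import Pool.Agent.Work.MP_8c7e5b_q2.Interface2

/-! # Block FEX: the calculus `g ↦ fe e g N` -/

open MeasureTheory Complex Filter Topology
open scoped ComplexOrder InnerProductSpace ComplexConjugate BoundedContinuousFunction

set_option autoImplicit false
set_option linter.unusedSectionVars false

universe v

namespace Pool.Q2

open Pool.Bes

namespace FEXAux

variable {H : Type v} [NormedAddCommGroup H] [InnerProductSpace ℂ H] [CompleteSpace H]

theorem cont_ip (e : ℂ) : Continuous (fun z : ℂ => ip e z) := by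
  unfold ip; fun_prop

theorem cont_comp (e : ℂ) {g : ℝ → ℂ} (hg : Continuous g) :
    Continuous (fun z : ℂ => g (ip e z)) := hg.comp (cont_ip e)

theorem fe_add (N : H →L[ℂ] H) (e : ℂ) {g k : ℝ → ℂ} (hg : Continuous g) (hk : Continuous k) :
    fe e (fun x => g x + k x) N = fe e g N + fe e k N := by
  unfold fe
  exact cfc_add (a := N) (fun z : ℂ => g (ip e z)) (fun z : ℂ => k (ip e z))
    (cont_comp e hg).continuousOn (cont_comp e hk).continuousOn

theorem fe_mul (N : H →L[ℂ] H) (e : ℂ) {g k : ℝ → ℂ} (hg : Continuous g) (hk : Continuous k) :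
    fe e (fun x => g x * k x) N = fe e g N * fe e k N := by
  unfold fe
  exact cfc_mul (fun z : ℂ => g (ip e z)) (fun z : ℂ => k (ip e z)) N
    (cont_comp e hg).continuousOn (cont_comp e hk).continuousOn

theorem fe_smul (N : H →L[ℂ] H) (e : ℂ) (a : ℂ) {g : ℝ → ℂ} (hg : Continuous g) :
    fe e (fun x => a * g x) N = a • fe e g N := by
  unfold fe
  exact cfc_const_mul a (fun z : ℂ => g (ip e z)) N (cont_comp e hg).continuousOn

theorem fe_star (N : H →L[ℂ] H) (e : ℂ) (g : ℝ → ℂ) :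
    star (fe e g N) = fe e (fun x => conj (g x)) N := by
  unfold fe
  exact (cfc_star (fun z : ℂ => g (ip e z)) N).symm

theorem fe_one (N : H →L[ℂ] H) (hN : IsStarNormal N) (e : ℂ) : fe e (fun _ => 1) N = 1 := by
  unfold fe
  exact cfc_const_one ℂ N

theorem fe_id (N : H →L[ℂ] H) (hN : IsStarNormal N) (e : ℂ) :
    fe e (fun x => (x : ℂ)) N = dt e N := by
  unfold fe
  exact (EXB.dt_eq_cfc N hN e).symm

theorem fe_exp (N : H →L[ℂ] H) (e : ℂ) (t : ℝ) :
    fe e (fun x => Complex.exp (Complex.I * t * x)) N = ex N (t * e) := by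
  unfold fe ex
  have h : (fun z : ℂ => Complex.exp (Complex.I * t * (ip e z : ℝ))) = ch (t * e) := by
    funext z
    unfold ch
    rw [EXB.ip_smul_left]
    push_cast
    rw [mul_assoc]
  rw [h]

theorem norm_fe_le (N : H →L[ℂ] H) (e : ℂ) (g : ℝ → ℂ) (U : ℝ) (hU : 0 ≤ U)
    (h : ∀ x ∈ Set.Icc (-(‖e‖ * ‖N‖)) (‖e‖ * ‖N‖), ‖g x‖ ≤ U) : ‖fe e g N‖ ≤ U := by
  unfold fe
  refine norm_cfc_le hU fun z hz => h _ ?_
  rw [Set.mem_Icc, ← abs_le]
  refine (EXB.norm_ip_le e z).trans (mul_le_mul_of_nonneg_left ?_ (norm_nonneg _))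
  refine (spectrum.norm_le_norm_mul_of_mem hz).trans ?_
  have h5 : ‖(1 : H →L[ℂ] H)‖ ≤ 1 := ContinuousLinearMap.norm_id_le
  have h6 := mul_le_mul_of_nonneg_left h5 (norm_nonneg N)
  linarith

theorem cm_cfc (N : H →L[ℂ] H) (hN : IsStarNormal N) (f : ℂ → ℂ) : Cm N (cfc f N) := by
  constructor
  · have h := cfc_commute_cfc (id : ℂ → ℂ) f N
    rw [cfc_id ℂ N] at h
    exact h
  · have h := cfc_commute_cfc (fun z : ℂ => star z) f N
    rw [cfc_star_id (R := ℂ) N] at h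
    exact h

theorem cm_fe (N : H →L[ℂ] H) (hN : IsStarNormal N) (e : ℂ) (g : ℝ → ℂ) : Cm N (fe e g N) :=
  cm_cfc N hN _

theorem inner_fe (N : H →L[ℂ] H) (e : ℂ) (g : ℝ → ℂ) (v w : H) :
    ⟪v, fe e g N w⟫_ℂ = ⟪fe e (fun x => conj (g x)) N v, w⟫_ℂ := by
  rw [← fe_star, ContinuousLinearMap.star_eq_adjoint, ContinuousLinearMap.adjoint_inner_left]

theorem norm_sq_fe (N : H →L[ℂ] H) (e : ℂ) {g : ℝ → ℂ} (hg : Continuous g) (v : H) :
    ((‖fe e g N v‖ ^ 2 : ℝ) : ℂ) = ⟪v, fe e (fun x => ((‖g x‖ ^ 2 : ℝ) : ℂ)) N v⟫_ℂ := by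
  have h1 : (fun x : ℝ => ((‖g x‖ ^ 2 : ℝ) : ℂ)) = fun x => conj (g x) * g x := by
    funext x
    rw [← Complex.normSq_eq_conj_mul_self, Complex.normSq_eq_norm_sq]
  have hc : Continuous fun x : ℝ => conj (g x) := Complex.continuous_conj.comp hg
  have h2 : (fe e (fun x => conj (g x)) N * fe e g N) v =
      fe e (fun x => conj (g x)) N (fe e g N v) := rfl
  rw [h1, fe_mul N e hc hg, h2, inner_fe]
  simp only [Complex.conj_conj]
  rw [inner_self_eq_norm_sq_to_K]
  norm_cast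

end FEXAux

open FEXAux in
theorem blk_FEX : Stmt_FEX.{v} := by
  intro H _ _ _ N e hN
  exact ⟨fun g k hg hk => ⟨fe_add N e hg hk, fe_mul N e hg hk⟩, fun a g hg => fe_smul N e a hg,
    fun g _ => fe_star N e g, fe_one N hN e, fe_id N hN e, fe_exp N e,
    fun g U _ hU h => norm_fe_le N e g U hU h, fun g _ => cm_fe N hN e g,
    fun g v _ => inner_fe N e g v v, fun g v hg => norm_sq_fe N e hg v⟩

end Pool.Q2
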