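import Pool.Agent.Work.MP_8c7e5b_q2.Defs

/-!
# MP_8c7e5b_an, Q2 (absolutely continuous measures): the blocks of the bounded case

Every block is a `Prop` `Stmt_X`; its proof on paper is in its comment.  Use freely everything in
`Base.lean` (trace class calculus `IsT, n1, trO, toS`), `Defs.lean`, and the proved library
`Pool.Agent.Work.Bes` (`sAlg, sPol, sPos, sAL, sEx, sFn, sAv, sDu, sWt` in `Base.lean`).

Notation: `X_e = dt e N = e · N` (self-adjoint, real-linear in `e`), `ex N s = exp (i s · N)`.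
-/

open MeasureTheory Complex Filter Topology
open scoped ComplexOrder InnerProductSpace ComplexConjugate BoundedContinuousFunction

set_option autoImplicit false
set_option linter.unusedSectionVars false

universe v

namespace Pool.Q2

open Pool.Bes

/-! ### A. Averages and the near-diagonal mass -/

/-- BLOCK PHA (150 lines).  The averages.  The integrand is continuous and bounded by
`gam t s * ‖b‖`.  (3): `dt e N` commutes with `ex N s`.  (4): `d/dc cj N (s + c e) b =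
i cj N (s + c e) [dt e N, b]`, so `Ph N t [dt e N, b] = i ∫ (∂_e gam t)(s) cj N s b ds` up to sign
and `∫ |∂_e gam t| ≤ ‖e‖ / t` (see `norm_op_G_D_le` in `Bes/DU.lean`, `integral_abs_ip_gam`).
(5): the average `av P (gam t)` of the pair `P` with `A = B = N`, `D = 0`, `d = 0`; the same
computation in `S1`.  (6): `G_G` in `Bes/AV.lean` (Fubini). -/
def Stmt_PHA : Prop := ∀ (H : Type v) [NormedAddCommGroup H] [InnerProductSpace ℂ H]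
    [CompleteSpace H] (N : H →L[ℂ] H), IsStarNormal N →
    (∀ t : ℝ, 0 < t → ∀ b, ‖Ph N t b‖ ≤ ‖b‖) ∧
    (∀ (t : ℝ) (b c : H →L[ℂ] H), 0 < t → Ph N t (b + c) = Ph N t b + Ph N t c) ∧
    (∀ (t : ℝ) (a : ℂ) (b : H →L[ℂ] H), 0 < t → Ph N t (a • b) = a • Ph N t b) ∧
    (∀ (t : ℝ) (e : ℂ) (b : H →L[ℂ] H), 0 < t → br (dt e N) (Ph N t b) = Ph N t (br (dt e N) b)) ∧
    (∀ (t : ℝ) (e : ℂ) (b : H →L[ℂ] H), 0 < t → ‖br (dt e N) (Ph N t b)‖ ≤ ‖e‖ * ‖b‖ / t) ∧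
    (∀ (t : ℝ) (b : H →L[ℂ] H), 0 < t → IsT b → IsT (Ph N t b) ∧ n1 (Ph N t b) ≤ n1 b ∧
      ∀ e : ℂ, n1 (br (dt e N) (Ph N t b)) ≤ ‖e‖ * n1 b / t) ∧
    (∀ (t r : ℝ) (b : H →L[ℂ] H), 0 < t → 0 < r →
      Ph N t (Ph N r b) = Ph N (Real.sqrt (t ^ 2 + r ^ 2)) b) ∧
    (∀ (t : ℝ) (S b : H →L[ℂ] H), 0 < t → Cm N S →
      Ph N t (S * b) = S * Ph N t b ∧ Ph N t (b * S) = Ph N t b * S) ∧
    (∀ (t : ℝ) (b : H →L[ℂ] H), 0 < t → star (Ph N t b) = Ph N t (star b)) ∧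
    (∀ t : ℝ, 0 < t → Ph N t (1 : H →L[ℂ] H) = 1)

/-- BLOCK CMM (80 lines).  Elementary facts on `Cm` and `A1`.
`cfc f N` is a limit of polynomials in `N, N^*` (or `Commute.cfc`-type lemmas); `ex N s` and
`dt e N` are such.  `dt (a e + b e') N = a dt e N + b dt e' N` for real `a, b`, `dt e N` is
self-adjoint, `N = dt 1 N + i dt i N`. -/
def Stmt_CMM : Prop := ∀ (H : Type v) [NormedAddCommGroup H] [InnerProductSpace ℂ H]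
    [CompleteSpace H] (N : H →L[ℂ] H), IsStarNormal N →
    (∀ S : H →L[ℂ] H, Cm N S → (∀ e : ℂ, dt e N * S = S * dt e N) ∧
      (∀ s : ℂ, ex N s * S = S * ex N s) ∧ (∀ f : ℂ → ℂ, cfc f N * S = S * cfc f N) ∧
      Cm N (star S)) ∧
    (∀ f : ℂ → ℂ, Cm N (cfc f N)) ∧ (∀ e : ℂ, Cm N (dt e N)) ∧ (∀ s : ℂ, Cm N (ex N s)) ∧
    (∀ S S' : H →L[ℂ] H, Cm N S → Cm N S' → Cm N (S * S') ∧ Cm N (S + S') ∧ Cm N (S - S')) ∧
    Cm N (1 : H →L[ℂ] H) ∧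
    (∀ e : ℂ, IsSelfAdjoint (dt e N)) ∧ (∀ e : ℂ, ‖dt e N‖ ≤ ‖e‖ * ‖N‖) ∧
    (∀ (e e' : ℂ) (a b : ℝ), dt ((a : ℂ) * e + (b : ℂ) * e') N =
      (a : ℂ) • dt e N + (b : ℂ) • dt e' N) ∧
    N = dt 1 N + Complex.I • dt Complex.I N ∧
    (∀ b : H →L[ℂ] H, A1 N b → (∀ e : ℂ, IsT (br (dt e N) b) ∧
      n1 (br (dt e N) b) ≤ ‖e‖ * (n1 (br (dt 1 N) b) + n1 (br (dt Complex.I N) b))) ∧
      A1 N (star b)) ∧
    (∀ b c : H →L[ℂ] H, A1 N b → A1 N c → A1 N (b * c) ∧ A1 N (b + c) ∧ A1 N (b - c)) ∧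
    (∀ S : H →L[ℂ] H, Cm N S → A1 N S) ∧ (∀ b : H →L[ℂ] H, IsT b → A1 N b)

/-- BLOCK PHB (120 lines).  `b - cj N s b` is trace class: it is
`- i ∫₀¹ cj N (c s) [dt s N, b] dc` (fundamental theorem, as `op_Ed` in `Bes/DU.lean`), a
continuous function of `s` in `S1`.
(2): writing `s = x + i y`, `ex N s = ex N x ex N (i y)`,
`b - cj N s b = (b - cj N x b) + cj N x (b - cj N (i y) b)`; with `b = V₁ + K₁`,
`n1 (b - cj N x b) ≤ |x| n1 [dt 1 N, V₁] + 2 n1 K₁`, similarly for `y`; then integrate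
(`∫ |x| gam t ≤ t`). -/
def Stmt_PHB : Prop := ∀ (H : Type v) [NormedAddCommGroup H] [InnerProductSpace ℂ H]
    [CompleteSpace H] (N b : H →L[ℂ] H), IsStarNormal N → A1 N b → ∀ t : ℝ, 0 < t →
    IsT (b - Ph N t b) ∧
    ∀ V₁ V₂ : H →L[ℂ] H, IsT (b - V₁) → IsT (b - V₂) → IsT (br (dt 1 N) V₁) →
      IsT (br (dt Complex.I N) V₂) →
      n1 (b - Ph N t b) ≤ t * (n1 (br (dt 1 N) V₁) + n1 (br (dt Complex.I N) V₂)) +
        2 * (n1 (b - V₁) + n1 (b - V₂))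

/-- BLOCK KMA (120 lines).  The near-diagonal mass is a seminorm on trace class operators.
For `t > r > 0`: `Ph N t = Ph N (sqrt (t² - r²)) ∘ Ph N r`, so `n1 (Ph N t K)` is antitone in `t`
and the infimum over `t = n + 1` is the limit.  Everything passes to the limit.
(4): `n1 (Ph N t [dt e N, K]) ≤ ‖e‖ n1 K / t`. -/
def Stmt_KMA : Prop := ∀ (H : Type v) [NormedAddCommGroup H] [InnerProductSpace ℂ H]
    [CompleteSpace H] (N : H →L[ℂ] H), IsStarNormal N →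
    (∀ K : H →L[ℂ] H, IsT K → 0 ≤ km N K ∧ km N K ≤ n1 K ∧
      Tendsto (fun t : ℝ => n1 (Ph N t K)) atTop (𝓝 (km N K))) ∧
    (∀ K K' : H →L[ℂ] H, IsT K → IsT K' → km N (K + K') ≤ km N K + km N K') ∧
    (∀ (a : ℂ) (K : H →L[ℂ] H), IsT K → km N (a • K) ≤ ‖a‖ * km N K) ∧
    (∀ (e : ℂ) (K : H →L[ℂ] H), IsT K → km N (br (dt e N) K) = 0) ∧
    (∀ S K : H →L[ℂ] H, IsT K → Cm N S →
      km N (S * K) ≤ ‖S‖ * km N K ∧ km N (K * S) ≤ ‖S‖ * km N K) ∧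
    (∀ K : H →L[ℂ] H, IsT K → km N (star K) = km N K)

/-- BLOCK KMB (120 lines).
(1): `[Z, b] = [Z, V] - [Z, V - b]` and `km [Z, K] = 0`.
(2): for `V = Ph N t b`: `[Z, V] = Ph N t [Z, b]`.
(3): product: `V = Ph N t x`, `W = Ph N t y`; `V W - x y` is trace class by PHB,
`n1 [Z, V W] ≤ n1 [Z, V] ‖y‖ + ‖x‖ n1 [Z, W]`; use (1) and let `t → ∞`.
The rest: linearity of the commutator and KMA. -/
def Stmt_KMB : Prop := ∀ (H : Type v) [NormedAddCommGroup H] [InnerProductSpace ℂ H]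
    [CompleteSpace H] (N : H →L[ℂ] H), IsStarNormal N →
    (∀ (e : ℂ) (b V : H →L[ℂ] H), IsT (V - b) → IsT (br (dt e N) V) →
      IsT (br (dt e N) b) ∧ kp N e b ≤ n1 (br (dt e N) V)) ∧
    (∀ (e : ℂ) (b : H →L[ℂ] H), A1 N b →
      Tendsto (fun t : ℝ => n1 (br (dt e N) (Ph N t b))) atTop (𝓝 (kp N e b))) ∧
    (∀ (e : ℂ) (x y : H →L[ℂ] H), A1 N x → A1 N y →
      kp N e (x * y) ≤ kp N e x * ‖y‖ + ‖x‖ * kp N e y) ∧
    (∀ (e : ℂ) (x y : H →L[ℂ] H), IsT (br (dt e N) x) → IsT (br (dt e N) y) →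
      kp N e (x + y) ≤ kp N e x + kp N e y ∧ kp N e (x - y) ≤ kp N e x + kp N e y) ∧
    (∀ (e : ℂ) (x : H →L[ℂ] H), IsT (br (dt e N) x) → 0 ≤ kp N e x ∧
      kp N e x ≤ n1 (br (dt e N) x) ∧ kp N e (star x) = kp N e x) ∧
    (∀ (e : ℂ) (S x : H →L[ℂ] H), IsT (br (dt e N) x) → Cm N S →
      kp N e (S * x) ≤ ‖S‖ * kp N e x ∧ kp N e (x * S) ≤ ‖S‖ * kp N e x) ∧
    (∀ (e : ℂ) (x y : H →L[ℂ] H), IsT (br (dt e N) x) → IsT (x - y) → kp N e x = kp N e y) ∧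
    (∀ (e : ℂ) (S : H →L[ℂ] H), Cm N S → kp N e S = 0) ∧
    (∀ (e e' : ℂ) (a b : ℝ) (x : H →L[ℂ] H), A1 N x →
      kp N ((a : ℂ) * e + (b : ℂ) * e') x ≤ |a| * kp N e x + |b| * kp N e' x)

/-- BLOCK KMC (100 lines).  `km N [θ(N), K] = 0` for continuous `θ` and trace class `K`.
The set of `S` in the commutant of `N, N^*` with `km N [S, K] = 0` for all trace class `K` is a
closed star subalgebra: `[S S', K] = [S, S' K] + [S', K S]`, `[S^*, K] = -[S, K^*]^*`,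
`km N [S, K] ≤ 2 ‖S - S'‖ n1 K + km N [S', K]`.  It contains `N = dt 1 N + i dt i N` by KMA (4),
hence all `cfc θ N`. -/
def Stmt_KMC : Prop := ∀ (H : Type v) [NormedAddCommGroup H] [InnerProductSpace ℂ H]
    [CompleteSpace H] (N : H →L[ℂ] H), IsStarNormal N → ∀ (θ : ℂ → ℂ) (K : H →L[ℂ] H), IsT K →
    km N (br (cfc θ N) K) = 0

/-! ### B. Completion of the averages to unitaries -/

/-- BLOCK TRN (100 lines).  Change of the space.  For `T` in `S1 H` the functional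
`Y ↦ pr T (B Y A)` on `B(K)` is a limit of vector functionals: for `T = r1 x y` it is
`⟪y, B Y A x⟫ = vf (A x) (B^* y)`; its operator is `A T B`.  The last two parts: in a space with
an orthonormal basis of `r` elements `T = ∑ r1 (T e_k) e_k`. -/
def Stmt_TRN : Prop :=
  (∀ (H : Type v) [NormedAddCommGroup H] [InnerProductSpace ℂ H] [CompleteSpace H]
    (K : Type v) [NormedAddCommGroup K] [InnerProductSpace ℂ K] [CompleteSpace K]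
    (A : H →L[ℂ] K) (B : K →L[ℂ] H) (T : H →L[ℂ] H), IsT T →
    IsT (A ∘L T ∘L B) ∧ n1 (A ∘L T ∘L B) ≤ ‖A‖ * ‖B‖ * n1 T ∧
      trO (A ∘L T ∘L B) = trO (T * (B ∘L A))) ∧
  (∀ (r : ℕ) (K : Type v) [NormedAddCommGroup K] [InnerProductSpace ℂ K] [CompleteSpace K]
    (A : Ef r →L[ℂ] K) (B : K →L[ℂ] Ef r), IsT (A ∘L B) ∧ n1 (A ∘L B) ≤ ‖A‖ * ‖B‖ * r ∧
      trO (A ∘L B) = LinearMap.trace ℂ (Ef r) (B ∘L A).toLinearMap) ∧
  (∀ (H : Type v) [NormedAddCommGroup H] [InnerProductSpace ℂ H] [CompleteSpace H]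
    (r : ℕ) (x y : Fin r → H), IsT (∑ k, r1 (x k) (y k)) ∧
      n1 (∑ k, r1 (x k) (y k)) ≤ ∑ k, ‖x k‖ * ‖y k‖)

/-- BLOCK FAR (70 lines).  Off-diagonal decay.  Let `A₀ = P' q P`, `A₁ = P' [Z,q] P`, ...  Since
`P, P'` commute with `Z`, `A_{k+1} = Z A_k - A_k Z = (Z - z') A_k - A_k (Z - z) + (z' - z) A_k`
and `(Z - z') A_k = G' A_k`, `A_k (Z - z) = A_k G`, so
`(|z - z'| - 2 h) ‖A_k‖ ≤ ‖A_{k+1}‖` for `k = 0, 1, 2`. -/
def Stmt_FAR : Prop := ∀ (H : Type v) [NormedAddCommGroup H] [InnerProductSpace ℂ H]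
    [CompleteSpace H] (Z q P P' G G' : H →L[ℂ] H) (z z' h M : ℝ),
    Z * P = P * Z → Z * P' = P' * Z → P * (Z - (z : ℂ) • 1) = P * G →
    (Z - (z' : ℂ) • 1) * P' = G' * P' → ‖G‖ ≤ h → ‖G'‖ ≤ h → ‖P‖ ≤ 1 → ‖P'‖ ≤ 1 → 0 ≤ h →
    ‖br Z (br Z (br Z q))‖ ≤ M → 2 * h < |z - z'| →
    ‖P' * q * P‖ ≤ M / (|z - z'| - 2 * h) ^ 3

/-- BLOCK GRD (80 lines).  Greedy choice.  If `u_1, ..., u_n` are orthonormal with
`re ⟪u_k, A u_k⟫ > c` then `n c ≤ n1 A` (`pr (toS A) (∑ r1 u_k u_k)`, a projection); so there is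
one with `n` maximal; then no unit vector orthogonal to all of them has `re ⟪y, A y⟫ > c`. -/
def Stmt_GRD : Prop := ∀ (H : Type v) [NormedAddCommGroup H] [InnerProductSpace ℂ H]
    [CompleteSpace H] (A : H →L[ℂ] H) (c : ℝ), 0 ≤ A → IsT A → 0 < c →
    ∃ (n : ℕ) (u : Fin n → H), Orthonormal ℂ u ∧ n * c ≤ n1 A ∧
      ∀ y : H, (∀ k, ⟪u k, y⟫_ℂ = 0) → (⟪y, A y⟫_ℂ).re ≤ c * ‖y‖ ^ 2

/-- BLOCK CELA (150 lines; uses CMM).  Partition into cells.  `φ(x) = sqrt (max 0 (1 - |x|))`, so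
`∑_{|i| ≤ M} φ(x - i)² = 1` for `|x| ≤ M`; `M h ≥ ‖N‖`; `S = [-M, M]²`;
`χ_Q = cfc (z ↦ φ(re z / h - Q.1) φ(im z / h - Q.2)) N`.  On the support of `χ_Q` the coordinates
differ from `h Q.1`, `h Q.2` by at most `h`: `G = cfc (clamp of (re z - h Q.1) to [-h, h]) N`. -/
def Stmt_CELA : Prop := ∀ (H : Type v) [NormedAddCommGroup H]
    [InnerProductSpace ℂ H] [CompleteSpace H] (N : H →L[ℂ] H) (h : ℝ), IsStarNormal N → 0 < h →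
    ∃ (S : Finset (ℤ × ℤ)) (χ : ℤ × ℤ → H →L[ℂ] H),
      (∀ Q, IsSelfAdjoint (χ Q) ∧ ‖χ Q‖ ≤ 1 ∧ Cm N (χ Q)) ∧ ∑ Q ∈ S, χ Q * χ Q = 1 ∧
      ∀ (Q : ℤ × ℤ) (e : ℂ), e = 1 ∨ e = Complex.I → ∃ G : H →L[ℂ] H, ‖G‖ ≤ h ∧
        IsSelfAdjoint G ∧ Cm N G ∧
        (dt e N - ((ip e ((h * Q.1 : ℝ) + (h * Q.2 : ℝ) * Complex.I) : ℝ) : ℂ) • 1) * χ Q =
          G * χ Q

/-- BLOCK CELL (250 lines; uses CELA, FAR, GRD).  Cells `Q` from CELA, centre `c_Q = h Q.1 + i h Q.2`.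
For `x` put `x_Q = χ_Q x`, `∑ ‖x_Q‖² = ‖x‖²`, `q_Q = χ_Q q χ_Q`; `⟪q x, x⟫ = ∑_{Q,Q'}
⟪χ_{Q'} q χ_Q x_Q, x_{Q'}⟫`.  Far pairs (`v = max (|i-i'|, |j-j'|) > R₀`): norm of
`χ_{Q'} q χ_Q` at most `8 / (v - 2)³` by FAR, at most `8 v` cells at distance `v`, so the row sums
are `≤ 1/4` for a suitable absolute `R₀`.  Near pairs (at most `m = (2 R₀ + 1)²` per cell):
`|⟪χ_{Q'} q χ_Q x_Q, x_{Q'}⟫| ≤ (⟪q_Q x_Q, x_Q⟫ + ⟪q_{Q'} x_{Q'}, x_{Q'}⟫) / 2` (`q ≥ 0`).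
GRD for `q_Q` with `c₁ = 1/(8 m)` gives an orthonormal family `u_{Q,k}`, of total number
`≤ ∑_Q n1 q_Q / c₁ = n1 q / c₁` (`∑ tr q_Q = tr q ∑ χ_Q² = tr q`), and
`⟪q_Q y, y⟫ ≤ 2 ‖P_Q y‖² + 2 c₁ ‖y‖²`.  The vectors are `w = χ_Q u_{Q,k}` with the point
`c = c_Q` of the cell: `⟪w, x⟫ = ⟪u, x_Q⟫`, `⟪X_e w - (e · c) w, x⟫ = ⟪u, (X_e - e · c) x_Q⟫`,
and Bessel's inequality in every cell.  `C = max (8 m) (2 m)`. -/
def Stmt_CELL : Prop := ∃ C : ℝ, 1 ≤ C ∧ ∀ (H : Type v) [NormedAddCommGroup H]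
    [InnerProductSpace ℂ H] [CompleteSpace H] (N q : H →L[ℂ] H) (h : ℝ), IsStarNormal N →
    0 ≤ q → ‖q‖ ≤ 1 → IsT q → 0 < h →
    (∀ e : ℂ, e = 1 ∨ e = Complex.I →
      ‖br (dt e N) (br (dt e N) (br (dt e N) q))‖ ≤ (2 * h) ^ 3) →
    ∃ (r : ℕ) (w : Fin r → H) (c : Fin r → ℂ), (r : ℝ) ≤ C * n1 q ∧
      (∀ x : H, ∑ k, ‖⟪w k, x⟫_ℂ‖ ^ 2 ≤ ‖x‖ ^ 2) ∧
      (∀ e : ℂ, e = 1 ∨ e = Complex.I → ∀ x : H,
        ∑ k, ‖⟪dt e N (w k) - ((ip e (c k) : ℝ) : ℂ) • w k, x⟫_ℂ‖ ^ 2 ≤ h ^ 2 * ‖x‖ ^ 2) ∧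
      ∀ x : H, (⟪x, q x⟫_ℂ).re ≤ 1 / 2 * ‖x‖ ^ 2 + C * ∑ k, ‖⟪w k, x⟫_ℂ‖ ^ 2

/-- BLOCK SYL (100 lines).  Sylvester's equation.  `c = ‖S‖ + s`: `‖c - S‖ ≤ c - s` (spectrum of
`S` in `[s, c]`).  `D = (Z + (c - S) D + D (c - S)) / (2 c)` with `Z = S D + D S`, a contraction
with factor `(c - s)/c` in `S1` and in `B(H)`; the fixed point in `S1` has operator `D`, and
`n1 D ≤ (n1 Z + 2 (c - s) n1 D) / (2 c)`. -/
def Stmt_SYL : Prop := ∀ (H : Type v) [NormedAddCommGroup H] [InnerProductSpace ℂ H]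
    [CompleteSpace H] (S D : H →L[ℂ] H) (s : ℝ), 0 < s → (s : ℂ) • (1 : H →L[ℂ] H) ≤ S →
    ‖D‖ ≤ ‖S * D + D * S‖ / (2 * s) ∧
    (IsT (S * D + D * S) → IsT D ∧ n1 D ≤ n1 (S * D + D * S) / (2 * s))

/-- BLOCK DSX (60 lines).  `K = WithLp 2 (H × Ef r)`. -/
def Stmt_DSX : Prop := ∀ (H : Type v) [NormedAddCommGroup H] [InnerProductSpace ℂ H]
    [CompleteSpace H] [TopologicalSpace.SeparableSpace H] (r : ℕ),
    ∃ (K : Type v) (_ : NormedAddCommGroup K) (_ : InnerProductSpace ℂ K) (_ : CompleteSpace K)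
      (_ : TopologicalSpace.SeparableSpace K) (i : H →L[ℂ] K) (j : Ef r →L[ℂ] K), IsDS i j

/-- BLOCK ISO (250 lines; uses SYL, TRN).  `J x = (⟪w_k, x⟫)_k`, `‖J‖ ≤ 1`,
`G = V^* V + C₀ J^* J ≥ 1/2`, `G ≤ 1 + C₀`; `D_Z = Z_B J - J Z` with `Z_B = diag (e · c_k)`,
`‖D_Z‖ ≤ h`.  `[Z, G] = [Z, V^*] V + V^* [Z, V] + C₀ (J^* D_Z - D_Z^* J)`: trace norm
`≤ 2 n1 [Z, V] + 2 C₀ h r`, norm `≤ 2 h + 2 C₀ h`.  `S = G^{1/2} ≥ 1/√2`: SYL for `[Z, S]`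
(`S [Z,S] + [Z,S] S = [Z, G]`); `R = S^{-1}`, `[Z, R] = - R [Z, S] R`; `S - 1 = (G - 1)(S + 1)^{-1}`
is trace class (`G - 1 = -(1 - V^* V) + C₀ J^* J`,
`1 - V^* V = Ω^* (Ω - V) + (Ω - V)^* V`).
`A = i V i^* + √C₀ j J i^*`, `a = A (i R i^*)`: `a^* a = i R G R i^* = i i^*`;
`[Z_a, A] = i [Z, V] i^* + √C₀ j D_Z i^*` for `Z_a = dt e (i N i^* + j diag(c) j^*)
= i Z i^* + j Z_B j^*`. -/
def Stmt_ISO : Prop := ∀ C₀ : ℝ, 1 ≤ C₀ → ∃ C : ℝ, 1 ≤ C ∧ ∀ (H : Type v) [NormedAddCommGroup H]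
    [InnerProductSpace ℂ H] [CompleteSpace H] (K : Type v) [NormedAddCommGroup K]
    [InnerProductSpace ℂ K] [CompleteSpace K] (N Ω V : H →L[ℂ] H) (r : ℕ) (i : H →L[ℂ] K)
    (j : Ef r →L[ℂ] K) (w : Fin r → H) (c : Fin r → ℂ) (B : Ef r →L[ℂ] Ef r) (h : ℝ),
    IsStarNormal N → Uni Ω → IsDS i j → ‖V‖ ≤ 1 → IsT (V - Ω) → 0 < h →
    (∀ (x : Ef r) (k : Fin r), B x k = c k * x k) →
    (∀ e : ℂ, e = 1 ∨ e = Complex.I → IsT (br (dt e N) V) ∧ ‖br (dt e N) V‖ ≤ h) →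
    (∀ x : H, ∑ k, ‖⟪w k, x⟫_ℂ‖ ^ 2 ≤ ‖x‖ ^ 2) →
    (∀ e : ℂ, e = 1 ∨ e = Complex.I → ∀ x : H,
      ∑ k, ‖⟪dt e N (w k) - ((ip e (c k) : ℝ) : ℂ) • w k, x⟫_ℂ‖ ^ 2 ≤ h ^ 2 * ‖x‖ ^ 2) →
    (∀ x : H, ‖x‖ ^ 2 - ‖V x‖ ^ 2 ≤ 1 / 2 * ‖x‖ ^ 2 + C₀ * ∑ k, ‖⟪w k, x⟫_ℂ‖ ^ 2) →
    ∃ a : K →L[ℂ] K, star a * a = i ∘L (ContinuousLinearMap.adjoint i) ∧ IsT (a - cor i Ω) ∧
      ∀ e : ℂ, e = 1 ∨ e = Complex.I → IsT (br (dt e (cor i N + cor j B)) a) ∧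
        n1 (br (dt e (cor i N + cor j B)) a) ≤ C * (n1 (br (dt e N) V) + h * r) ∧
        ‖br (dt e (cor i N + cor j B)) a‖ ≤ C * h

/-- BLOCK PRJ (80 lines).  A trace class projection has finite rank: an orthonormal family of `m`
vectors in its range gives `m = pr (toS p) (∑ r1 u u) ≤ n1 p`.  Take an orthonormal basis of the
range; the trace is its cardinality. -/
def Stmt_PRJ : Prop := ∀ (H : Type v) [NormedAddCommGroup H] [InnerProductSpace ℂ H]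
    [CompleteSpace H] (p : H →L[ℂ] H) (r : ℕ), IsSelfAdjoint p → p * p = p → IsT p →
    trO p = (r : ℂ) → ∃ e : Fin r → H, Orthonormal ℂ e ∧ p = ∑ k, r1 (e k) (e k)

/-- BLOCK DIM (100 lines; uses PRJ, TRN).  `b = cor i Ω`, `b b^* = i i^* = b^* b = a^* a`.
`p = 1 - a a^* = j j^* - (a a^* - b b^*)`, a projection; `a a^* - b b^* = a (a - b)^* + (a - b) b^*`
has trace `tr ((a - b)^* a + b^* (a - b)) = tr (a^* a - b^* b) = 0`, so `tr p = tr j j^* = r`.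
PRJ: `w` maps the basis of `Ef r` to the orthonormal basis of the range of `p`. -/
def Stmt_DIM : Prop := ∀ (H : Type v) [NormedAddCommGroup H]
    [InnerProductSpace ℂ H] [CompleteSpace H] (K : Type v) [NormedAddCommGroup K]
    [InnerProductSpace ℂ K] [CompleteSpace K] (Ω : H →L[ℂ] H) (r : ℕ) (i : H →L[ℂ] K)
    (j : Ef r →L[ℂ] K) (a : K →L[ℂ] K), Uni Ω → IsDS i j →
    star a * a = i ∘L (ContinuousLinearMap.adjoint i) → IsT (a - cor i Ω) →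
    ∃ w : Ef r →L[ℂ] K, (ContinuousLinearMap.adjoint w) ∘L w = ContinuousLinearMap.id ℂ (Ef r) ∧
      w ∘L (ContinuousLinearMap.adjoint w) = 1 - a * star a

/-- BLOCK W1 (150 lines; uses TRN).  `W₀ = a + w j^*`, `B₀ = w^* N_a w`, `dt e B₀ = w^* (dt e N_a) w`.
`a j = 0` (as `a = a a^* a = a i i^*`), `a^* w = 0`, so `W₀` is unitary.  With `Z_a = dt e N_a`:
`Z_a W₀ - W₀ (i Z i^* + j (dt e B₀) j^*) = [Z_a, a] + a [a^*, Z_a] w j^*`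
(`a N_a = a i N i^*` because `a j = 0`; `Z_a w - w w^* Z_a w = a a^* Z_a w = a (a^* Z_a - Z_a a^*) w`);
the second term has norm `≤ δ` and rank `≤ r`.
`[dt 1 B₀, dt i B₀] = w^* (X w w^* Y - Y w w^* X) w = - w^* [X, a] [a^*, Y] w + w^* [Y, a] [a^*, X] w`
since `w w^* = 1 - a a^*`, `X Y = Y X`, `w^* a = 0`. -/
def Stmt_W1 : Prop := ∀ (H : Type v) [NormedAddCommGroup H]
    [InnerProductSpace ℂ H] [CompleteSpace H] (K : Type v) [NormedAddCommGroup K]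
    [InnerProductSpace ℂ K] [CompleteSpace K] (N Ω : H →L[ℂ] H) (r : ℕ) (i : H →L[ℂ] K)
    (j : Ef r →L[ℂ] K) (B : Ef r →L[ℂ] Ef r) (a : K →L[ℂ] K) (w : Ef r →L[ℂ] K) (κ δ : ℝ),
    IsStarNormal N → IsStarNormal B → Uni Ω → IsDS i j →
    star a * a = i ∘L (ContinuousLinearMap.adjoint i) → IsT (a - cor i Ω) →
    (∀ e : ℂ, e = 1 ∨ e = Complex.I → IsT (br (dt e (cor i N + cor j B)) a) ∧
      n1 (br (dt e (cor i N + cor j B)) a) ≤ κ ∧ ‖br (dt e (cor i N + cor j B)) a‖ ≤ δ) →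
    (ContinuousLinearMap.adjoint w) ∘L w = ContinuousLinearMap.id ℂ (Ef r) →
    w ∘L (ContinuousLinearMap.adjoint w) = 1 - a * star a →
    ∃ (W₀ : K →L[ℂ] K) (B₀ : Ef r →L[ℂ] Ef r), Uni W₀ ∧
      IsT (W₀ - (cor i Ω + j ∘L (ContinuousLinearMap.adjoint j))) ∧
      ‖br (dt 1 B₀) (dt Complex.I B₀)‖ ≤ 2 * δ ^ 2 ∧
      ∀ e : ℂ, e = 1 ∨ e = Complex.I →
        IsT (dt e (cor i N + cor j B) * W₀ - W₀ * dt e (cor i N + cor j B₀)) ∧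
        n1 (dt e (cor i N + cor j B) * W₀ - W₀ * dt e (cor i N + cor j B₀)) ≤ κ + r * δ

/-- BLOCK ABS (250 lines).  Absorption.  `X = dt 1 B₀`, `Y = dt i B₀`, matrices in an eigenbasis of
`X`: `X = diag(x_k)`, `Y = (y_kl)`, `∑ |x_k - x_l|² |y_kl|² = ‖[X,Y]‖₂² ≤ r δ⁴`.
Angle `θ(x) = π x / (2 δ)`, `C = cos θ(X)`, `S = sin θ(X)`,
`u = [[C, -S], [S, C]]` on `Ef r ⊕ Ef r` (unitary).
`N'`: real part `diag(δ ⌊x_k / δ⌋)`, imaginary part `y_kl` if `⌊x_k/δ⌋ = ⌊x_l/δ⌋`, else `0`.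
`M = M_e ⊕ M_o`: blocks `[(2m-1)δ, (2m+1)δ)` with real part `2 m δ` (first summand), blocks
`[2mδ, (2m+2)δ)` with real part `(2m+1)δ` (second summand); imaginary part `y_kl` if `k, l` are in
the same block, else `0`.  All are normal (scalar plus `i` times self-adjoint on every block).
Entries of `u (X_e ⊕ N'_e) - M_e u`: real parts are diagonal and `≤ 2 δ`; imaginary parts are at most
`(π / 2δ) |x_k - x_l| |y_kl|`: same block: Lipschitz; different blocks: `cos` (resp. `sin`) vanishes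
at a block end between `x_k` and `x_l`.  So the Hilbert-Schmidt norm of the error is
`≤ C √r δ` and the trace norm on a space of dimension `2 r` is `≤ √(2r)` times it
(`T = ∑ r1 (T e_k) e_k`). -/
def Stmt_ABS : Prop := ∃ C : ℝ, 1 ≤ C ∧ ∀ (r : ℕ) (B₀ : Ef r →L[ℂ] Ef r) (δ : ℝ), 0 < δ →
    ‖br (dt 1 B₀) (dt Complex.I B₀)‖ ≤ δ ^ 2 →
    ∃ (N' : Ef r →L[ℂ] Ef r) (M u : Ef (r + r) →L[ℂ] Ef (r + r)) (i₁ j₁ : Ef r →L[ℂ] Ef (r + r)),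
      IsDS i₁ j₁ ∧ IsStarNormal N' ∧ IsStarNormal M ∧ Uni u ∧
      ∀ e : ℂ, e = 1 ∨ e = Complex.I →
        n1 (u * dt e (cor i₁ B₀ + cor j₁ N') - dt e M * u) ≤ C * δ * r

/-- BLOCK SPF (60 lines).  Diagonalisation in finite dimension: the trace of `f(M)`. -/
def Stmt_SPF : Prop := ∀ (r : ℕ) (M : Ef r →L[ℂ] Ef r), IsStarNormal M →
    ∃ lam : Fin r → ℂ, ∀ f : ℂ → ℂ, Continuous f → trO (cfc f M) = ∑ k, f (lam k)

/-- BLOCK FCD (80 lines).  The functional calculus of a direct sum: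
`cor k` is a (non unital) star homomorphism; `F ↦ cor k (cfc F N) + cor l (cfc F B)` is a
continuous star homomorphism with `id ↦ N ⊕ B` (uniqueness of `cfc`, or approximation by
polynomials in `z, z̄` on a ball containing the three spectra). -/
def Stmt_FCD : Prop := ∀ (H : Type v) [NormedAddCommGroup H]
    [InnerProductSpace ℂ H] [CompleteSpace H] (K : Type v) [NormedAddCommGroup K]
    [InnerProductSpace ℂ K] [CompleteSpace K] (r : ℕ) (i : H →L[ℂ] K) (j : Ef r →L[ℂ] K)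
    (N : H →L[ℂ] H) (B : Ef r →L[ℂ] Ef r), IsDS i j → IsStarNormal N → IsStarNormal B →
    IsStarNormal (cor i N + cor j B) ∧ ∀ f : ℂ → ℂ, Continuous f →
      cfc f (cor i N + cor j B) = cor i (cfc f N) + cor j (cfc f B)

/-- BLOCK TFN (200 lines).  The functionals.
(1): `f = syn a` on `ℂ` (`blk_FOUR`), the pair of `N₂, N₁` (as in `blk_TN`: from `IsT (N₂ - N₁)` and
its adjoint) and `Fd`: `op (Fd P a) = cfc f N₂ - cfc f N₁` (`sDu`).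
(2): for unitary `Ω`: `Ω^* N Ω - N = Ω^* [N, Ω]` is trace class, `cfc f (Ω^* N Ω) = Ω^* (cfc f N) Ω`.
(3)-(6): `tr (A T) = tr (T A)`; for (5), `Ω' = Ω k`, `k = Ω^* Ω' = 1 + K` with `K` trace class:
`tr (k^* F k - F) = tr (F (k k^* - 1)) = 0`. -/
def Stmt_TFN : Prop :=
  (∀ (H : Type v) [NormedAddCommGroup H] [InnerProductSpace ℂ H] [CompleteSpace H]
    (N₁ N₂ : H →L[ℂ] H), IsStarNormal N₁ → IsStarNormal N₂ → IsT (N₂ - N₁) →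
    (∀ f, Tst f → IsT (cfc f N₂ - cfc f N₁)) ∧ IsLF (Tf N₁ N₂)) ∧
  (∀ (H : Type v) [NormedAddCommGroup H] [InnerProductSpace ℂ H] [CompleteSpace H]
    (N Ω : H →L[ℂ] H), IsStarNormal N → Uni Ω → A1 N Ω →
    (∀ f, Tst f → IsT (star Ω * cfc f N * Ω - cfc f N)) ∧ IsLF (TU N Ω) ∧
    IsStarNormal (star Ω * N * Ω) ∧ IsT (star Ω * N * Ω - N) ∧
    (∀ f, Tst f → TU N Ω f = Tf N (star Ω * N * Ω) f) ∧
    (∀ Ω' : H →L[ℂ] H, Uni Ω' → A1 N Ω' →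
      (∀ f, Tst f → TU N (Ω * Ω') f = TU N Ω f + TU N Ω' f) ∧
      (IsT (Ω' - Ω) → ∀ f, Tst f → TU N Ω' f = TU N Ω f)) ∧
    (∀ f, Tst f → TU N (star Ω) f = -TU N Ω f) ∧
    (∀ (m : ℕ) f, Tst f → TU N (Ω ^ m) f = m * TU N Ω f) ∧
    (Cm N Ω → ∀ f, Tst f → TU N Ω f = 0))

/-- BLOCK TRI (120 lines; uses FCD, TRN, TFN).  With `F_A = f(N_A)`, `F_B = f(N_B)`,
`N_A = N ⊕ B_A`, `N_B = N ⊕ M`: `F_B - F_A = cor l (f(M) - f(B_A))`,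
`tr (W F_B W^* - F_A) = tr (W (F_B - F_A) W^*) + tr (W F_A W^* - F_A)`, and the last trace is the
same for `W` and for `W' = cor k Ω + l l^*` (TFN, both are unitary and differ by a trace class
operator; `W' F_A W'^* - F_A = cor k (Ω f(N) Ω^* - f(N))`). -/
def Stmt_TRI : Prop := ∀ (H : Type v) [NormedAddCommGroup H]
    [InnerProductSpace ℂ H] [CompleteSpace H] (K : Type v) [NormedAddCommGroup K]
    [InnerProductSpace ℂ K] [CompleteSpace K] (r : ℕ) (k : H →L[ℂ] K) (l : Ef r →L[ℂ] K)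
    (N Ω : H →L[ℂ] H) (B_A M : Ef r →L[ℂ] Ef r) (W : K →L[ℂ] K), IsDS k l → IsStarNormal N →
    IsStarNormal B_A → IsStarNormal M → Uni Ω → A1 N Ω → Uni W →
    IsT (W - (cor k Ω + l ∘L (ContinuousLinearMap.adjoint l))) →
    IsT ((cor k N + cor l B_A) * W - W * (cor k N + cor l M)) →
    IsT (W * (cor k N + cor l M) * star W - (cor k N + cor l B_A)) ∧
    ∀ f, Tst f → Tf (cor k N + cor l B_A) (W * (cor k N + cor l M) * star W) f =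
      TU N (star Ω) f + trO (cfc f M) - trO (cfc f B_A)

/-- BLOCK ASM (250 lines; uses DSX, ABS, SPF, FCD, TFN, TRI, TRN, CMM).  One more summand `Ef r`:
`K₂ = K ⊕ Ef r` via `i₂, j₂`.  `N' , M, u, i₁, j₁` from ABS for `B₀` (with `2 δ²`, i.e. `δ' = 2 δ`).
`k = i₂ i`, `l = i₂ j i₁^* + j₂ j₁^* : Ef (r+r) → K₂`; `IsDS k l`.
`N_A = N ⊕ (B ⊕ N')` (`= cor i₂ (cor i N + cor j B) + cor j₂ N' = cor k N + cor l B_A`,
`B_A = cor i₁ B + cor j₁ N'`), `N_B = cor k N + cor l M`,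
`W = (i₂ W₀ i₂^* + j₂ j₂^*) (k k^* + l u^* l^*)`.  `n1 (N_A W - W N_B) ≤ 2 (κ + C δ r)`-type bound
from W1 and ABS (real and imaginary parts).  `W - (cor k Ω + l l^*)` is trace class (finite rank
corrections).  `UB C₀` for the pair `N_A, W N_B W^*` and TRI; SPF for `M` and `B_A`;
`TU N (star Ω) = - TU N Ω`. -/
def Stmt_ASM : Prop := ∃ C : ℝ, 1 ≤ C ∧ ∀ C₀ : ℝ, 0 ≤ C₀ → UB.{v} C₀ → ∀ (H : Type v)
    [NormedAddCommGroup H] [InnerProductSpace ℂ H] [CompleteSpace H]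
    [TopologicalSpace.SeparableSpace H] (K : Type v) [NormedAddCommGroup K]
    [InnerProductSpace ℂ K] [CompleteSpace K] [TopologicalSpace.SeparableSpace K]
    (N Ω : H →L[ℂ] H) (r : ℕ) (i : H →L[ℂ] K)
    (j : Ef r →L[ℂ] K) (B B₀ : Ef r →L[ℂ] Ef r) (W₀ : K →L[ℂ] K) (κ δ : ℝ), 0 < δ →
    IsStarNormal N → IsStarNormal B → Uni Ω → A1 N Ω → IsDS i j → Uni W₀ →
    IsT (W₀ - (cor i Ω + j ∘L (ContinuousLinearMap.adjoint j))) →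
    ‖br (dt 1 B₀) (dt Complex.I B₀)‖ ≤ 2 * δ ^ 2 →
    (∀ e : ℂ, e = 1 ∨ e = Complex.I →
      IsT (dt e (cor i N + cor j B) * W₀ - W₀ * dt e (cor i N + cor j B₀)) ∧
      n1 (dt e (cor i N + cor j B) * W₀ - W₀ * dt e (cor i N + cor j B₀)) ≤ κ) →
    ∃ (n : ℕ) (a c : Fin n → ℂ),
      BdL (fun f => TU N Ω f - ∑ k, c k * f (a k)) (C₀ * (2 * κ + C * δ * r))

/-- BLOCK STB (200 lines; uses PHA, PHB, KMB, CELL, DSX, ISO, DIM, W1, ASM).  Step B.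
Fix `t₀` with `n1 [Z, Ph N t₀ Ω] ≤ kp + ε` for both directions.  For large `t`: `V = Ph N t Ω`,
`h = √3 / t`, `‖ad_Z^k V‖ ≤ h^k` for `k ≤ 3` (`Ph N t = (Ph N (t/√k))^k`), `q = 1 - V^* V`,
`‖ad_Z^3 q‖ ≤ (2 h)^3` (Leibniz), `n1 q ≤ 2 n1 (Ω - V)`, and by PHB with `V₁ = V₂ = Ph N t₀ Ω`:
`n1 (Ω - V) ≤ t (kp₁ + kp₂ + 2 ε) + const`.  CELL: `r ≤ C n1 q`, so
`h r ≤ C' (kp₁ + kp₂ + 2 ε) + const / t`.  ISO, DIM, W1 (`δ = C h`), ASM; `t → ∞`. -/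
def Stmt_STB : Prop := ∀ C₀ : ℝ, 0 ≤ C₀ → UB.{v} C₀ → ∃ C : ℝ, 1 ≤ C ∧ ∀ (H : Type v)
    [NormedAddCommGroup H] [InnerProductSpace ℂ H] [CompleteSpace H]
    [TopologicalSpace.SeparableSpace H] (N Ω : H →L[ℂ] H), IsStarNormal N → Uni Ω → A1 N Ω →
    ∀ ε : ℝ, 0 < ε → ∃ (n : ℕ) (a c : Fin n → ℂ),
      BdL (fun f => TU N Ω f - ∑ k, c k * f (a k)) (C * (kp N 1 Ω + kp N Complex.I Ω + ε))

end Pool.Q2
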