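import Pool.Agent.Work.MP_8c7e5b_q2.Interface

/-!
# MP_8c7e5b_an, Q2 (absolutely continuous measures): the blocks of the bounded case, part 2
-/

open MeasureTheory Complex Filter Topology
open scoped ComplexOrder InnerProductSpace ComplexConjugate BoundedContinuousFunction

set_option autoImplicit false
set_option linter.unusedSectionVars false

universe v

namespace Pool.Q2

open Pool.Bes

/-! ### C. Absolutely continuous and singular parts -/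

/-- BLOCK FEX (80 lines).  The calculus `g ↦ fe e g N` (only values of `g` on
`[-‖e‖‖N‖, ‖e‖‖N‖]` matter).  `fe` is `cfc` of `g ∘ ip e`, a continuous function. -/
def Stmt_FEX : Prop := ∀ (H : Type v) [NormedAddCommGroup H] [InnerProductSpace ℂ H]
    [CompleteSpace H] (N : H →L[ℂ] H) (e : ℂ), IsStarNormal N →
    (∀ g k : ℝ → ℂ, Continuous g → Continuous k →
      fe e (fun x => g x + k x) N = fe e g N + fe e k N ∧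
      fe e (fun x => g x * k x) N = fe e g N * fe e k N) ∧
    (∀ (a : ℂ) (g : ℝ → ℂ), Continuous g → fe e (fun x => a * g x) N = a • fe e g N) ∧
    (∀ g : ℝ → ℂ, Continuous g → star (fe e g N) = fe e (fun x => conj (g x)) N) ∧
    fe e (fun _ => 1) N = 1 ∧ fe e (fun x => (x : ℂ)) N = dt e N ∧
    (∀ t : ℝ, fe e (fun x => Complex.exp (Complex.I * t * x)) N = ex N (t * e)) ∧
    (∀ (g : ℝ → ℂ) (U : ℝ), Continuous g → 0 ≤ U →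
      (∀ x ∈ Set.Icc (-(‖e‖ * ‖N‖)) (‖e‖ * ‖N‖), ‖g x‖ ≤ U) → ‖fe e g N‖ ≤ U) ∧
    (∀ g : ℝ → ℂ, Continuous g → Cm N (fe e g N)) ∧
    (∀ (g : ℝ → ℂ) (v : H), Continuous g → ⟪v, fe e g N v⟫_ℂ = ⟪fe e (fun x => conj (g x)) N v, v⟫_ℂ) ∧
    (∀ (g : ℝ → ℂ) (v : H), Continuous g →
      ((‖fe e g N v‖ ^ 2 : ℝ) : ℂ) = ⟪v, fe e (fun x => ((‖g x‖ ^ 2 : ℝ) : ℂ)) N v⟫_ℂ)

/-- BLOCK SPM (100 lines; uses FEX).  The spectral measure of `v` for `e · N`.  Riesz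
(`Pool.FR.RAux.riesz` in `Work/FiniteRankNormal/R.lean`, or `RealRMK`) for the positive functional
`g ↦ re ⟪v, fe e g N v⟫` on `C([-R,R])`, `R = ‖e‖ ‖N‖` (extend `g` by the clamp `[-R,R]`). -/
def Stmt_SPM : Prop := ∀ (H : Type v) [NormedAddCommGroup H] [InnerProductSpace ℂ H]
    [CompleteSpace H] (N : H →L[ℂ] H) (e : ℂ), IsStarNormal N → ∀ v : H,
    ∃ μ : Measure ℝ, IsFiniteMeasure μ ∧ μ (Set.Icc (-(‖e‖ * ‖N‖)) (‖e‖ * ‖N‖))ᶜ = 0 ∧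
      ∀ g : ℝ → ℂ, Continuous g → ⟪v, fe e g N v⟫_ℂ = ∫ x, g x ∂μ

/-- BLOCK PAC (120 lines; uses CMM, FEX).  `Dn N e m + Dn N e m' ⊆ Dn N e (m + m')` for
`m, m' ≥ 0`, `a • Dn N e m ⊆ Dn N e (‖a‖ m)`: the union is a subspace, dense in `Hac`.
If `S` commutes with `N, N^*` then `‖fe e g N (S ψ)‖ ≤ ‖S‖ ‖fe e g N ψ‖`: `S` maps `Dn N e m` to
`Dn N e (‖S‖ m)`; also `S^*`; so `S` commutes with the projection onto the closure. -/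
def Stmt_PAC : Prop := ∀ (H : Type v) [NormedAddCommGroup H] [InnerProductSpace ℂ H]
    [CompleteSpace H] (N : H →L[ℂ] H) (e : ℂ), IsStarNormal N →
    IsSelfAdjoint (Pac N e) ∧ Pac N e * Pac N e = Pac N e ∧
    IsSelfAdjoint (Psg N e) ∧ Psg N e * Psg N e = Psg N e ∧ Pac N e + Psg N e = 1 ∧
    Pac N e * Psg N e = 0 ∧ Psg N e * Pac N e = 0 ∧ ‖Pac N e‖ ≤ 1 ∧ ‖Psg N e‖ ≤ 1 ∧
    (∀ S : H →L[ℂ] H, Cm N S → Pac N e * S = S * Pac N e ∧ Psg N e * S = S * Psg N e) ∧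
    Cm N (Pac N e) ∧ Cm N (Psg N e) ∧
    (∀ ψ : H, ψ ∈ Hac N e ↔ Pac N e ψ = ψ) ∧ (∀ ψ : H, Pac N e ψ ∈ Hac N e) ∧
    (∀ ψ : H, Psg N e ψ ∈ (Hac N e)ᗮ) ∧
    (∀ ψ ∈ Hac N e, ∀ ε : ℝ, 0 < ε → ∃ (m : ℝ) (φ : H), 0 ≤ m ∧ φ ∈ Dn N e m ∧ ‖ψ - φ‖ < ε) ∧
    (∀ (m m' : ℝ) (φ φ' : H), 0 ≤ m → 0 ≤ m' → φ ∈ Dn N e m → φ' ∈ Dn N e m' →
      φ + φ' ∈ Dn N e (m + m')) ∧
    (∀ (m : ℝ) (S : H →L[ℂ] H) (φ : H), 0 ≤ m → Cm N S → φ ∈ Dn N e m → S φ ∈ Dn N e (‖S‖ * m))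

/-- BLOCK SNA (200 lines; uses FEX, SPM, PAC).  Vectors orthogonal to `Hac` are singular.
`μ = s + f dx` (Lebesgue decomposition), `S₀` a Lebesgue null Borel set carrying `s`,
`B = {f ≤ m} \ S₀`.  Continuous `g_n → 1_B` in `L²(μ)`:
`ψ = lim fe e g_n N v` exists (`‖fe e g N v‖² = ∫ |g|² dμ`); for continuous `g` (bounded on the
compact interval carrying `μ`) `‖fe e g N ψ‖² = ∫_B |g|² dμ ≤ m ∫ |g|² dx`; so `ψ ∈ Hac` and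
`0 = ⟪v, ψ⟫ = μ(B)`.  For all `m`: `f = 0` a.e. -/
def Stmt_SNA : Prop := ∀ (H : Type v) [NormedAddCommGroup H] [InnerProductSpace ℂ H]
    [CompleteSpace H] (N : H →L[ℂ] H) (e : ℂ), IsStarNormal N → ∀ v ∈ (Hac N e)ᗮ,
    ∀ μ : Measure ℝ, IsFiniteMeasure μ → μ (Set.Icc (-(‖e‖ * ‖N‖)) (‖e‖ * ‖N‖))ᶜ = 0 →
      (∀ g : ℝ → ℂ, Continuous g → ⟪v, fe e g N v⟫_ℂ = ∫ x, g x ∂μ) → μ ⟂ₘ volume

/-- BLOCK SNB (150 lines, measure theory only).  `μ` is carried by a Lebesgue null set `S₀`; a compact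
`K ⊆ S₀` with `μ(K^c) ≤ ε`.  Choose a grid `t + 2^{-p} ℤ` disjoint from `K` (almost every `t` works
for all `p`); for large `p` the cells meeting `K` have total length `≤ ε` (they lie in the
`2^{-p}`-neighbourhood of `K`, whose measure tends to `|K| = 0`); `K ∩ cell` is compact in the
open cell: `θ_j` is continuous, `= 1` there, `0` off the cell, `0 ≤ θ_j ≤ 1`.
`∫ |1 - ∑ θ_j|² dμ ≤ μ(K^c)`. -/
def Stmt_SNB : Prop := ∀ (μ : Measure ℝ), IsFiniteMeasure μ → μ ⟂ₘ volume → ∀ ε : ℝ, 0 < ε →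
    ∃ (m : ℕ) (l u : Fin m → ℝ) (θ : Fin m → ℝ → ℝ), (∀ j, l j < u j) ∧
      (∀ j j', j ≠ j' → Disjoint (Set.Ioo (l j) (u j)) (Set.Ioo (l j') (u j'))) ∧
      ∑ j, (u j - l j) ≤ ε ∧ (∀ j, Continuous (θ j)) ∧ (∀ j x, 0 ≤ θ j x ∧ θ j x ≤ 1) ∧
      (∀ j x, x ∉ Set.Ioo (l j) (u j) → θ j x = 0) ∧
      ∫ x, (1 - ∑ j, θ j x) ^ 2 ∂μ ≤ ε

/-- BLOCK SNG (80 lines; uses FEX, SPM, SNA, SNB).  The sum of the spectral measures of the `v k` is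
finite and singular; `‖v - fe e (∑ θ_j) N v‖² = ∫ |1 - ∑ θ_j|² dμ_v` (FEX, SPM). -/
def Stmt_SNG : Prop := ∀ (H : Type v) [NormedAddCommGroup H] [InnerProductSpace ℂ H]
    [CompleteSpace H] (N : H →L[ℂ] H) (e : ℂ), IsStarNormal N → ∀ (n : ℕ) (v : Fin n → H),
    (∀ k, v k ∈ (Hac N e)ᗮ) → ∀ ε : ℝ, 0 < ε →
    ∃ (m : ℕ) (l u : Fin m → ℝ) (θ : Fin m → ℝ → ℝ), (∀ j, l j < u j) ∧
      (∀ j j', j ≠ j' → Disjoint (Set.Ioo (l j) (u j)) (Set.Ioo (l j') (u j'))) ∧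
      ∑ j, (u j - l j) ≤ ε ∧ (∀ j, Continuous (θ j)) ∧ (∀ j x, 0 ≤ θ j x ∧ θ j x ≤ 1) ∧
      (∀ j x, x ∉ Set.Ioo (l j) (u j) → θ j x = 0) ∧
      ∀ k, ‖v k - fe e (fun x => ((∑ j, θ j x : ℝ) : ℂ)) N (v k)‖ ≤ ε

/-- BLOCK L2T (150 lines; uses FEX).  `c(t) = ⟪u, ex N (t e) ψ⟫`.  For continuous `g` with compact
support `∫ g(t) ex N (t e) dt = fe e ĝ N`, `ĝ(x) = ∫ g(t) e^{itx} dt` (continuous, bounded),
`∫ |ĝ|² ≤ 2π ∫ |g|²` (Plancherel; or: `∫ |ĝ|² e^{-δ x²} dx = ∬ g(t) conj g(s) γ_δ(t - s) ≤ 2π ∫ |g|²`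
with the Gaussian `γ_δ ≥ 0`, `∫ γ_δ = 2π`, and `δ → 0`).  So `|∫ g c| ≤ ‖u‖ m √(2π) ‖g‖₂`; take
`g = conj c` times a cut-off. -/
def Stmt_L2T : Prop := ∀ (H : Type v) [NormedAddCommGroup H] [InnerProductSpace ℂ H]
    [CompleteSpace H] (N : H →L[ℂ] H) (e : ℂ), IsStarNormal N → ∀ (m : ℝ) (ψ u : H), 0 ≤ m →
    ψ ∈ Dn N e m → Integrable (fun t : ℝ => ‖⟪u, ex N (t * e) ψ⟫_ℂ‖ ^ 2) ∧
      ∫ t : ℝ, ‖⟪u, ex N (t * e) ψ⟫_ℂ‖ ^ 2 ≤ 2 * Real.pi * m ^ 2 * ‖u‖ ^ 2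

/-- BLOCK DEC (100 lines; uses PAC, L2T).  For `ψ ∈ Dn N e m`, `c(t) = ⟪u, ex N (t e) ψ⟫` is square
integrable and Lipschitz (`‖ex N s - ex N s'‖ ≤ ‖s - s'‖ ‖N‖`), so it tends to `0`; rank one,
finite sums, `exists_fin_near`, density. -/
def Stmt_DEC : Prop := ∀ (H : Type v) [NormedAddCommGroup H] [InnerProductSpace ℂ H]
    [CompleteSpace H] (N : H →L[ℂ] H) (e : ℂ), IsStarNormal N → ∀ (K : H →L[ℂ] H) (ψ : H), IsT K →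
    ψ ∈ Hac N e → Tendsto (fun t : ℝ => K (ex N (t * e) ψ)) atTop (𝓝 0) ∧
      Tendsto (fun t : ℝ => K (ex N (t * e) ψ)) atBot (𝓝 0)

/-- BLOCK NUC (60 lines).  `T = W ω` (polar), `S = ω^{1/2}`; for a Hilbert basis `e` of `H`
(countable as `H` is separable): `T = ∑ r1 (W S e_k) (S e_k)`, `∑ ‖S e_k‖² = tr ω = n1 T`. -/
def Stmt_NUC : Prop := ∀ (H : Type v) [NormedAddCommGroup H] [InnerProductSpace ℂ H]
    [CompleteSpace H] [TopologicalSpace.SeparableSpace H] (T : H →L[ℂ] H), IsT T →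
    ∃ x y : ℕ → H, Summable (fun k => ‖x k‖ * ‖y k‖) ∧ ∑' k, ‖x k‖ * ‖y k‖ ≤ n1 T ∧
      ∀ z, HasSum (fun k => ⟪y k, z⟫_ℂ • x k) (T z)

/-- BLOCK WAVA (250 lines; uses NUC, PAC, L2T, DEC).  Pearson's estimate.  `J(t) = cj N (t e) J`,
`J'(t) = i K(t)`, `K(t) = cj N (t e) K`, `K = [dt e N, J]` trace class,
`K = ∑ r1 (x k) (y k)` by NUC.  `L_a = J(t + a) - J(s + a)`.
`J(t) - J(s) = i ∫_s^t K(u) du` is trace class and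
`L_a = cj N (a e) (J(t) - J(s))`, so `‖L_a ψ‖ → 0` as `a → ∞` by DEC.  Hence
`‖(J(t) - J(s)) ψ‖² = - ∫₀^∞ d/da ‖L_a ψ‖² da ≤ 2 ∫₀^∞ |⟪(K(t+a) - K(s+a)) ψ, L_a ψ⟫| da`.
`⟪K(u) ψ, L ψ⟫ = ∑ conj ⟪y k, ex(-u e) ψ⟫ ⟪x k, ex(-u e) L ψ⟫`; with `u = t + a`,
`ex(-(t+a) e) J(t+a) ψ = J ex(-(t+a) e) ψ` and
`ex(-(t+a) e) J(s+a) ψ = ex(-(t-s) e) J ex(-(s+a) e) ψ`: all second factors are in `L²(da)` by L2T
with norm `≤ √(2π) m ‖J‖ ‖x k‖`, and `∫_0^∞ |⟪y k, ex(-(t+a) e) ψ⟫|² da → 0` as `t → ∞`, bounded by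
`2π m² ‖y k‖²`: Cauchy-Schwarz and dominated convergence for the sum over `k`. Same for `u = s + a`. -/
def Stmt_WAVA : Prop := ∀ (H : Type v) [NormedAddCommGroup H] [InnerProductSpace ℂ H]
    [CompleteSpace H] [TopologicalSpace.SeparableSpace H] (N : H →L[ℂ] H) (e : ℂ),
    IsStarNormal N → ∀ J : H →L[ℂ] H, IsT (br (dt e N) J) → ∀ (m : ℝ) (ψ : H), 0 ≤ m →
    ψ ∈ Dn N e m → ∀ ε : ℝ, 0 < ε → ∃ t₀ : ℝ, ∀ t s : ℝ, t₀ ≤ t → t₀ ≤ s →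
      ‖cj N (t * e) J ψ - cj N (s * e) J ψ‖ ≤ ε

/-- BLOCK WAV (150 lines; uses CMM, PAC, FEX, DEC, WAVA).  `cj N (t e) J ψ` is Cauchy as `t → ∞` for
`ψ ∈ Dn N e m`, then for `ψ ∈ Hac` (density, `‖cj N s J‖ ≤ ‖J‖`).  The limit `φ`: for
`S = cfc f N`, `f` continuous: `S J(t) ψ - J(t) S ψ = cj N (t e) [S, J] ψ → 0` because
`[S, J]` is a norm limit of trace class operators (for `f` a polynomial in `z, z̄` it is trace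
class by A1) and DEC; so with `S = fe e g N`: `‖S φ‖ = lim ‖J(t) S ψ‖ ≤ ‖J‖ ‖S ψ‖`; hence
`φ ∈ Dn N e (‖J‖ m)` for `ψ ∈ Dn N e m` and in general `φ ∈ Hac`.  Also `N φ = lim J(t) N ψ`. -/
def Stmt_WAV : Prop := ∀ (H : Type v) [NormedAddCommGroup H] [InnerProductSpace ℂ H]
    [CompleteSpace H] [TopologicalSpace.SeparableSpace H] (N : H →L[ℂ] H) (e : ℂ),
    IsStarNormal N → ∀ J : H →L[ℂ] H, A1 N J →
    ∀ ψ ∈ Hac N e, ∃ φ ∈ Hac N e, Tendsto (fun t : ℝ => cj N (t * e) J ψ) atTop (𝓝 φ) ∧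
      Tendsto (fun t : ℝ => cj N (t * e) J (N ψ)) atTop (𝓝 (N φ)) ∧
      Tendsto (fun t : ℝ => cj N (t * e) J (star N ψ)) atTop (𝓝 (star N φ))

/-- BLOCK WAU (150 lines; uses CMM, PAC, WAV).  The wave operator.  `Ω₊ ψ = lim cj N (t e) Ω ψ` for
`ψ ∈ Hac`, `(Ω^*)₊` likewise; `(Ω^*)₊ Ω₊ ψ = lim Ω^*(t) Ω(t) ψ = ψ` (as `‖Ω^*(t)‖ ≤ 1`), and
`Ω₊ (Ω^*)₊ = 1` on `Hac`; isometric.  `S = Ω₊ Pac + Psg` (a bounded operator: limits of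
`cj N (n e) Ω Pac`, Banach-Steinhaus, `n ∈ ℕ`), `S^* = (Ω^*)₊ Pac + Psg`. -/
def Stmt_WAU : Prop := ∀ (H : Type v) [NormedAddCommGroup H] [InnerProductSpace ℂ H]
    [CompleteSpace H] [TopologicalSpace.SeparableSpace H] (N : H →L[ℂ] H) (e : ℂ),
    IsStarNormal N → ∀ Ω : H →L[ℂ] H, Uni Ω →
    A1 N Ω → ∃ S : H →L[ℂ] H, Uni S ∧ Cm N S ∧
      (∀ ψ ∈ Hac N e, Tendsto (fun t : ℝ => cj N (t * e) Ω ψ) atTop (𝓝 (S ψ))) ∧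
      S * Psg N e = Psg N e ∧ S * Pac N e = Pac N e * S

/-- BLOCK CLS (200 lines; uses CMM, KMB, PAC, FEX, SNG, TRN).  The singular part does not contribute
in its own direction.  `X = dt e N`, `K = [X, b]`; `n1 (K - ∑_k r1 x_k y_k) ≤ η`
(`exists_fin_near`); `v_k = Psg x_k`; SNG with `ε`: intervals `I_j` of centre `c_j`, functions `θ_j`.
`R_j` = projection onto the span of the `fe e θ_j N v_k` (`k = 1..n`); its vectors are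
`θ_j(X) w`, `w` in the span of the `v_k`, so `(X - c_j) θ_j(X) w = g(X) θ_j(X) w` with `g` the clamp of
`x - c_j` to `[-|I_j|, |I_j|]`: `‖(X - c_j) R_j‖ ≤ |I_j|`.  The ranges are orthogonal for different
`j` (`θ_j θ_{j'} = 0`); `R = ∑ R_j` is a projection, `[X, R] = ∑ (X - c_j) R_j - R_j (X - c_j)`,
`n1 [X, R] ≤ 2 n ∑ |I_j| ≤ 2 n ε`.  `‖(1 - R) v_k‖ ≤ ‖v_k - ∑ θ_j(X) v_k‖ ≤ ε`.
`V = (1 - R) Psg b`: `V - Psg b` has finite rank, `[X, V] = -[X, R] Psg b + (1 - R) Psg K`,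
`n1 [X, V] ≤ 2 n ε ‖b‖ + η + ε ∑ ‖y_k‖`; use KMB (1), first `ε → 0`, then `η → 0`. -/
def Stmt_CLS : Prop := ∀ (H : Type v) [NormedAddCommGroup H] [InnerProductSpace ℂ H]
    [CompleteSpace H] (N b : H →L[ℂ] H) (e : ℂ), IsStarNormal N → A1 N b →
    kp N e (Psg N e * b) = 0

/-- BLOCK MIX (100 lines; uses KMA, KMC, PAC, FEX, SNG, CMM).  Enough (seminorm bounded by `n1`): `K = r1 v u`
with `v ⟂ Hac`, `u ∈ Dn N e m`.  `θ = ∑ θ_j` from SNG: `‖v - θ(X) v‖ ≤ ε`,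
`‖θ(X) u‖² ≤ m² ∫ θ² ≤ m² ε`.
`km (r1 v u) ≤ ε ‖u‖ + km (θ(X) r1 v u) = ε ‖u‖ + km ((r1 v u) θ(X)) ≤ ε ‖u‖ + ‖v‖ ‖θ(X) u‖` by KMC
(`θ(X) = cfc _ N`).  The second statement by adjoints. -/
def Stmt_MIX : Prop := ∀ (H : Type v) [NormedAddCommGroup H] [InnerProductSpace ℂ H]
    [CompleteSpace H] (N K : H →L[ℂ] H) (e : ℂ), IsStarNormal N → IsT K →
    km N (Psg N e * K * Pac N e) = 0 ∧ km N (Pac N e * K * Psg N e) = 0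

/-- BLOCK PIG (200 lines; uses CMM, KMA, KMB, PAC, CLS, `Stmt_Pin` = `Pool.Bes.blk_PIN`).  Pigeonhole.
`n` pairwise non-parallel unit directions `e_1..e_n`, `P_j = Psg N e_j` (commuting projections),
`p_j = P_j ∏_{i≠j} (1 - P_i)`: orthogonal projections commuting with `N, N^*`, `p_i p_j = 0`.
Pinching: `∑ n1 (p_j D p_j) ≤ n1 D` for `D = [dt 1 N, b]` and `D = [dt i N, b]`; so for some `j` the sum
of the two is `≤ (n1 [dt 1 N,b] + n1 [dt i N,b]) / n ≤ ε`; then for `‖e'‖ ≤ 1`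
`kp N e' (p_j b p_j) ≤ n1 (p_j [dt e' N, b] p_j) ≤ ε`.
`P_j - p_j = P_j (1 - ∏_{i≠j} (1 - P_i)) = ∑_{i≠j} S_i P_i P_j` with `Cm N S_i`.
`kp N e' (P_i P_j b) = 0` for `i ≠ j`, every `e'`: `e' = a e_i + a' e_j` (KMB, last item),
`kp N e_i (P_j P_i b) ≤ kp N e_i (P_i b) = 0` by CLS, same for `j`.
`P_j b P_j = p_j b p_j + (P_j - p_j) b P_j + p_j b (P_j - p_j)`; the last one by adjoints. -/
def Stmt_PIG : Prop := ∀ (H : Type v) [NormedAddCommGroup H] [InnerProductSpace ℂ H]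
    [CompleteSpace H] (N b : H →L[ℂ] H), IsStarNormal N → A1 N b → ∀ ε : ℝ, 0 < ε →
    ∃ e : ℂ, ‖e‖ = 1 ∧ ∀ e' : ℂ, ‖e'‖ ≤ 1 → kp N e' (Psg N e * b * Psg N e) ≤ ε

/-- BLOCK RZP (80 lines; uses CMM, FEX).  The cyclic projection: `R` = projection onto the closed span `𝓛`
of the `fe e g N (v k)`, `g` continuous.  `𝓛` is invariant under `fe e g N` and its adjoint.
Last part: for `T = R K`: `exists_fin_near` for `K`, `R x` is a limit of finite sums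
`∑ fe e (g k) N (v k)` (linear combinations: the functions with the same `k` add up). -/
def Stmt_RZP : Prop := ∀ (H : Type v) [NormedAddCommGroup H] [InnerProductSpace ℂ H]
    [CompleteSpace H] (N : H →L[ℂ] H) (e : ℂ), IsStarNormal N → ∀ (r : ℕ) (v : Fin r → H),
    ∃ R : H →L[ℂ] H, IsSelfAdjoint R ∧ R * R = R ∧ ‖R‖ ≤ 1 ∧ (∀ k, R (v k) = v k) ∧
      dt e N * R = R * dt e N ∧ (∀ g : ℝ → ℂ, Continuous g → fe e g N * R = R * fe e g N) ∧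
      ∀ K : H →L[ℂ] H, IsT K → ∀ ε : ℝ, 0 < ε → ∃ (n : ℕ) (g : Fin n → Fin r → ℝ → ℂ)
        (y : Fin n → H), (∀ i k, Continuous (g i k)) ∧
        n1 (R * K - ∑ i, r1 (∑ k, fe e (g i k) N (v k)) (y i)) < ε

/-- BLOCK CLE (250 lines; uses CMM, KMB, FEX).  `Z = dt e N`, `K = [Z, R b] = R [Z, b]`,
`b₀ = R b`.  For `h > 0`: `V = ∫₀¹ cj N (s e / h) b₀ ds`; `V - b₀` is trace class (Duhamel as PHB),
`[Z, V] = ∫₀¹ cj N (s e/h) K ds = - i h (cj N (e/h) b₀ - b₀)`, so its norm is `≤ 2 h ‖b‖`.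
Approximate `K` up to `ε` by `K₀ = ∑_i r1 (∑_k g_ik(Z) v_k) y_i`.
Cells of length `h/n` covering `[-R₀, R₀]`, `R₀ = ‖e‖ ‖N‖`: points `z_j`, tent functions `χ_j`
(`∑ χ_j = 1` on `[-R₀,R₀]`, support of radius `h/n`); `𝓛 = span {χ_j(Z) v_k}`, of dimension
`≤ r (2 R₀ n / h + 3)`, `Π` its projection.
`e^{isx/h} g(x) = ∑_j e^{is z_j/h} g(z_j) χ_j(x) + M_s(x) g(x) + ρ_s(x)`,
`M_s = ∑ (e^{isx/h} - e^{isz_j/h}) χ_j`, `|M_s| ≤ 1/n`, `|ρ_s| ≤ osc of g at scale h/n`.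
So `(1 - Π) ∫₀¹ cj N (se/h) K₀ ds = (1 - Π) ∫₀¹ (M_s(Z) K₀ + o(1)) ex N (-se/h) ds`: trace norm
`≤ (n1 K + ε)/n + o(1)`.  And `n1 (Π [Z, V]) ≤ dim 𝓛 ‖[Z, V]‖ ≤ r (2 R₀ n/h + 3) 2 h ‖b‖`.
Let `h → 0`, `ε → 0`; KMB (1). -/
def Stmt_CLE : Prop := ∀ (H : Type v) [NormedAddCommGroup H]
    [InnerProductSpace ℂ H] [CompleteSpace H] (N : H →L[ℂ] H) (e : ℂ), IsStarNormal N →
    ∀ (r : ℕ) (v : Fin r → H) (R : H →L[ℂ] H), ‖R‖ ≤ 1 →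
    (∀ g : ℝ → ℂ, Continuous g → fe e g N * R = R * fe e g N) → dt e N * R = R * dt e N →
    (∀ K : H →L[ℂ] H, IsT K → ∀ ε : ℝ, 0 < ε → ∃ (n : ℕ) (g : Fin n → Fin r → ℝ → ℂ)
        (y : Fin n → H), (∀ i k, Continuous (g i k)) ∧
        n1 (R * K - ∑ i, r1 (∑ k, fe e (g i k) N (v k)) (y i)) < ε) →
    ∀ b : H →L[ℂ] H, IsT (br (dt e N) b) → ∀ n : ℕ, 1 ≤ n →
      kp N e (R * b) ≤ 4 * n * r * (‖e‖ * ‖N‖) * ‖b‖ + n1 (br (dt e N) b) / n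

/-- BLOCK CLC (150 lines; uses CMM, KMB).  `Z = dt e' N`, `c = T₀ B`, `d_h = ∫_{-2}^{-1}
cj N (s e / h) d ds`, `V = c d_h`: `V - c d` is trace class (`d_h - d` is, as in PHB),
`[Z, V] = [Z, c] d_h + c [Z, d_h]`, `[Z, d_h] = ∫_{-2}^{-1} cj N (s e/h) K ds`, `K = [Z, d]`.
`n1 (c cj N (s e/h) K) ≤ n1 (cj N (-s e/h) c K)` (conjugate by `ex N (-s e/h)`), and
`cj N (τ e) c = cj N (τ e) T₀ cj N (τ e) B` with `τ = -s/h ≥ 1/h → ∞`: for trace class `K`,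
`n1 (cj N (τ e) B K) → 0` as `cj N (τ e) B → 0` strongly and is bounded (rank one operators and
`exists_fin_near`).  So `kp N e' (T₀ B d) ≤ n1 [Z, T₀ B] ‖d‖` by KMB (1), `h → 0`. -/
def Stmt_CLC : Prop := ∀ (H : Type v) [NormedAddCommGroup H]
    [InnerProductSpace ℂ H] [CompleteSpace H] (N B d T₀ : H →L[ℂ] H) (e e' : ℂ), IsStarNormal N →
    A1 N B → A1 N d → ‖T₀‖ ≤ 1 → dt e' N * T₀ = T₀ * dt e' N →
    (∀ ψ : H, Tendsto (fun t : ℝ => cj N (t * e) B ψ) atTop (𝓝 0)) →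
    kp N e' (T₀ * B * d) ≤ n1 (T₀ * br (dt e' N) B) * ‖d‖

/-- BLOCK PWR (250 lines; uses CMM, KMA, KMB, PAC, MIX, RZP, CLE, CLC).  `p = Pac N e`,
`s = Psg N e`, `Z = dt e' N`.  For `x ∈ A1`: `kp (s x p) = km (s [Z,x] p) = 0`, `kp (p x s) = 0`.
`kp (Ω^m) ≤ kp (p Ω^m p) + kp (s Ω^m s)`.
`s Ω^{m+1} s = (s Ω s)(s Ω^m s) + (s Ω p)(p Ω^m s)`: so `kp (s Ω^m s) ≤ m ε`.
`Ω̂ = p Ω p`; claim: for `x ∈ A1` with `p x = x`: `kp (x (p Ω^m p - Ω̂^m)) = 0` (`Ω̂^0 := p`):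
`x (p Ω^{m+1} p - Ω̂^{m+1}) = (x Ω̂)(p Ω^m p - Ω̂^m) + (p (x p Ω) s)(s Ω^m p)`.
`Ω̂^m - p = B d`, `B = Ω̂ - p`, `d = ∑_{j<m} Ω̂^j`, `‖d‖ ≤ m`, `‖Ω̂^m - p‖ ≤ 2`;
`cj N (t e) B ψ = p (cj N (t e) Ω (p ψ) - p ψ) → 0`.
Fix `η`, `n`: `n1 ([Z, B] - ∑_{k<r} r1 x_k y_k) ≤ η` for `Z = dt e' N`; `R` from RZP for `e'` and
`v = x`.  `kp (R (Ω̂^m - p)) ≤ 4 n r ‖N‖ 2 + m n1 [Z, Ω] / n` (CLE; `n1 [Z, Ω̂^m] ≤ m n1 [Z, Ω]`),
`kp ((1 - R) B d) ≤ n1 ((1 - R)[Z, B]) m ≤ η m` (CLC).  Choose `n`, `η`, then `m`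
(the same large `m` for `e' = 1` and `e' = i`). -/
def Stmt_PWR : Prop := ∀ (H : Type v) [NormedAddCommGroup H]
    [InnerProductSpace ℂ H] [CompleteSpace H] (N Ω : H →L[ℂ] H) (e : ℂ) (ε : ℝ), IsStarNormal N →
    Uni Ω → A1 N Ω → 0 ≤ ε →
    (∀ ψ ∈ Hac N e, Tendsto (fun t : ℝ => cj N (t * e) Ω ψ) atTop (𝓝 ψ)) →
    (∀ e' : ℂ, e' = 1 ∨ e' = Complex.I → kp N e' (Psg N e * Ω * Psg N e) ≤ ε) →
    ∀ η : ℝ, 0 < η → ∃ m : ℕ, 1 ≤ m ∧ ∀ e' : ℂ, e' = 1 ∨ e' = Complex.I →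
      kp N e' (Ω ^ m) ≤ m * (ε + η)

/-- BLOCK RED (120 lines; uses CMM, TFN, STB, PAC, PIG, WAU, PWR).  PIG for `Ω` and `ε`: direction `e`.
WAU: `S`.  `Ω' = Ω S^*` is unitary, in `A1`, `TU N Ω' = TU N Ω + TU N S^* = TU N Ω`;
`Psg Ω' Psg = Psg Ω Psg` (`S^* Psg = Psg`); `cj N (t e) Ω' ψ = cj N (t e) Ω (S^* ψ) → S S^* ψ = ψ` for
`ψ ∈ Hac`.  PWR: `m` with `kp N e' (Ω'^m) ≤ 2 ε m`.  STB for `Ω'^m` and `TU N (Ω'^m) = m TU N Ω`. -/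
def Stmt_RED : Prop := ∀ C₀ : ℝ, 0 ≤ C₀ → UB.{v} C₀ → ∀ (H : Type v)
    [NormedAddCommGroup H] [InnerProductSpace ℂ H] [CompleteSpace H]
    [TopologicalSpace.SeparableSpace H] (N Ω : H →L[ℂ] H), IsStarNormal N → Uni Ω → A1 N Ω →
    Apx (TU N Ω)

/-! ### D. Direct sums and the uniform bound -/

/-- `K` is the Hilbert sum of the `G k` via the isometries `i k`. -/
structure IsHS {ι : Type} (G : ι → Type v) [∀ k, NormedAddCommGroup (G k)]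
    [∀ k, InnerProductSpace ℂ (G k)] [∀ k, CompleteSpace (G k)] (K : Type v)
    [NormedAddCommGroup K] [InnerProductSpace ℂ K] [CompleteSpace K]
    (i : ∀ k, G k →L[ℂ] K) : Prop where
  iso : ∀ k, (ContinuousLinearMap.adjoint (i k)) ∘L (i k) = ContinuousLinearMap.id ℂ (G k)
  ort : ∀ k l, k ≠ l → (ContinuousLinearMap.adjoint (i k)) ∘L (i l) = 0
  sum : ∀ x : K, HasSum (fun k => i k ((ContinuousLinearMap.adjoint (i k)) x)) x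

/-- BLOCK LPA (150 lines).  Countable direct sums: `K = lp G 2`, `i k = lp.single`.
Separable: the span of the `i k (d)`, `d` in a countable dense set, is dense. -/
def Stmt_LPA : Prop := ∀ (ι : Type) [Countable ι] (G : ι → Type v)
    [∀ k, NormedAddCommGroup (G k)] [∀ k, InnerProductSpace ℂ (G k)] [∀ k, CompleteSpace (G k)]
    [∀ k, TopologicalSpace.SeparableSpace (G k)],
    ∃ (K : Type v) (_ : NormedAddCommGroup K) (_ : InnerProductSpace ℂ K) (_ : CompleteSpace K)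
      (_ : TopologicalSpace.SeparableSpace K) (i : ∀ k, G k →L[ℂ] K), IsHS G K i

/-- BLOCK LPB (150 lines).  Block diagonal operators: `A' x = ∑ i k (A k ((i k)^* x))`, norm `≤ M`
(Pythagoras).  Adjoints by density.
`cfc f A'`: `f` is a uniform limit of polynomials in `z, z̄` on a ball containing all spectra. -/
def Stmt_LPB : Prop := ∀ (ι : Type) [Countable ι] (G : ι → Type v)
    [∀ k, NormedAddCommGroup (G k)] [∀ k, InnerProductSpace ℂ (G k)] [∀ k, CompleteSpace (G k)]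
    (K : Type v) [NormedAddCommGroup K] [InnerProductSpace ℂ K] [CompleteSpace K]
    (i : ∀ k, G k →L[ℂ] K), IsHS G K i →
      (∀ (A : ∀ k, G k →L[ℂ] G k) (M : ℝ), (∀ k, ‖A k‖ ≤ M) → ∃ A' : K →L[ℂ] K,
        ∀ k, A' ∘L (i k) = (i k) ∘L (A k)) ∧
      (∀ (A' : K →L[ℂ] K) (A : ∀ k, G k →L[ℂ] G k), (∀ k, A' ∘L (i k) = (i k) ∘L (A k)) →
        (∀ k, (star A') ∘L (i k) = (i k) ∘L (star (A k))) ∧
        ((∀ k, IsStarNormal (A k)) → IsStarNormal A' ∧ ∀ f : ℂ → ℂ, Continuous f →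
          ∀ k, (cfc f A') ∘L (i k) = (i k) ∘L (cfc f (A k))))

/-- BLOCK LPC (80 lines; uses TRN).  Trace class sums: `∑ (i k) (A k) (i k)^*` converges in `S1 K` and its
operator is `A'`; the trace is continuous. -/
def Stmt_LPC : Prop := ∀ (ι : Type) [Countable ι] (G : ι → Type v)
    [∀ k, NormedAddCommGroup (G k)] [∀ k, InnerProductSpace ℂ (G k)] [∀ k, CompleteSpace (G k)]
    (K : Type v) [NormedAddCommGroup K] [InnerProductSpace ℂ K] [CompleteSpace K]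
    (i : ∀ k, G k →L[ℂ] K), IsHS G K i →
      ∀ (A' : K →L[ℂ] K) (A : ∀ k, G k →L[ℂ] G k), (∀ k, A' ∘L (i k) = (i k) ∘L (A k)) →
        (∀ k, IsT (A k)) → Summable (fun k => n1 (A k)) → IsT A' ∧
          HasSum (fun k => trO (A k)) (trO A')

/-- BLOCK SHF (200 lines; uses LPA, LPB, TRN, CMM).  `K = ℓ²(ℤ; H)` (LPA with `ι = ℤ`), `N̂ = N₁` on the
summands `k ≤ 0`, `N₂` on `k ≥ 1` (LPB); `Ω` the shift `Ω (i k x) = i (k+1) x`, unitary; `[N̂, Ω] (i k x) =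
i (k+1) ((N̂_{k+1} - N̂_k) x)`, nonzero only for `k = 0`: `[N̂, Ω] = i 1 (N₂ - N₁) (i 0)^*`, same for
adjoints.  `Ω^* f(N̂) Ω - f(N̂)` is `cor (i 0) (f(N₂) - f(N₁))`. -/
def Stmt_SHF : Prop := ∀ (H : Type v) [NormedAddCommGroup H] [InnerProductSpace ℂ H]
    [CompleteSpace H] [TopologicalSpace.SeparableSpace H] (N₁ N₂ : H →L[ℂ] H), IsStarNormal N₁ →
    IsStarNormal N₂ → IsT (N₂ - N₁) →
    ∃ (K : Type v) (_ : NormedAddCommGroup K) (_ : InnerProductSpace ℂ K) (_ : CompleteSpace K)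
      (_ : TopologicalSpace.SeparableSpace K) (N Ω : K →L[ℂ] K), IsStarNormal N ∧ Uni Ω ∧
      A1 N Ω ∧ ∀ f, Tst f → TU N Ω f = Tf N₁ N₂ f

/-- The Lipschitz bound for every pair (a consequence of Q1). -/
def LB : Prop := ∀ (H : Type v) [NormedAddCommGroup H] [InnerProductSpace ℂ H]
  [CompleteSpace H] [TopologicalSpace.SeparableSpace H] (N₁ N₂ : H →L[ℂ] H),
  IsStarNormal N₁ → IsStarNormal N₂ → IsT (N₂ - N₁) → ∃ C : ℝ, BdL (Tf N₁ N₂) C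

/-- BLOCK CUT (120 lines).  Scaled cut-offs.  `C₁` from a fixed bump function `χ₀` (`= 1` on the unit
ball, support in the ball of radius `2`): `F(z) = χ₀((z - w)/r) (f((z - w)/t) - f(0))`,
`|∇F| ≤ (1 + 2 sup |∇χ₀|) L / t`. -/
def Stmt_CUT : Prop := ∃ C₁ : ℝ, 1 ≤ C₁ ∧ ∀ (f : ℂ → ℂ) (L : ℝ) (w : ℂ) (r t : ℝ), Tst f →
    LipB f L → 0 < r → 0 < t → ∃ F : ℂ → ℂ, Tst F ∧ LipB F (C₁ * L / t) ∧
      (∀ z, ‖z - w‖ ≤ r → F z = f ((z - w) / t) - f 0) ∧ ∀ z, 2 * r ≤ ‖z - w‖ → F z = 0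

/-- BLOCK AFF (80 lines; uses TFN).  Affine images of a pair, and locality: if `F = f((z - w)/t) - f(0)` on a
ball containing both spectra of `w + t N_i` then `Tf (w + t N₁) (w + t N₂) F = Tf N₁ N₂ f`;
if `F = 0` there it is `0`. -/
def Stmt_AFF : Prop := ∀ (H : Type v) [NormedAddCommGroup H] [InnerProductSpace ℂ H]
    [CompleteSpace H] (N₁ N₂ : H →L[ℂ] H) (w : ℂ) (r t : ℝ), IsStarNormal N₁ → IsStarNormal N₂ →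
    IsT (N₂ - N₁) → 0 < t → t * ‖N₁‖ ≤ r → t * ‖N₂‖ ≤ r →
    IsStarNormal (w • (1 : H →L[ℂ] H) + (t : ℂ) • N₁) ∧
    IsT ((w • (1 : H →L[ℂ] H) + (t : ℂ) • N₂) - (w • (1 : H →L[ℂ] H) + (t : ℂ) • N₁)) ∧
    n1 ((w • (1 : H →L[ℂ] H) + (t : ℂ) • N₂) - (w • (1 : H →L[ℂ] H) + (t : ℂ) • N₁)) =
      t * n1 (N₂ - N₁) ∧
    ∀ F f : ℂ → ℂ, Tst F → Tst f →
      ((∀ z, ‖z - w‖ ≤ r → F z = f ((z - w) / t) - f 0) →
        Tf (w • (1 : H →L[ℂ] H) + (t : ℂ) • N₁) (w • (1 : H →L[ℂ] H) + (t : ℂ) • N₂) F =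
          Tf N₁ N₂ f) ∧
      ((∀ z, ‖z - w‖ ≤ r → F z = 0) →
        Tf (w • (1 : H →L[ℂ] H) + (t : ℂ) • N₁) (w • (1 : H →L[ℂ] H) + (t : ℂ) • N₂) F = 0)

/-- BLOCK GH (300 lines; uses TFN, LPA, LPB, LPC, CUT, AFF).  Gliding hump.  If no `C` works, for every `k : ℕ` there
are `H_k`, `N₁, N₂`, `f`, `L` with `‖Tf f‖ > (k+1)^4 n1 (N₂ - N₁) L`; then
`M_k = n1 (N₂ - N₁) > 0`, `L_k > 0` (a test function with zero gradient is `0`).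
`w_k = 2^{-k}`, `r_k = 2^{-k}/10`, `s_k = (k+1)^{-2}`; `t_k > 0` with `t_k ‖N_ik‖ ≤ r_k`,
`t_k M_k ≤ s_k`, and `m_k ∈ ℕ` with `s_k / 2 ≤ m_k t_k M_k ≤ s_k`.  LPA for the index set
`Σ k, Fin (m_k)` and the operators `w_k + t_k N_ik`.  `LB` for the sum: constant `K`.
`F_k` from CUT; `Tf F_k = m_k Tf N₁ N₂ f_k` (AFF; the balls `B(w_k, 2 r_k)` and `B(w_j, r_j)` are
disjoint for `j ≠ k`); `m_k (k+1)^4 M_k L_k ≤ K C₁ L_k / t_k`, so `(k+1)^2 / 2 ≤ K C₁` for all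
`k`: contradiction. -/
def Stmt_GH : Prop := LB.{v} → ∃ C : ℝ, 0 ≤ C ∧ UB.{v} C

/-! ### E. From translation continuity to densities -/

/-- BLOCK FA (80 lines).  `Apx → TrC`: `|τ(f) - τ(f(· + z))| ≤ ∑ |c_k| |f(a_k) - f(a_k + z)|
≤ ∑ |c_k| |z| L`. -/
def Stmt_FA : Prop := ∀ T : (ℂ → ℂ) → ℂ, Apx T → TrC T

/-- BLOCK FB (120 lines).  Hahn-Banach.  The subspace of the pairs `(f_x, f_y)` in
`(ℂ →ᵇ ℂ) × (ℂ →ᵇ ℂ)`; `T f` depends only on the pair (a test function with zero gradient is `0`,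
or the bound), `|T f| ≤ 2 K ‖(f_x, f_y)‖`. -/
def Stmt_FB : Prop := ∀ (T : (ℂ → ℂ) → ℂ) (K : ℝ), 0 ≤ K → IsLF T → BdL T K →
    ∃ Λ₁ Λ₂ : (ℂ →ᵇ ℂ) →L[ℂ] ℂ, ‖Λ₁‖ ≤ 2 * K ∧ ‖Λ₂‖ ≤ 2 * K ∧ ∀ f, Tst f → ∀ u v : ℂ →ᵇ ℂ,
      (∀ z, u z = fderiv ℝ f z 1) → (∀ z, v z = fderiv ℝ f z Complex.I) → T f = Λ₁ u + Λ₂ v

/-- BLOCK FC (200 lines).  Mollification.  `g(z) = Λ (φ(· - z))` is continuous
(`z ↦ φ(· - z)` is continuous into `ℂ →ᵇ ℂ`); for continuous `u` with compact support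
`∫ u(z) g(z) dz = Λ (∫ u(z) φ(· - z) dz) = Λ (u * φ)` (Bochner integral).
`L¹` bound: for continuous `u` with compact support and `|u| ≤ 1`: `|∫ u g| ≤ ‖Λ‖ ∫ φ`; take
`u = χ_R conj(g) / sqrt(|g|² + δ)`, `δ → 0`, `R → ∞` (monotone convergence). -/
def Stmt_FC : Prop := ∀ (Λ : (ℂ →ᵇ ℂ) →L[ℂ] ℂ) (φ : ℂ → ℝ), ContDiff ℝ (⊤ : ℕ∞) φ →
    HasCompactSupport φ → (∀ z, 0 ≤ φ z) → ∃ g : ℂ → ℂ, Continuous g ∧ Integrable g ∧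
      ∫ z, ‖g z‖ ≤ ‖Λ‖ * ∫ z, φ z ∧
      ∀ (u : ℂ → ℂ) (U : ℂ →ᵇ ℂ), Continuous u → HasCompactSupport u →
        (∀ w, U w = ∫ z : ℂ, u z * (φ (w - z) : ℂ)) → Λ U = ∫ z, u z * g z

/-- BLOCK FD (100 lines).  `L¹` densities are translation continuous:
`∫ (f_x(z) - f_x(z + w)) g(z) dz = ∫ f_x(z) (g(z) - g(z - w)) dz` and continuity of translations in
`L¹`; bound `‖∇f‖ ≤ L`. -/
def Stmt_FD : Prop := ∀ g₁ g₂ : ℂ → ℂ, Integrable g₁ → Integrable g₂ →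
    IsLF (Dg g₁ g₂) ∧ TrC (Dg g₁ g₂) ∧ BdL (Dg g₁ g₂) ((∫ z, ‖g₁ z‖) + ∫ z, ‖g₂ z‖)

/-- BLOCK FE (200 lines; uses FB, FC, FD).  One step.  `Λ₁, Λ₂` from FB, a bump `φ ≥ 0`, `∫ φ = 1`,
supported in the `δ`-ball (`δ` from `TrC` with `ε = K/2`), `g_i` from FC.  For a test function `f`:
`Dg g₁ g₂ f = Λ₁ (f_x * φ) + Λ₂ (f_y * φ)` and
`f_x - f_x * φ = ∫ φ(z) (f_x - f_x(· - z)) dz` (Bochner integral in `ℂ →ᵇ ℂ`), so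
`T f - Dg g₁ g₂ f = ∫ φ(z) (T f - T (f(· - z))) dz`, at most `K/2 L`. -/
def Stmt_FE : Prop := ∀ (T : (ℂ → ℂ) → ℂ) (K : ℝ), 0 < K → IsLF T → BdL T K → TrC T →
    ∃ g₁ g₂ : ℂ → ℂ, Integrable g₁ ∧ Integrable g₂ ∧ (∫ z, ‖g₁ z‖) + (∫ z, ‖g₂ z‖) ≤ 4 * K ∧
      BdL (fun f => T f - Dg g₁ g₂ f) (K / 2)

/-- BLOCK FF (150 lines; uses FD, FE).  Iteration: `T_{n+1} = T_n - Dg g₁ⁿ g₂ⁿ`, `BdL T_n (K 2^{-n})`,
`∫ ‖gⁿ‖ ≤ 4 K 2^{-n}`; `g = ∑ gⁿ` in `L¹`. -/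
def Stmt_FF : Prop := ∀ (T : (ℂ → ℂ) → ℂ) (K : ℝ), IsLF T → BdL T K → TrC T →
    ∃ g₁ g₂ : ℂ → ℂ, Integrable g₁ ∧ Integrable g₂ ∧ ∀ f, Tst f → T f = Dg g₁ g₂ f

/-- BLOCK BND (the theorem for bounded normal operators; uses GH, SHF, RED, FA, FF, TFN). -/
def Stmt_BND : Prop := LB.{v} → ∀ (H : Type v) [NormedAddCommGroup H] [InnerProductSpace ℂ H]
    [CompleteSpace H] [TopologicalSpace.SeparableSpace H] (N₁ N₂ : H →L[ℂ] H), IsStarNormal N₁ →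
    IsStarNormal N₂ → IsT (N₂ - N₁) → ∃ g₁ g₂ : ℂ → ℂ, Integrable g₁ ∧ Integrable g₂ ∧
      ∀ f, Tst f → Tf N₁ N₂ f = Dg g₁ g₂ f

end Pool.Q2
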