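import Pool.Agent.Work.MP_8c7e5b_q2.Interface2

/-!
# MP_8c7e5b_an, Q2 (absolutely continuous measures): unbounded normal operators

A (possibly unbounded) normal operator is a partially defined operator `N` with its functional
calculus `π f = f(N)`, `f ∈ C₀(ℂ)`: a nondegenerate star homomorphism `π : C₀(ℂ) → B(H)` such that
`(x, y)` is in the graph of `N` iff `(z f)(N) x = f(N) y` for all `f ∈ C₀` with `z f ∈ C₀`.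
-/

open MeasureTheory Complex Filter Topology
open scoped ComplexOrder InnerProductSpace ComplexConjugate BoundedContinuousFunction ZeroAtInfty

set_option autoImplicit false
set_option linter.unusedSectionVars false

universe v

namespace Pool.Q2

open Pool.Bes

section Defs

variable {H : Type v} [NormedAddCommGroup H] [InnerProductSpace ℂ H] [CompleteSpace H]

/-- `π` is the functional calculus `f ↦ f(N)`, `f ∈ C₀(ℂ)`, of the normal operator `N`. -/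
def IsCalc (N : H →ₗ.[ℂ] H) (π : C₀(ℂ, ℂ) →⋆ₙₐ[ℂ] (H →L[ℂ] H)) : Prop :=
  (∀ x : H, (∀ f, π f x = 0) → x = 0) ∧
  ∀ x y : H, (x, y) ∈ N.graph ↔ ∀ f g : C₀(ℂ, ℂ), (∀ z : ℂ, g z = z * f z) → π g x = π f y

/-- `N₂ - N₁ = D`: equal domains and `N₂ x = N₁ x + D x`. -/
def Diff (N₁ N₂ : H →ₗ.[ℂ] H) (D : H →L[ℂ] H) : Prop :=
  ∀ x y : H, (x, y) ∈ N₁.graph ↔ (x, y + D x) ∈ N₂.graph

/-- The trace formula with the complex measures `g₁ μ`, `g₂ μ`. -/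
def Formula (π₁ π₂ : C₀(ℂ, ℂ) →⋆ₙₐ[ℂ] (H →L[ℂ] H)) (μ : Measure ℂ) (g₁ g₂ : ℂ → ℂ) : Prop :=
  ∀ f : C₀(ℂ, ℂ), ContDiff ℝ (⊤ : ℕ∞) f → HasCompactSupport f →
    HasTrace (π₂ f - π₁ f)
      ((∫ z : ℂ, fderiv ℝ f z 1 * g₁ z ∂μ) + ∫ z : ℂ, fderiv ℝ f z Complex.I * g₂ z ∂μ)

open Classical in
/-- `tr (f(N₂) - f(N₁))` as a functional on all functions -/
noncomputable def Tp (π₁ π₂ : C₀(ℂ, ℂ) →⋆ₙₐ[ℂ] (H →L[ℂ] H)) (f : ℂ → ℂ) : ℂ :=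
  if h : ∃ F : C₀(ℂ, ℂ), ∀ z, F z = f z then trO (π₂ h.choose - π₁ h.choose) else 0

/-- the calculus `Φ` of bounded continuous functions extends `π` -/
structure IsExt (π : C₀(ℂ, ℂ) →⋆ₙₐ[ℂ] (H →L[ℂ] H))
    (Φ : (ℂ →ᵇ ℂ) →⋆ₐ[ℂ] (H →L[ℂ] H)) : Prop where
  ext : ∀ (f : C₀(ℂ, ℂ)) (F : ℂ →ᵇ ℂ), (∀ z, F z = f z) → Φ F = π f
  norm : ∀ F : ℂ →ᵇ ℂ, ‖Φ F‖ ≤ ‖F‖
  lim : ∀ (F : ℕ → ℂ →ᵇ ℂ) (G : ℂ →ᵇ ℂ) (M : ℝ), (∀ n, ‖F n‖ ≤ M) →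
    TendstoLocallyUniformly (fun n z => F n z) (fun z => G z) atTop →
    ∀ x : H, Tendsto (fun n => Φ (F n) x) atTop (𝓝 (Φ G x))

end Defs

/-- Q1: the trace formula with finite complex measures, for all pairs of normal operators. -/
def Q1 : Prop := ∀ (H : Type v) [NormedAddCommGroup H] [InnerProductSpace ℂ H]
  [CompleteSpace H] [TopologicalSpace.SeparableSpace H] (N₁ N₂ : H →ₗ.[ℂ] H)
  (π₁ π₂ : C₀(ℂ, ℂ) →⋆ₙₐ[ℂ] (H →L[ℂ] H)), IsCalc N₁ π₁ → IsCalc N₂ π₂ →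
  ∀ (D : H →L[ℂ] H) (M : ℝ), TraceNormLE D M → Diff N₁ N₂ D →
  ∃ (μ : Measure ℂ) (g₁ g₂ : ℂ → ℂ), IsFiniteMeasure μ ∧ Integrable g₁ μ ∧ Integrable g₂ μ ∧
    Formula π₁ π₂ μ g₁ g₂

/-- The conclusion of Q2: the same with absolutely continuous measures. -/
def Q1ac : Prop := ∀ (H : Type v) [NormedAddCommGroup H] [InnerProductSpace ℂ H]
  [CompleteSpace H] [TopologicalSpace.SeparableSpace H] (N₁ N₂ : H →ₗ.[ℂ] H)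
  (π₁ π₂ : C₀(ℂ, ℂ) →⋆ₙₐ[ℂ] (H →L[ℂ] H)), IsCalc N₁ π₁ → IsCalc N₂ π₂ →
  ∀ (D : H →L[ℂ] H) (M : ℝ), TraceNormLE D M → Diff N₁ N₂ D →
  ∃ g₁ g₂ : ℂ → ℂ, Integrable g₁ ∧ Integrable g₂ ∧ Formula π₁ π₂ volume g₁ g₂

/-- BLOCK UTR (60 lines; uses NUC).  Traces.  `HasTrace` is unique (a separable space has a countable
Hilbert basis); `HasTrace T (trO T)` for trace class `T` (`Pool.Bes.blk_HT`); a nuclear
representation gives a trace class operator (`TnBlock.sum_vS`) and conversely (NUC). -/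
def Stmt_UTR : Prop := ∀ (H : Type v) [NormedAddCommGroup H] [InnerProductSpace ℂ H]
    [CompleteSpace H] [TopologicalSpace.SeparableSpace H],
    (∀ (T : H →L[ℂ] H) (c c' : ℂ), HasTrace T c → HasTrace T c' → c = c') ∧
    (∀ T : H →L[ℂ] H, IsT T → HasTrace T (trO T)) ∧
    (∀ (T : H →L[ℂ] H) (M : ℝ), TraceNormLE T M → IsT T ∧ n1 T ≤ M) ∧
    (∀ T : H →L[ℂ] H, IsT T → TraceNormLE T (n1 T))

/-- BLOCK U0 (120 lines; uses UTR).  Bounded normal operators: `π f = cfc f N`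
(a star homomorphism; `f ∈ C₀(ℂ)` with `f = 1` on the spectrum has `π f = 1`), `N` as a
partially defined operator on `⊤`.  Graph: if `(z f)(N) x = f(N) y` for all `f`, take `f = 1` on the
spectrum.  Then Q1 gives the bound: `|∫ f_x g₁ dμ + ∫ f_y g₂ dμ| ≤ L (∫ |g₁| dμ + ∫ |g₂| dμ)`. -/
def Stmt_U0 : Prop := Q1.{v} → LB.{v}

/-- BLOCK U1 (250 lines).  The extension.  Choose `χ n ∈ C₀` with `0 ≤ χ n ≤ 1`, `χ n = 1` on the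
ball of radius `n`; `π (χ n) x → x` (for `x = π f y`: `χ n f → f` uniformly; these `x` span a dense
subspace by nondegeneracy: a vector orthogonal to all `π f y` is killed by all `π f`).
`Φ F x = lim π (F χ n) x` (exists for `x = π f y`: `F χ n f → F f` uniformly; norms `≤ ‖F‖`).
`Φ F (π f y) = π (F f) y`; multiplicative, star, unital by this formula and density; `lim` in the
same way: `F n · f → G · f` uniformly for `f ∈ C₀` (bounded, locally uniform). -/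
def Stmt_U1 : Prop := ∀ (H : Type v) [NormedAddCommGroup H] [InnerProductSpace ℂ H]
    [CompleteSpace H] (π : C₀(ℂ, ℂ) →⋆ₙₐ[ℂ] (H →L[ℂ] H)), (∀ x : H, (∀ f, π f x = 0) → x = 0) →
    ∃ Φ : (ℂ →ᵇ ℂ) →⋆ₐ[ℂ] (H →L[ℂ] H), IsExt π Φ

/-- BLOCK U2 (250 lines; uses CMM).  The resolvent identity for `X_e = e · N`, `r(z) = 1/(e · z + i c)`,
`D_e = dt e D`: `Φ₂(r) - Φ₁(r) = - Φ₂(r) D_e Φ₁(r)`.
Let `x = π₁ ψ y`, `ψ` continuous with compact support, `u = Φ₁(r) x = π₁ (r ψ) y`.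
(a) `(u, π₁(z r ψ) y)` is in the graph of `N₁`, so `(u, π₁(z r ψ) y + D u)` is in the graph of `N₂`:
`π₂(z f) u = π₂ f (π₁(z r ψ) y + D u)` for continuous `f` with compact support.
(b) the same for adjoints: `π₂(z̄ f) u = π₂ f (π₁(z̄ r ψ) y + D^* u)`: for `v : H` put
`w = π₂(f̄) v`; `(w, π₂(z f̄) v)` is in the graph of `N₂`, so `(w, π₂(z f̄) v - D w)` is in the graph of
`N₁`; with `χ = 1` on the support of `ψ`, `χ` real: `u = π₁ χ u` and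
`⟪π₂(z f̄) v - D w, u⟫ = ⟪π₁ χ (π₂(z f̄) v - D w), u⟫ = ⟪π₁(z χ) w, u⟫ = ⟪w, π₁(z̄ χ) u⟫ =
⟪w, π₁(z̄ r ψ) y⟫`; so `⟪v, π₂(z̄ f) u⟫ = ⟪π₂(z f̄) v, u⟫ = ⟪w, π₁(z̄ r ψ) y + D^* u⟫`.
(c) combine: `π₂((e·z + i c) f) u = π₂ f (x + D_e u)` since `(e·z + i c) r ψ = ψ`; put `r f` for `f`:
`π₂ f u = π₂ (r f) (x + D_e u) = π₂ f Φ₂(r) (x + D_e u)` for all `f`, so `u = Φ₂(r)(x + D_e u)`.
(d) the vectors `π₁ ψ y` span a dense subspace. -/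
def Stmt_U2 : Prop := ∀ (H : Type v) [NormedAddCommGroup H] [InnerProductSpace ℂ H]
    [CompleteSpace H] (N₁ N₂ : H →ₗ.[ℂ] H) (π₁ π₂ : C₀(ℂ, ℂ) →⋆ₙₐ[ℂ] (H →L[ℂ] H))
    (Φ₁ Φ₂ : (ℂ →ᵇ ℂ) →⋆ₐ[ℂ] (H →L[ℂ] H)) (D : H →L[ℂ] H), IsCalc N₁ π₁ → IsCalc N₂ π₂ →
    IsExt π₁ Φ₁ → IsExt π₂ Φ₂ → Diff N₁ N₂ D → ∀ (e : ℂ) (c : ℝ) (r : ℂ →ᵇ ℂ), 0 < c →
    (∀ z : ℂ, r z = 1 / ((ip e z : ℝ) + Complex.I * c)) →
    Φ₂ r - Φ₁ r = -(Φ₂ r * dt e D * Φ₁ r)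

/-- BLOCK U3 (200 lines; uses U2).  `arctan x = ∫₀¹ g_c(x) dc`, `g_c(x) = x/(1 + c² x²)
= (1/(2c²)) (1/(x + i/c) + 1/(x - i/c))`.  With `r_c(z) = 1/(e·z + i/c)`, `‖r_c‖ ≤ c`:
`Φ₂(g_c) - Φ₁(g_c) = (1/(2c²)) (A_c + A_c^*)`, `A_c = - Φ₂(r_c) D_e Φ₁(r_c)`, `n1 A_c ≤ c² n1 D_e`; a
continuous function of `c ∈ (0, 1]` in `S1`, bounded by `n1 D_e`; its integral `J ∈ S1`.
`∫_δ^1 Φ_i(g_c) dc = Φ_i(arctan (e·z) - arctan (δ e·z))`, and `Φ_i(arctan(δ e·z)) x → 0` as `δ → 0`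
by `IsExt.lim`.  So `op J = Φ₂(arctan) - Φ₁(arctan)`. -/
def Stmt_U3 : Prop := ∀ (H : Type v) [NormedAddCommGroup H] [InnerProductSpace ℂ H]
    [CompleteSpace H] (N₁ N₂ : H →ₗ.[ℂ] H) (π₁ π₂ : C₀(ℂ, ℂ) →⋆ₙₐ[ℂ] (H →L[ℂ] H))
    (Φ₁ Φ₂ : (ℂ →ᵇ ℂ) →⋆ₐ[ℂ] (H →L[ℂ] H)) (D : H →L[ℂ] H), IsCalc N₁ π₁ → IsCalc N₂ π₂ →
    IsExt π₁ Φ₁ → IsExt π₂ Φ₂ → Diff N₁ N₂ D → IsT D → ∀ (e : ℂ) (h : ℂ →ᵇ ℂ),
    (∀ z : ℂ, h z = (Real.arctan (ip e z) : ℝ)) → IsT (Φ₂ h - Φ₁ h)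

/-- the map `x + i y ↦ arctan x + i arctan y` -/
noncomputable def Sq (z : ℂ) : ℂ := (Real.arctan z.re : ℝ) + (Real.arctan z.im : ℝ) * Complex.I

/-- BLOCK U4 (120 lines).  `M = Φ(Sq)` is a bounded normal operator and `cfc F M = Φ(F ∘ Sq)` for
continuous `F`: true for polynomials in `z, z̄`, then by uniform approximation on a ball
containing the spectrum of `M` and the values of `Sq` (or: uniqueness of `cfc`). -/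
def Stmt_U4 : Prop := ∀ (H : Type v) [NormedAddCommGroup H] [InnerProductSpace ℂ H]
    [CompleteSpace H] (Φ : (ℂ →ᵇ ℂ) →⋆ₐ[ℂ] (H →L[ℂ] H)) (S : ℂ →ᵇ ℂ), (∀ F, ‖Φ F‖ ≤ ‖F‖) →
    (∀ z, S z = Sq z) → IsStarNormal (Φ S) ∧ ∀ (F : ℂ → ℂ) (G : ℂ →ᵇ ℂ), Continuous F →
      (∀ z, G z = F (Sq z)) → cfc F (Φ S) = Φ G

/-- BLOCK U5 (150 lines, calculus only).  `F(u + i v) = f(tan u + i tan v)` on the open square
`(-π/2, π/2)²`, `0` outside; the support is a compact subset of the open square. -/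
def Stmt_U5 : Prop := ∀ f : ℂ → ℂ, Tst f → ∃ F : ℂ → ℂ, Tst F ∧ (∀ z, F (Sq z) = f z) ∧
    (∀ z : ℂ, fderiv ℝ F (Sq z) 1 = (1 + z.re ^ 2 : ℝ) * fderiv ℝ f z 1) ∧
    (∀ z : ℂ, fderiv ℝ F (Sq z) Complex.I = (1 + z.im ^ 2 : ℝ) * fderiv ℝ f z Complex.I) ∧
    ∀ w : ℂ, w ∉ Set.range Sq → ∀ d : ℂ, fderiv ℝ F w d = 0

/-- BLOCK U6 (150 lines, calculus only).  Change of variables `w = Sq z` (Jacobian
`1/((1 + x²)(1 + y²))`, injective, derivative diagonal):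
`∫ F_x g₁ = ∫ f_x(z) g₁(Sq z)/(1 + y²) dz`.  `k₁(z) = g₁(Sq z)/(1 + y²)`,
`k₂(z) = g₂(Sq z)/(1 + x²)`; `|k₁|/(1 + x²)` is integrable. -/
def Stmt_U6 : Prop := ∀ g₁ g₂ : ℂ → ℂ, Integrable g₁ → Integrable g₂ →
    ∃ k₁ k₂ : ℂ → ℂ, LocallyIntegrable k₁ ∧ LocallyIntegrable k₂ ∧
      ∀ f F : ℂ → ℂ, Tst f → Tst F →
      (∀ z : ℂ, fderiv ℝ F (Sq z) 1 = (1 + z.re ^ 2 : ℝ) * fderiv ℝ f z 1) →
      (∀ z : ℂ, fderiv ℝ F (Sq z) Complex.I = (1 + z.im ^ 2 : ℝ) * fderiv ℝ f z Complex.I) →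
      (∀ w : ℂ, w ∉ Set.range Sq → ∀ d : ℂ, fderiv ℝ F w d = 0) → Dg g₁ g₂ F = Dg k₁ k₂ f

/-- BLOCK U7 (250 lines, analysis on `ℂ` only).  From local to global.  Let `ε > 0`, `R ≥ 2` with
`∫_{|z| > R - 1} (|g₁| + |g₂|) dμ` small; `χ` a cut-off, `χ = 1` on `B_R`, support in `B_{2R}`,
`|∇χ| ≤ C/R` (scaled bump function).  For a test function `f` with `|∇f| ≤ L` put
`u = χ (f - f(0))`, `|∇u| ≤ (1 + 2C) L`, `∇u = ∇f` on `B_R`.  For `|z| ≤ 1`: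
`T f - T f(·+z) - (T u - T u(·+z)) = ∫ ...`, the integrand vanishes on `B_{R-1}`, bounded by
`2 (2 + 2C) L`; and `T u - T u(·+z) = ∫ (∇u - ∇u(·+z)) · k = ∫ ∇u · (k̃ - k̃(· - z))` with
`k̃ = k 1_{B_{2R+2}}` integrable (`∇u` and `∇u(·+z)` are supported in `B_{2R+1}`), which tends to `0` with
`z`, uniformly (continuity of translations in `L¹`). -/
def Stmt_U7 : Prop := ∀ (T : (ℂ → ℂ) → ℂ) (μ : Measure ℂ) (g₁ g₂ k₁ k₂ : ℂ → ℂ),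
    IsFiniteMeasure μ → Integrable g₁ μ → Integrable g₂ μ →
    (∀ f, Tst f → T f = (∫ z : ℂ, fderiv ℝ f z 1 * g₁ z ∂μ) +
      ∫ z : ℂ, fderiv ℝ f z Complex.I * g₂ z ∂μ) →
    LocallyIntegrable k₁ → LocallyIntegrable k₂ → (∀ f, Tst f → T f = Dg k₁ k₂ f) →
    IsLF T ∧ (∃ K : ℝ, BdL T K) ∧ TrC T

/-- BLOCK U8 (120 lines; uses U1, U3, U4, U5, U6, UTR, BND, TFN, CMM).  Local densities: `Φ_i` from U1,
`M_i = Φ_i(Sq)`, `M₂ - M₁` trace class by U3 for `e = 1` and `e = i`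
(`Sq = arctan(1·z) + i arctan(i·z)`); BND for `M₁, M₂`; for a test function `f`, `F` from U5:
`π_i f = Φ_i(F ∘ Sq) = cfc F M_i`, so `π₂ f - π₁ f` is trace class and
`Tp π₁ π₂ f = Tf M₁ M₂ F = Dg g₁ g₂ F = Dg k₁ k₂ f` (U6). -/
def Stmt_U8 : Prop := LB.{v} → ∀ (H : Type v) [NormedAddCommGroup H] [InnerProductSpace ℂ H]
    [CompleteSpace H] [TopologicalSpace.SeparableSpace H] (N₁ N₂ : H →ₗ.[ℂ] H)
    (π₁ π₂ : C₀(ℂ, ℂ) →⋆ₙₐ[ℂ] (H →L[ℂ] H)) (D : H →L[ℂ] H), IsCalc N₁ π₁ → IsCalc N₂ π₂ →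
    IsT D → Diff N₁ N₂ D →
    (∀ f : C₀(ℂ, ℂ), Tst f → IsT (π₂ f - π₁ f) ∧ Tp π₁ π₂ f = trO (π₂ f - π₁ f)) ∧
    ∃ k₁ k₂ : ℂ → ℂ, LocallyIntegrable k₁ ∧ LocallyIntegrable k₂ ∧
      ∀ f, Tst f → Tp π₁ π₂ f = Dg k₁ k₂ f

/-- BLOCK UFI (100 lines; uses UTR, U0, U7, U8, FF).  Q1 for the pair: `T = Tp π₁ π₂` is given by
finite measures (uniqueness of the trace); U8: local densities; U7: `TrC T`; FF: global
densities; `HasTrace` from UTR. -/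
def Stmt_UFI : Prop := Q1.{v} → Q1ac.{v}

end Pool.Q2
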