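import Pool.Agent.Work.MP_8c7e5b_q2.Interface3
import Pool.Agent.Work.MP_8c7e5b_q2.FFn

/-!
# MP_8c7e5b_an, Q2: the strong form

Only Q1 for bounded normal operators is assumed; the conclusion is for all normal operators, with
`∫ |g₁| + ∫ |g₂| ≤ C ‖N₂ - N₁‖₁`.
-/

open MeasureTheory Complex Filter Topology
open scoped ComplexOrder InnerProductSpace ComplexConjugate BoundedContinuousFunction ZeroAtInfty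

set_option autoImplicit false
set_option linter.unusedSectionVars false

universe v

namespace Pool.Q2

open Pool.Bes

/-- BLOCK U3n (with U3): the norm bound. -/
def Stmt_U3n : Prop := ∀ (H : Type v) [NormedAddCommGroup H] [InnerProductSpace ℂ H]
    [CompleteSpace H] (N₁ N₂ : H →ₗ.[ℂ] H) (π₁ π₂ : C₀(ℂ, ℂ) →⋆ₙₐ[ℂ] (H →L[ℂ] H))
    (Φ₁ Φ₂ : (ℂ →ᵇ ℂ) →⋆ₐ[ℂ] (H →L[ℂ] H)) (D : H →L[ℂ] H), IsCalc N₁ π₁ → IsCalc N₂ π₂ →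
    IsExt π₁ Φ₁ → IsExt π₂ Φ₂ → Diff N₁ N₂ D → IsT D → ∀ (e : ℂ) (h : ℂ →ᵇ ℂ),
    (∀ z : ℂ, h z = (Real.arctan (ip e z) : ℝ)) →
    IsT (Φ₂ h - Φ₁ h) ∧ n1 (Φ₂ h - Φ₁ h) ≤ n1 (dt e D)

/-- BLOCK DIL (100 lines).  Dilation: `π' f = π (f(δ ·))`, `N' = δ N` (a partially defined operator with
the same domain). -/
def Stmt_DIL : Prop := ∀ (H : Type v) [NormedAddCommGroup H] [InnerProductSpace ℂ H]
    [CompleteSpace H] (N : H →ₗ.[ℂ] H) (π : C₀(ℂ, ℂ) →⋆ₙₐ[ℂ] (H →L[ℂ] H)) (δ : ℝ), IsCalc N π →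
    0 < δ → ∃ (N' : H →ₗ.[ℂ] H) (π' : C₀(ℂ, ℂ) →⋆ₙₐ[ℂ] (H →L[ℂ] H)), IsCalc N' π' ∧
      (∀ f g : C₀(ℂ, ℂ), (∀ z : ℂ, g z = f (δ * z)) → π' f = π g) ∧
      ∀ x y : H, (x, y) ∈ N.graph ↔ (x, (δ : ℂ) • y) ∈ N'.graph

/-- BLOCK U9 (200 lines; uses U1, U3n, U4, U5, TFN, DIL).  The uniform bound for unbounded pairs.
Let `f` be a test function supported in `B_R`, `|∇f| ≤ L`, and `0 < δ ≤ 1`.  DIL: pairs `N_i' , π_i'`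
with difference `δ D`; `f_δ(z) = f(z/δ)`, `π_i' f_δ = π_i f`, so `Tp π₁' π₂' f_δ = Tp π₁ π₂ f`.
`Φ_i` (U1) for `π_i'`, `M_i = Φ_i(Sq)`, `n1 (M₂ - M₁) ≤ n1 (dt 1 (δ D)) + n1 (dt i (δ D)) ≤ 2 δ n1 D`
(U3n); `F` from U5 for `f_δ`: `π_i' f_δ = Φ_i(F ∘ Sq) = cfc F M_i` (U4), so
`Tp π₁' π₂' f_δ = Tf M₁ M₂ F`.  `fderiv F (Sq z) (s + i t) = fderiv f_δ z ((1 + x²) s + i (1 + y²) t)`
and `|x|, |y| ≤ δ R` on the support of `f_δ`: `LipB F ((1 + δ² R²) L / δ)`.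
`UB C₀`: `‖Tp π₁ π₂ f‖ ≤ 2 C₀ n1 D (1 + δ² R²) L`; `δ → 0`. -/
def Stmt_U9 : Prop := ∀ C₀ : ℝ, 0 ≤ C₀ → UB.{v} C₀ → ∀ (H : Type v) [NormedAddCommGroup H]
    [InnerProductSpace ℂ H] [CompleteSpace H] [TopologicalSpace.SeparableSpace H]
    (N₁ N₂ : H →ₗ.[ℂ] H) (π₁ π₂ : C₀(ℂ, ℂ) →⋆ₙₐ[ℂ] (H →L[ℂ] H)) (D : H →L[ℂ] H),
    IsCalc N₁ π₁ → IsCalc N₂ π₂ → IsT D → Diff N₁ N₂ D → BdL (Tp π₁ π₂) (2 * C₀ * n1 D)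

/-- BLOCK U7b (200 lines; uses FB).  From local to global, with the bound instead of the measures.
`Λ₁, Λ₂` from FB.  Tightness: for a bounded functional `Λ` on `ℂ →ᵇ ℂ` and `ε > 0` there is `R` with
`‖Λ u‖ ≤ ε ‖u‖` for all continuous `u` with compact support and `u = 0` on `B_R` (otherwise there are
`u_1, u_2, ...` with disjoint supports, `‖u_n‖ ≤ 1`, `re Λ u_n ≥ ε / 2`; sums of `m` of them have norm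
`≤ 1` and `Λ`-value `≥ m ε / 2`).  The rest as in U7: `T f - T f(·+z) - (T u - T u(·+z)) =
Λ₁ v₁ + Λ₂ v₂` where `v₁, v₂` are the partial derivatives of `(f - u) - (f - u)(·+z)`, supported off
`B_{R-1}`, `‖v_i‖ ≤ 2 (2 + 2 C) L`. -/
def Stmt_U7b : Prop := Stmt_FB → ∀ (T : (ℂ → ℂ) → ℂ) (K : ℝ) (k₁ k₂ : ℂ → ℂ), IsLF T → BdL T K →
    LocallyIntegrable k₁ → LocallyIntegrable k₂ → (∀ f, Tst f → T f = Dg k₁ k₂ f) → TrC T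

/-- Q1 for bounded normal operators. -/
def Q1b : Prop := ∀ (H : Type v) [NormedAddCommGroup H] [InnerProductSpace ℂ H]
  [CompleteSpace H] [TopologicalSpace.SeparableSpace H] (N₁ N₂ : H →L[ℂ] H), IsStarNormal N₁ →
  IsStarNormal N₂ → ∀ M : ℝ, TraceNormLE (N₂ - N₁) M →
  ∃ (μ : Measure ℂ) (g₁ g₂ : ℂ → ℂ), IsFiniteMeasure μ ∧ Integrable g₁ μ ∧ Integrable g₂ μ ∧
    ∀ f : ℂ → ℂ, ContDiff ℝ (⊤ : ℕ∞) f → HasCompactSupport f → HasTrace (cfc f N₂ - cfc f N₁)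
      ((∫ z : ℂ, fderiv ℝ f z 1 * g₁ z ∂μ) + ∫ z : ℂ, fderiv ℝ f z Complex.I * g₂ z ∂μ)

/-- BLOCK QLB (60 lines; uses UTR, TFN). -/
def Stmt_QLB : Prop := Q1b.{v} → LB.{v}

/-- The strong form: all normal operators, with a uniform bound. -/
def Q1acC (C : ℝ) : Prop := ∀ (H : Type v) [NormedAddCommGroup H] [InnerProductSpace ℂ H]
  [CompleteSpace H] [TopologicalSpace.SeparableSpace H] (N₁ N₂ : H →ₗ.[ℂ] H)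
  (π₁ π₂ : C₀(ℂ, ℂ) →⋆ₙₐ[ℂ] (H →L[ℂ] H)), IsCalc N₁ π₁ → IsCalc N₂ π₂ →
  ∀ (D : H →L[ℂ] H) (M : ℝ), TraceNormLE D M → Diff N₁ N₂ D →
  ∃ g₁ g₂ : ℂ → ℂ, Integrable g₁ ∧ Integrable g₂ ∧ (∫ z, ‖g₁ z‖) + (∫ z, ‖g₂ z‖) ≤ C * M ∧
    Formula π₁ π₂ volume g₁ g₂

/-- BLOCK FIN (100 lines; uses QLB, GH, U8, U9, U7b, FB, FFn, UTR). -/
def Stmt_FIN : Prop := Q1b.{v} → ∃ C : ℝ, Q1acC.{v} C

end Pool.Q2
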