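import Pool.Agent.Work.MP_8c7e5b_q2.Interface4

/-!
# MP_8c7e5b_an, Q2: the functional calculus of a classical normal operator

`N` densely defined, closed, `dom N^* = dom N`, `‖N^* x‖ = ‖N x‖` on it.  Existence of the calculus
`π : C₀(ℂ) → B(H)` from the projection onto the graph,
`P = [[R, S^*], [S, 1 - R]]`, `R = (1 + N^* N)⁻¹ = r(N)`, `S = N R = s(N)`,
`r(z) = 1/(1 + |z|²)`, `s(z) = z/(1 + |z|²)`.
-/

open MeasureTheory Complex Filter Topology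
open scoped ComplexOrder InnerProductSpace ComplexConjugate BoundedContinuousFunction ZeroAtInfty

set_option autoImplicit false
set_option linter.unusedSectionVars false

universe v

namespace Pool.Q2

open Pool.Bes

section Defs

variable {H : Type v} [NormedAddCommGroup H] [InnerProductSpace ℂ H] [CompleteSpace H]

/-- `N` is a normal operator: densely defined, closed, `dom N^* = dom N` and `‖N^* x‖ = ‖N x‖`. -/
structure IsNor (N : H →ₗ.[ℂ] H) : Prop where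
  dense : Dense (N.domain : Set H)
  closed : N.IsClosed
  dom : N.adjoint.domain = N.domain
  norm : ∀ x y y' : H, (x, y) ∈ N.graph → (x, y') ∈ N.adjoint.graph → ‖y'‖ = ‖y‖

/-- the bounded operators `R = (1 + N^* N)⁻¹`, `S = N R` of a normal operator `N` -/
structure IsPair (N : H →ₗ.[ℂ] H) (R S : H →L[ℂ] H) : Prop where
  gr : ∀ x y : H, (x, y) ∈ N.graph ↔ S x = R y
  sa : star R = R
  nor : star S * S = S * star S
  comm : S * R = R * S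
  sq : star S * S = R - R * R
  inj : ∀ x : H, R x = 0 → x = 0

end Defs

/-- BLOCK SPA (120 lines).  The orthogonal projection `P` of `WithLp 2 (H × H)` onto the graph (a closed
subspace): `(R h, S h) = P (h, 0)`.  (2): `(h, 0) - P (h, 0)` is orthogonal to the graph.
(3): a vector `(p, q)` orthogonal to the graph gives `(-q, p) ∈ graph N^*`
(`Submodule.mem_adjoint_iff`, `LinearPMap.adjoint_graph_eq_graph_adjoint`), so `(u, v)` is orthogonal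
to it, and `(graph ⟂) ⟂ = graph`. -/
def Stmt_SPA : Prop := ∀ (H : Type v) [NormedAddCommGroup H] [InnerProductSpace ℂ H]
    [CompleteSpace H] (N : H →ₗ.[ℂ] H), Dense (N.domain : Set H) → N.IsClosed →
    (∃ R S : H →L[ℂ] H, (∀ h : H, (R h, S h) ∈ N.graph) ∧
      ∀ h a b : H, (a, b) ∈ N.graph → ⟪h - R h, a⟫_ℂ = ⟪S h, b⟫_ℂ) ∧
    ∀ u v : H, (∀ c c' : H, (c, c') ∈ N.adjoint.graph → ⟪u, c'⟫_ℂ = ⟪v, c⟫_ℂ) → (u, v) ∈ N.graph

/-- BLOCK SPC (150 lines; uses SPA).  `R, S` from SPA.  Write `N' = N^*`; `D = dom N = dom N'`;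
`⟪N a, N b⟫ = ⟪N' a, N' b⟫` on `D` (polarization).
(a) `⟪h, R k⟫ = ⟪R h, R k⟫ + ⟪S h, S k⟫`: `R^* = R`, `R = R R + S^* S`.
(b) `R h = 0`: `S h = N 0 = 0`, `h ⟂ D`, `h = 0`.
(c) `S k ∈ D`, `N' S k = k - R k` (from (2) of SPA).
(d) `S^* k = N' R k`: `⟪S h, k⟫ = ⟪S h, R k⟫ + ⟪S h, N' S k⟫`, `⟪S h, R k⟫ = ⟪N R h, R k⟫ =
⟪R h, N' R k⟫`; `⟪h, N' R k⟫ = ⟪R h, N' R k⟫ + ⟪N' S h, N' R k⟫`, `⟪N' S h, N' R k⟫ = ⟪N S h, N R k⟫ =
⟪N S h, S k⟫ = ⟪S h, N' S k⟫`.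
(e) `‖S^* k‖ = ‖N' R k‖ = ‖N R k‖ = ‖S k‖`: `S` is normal.
(f) `(x, y) ∈ graph`: `⟪S x, k⟫ = ⟪x, N' R k⟫ = ⟪y, R k⟫ = ⟪R y, k⟫`, so `S x = R y`; with
`(x, y) = (R h, S h)`: `S R = R S`.
(g) `(S^* k, k - R k) ∈ graph`, by (3) of SPA: `⟪S^* k, N' c⟫ = ⟪N' R k, N' c⟫ = ⟪N R k, N c⟫ =
⟪S k, N c⟫ = ⟪N' S k, c⟫ = ⟪k - R k, c⟫`.
(h) if `S x = R y`: `R (S^* y) = S^* R y = S^* S x = R (x - R x)`, so `S^* y = x - R x`, and
`(x, y) = (R x, S x) + (S^* y, y - R y)` is in the graph (`R y = S x`). -/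
def Stmt_SPC : Prop := ∀ (H : Type v) [NormedAddCommGroup H] [InnerProductSpace ℂ H]
    [CompleteSpace H] (N : H →ₗ.[ℂ] H), IsNor N → ∃ R S : H →L[ℂ] H, IsPair N R S

/-- BLOCK SPG (150 lines).  The calculus in a commutative C*-algebra.  `X = characterSpace ℂ A`;
for `f ∈ C₀(ℂ)` let `f̂ φ = f (φ S / φ R)` if `φ R ≠ 0`, else `0`.  `|φ S|² = φ R - (φ R)²`, `φ R` real,
so `0 ≤ φ R ≤ 1` and `|φ S / φ R|² = (1 - φ R)/φ R → ∞` as `φ R → 0`: `f̂` is continuous.  `f ↦ f̂` is a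
star homomorphism; compose with `(gelfandStarTransform A).symm`.  `f = r`: `f̂ φ = φ R`; `f = s`:
`f̂ φ = φ S`. -/
def Stmt_SPG : Prop := ∀ (A : Type v) [CommCStarAlgebra A] (R S : A), star R = R →
    star S * S = R - R * R → ∃ π : C₀(ℂ, ℂ) →⋆ₙₐ[ℂ] A,
      (∀ f : C₀(ℂ, ℂ), (∀ z : ℂ, f z = 1 / (1 + ‖z‖ ^ 2 : ℝ)) → π f = R) ∧
      (∀ f : C₀(ℂ, ℂ), (∀ z : ℂ, f z = z / (1 + ‖z‖ ^ 2 : ℝ)) → π f = S)

/-- BLOCK SPH (150 lines; uses SPG).  The same for two commuting bounded operators: `R, S` lie in a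
commutative unital C*-subalgebra of `B(H)` (`StarAlgebra.adjoin ℂ {R, S}`, its topological closure,
`StarAlgebra.adjoinCommRingOfComm`, `StarSubalgebra.commRingTopologicalClosure`). -/
def Stmt_SPH : Prop := ∀ (H : Type v) [NormedAddCommGroup H] [InnerProductSpace ℂ H]
    [CompleteSpace H] (R S : H →L[ℂ] H), star R = R → star S * S = S * star S → S * R = R * S →
    star S * S = R - R * R → ∃ π : C₀(ℂ, ℂ) →⋆ₙₐ[ℂ] (H →L[ℂ] H),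
      (∀ f : C₀(ℂ, ℂ), (∀ z : ℂ, f z = 1 / (1 + ‖z‖ ^ 2 : ℝ)) → π f = R) ∧
      (∀ f : C₀(ℂ, ℂ), (∀ z : ℂ, f z = z / (1 + ‖z‖ ^ 2 : ℝ)) → π f = S)

/-- BLOCK SPE (100 lines).  From the pair to the calculus.  Nondegenerate: `π r = R` is injective.
If `(x, y) ∈ graph`, i.e. `S x = R y`: for `f` with compact support `f = f₁ r`, `z f = f₁ s`
(`f₁ = f (1 + |z|²) ∈ C₀`), `π f y = π f₁ R y = π f₁ S x = π (z f) x`; for general `f, g = z f ∈ C₀` and a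
cut-off `χ`: `π χ (π g x - π f y) = π (χ g) x - π (χ f) y = 0`, and `π χ_n v → 0` for all `n` gives
`v = 0` (`R v = lim π (χ_n r) v = lim π r (π χ_n v)`).  Conversely `f = r`, `g = s` gives `S x = R y`. -/
def Stmt_SPE : Prop := ∀ (H : Type v) [NormedAddCommGroup H] [InnerProductSpace ℂ H]
    [CompleteSpace H] (N : H →ₗ.[ℂ] H) (R S : H →L[ℂ] H) (π : C₀(ℂ, ℂ) →⋆ₙₐ[ℂ] (H →L[ℂ] H)),
    IsPair N R S → (∀ f : C₀(ℂ, ℂ), (∀ z : ℂ, f z = 1 / (1 + ‖z‖ ^ 2 : ℝ)) → π f = R) →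
    (∀ f : C₀(ℂ, ℂ), (∀ z : ℂ, f z = z / (1 + ‖z‖ ^ 2 : ℝ)) → π f = S) → IsCalc N π

/-- BLOCK SPU (80 lines; uses U1, U3n, U4, U5).  Uniqueness of the calculus on test functions:
`Φ, Φ'` from U1; U3n with `N₁ = N₂ = N`, `D = 0` gives `Φ' h = Φ h` for `h = arctan (e · z)`, so
`Φ' Sq = Φ Sq`; `f = F ∘ Sq` (U5), `π f = Φ (F ∘ Sq) = cfc F (Φ Sq)` (U4).  See `U9`. -/
def Stmt_SPU : Prop := ∀ (H : Type v) [NormedAddCommGroup H] [InnerProductSpace ℂ H]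
    [CompleteSpace H] (N : H →ₗ.[ℂ] H) (π π' : C₀(ℂ, ℂ) →⋆ₙₐ[ℂ] (H →L[ℂ] H)), IsCalc N π →
    IsCalc N π' → ∀ f : C₀(ℂ, ℂ), Tst f → π' f = π f

/-- Existence of the calculus. -/
def Stmt_CALC : Prop := ∀ (H : Type v) [NormedAddCommGroup H] [InnerProductSpace ℂ H]
    [CompleteSpace H] (N : H →ₗ.[ℂ] H), IsNor N → ∃ π : C₀(ℂ, ℂ) →⋆ₙₐ[ℂ] (H →L[ℂ] H), IsCalc N π

theorem calc_of (hSPC : Stmt_SPC.{v}) (hSPH : Stmt_SPH.{v}) (hSPE : Stmt_SPE.{v}) :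
    Stmt_CALC.{v} := by
  intro H _ _ _ N hN
  obtain ⟨R, S, h⟩ := hSPC H N hN
  obtain ⟨π, h1, h2⟩ := hSPH H R S h.sa h.nor h.comm h.sq
  exact ⟨π, hSPE H N R S π h h1 h2⟩

end Pool.Q2
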