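import Pool.Agent.Work.MP_8c7e5b_q2.Interface2

/-! # LPA: countable Hilbert sums (ac_blocks, helper96) -/

open MeasureTheory Complex Filter Topology
open scoped ComplexOrder InnerProductSpace ComplexConjugate BoundedContinuousFunction

set_option autoImplicit false

universe v

namespace Pool.Q2

theorem blk_LPA : Stmt_LPA.{v} := by
  classical
  intro ι _ G _ _ _ _
  let i : ∀ k, G k →L[ℂ] lp G 2 := fun k => lp.singleContinuousLinearMap ℂ G 2 k
  have hi : ∀ k (x : G k), i k x = lp.single 2 k x := fun k x => rfl
  have hadj : ∀ k (f : lp G 2), (ContinuousLinearMap.adjoint (i k)) f = f k := by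
    intro k f
    refine ext_inner_left ℂ fun v => ?_
    rw [ContinuousLinearMap.adjoint_inner_right, hi, lp.inner_single_left]
  have hsum : ∀ x : lp G 2,
      HasSum (fun k => i k ((ContinuousLinearMap.adjoint (i k)) x)) x := by
    intro x
    simp only [hadj, hi]
    exact lp.hasSum_single (by norm_num) x
  have hsep : TopologicalSpace.SeparableSpace (lp G 2) := by
    rw [← TopologicalSpace.isSeparable_univ_iff]
    have h1 : TopologicalSpace.IsSeparable (⋃ k, Set.range (i k)) :=
      TopologicalSpace.IsSeparable.iUnion fun k =>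
        TopologicalSpace.isSeparable_range (i k).continuous
    have h2 := (h1.span (R := ℂ)).closure
    refine h2.mono fun x _ => ?_
    have h3 : Tendsto (fun s : Finset ι => ∑ k ∈ s, i k ((ContinuousLinearMap.adjoint (i k)) x))
        atTop (𝓝 x) := hsum x
    refine mem_closure_of_tendsto h3 (Eventually.of_forall fun s => ?_)
    exact Submodule.sum_mem _ fun k _ => Submodule.subset_span (Set.mem_iUnion.2 ⟨k, _, rfl⟩)
  refine ⟨lp G 2, inferInstance, inferInstance, inferInstance, hsep, i, ⟨?_, ?_, hsum⟩⟩
  · intro k
    ext x
    change (ContinuousLinearMap.adjoint (i k)) (i k x) = x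
    rw [hadj, hi, lp.single_apply_self]
  · intro k l hkl
    ext x
    change (ContinuousLinearMap.adjoint (i k)) (i l x) = 0
    rw [hadj, hi, lp.single_apply_ne _ _ _ hkl]

end Pool.Q2
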