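import Pool.Agent.Work.MP_8c7e5b_q2.Interface2

/-!
# MP_8c7e5b_an, Q2: block RED
-/

open MeasureTheory Complex Filter Topology
open scoped ComplexOrder InnerProductSpace ComplexConjugate BoundedContinuousFunction

set_option autoImplicit false
set_option linter.unusedSectionVars false

universe v

namespace Pool.Q2

open Pool.Bes

namespace REDAux

variable {H : Type v} [NormedAddCommGroup H] [InnerProductSpace ℂ H] [CompleteSpace H]

theorem uni_mul {A B : H →L[ℂ] H} (hA : Uni A) (hB : Uni B) : Uni (A * B) := by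
  obtain ⟨a1, a2⟩ := hA
  obtain ⟨b1, b2⟩ := hB
  constructor
  · rw [star_mul, show star B * star A * (A * B) = star B * (star A * A) * B by noncomm_ring, a1,
      mul_one, b1]
  · rw [star_mul, show A * B * (star B * star A) = A * (B * star B) * star A by noncomm_ring, b2,
      mul_one, a2]

theorem uni_star {A : H →L[ℂ] H} (hA : Uni A) : Uni (star A) := by
  obtain ⟨a1, a2⟩ := hA
  exact ⟨by rw [star_star, a2], by rw [star_star, a1]⟩

theorem uni_one : Uni (1 : H →L[ℂ] H) := ⟨by simp, by simp⟩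

theorem uni_pow {A : H →L[ℂ] H} (hA : Uni A) (m : ℕ) : Uni (A ^ m) := by
  induction m with
  | zero => rw [pow_zero]; exact uni_one
  | succ m ih => rw [pow_succ]; exact uni_mul ih hA

end REDAux

open REDAux in
theorem blk_RED (hCMM : Stmt_CMM.{v}) (hTFN : Stmt_TFN.{v}) (hSTB : Stmt_STB.{v})
    (hPAC : Stmt_PAC.{v}) (hPIG : Stmt_PIG.{v}) (hWAU : Stmt_WAU.{v}) (hPWR : Stmt_PWR.{v}) :
    Stmt_RED.{v} := by
  intro C₀ hC₀ hUB H _ _ _ _ N Ω hN hΩ hA ε hε
  obtain ⟨C, hC1, hC⟩ := hSTB C₀ hC₀ hUB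
  have hCpos : 0 < C := by linarith
  set δ : ℝ := ε / (5 * C) with hδ
  have hδpos : 0 < δ := by positivity
  obtain ⟨e, he, hsg⟩ := hPIG H N Ω hN hA δ hδpos
  obtain ⟨S, hS, hSc, hSt, hSsg, hSac⟩ := hWAU H N e hN Ω hΩ hA
  obtain ⟨cm1, -, -, -, cm5, cm6, -, -, -, -, -, cm12, cm13, -⟩ := hCMM H N hN
  obtain ⟨hexS, hcfS, hdS, hstS⟩ := cm1 S hSc
  have hS' : Uni (star S) := uni_star hS
  have hA1S : A1 N (star S) := cm13 _ hstS
  set Ω' : H →L[ℂ] H := Ω * star S with hΩ'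
  have hU' : Uni Ω' := uni_mul hΩ hS'
  have hA' : A1 N Ω' := (cm12 Ω (star S) hA hA1S).1
  obtain ⟨pa1, pa2, ps1, ps2, pa5, -, -, -, -, pcm, -, -, pmem, -, -, -, -, -⟩ := hPAC H N e hN
  -- the singular part
  have hsg' : star S * Psg N e = Psg N e := by
    have h1 : star (S * Psg N e) = star (Psg N e) := by rw [hSsg]
    rw [← (pcm S hSc).2, star_mul] at h1
    rwa [ps1.star_eq] at h1
  have hsg2 : Psg N e * Ω' * Psg N e = Psg N e * Ω * Psg N e := by
    rw [hΩ', show Psg N e * (Ω * star S) * Psg N e = Psg N e * Ω * (star S * Psg N e) by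
      noncomm_ring, hsg']
  -- the wave operator of `Ω'`
  have hlim : ∀ ψ ∈ Hac N e, Tendsto (fun t : ℝ => cj N (t * e) Ω' ψ) atTop (𝓝 ψ) := by
    intro ψ hψ
    have h1 : star S ψ ∈ Hac N e := by
      rw [pmem]
      have h2 := (pcm (star S) hstS).1
      have h3 : Pac N e (star S ψ) = star S (Pac N e ψ) := by
        have := congrArg (fun T : H →L[ℂ] H => T ψ) h2
        exact this
      rw [h3, (pmem ψ).1 hψ]
    have h4 := hSt (star S ψ) h1
    have h5 : S (star S ψ) = ψ := by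
      have := congrArg (fun T : H →L[ℂ] H => T ψ) hS.2
      exact this
    rw [h5] at h4
    refine h4.congr fun t => ?_
    have h6 := (cm1 (star S) hstS).2.1 (-((t : ℂ) * e))
    have h7 : cj N (t * e) Ω' = cj N (t * e) Ω * star S := by
      rw [cj, cj, hΩ', show ex N (t * e) * (Ω * star S) * ex N (-(t * e)) =
        ex N (t * e) * Ω * (star S * ex N (-(t * e))) by noncomm_ring, ← h6]
      noncomm_ring
    rw [h7]
    rfl
  obtain ⟨m, hm1, hm⟩ := hPWR H N Ω' e δ hN hU' hA' hδpos.le hlim (by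
    intro e' he'
    rw [hsg2]
    refine hsg e' ?_
    rcases he' with h | h
    · rw [h]; simp
    · rw [h]; simp) δ hδpos
  have hm0 : (0 : ℝ) < m := by exact_mod_cast hm1
  have hUm : Uni (Ω' ^ m) := uni_pow hU' m
  have hAm : ∀ k : ℕ, A1 N (Ω' ^ k) := by
    intro k
    induction k with
    | zero => rw [pow_zero]; exact cm13 _ cm6
    | succ k ih => rw [pow_succ]; exact (cm12 _ _ ih hA').1
  obtain ⟨n, a, c, hac⟩ := hC H N (Ω' ^ m) hN hUm (hAm m) (m * δ) (by positivity)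
  refine ⟨n, a, fun k => c k / m, ?_⟩
  intro f hf L hL
  have h1 := hac f hf L hL
  change ‖TU N (Ω' ^ m) f - ∑ k, c k * f (a k)‖ ≤ _ at h1
  have hT1 := hTFN.2 H N Ω' hN hU' hA'
  have hT2 := hTFN.2 H N Ω hN hΩ hA
  have hT3 := hTFN.2 H N (star S) hN hS' hA1S
  have e1 : TU N (Ω' ^ m) f = m * TU N Ω' f := hT1.2.2.2.2.2.2.2.1 m f hf
  have e2 : TU N Ω' f = TU N Ω f + TU N (star S) f :=
    (hT2.2.2.2.2.2.1 (star S) hS' hA1S).1 f hf
  have e3 : TU N (star S) f = 0 := hT3.2.2.2.2.2.2.2.2 hstS f hf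
  rw [e1, e2, e3, add_zero] at h1
  have hmC : (m : ℂ) ≠ 0 := by
    exact_mod_cast hm0.ne'
  have e4 : TU N Ω f - ∑ k, c k / m * f (a k) =
      (1 / (m : ℂ)) * (m * TU N Ω f - ∑ k, c k * f (a k)) := by
    rw [mul_sub, Finset.mul_sum]
    congr 1
    · field_simp
    · refine Finset.sum_congr rfl fun k _ => ?_
      ring
  have hL0 : 0 ≤ L := (norm_nonneg _).trans (hL 0)
  change ‖TU N Ω f - ∑ k, c k / m * f (a k)‖ ≤ ε * L
  rw [e4, norm_mul, norm_div, norm_one, Complex.norm_natCast]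
  have k1 := hm 1 (Or.inl rfl)
  have k2 := hm Complex.I (Or.inr rfl)
  have h2 : C * (kp N 1 (Ω' ^ m) + kp N Complex.I (Ω' ^ m) + m * δ) * L ≤
      C * (5 * (m * δ)) * L := by
    refine mul_le_mul_of_nonneg_right ?_ hL0
    refine mul_le_mul_of_nonneg_left ?_ hCpos.le
    linarith
  have h3 : 1 / (m : ℝ) * ‖(m : ℂ) * TU N Ω f - ∑ k, c k * f (a k)‖ ≤
      1 / (m : ℝ) * (C * (5 * (m * δ)) * L) :=
    mul_le_mul_of_nonneg_left (h1.trans h2) (by positivity)
  refine h3.trans (le_of_eq ?_)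
  rw [hδ]
  field_simp

end Pool.Q2
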