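import Pool.Agent.Work.MP_8c7e5b_q2.Interface5

/-!
# MP_8c7e5b_an, Q2: block SPH
-/

open MeasureTheory Complex Filter Topology
open scoped ComplexOrder InnerProductSpace ComplexConjugate BoundedContinuousFunction ZeroAtInfty

set_option autoImplicit false
set_option linter.unusedSectionVars false

universe v

namespace Pool.Q2

open Pool.Bes

namespace SPHAux

/-- a closed commutative star subalgebra is a commutative C*-algebra -/
@[instance_reducible]
noncomputable def ccs {A : Type v} [CStarAlgebra A] (s : StarSubalgebra ℂ A)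
    (hc : IsClosed (s : Set A)) (hm : ∀ x y : s, x * y = y * x) : CommCStarAlgebra s :=
  { StarSubalgebra.cstarAlgebra s (h_closed := hc) with mul_comm := hm }

/-- composing a star homomorphism with an injection given by its laws -/
noncomputable def push {B A : Type v} [CommCStarAlgebra B] [CStarAlgebra A] (e : B → A)
    (h0 : e 0 = 0) (hadd : ∀ x y, e (x + y) = e x + e y) (hmul : ∀ x y, e (x * y) = e x * e y)
    (hsmul : ∀ (c : ℂ) x, e (c • x) = c • e x) (hstar : ∀ x, e (star x) = star (e x))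
    (π : C₀(ℂ, ℂ) →⋆ₙₐ[ℂ] B) : C₀(ℂ, ℂ) →⋆ₙₐ[ℂ] A :=
  { toFun := fun f => e (π f)
    map_smul' := fun c f => by rw [map_smul, hsmul]; rfl
    map_zero' := by rw [map_zero, h0]
    map_add' := fun f g => by rw [map_add, hadd]
    map_mul' := fun f g => by rw [map_mul, hmul]
    map_star' := fun f => by rw [map_star, hstar] }

theorem key (hSPG : Stmt_SPG.{v}) {A : Type v} [CStarAlgebra A] (s : StarSubalgebra ℂ A)
    (hc : IsClosed (s : Set A)) (hm : ∀ x y : s, x * y = y * x) (R S : A) (hR : R ∈ s)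
    (hS : S ∈ s) (h1 : star R = R) (h2 : star S * S = R - R * R) :
    ∃ π : C₀(ℂ, ℂ) →⋆ₙₐ[ℂ] A,
      (∀ f : C₀(ℂ, ℂ), (∀ z : ℂ, f z = 1 / (1 + ‖z‖ ^ 2 : ℝ)) → π f = R) ∧
      (∀ f : C₀(ℂ, ℂ), (∀ z : ℂ, f z = z / (1 + ‖z‖ ^ 2 : ℝ)) → π f = S) := by
  obtain ⟨π, g1, g2⟩ := @hSPG s (ccs s hc hm) ⟨R, hR⟩ ⟨S, hS⟩ (Subtype.ext h1) (Subtype.ext h2)
  refine ⟨@push s A (ccs s hc hm) _ Subtype.val rfl (fun _ _ => rfl) (fun _ _ => rfl)
    (fun _ _ => rfl) (fun _ => rfl) π, fun f hf => ?_, fun f hf => ?_⟩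
  · exact congrArg Subtype.val (g1 f hf)
  · exact congrArg Subtype.val (g2 f hf)

end SPHAux

open SPHAux

theorem blk_SPH : Stmt_SPG.{v} → Stmt_SPH.{v} := by
  intro hSPG H _ _ _ R S hR hS hSR hsq
  have hRS' : R * star S = star S * R := by
    have h1 := congrArg star hSR
    rw [star_mul, star_mul, hR] at h1
    exact h1
  have hc1 : ∀ a ∈ ({R, S} : Set (H →L[ℂ] H)), ∀ b ∈ ({R, S} : Set (H →L[ℂ] H)),
      a * b = b * a := by
    rintro a (rfl | rfl) b (rfl | rfl)
    · rfl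
    · exact hSR.symm
    · exact hSR
    · rfl
  have hc2 : ∀ a ∈ ({R, S} : Set (H →L[ℂ] H)), ∀ b ∈ ({R, S} : Set (H →L[ℂ] H)),
      a * star b = star b * a := by
    rintro a (rfl | rfl) b (rfl | rfl)
    · rw [hR]
    · exact hRS'
    · rw [hR]; exact hSR
    · exact hS.symm
  have hm := StarAlgebra.isMulCommutative_adjoin ℂ hc1 hc2
  have hm' : ∀ x y : StarAlgebra.adjoin ℂ ({R, S} : Set (H →L[ℂ] H)), x * y = y * x :=
    fun x y => hm.is_comm.comm x y
  have hm2 : ∀ x y : (StarAlgebra.adjoin ℂ ({R, S} : Set (H →L[ℂ] H))).topologicalClosure,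
      x * y = y * x :=
    (StarSubalgebra.commRingTopologicalClosure _ hm').mul_comm
  refine key hSPG (StarAlgebra.adjoin ℂ ({R, S} : Set (H →L[ℂ] H))).topologicalClosure
    (StarSubalgebra.isClosed_topologicalClosure _) hm2 R S ?_ ?_ hR hsq
  · exact StarSubalgebra.le_topologicalClosure _ (StarAlgebra.subset_adjoin ℂ _ (Or.inl rfl))
  · exact StarSubalgebra.le_topologicalClosure _ (StarAlgebra.subset_adjoin ℂ _ (Or.inr rfl))

end Pool.Q2
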