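import Pool.Agent.Work.MP_8c7e5b_q2.Interface3

/-!
# Block U2: the resolvent identity for unbounded normal operators
-/

open MeasureTheory Complex Filter Topology
open scoped ComplexOrder InnerProductSpace ComplexConjugate BoundedContinuousFunction ZeroAtInfty

set_option autoImplicit false
set_option linter.unusedSectionVars false

universe v

namespace Pool.Q2

open Pool.Bes

namespace U2Aux

/-- the cut-off function, `1` on the ball of radius `n`, `0` outside the ball of radius `n + 1` -/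
noncomputable def cf (n : ℕ) (z : ℂ) : ℂ := ((max 0 (min 1 ((n : ℝ) + 1 - ‖z‖)) : ℝ) : ℂ)

theorem cf_cont (n : ℕ) : Continuous (cf n) := by
  unfold cf
  fun_prop

theorem cf_zero {n : ℕ} {z : ℂ} (h : (n : ℝ) + 1 ≤ ‖z‖) : cf n z = 0 := by
  unfold cf
  rw [max_eq_left, Complex.ofReal_zero]
  exact (min_le_right _ _).trans (by linarith)

theorem cf_one {n : ℕ} {z : ℂ} (h : ‖z‖ ≤ n) : cf n z = 1 := by
  unfold cf
  rw [min_eq_left (by linarith), max_eq_right zero_le_one, Complex.ofReal_one]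

theorem cf_supp (n : ℕ) : HasCompactSupport (cf n) := by
  refine HasCompactSupport.intro (isCompact_closedBall (0 : ℂ) ((n : ℝ) + 1)) (fun z hz => ?_)
  apply cf_zero
  rw [Metric.mem_closedBall, dist_zero_right, not_le] at hz
  exact hz.le

theorem cf_conj (n : ℕ) (z : ℂ) : conj (cf n z) = cf n z := by
  unfold cf
  exact Complex.conj_ofReal _

theorem cf_norm (n : ℕ) (z : ℂ) : ‖cf n z‖ ≤ 1 := by
  unfold cf
  rw [Complex.norm_real, Real.norm_eq_abs, abs_of_nonneg (le_max_left _ _)]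
  exact max_le zero_le_one (min_le_left _ _)

theorem cf_mul (n : ℕ) (z : ℂ) : cf (n + 1) z * cf n z = cf n z := by
  rcases le_total ‖z‖ ((n : ℝ) + 1) with h | h
  · rw [cf_one (n := n + 1) (by push_cast; exact h), one_mul]
  · rw [cf_zero h, mul_zero]

/-- a continuous function times the cut-off function as an element of `C₀` -/
noncomputable def ck (n : ℕ) (a : ℂ → ℂ) (ha : Continuous a) : C₀(ℂ, ℂ) where
  toFun := fun z => a z * cf n z
  continuous_toFun := ha.mul (cf_cont n)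
  zero_at_infty' := ((cf_supp n).mul_left (f := a)).is_zero_at_infty

theorem ck_apply (n : ℕ) (a : ℂ → ℂ) (ha : Continuous a) (z : ℂ) : ck n a ha z = a z * cf n z := rfl

/-- the cut-off function as an element of `C₀` -/
noncomputable def c0 (n : ℕ) : C₀(ℂ, ℂ) := ck n (fun _ => 1) continuous_const

theorem c0_apply (n : ℕ) (z : ℂ) : c0 n z = cf n z := by
  unfold c0
  rw [ck_apply, one_mul]

variable {H : Type v} [NormedAddCommGroup H] [InnerProductSpace ℂ H] [CompleteSpace H]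

theorem lim_c0 {π : C₀(ℂ, ℂ) →⋆ₙₐ[ℂ] (H →L[ℂ] H)} {Φ : (ℂ →ᵇ ℂ) →⋆ₐ[ℂ] (H →L[ℂ] H)}
    (h : IsExt π Φ) (x : H) : Tendsto (fun n => π (c0 n) x) atTop (𝓝 x) := by
  have h1 := h.lim (fun n => (c0 n).toBCF) (1 : ℂ →ᵇ ℂ) 1 (fun n => ?_) ?_ x
  · rw [map_one] at h1
    have h2 : (fun n => Φ ((fun n => (c0 n).toBCF) n) x) = fun n => π (c0 n) x := by
      funext n
      have := h.ext (c0 n) (c0 n).toBCF (fun z => rfl)
      simp only [this]
    rw [h2] at h1
    exact h1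
  · refine (BoundedContinuousFunction.norm_le zero_le_one).2 (fun z => ?_)
    have : (c0 n).toBCF z = cf n z := c0_apply n z
    rw [this]
    exact cf_norm n z
  · rw [Metric.tendstoLocallyUniformly_iff]
    intro ε hε z
    refine ⟨Metric.ball z 1, Metric.ball_mem_nhds z one_pos, ?_⟩
    filter_upwards [eventually_ge_atTop (Nat.ceil (‖z‖ + 1))] with n hn y hy
    have h3 : ‖y‖ ≤ n := by
      have h4 : ‖y‖ ≤ ‖z‖ + 1 := by
        have h5 := norm_le_norm_add_norm_sub' y z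
        rw [Metric.mem_ball, dist_eq_norm] at hy
        linarith
      exact h4.trans ((Nat.le_ceil _).trans (by exact_mod_cast hn))
    have h6 : (c0 n).toBCF y = 1 := by
      have : (c0 n).toBCF y = cf n y := c0_apply n y
      rw [this, cf_one h3]
    rw [h6]
    simpa using hε

theorem mul_app (π : C₀(ℂ, ℂ) →⋆ₙₐ[ℂ] (H →L[ℂ] H)) {f g h k : C₀(ℂ, ℂ)}
    (hfg : ∀ z, f z * g z = h z * k z) (y : H) : π f (π g y) = π h (π k y) := by
  have h1 : f * g = h * k := by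
    ext z
    exact hfg z
  have h2 := congrArg π h1
  rw [map_mul, map_mul] at h2
  exact DFunLike.congr_fun h2 y

theorem mul_app1 (π : C₀(ℂ, ℂ) →⋆ₙₐ[ℂ] (H →L[ℂ] H)) {f g h : C₀(ℂ, ℂ)}
    (hfg : ∀ z, f z * g z = h z) (y : H) : π f (π g y) = π h y := by
  have h1 : f * g = h := by
    ext z
    exact hfg z
  have h2 := congrArg π h1
  rw [map_mul] at h2
  exact DFunLike.congr_fun h2 y

theorem adj_eq (π : C₀(ℂ, ℂ) →⋆ₙₐ[ℂ] (H →L[ℂ] H)) (f : C₀(ℂ, ℂ)) :
    ContinuousLinearMap.adjoint (π f) = π (star f) := by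
  rw [map_star]
  rfl

theorem ext_mul {π : C₀(ℂ, ℂ) →⋆ₙₐ[ℂ] (H →L[ℂ] H)} {Φ : (ℂ →ᵇ ℂ) →⋆ₐ[ℂ] (H →L[ℂ] H)}
    (h : IsExt π Φ) (F : ℂ →ᵇ ℂ) (f g : C₀(ℂ, ℂ)) (hg : ∀ z, g z = F z * f z) (x : H) :
    Φ F (π f x) = π g x ∧ π f (Φ F x) = π g x := by
  have h1 : Φ f.toBCF = π f := h.ext f f.toBCF (fun z => rfl)
  have h2 : Φ (F * f.toBCF) = π g := h.ext g _ (fun z => (hg z).symm)
  have h3 : Φ (f.toBCF * F) = π g := by rw [mul_comm, h2]
  rw [map_mul] at h2 h3
  rw [h1] at h2 h3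
  exact ⟨DFunLike.congr_fun h2 x, DFunLike.congr_fun h3 x⟩

theorem graph_mem {N : H →ₗ.[ℂ] H} {π : C₀(ℂ, ℂ) →⋆ₙₐ[ℂ] (H →L[ℂ] H)} (hN : IsCalc N π)
    {f g : C₀(ℂ, ℂ)} (h : ∀ z, g z = z * f z) (v : H) : (π f v, π g v) ∈ N.graph := by
  refine (hN.2 _ _).2 (fun f' g' h' => mul_app π (fun z => ?_) v)
  rw [h z, h' z]
  ring

variable {N₁ N₂ : H →ₗ.[ℂ] H} {π₁ π₂ : C₀(ℂ, ℂ) →⋆ₙₐ[ℂ] (H →L[ℂ] H)} {D : H →L[ℂ] H}

theorem stepA (h1 : IsCalc N₁ π₁) (h2 : IsCalc N₂ π₂) (hd : Diff N₁ N₂ D) {q p f g : C₀(ℂ, ℂ)}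
    (hp : ∀ z, p z = z * q z) (hg : ∀ z, g z = z * f z) (y : H) :
    π₂ g (π₁ q y) = π₂ f (π₁ p y + D (π₁ q y)) :=
  (h2.2 _ _).1 ((hd _ _).1 (graph_mem h1 hp y)) f g hg

theorem stepB (h1 : IsCalc N₁ π₁) (h2 : IsCalc N₂ π₂) (hd : Diff N₁ N₂ D)
    {q p f g χ k : C₀(ℂ, ℂ)}
    (hp : ∀ z, p z = conj z * q z) (hg : ∀ z, g z = conj z * f z)
    (hχ : ∀ z, χ z * q z = q z) (hr : ∀ z, conj (χ z) = χ z) (hk : ∀ z, k z = z * χ z) (y : H) :
    π₂ g (π₁ q y) = π₂ f (π₁ p y + (ContinuousLinearMap.adjoint D) (π₁ q y)) := by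
  refine ext_inner_left ℂ (fun v => ?_)
  have hgr : (π₂ (star f) v, π₂ (star g) v) ∈ N₂.graph := by
    refine graph_mem h2 (fun z => ?_) v
    have a1 : (star g) z = conj (g z) := rfl
    have a2 : (star f) z = conj (f z) := rfl
    rw [a1, a2, hg z, map_mul, Complex.conj_conj]
  have hgr1 : (π₂ (star f) v, π₂ (star g) v - D (π₂ (star f) v)) ∈ N₁.graph := by
    refine (hd _ _).2 ?_
    rw [sub_add_cancel]
    exact hgr
  have e1 := (h1.2 _ _).1 hgr1 χ k hk
  have e2 : π₁ χ (π₁ q y) = π₁ q y := mul_app1 π₁ hχ y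
  have e3 : π₁ (star k) (π₁ q y) = π₁ p y := by
    refine mul_app1 π₁ (fun z => ?_) y
    have a1 : (star k) z = conj (k z) := rfl
    rw [a1, hk z, map_mul, hr z, mul_assoc, hχ z, hp z]
  have e4 : star χ = χ := by
    ext z
    exact hr z
  have e5 : ⟪π₂ (star g) v - D (π₂ (star f) v), π₁ q y⟫_ℂ = ⟪π₂ (star f) v, π₁ p y⟫_ℂ := by
    calc ⟪π₂ (star g) v - D (π₂ (star f) v), π₁ q y⟫_ℂ
        = ⟪π₂ (star g) v - D (π₂ (star f) v), π₁ χ (π₁ q y)⟫_ℂ := by rw [e2]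
      _ = ⟪ContinuousLinearMap.adjoint (π₁ χ) (π₂ (star g) v - D (π₂ (star f) v)),
            π₁ q y⟫_ℂ := by rw [ContinuousLinearMap.adjoint_inner_left]
      _ = ⟪π₁ k (π₂ (star f) v), π₁ q y⟫_ℂ := by rw [adj_eq, e4, e1]
      _ = ⟪π₂ (star f) v, π₁ (star k) (π₁ q y)⟫_ℂ := by
          rw [← adj_eq π₁ k, ContinuousLinearMap.adjoint_inner_right]
      _ = ⟪π₂ (star f) v, π₁ p y⟫_ℂ := by rw [e3]
  rw [inner_sub_left, sub_eq_iff_eq_add] at e5
  calc ⟪v, π₂ g (π₁ q y)⟫_ℂ = ⟪π₂ (star g) v, π₁ q y⟫_ℂ := by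
        rw [← adj_eq, ContinuousLinearMap.adjoint_inner_left]
    _ = ⟪π₂ (star f) v, π₁ p y⟫_ℂ + ⟪D (π₂ (star f) v), π₁ q y⟫_ℂ := e5
    _ = ⟪π₂ (star f) v, π₁ p y + (ContinuousLinearMap.adjoint D) (π₁ q y)⟫_ℂ := by
        rw [inner_add_right, ContinuousLinearMap.adjoint_inner_right]
    _ = ⟪v, π₂ f (π₁ p y + (ContinuousLinearMap.adjoint D) (π₁ q y))⟫_ℂ := by
        rw [← adj_eq, ContinuousLinearMap.adjoint_inner_left]

end U2Aux

open U2Aux in
theorem blk_U2 : Stmt_U2.{v} := by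
  intro H _ _ _ N₁ N₂ π₁ π₂ Φ₁ Φ₂ D h1 h2 hΦ1 hΦ2 hd e c r hc hr
  have hre : ∀ z : ℂ, ((ip e z : ℝ) + Complex.I * c) * r z = 1 := by
    intro z
    rw [hr z]
    refine mul_one_div_cancel (fun h0 => ?_)
    have h3 := congrArg Complex.im h0
    simp at h3
    exact hc.ne' h3
  have hip : ∀ z : ℂ, ((ip e z : ℝ) : ℂ) = (1 / 2 : ℂ) * (conj e * z + e * conj z) := by
    intro z
    unfold ip
    apply Complex.ext
    · simp
      ring
    · simp
      ring
  have main : ∀ (m : ℕ) (y : H), (Φ₂ r - Φ₁ r + Φ₂ r * dt e D * Φ₁ r) (π₁ (c0 m) y) = 0 := by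
    intro m y
    have cr : Continuous (fun z : ℂ => r z) := r.continuous
    set q : C₀(ℂ, ℂ) := ck m (fun z => r z) cr with hq
    set p : C₀(ℂ, ℂ) := ck m (fun z => z * r z) (by fun_prop) with hp
    set p' : C₀(ℂ, ℂ) := ck m (fun z => conj z * r z) (by fun_prop) with hp'
    set u : H := π₁ q y with hu
    have hu1 : Φ₁ r (π₁ (c0 m) y) = u :=
      (ext_mul hΦ1 r (c0 m) q (fun z => by rw [hq, ck_apply, c0_apply]) y).1
    have key : ∀ n : ℕ, π₂ (c0 n) u = π₂ (c0 n) (Φ₂ r (π₁ (c0 m) y + dt e D u)) := by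
      intro n
      set f : C₀(ℂ, ℂ) := ck n (fun z => r z) cr with hf
      set g : C₀(ℂ, ℂ) := ck n (fun z => z * r z) (by fun_prop) with hg
      set g' : C₀(ℂ, ℂ) := ck n (fun z => conj z * r z) (by fun_prop) with hg'
      have A := stepA h1 h2 hd (q := q) (p := p) (f := f) (g := g)
        (fun z => by rw [hq, hp, ck_apply, ck_apply, mul_assoc])
        (fun z => by rw [hf, hg, ck_apply, ck_apply, mul_assoc]) y
      have B := stepB h1 h2 hd (q := q) (p := p') (f := f) (g := g') (χ := c0 (m + 1))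
        (k := ck (m + 1) (fun z => z) continuous_id)
        (fun z => by rw [hq, hp', ck_apply, ck_apply, mul_assoc])
        (fun z => by rw [hf, hg', ck_apply, ck_apply, mul_assoc])
        (fun z => by rw [hq, ck_apply, c0_apply, mul_left_comm, cf_mul])
        (fun z => by rw [c0_apply, cf_conj])
        (fun z => by rw [ck_apply, c0_apply]) y
      have e1 : (1 / 2 : ℂ) • (conj e • g + e • g') + (Complex.I * c) • f = c0 n := by
        ext z
        have a1 : ((1 / 2 : ℂ) • (conj e • g + e • g') + (Complex.I * c) • f) z =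
            (1 / 2 : ℂ) * (conj e * g z + e * g' z) + (Complex.I * c) * f z := rfl
        rw [a1, c0_apply, hg, hg', hf, ck_apply, ck_apply, ck_apply]
        have a2 := hre z
        rw [hip z] at a2
        linear_combination cf n z * a2
      have e2 : (1 / 2 : ℂ) • (conj e • p + e • p') + (Complex.I * c) • q = c0 m := by
        ext z
        have a1 : ((1 / 2 : ℂ) • (conj e • p + e • p') + (Complex.I * c) • q) z =
            (1 / 2 : ℂ) * (conj e * p z + e * p' z) + (Complex.I * c) * q z := rfl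
        rw [a1, c0_apply, hp, hp', hq, ck_apply, ck_apply, ck_apply]
        have a2 := hre z
        rw [hip z] at a2
        linear_combination cf m z * a2
      have e3 : π₂ (c0 n) u = (1 / 2 : ℂ) • (conj e • π₂ g u + e • π₂ g' u) +
          (Complex.I * c) • π₂ f u := by
        rw [← e1]
        simp only [map_add, map_smul]
        rfl
      have e4 : π₁ (c0 m) y = (1 / 2 : ℂ) • (conj e • π₁ p y + e • π₁ p' y) +
          (Complex.I * c) • u := by
        rw [← e2]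
        simp only [map_add, map_smul]
        rfl
      have e5 : dt e D u = (1 / 2 : ℂ) • (conj e • D u +
          e • (ContinuousLinearMap.adjoint D) u) := rfl
      have e6 : π₂ (c0 n) (Φ₂ r (π₁ (c0 m) y + dt e D u)) =
          π₂ f (π₁ (c0 m) y + dt e D u) :=
        (ext_mul hΦ2 r (c0 n) f (fun z => by rw [hf, ck_apply, c0_apply]) _).2
      rw [e6, e3, A, B, e4, e5]
      simp only [map_add, map_smul, smul_add]
      module
    have hlim : u = Φ₂ r (π₁ (c0 m) y + dt e D u) := by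
      refine tendsto_nhds_unique (lim_c0 hΦ2 u) ?_
      simp only [key]
      exact lim_c0 hΦ2 _
    have e7 : (Φ₂ r - Φ₁ r + Φ₂ r * dt e D * Φ₁ r) (π₁ (c0 m) y) =
        Φ₂ r (π₁ (c0 m) y) - Φ₁ r (π₁ (c0 m) y) + Φ₂ r (dt e D (Φ₁ r (π₁ (c0 m) y))) := rfl
    rw [e7, hu1]
    rw [map_add] at hlim
    nth_rewrite 1 [hlim]
    abel
  have fin : Φ₂ r - Φ₁ r + Φ₂ r * dt e D * Φ₁ r = 0 := by
    ext y
    refine tendsto_nhds_unique
      (((Φ₂ r - Φ₁ r + Φ₂ r * dt e D * Φ₁ r).continuous.tendsto y).comp (lim_c0 hΦ1 y)) ?_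
    have h3 : ((⇑(Φ₂ r - Φ₁ r + Φ₂ r * dt e D * Φ₁ r)) ∘ fun n => π₁ (c0 n) y) =
        fun _ => (0 : H) := by
      funext n
      exact main n y
    rw [h3]
    exact tendsto_const_nhds
  exact eq_neg_of_add_eq_zero_left fin

end Pool.Q2
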