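import Pool.Agent.Work.MP_8c7e5b_q2.Interface

/-!
# MP_8c7e5b_an, Q2: block W1
-/

open MeasureTheory Complex Filter Topology
open scoped ComplexOrder InnerProductSpace ComplexConjugate

set_option autoImplicit false
set_option linter.unusedSectionVars false

universe v

namespace Pool.Q2

open Pool.Bes ContinuousLinearMap

namespace W1Aux

variable {K : Type v} [NormedAddCommGroup K] [InnerProductSpace ℂ K] [CompleteSpace K]

theorem star_mul_self_eq_zero' {x : K →L[ℂ] K} (h : star x * x = 0) : x = 0 := by
  have h1 := CStarRing.norm_star_mul_self (x := x)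
  rw [h, norm_zero] at h1
  exact norm_eq_zero.1 (mul_self_eq_zero.1 h1.symm)

theorem dt_star (e : ℂ) (N : K →L[ℂ] K) : star (dt e N) = dt e N := by
  unfold dt
  rw [star_smul, star_add, star_smul, star_smul, star_star]
  simp only [RCLike.star_def, RCLike.conj_conj, map_div₀, map_one, map_ofNat]
  rw [add_comm]

section DS

variable {H : Type v} [NormedAddCommGroup H] [InnerProductSpace ℂ H] [CompleteSpace H]
variable {r : ℕ} {i : H →L[ℂ] K} {j : Ef r →L[ℂ] K}

/-- the algebra of the isometries in `B(K)` -/
theorem alg {p a u : K →L[ℂ] K} (hp : p * p = p) (hps : star p = p) (haa : star a * a = p)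
    (huu : star u * u = 1 - p) (huu' : u * star u = 1 - a * star a) :
    a * p = a ∧ star a * u = 0 ∧ star u * a = 0 ∧ u * p = 0 ∧ a * star u = 0 ∧
      u * star a = 0 ∧ star (a + u) * (a + u) = 1 ∧ (a + u) * star (a + u) = 1 := by
  have h1 : a * p = a := by
    have h2 : a - a * p = 0 := by
      apply star_mul_self_eq_zero'
      rw [star_sub, star_mul, hps]
      calc (star a - p * star a) * (a - a * p) = star a * a - star a * a * p - p * (star a * a) +
            p * (star a * a) * p := by noncomm_ring
        _ = 0 := by rw [haa, hp, hp]; abel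
    exact (sub_eq_zero.1 h2).symm
  have h2 : star a * u = 0 := by
    apply star_mul_self_eq_zero'
    rw [star_mul, star_star]
    calc star u * a * (star a * u) = star u * (a * star a) * u := by noncomm_ring
      _ = star u * (1 - u * star u) * u := by rw [huu']; abel_nf
      _ = star u * u - (star u * u) * (star u * u) := by noncomm_ring
      _ = 0 := by
          rw [huu]
          calc (1 : K →L[ℂ] K) - p - (1 - p) * (1 - p) = p - p * p := by noncomm_ring
            _ = 0 := by rw [hp, sub_self]
  have h3 : star u * a = 0 := by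
    have h4 := congrArg star h2
    rwa [star_mul, star_star, star_zero] at h4
  have h4 : u * p = 0 := by
    apply star_mul_self_eq_zero'
    rw [star_mul, hps]
    calc p * star u * (u * p) = p * (star u * u) * p := by noncomm_ring
      _ = 0 := by
          rw [huu]
          calc p * (1 - p) * p = p * p - p * p * p := by noncomm_ring
            _ = 0 := by rw [hp, hp, sub_self]
  have h5 : a * star u = 0 := by
    have h6 := congrArg star h4
    rw [star_mul, hps, star_zero] at h6
    calc a * star u = a * p * star u := by rw [h1]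
      _ = a * (p * star u) := by rw [mul_assoc]
      _ = 0 := by rw [h6, mul_zero]
  have h6 : u * star a = 0 := by
    have h7 := congrArg star h5
    rwa [star_mul, star_star, star_zero] at h7
  refine ⟨h1, h2, h3, h4, h5, h6, ?_, ?_⟩
  · rw [star_add]
    calc (star a + star u) * (a + u) = star a * a + star a * u + star u * a + star u * u := by
          noncomm_ring
      _ = 1 := by rw [haa, h2, h3, huu]; abel
  · rw [star_add]
    calc (a + u) * (star a + star u) = a * star a + a * star u + u * star a + u * star u := by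
          noncomm_ring
      _ = 1 := by rw [h5, h6, huu']; abel

theorem dt_comb {p u N : K →L[ℂ] K} (hps : star p = p) (hc : p * N = N * p) (e : ℂ) :
    dt e (N * p + star u * N * u) = dt e N * p + star u * dt e N * u := by
  have h1 : star (N * p) = star N * p := by
    have h2 := congrArg star hc
    rw [star_mul, star_mul, hps] at h2
    rw [star_mul, hps, ← h2]
  unfold dt
  rw [star_add, h1, star_mul, star_mul, star_star, smul_mul_assoc, add_mul, smul_mul_assoc,
    smul_mul_assoc, mul_smul_comm, smul_mul_assoc, mul_add, mul_smul_comm, mul_smul_comm, add_mul,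
    smul_mul_assoc, smul_mul_assoc, ← smul_add]
  refine congrArg _ ?_
  rw [smul_add, smul_add, mul_assoc (star u) (star N) u]
  abel

theorem key {p a u N : K →L[ℂ] K} (hps : star p = p) (hc : p * N = N * p) (h1 : a * p = a)
    (h2 : star a * u = 0) (h4 : u * p = 0) (h5 : a * star u = 0)
    (huu' : u * star u = 1 - a * star a) (e : ℂ) :
    dt e N * (a + u) - (a + u) * dt e (N * p + star u * N * u) =
      br (dt e N) a + a * (star a * dt e N - dt e N * star a) * u := by
  rw [dt_comb hps hc e]
  have hc' : p * dt e N = dt e N * p := by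
    have h3 : p * star N = star N * p := by
      have h6 := congrArg star hc
      rw [star_mul, star_mul, hps] at h6
      exact h6.symm
    unfold dt
    rw [mul_smul_comm, smul_mul_assoc, mul_add, add_mul, mul_smul_comm, mul_smul_comm,
      smul_mul_assoc, smul_mul_assoc, hc, h3]
  set Z := dt e N with hZ
  have e1 : a * (Z * p) = a * Z := by rw [← hc', ← mul_assoc, h1]
  have e2 : u * (Z * p) = 0 := by rw [← hc', ← mul_assoc, h4, zero_mul]
  have e3 : a * (star u * Z * u) = 0 := by
    rw [mul_assoc (star u), ← mul_assoc a, h5, zero_mul]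
  have e4 : u * (star u * Z * u) = Z * u - a * (star a * Z * u) := by
    calc u * (star u * Z * u) = u * star u * (Z * u) := by noncomm_ring
      _ = (1 - a * star a) * (Z * u) := by rw [huu']
      _ = _ := by noncomm_ring
  have e5 : a * (star a * Z - Z * star a) * u = a * (star a * Z * u) := by
    calc a * (star a * Z - Z * star a) * u = a * (star a * Z * u) - a * (Z * (star a * u)) := by
          noncomm_ring
      _ = _ := by rw [h2, mul_zero, mul_zero, sub_zero]
  rw [e5, mul_add, add_mul, mul_add, mul_add, e1, e2, e3, e4]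
  unfold br
  abel

theorem dt_conj (w : Ef r →L[ℂ] K) (N : K →L[ℂ] K) (e : ℂ) :
    dt e (adjoint w ∘L N ∘L w) = adjoint w ∘L dt e N ∘L w := by
  have h9 : star (adjoint w ∘L N ∘L w) = adjoint w ∘L star N ∘L w := by
    rw [star_eq_adjoint, adjoint_comp, adjoint_comp, adjoint_adjoint, comp_assoc]
    rfl
  unfold dt
  rw [h9]
  simp only [smul_comp, comp_smul, add_comp, comp_add]

theorem dt_comm {N : K →L[ℂ] K} (h9 : star N * N = N * star N) :
    dt 1 N * dt Complex.I N = dt Complex.I N * dt 1 N := by
  unfold dt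
  rw [smul_mul_smul_comm, smul_mul_smul_comm]
  refine congrArg _ ?_
  simp only [map_one, one_smul, add_mul, mul_add, smul_mul_assoc, mul_smul_comm, smul_add]
  rw [h9]
  abel

end DS

end W1Aux

open W1Aux in
theorem blk_W1 (hTRN : Stmt_TRN.{v}) (_hCMM : Stmt_CMM.{v}) : Stmt_W1.{v} := by
  intro H _ _ _ K _ _ _ N Ω r i j B a w κ δ hN hB hΩ hds haa haΩ hbr hww hww'
  set p : K →L[ℂ] K := i ∘L adjoint i with hpdef
  set u : K →L[ℂ] K := w ∘L adjoint j with hudef
  set Na : K →L[ℂ] K := cor i N + cor j B with hNa
  have hus : star u = j ∘L adjoint w := by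
    rw [star_eq_adjoint, hudef, adjoint_comp, adjoint_adjoint]
  have hps : star p = p := by
    rw [star_eq_adjoint, hpdef, adjoint_comp, adjoint_adjoint]
  have hpp : p * p = p := by
    show (i ∘L adjoint i) ∘L (i ∘L adjoint i) = i ∘L adjoint i
    rw [comp_assoc, ← comp_assoc (adjoint i), hds.hi, id_comp]
  have huu : star u * u = 1 - p := by
    rw [hus]
    show (j ∘L adjoint w) ∘L (w ∘L adjoint j) = _
    rw [comp_assoc, ← comp_assoc (adjoint w), hww, id_comp, eq_sub_iff_add_eq, add_comm]
    exact hds.hs
  have huu' : u * star u = 1 - a * star a := by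
    rw [hus]
    show (w ∘L adjoint j) ∘L (j ∘L adjoint w) = _
    rw [comp_assoc, ← comp_assoc (adjoint j), hds.hj, id_comp]
    exact hww'
  obtain ⟨h1, h2, h3, h4, h5, h6, h7, h8⟩ := alg hpp hps haa huu huu'
  have hji : adjoint j ∘L i = 0 := by
    have h9 := congrArg adjoint hds.hij
    rwa [adjoint_comp, adjoint_adjoint, map_zero] at h9
  have hcr : p * Na = cor i N ∧ Na * p = cor i N := by
    constructor
    · show (i ∘L adjoint i) ∘L (i ∘L N ∘L adjoint i + j ∘L B ∘L adjoint j) = i ∘L N ∘L adjoint i
      rw [comp_add, comp_assoc, ← comp_assoc (adjoint i) i, hds.hi, id_comp, comp_assoc,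
        ← comp_assoc (adjoint i) j, hds.hij, zero_comp, comp_zero, add_zero]
    · show (i ∘L N ∘L adjoint i + j ∘L B ∘L adjoint j) ∘L (i ∘L adjoint i) = i ∘L N ∘L adjoint i
      rw [add_comp, comp_assoc, comp_assoc, ← comp_assoc (adjoint i) i, hds.hi, id_comp, comp_assoc,
        comp_assoc, ← comp_assoc (adjoint j) i, hji, zero_comp, comp_zero, comp_zero, add_zero]
  have hc : p * Na = Na * p := hcr.1.trans hcr.2.symm
  set B₀ : Ef r →L[ℂ] Ef r := adjoint w ∘L Na ∘L w with hB₀
  have hcorB : cor j B₀ = star u * Na * u := by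
    rw [hus]
    rfl
  have hN₀ : cor i N + cor j B₀ = Na * p + star u * Na * u := by rw [hcr.2, hcorB]
  have hTr := hTRN.2.1 r K
  -- norms
  have hnw : ‖w‖ ≤ 1 := by
    refine opNorm_le_bound _ zero_le_one fun x => ?_
    have h9 : ‖w x‖ ^ 2 = ‖x‖ ^ 2 := by
      have h10 : ⟪w x, w x⟫_ℂ = ⟪x, x⟫_ℂ := by
        rw [← adjoint_inner_right, ← comp_apply, hww, id_apply]
      rw [inner_self_eq_norm_sq_to_K, inner_self_eq_norm_sq_to_K] at h10
      exact_mod_cast h10
    rw [one_mul]
    exact (pow_le_pow_iff_left₀ (norm_nonneg _) (norm_nonneg _) two_ne_zero).1 h9.le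
  have hnj : ‖adjoint j‖ ≤ 1 := by
    rw [LinearIsometryEquiv.norm_map]
    refine opNorm_le_bound _ zero_le_one fun x => ?_
    have h9 : ‖j x‖ ^ 2 = ‖x‖ ^ 2 := by
      have h10 : ⟪j x, j x⟫_ℂ = ⟪x, x⟫_ℂ := by
        rw [← adjoint_inner_right, ← comp_apply, hds.hj, id_apply]
      rw [inner_self_eq_norm_sq_to_K, inner_self_eq_norm_sq_to_K] at h10
      exact_mod_cast h10
    rw [one_mul]
    exact (pow_le_pow_iff_left₀ (norm_nonneg _) (norm_nonneg _) two_ne_zero).1 h9.le
  have hna : ‖a‖ ≤ 1 := by
    have h9 := CStarRing.norm_star_mul_self (x := a)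
    rw [haa] at h9
    have h10 : ‖p‖ ≤ 1 := by
      have h11 := CStarRing.norm_star_mul_self (x := p)
      rw [hps, hpp] at h11
      rcases eq_or_ne ‖p‖ 0 with h0 | h0
      · rw [h0]
        exact zero_le_one
      · have : ‖p‖ * 1 = ‖p‖ * ‖p‖ := by rw [mul_one]; exact h11
        exact (mul_left_cancel₀ h0 this).ge
    nlinarith [norm_nonneg a]
  have hδ : 0 ≤ δ := (norm_nonneg _).trans (hbr 1 (Or.inl rfl)).2.2
  have hnc : ∀ e : ℂ, e = 1 ∨ e = Complex.I → ‖star a * dt e Na - dt e Na * star a‖ ≤ δ := by
    intro e he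
    have h9 : star a * dt e Na - dt e Na * star a = star (br (dt e Na) a) := by
      unfold br
      rw [star_sub, star_mul, star_mul, dt_star]
    rw [h9, norm_star]
    exact (hbr e he).2.2
  have hwa : adjoint w ∘L a = 0 := by
    have h9 : j ∘L (adjoint w ∘L a) = 0 := by
      rw [hus] at h3
      exact h3
    calc adjoint w ∘L a = (adjoint j ∘L j) ∘L (adjoint w ∘L a) := by rw [hds.hj, id_comp]
      _ = adjoint j ∘L (j ∘L (adjoint w ∘L a)) := comp_assoc _ _ _
      _ = 0 := by rw [h9, comp_zero]
  have haw : adjoint a ∘L w = 0 := by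
    have h9 := congrArg adjoint hwa
    rwa [adjoint_comp, adjoint_adjoint, map_zero] at h9
  refine ⟨a + u, B₀, ⟨h7, h8⟩, ?_, ?_, ?_⟩
  · have h9 : a + u - (cor i Ω + j ∘L adjoint j) = (a - cor i Ω) + (w - j) ∘L adjoint j := by
      rw [sub_comp, hudef]
      abel
    rw [h9]
    exact haΩ.add (hTr (w - j) (adjoint j)).1
  · have hdB : ∀ e : ℂ, dt e B₀ = adjoint w ∘L dt e Na ∘L w := fun e => dt_conj w Na e
    have hNn : IsStarNormal Na := by
      have h9 : star Na = cor i (star N) + cor j (star B) := by
        rw [hNa, star_add]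
        unfold cor
        rw [star_eq_adjoint, star_eq_adjoint, adjoint_comp, adjoint_comp, adjoint_comp, adjoint_comp,
          adjoint_adjoint, adjoint_adjoint, comp_assoc, comp_assoc]
        rfl
      have h10 : ∀ (X Y : H →L[ℂ] H) (X' Y' : Ef r →L[ℂ] Ef r),
          (cor i X + cor j X') * (cor i Y + cor j Y') = cor i (X * Y) + cor j (X' * Y') := by
        intro X Y X' Y'
        show (i ∘L X ∘L adjoint i + j ∘L X' ∘L adjoint j) ∘L
          (i ∘L Y ∘L adjoint i + j ∘L Y' ∘L adjoint j) =
          i ∘L (X ∘L Y) ∘L adjoint i + j ∘L (X' ∘L Y') ∘L adjoint j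
        have e1 : ∀ (T : K →L[ℂ] H), adjoint i ∘L i ∘L T = T := by
          intro T
          rw [← comp_assoc, hds.hi, id_comp]
        have e2 : ∀ (T : K →L[ℂ] Ef r), adjoint j ∘L j ∘L T = T := by
          intro T
          rw [← comp_assoc, hds.hj, id_comp]
        have e3 : ∀ (T : K →L[ℂ] H), adjoint j ∘L i ∘L T = 0 := by
          intro T
          rw [← comp_assoc, hji, zero_comp]
        have e4 : ∀ (T : K →L[ℂ] Ef r), adjoint i ∘L j ∘L T = 0 := by
          intro T
          rw [← comp_assoc, hds.hij, zero_comp]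
        simp only [comp_add, add_comp, comp_assoc, e1, e2, e3, e4, comp_zero, add_zero, zero_add]
      constructor
      show star Na * Na = Na * star Na
      rw [h9, hNa, h10, h10, hN.star_comm_self.eq, hB.star_comm_self.eq]
    have hXY : dt 1 Na * dt Complex.I Na = dt Complex.I Na * dt 1 Na :=
      dt_comm hNn.star_comm_self.eq
    set X := dt 1 Na with hX
    set Y := dt Complex.I Na with hY
    have hcomm : br (dt 1 B₀) (dt Complex.I B₀) =
        adjoint w ∘L ((br Y a * (star a * X - X * star a)) -
          br X a * (star a * Y - Y * star a)) ∘L w := by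
      unfold br
      rw [hdB, hdB, ← hX, ← hY]
      have e1 : ∀ S T : K →L[ℂ] K, (adjoint w ∘L S ∘L w) * (adjoint w ∘L T ∘L w) =
          adjoint w ∘L (S * (1 - a * star a) * T) ∘L w := by
        intro S T
        show (adjoint w ∘L S ∘L w) ∘L (adjoint w ∘L T ∘L w) =
          adjoint w ∘L ((S ∘L (1 - a * star a)) ∘L T) ∘L w
        rw [← hww']
        simp only [comp_assoc]
      have e2 : ∀ S T : K →L[ℂ] K, adjoint w ∘L ((S * a - a * S) * (star a * T - T * star a)) ∘L w =
          adjoint w ∘L (S * a * (star a * T)) ∘L w := by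
        intro S T
        have h9 : (S * a - a * S) * (star a * T - T * star a) = S * a * (star a * T) -
            a * (S * (star a * T - T * star a)) - S * a * T * star a := by noncomm_ring
        rw [h9, sub_comp, comp_sub, sub_comp, comp_sub]
        have h10 : adjoint w ∘L (a * (S * (star a * T - T * star a))) ∘L w = 0 := by
          show adjoint w ∘L (a ∘L (S * (star a * T - T * star a))) ∘L w = 0
          rw [comp_assoc, ← comp_assoc, hwa, zero_comp]
        have h11 : adjoint w ∘L (S * a * T * star a) ∘L w = 0 := by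
          show adjoint w ∘L ((S * a * T) ∘L adjoint a) ∘L w = 0
          rw [comp_assoc, haw, comp_zero, comp_zero]
        rw [h10, h11, sub_zero, sub_zero]
      rw [e1, e1, sub_comp, comp_sub, e2, e2, ← comp_sub, ← sub_comp, ← comp_sub, ← sub_comp]
      refine congrArg (fun T : K →L[ℂ] K => adjoint w ∘L T ∘L w) ?_
      calc X * (1 - a * star a) * Y - Y * (1 - a * star a) * X =
            (X * Y - Y * X) + (Y * a * (star a * X) - X * a * (star a * Y)) := by noncomm_ring
        _ = _ := by rw [hXY, sub_self, zero_add]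
    rw [hcomm]
    have hnw' : ‖adjoint w‖ ≤ 1 := by
      rw [LinearIsometryEquiv.norm_map]
      exact hnw
    have hprod : ∀ S T : K →L[ℂ] K, ‖S‖ ≤ δ → ‖T‖ ≤ δ → ‖S * T‖ ≤ δ ^ 2 := by
      intro S T hS hT
      calc ‖S * T‖ ≤ ‖S‖ * ‖T‖ := norm_mul_le _ _
        _ ≤ δ * δ := mul_le_mul hS hT (norm_nonneg _) hδ
        _ = δ ^ 2 := by ring
    have hin : ‖(br Y a * (star a * X - X * star a)) - br X a * (star a * Y - Y * star a)‖ ≤
        2 * δ ^ 2 := by
      refine (norm_sub_le _ _).trans ?_
      have g1 := hprod _ _ (hbr Complex.I (Or.inr rfl)).2.2 (hnc 1 (Or.inl rfl))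
      have g2 := hprod _ _ (hbr 1 (Or.inl rfl)).2.2 (hnc Complex.I (Or.inr rfl))
      rw [← hX, ← hY] at g1
      rw [← hX, ← hY] at g2
      linarith
    refine (opNorm_comp_le _ _).trans ?_
    calc ‖adjoint w‖ * ‖((br Y a * (star a * X - X * star a)) -
          br X a * (star a * Y - Y * star a)) ∘L w‖
        ≤ 1 * (2 * δ ^ 2 * 1) := by
          refine mul_le_mul hnw' ?_ (norm_nonneg _) zero_le_one
          refine (opNorm_comp_le _ _).trans ?_
          exact mul_le_mul hin hnw (norm_nonneg _) (by positivity)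
      _ = 2 * δ ^ 2 := by ring
  · intro e he
    have hk := key hps hc h1 h2 h4 h5 huu' e
    rw [hN₀, hk]
    have hfr : a * (star a * dt e Na - dt e Na * star a) * u =
        ((a * (star a * dt e Na - dt e Na * star a)) ∘L w) ∘L adjoint j := by
      rw [hudef]
      rfl
    rw [hfr]
    have ht := hTr ((a * (star a * dt e Na - dt e Na * star a)) ∘L w) (adjoint j)
    have hb := hbr e he
    refine ⟨hb.1.add ht.1, (n1_add_le hb.1 ht.1).trans (add_le_add hb.2.1 (ht.2.1.trans ?_))⟩
    have hn : ‖(a * (star a * dt e Na - dt e Na * star a)) ∘L w‖ ≤ δ := by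
      calc ‖(a * (star a * dt e Na - dt e Na * star a)) ∘L w‖
          ≤ ‖a * (star a * dt e Na - dt e Na * star a)‖ * ‖w‖ := opNorm_comp_le _ _
        _ ≤ (‖a‖ * ‖star a * dt e Na - dt e Na * star a‖) * 1 :=
            mul_le_mul (norm_mul_le _ _) hnw (norm_nonneg _) (by positivity)
        _ ≤ (1 * δ) * 1 := by
            refine mul_le_mul_of_nonneg_right ?_ zero_le_one
            exact mul_le_mul hna (hnc e he) (norm_nonneg _) zero_le_one
        _ = δ := by ring
    calc ‖(a * (star a * dt e Na - dt e Na * star a)) ∘L w‖ * ‖adjoint j‖ * r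
        ≤ (δ * 1) * r := by
          refine mul_le_mul_of_nonneg_right ?_ (Nat.cast_nonneg _)
          exact mul_le_mul hn hnj (norm_nonneg _) hδ
      _ = r * δ := by ring

end Pool.Q2
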